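/-
ROW Lkp. The reserve classes.
PROOF. `kap_ne`: evaluate the first component at `crd α` (`crd α ≠ z`: `base.crz`): it is `1`. `kap_crd`: unfold. `kap_inj`: first components: `ev i + ev z = ev i' + ev z` gives `i = i'` (cancel; `ev = Pi.single _ 1` is injective: evaluate at `i`),
`ev i = ev i'` gives `i = i'`; `ev i + ev z = ev i'` is impossible: evaluate at `z` (`1 = ev i' z`, so `i' = z`; but `i' = crd α' ≠ z`). So `j = 0 ↔ j' = 0`. Second components: `δ.val < 2`, `2 j + δ.val ≤ 2 n + 1 < N ^ 4 + 1` (`n = 9 N ^ 3 + 1`, `N ≥ 2 ^ 40`),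
so the residues in `ZMod (N ^ 4 + 1)` are equal iff the numbers are (`ZMod.natCast_eq_natCast_iff'` or `ZMod.val_cast_of_lt`); `2 j + δ.val = 2 j' + δ'.val` gives `j = j'` and `δ.val = δ'.val` (`ZMod.val_injective`).
-/
import Pool.Agent.H2.LN.LD

set_option autoImplicit false
set_option linter.unusedSectionVars false

namespace Pool.Agent.H2.LN

open Finset Classical
open Pool.Agent.H65.GI

namespace Cx

variable {V : Type} [Fintype V] (X : Cx V)

private theorem Lkp_self {k : ℕ} (i : Fin k) : ev i i = 1 := by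
  unfold ev
  exact Pi.single_eq_same i 1

private theorem Lkp_ne {k : ℕ} {i l : Fin k} (h : l ≠ i) : ev i l = 0 := by
  unfold ev
  exact Pi.single_eq_of_ne h 1

private theorem Lkp_one : (1 : ZMod 2) ≠ 0 := by decide

private theorem Lkp_inj {k : ℕ} {i l : Fin k} (h : ev i = ev l) : i = l := by
  by_contra hne
  have h1 := congrFun h i
  rw [Lkp_self, Lkp_ne hne] at h1
  exact Lkp_one h1

theorem kap_ne (α : Fin X.s) (δ : ZMod 2) (j : ℕ) : (X.kap α δ j).1 ≠ 0 := by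
  intro h
  have hz := X.base.crz α
  have h1 := congrFun h (X.crd α)
  unfold kap at h1
  split_ifs at h1
  · rw [show (ev (X.crd α) + ev X.z, ((δ.val : ℕ) : ZMod (X.N ^ 4 + 1))).1 = ev (X.crd α) + ev X.z from rfl,
      Pi.add_apply, Lkp_self, Lkp_ne hz, add_zero] at h1
    exact Lkp_one h1
  · rw [show (ev (X.crd α), ((2 * j + δ.val : ℕ) : ZMod (X.N ^ 4 + 1))).1 = ev (X.crd α) from rfl, Lkp_self] at h1
    exact Lkp_one h1

private theorem Lkp_nat {N a b : ℕ} (ha : a < N ^ 4 + 1) (hb : b < N ^ 4 + 1)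
    (h : ((a : ℕ) : ZMod (N ^ 4 + 1)) = ((b : ℕ) : ZMod (N ^ 4 + 1))) : a = b := by
  have h1 := (ZMod.natCast_eq_natCast_iff' a b (N ^ 4 + 1)).1 h
  rwa [Nat.mod_eq_of_lt ha, Nat.mod_eq_of_lt hb] at h1

private theorem Lkp_bd (j : ℕ) (hj : j ≤ X.n) (δ : ZMod 2) : 2 * j + δ.val < X.N ^ 4 + 1 := by
  have h1 : δ.val < 2 := ZMod.val_lt δ
  have h2 : j ≤ 9 * X.N ^ 3 + 1 := hj
  have h3 : 40 ≤ X.N := le_trans (by norm_num) X.pm.big
  have h4 : X.N ^ 4 = X.N * X.N ^ 3 := by ring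
  have h5 : 40 * X.N ^ 3 ≤ X.N * X.N ^ 3 := Nat.mul_le_mul_right _ h3
  have h6 : 40 ^ 3 ≤ X.N ^ 3 := Nat.pow_le_pow_left h3 3
  omega

theorem kap_inj {α α' : Fin X.s} {δ δ' : ZMod 2} {j j' : ℕ} (hj : j ≤ X.n) (hj' : j' ≤ X.n)
    (h : X.kap α δ j = X.kap α' δ' j') : X.crd α = X.crd α' ∧ δ = δ' ∧ j = j' := by
  have hz := X.base.crz α
  have hz' := X.base.crz α'
  have hb := X.Lkp_bd j hj δ
  have hb' := X.Lkp_bd j' hj' δ'
  unfold kap at h
  split_ifs at h with h0 h0' h0'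
  · obtain ⟨h1, h2⟩ := Prod.mk.inj h
    have h3 := Lkp_nat (by omega) (by omega) h2
    exact ⟨Lkp_inj (add_right_cancel h1), ZMod.val_injective 2 h3, by omega⟩
  · exfalso
    obtain ⟨h1, -⟩ := Prod.mk.inj h
    have h2 := congrFun h1 X.z
    rw [Pi.add_apply, Lkp_self, Lkp_ne (Ne.symm hz), Lkp_ne (Ne.symm hz'), zero_add] at h2
    exact Lkp_one h2
  · exfalso
    obtain ⟨h1, -⟩ := Prod.mk.inj h
    have h2 := congrFun h1 X.z
    rw [Pi.add_apply, Lkp_self, Lkp_ne (Ne.symm hz), Lkp_ne (Ne.symm hz'), zero_add] at h2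
    exact Lkp_one h2.symm
  · obtain ⟨h1, h2⟩ := Prod.mk.inj h
    have h3 := Lkp_nat hb hb' h2
    have h4 : δ.val < 2 := ZMod.val_lt δ
    have h5 : δ'.val < 2 := ZMod.val_lt δ'
    exact ⟨Lkp_inj h1, ZMod.val_injective 2 (by omega), by omega⟩

theorem kap_crd {α α' : Fin X.s} (δ : ZMod 2) (j : ℕ) (h : X.crd α = X.crd α') :
    X.kap α δ j = X.kap α' δ j := by
  unfold kap
  rw [h]

end Cx

end Pool.Agent.H2.LN
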