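/-
ROW Lbs. Facts about the base.
PROOF. All from `X.base : Base ...` (file Defs). `R_symm`: `Hsym`. `R_adj`, `R_sd`: `Hadj`: `χ v + χ u = kap`; evaluate the first component at `crd α`: `(kap α δ j).1 (crd α) = 1` in both cases (`crd α ≠ z`), so `sd α u = sd α v + 1` in `ZMod 2` (`a + b = 1` gives `b = a + 1`: `decide` on `ZMod 2`).
`M_sd`: `adj`, `cr1`. `M_M`: `inv`. `R_dj`: both classes equal `χ v + χ u`. `R_M`: `M β v = u ≠ v` (as `G.Adj v u`), so `cl β = χ v + χ u = kap α δ j`, whose first component is in `Xi z` (`ev i` or `ev i + ev z`, `i ≠ z`), against `clX`. Cards: `Hle`, `Hge`, `Heq` with `kap_ne`.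
`R_D`: two different `u, u' ∈ D` adjacent to `v` contradict `sep` (`x = v`). `R_MD`: `u ↦ M α u` is injective (`inv`) and maps the set into `(bl G v 2).filter (· ∈ D)` (`u` adjacent to `v`, `M α u = u` or adjacent to `u`; rules for `bl` in `H65/GI/Lll`: `bl_self, bl_adj, bl_mono`), `few`. `M_D`: contrapositive of `off`.
-/
import Pool.Agent.H2.LN.LD
import Pool.Agent.H2.LN.L.Lkp
import Pool.Agent.H65.GI.Lll

set_option autoImplicit false
set_option linter.unusedSectionVars false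

namespace Pool.Agent.H2.LN

open Finset Classical
open Pool.Agent.H65.GI

namespace Cx

variable {V : Type} [Fintype V] (X : Cx V)

private theorem Lbs_two (a b : ZMod 2) (h : a + b = 1) : b = a + 1 := by
  revert a b
  decide

private theorem Lbs_kap (α : Fin X.s) (δ : ZMod 2) (j : ℕ) : (X.kap α δ j).1 (X.crd α) = 1 := by
  unfold Cx.kap
  have hz := X.base.crz α
  split_ifs with h
  · show (ev (X.crd α) + ev X.z) (X.crd α) = 1
    rw [Pi.add_apply, ev, ev, Pi.single_eq_same, Pi.single_eq_of_ne hz, add_zero]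
  · show ev (X.crd α) (X.crd α) = 1
    rw [ev, Pi.single_eq_same]

private theorem Lbs_Xi (α : Fin X.s) (δ : ZMod 2) (j : ℕ) : Xi X.z (X.kap α δ j).1 := by
  unfold Cx.kap
  have hz := X.base.crz α
  split_ifs with h
  · exact Or.inr (Or.inr ⟨X.crd α, hz, rfl⟩)
  · exact Or.inr (Or.inl ⟨X.crd α, rfl⟩)

theorem R_symm {α : Fin X.s} {δ : ZMod 2} {j : ℕ} {u v : V} (h : u ∈ X.R α δ j v) : v ∈ X.R α δ j u :=
  X.base.Hsym _ _ _ h

theorem R_adj {α : Fin X.s} {δ : ZMod 2} {j : ℕ} {u v : V} (h : u ∈ X.R α δ j v) : X.G.Adj v u :=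
  (X.base.Hadj _ _ _ h).1

theorem R_sd {α : Fin X.s} {δ : ZMod 2} {j : ℕ} {u v : V} (h : u ∈ X.R α δ j v) :
    X.sd α u = X.sd α v + 1 := by
  have h2 := (X.base.Hadj _ _ _ h).2
  apply Lbs_two
  show (X.χ v).1 (X.crd α) + (X.χ u).1 (X.crd α) = 1
  rw [← Lbs_kap X α δ j, ← h2]
  rfl

theorem M_sd {α : Fin X.s} {v : V} (h : X.M α v ≠ v) : X.sd α (X.M α v) = X.sd α v + 1 := by
  have h2 := (X.base.adj α v h).2
  apply Lbs_two
  show (X.χ v).1 (X.crd α) + (X.χ (X.M α v)).1 (X.crd α) = 1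
  rw [← X.base.cr1 α, ← h2]
  rfl

theorem M_M (α : Fin X.s) (v : V) : X.M α (X.M α v) = v := X.base.inv α v

theorem M_adj {α : Fin X.s} {v : V} (h : X.M α v ≠ v) : X.G.Adj v (X.M α v) := (X.base.adj α v h).1

/-- different classes have no common edge -/
theorem R_dj {α α' : Fin X.s} {δ δ' : ZMod 2} {j j' : ℕ} {u v : V} (h : u ∈ X.R α δ j v)
    (h' : u ∈ X.R α' δ' j' v) : X.kap α δ j = X.kap α' δ' j' :=
  (X.base.Hadj _ _ _ h).2.symm.trans (X.base.Hadj _ _ _ h').2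

theorem R_M {α β : Fin X.s} {δ : ZMod 2} {j : ℕ} {u v : V} (h : u ∈ X.R α δ j v) : X.M β v ≠ u := by
  intro hM
  have h1 := X.base.Hadj _ _ _ h
  have hne : X.M β v ≠ v := by
    rw [hM]
    exact h1.1.ne'
  have h2 := (X.base.adj β v hne).2
  rw [hM, h1.2] at h2
  refine X.base.clX β ?_
  rw [← h2]
  exact Lbs_Xi X α δ j

theorem R_card_le (α : Fin X.s) (δ : ZMod 2) (j : ℕ) (v : V) : ((X.R α δ j v).card : ℝ) ≤ X.dd := by
  have h := X.base.Hle (X.kap α δ j) v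
  unfold Cx.dd Cx.R
  exact_mod_cast h

theorem R_card_ge (α : Fin X.s) (δ : ZMod 2) (j : ℕ) (v : V) : X.dd ≤ ((X.R α δ j v).card : ℝ) + 1 := by
  have h := X.base.Hge (X.kap α δ j) v (X.kap_ne α δ j)
  unfold Cx.dd Cx.R
  exact_mod_cast h

theorem R_card_eq (α : Fin X.s) (δ : ZMod 2) (j : ℕ) {v : V} (h : v ∉ X.D) :
    ((X.R α δ j v).card : ℝ) = X.dd := by
  have h := X.base.Heq (X.kap α δ j) v (X.kap_ne α δ j) h
  unfold Cx.dd Cx.R
  exact_mod_cast h

/-- a vertex of `D` among the neighbours of `v` -/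
theorem R_D (α : Fin X.s) (δ : ZMod 2) (j : ℕ) (v : V) :
    ((X.R α δ j v).filter (fun u => u ∈ X.D)).card ≤ 1 := by
  rw [Finset.card_le_one]
  intro u hu u' hu'
  rw [mem_filter] at hu hu'
  by_contra hne
  exact (X.base.sep u hu.2 u' hu'.2 hne).2 v ⟨(X.R_adj hu.1).symm, X.R_adj hu'.1⟩

theorem R_MD (α : Fin X.s) (δ : ZMod 2) (j : ℕ) (v : V) :
    ((X.R α δ j v).filter (fun u => X.M α u ∈ X.D)).card ≤ X.N ^ 5 := by
  refine le_trans (Finset.card_le_card_of_injOn (fun u => X.M α u) ?_ ?_) (X.base.few v)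
  · intro u hu
    have hu' := Finset.mem_coe.1 hu
    rw [mem_filter] at hu'
    rw [Finset.mem_coe, mem_filter]
    refine ⟨?_, hu'.2⟩
    have h1 : u ∈ bl X.G v 1 := bl_adj X.G (bl_self X.G v 0) (X.R_adj hu'.1)
    show X.M α u ∈ bl X.G v 2
    by_cases hM : X.M α u = u
    · rw [hM]
      exact bl_mono X.G v (by norm_num) h1
    · exact bl_adj X.G h1 (X.M_adj hM)
  · intro u _ u' _ h
    have h2 : X.M α (X.M α u) = X.M α (X.M α u') := congrArg (X.M α) h
    rwa [X.M_M, X.M_M] at h2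

theorem M_D {α : Fin X.s} {v : V} (h : X.M α v = v) : v ∈ X.D := by
  by_contra hv
  exact X.base.off α v hv h

end Cx

end Pool.Agent.H2.LN
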