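/-
ROW Lnm. Numbers.
PROOF. `X.pw x = Δ ^ x`. `X.pm : Pm N Δ`: `2 ^ 40 ≤ N`, `N ^ 40000 ≤ Δ`. `pwN`: `N ^ k = (N ^ 40000) ^ (k / 40000) ≤ Δ ^ (k / 40000) ≤ Δ ^ x` (`Real.rpow_natCast`, `Real.rpow_le_rpow`, `Δ ≥ 1`). `pw_add`: `Real.rpow_add`.
`mT_bd`: `mT N = 2 ^ k0 (N ^ 4 + 1)`, `k0 = Nat.clog 2 (N ^ 50)`: `N ^ 50 ≤ 2 ^ k0` (`Nat.le_pow_clog`), `2 ^ (k0 - 1) < N ^ 50` (`Nat.pow_pred_clog_lt_self`), so `2 ^ k0 < 2 N ^ 50`; `2 N ^ 50 (N ^ 4 + 1) ≤ 3 N ^ 54`.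
`dd = ⌊Δ / mT (1 - Δ ^ (-2/5))⌋`: `dd ≤ Δ / mT ≤ Δ / N ^ 54`; `Δ ^ (-2/5) ≤ 1 / 4` and `Δ / mT ≥ 4` (`pwN` with `k = 56`), so `dd ≥ (3 / 4) Δ / mT - 1 ≥ Δ / (2 mT) ≥ Δ / (6 N ^ 54)`.
`th_bd`: `q = ⌊Δ ^ (3/5)⌋ ≤ Δ ^ (3/5)`, `q ≥ Δ ^ (3/5) - 1 ≥ (100 / 101) Δ ^ (3/5)`; `th = 1 / q`. `s_bd`: `base.sge`, `base.sle`.
`rho_bd`: `rq = 16 (Δ - s)` (natural numbers, `s ≤ Δ`), `Δ / N ^ 50 ≤ Δ - s ≤ Δ / (1024 N ^ 49)` (`base.sle`, `base.sge`), `Δ / 2 ≤ s ≤ Δ`: `rho = 1 / (16 (Δ - s) s) ≥ 64 N ^ 49 / Δ ^ 2`, `≤ N ^ 50 / (8 Δ ^ 2)`. `pw (-2) = 1 / Δ ^ 2`.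
-/
import Pool.Agent.H2.LN.LD

set_option autoImplicit false
set_option linter.unusedSectionVars false

namespace Pool.Agent.H2.LN

open Finset Classical
open Pool.Agent.H65.GI

namespace Cx

variable {V : Type} [Fintype V] (X : Cx V)

theorem Lnm_N1 : (2 : ℝ) ^ 40 ≤ X.N := by
  have h := X.pm.big
  exact_mod_cast h

theorem Lnm_N0 : (0 : ℝ) < X.N := lt_of_lt_of_le (by positivity) X.Lnm_N1

theorem Lnm_ge1 : (1 : ℝ) ≤ X.N := le_trans (by norm_num) X.Lnm_N1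

theorem Lnm_D : (X.N : ℝ) ^ 40000 ≤ X.Δ := by
  have h := X.pm.pow
  exact_mod_cast h

theorem Lnm_D1 : (1 : ℝ) ≤ X.Δ := le_trans (one_le_pow₀ X.Lnm_ge1) X.Lnm_D

theorem Lnm_D0 : (0 : ℝ) < X.Δ := lt_of_lt_of_le one_pos X.Lnm_D1

theorem Lnm_pw1 : X.pw 1 = X.Δ := by
  unfold pw
  rw [Real.rpow_one]

theorem pwN (k : ℕ) (x : ℝ) (h : (k : ℝ) ≤ 40000 * x) : (X.N : ℝ) ^ k ≤ X.pw x := by
  unfold pw
  have hx : 0 ≤ x := by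
    have h0 : (0 : ℝ) ≤ k := Nat.cast_nonneg k
    linarith
  have h1 : (X.N : ℝ) ^ k = (X.N : ℝ) ^ (k : ℝ) := (Real.rpow_natCast _ _).symm
  have h2 : (X.N : ℝ) ^ (k : ℝ) ≤ (X.N : ℝ) ^ (40000 * x) := Real.rpow_le_rpow_of_exponent_le X.Lnm_ge1 h
  have h3 : (X.N : ℝ) ^ (40000 * x) = ((X.N : ℝ) ^ (40000 : ℕ)) ^ x := by
    rw [Real.rpow_mul X.Lnm_N0.le]
    congr 1
    rw [← Real.rpow_natCast]
    norm_num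
  rw [h1]
  refine le_trans h2 ?_
  rw [h3]
  exact Real.rpow_le_rpow (pow_nonneg X.Lnm_N0.le _) X.Lnm_D hx

theorem pw_add (x y : ℝ) : X.pw x * X.pw y = X.pw (x + y) := by
  unfold pw
  rw [Real.rpow_add X.Lnm_D0]

theorem pw_pos (x : ℝ) : 0 < X.pw x := by
  unfold pw
  exact Real.rpow_pos_of_pos X.Lnm_D0 x

theorem N_big : (2 : ℝ) ^ 40 ≤ X.N := X.Lnm_N1

theorem Lnm_neg (x : ℝ) : X.pw (-x) = 1 / X.pw x := by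
  unfold pw
  rw [Real.rpow_neg X.Lnm_D0.le, one_div]

theorem mT_bd : (X.N : ℝ) ^ 54 ≤ mT X.N ∧ (mT X.N : ℝ) ≤ 3 * X.N ^ 54 := by
  have hN : 2 ^ 40 ≤ X.N := X.pm.big
  have hN1 : 1 ≤ X.N := le_trans (by norm_num) hN
  have h1 : X.N ^ 50 ≤ 2 ^ k0 X.N := Nat.le_pow_clog (by norm_num) _
  have h2 : 2 ^ k0 X.N ≤ 2 * X.N ^ 50 := by
    have h3 : 1 < X.N ^ 50 := lt_of_lt_of_le (by norm_num : 1 < (2 ^ 40) ^ 50) (Nat.pow_le_pow_left hN 50)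
    have h4 : 2 ^ (k0 X.N).pred < X.N ^ 50 := Nat.pow_pred_clog_lt_self (by norm_num) h3
    have h5 : 0 < k0 X.N := Nat.clog_pos (by norm_num) h3
    have h6 : 2 ^ k0 X.N = 2 ^ (k0 X.N).pred * 2 := by
      rw [← pow_succ]
      congr 1
      exact (Nat.succ_pred_eq_of_pos h5).symm
    rw [h6]
    omega
  have h3 : 2 ≤ X.N ^ 4 := le_trans (by norm_num : 2 ≤ (2 ^ 40) ^ 4) (Nat.pow_le_pow_left hN 4)
  have h4 : X.N ^ 54 ≤ mT X.N := by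
    unfold mT
    calc X.N ^ 54 = X.N ^ 50 * X.N ^ 4 := by ring
      _ ≤ 2 ^ k0 X.N * (X.N ^ 4 + 1) := Nat.mul_le_mul h1 (Nat.le_succ _)
  have h5 : mT X.N ≤ 3 * X.N ^ 54 := by
    unfold mT
    have h6 : 2 * X.N ^ 50 ≤ X.N ^ 54 := by
      calc 2 * X.N ^ 50 ≤ X.N ^ 4 * X.N ^ 50 := Nat.mul_le_mul_right _ h3
        _ = X.N ^ 54 := by ring
    calc 2 ^ k0 X.N * (X.N ^ 4 + 1) ≤ (2 * X.N ^ 50) * (X.N ^ 4 + 1) := Nat.mul_le_mul_right _ h2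
      _ = 2 * X.N ^ 54 + 2 * X.N ^ 50 := by ring
      _ ≤ 3 * X.N ^ 54 := by omega
  constructor
  · exact_mod_cast h4
  · exact_mod_cast h5

theorem Lnm_r : 8 ≤ (X.Δ : ℝ) / mT X.N := by
  obtain ⟨h1, h2⟩ := X.mT_bd
  have h3 := X.pwN 56 1 (by norm_num)
  rw [X.Lnm_pw1] at h3
  have hN := X.Lnm_N1
  have h0 : (0 : ℝ) < mT X.N := lt_of_lt_of_le (pow_pos X.Lnm_N0 54) h1
  rw [le_div_iff₀ h0]
  refine le_trans ?_ h3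
  have h4 : (8 : ℝ) * mT X.N ≤ 8 * (3 * X.N ^ 54) := by linarith
  refine le_trans h4 ?_
  have h5 : (X.N : ℝ) ^ 56 = X.N ^ 2 * X.N ^ 54 := by ring
  rw [h5]
  have h6 : (24 : ℝ) ≤ X.N ^ 2 := by
    have : (2 : ℝ) ^ 40 * 2 ^ 40 ≤ X.N * X.N := mul_le_mul hN hN (by positivity) X.Lnm_N0.le
    nlinarith [this]
  have h7 : (0 : ℝ) ≤ X.N ^ 54 := pow_nonneg X.Lnm_N0.le _
  nlinarith [h6, h7]

theorem dd_mT : X.dd ≤ X.pw 1 / mT X.N ∧ X.pw 1 / mT X.N ≤ 2 * X.dd := by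
  have hr := X.Lnm_r
  rw [X.Lnm_pw1]
  have he : X.pw (-(2 : ℝ) / 5) ≤ 1 / 4 := by
    have h1 : X.pw (-(2 : ℝ) / 5) = 1 / X.pw (2 / 5) := by
      rw [← X.Lnm_neg]
      congr 1
      ring
    rw [h1]
    have h2 := X.pwN 1 (2 / 5) (by norm_num)
    rw [pow_one] at h2
    have h3 : (4 : ℝ) ≤ X.pw (2 / 5) := le_trans (le_trans (by norm_num) X.Lnm_N1) h2
    exact one_div_le_one_div_of_le (by norm_num) h3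
  have he0 : 0 < X.pw (-(2 : ℝ) / 5) := X.pw_pos _
  have hdd : X.dd = ((⌊(X.Δ : ℝ) / mT X.N * (1 - X.pw (-(2 : ℝ) / 5))⌋₊ : ℕ) : ℝ) := rfl
  rw [hdd]
  set r := (X.Δ : ℝ) / mT X.N with hrd
  set e := X.pw (-(2 : ℝ) / 5) with hed
  have h0 : 0 ≤ r * (1 - e) := mul_nonneg (by linarith) (by linarith)
  have h1 := Nat.floor_le h0
  have h2 := Nat.lt_floor_add_one (r * (1 - e))
  constructor
  · nlinarith [h1, he0, hr]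
  · nlinarith [h2, he, hr]

theorem dd_bd : X.pw 1 / (8 * X.N ^ 54) ≤ X.dd ∧ X.dd ≤ X.pw 1 / X.N ^ 54 := by
  obtain ⟨h1, h2⟩ := X.mT_bd
  obtain ⟨h3, h4⟩ := X.dd_mT
  have hD := X.pw_pos 1
  have hn : (0 : ℝ) < X.N ^ 54 := pow_pos X.Lnm_N0 54
  have hm : (0 : ℝ) < mT X.N := lt_of_lt_of_le hn h1
  constructor
  · have h5 : X.pw 1 / (3 * X.N ^ 54) ≤ X.pw 1 / mT X.N := div_le_div_of_nonneg_left hD.le hm h2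
    have h6 : X.pw 1 / (8 * X.N ^ 54) = X.pw 1 / (3 * X.N ^ 54) * (3 / 8) := by
      field_simp
      try ring
    rw [h6]
    have h7 : 0 < X.pw 1 / (3 * X.N ^ 54) := div_pos hD (by positivity)
    linarith
  · exact le_trans h3 (div_le_div_of_nonneg_left hD.le hn h1)

theorem th_bd : X.pw (-(3 : ℝ) / 5) ≤ X.th ∧ X.th ≤ 101 / 100 * X.pw (-(3 : ℝ) / 5) ∧ 0 < X.q ∧ X.th ≤ 1 := by
  have h1 : X.pw (-(3 : ℝ) / 5) = 1 / X.pw (3 / 5) := by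
    rw [← X.Lnm_neg]
    congr 1
    ring
  have h2 := X.pwN 1 (3 / 5) (by norm_num)
  rw [pow_one] at h2
  have h3 : (1000 : ℝ) ≤ X.pw (3 / 5) := le_trans (le_trans (by norm_num) X.Lnm_N1) h2
  have h4 : (X.q : ℝ) ≤ X.pw (3 / 5) := Nat.floor_le (X.pw_pos _).le
  have h5 : X.pw (3 / 5) < X.q + 1 := Nat.lt_floor_add_one _
  have h6 : (0 : ℝ) < X.q := by linarith
  have h7 : 0 < X.q := by exact_mod_cast h6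
  have h8 : (1 : ℝ) ≤ X.q := by exact_mod_cast h7
  rw [h1]
  unfold th
  refine ⟨one_div_le_one_div_of_le h6 h4, ?_, h7, ?_⟩
  · rw [mul_one_div, div_le_div_iff₀ h6 (by linarith)]
    linarith
  · rw [div_le_one h6]
    exact h8

theorem s_bd : X.pw 1 / 2 ≤ X.s ∧ (X.s : ℝ) ≤ X.pw 1 := by
  have h1 := X.base.sle
  have h2 := X.base.sge
  rw [X.Lnm_pw1]
  have hD := X.Lnm_D0
  have hn : (1 : ℝ) ≤ X.N ^ 49 := one_le_pow₀ X.Lnm_ge1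
  constructor
  · have h3 : (X.Δ : ℝ) / X.N ^ 49 ≤ X.Δ := div_le_self hD.le hn
    linarith
  · have h3 : (0 : ℝ) ≤ (X.Δ : ℝ) / X.N ^ 50 := div_nonneg hD.le (pow_nonneg X.Lnm_N0.le _)
    linarith

theorem rho_bd : X.N ^ 49 * X.pw (-2) ≤ X.rho ∧ X.rho ≤ X.N ^ 51 * X.pw (-2) := by
  have h1 := X.base.sle
  have h2 := X.base.sge
  obtain ⟨h3, h4⟩ := X.s_bd
  have hD := X.Lnm_D0
  have hN := X.Lnm_N0
  have hN1 := X.Lnm_ge1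
  have hs : X.s ≤ X.Δ := by
    rw [X.Lnm_pw1] at h4
    exact_mod_cast h4
  have hrq : (rq X.Δ X.s : ℝ) = 16 * ((X.Δ : ℝ) - X.s) := by
    unfold rq
    push_cast [Nat.cast_sub hs]
    ring
  have hpw : X.pw (-2) = 1 / (X.Δ : ℝ) ^ 2 := by
    rw [X.Lnm_neg]
    unfold pw
    congr 1
    rw [← Real.rpow_natCast]
    norm_num
  rw [X.Lnm_pw1] at h3 h4
  have hn49 : (0 : ℝ) < X.N ^ 49 := pow_pos hN 49
  have hn50 : (0 : ℝ) < X.N ^ 50 := pow_pos hN 50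
  unfold rho
  rw [hrq, hpw]
  have he1 : (X.Δ : ℝ) / X.N ^ 50 ≤ X.Δ - X.s := by linarith
  have he2 : (X.Δ : ℝ) - X.s ≤ X.Δ / X.N ^ 49 / 1024 := by linarith
  have he0 : 0 < (X.Δ : ℝ) / X.N ^ 50 := div_pos hD hn50
  have hs0 : (0 : ℝ) < X.s := by linarith
  have hp : 0 < 16 * ((X.Δ : ℝ) - X.s) * X.s := mul_pos (by linarith) hs0
  constructor
  · rw [mul_one_div, div_le_div_iff₀ (pow_pos hD 2) hp, one_mul]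
    have h5 : ((X.Δ : ℝ) - X.s) * X.s ≤ (X.Δ / X.N ^ 49 / 1024) * X.Δ :=
      mul_le_mul he2 h4 hs0.le (by positivity)
    have h6 : (X.N : ℝ) ^ 49 * ((X.Δ / X.N ^ 49 / 1024) * X.Δ) = X.Δ ^ 2 / 1024 := by
      field_simp
    have h7 : (X.N : ℝ) ^ 49 * (16 * ((X.Δ : ℝ) - X.s) * X.s) ≤ 16 * (X.Δ ^ 2 / 1024) := by
      rw [← h6]
      nlinarith [mul_le_mul_of_nonneg_left h5 hn49.le]
    have h8 : (0 : ℝ) ≤ (X.Δ : ℝ) ^ 2 := sq_nonneg _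
    linarith
  · rw [mul_one_div, div_le_div_iff₀ hp (pow_pos hD 2), one_mul]
    have h5 : (X.Δ / X.N ^ 50) * ((X.Δ : ℝ) / 2) ≤ ((X.Δ : ℝ) - X.s) * X.s :=
      mul_le_mul he1 h3 (by positivity) (by linarith)
    have h6 : (X.N : ℝ) ^ 51 * ((X.Δ / X.N ^ 50) * ((X.Δ : ℝ) / 2)) = X.N * X.Δ ^ 2 / 2 := by
      field_simp
    have h7 : 16 * (X.N * (X.Δ : ℝ) ^ 2 / 2) ≤ (X.N : ℝ) ^ 51 * (16 * ((X.Δ : ℝ) - X.s) * X.s) := by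
      rw [← h6]
      nlinarith [mul_le_mul_of_nonneg_left h5 (pow_pos hN 51).le]
    have h8 : (0 : ℝ) ≤ (X.Δ : ℝ) ^ 2 := sq_nonneg _
    nlinarith [mul_le_mul_of_nonneg_right hN1 h8]

end Cx

end Pool.Agent.H2.LN
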