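/-
ROW Ll2. Norms; sums over nodes.
PROOF. `A_l2`: Cauchy-Schwarz: `(∑_{b ∈ R a} P b) ^ 2 ≤ |R a| ∑_{b ∈ R a} P b ^ 2` (`sq_sum_le_card_mul_sum_sq`), so `(A P a) ^ 2 ≤ (1 / dd) ∑_{b ∈ R a} P b ^ 2` (`R_card_le`), and `∑_a ∑_{b ∈ R a} P b ^ 2 = ∑_b |R b| P b ^ 2 ≤ dd ∑ P b ^ 2` (`R_symm`, `Finset.sum_comm`).
`M α` is an involution of `V` (`M_M`), i.e. an equivalence (`Function.Involutive.toPerm`); `mv α F x = nd α F (M α x)` (`M α x ≠ x ↔ M α (M α x) ≠ M α x`). `mv_sum`, `mv_l2`, `mv_adj`: `Equiv.sum_comp`; `nd ^ 2 ≤ F ^ 2`. `nd_dv`: split on `M α x = x`.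
-/
import Pool.Agent.H2.LN.LD
import Pool.Agent.H2.LN.L.Lbs
import Pool.Agent.H2.LN.L.Lnm

set_option autoImplicit false
set_option linter.unusedSectionVars false

namespace Pool.Agent.H2.LN

open Finset Classical
open Pool.Agent.H65.GI

namespace Cx

variable {V : Type} [Fintype V] {X : Cx V}

theorem A_l2 (α : Fin X.s) (δ : ZMod 2) (j : ℕ) (P : V → ℝ) :
    ∑ a, X.A α δ j P a ^ 2 ≤ ∑ x, P x ^ 2 := by
  have hd0 : 0 ≤ X.dd := by
    unfold dd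
    exact Nat.cast_nonneg _
  by_cases h0 : X.dd = 0
  · have h1 : ∀ a, X.A α δ j P a = 0 := by
      intro a
      unfold A
      rw [h0, div_zero]
    calc ∑ a, X.A α δ j P a ^ 2 = ∑ _a : V, (0 : ℝ) := Finset.sum_congr rfl fun a _ => by rw [h1 a]; ring
      _ = 0 := Finset.sum_const_zero
      _ ≤ ∑ x, P x ^ 2 := Finset.sum_nonneg fun x _ => sq_nonneg _
  have hd : 0 < X.dd := lt_of_le_of_ne hd0 (Ne.symm h0)
  have step : ∀ a, X.A α δ j P a ^ 2 ≤ (∑ b ∈ X.R α δ j a, P b ^ 2) / X.dd := by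
    intro a
    unfold A
    rw [div_pow, div_le_div_iff₀ (pow_pos hd 2) hd]
    have h1 : (∑ b ∈ X.R α δ j a, P b) ^ 2 ≤ ((X.R α δ j a).card : ℝ) * ∑ b ∈ X.R α δ j a, P b ^ 2 :=
      sq_sum_le_card_mul_sum_sq
    have h2 : 0 ≤ ∑ b ∈ X.R α δ j a, P b ^ 2 := Finset.sum_nonneg fun x _ => sq_nonneg _
    have h3 : ((X.R α δ j a).card : ℝ) * ∑ b ∈ X.R α δ j a, P b ^ 2 ≤ X.dd * ∑ b ∈ X.R α δ j a, P b ^ 2 :=
      mul_le_mul_of_nonneg_right (X.R_card_le α δ j a) h2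
    calc (∑ b ∈ X.R α δ j a, P b) ^ 2 * X.dd ≤ (X.dd * ∑ b ∈ X.R α δ j a, P b ^ 2) * X.dd :=
          mul_le_mul_of_nonneg_right (h1.trans h3) hd0
      _ = (∑ b ∈ X.R α δ j a, P b ^ 2) * X.dd ^ 2 := by ring
  have swap : ∑ a, ∑ b ∈ X.R α δ j a, P b ^ 2 = ∑ b, ∑ _a ∈ X.R α δ j b, P b ^ 2 := by
    refine Finset.sum_comm' ?_
    intro a b
    constructor
    · rintro ⟨_, h⟩
      exact ⟨X.R_symm h, Finset.mem_univ _⟩
    · rintro ⟨h, _⟩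
      exact ⟨Finset.mem_univ _, X.R_symm h⟩
  calc ∑ a, X.A α δ j P a ^ 2 ≤ ∑ a, (∑ b ∈ X.R α δ j a, P b ^ 2) / X.dd :=
        Finset.sum_le_sum fun a _ => step a
    _ = (∑ b, ∑ _a ∈ X.R α δ j b, P b ^ 2) / X.dd := by rw [← Finset.sum_div, swap]
    _ ≤ ∑ x, P x ^ 2 := by
        rw [div_le_iff₀ hd, Finset.sum_mul]
        refine Finset.sum_le_sum fun b _ => ?_
        rw [Finset.sum_const, nsmul_eq_mul, mul_comm]
        exact mul_le_mul_of_nonneg_left (X.R_card_le α δ j b) (sq_nonneg _)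

theorem Ll2_mv (α : Fin X.s) (F : V → ℝ) (x : V) : X.mv α F x = X.nd α F (X.M α x) := by
  unfold mv nd
  rw [X.M_M α x]
  by_cases h : X.M α x = x
  · rw [if_neg (not_not.2 h), if_neg (not_not.2 h.symm)]
  · rw [if_pos h, if_pos (Ne.symm h)]

theorem Ll2_comp (α : Fin X.s) (F : V → ℝ) : ∑ x, F (X.M α x) = ∑ x, F x :=
  Equiv.sum_comp (Function.Involutive.toPerm (X.M α) (X.M_M α)) F

theorem mv_sum (α : Fin X.s) (F : V → ℝ) : ∑ x, X.mv α F x = ∑ x, X.nd α F x := by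
  rw [← Ll2_comp α (X.nd α F)]
  exact Finset.sum_congr rfl fun x _ => Ll2_mv α F x

theorem nd_dv (α : Fin X.s) (F : V → ℝ) : ∑ x, F x = ∑ x, X.nd α F x + ∑ x, X.dv α F x := by
  rw [← Finset.sum_add_distrib]
  refine Finset.sum_congr rfl fun x _ => ?_
  unfold nd dv
  by_cases h : X.M α x = x
  · rw [if_neg (not_not.2 h), if_pos h, zero_add]
  · rw [if_pos h, if_neg h, add_zero]

theorem mv_l2 (α : Fin X.s) (F : V → ℝ) : ∑ x, X.mv α F x ^ 2 ≤ ∑ x, F x ^ 2 := by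
  have h1 : ∑ x, X.mv α F x ^ 2 = ∑ x, X.nd α F x ^ 2 := by
    rw [← Ll2_comp α (fun x => X.nd α F x ^ 2)]
    exact Finset.sum_congr rfl fun x _ => by rw [Ll2_mv α F x]
  rw [h1]
  refine Finset.sum_le_sum fun x _ => ?_
  unfold nd
  by_cases h : X.M α x = x
  · rw [if_neg (not_not.2 h)]
    have : (0 : ℝ) ^ 2 = 0 := by norm_num
    rw [this]
    exact sq_nonneg _
  · rw [if_pos h]

/-- `∑ (mv P) Q = ∑ P (mv Q)` -/
theorem mv_adj (α : Fin X.s) (P Q : V → ℝ) : ∑ x, X.mv α P x * Q x = ∑ x, P x * X.mv α Q x := by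
  rw [← Ll2_comp α (fun x => X.mv α P x * Q x)]
  refine Finset.sum_congr rfl fun x _ => ?_
  show X.mv α P (X.M α x) * Q (X.M α x) = P x * X.mv α Q x
  unfold mv
  rw [X.M_M α x]
  by_cases h : X.M α x = x
  · rw [if_neg (not_not.2 h.symm), if_neg (not_not.2 h), zero_mul, mul_zero]
  · rw [if_pos (Ne.symm h), if_pos h]

end Cx

end Pool.Agent.H2.LN
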