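/-
ROW Lop. The operator `A`.
PROOF. `A P a = (∑ b ∈ R a, P b) / dd`, `dd ≥ 0` (a natural number). `A_mono`, `A_nn`: `Finset.sum_le_sum`, `div_le_div_of_nonneg_right`. Interchange of the sums with `R_symm`: `∑_a ∑_{b ∈ R a} g a b = ∑_b ∑_{a ∈ R b} g a b` (write the inner sums with `if b ∈ R a`, `Finset.sum_comm`).
`A_sum_le`: `∑_a A P a = ∑_b P b |R b| / dd ≤ ∑ P b` (`R_card_le`; if `dd = 0` everything is `0`; `div_le_one_of_le₀`). `A_sum_ge`: `|R b| / dd = 1` for `b ∉ D` and `≥ 1 - 1 / dd` for `b ∈ D` (`R_card_eq`, `R_card_ge`; `dd > 0` can be taken from `X.pm`: `dd` is the floor of a number `≥ 1`; you may import Lnm and use `dd_bd`, `pw_pos`).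
`A_adj`: both sides are `∑ over pairs a, b with b ∈ R a of P a Q b / dd`. `A_box`: `∑_{a ∈ B} A P a = ∑_b P b |R b ∩ B| / dd ≤ ∑_b P b k / dd ≤ k / dd`.
-/
import Pool.Agent.H2.LN.LD
import Pool.Agent.H2.LN.L.Lbs
import Pool.Agent.H2.LN.L.Lnm

set_option autoImplicit false
set_option linter.unusedSectionVars false

namespace Pool.Agent.H2.LN

open Finset Classical
open Pool.Agent.H65.GI

namespace Cx

variable {V : Type} [Fintype V] {X : Cx V}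

theorem Lop_comm (X : Cx V) (α : Fin X.s) (δ : ZMod 2) (j : ℕ) (g : V → V → ℝ) :
    ∑ a, ∑ b ∈ X.R α δ j a, g a b = ∑ b, ∑ a ∈ X.R α δ j b, g a b := by
  refine Finset.sum_comm' fun x y => ?_
  constructor
  · rintro ⟨_, h⟩
    exact ⟨X.R_symm h, Finset.mem_univ _⟩
  · rintro ⟨h, _⟩
    exact ⟨Finset.mem_univ _, X.R_symm h⟩

theorem Lop_dd_pos (X : Cx V) : 0 < X.dd := by
  have hN : (0 : ℝ) < X.N := lt_of_lt_of_le (by norm_num) X.N_big
  refine lt_of_lt_of_le ?_ X.dd_bd.1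
  exact div_pos (X.pw_pos 1) (mul_pos (by norm_num) (pow_pos hN 54))

theorem Lop_sum (X : Cx V) (α : Fin X.s) (δ : ZMod 2) (j : ℕ) (P : V → ℝ) :
    ∑ a, X.A α δ j P a = ∑ b, P b * ((X.R α δ j b).card : ℝ) / X.dd := by
  unfold A
  rw [← Finset.sum_div, Lop_comm X α δ j (fun _ b => P b), Finset.sum_div]
  refine Finset.sum_congr rfl fun b _ => ?_
  rw [Finset.sum_const, nsmul_eq_mul, mul_comm]

theorem A_nn {α : Fin X.s} {δ : ZMod 2} {j : ℕ} {P : V → ℝ} (h : ∀ x, 0 ≤ P x) (a : V) :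
    0 ≤ X.A α δ j P a :=
  div_nonneg (Finset.sum_nonneg fun b _ => h b) (Lop_dd_pos X).le

theorem A_mono {α : Fin X.s} {δ : ZMod 2} {j : ℕ} {P Q : V → ℝ} (h : ∀ x, P x ≤ Q x) (a : V) :
    X.A α δ j P a ≤ X.A α δ j Q a :=
  div_le_div_of_nonneg_right (Finset.sum_le_sum fun b _ => h b) (Lop_dd_pos X).le

theorem A_sum_le {α : Fin X.s} {δ : ZMod 2} {j : ℕ} {P : V → ℝ} (h : ∀ x, 0 ≤ P x) :
    ∑ a, X.A α δ j P a ≤ ∑ x, P x := by
  rw [Lop_sum]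
  refine Finset.sum_le_sum fun b _ => ?_
  rw [div_le_iff₀ (Lop_dd_pos X)]
  exact mul_le_mul_of_nonneg_left (X.R_card_le α δ j b) (h b)

theorem A_sum_ge {α : Fin X.s} {δ : ZMod 2} {j : ℕ} {P : V → ℝ} (h : ∀ x, 0 ≤ P x) :
    (∑ x, P x) - (∑ x ∈ X.D, P x) / X.dd ≤ ∑ a, X.A α δ j P a := by
  have hd := Lop_dd_pos X
  rw [Lop_sum]
  have e1 : ∑ x ∈ X.D, P x = ∑ x, if x ∈ X.D then P x else 0 := by
    rw [← Finset.sum_filter]
    refine Finset.sum_congr ?_ fun _ _ => rfl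
    ext x
    simp
  rw [e1, Finset.sum_div, ← Finset.sum_sub_distrib]
  refine Finset.sum_le_sum fun b _ => ?_
  by_cases hb : b ∈ X.D
  · rw [if_pos hb, le_div_iff₀ hd, sub_mul, div_mul_cancel₀ _ hd.ne']
    have h1 := mul_le_mul_of_nonneg_left (X.R_card_ge α δ j b) (h b)
    linarith
  · rw [if_neg hb, X.R_card_eq α δ j hb, mul_div_assoc, div_self hd.ne']
    simp

/-- `∑ P (A Q) = ∑ (A P) Q` -/
theorem A_adj (α : Fin X.s) (δ : ZMod 2) (j : ℕ) (P Q : V → ℝ) :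
    ∑ a, P a * X.A α δ j Q a = ∑ a, X.A α δ j P a * Q a := by
  unfold A
  have e1 : ∀ a, P a * ((∑ b ∈ X.R α δ j a, Q b) / X.dd) = (∑ b ∈ X.R α δ j a, P a * Q b) / X.dd := by
    intro a
    rw [← mul_div_assoc, Finset.mul_sum]
  have e2 : ∀ a, (∑ b ∈ X.R α δ j a, P b) / X.dd * Q a = (∑ b ∈ X.R α δ j a, P b * Q a) / X.dd := by
    intro a
    rw [div_mul_eq_mul_div, Finset.sum_mul]
  rw [Finset.sum_congr rfl fun a _ => e1 a, Finset.sum_congr rfl fun a _ => e2 a,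
    ← Finset.sum_div, ← Finset.sum_div, Lop_comm X α δ j (fun a b => P a * Q b)]

/-- the box lemma (k1) -/
theorem A_box {α : Fin X.s} {δ : ZMod 2} {j : ℕ} {P : V → ℝ} (h : ∀ x, 0 ≤ P x) (h1 : ∑ x, P x ≤ 1)
    (B : Finset V) (k : ℝ) (hk : 0 ≤ k) (hB : ∀ b, (((X.R α δ j b).filter (fun u => u ∈ B)).card : ℝ) ≤ k) :
    ∑ a ∈ B, X.A α δ j P a ≤ k / X.dd := by
  have hd := Lop_dd_pos X
  unfold A
  rw [← Finset.sum_div]
  refine div_le_div_of_nonneg_right ?_ hd.le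
  have e1 : ∑ a ∈ B, ∑ b ∈ X.R α δ j a, P b =
      ∑ b, ∑ a ∈ (X.R α δ j b).filter (fun u => u ∈ B), P b := by
    refine Finset.sum_comm' fun x y => ?_
    constructor
    · rintro ⟨h3, h4⟩
      exact ⟨Finset.mem_filter.2 ⟨X.R_symm h4, h3⟩, Finset.mem_univ _⟩
    · rintro ⟨h3, _⟩
      obtain ⟨h4, h5⟩ := Finset.mem_filter.1 h3
      exact ⟨h5, X.R_symm h4⟩
  rw [e1]
  calc ∑ b, ∑ a ∈ (X.R α δ j b).filter (fun u => u ∈ B), P b ≤ ∑ b, k * P b := by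
        refine Finset.sum_le_sum fun b _ => ?_
        rw [Finset.sum_const, nsmul_eq_mul]
        exact mul_le_mul_of_nonneg_right (hB b) (h b)
    _ = k * ∑ b, P b := by rw [Finset.mul_sum]
    _ ≤ k * 1 := mul_le_mul_of_nonneg_left h1 hk
    _ = k := mul_one k

end Cx

end Pool.Agent.H2.LN
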