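/-
ROW Lrf. First properties of receiver functions.
PROOF. Induction on `RF` (`induction h with`). `RF_nn`: `A_nn`. `RF_l1`: a point has sum `1` (`Finset.sum_ite_eq'`); `∑ mv (A P) = ∑ nd (A P) ≤ ∑ A P ≤ ∑ P` (`mv_sum`, `A_sum_le`, nonnegativity). `RF_nd`: `pt`: hypotheses. `st`: `mv α F x ≠ 0` gives `M α x ≠ x` and `A δ (j+1) P (M α x) ≠ 0`, so some `b ∈ R (M α x)` with
`P b ≠ 0`, `sd b = δ + 1` (IH), `sd b = sd (M α x) + 1` (`R_sd`), so `sd (M α x) = δ`, `sd (M α x) = sd x + 1` (`M_sd`), so `sd x = δ + 1` (in `ZMod 2`: `decide`-type facts). `tn`: `nd α F x ≠ 0`: `M α x ≠ x`, `A 0 (zl k) P x ≠ 0`: some `b ∈ R x`, `sd b = 0 + 1`, `sd b = sd x + 1`: `sd x = 0 = 1 + 1`.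
`RF_rj`: `pt`: `0 + j < n`; `st`: `(r + 1) + j = r + (j + 1)`; `tn`: `zl k - 1 + 1 = zl k` (`zl k ≥ 1`).
-/
import Pool.Agent.H2.LN.LD
import Pool.Agent.H2.LN.L.Lop
import Pool.Agent.H2.LN.L.Ll2

set_option autoImplicit false
set_option linter.unusedSectionVars false

namespace Pool.Agent.H2.LN

open Finset Classical
open Pool.Agent.H65.GI

namespace Cx

variable {V : Type} [Fintype V] {X : Cx V}

theorem RF_nn {α : Fin X.s} {δ : ZMod 2} {j r : ℕ} {P : V → ℝ} (h : X.RF α δ j r P) (x : V) : 0 ≤ P x := by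
  induction h generalizing x with
  | pt δ j b h1 h2 h3 =>
    show (0 : ℝ) ≤ if x = b then 1 else 0
    split_ifs <;> norm_num
  | st δ j r P h ih =>
    unfold Cx.mv
    split_ifs
    · exact A_nn ih _
    · exact le_rfl
  | tn k r P hk h ih =>
    unfold Cx.nd
    split_ifs
    · exact A_nn ih _
    · exact le_rfl

private theorem Lrf_nd_sum {α : Fin X.s} {F : V → ℝ} (h : ∀ x, 0 ≤ F x) : ∑ x, X.nd α F x ≤ ∑ x, F x := by
  refine Finset.sum_le_sum fun x _ => ?_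
  unfold Cx.nd
  split_ifs
  · exact le_rfl
  · exact h x

private theorem Lrf_A_ne {α : Fin X.s} {δ : ZMod 2} {j : ℕ} {P : V → ℝ} {a : V} (h : X.A α δ j P a ≠ 0) :
    ∃ b ∈ X.R α δ j a, P b ≠ 0 := by
  unfold Cx.A at h
  have h1 : ∑ b ∈ X.R α δ j a, P b ≠ 0 := by
    intro h0
    rw [h0, zero_div] at h
    exact h rfl
  exact Finset.exists_ne_zero_of_sum_ne_zero h1

private theorem Lrf_z1 (a b : ZMod 2) (h : a + 1 = b) : a = b + 1 := by
  revert a b
  decide

private theorem Lrf_z2 (a b : ZMod 2) (h : a + 1 = b + 1) : a = b := add_right_cancel h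


theorem RF_l1 {α : Fin X.s} {δ : ZMod 2} {j r : ℕ} {P : V → ℝ} (h : X.RF α δ j r P) : ∑ x, P x ≤ 1 := by
  induction h with
  | pt δ j b h1 h2 h3 =>
    rw [Finset.sum_ite_eq' Finset.univ b (fun _ => (1 : ℝ)), if_pos (Finset.mem_univ b)]
  | st δ j r P h ih =>
    have hn := RF_nn h
    rw [mv_sum]
    exact ((Lrf_nd_sum (fun x => A_nn hn x)).trans (A_sum_le hn)).trans ih
  | tn k r P hk h ih =>
    have hn := RF_nn h
    exact ((Lrf_nd_sum (fun x => A_nn hn x)).trans (A_sum_le hn)).trans ih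


theorem RF_nd {α : Fin X.s} {δ : ZMod 2} {j r : ℕ} {P : V → ℝ} (h : X.RF α δ j r P) (x : V)
    (hx : P x ≠ 0) : X.M α x ≠ x ∧ X.sd α x = δ + 1 := by
  induction h generalizing x with
  | pt δ j b h1 h2 h3 =>
    have hxb : x = b := by
      by_contra hne
      exact hx (if_neg hne)
    rw [hxb]
    exact ⟨h2, h3⟩
  | st δ j r P h ih =>
    unfold Cx.mv at hx
    by_cases hM : X.M α x ≠ x
    · rw [if_pos hM] at hx
      obtain ⟨b, hb, hPb⟩ := Lrf_A_ne hx
      have h1 := (ih b hPb).2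
      have h2 := X.R_sd hb
      have h3 := X.M_sd hM
      refine ⟨hM, Lrf_z1 _ _ ?_⟩
      rw [← h3]
      exact Lrf_z2 _ _ (h2.symm.trans h1)
    · rw [if_neg hM] at hx
      exact absurd rfl hx
  | tn k r P hk h ih =>
    unfold Cx.nd at hx
    by_cases hM : X.M α x ≠ x
    · rw [if_pos hM] at hx
      obtain ⟨b, hb, hPb⟩ := Lrf_A_ne hx
      have h1 := (ih b hPb).2
      have h2 := X.R_sd hb
      refine ⟨hM, Lrf_z1 _ _ ?_⟩
      rw [← h2, h1, zero_add]
    · rw [if_neg hM] at hx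
      exact absurd rfl hx


theorem RF_rj {α : Fin X.s} {δ : ZMod 2} {j r : ℕ} {P : V → ℝ} (h : X.RF α δ j r P) : r + j < X.n := by
  induction h with
  | pt δ j b h1 h2 h3 => omega
  | st δ j r P h ih => omega
  | tn k r P hk h ih =>
    have h1 : 1 ≤ X.zl k := by
      unfold Cx.zl
      omega
    omega


end Cx

end Pool.Agent.H2.LN
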