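/-
ROW Lrb. Mass of receiver functions.
PROOF. `RF_low`, induction: a point: `1`. `st`: `∑ mv (A P) = ∑ nd (A P) = ∑ A P - ∑ dv (A P)` (`mv_sum`, `nd_dv`), `∑ A P ≥ ∑ P - (∑_D P) / dd ≥ ∑ P - 1 / dd` (`A_sum_ge`), `∑ dv (A P) ≤ ∑_{D} A P ≤ 1 / dd` (`M_D`, `A_box` with `B = D`, `k = 1`, `R_D`). `tn`: the same with `nd`.
`RF_box`: cases on `h`: `P = mv (A δ (j+1) P1)` with `RF δ (j+1) r P1`, or `P = nd (A 0 (zl k) P1)`; `∑_{x ∈ B} mv F x ≤ ∑_{x ∈ B} F x` for `F ≥ 0` because `x ↦ M α x` maps `B` into `B` injectively (`hM`, `M_M`; `Finset.sum_le_sum_of_injOn`-type: reindex by the involution); then `A_box` (`j + 1 ≤ n` by `RF_rj`; `zl k ≤ n` too; `k ≥ 0` from `hB`).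
`RF_k2`: `F := A δ (j+1) P`. `∑ F - ∑ dv F = ∑ nd F = ∑ Q` (`nd_dv`, `mv_sum`). `0 ≤ ∑ Q - ∑ A δ' j Q ≤ (∑_{b ∈ D} Q b) / dd` (`A_sum_le`, `A_sum_ge`, `Q ≥ 0`). `∑_{b ∈ D} Q b ≤ N ^ 5 / dd`: for `Q = nd F ≤ F`: `A_box` with `R_D` (`1 ≤ N ^ 5`); for `Q = mv F`: `∑_{b ∈ D} mv F b ≤ ∑_{x : M α x ∈ D} F x ≤ N ^ 5 / dd` (`A_box` with `B = univ.filter (M α · ∈ D)`, `R_MD`).
-/
import Pool.Agent.H2.LN.LD
import Pool.Agent.H2.LN.L.Lrf

set_option autoImplicit false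
set_option linter.unusedSectionVars false

namespace Pool.Agent.H2.LN

open Finset Classical
open Pool.Agent.H65.GI

namespace Cx

variable {V : Type} [Fintype V] {X : Cx V}

private theorem Lrb_ne {α : Fin X.s} {δ : ZMod 2} {j r : ℕ} {P : V → ℝ} (h : X.RF α δ j r P) : Nonempty V := by
  induction h with
  | pt δ j b _ _ _ => exact ⟨b⟩
  | st δ j r P _ ih => exact ih
  | tn k r P _ _ ih => exact ih

private theorem Lrb_dd : (0 : ℝ) ≤ X.dd := by
  unfold Cx.dd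
  exact Nat.cast_nonneg _

private theorem Lrb_F {α : Fin X.s} {δ : ZMod 2} {j r : ℕ} {P : V → ℝ} (h : X.RF α δ j r P) :
    1 - r * (2 / X.dd) ≤ ∑ x, P x → 1 - ((r + 1 : ℕ) : ℝ) * (2 / X.dd) ≤ ∑ x, X.nd α (X.A α δ j P) x := by
  intro ih
  have hnn := RF_nn h
  have h1 := RF_l1 h
  have hd : (0 : ℝ) ≤ X.dd := Lrb_dd
  have h2 := A_sum_ge (X := X) (α := α) (δ := δ) (j := j) hnn
  have h3 : ∑ x ∈ X.D, P x ≤ 1 :=
    (Finset.sum_le_sum_of_subset_of_nonneg (Finset.subset_univ _) fun x _ _ => hnn x).trans h1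
  have h4 : (∑ x ∈ X.D, P x) / X.dd ≤ 1 / X.dd := div_le_div_of_nonneg_right h3 hd
  have h5 := nd_dv (X := X) α (X.A α δ j P)
  have h6 := A_box (X := X) (α := α) (δ := δ) (j := j) hnn h1 X.D 1 zero_le_one fun b => by
    exact_mod_cast X.R_D α δ j b
  have h7 : ∑ x, X.dv α (X.A α δ j P) x ≤ ∑ x ∈ X.D, X.A α δ j P x := by
    rw [← Finset.sum_filter_add_sum_filter_not univ (fun x => x ∈ X.D)]
    have e1 : univ.filter (fun x => x ∈ X.D) = X.D := by
      ext x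
      simp
    rw [e1]
    have h8 : ∑ x ∈ univ.filter (fun x => ¬ x ∈ X.D), X.dv α (X.A α δ j P) x = 0 := by
      refine Finset.sum_eq_zero fun x hx => ?_
      rw [Finset.mem_filter] at hx
      unfold Cx.dv
      rw [if_neg fun e => hx.2 (X.M_D e)]
    rw [h8, add_zero]
    refine Finset.sum_le_sum fun x _ => ?_
    unfold Cx.dv
    split_ifs
    · exact le_rfl
    · exact A_nn hnn x
  push_cast
  have h9 : ((r : ℝ) + 1) * (2 / X.dd) = r * (2 / X.dd) + 1 / X.dd + 1 / X.dd := by ring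
  rw [h9]
  linarith

/-- almost no mass is lost -/
theorem RF_low {α : Fin X.s} {δ : ZMod 2} {j r : ℕ} {P : V → ℝ} (h : X.RF α δ j r P) :
    1 - r * (2 / X.dd) ≤ ∑ x, P x := by
  induction h with
  | pt δ j b _ _ _ => simp
  | st δ j r P h ih =>
    rw [mv_sum]
    exact Lrb_F h ih
  | tn k r P _ h ih => exact Lrb_F h ih

/-- the sum of `F ∘ M` over a set -/
private theorem Lrb_M (α : Fin X.s) {F : V → ℝ} (hF : ∀ x, 0 ≤ F x) (B B' : Finset V) (hM : ∀ x ∈ B, X.M α x ∈ B') :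
    ∑ x ∈ B, X.mv α F x ≤ ∑ x ∈ B', F x := by
  calc ∑ x ∈ B, X.mv α F x ≤ ∑ x ∈ B, F (X.M α x) := by
        refine Finset.sum_le_sum fun x _ => ?_
        unfold Cx.mv
        split_ifs
        · exact le_rfl
        · exact hF _
    _ = ∑ y ∈ B.image (X.M α), F y := by
        rw [Finset.sum_image]
        intro x _ y _ hxy
        have := congrArg (X.M α) hxy
        rwa [X.M_M, X.M_M] at this
    _ ≤ ∑ x ∈ B', F x := by
        refine Finset.sum_le_sum_of_subset_of_nonneg ?_ fun x _ _ => hF x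
        intro y hy
        obtain ⟨x, hx, rfl⟩ := Finset.mem_image.1 hy
        exact hM x hx

/-- `r ≥ 1`: the receiver function has small mass on small sets -/
theorem RF_box {α : Fin X.s} {δ : ZMod 2} {j r : ℕ} {P : V → ℝ} (h : X.RF α δ j (r + 1) P) (B : Finset V)
    (k : ℝ) (hM : ∀ x ∈ B, X.M α x ∈ B)
    (hB : ∀ δ' j' b, j' ≤ X.n → (((X.R α δ' j' b).filter (fun u => u ∈ B)).card : ℝ) ≤ k) :
    ∑ x ∈ B, P x ≤ k / X.dd := by
  obtain ⟨b0⟩ := Lrb_ne h
  have hk : 0 ≤ k := le_trans (Nat.cast_nonneg _) (hB 0 0 b0 (Nat.zero_le _))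
  cases h with
  | st _ _ _ P1 h1 =>
    have hnn := RF_nn h1
    have hj := RF_rj h1
    refine (Lrb_M α (fun x => A_nn hnn x) B B hM).trans ?_
    exact A_box hnn (RF_l1 h1) B k hk fun b => hB _ _ b (by omega)
  | tn k' _ P1 _ h1 =>
    have hnn := RF_nn h1
    have hj := RF_rj h1
    refine le_trans (Finset.sum_le_sum (g := fun x => X.A α 0 (X.zl k') P1 x) fun x _ => ?_) ?_
    · unfold Cx.nd
      split_ifs
      · exact le_rfl
      · exact A_nn hnn x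
    · exact A_box hnn (RF_l1 h1) B k hk fun b => hB _ _ b (by omega)

/-- (k2) -/
theorem RF_k2 {α : Fin X.s} {δ : ZMod 2} {j r : ℕ} {P : V → ℝ} (h : X.RF α δ (j + 1) r P) (δ' : ZMod 2)
    (Q : V → ℝ) (hQ : Q = X.mv α (X.A α δ (j + 1) P) ∨ Q = X.nd α (X.A α δ (j + 1) P)) :
    |(∑ x, X.A α δ (j + 1) P x) - (∑ x, X.dv α (X.A α δ (j + 1) P) x) - ∑ x, X.A α δ' j Q x| ≤
      X.N ^ 5 / X.dd ^ 2 := by
  have hnn := RF_nn h
  have h1 := RF_l1 h
  have hd : (0 : ℝ) ≤ X.dd := Lrb_dd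
  have hF : ∀ x, 0 ≤ X.A α δ (j + 1) P x := fun x => A_nn hnn x
  have hQnn : ∀ x, 0 ≤ Q x := by
    intro x
    rcases hQ with rfl | rfl
    · unfold Cx.mv
      split_ifs
      · exact hF _
      · exact le_rfl
    · unfold Cx.nd
      split_ifs
      · exact hF _
      · exact le_rfl
  have hs : ∑ x, Q x = ∑ x, X.nd α (X.A α δ (j + 1) P) x := by
    rcases hQ with rfl | rfl
    · exact mv_sum _ _
    · rfl
  have h5 := nd_dv (X := X) α (X.A α δ (j + 1) P)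
  have h6 := A_sum_ge (X := X) (α := α) (δ := δ') (j := j) hQnn
  have h7 := A_sum_le (X := X) (α := α) (δ := δ') (j := j) hQnn
  have hN : (1 : ℝ) ≤ (X.N : ℝ) ^ 5 := one_le_pow₀ (le_trans (by norm_num) X.N_big)
  have hDQ : ∑ x ∈ X.D, Q x ≤ X.N ^ 5 / X.dd := by
    rcases hQ with rfl | rfl
    · refine (Lrb_M α hF X.D (univ.filter fun x => X.M α x ∈ X.D) fun x hx => ?_).trans ?_
      · rw [Finset.mem_filter, X.M_M]
        exact ⟨Finset.mem_univ _, hx⟩
      · refine A_box hnn h1 _ _ (zero_le_one.trans hN) fun b => ?_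
        have h8 := X.R_MD α δ (j + 1) b
        have h9 : (X.R α δ (j + 1) b).filter (fun u => u ∈ univ.filter fun x => X.M α x ∈ X.D) =
            (X.R α δ (j + 1) b).filter (fun u => X.M α u ∈ X.D) := by
          refine Finset.filter_congr fun u _ => ?_
          simp
        rw [h9]
        exact_mod_cast h8
    · refine le_trans (Finset.sum_le_sum (g := fun x => X.A α δ (j + 1) P x) fun x _ => ?_) ?_
      · unfold Cx.nd
        split_ifs
        · exact le_rfl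
        · exact hF x
      · refine A_box hnn h1 _ _ (zero_le_one.trans hN) fun b => le_trans ?_ hN
        exact_mod_cast X.R_D α δ (j + 1) b
  have h10 : (∑ x ∈ X.D, Q x) / X.dd ≤ X.N ^ 5 / X.dd ^ 2 := by
    have := div_le_div_of_nonneg_right hDQ hd
    rwa [div_div, ← pow_two] at this
  rw [abs_le]
  constructor <;> linarith

end Cx

end Pool.Agent.H2.LN
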