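/-
ROW Leg. Error functions.
PROOF. `dis_M`, `disW_M`: the conditions are symmetric in `v`, `M α v` (`M_M`). Write `R = R α δ j a`, `k = |R ∩ dis| ≤ kd`. `gB B P a = ∑_{b ∈ R ∩ B} (2 / dd · A P a + P b / dd)`. `dd` is huge: `1000 kd ≤ dd` (`dd_bd`, `pwN`; `kd = N ^ 52`).
`gE_le`: `2 / dd · A P · kd + (∑_R P) / dd + 2 / dd · A P ≤ 3 A P`. `gE_l1`: `∑_a 2 / dd A P a kd ≤ 2 kd / dd` (`A_sum_le`, `RF_l1`); `∑_a ∑_{b ∈ R a ∩ dis} P b / dd = ∑_{b ∈ dis} P b |R b| / dd ≤ ∑_{b ∈ dis} P b ≤ kd / dd` (`RF_box` with `B = dis c Rc α`, `k = kd`, `dis_M`, hypothesis `KD`);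
`∑_{a ∈ D} 2 / dd A P a ≤ 2 / dd`. `j ≤ n` from `RF_rj`. `avg_le`: `Rd = R \ dis`, `|Rd| ≥ |R| - k ≥ dd - 1 - kd ≥ dd / 2 > 0`; `avg - A P = (∑_{Rd} P)(1 / |Rd| - 1 / dd) - (∑_{R ∩ dis} P) / dd`; `0 ≤ 1 / |Rd| - 1 / dd = (dd - |Rd|) / (|Rd| dd)`, `dd - |Rd| ≤ k + 1[a ∈ D]`
(`R_card_eq`, `R_card_ge`), `(∑_{Rd} P) / dd ≤ A P a`, `1 / |Rd| ≤ 2 / dd`. `avg_up`: `avg ≤ (∑_R P) / |Rd| = A P dd / |Rd|`, `dd / |Rd| ≤ 1 + 2 (kd + 1) / dd ≤ 1 + 4 kd / dd`.
-/
import Pool.Agent.H2.LN.LD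
import Pool.Agent.H2.LN.L.Lrb

set_option autoImplicit false
set_option linter.unusedSectionVars false

namespace Pool.Agent.H2.LN

open Finset Classical
open Pool.Agent.H65.GI

namespace Cx

variable {V : Type} [Fintype V] {X : Cx V} {c : V → ℕ} {Rc : Finset V}

private theorem Leg_disW_M {α : Fin X.s} {v : V} (h : v ∈ X.disW c α) : X.M α v ∈ X.disW c α := by
  unfold disW at *
  rw [Finset.mem_filter] at *
  refine ⟨Finset.mem_univ _, ?_⟩
  rw [M_M]
  exact h.2.symm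

theorem dis_M {α : Fin X.s} {v : V} (h : v ∈ X.dis c Rc α) : X.M α v ∈ X.dis c Rc α := by
  unfold dis at *
  rw [Finset.mem_union] at *
  rcases h with h | h
  · exact Or.inl (Leg_disW_M h)
  · right
    unfold disX at *
    rw [Finset.mem_filter] at *
    refine ⟨Finset.mem_univ _, ?_⟩
    rw [M_M]
    exact ⟨fun e => h.2.1 e.symm, h.2.2.2, h.2.2.1⟩

theorem disW_M {α : Fin X.s} {v : V} (h : v ∈ X.disW c α) : X.M α v ∈ X.disW c α := Leg_disW_M h

private theorem Leg_kd1 (X : Cx V) : (1 : ℝ) ≤ (X.kd : ℝ) := by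
  have h := X.N_big
  have h1 : (1 : ℝ) ≤ X.N := le_trans (by norm_num) h
  unfold kd
  push_cast
  exact one_le_pow₀ h1

private theorem Leg_dd (X : Cx V) : 1000 * (X.kd : ℝ) ≤ X.dd := by
  have h := X.N_big
  have h0 : (0 : ℝ) < X.N := lt_of_lt_of_le (by norm_num) h
  have h1 := X.dd_bd.1
  have h2 := X.pwN 107 1 (by norm_num)
  have h3 : 1000 * (X.kd : ℝ) ≤ X.pw 1 / (8 * X.N ^ 54) := by
    rw [le_div_iff₀ (by positivity)]
    unfold kd
    push_cast
    calc 1000 * (X.N : ℝ) ^ 52 * (8 * (X.N : ℝ) ^ 54) = 8000 * (X.N : ℝ) ^ 106 := by ring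
      _ ≤ (X.N : ℝ) * (X.N : ℝ) ^ 106 := by
          apply mul_le_mul_of_nonneg_right _ (by positivity)
          exact le_trans (by norm_num) h
      _ = (X.N : ℝ) ^ 107 := by ring
      _ ≤ X.pw 1 := h2
  exact le_trans h3 h1

private theorem Leg_ddp (X : Cx V) : 0 < X.dd := by
  have h := Leg_dd X
  have h1 := Leg_kd1 X
  linarith

private theorem Leg_split (R B : Finset V) (P : V → ℝ) :
    (∑ b ∈ R.filter (fun b => b ∈ B), P b) + (∑ b ∈ R.filter (fun b => b ∉ B), P b) = ∑ b ∈ R, P b :=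
  Finset.sum_filter_add_sum_filter_not R _ P

private theorem Leg_card (R B : Finset V) :
    ((R.filter (fun b => b ∈ B)).card : ℝ) + ((R.filter (fun b => b ∉ B)).card : ℝ) = (R.card : ℝ) := by
  have h := Finset.card_filter_add_card_filter_not (s := R) (fun b => b ∈ B)
  exact_mod_cast h

private theorem Leg_A {α : Fin X.s} {δ : ZMod 2} {j : ℕ} {P : V → ℝ} (a : V) :
    (∑ b ∈ X.R α δ j a, P b) = X.dd * X.A α δ j P a := by
  unfold A
  have h := Leg_ddp X
  field_simp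

/-- the numbers at `a` -/
private theorem Leg_num {α : Fin X.s} {δ : ZMod 2} {j : ℕ} (hk : X.KD c Rc) (hj : j ≤ X.n) (a : V) :
    (((X.R α δ j a).filter (fun b => b ∈ X.dis c Rc α)).card : ℝ) ≤ X.kd ∧
    X.dd / 2 ≤ (((X.R α δ j a).filter (fun b => b ∉ X.dis c Rc α)).card : ℝ) ∧
    (((X.R α δ j a).filter (fun b => b ∉ X.dis c Rc α)).card : ℝ) ≤ X.dd ∧
    X.dd - (((X.R α δ j a).filter (fun b => b ∉ X.dis c Rc α)).card : ℝ) ≤
      (((X.R α δ j a).filter (fun b => b ∈ X.dis c Rc α)).card : ℝ) + (if a ∈ X.D then 1 else 0) := by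
  have h1 : (((X.R α δ j a).filter (fun b => b ∈ X.dis c Rc α)).card : ℝ) ≤ X.kd := by
    exact_mod_cast hk α δ j a hj
  have h2 := Leg_card (X.R α δ j a) (X.dis c Rc α)
  have h3 := X.R_card_le α δ j a
  have h4 := X.R_card_ge α δ j a
  have h5 := Leg_dd X
  have h6 := Leg_kd1 X
  have h7 : (0 : ℝ) ≤ (((X.R α δ j a).filter (fun b => b ∈ X.dis c Rc α)).card : ℝ) := Nat.cast_nonneg _
  refine ⟨h1, by linarith, by linarith, ?_⟩
  by_cases hD : a ∈ X.D
  · rw [if_pos hD]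
    linarith
  · rw [if_neg hD]
    have h8 := X.R_card_eq α δ j hD
    linarith

private theorem Leg_gD {α : Fin X.s} {δ : ZMod 2} {j : ℕ} {P : V → ℝ} (a : V) :
    X.gD α δ j P a = 2 / X.dd * X.A α δ j P a * (if a ∈ X.D then 1 else 0) := by
  unfold gD
  split_ifs <;> ring

theorem gE_nn {α : Fin X.s} {δ : ZMod 2} {j : ℕ} {P : V → ℝ} (h : ∀ x, 0 ≤ P x) (a : V) :
    0 ≤ X.gE c Rc α δ j P a := by
  have hA := A_nn (X := X) (α := α) (δ := δ) (j := j) h a
  have hd := Leg_ddp X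
  unfold gE
  apply add_nonneg
  · unfold gB
    apply add_nonneg
    · positivity
    · exact div_nonneg (Finset.sum_nonneg fun b _ => h b) hd.le
  · rw [Leg_gD]
    apply mul_nonneg (by positivity)
    split_ifs <;> norm_num

theorem gE_le {α : Fin X.s} {δ : ZMod 2} {j : ℕ} {P : V → ℝ} (h : ∀ x, 0 ≤ P x) (hk : X.KD c Rc)
    (hj : j ≤ X.n) (a : V) : X.gE c Rc α δ j P a ≤ 3 * X.A α δ j P a := by
  have hA := A_nn (X := X) (α := α) (δ := δ) (j := j) h a
  have hd := Leg_ddp X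
  have h5 := Leg_dd X
  have h6 := Leg_kd1 X
  obtain ⟨n1, n2, n3, n4⟩ := Leg_num (X := X) (α := α) (δ := δ) hk hj a
  unfold gE
  rw [Leg_gD]
  unfold gB
  have e1 : (∑ b ∈ (X.R α δ j a).filter (fun b => b ∈ X.dis c Rc α), P b) / X.dd ≤ X.A α δ j P a := by
    rw [div_le_iff₀ hd, mul_comm, ← Leg_A]
    exact Finset.sum_le_sum_of_subset_of_nonneg (Finset.filter_subset _ _) (fun i _ _ => h i)
  have e2 : 2 / X.dd * X.A α δ j P a *
      (((X.R α δ j a).filter (fun b => b ∈ X.dis c Rc α)).card : ℝ) ≤ X.A α δ j P a / 2 := by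
    calc 2 / X.dd * X.A α δ j P a * (((X.R α δ j a).filter (fun b => b ∈ X.dis c Rc α)).card : ℝ)
        ≤ 2 / X.dd * X.A α δ j P a * (X.dd / 1000) := by
          apply mul_le_mul_of_nonneg_left _ (by positivity)
          linarith
      _ = X.A α δ j P a / 500 := by field_simp; ring
      _ ≤ X.A α δ j P a / 2 := by linarith
  have e3 : 2 / X.dd * X.A α δ j P a * (if a ∈ X.D then 1 else 0) ≤ X.A α δ j P a / 2 := by
    calc 2 / X.dd * X.A α δ j P a * (if a ∈ X.D then 1 else 0)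
        ≤ 2 / X.dd * X.A α δ j P a * (X.dd / 1000) := by
          apply mul_le_mul_of_nonneg_left _ (by positivity)
          split_ifs <;> linarith
      _ = X.A α δ j P a / 500 := by field_simp; ring
      _ ≤ X.A α δ j P a / 2 := by linarith
  linarith

private theorem Leg_swap {α : Fin X.s} {δ : ZMod 2} {j : ℕ} (B : Finset V) (P : V → ℝ) :
    (∑ a, ∑ b ∈ (X.R α δ j a).filter (fun b => b ∈ B), P b) =
      ∑ b ∈ B, P b * ((X.R α δ j b).card : ℝ) := by
  have e1 : ∀ a, (∑ b ∈ (X.R α δ j a).filter (fun b => b ∈ B), P b) =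
      ∑ b ∈ B, if b ∈ X.R α δ j a then P b else 0 := by
    intro a
    rw [← Finset.sum_filter]
    apply Finset.sum_congr _ (fun _ _ => rfl)
    ext b
    simp only [Finset.mem_filter]
    tauto
  rw [Finset.sum_congr rfl (fun a _ => e1 a), Finset.sum_comm]
  apply Finset.sum_congr rfl
  intro b _
  rw [← Finset.sum_filter, Finset.sum_const, nsmul_eq_mul, mul_comm]
  congr 2
  congr 1
  ext a
  simp only [Finset.mem_filter, Finset.mem_univ, true_and]
  exact ⟨fun h => R_symm X h, fun h => R_symm X h⟩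

theorem gE_l1 {α : Fin X.s} {δ : ZMod 2} {j r : ℕ} {P : V → ℝ} (h : X.RF α δ j (r + 1) P)
    (hk : X.KD c Rc) : ∑ a, X.gE c Rc α δ j P a ≤ 8 * X.kd / X.dd := by
  have hd := Leg_ddp X
  have h6 := Leg_kd1 X
  have hP := RF_nn h
  have hP1 := RF_l1 h
  have hj : j ≤ X.n := by
    have := RF_rj h
    omega
  have hA := fun a => A_nn (X := X) (α := α) (δ := δ) (j := j) hP a
  have hA1 : ∑ a, X.A α δ j P a ≤ 1 := le_trans (A_sum_le hP) hP1
  have hb : ∑ x ∈ X.dis c Rc α, P x ≤ X.kd / X.dd := by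
    apply RF_box h (X.dis c Rc α) X.kd (fun x hx => dis_M hx)
    intro δ' j' b hj'
    exact_mod_cast hk α δ' j' b hj'
  have e1 : ∑ a, 2 / X.dd * X.A α δ j P a *
      (((X.R α δ j a).filter (fun b => b ∈ X.dis c Rc α)).card : ℝ) ≤ 2 * X.kd / X.dd := by
    calc ∑ a, 2 / X.dd * X.A α δ j P a * (((X.R α δ j a).filter (fun b => b ∈ X.dis c Rc α)).card : ℝ)
        ≤ ∑ a, 2 / X.dd * X.A α δ j P a * X.kd := by
          apply Finset.sum_le_sum
          intro a _
          apply mul_le_mul_of_nonneg_left (Leg_num (X := X) (α := α) (δ := δ) hk hj a).1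
          have := hA a
          positivity
      _ = 2 * X.kd / X.dd * ∑ a, X.A α δ j P a := by
          rw [Finset.mul_sum]
          apply Finset.sum_congr rfl
          intro a _
          ring
      _ ≤ 2 * X.kd / X.dd * 1 := by
          apply mul_le_mul_of_nonneg_left hA1
          positivity
      _ = 2 * X.kd / X.dd := by ring
  have e2 : ∑ a, (∑ b ∈ (X.R α δ j a).filter (fun b => b ∈ X.dis c Rc α), P b) / X.dd ≤ X.kd / X.dd := by
    rw [← Finset.sum_div, Leg_swap, div_le_iff₀ hd]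
    calc ∑ b ∈ X.dis c Rc α, P b * ((X.R α δ j b).card : ℝ) ≤ ∑ b ∈ X.dis c Rc α, P b * X.dd := by
          apply Finset.sum_le_sum
          intro b _
          exact mul_le_mul_of_nonneg_left (X.R_card_le α δ j b) (hP b)
      _ = (∑ b ∈ X.dis c Rc α, P b) * X.dd := by rw [Finset.sum_mul]
      _ ≤ X.kd / X.dd * X.dd := mul_le_mul_of_nonneg_right hb hd.le
  have e3 : ∑ a, X.gD α δ j P a ≤ 2 / X.dd := by
    calc ∑ a, X.gD α δ j P a ≤ ∑ a, 2 / X.dd * X.A α δ j P a := by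
          apply Finset.sum_le_sum
          intro a _
          rw [Leg_gD]
          have := hA a
          have h2 : 0 ≤ 2 / X.dd * X.A α δ j P a := by positivity
          split_ifs <;> linarith
      _ = 2 / X.dd * ∑ a, X.A α δ j P a := by rw [Finset.mul_sum]
      _ ≤ 2 / X.dd * 1 := mul_le_mul_of_nonneg_left hA1 (by positivity)
      _ = 2 / X.dd := by ring
  have e4 : ∑ a, X.gE c Rc α δ j P a =
      (∑ a, 2 / X.dd * X.A α δ j P a * (((X.R α δ j a).filter (fun b => b ∈ X.dis c Rc α)).card : ℝ)) +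
      (∑ a, (∑ b ∈ (X.R α δ j a).filter (fun b => b ∈ X.dis c Rc α), P b) / X.dd) +
      ∑ a, X.gD α δ j P a := by
    rw [← Finset.sum_add_distrib, ← Finset.sum_add_distrib]
    rfl
  rw [e4]
  have e5 : 2 / X.dd ≤ 2 * X.kd / X.dd := by
    apply div_le_div_of_nonneg_right _ hd.le
    linarith
  have e6 : (8 : ℝ) * X.kd / X.dd = 2 * X.kd / X.dd + X.kd / X.dd + 5 * (X.kd / X.dd) := by ring
  have e7 : (2 : ℝ) * X.kd / X.dd = 2 * (X.kd / X.dd) := by ring
  have e8 : 0 ≤ (X.kd : ℝ) / X.dd := by positivity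
  linarith

/-- the comparison of the average with `A P` -/
theorem avg_le {α : Fin X.s} {δ : ZMod 2} {j : ℕ} {P : V → ℝ} (h : ∀ x, 0 ≤ P x) (hk : X.KD c Rc)
    (hj : j ≤ X.n) (a : V) :
    |(∑ b ∈ (X.R α δ j a).filter (fun b => b ∉ X.dis c Rc α), P b) /
        (((X.R α δ j a).filter (fun b => b ∉ X.dis c Rc α)).card : ℝ) - X.A α δ j P a| ≤
      X.gE c Rc α δ j P a := by
  have hA := A_nn (X := X) (α := α) (δ := δ) (j := j) h a
  have hd := Leg_ddp X
  obtain ⟨n1, n2, n3, n4⟩ := Leg_num (X := X) (α := α) (δ := δ) hk hj a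
  have hs := Leg_split (X.R α δ j a) (X.dis c Rc α) P
  rw [Leg_A] at hs
  unfold gE
  rw [Leg_gD]
  unfold gB
  set k : ℝ := (((X.R α δ j a).filter (fun b => b ∈ X.dis c Rc α)).card : ℝ) with hkk
  set r : ℝ := (((X.R α δ j a).filter (fun b => b ∉ X.dis c Rc α)).card : ℝ) with hr
  set S : ℝ := ∑ b ∈ (X.R α δ j a).filter (fun b => b ∉ X.dis c Rc α), P b with hS
  set W : ℝ := ∑ b ∈ (X.R α δ j a).filter (fun b => b ∈ X.dis c Rc α), P b with hW
  set A0 : ℝ := X.A α δ j P a with hA0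
  set e : ℝ := (if a ∈ X.D then 1 else 0) with he
  have hS0 : 0 ≤ S := Finset.sum_nonneg fun b _ => h b
  have hW0 : 0 ≤ W := Finset.sum_nonneg fun b _ => h b
  have hr0 : 0 < r := by linarith
  have hSA : S ≤ X.dd * A0 := by linarith
  have e1 : S / r - A0 = S * (X.dd - r) / (r * X.dd) - W / X.dd := by
    have : A0 = (W + S) / X.dd := by rw [hs]; field_simp
    rw [this]
    field_simp
    ring
  have e2 : 0 ≤ S * (X.dd - r) / (r * X.dd) := by
    apply div_nonneg _ (by positivity)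
    apply mul_nonneg hS0
    linarith
  have e3 : 0 ≤ W / X.dd := div_nonneg hW0 hd.le
  have e4 : S * (X.dd - r) / (r * X.dd) ≤ 2 / X.dd * A0 * (k + e) := by
    rw [div_le_iff₀ (by positivity)]
    have h1 : S * (X.dd - r) ≤ (X.dd * A0) * (k + e) :=
      mul_le_mul hSA n4 (by linarith) (by positivity)
    have h2 : (0 : ℝ) ≤ A0 * (k + e) := by
      apply mul_nonneg hA
      linarith
    calc S * (X.dd - r) ≤ (X.dd * A0) * (k + e) := h1
      _ = (X.dd / 2) * (2 * (A0 * (k + e))) := by ring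
      _ ≤ r * (2 * (A0 * (k + e))) := by
          apply mul_le_mul_of_nonneg_right n2
          linarith
      _ = 2 / X.dd * A0 * (k + e) * (r * X.dd) := by field_simp
  rw [e1, abs_le]
  have e5 : 2 / X.dd * A0 * (k + e) = 2 / X.dd * A0 * k + 2 / X.dd * A0 * e := by ring
  constructor
  · have : 0 ≤ 2 / X.dd * A0 * (k + e) := le_trans e2 e4
    linarith
  · linarith

theorem avg_up {α : Fin X.s} {δ : ZMod 2} {j : ℕ} {P : V → ℝ} (h : ∀ x, 0 ≤ P x) (hk : X.KD c Rc)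
    (hj : j ≤ X.n) (a : V) :
    (∑ b ∈ (X.R α δ j a).filter (fun b => b ∉ X.dis c Rc α), P b) /
        (((X.R α δ j a).filter (fun b => b ∉ X.dis c Rc α)).card : ℝ) ≤
      (1 + 4 * X.kd / X.dd) * X.A α δ j P a := by
  have hA := A_nn (X := X) (α := α) (δ := δ) (j := j) h a
  have hd := Leg_ddp X
  have h6 := Leg_kd1 X
  obtain ⟨n1, n2, n3, n4⟩ := Leg_num (X := X) (α := α) (δ := δ) hk hj a
  have hs := Leg_split (X.R α δ j a) (X.dis c Rc α) P
  rw [Leg_A] at hs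
  set k : ℝ := (((X.R α δ j a).filter (fun b => b ∈ X.dis c Rc α)).card : ℝ) with hkk
  set r : ℝ := (((X.R α δ j a).filter (fun b => b ∉ X.dis c Rc α)).card : ℝ) with hr
  set S : ℝ := ∑ b ∈ (X.R α δ j a).filter (fun b => b ∉ X.dis c Rc α), P b with hS
  set W : ℝ := ∑ b ∈ (X.R α δ j a).filter (fun b => b ∈ X.dis c Rc α), P b with hW
  set A0 : ℝ := X.A α δ j P a with hA0
  have hW0 : 0 ≤ W := Finset.sum_nonneg fun b _ => h b
  have hr0 : 0 < r := by linarith
  have he : (if a ∈ X.D then (1 : ℝ) else 0) ≤ 1 := by split_ifs <;> norm_num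
  have hdr : X.dd - r ≤ 2 * X.kd := by linarith
  rw [div_le_iff₀ hr0]
  have e1 : X.dd ≤ (1 + 4 * X.kd / X.dd) * r := by
    have h1 : 4 * X.kd / X.dd * r ≥ 2 * X.kd := by
      calc (2 : ℝ) * X.kd = 4 * X.kd / X.dd * (X.dd / 2) := by field_simp; ring
        _ ≤ 4 * X.kd / X.dd * r := by
            apply mul_le_mul_of_nonneg_left n2
            positivity
    linarith
  calc S ≤ X.dd * A0 := by linarith
    _ ≤ ((1 + 4 * X.kd / X.dd) * r) * A0 := mul_le_mul_of_nonneg_right e1 hA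
    _ = (1 + 4 * X.kd / X.dd) * A0 * r := by ring

end Cx

end Pool.Agent.H2.LN
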