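/-
ROW Lst. The initial state.
PROOF. `sd`, `sp`: unfold `st0` (if `a ∉ S` then all the ifs give `0`: `M a ≠ a`, `¬ W (M a)`, `¬ Rs (M a)`). `t1`: `{α : v ∈ S δ α} ⊆ {α : M α v = v} ∪ {α : W (M α v)} ∪ {α : Rs α (M α v)}`: `≤ 1` (`base.on`), `≤ N^20` (`S1.k2`), the last: `M α v ∈ Rc` is a neighbour of `v` (`Rs` implies `Gd`, so `M α (M α v) ≠ M α v`), different for different `α` (the label of `M α v` is `α`): `≤ N^51` (`S2.ka`). `1 + N^20 + N^51 ≤ 4 pw (2/5)` (`pwN`).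
`t3`: for `a ∈ R b` with `a ∈ S`: `M a = a` (so `a ∈ D`: at most one, `R_D`, `M_D`), or `W (M a)`: `a ∈ disW`: `≤ N^20` (`S1.k1`), or `Rs (M a)`: `≤ N^5` (`S2.kb`); `1 + N^20 + N^5 ≤ th dd` (`th_bd`, `dd_bd`, `pwN`). `t2`: subset of the set of `t3`: `≤ 1 + N^20 + N^5 ≤ kd`. (`k1`, `kb` for `j = 0`.)
-/
import Pool.Agent.H2.LN.LD
import Pool.Agent.H2.LN.L.Leg
import Pool.Agent.H2.LN.L.Lnm

set_option autoImplicit false
set_option linter.unusedSectionVars false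

namespace Pool.Agent.H2.LN

open Finset Classical
open Pool.Agent.H65.GI

namespace Cx

variable {V : Type} [Fintype V] {X : Cx V} {c : V → ℕ} {Rc : Finset V}

private theorem Lst_mem {φ : ℝ} {al : V → Fin X.s} {δ : ZMod 2} {α : Fin X.s} {v : V} :
    v ∈ (X.st0 c φ Rc al).S δ α ↔ (X.sd α v = δ ∧ ¬ Wc X.p c α v ∧
      (X.M α v = v ∨ Wc X.p c α (X.M α v) ∨ Rs X.G X.p c X.D X.M Rc al α (X.M α v))) := by
  show v ∈ univ.filter _ ↔ _
  rw [Finset.mem_filter]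
  exact ⟨fun h => h.2, fun h => ⟨Finset.mem_univ _, h⟩⟩

private theorem Lst_card3 {β : Type} (s a b d : Finset β) (h : ∀ x ∈ s, x ∈ a ∨ x ∈ b ∨ x ∈ d) :
    s.card ≤ a.card + b.card + d.card := by
  have h1 : s ⊆ (a ∪ b) ∪ d := by
    intro x hx
    rw [Finset.mem_union, Finset.mem_union]
    rcases h x hx with h | h | h
    · exact Or.inl (Or.inl h)
    · exact Or.inl (Or.inr h)
    · exact Or.inr h
  calc s.card ≤ ((a ∪ b) ∪ d).card := Finset.card_le_card h1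
    _ ≤ (a ∪ b).card + d.card := Finset.card_union_le _ _
    _ ≤ a.card + b.card + d.card := Nat.add_le_add_right (Finset.card_union_le _ _) _

private theorem Lst_R {φ : ℝ} {al : V → Fin X.s} (h1 : X.S1 c φ) (h2 : X.S2 c φ Rc al) (δ : ZMod 2) (α : Fin X.s)
    (b : V) : ((X.R α δ 0 b).filter (fun a => a ∈ (X.st0 c φ Rc al).S δ α)).card ≤ 1 + X.N ^ 20 + X.N ^ 5 := by
  have h3 := Lst_card3 ((X.R α δ 0 b).filter (fun a => a ∈ (X.st0 c φ Rc al).S δ α))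
    ((X.R α δ 0 b).filter (fun u => u ∈ X.D)) ((X.R α δ 0 b).filter (fun u => u ∈ X.disW c α))
    ((X.R α δ 0 b).filter (fun u => Rs X.G X.p c X.D X.M Rc al α u ∨
      Rs X.G X.p c X.D X.M Rc al α (X.M α u))) (by
      intro a ha
      rw [Finset.mem_filter] at ha
      obtain ⟨ha1, ha2⟩ := ha
      rw [Lst_mem] at ha2
      rcases ha2.2.2 with h | h | h
      · exact Or.inl (Finset.mem_filter.2 ⟨ha1, X.M_D h⟩)
      · refine Or.inr (Or.inl (Finset.mem_filter.2 ⟨ha1, ?_⟩))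
        exact Finset.mem_filter.2 ⟨Finset.mem_univ _, Or.inr h⟩
      · exact Or.inr (Or.inr (Finset.mem_filter.2 ⟨ha1, Or.inr h⟩)))
  have h4 := X.R_D α δ 0 b
  have h5 := h1.k1 α δ 0 (Nat.zero_le _) b
  have h6 := h2.kb α δ 0 b
  omega

private theorem Lst_N2 (X : Cx V) : 2 ^ 40 ≤ X.N := X.pm.big

theorem st0_TT {φ : ℝ} {al : V → Fin X.s} (h1 : X.S1 c φ) (h2 : X.S2 c φ Rc al) :
    X.TT 0 (X.st0 c φ Rc al) := by
  have hN : (2 : ℝ) ^ 40 ≤ X.N := X.N_big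
  have hN1 : (3 : ℝ) ≤ X.N := le_trans (by norm_num) hN
  have hN0 : (0 : ℝ) < X.N := by linarith
  have hN1' : (1 : ℝ) ≤ X.N := by linarith
  have hNn : 3 ≤ X.N := le_trans (by norm_num) X.pm.big
  have hNn1 : 1 ≤ X.N := by omega
  refine ⟨?_, ?_, ?_, ?_, ?_⟩
  · intro δ α a ha
    exact (Lst_mem.1 ha).1
  · intro τ δ α a ha
    rw [Lst_mem] at ha
    show (if X.sd α a = δ ∧ ¬ Wc X.p c α a then
      (if τ = 0 then (if X.M α a = a then X.ub φ α else if Wc X.p c α (X.M α a) then 1 else 0)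
        else if Rs X.G X.p c X.D X.M Rc al α (X.M α a) then 1 / 16 else 0)
      else 0 : ℝ) = 0
    by_cases hs : X.sd α a = δ ∧ ¬ Wc X.p c α a
    · have h3 : ¬ X.M α a = a := fun h => ha ⟨hs.1, hs.2, Or.inl h⟩
      have h4 : ¬ Wc X.p c α (X.M α a) := fun h => ha ⟨hs.1, hs.2, Or.inr (Or.inl h)⟩
      have h5 : ¬ Rs X.G X.p c X.D X.M Rc al α (X.M α a) := fun h => ha ⟨hs.1, hs.2, Or.inr (Or.inr h)⟩
      rw [if_pos hs, if_neg h3, if_neg h4, if_neg h5]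
      split_ifs <;> rfl
    · rw [if_neg hs]
  · intro δ v
    have h3 := Lst_card3 (univ.filter (fun α => v ∈ (X.st0 c φ Rc al).S δ α))
      (univ.filter (fun α : Fin X.s => X.M α v = v)) (univ.filter (fun α : Fin X.s => Wc X.p c α (X.M α v)))
      (univ.filter (fun α : Fin X.s => Rs X.G X.p c X.D X.M Rc al α (X.M α v))) (by
        intro α hα
        rw [Finset.mem_filter, Lst_mem] at hα
        rcases hα.2.2.2 with h | h | h
        · exact Or.inl (Finset.mem_filter.2 ⟨Finset.mem_univ _, h⟩)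
        · exact Or.inr (Or.inl (Finset.mem_filter.2 ⟨Finset.mem_univ _, h⟩))
        · exact Or.inr (Or.inr (Finset.mem_filter.2 ⟨Finset.mem_univ _, h⟩)))
    have h4 := X.base.on v
    have h5 := h1.k2 v
    have h6 : (univ.filter (fun α : Fin X.s => Rs X.G X.p c X.D X.M Rc al α (X.M α v))).card ≤
        (univ.filter (fun u => X.G.Adj v u ∧ u ∈ Rc)).card := by
      refine Finset.card_le_card_of_injOn (fun α => X.M α v) ?_ ?_
      · intro α hα
        have hα' := (Finset.mem_filter.1 hα).2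
        obtain ⟨r1, _, r3, _, _⟩ := hα'
        have hne : X.M α v ≠ v := by
          intro h
          have h7 := r3.2.2.1
          rw [h] at h7
          exact h7 h
        exact Finset.mem_coe.2 (Finset.mem_filter.2 ⟨Finset.mem_univ _, X.M_adj hne, r1⟩)
      · intro α hα β hβ hab
        have hα' := (Finset.mem_filter.1 hα).2
        have hβ' := (Finset.mem_filter.1 hβ).2
        have e1 : al (X.M α v) = α := hα'.2.1
        have e2 : al (X.M β v) = β := hβ'.2.1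
        have hab' : X.M α v = X.M β v := hab
        rw [← e1, ← e2, hab']
    have h7 := h2.ka v
    have h8 : (univ.filter (fun α => v ∈ (X.st0 c φ Rc al).S δ α)).card ≤ 1 + X.N ^ 20 + X.N ^ 51 := by omega
    have h9 : ((univ.filter (fun α => v ∈ (X.st0 c φ Rc al).S δ α)).card : ℝ) ≤ 1 + (X.N : ℝ) ^ 20 + (X.N : ℝ) ^ 51 := by
      exact_mod_cast h8
    have h10 : (X.N : ℝ) ^ 52 ≤ X.pw (2 / 5) := X.pwN 52 (2 / 5) (by norm_num)
    have h11 : (1 : ℝ) ≤ (X.N : ℝ) ^ 51 := one_le_pow₀ hN1'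
    have h12 : (X.N : ℝ) ^ 20 ≤ (X.N : ℝ) ^ 51 := pow_le_pow_right₀ hN1' (by norm_num)
    have h13 : (3 : ℝ) * (X.N : ℝ) ^ 51 ≤ (X.N : ℝ) ^ 52 := by
      rw [pow_succ (X.N : ℝ) 51, mul_comm]
      exact mul_le_mul_of_nonneg_left hN1 (by positivity)
    have h14 := X.pw_pos (2 / 5)
    linarith
  · intro δ α α' b _ _
    have h3 := Lst_R h1 h2 δ α b
    have h4 : ((X.R α δ 0 b).filter (fun a => a ∈ (X.st0 c φ Rc al).S δ α ∧ a ∈ (X.st0 c φ Rc al).S δ α')).card ≤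
        ((X.R α δ 0 b).filter (fun a => a ∈ (X.st0 c φ Rc al).S δ α)).card := by
      refine Finset.card_le_card fun a ha => ?_
      rw [Finset.mem_filter] at ha ⊢
      exact ⟨ha.1, ha.2.1⟩
    have h5 : 1 + X.N ^ 20 + X.N ^ 5 ≤ X.N ^ 52 := by
      have e1 : 1 ≤ X.N ^ 51 := Nat.one_le_pow _ _ hNn1
      have e2 : X.N ^ 20 ≤ X.N ^ 51 := Nat.pow_le_pow_right hNn1 (by norm_num)
      have e3 : X.N ^ 5 ≤ X.N ^ 51 := Nat.pow_le_pow_right hNn1 (by norm_num)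
      have e4 : X.N ^ 51 * 3 ≤ X.N ^ 52 := by
        rw [pow_succ X.N 51]
        exact Nat.mul_le_mul_left _ hNn
      omega
    show _ ≤ X.N ^ 52
    exact h4.trans (h3.trans h5)
  · intro δ α b
    have h3 := Lst_R h1 h2 δ α b
    have h4 : (((X.R α δ 0 b).filter (fun a => a ∈ (X.st0 c φ Rc al).S δ α)).card : ℝ) ≤
        1 + (X.N : ℝ) ^ 20 + (X.N : ℝ) ^ 5 := by
      exact_mod_cast h3
    have e1 : (1 : ℝ) ≤ (X.N : ℝ) ^ 20 := one_le_pow₀ hN1'
    have e2 : (X.N : ℝ) ^ 5 ≤ (X.N : ℝ) ^ 20 := pow_le_pow_right₀ hN1' (by norm_num)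
    have e3 : (3 : ℝ) * (X.N : ℝ) ^ 20 ≤ (X.N : ℝ) ^ 21 := by
      rw [pow_succ (X.N : ℝ) 20, mul_comm]
      exact mul_le_mul_of_nonneg_left hN1 (by positivity)
    have t1 := X.th_bd.1
    have t2 := X.dd_bd.1
    have t3 : X.pw (-(3 : ℝ) / 5) * X.pw 1 = X.pw (2 / 5) := by
      rw [X.pw_add]
      norm_num
    have t4 : (X.N : ℝ) ^ 76 ≤ X.pw (2 / 5) := X.pwN 76 (2 / 5) (by norm_num)
    have p0 := X.pw_pos (-(3 : ℝ) / 5)
    have p1 := X.pw_pos 1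
    have p2 := X.pw_pos (-(39 : ℝ) / 200)
    have t5 : X.pw (-(3 : ℝ) / 5) * (X.pw 1 / (8 * X.N ^ 54)) ≤ X.th * X.dd :=
      mul_le_mul t1 t2 (by positivity) (p0.le.trans t1)
    have t6 : (X.N : ℝ) ^ 21 ≤ X.pw (-(3 : ℝ) / 5) * (X.pw 1 / (8 * X.N ^ 54)) := by
      rw [← mul_div_assoc, t3, le_div_iff₀ (by positivity)]
      have e4 : (8 : ℝ) ≤ X.N := le_trans (by norm_num) hN
      calc (X.N : ℝ) ^ 21 * (8 * (X.N : ℝ) ^ 54) = 8 * (X.N : ℝ) ^ 75 := by ring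
        _ ≤ (X.N : ℝ) * (X.N : ℝ) ^ 75 := mul_le_mul_of_nonneg_right e4 (by positivity)
        _ = (X.N : ℝ) ^ 76 := by ring
        _ ≤ X.pw (2 / 5) := t4
    have t7 : 0 ≤ X.th * X.dd := le_trans (by positivity) t5
    have t8 : X.th * X.dd ≤ X.th * X.dd * (1 + X.pw (-(39 : ℝ) / 200)) := by
      nlinarith
    linarith

end Cx

end Pool.Agent.H2.LN
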