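/-
ROW Aa0. The arrivals of the first step.
PROOF. `m 0 τ δ α v` is `0`, `1`, `u α ≤ 1` or `1/16` (`u_bd`, `pwN`): in `[0, 1]`. As in Aay: number of `a ∈ R b ∩ S 0`: `≤ 1 + N^20 + N^5` (as in the proof of `t3` in Lst: `M a = a`, `W (M a)` or `Rs (M a)`), each term `≤ 1 / |GG a| ≤ 2 / (th dd)`: total `≤ 2 (2 N^20) / (th dd) ≤ 32 N^74 pw (-2/5)` (`th_bd`, `dd_bd`) `≤ N^80 pw (-2/5)`.
-/
import Pool.Agent.H2.LN.LD
import Pool.Agent.H2.LN.L.Aay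
import Pool.Agent.H2.LN.L.Lst

set_option autoImplicit false
set_option linter.unusedSectionVars false

namespace Pool.Agent.H2.LN

open Finset Classical
open Pool.Agent.H65.GI

namespace An

variable {V : Type} [Fintype V] {X : Cx V} (Y : An X)

theorem Aa0_n_pos (X : Cx V) : 0 < X.n := by
  unfold Cx.n
  omega

theorem Aa0_N1 (X : Cx V) : (1 : ℝ) ≤ X.N := le_trans (by norm_num) X.N_big

theorem Aa0_u_le (α : Fin X.s) : Y.u α ≤ 1 := by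
  have h := (Y.u_bd α).2
  have h1 := X.pwN 16 1 (by norm_num)
  have h2 := X.pw_add 1 (-1)
  have h3 := X.pw_pos (-1)
  have h4 : X.pw (1 + -1) = 1 := by
    unfold Cx.pw
    norm_num
  rw [h4] at h2
  have h5 := X.N_big
  have h6 : (2 : ℝ) * X.N ^ 15 ≤ X.N ^ 16 := by
    have h7 : (0 : ℝ) ≤ (X.N : ℝ) ^ 15 := by positivity
    have h8 : (2 : ℝ) ≤ X.N := le_trans (by norm_num) h5
    calc (2 : ℝ) * X.N ^ 15 ≤ X.N * X.N ^ 15 := mul_le_mul_of_nonneg_right h8 h7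
      _ = X.N ^ 16 := by ring
  calc Y.u α ≤ 2 * X.N ^ 15 * X.pw (-1) := h
    _ ≤ X.pw 1 * X.pw (-1) := mul_le_mul_of_nonneg_right (h6.trans h1) h3.le
    _ = 1 := h2

theorem Aa0_m (τ : Fin 2) (δ : ZMod 2) (α : Fin X.s) (v : V) :
    0 ≤ (X.st0 Y.c Y.φ Y.Rc Y.al).m τ δ α v ∧ (X.st0 Y.c Y.φ Y.Rc Y.al).m τ δ α v ≤ 1 := by
  have h0 := (Y.u_bd α).1
  have h1 := Y.Aa0_u_le α
  unfold An.u at h0 h1
  unfold Cx.st0
  dsimp only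
  split_ifs <;> first | exact ⟨h0, h1⟩ | (constructor <;> norm_num)

theorem Aa0_mem {δ : ZMod 2} {α : Fin X.s} {a : V} (h : a ∈ (X.st0 Y.c Y.φ Y.Rc Y.al).S δ α) :
    a ∈ X.D ∨ a ∈ X.disW Y.c α ∨ (Rs X.G X.p Y.c X.D X.M Y.Rc Y.al α a ∨
      Rs X.G X.p Y.c X.D X.M Y.Rc Y.al α (X.M α a)) := by
  unfold Cx.st0 at h
  dsimp only at h
  rw [mem_filter] at h
  rcases h.2.2.2 with h1 | h1 | h1
  · exact Or.inl (X.M_D h1)
  · refine Or.inr (Or.inl ?_)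
    unfold Cx.disW
    rw [mem_filter]
    exact ⟨mem_univ _, Or.inr h1⟩
  · exact Or.inr (Or.inr (Or.inr h1))

theorem Aa0_cnt (δ : ZMod 2) (α : Fin X.s) (b : V) :
    (((X.R α δ 0 b).filter (fun a => a ∈ (X.st0 Y.c Y.φ Y.Rc Y.al).S δ α)).card : ℝ) ≤
      1 + X.N ^ 20 + X.N ^ 5 := by
  have hsub : (X.R α δ 0 b).filter (fun a => a ∈ (X.st0 Y.c Y.φ Y.Rc Y.al).S δ α) ⊆
      ((X.R α δ 0 b).filter (fun a => a ∈ X.D) ∪ (X.R α δ 0 b).filter (fun a => a ∈ X.disW Y.c α)) ∪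
      (X.R α δ 0 b).filter (fun a => Rs X.G X.p Y.c X.D X.M Y.Rc Y.al α a ∨
      Rs X.G X.p Y.c X.D X.M Y.Rc Y.al α (X.M α a)) := by
    intro a ha
    rw [mem_filter] at ha
    rw [mem_union, mem_union, mem_filter, mem_filter, mem_filter]
    rcases Y.Aa0_mem ha.2 with h | h | h
    · exact Or.inl (Or.inl ⟨ha.1, h⟩)
    · exact Or.inl (Or.inr ⟨ha.1, h⟩)
    · exact Or.inr ⟨ha.1, h⟩
  have h1 := X.R_D α δ 0 b
  have h2 := Y.s1.k1 α δ 0 (Nat.zero_le _) b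
  have h3 := Y.s2.kb α δ 0 b
  have h4 := card_le_card hsub
  have h5 := card_union_le ((X.R α δ 0 b).filter (fun a => a ∈ X.D) ∪
    (X.R α δ 0 b).filter (fun a => a ∈ X.disW Y.c α))
    ((X.R α δ 0 b).filter (fun a => Rs X.G X.p Y.c X.D X.M Y.Rc Y.al α a ∨
      Rs X.G X.p Y.c X.D X.M Y.Rc Y.al α (X.M α a)))
  have h6 := card_union_le ((X.R α δ 0 b).filter (fun a => a ∈ X.D))
    ((X.R α δ 0 b).filter (fun a => a ∈ X.disW Y.c α))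
  have h7 : ((X.R α δ 0 b).filter (fun a => a ∈ (X.st0 Y.c Y.φ Y.Rc Y.al).S δ α)).card ≤
      1 + X.N ^ 20 + X.N ^ 5 := by
    refine h4.trans (h5.trans ?_)
    exact Nat.add_le_add (h6.trans (Nat.add_le_add h1 h2)) h3
  exact_mod_cast h7

theorem Aa0_thdd (X : Cx V) : X.pw (2 / 5) / (8 * X.N ^ 54) ≤ X.th * X.dd := by
  have h1 := X.th_bd.1
  have h2 := X.dd_bd.1
  have h3 := X.pw_add (-(3 : ℝ) / 5) 1
  have h4 := X.pw_pos (-(3 : ℝ) / 5)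
  have hN := Aa0_N1 X
  have h5 : X.pw (2 / 5) = X.pw (-(3 : ℝ) / 5) * X.pw 1 := by
    rw [h3]
    norm_num
  rw [h5, mul_div_assoc]
  refine mul_le_mul h1 h2 ?_ (h4.le.trans h1)
  exact div_nonneg (X.pw_pos 1).le (by positivity)

theorem Aa0_GG {δ : ZMod 2} {α : Fin X.s} {a : V} (ha : a ∈ Y.S 0 δ α) :
    X.pw (2 / 5) / (16 * X.N ^ 54) ≤ ((Y.GG 0 δ α a).card : ℝ) := by
  have h1 := (Y.ok 0 (Aa0_n_pos X)).2.g δ α a ha
  have h1' : |((Y.GG 0 δ α a).card : ℝ) - X.th * X.dd| ≤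
      X.th * X.dd * X.pw (-(39 : ℝ) / 200) := h1
  have h2 := Aa0_thdd X
  have hN := Aa0_N1 X
  have h3 : 0 < X.pw (2 / 5) / (8 * X.N ^ 54) := div_pos (X.pw_pos _) (by positivity)
  have h4 : 0 < X.th * X.dd := h3.trans_le h2
  have h5 : X.pw (-(39 : ℝ) / 200) ≤ 1 / 2 := by
    have h6 := X.pwN 1 (39 / 200) (by norm_num)
    have h7 := X.pw_add (39 / 200) (-(39 : ℝ) / 200)
    have h8 : X.pw (39 / 200 + -(39 : ℝ) / 200) = 1 := by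
      have : (39 : ℝ) / 200 + -(39 : ℝ) / 200 = 0 := by norm_num
      rw [this]
      unfold Cx.pw
      exact Real.rpow_zero _
    rw [h8] at h7
    have h9 := X.pw_pos (-(39 : ℝ) / 200)
    have h10 : (2 : ℝ) ≤ X.pw (39 / 200) := by
      rw [pow_one] at h6
      exact le_trans (le_trans (by norm_num) X.N_big) h6
    nlinarith
  have h6 := (abs_le.1 h1').1
  have h7 : X.th * X.dd * X.pw (-(39 : ℝ) / 200) ≤ X.th * X.dd * (1 / 2) :=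
    mul_le_mul_of_nonneg_left h5 h4.le
  have h8 : X.pw (2 / 5) / (16 * X.N ^ 54) = X.pw (2 / 5) / (8 * X.N ^ 54) / 2 := by
    rw [div_div]
    congr 1
    ring
  rw [h8]
  linarith

/-- the arrivals of step 0 are small -/
theorem ar_0 (τ : Fin 2) (δ : ZMod 2) (α : Fin X.s) (b : V) :
    0 ≤ Y.ar 0 τ δ α b ∧ Y.ar 0 τ δ α b ≤ X.N ^ 80 * X.pw (-(2 : ℝ) / 5) := by
  have hN := Aa0_N1 X
  have hterm : ∀ a ∈ ((Y.t 0).S δ α).filter (fun a => b ∈ X.GG Y.ds 0 (Y.t 0) (Y.ω (0 + 1)) δ α a),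
      0 ≤ (Y.t 0).m τ δ α a / ((X.GG Y.ds 0 (Y.t 0) (Y.ω (0 + 1)) δ α a).card : ℝ) :=
    fun a _ => div_nonneg (Y.Aa0_m τ δ α a).1 (Nat.cast_nonneg _)
  have hc0 : 0 < X.pw (2 / 5) / (16 * X.N ^ 54) := div_pos (X.pw_pos _) (by positivity)
  refine ⟨sum_nonneg hterm, ?_⟩
  have hterm' : ∀ a ∈ ((Y.t 0).S δ α).filter (fun a => b ∈ X.GG Y.ds 0 (Y.t 0) (Y.ω (0 + 1)) δ α a),
      (Y.t 0).m τ δ α a / ((X.GG Y.ds 0 (Y.t 0) (Y.ω (0 + 1)) δ α a).card : ℝ) ≤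
        1 / (X.pw (2 / 5) / (16 * X.N ^ 54)) := by
    intro a ha
    rw [mem_filter] at ha
    exact div_le_div₀ zero_le_one (Y.Aa0_m τ δ α a).2 hc0 (Y.Aa0_GG ha.1)
  have h1 : Y.ar 0 τ δ α b ≤
      ((((Y.t 0).S δ α).filter (fun a => b ∈ X.GG Y.ds 0 (Y.t 0) (Y.ω (0 + 1)) δ α a)).card : ℝ) *
        (1 / (X.pw (2 / 5) / (16 * X.N ^ 54))) := by
    have := sum_le_card_nsmul _ _ _ hterm'
    rw [nsmul_eq_mul] at this
    exact this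
  have h2 : ((((Y.t 0).S δ α).filter
      (fun a => b ∈ X.GG Y.ds 0 (Y.t 0) (Y.ω (0 + 1)) δ α a)).card : ℝ) ≤ 1 + X.N ^ 20 + X.N ^ 5 := by
    refine le_trans ?_ (Y.Aa0_cnt δ α b)
    refine Nat.cast_le.2 (card_le_card ?_)
    intro a ha
    rw [mem_filter] at ha
    rw [mem_filter]
    exact ⟨X.R_symm (Y.GG_ac (Aa0_n_pos X) ha.1 ha.2).2.2, ha.1⟩
  have h3 : (1 : ℝ) + X.N ^ 20 + X.N ^ 5 ≤ 3 * X.N ^ 20 := by
    have h4 : (X.N : ℝ) ^ 5 ≤ X.N ^ 20 := pow_le_pow_right₀ hN (by norm_num)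
    have h5 : (1 : ℝ) ≤ X.N ^ 20 := one_le_pow₀ hN
    linarith
  have h4 : 1 / (X.pw (2 / 5) / (16 * X.N ^ 54)) = 16 * X.N ^ 54 * X.pw (-(2 : ℝ) / 5) := by
    have h5 := X.pw_add (2 / 5) (-(2 : ℝ) / 5)
    have h6 : X.pw (2 / 5 + -(2 : ℝ) / 5) = 1 := by
      have : (2 : ℝ) / 5 + -(2 : ℝ) / 5 = 0 := by norm_num
      rw [this]
      unfold Cx.pw
      exact Real.rpow_zero _
    rw [h6] at h5
    have h7 := X.pw_pos (2 / 5)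
    rw [one_div_div]
    rw [div_eq_iff h7.ne']
    calc 16 * (X.N : ℝ) ^ 54 = 16 * X.N ^ 54 * 1 := by ring
      _ = 16 * X.N ^ 54 * (X.pw (2 / 5) * X.pw (-(2 : ℝ) / 5)) := by rw [h5]
      _ = _ := by ring
  rw [h4] at h1
  have hp := X.pw_pos (-(2 : ℝ) / 5)
  have h5 : (0 : ℝ) ≤ 16 * X.N ^ 54 * X.pw (-(2 : ℝ) / 5) := by positivity
  refine h1.trans ((mul_le_mul_of_nonneg_right (h2.trans h3) h5).trans ?_)
  have h6 : (48 : ℝ) ≤ X.N ^ 6 := by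
    have : (X.N : ℝ) ^ 1 ≤ X.N ^ 6 := pow_le_pow_right₀ hN (by norm_num)
    rw [pow_one] at this
    exact le_trans (le_trans (by norm_num) X.N_big) this
  calc 3 * (X.N : ℝ) ^ 20 * (16 * X.N ^ 54 * X.pw (-(2 : ℝ) / 5))
      = 48 * (X.N ^ 74 * X.pw (-(2 : ℝ) / 5)) := by ring
    _ ≤ X.N ^ 6 * (X.N ^ 74 * X.pw (-(2 : ℝ) / 5)) :=
        mul_le_mul_of_nonneg_right h6 (by positivity)
    _ = X.N ^ 80 * X.pw (-(2 : ℝ) / 5) := by ring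

end An

end Pool.Agent.H2.LN
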