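/-
ROW Lkd. Few spoiled vertices.
PROOF. `dis = disW ∪ disX`; `|R ∩ disW| ≤ N ^ 20` (`S1.k1`), `R ∩ disX ⊆ {u : G.Adj v u, u ∈ Rc}` (`R_adj`), `≤ N ^ 51` (`S2.ka`); `N ^ 20 + N ^ 51 ≤ N ^ 52 = kd`.
-/
import Pool.Agent.H2.LN.LD
import Pool.Agent.H2.LN.L.Leg
import Pool.Agent.H2.LN.L.Lbs

set_option autoImplicit false
set_option linter.unusedSectionVars false

namespace Pool.Agent.H2.LN

open Finset Classical
open Pool.Agent.H65.GI

namespace Cx

variable {V : Type} [Fintype V] {X : Cx V} {c : V → ℕ} {Rc : Finset V}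

theorem kd_ok {φ : ℝ} {al : V → Fin X.s} (h1 : X.S1 c φ) (h2 : X.S2 c φ Rc al) : X.KD c Rc := by
  intro α δ j v hj
  have hN : 2 ≤ X.N := le_trans (by norm_num) X.pm.big
  have hA := h1.k1 α δ j hj v
  have hB := h2.ka v
  have hsub : (X.R α δ j v).filter (fun b => b ∈ X.dis c Rc α) ⊆
      (X.R α δ j v).filter (fun b => b ∈ X.disW c α) ∪ univ.filter (fun u => X.G.Adj v u ∧ u ∈ Rc) := by
    intro b hb
    obtain ⟨hbR, hbd⟩ := Finset.mem_filter.1 hb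
    rcases Finset.mem_union.1 hbd with h | h
    · exact Finset.mem_union_left _ (Finset.mem_filter.2 ⟨hbR, h⟩)
    · refine Finset.mem_union_right _ (Finset.mem_filter.2 ⟨Finset.mem_univ _, R_adj X hbR, ?_⟩)
      exact (Finset.mem_filter.1 h).2.2.1
  have h52 : X.N ^ 20 + X.N ^ 51 ≤ X.N ^ 52 := by
    have h20 : X.N ^ 20 ≤ X.N ^ 51 := Nat.pow_le_pow_right (by omega) (by norm_num)
    have h2 : 2 * X.N ^ 51 ≤ X.N * X.N ^ 51 := Nat.mul_le_mul_right _ hN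
    have h3 : X.N * X.N ^ 51 = X.N ^ 52 := by ring
    omega
  calc ((X.R α δ j v).filter (fun b => b ∈ X.dis c Rc α)).card
      ≤ _ := Finset.card_le_card hsub
    _ ≤ _ := Finset.card_union_le _ _
    _ ≤ X.N ^ 20 + X.N ^ 51 := add_le_add hA hB
    _ ≤ X.N ^ 52 := h52
    _ = X.kd := rfl

end Cx

end Pool.Agent.H2.LN
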