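/-
ROW Lwl. From colours to windows.
PROOF. `Ia_card`: `Ia α` injects (by `g ↦ (g : ℕ)`) into the integers `g` with `g ≤ α`, `α < g + 2 p - 1`: at most `2 p - 1 ≤ 2 N`. Because of `hc`: `Wc p c α x ↔ c0 x ∈ X.Ia α` (unfold, same inequalities). So `[Wc α x] f x = ∑_{g ∈ Ia α} [c0 x = g] f x` (`Finset.sum_ite_eq`), sum over `x`, `Finset.sum_comm`.
`wl`: `∑_{g ∈ Ia} (∑_x [c0 x = g] f x - φ ∑ f)`, each term at most `pw (-19/5)` in absolute value, `ub φ α = φ |Ia α|`. `wb`: `[W x ∧ W y] = ∑_{g, g' ∈ Ia} [c0 x = g ∧ c0 y = g']`: `≤ (2 N)^2 ((N ^ 14 / Δ)^2 * 16 + Δ ^ (-9/2)) ≤ 65 N ^ 30 / Δ ^ 2 ≤ N ^ 31 / Δ ^ 2` (`Δ ^ (-9/2) ≤ Δ ^ (-2) = pw (-2)`; if `∑∑ h` is negative the bound is even better; `N ≥ 2 ^ 40`).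
-/
import Pool.Agent.H2.LN.LD
import Pool.Agent.H2.LN.L.Lnm

set_option autoImplicit false
set_option linter.unusedSectionVars false

namespace Pool.Agent.H2.LN

open Finset Classical
open Pool.Agent.H65.GI

namespace Cx

variable {V : Type} [Fintype V] {X : Cx V} {c : V → ℕ} {Rc : Finset V}

/-- a window has at most `2 N` colours -/
theorem Ia_card (X : Cx V) (α : ℕ) : ((X.Ia α).card : ℝ) ≤ 2 * X.N := by
  have hN : (X.p : ℝ) ≤ X.N := by exact_mod_cast X.hp2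
  have h1 : (X.Ia α).card ≤ 2 * X.p := by
    have hinj : (X.Ia α).card = ((X.Ia α).image (fun g : Fin X.sc => (g : ℕ))).card := by
      rw [Finset.card_image_of_injective]
      exact Fin.val_injective
    rw [hinj]
    have hsub : (X.Ia α).image (fun g : Fin X.sc => (g : ℕ)) ⊆ Finset.Ico (α + 1 - 2 * X.p) (α + 1) := by
      intro g hg
      rw [Finset.mem_image] at hg
      obtain ⟨g0, hg0, rfl⟩ := hg
      rw [Ia, Finset.mem_filter] at hg0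
      obtain ⟨_, h2, h3⟩ := hg0
      have hp := X.hp1
      rw [Finset.mem_Ico]
      omega
    refine (Finset.card_le_card hsub).trans ?_
    rw [Nat.card_Ico]
    omega
  have h2 : ((X.Ia α).card : ℝ) ≤ 2 * X.p := by exact_mod_cast h1
  linarith

private theorem Lwl_iff {c0 : V → Fin X.sc} (hc : ∀ v, c v = c0 v + (X.p - 1)) (α : Fin X.s) (x : V) :
    Wc X.p c α x ↔ c0 x ∈ X.Ia α := by
  rw [Ia, Finset.mem_filter, Wc, hc x]
  simp

/-- linear tests, from colours to windows -/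
theorem wl {c0 : V → Fin X.sc} {φ : ℝ} (hc : ∀ v, c v = c0 v + (X.p - 1)) (f : V → ℝ)
    (h : ∀ g, |(∑ x, if c0 x = g then f x else 0) - φ * ∑ x, f x| ≤ X.pw (-(19 : ℝ) / 5))
    (α : Fin X.s) : |(∑ x, if Wc X.p c α x then f x else 0) - X.ub φ α * ∑ x, f x| ≤
      2 * X.N * X.pw (-(19 : ℝ) / 5) := by
  have hsw : (∑ x, if Wc X.p c α x then f x else 0) =
      ∑ g ∈ X.Ia α, ∑ x, if c0 x = g then f x else 0 := by
    rw [Finset.sum_comm]
    refine Finset.sum_congr rfl (fun x _ => ?_)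
    rw [Finset.sum_ite_eq]
    by_cases hx : c0 x ∈ X.Ia α
    · rw [if_pos hx, if_pos ((Lwl_iff hc α x).2 hx)]
    · rw [if_neg hx, if_neg (fun h' => hx ((Lwl_iff hc α x).1 h'))]
  have hub : X.ub φ α * ∑ x, f x = ∑ g ∈ X.Ia α, φ * ∑ x, f x := by
    rw [Finset.sum_const, nsmul_eq_mul, ub]
    ring
  rw [hsw, hub, ← Finset.sum_sub_distrib]
  refine (Finset.abs_sum_le_sum_abs _ _).trans ?_
  refine (Finset.sum_le_sum (fun g _ => h g)).trans ?_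
  rw [Finset.sum_const, nsmul_eq_mul]
  exact mul_le_mul_of_nonneg_right (X.Ia_card α) (X.pw_pos _).le

/-- bilinear tests, from colours to windows -/
theorem wb {c0 : V → Fin X.sc} (hc : ∀ v, c v = c0 v + (X.p - 1)) (h : V → V → ℝ)
    (h1 : ∑ x, ∑ y, h x y ≤ 16)
    (h2 : ∀ g g', (∑ x, ∑ y, if c0 x = g ∧ c0 y = g' then h x y else 0) ≤
      (X.N ^ 14 / X.Δ : ℝ) ^ 2 * (∑ x, ∑ y, h x y) + X.pw (-(9 : ℝ) / 2)) (α : Fin X.s) :
    (∑ x, ∑ y, if Wc X.p c α x ∧ Wc X.p c α y then h x y else 0) ≤ X.N ^ 31 / (X.Δ : ℝ) ^ 2 := by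
  have hsw : (∑ x, ∑ y, if Wc X.p c α x ∧ Wc X.p c α y then h x y else 0) =
      ∑ g ∈ X.Ia α, ∑ g' ∈ X.Ia α, ∑ x, ∑ y, if c0 x = g ∧ c0 y = g' then h x y else 0 := by
    have e1 : ∀ x y, (if Wc X.p c α x ∧ Wc X.p c α y then h x y else 0) =
        ∑ g ∈ X.Ia α, ∑ g' ∈ X.Ia α, if c0 x = g ∧ c0 y = g' then h x y else 0 := by
      intro x y
      have e2 : ∀ g ∈ X.Ia α, (∑ g' ∈ X.Ia α, if c0 x = g ∧ c0 y = g' then h x y else 0) =
          if c0 x = g then (if c0 y ∈ X.Ia α then h x y else 0) else 0 := by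
        intro g _
        by_cases hg : c0 x = g
        · rw [if_pos hg]
          simp only [hg, true_and]
          rw [Finset.sum_ite_eq]
        · rw [if_neg hg]
          refine Finset.sum_eq_zero (fun g' _ => ?_)
          rw [if_neg (fun h' => hg h'.1)]
      rw [Finset.sum_congr rfl e2, Finset.sum_ite_eq]
      have hx := Lwl_iff hc α x
      have hy := Lwl_iff hc α y
      by_cases h3 : c0 x ∈ X.Ia α
      · by_cases h4 : c0 y ∈ X.Ia α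
        · rw [if_pos h3, if_pos h4, if_pos ⟨hx.2 h3, hy.2 h4⟩]
        · rw [if_pos h3, if_neg h4, if_neg (fun h' => h4 (hy.1 h'.2))]
      · rw [if_neg h3, if_neg (fun h' => h3 (hx.1 h'.1))]
    calc (∑ x, ∑ y, if Wc X.p c α x ∧ Wc X.p c α y then h x y else 0)
        = ∑ x, ∑ y, ∑ g ∈ X.Ia α, ∑ g' ∈ X.Ia α, if c0 x = g ∧ c0 y = g' then h x y else 0 :=
          Finset.sum_congr rfl (fun x _ => Finset.sum_congr rfl (fun y _ => e1 x y))
      _ = ∑ x, ∑ g ∈ X.Ia α, ∑ g' ∈ X.Ia α, ∑ y, if c0 x = g ∧ c0 y = g' then h x y else 0 := by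
          refine Finset.sum_congr rfl (fun x _ => ?_)
          rw [Finset.sum_comm]
          refine Finset.sum_congr rfl (fun g _ => ?_)
          rw [Finset.sum_comm]
      _ = _ := by
          rw [Finset.sum_comm]
          refine Finset.sum_congr rfl (fun g _ => ?_)
          rw [Finset.sum_comm]
  have hN : (2 : ℝ) ^ 40 ≤ X.N := X.N_big
  have hN1 : (1 : ℝ) ≤ X.N := by
    have : (1 : ℝ) ≤ 2 ^ 40 := by norm_num
    linarith
  have hD1 : (1 : ℝ) ≤ X.Δ := by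
    have h0 : (X.N : ℝ) ^ 40000 ≤ X.Δ := by exact_mod_cast X.pm.pow
    exact (one_le_pow₀ hN1).trans h0
  have hD0 : (0 : ℝ) < X.Δ := by linarith
  have hp : X.pw (-(9 : ℝ) / 2) ≤ 1 / (X.Δ : ℝ) ^ 2 := by
    have e3 : 1 / (X.Δ : ℝ) ^ 2 = (X.Δ : ℝ) ^ (-2 : ℝ) := by
      rw [Real.rpow_neg hD0.le, one_div]
      congr 1
      exact (Real.rpow_natCast (X.Δ : ℝ) 2).symm
    rw [e3, pw]
    exact Real.rpow_le_rpow_of_exponent_le hD1 (by norm_num)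
  have hb : ∀ g g', (∑ x, ∑ y, if c0 x = g ∧ c0 y = g' then h x y else 0) ≤
      17 * (X.N : ℝ) ^ 28 / (X.Δ : ℝ) ^ 2 := by
    intro g g'
    refine (h2 g g').trans ?_
    have e4 : (X.N ^ 14 / X.Δ : ℝ) ^ 2 * (∑ x, ∑ y, h x y) ≤ (X.N ^ 14 / X.Δ : ℝ) ^ 2 * 16 :=
      mul_le_mul_of_nonneg_left h1 (sq_nonneg _)
    have e5 : (X.N ^ 14 / X.Δ : ℝ) ^ 2 * 16 = 16 * (X.N : ℝ) ^ 28 / (X.Δ : ℝ) ^ 2 := by
      rw [div_pow, ← pow_mul]
      ring
    have e6 : 1 / (X.Δ : ℝ) ^ 2 ≤ (X.N : ℝ) ^ 28 / (X.Δ : ℝ) ^ 2 :=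
      div_le_div_of_nonneg_right (one_le_pow₀ hN1) (by positivity)
    have e7 : 17 * (X.N : ℝ) ^ 28 / (X.Δ : ℝ) ^ 2 =
        16 * (X.N : ℝ) ^ 28 / (X.Δ : ℝ) ^ 2 + (X.N : ℝ) ^ 28 / (X.Δ : ℝ) ^ 2 := by ring
    rw [e7]
    linarith
  rw [hsw]
  have hI := X.Ia_card (α : ℕ)
  set K : ℝ := 17 * (X.N : ℝ) ^ 28 / (X.Δ : ℝ) ^ 2 with hK
  have hK0 : 0 ≤ K := by positivity
  have h5 : (∑ g ∈ X.Ia α, ∑ g' ∈ X.Ia α, ∑ x, ∑ y, if c0 x = g ∧ c0 y = g' then h x y else 0) ≤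
      ((X.Ia α).card : ℝ) * (((X.Ia α).card : ℝ) * K) := by
    calc _ ≤ ∑ g ∈ X.Ia α, ∑ g' ∈ X.Ia α, K :=
          Finset.sum_le_sum (fun g _ => Finset.sum_le_sum (fun g' _ => hb g g'))
      _ = _ := by
          rw [Finset.sum_const, Finset.sum_const, nsmul_eq_mul, nsmul_eq_mul]
  refine h5.trans ?_
  have hc0 : (0 : ℝ) ≤ ((X.Ia α).card : ℝ) := Nat.cast_nonneg _
  have h6 : ((X.Ia α).card : ℝ) * (((X.Ia α).card : ℝ) * K) ≤ (2 * X.N) * ((2 * X.N) * K) := by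
    apply mul_le_mul hI _ (mul_nonneg hc0 hK0) (by positivity)
    exact mul_le_mul_of_nonneg_right hI hK0
  refine h6.trans ?_
  have h7 : (2 * (X.N : ℝ)) * ((2 * X.N) * K) = 68 * (X.N : ℝ) ^ 30 / (X.Δ : ℝ) ^ 2 := by
    rw [hK]
    ring
  rw [h7]
  refine div_le_div_of_nonneg_right ?_ (by positivity)
  have h8 : (X.N : ℝ) ^ 31 = X.N * (X.N : ℝ) ^ 30 := by ring
  rw [h8]
  refine mul_le_mul_of_nonneg_right ?_ (by positivity)
  have : (68 : ℝ) ≤ 2 ^ 40 := by norm_num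
  linarith

end Cx

end Pool.Agent.H2.LN
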