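/-
ROW Agn. General facts about the sequence of states.
PROOF. `kd`: `Cx.kd_ok Y.s1 Y.s2`. `tt`: `Y.ok`. `u_bd`: `u α = φ |Ia α|`, `|Ia α| ≤ 2 N` (`Ia_card`, file Lwl), `0 ≤ φ ≤ N ^ 14 / Δ`, `pw (-1) = 1 / Δ`. `GG_ac`: unfold `GG`; `sd α a = δ` (`TT.sd`), `R_sd`. `ac_M`: `dis_M` (contrapositive with `M_M`), and `cn ω α (M v) ↔ cn ω α v`: the coordinate `if sd = 1 ∨ M = then v else M v` is the same for `v` and `M v`
(`M_sd`, `M_M`: exactly one of the two is on side 1 if `M v ≠ v`). `S_succ`: `sq` at `j + 1` is `nxt`, `S` is `nS`. `ar_ne`: the sum is over `a` with `b ∈ GG a`; if there is none it is `0`.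
-/
import Pool.Agent.H2.LN.LD
import Pool.Agent.H2.LN.L.Lkd
import Pool.Agent.H2.LN.L.Lbs
import Pool.Agent.H2.LN.L.Lnm
import Pool.Agent.H2.LN.L.Lwl

set_option autoImplicit false
set_option linter.unusedSectionVars false

namespace Pool.Agent.H2.LN

open Finset Classical
open Pool.Agent.H65.GI

namespace An

variable {V : Type} [Fintype V] {X : Cx V} (Y : An X)

theorem kd : X.KD Y.c Y.Rc := Cx.kd_ok Y.s1 Y.s2

theorem tt (j : ℕ) (hj : j < X.n) : X.TT j (Y.t j) := (Y.ok j hj).1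

theorem u_bd (α : Fin X.s) : 0 ≤ Y.u α ∧ Y.u α ≤ 2 * X.N ^ 15 * X.pw (-1) := by
  have h0 := Y.s1.p0
  have h1 := Y.s1.p1
  have h2 := Cx.Ia_card X α
  have hD := X.Lnm_D0
  have hN := X.Lnm_N0
  have hc : (0 : ℝ) ≤ ((X.Ia α).card : ℝ) := Nat.cast_nonneg _
  have hpw : X.pw (-1) = 1 / X.Δ := by
    rw [X.Lnm_neg, X.Lnm_pw1]
  constructor
  · exact mul_nonneg h0 hc
  · unfold An.u Cx.ub
    rw [hpw]
    calc Y.φ * ((X.Ia α).card : ℝ) ≤ (X.N ^ 14 / X.Δ : ℝ) * (2 * X.N) := mul_le_mul h1 h2 hc (by positivity)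
      _ = 2 * X.N ^ 15 * (1 / X.Δ) := by ring

theorem GG_ac {j : ℕ} (hj : j < X.n) {δ : ZMod 2} {α : Fin X.s} {a b : V} (ha : a ∈ Y.S j δ α)
    (hb : b ∈ Y.GG j δ α a) : Y.ac j α b ∧ X.sd α b = δ + 1 ∧ b ∈ X.R α δ j a := by
  unfold An.GG Cx.GG at hb
  obtain ⟨h1, h2, h3, _⟩ := mem_filter.1 hb
  refine ⟨⟨h2, h3⟩, ?_, h1⟩
  rw [X.R_sd h1, (Y.tt j hj).sd δ α a ha]

theorem Agn_dis {α : Fin X.s} {v : V} (h : X.M α v ∈ Y.ds α) : v ∈ Y.ds α := by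
  unfold An.ds Cx.dis Cx.disW Cx.disX at *
  rw [mem_union, mem_filter, mem_filter, X.M_M] at h
  rw [mem_union, mem_filter, mem_filter]
  rcases h with ⟨_, h1⟩ | ⟨_, h1, h2, h3⟩
  · left
    exact ⟨mem_univ _, h1.symm⟩
  · right
    exact ⟨mem_univ _, fun h4 => h1 h4.symm, h3, h2⟩

theorem Agn_rp {α : Fin X.s} (v : V) :
    (if X.sd α (X.M α v) = 1 ∨ X.M α (X.M α v) = X.M α v then X.M α v else X.M α (X.M α v)) =
      if X.sd α v = 1 ∨ X.M α v = v then v else X.M α v := by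
  by_cases h : X.M α v = v
  · simp only [h, or_true, if_true]
  · have h2 : X.M α (X.M α v) ≠ X.M α v := by
      rw [X.M_M]
      exact fun h3 => h h3.symm
    have h3 := X.M_sd h
    have h4 : X.sd α (X.M α v) = 1 ↔ X.sd α v ≠ 1 := by
      rw [h3]
      have : ∀ a : ZMod 2, a + 1 = 1 ↔ a ≠ 1 := by decide
      exact this _
    rw [X.M_M]
    by_cases h5 : X.sd α v = 1
    · rw [if_neg, if_pos (Or.inl h5)]
      rintro (h6 | h6)
      · exact h4.1 h6 h5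
      · exact h h6.symm
    · rw [if_pos (Or.inl (h4.2 h5)), if_neg]
      rintro (h6 | h6)
      · exact h5 h6
      · exact h h6

theorem ac_M {j : ℕ} {α : Fin X.s} {v : V} (h : Y.ac j α v) : Y.ac j α (X.M α v) := by
  refine ⟨fun h1 => h.1 (Y.Agn_dis h1), ?_⟩
  have h2 := h.2
  unfold Cx.cn at *
  rw [Agn_rp]
  exact h2

theorem S_succ (j : ℕ) (δ : ZMod 2) (α : Fin X.s) (v : V) :
    v ∈ Y.S (j + 1) δ α ↔ X.sd α v = δ ∧ Y.ac j α v := by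
  change v ∈ X.nS Y.ds (Y.ω (j + 1)) δ α ↔ _
  unfold Cx.nS
  rw [mem_filter]
  constructor
  · rintro ⟨_, h1, h2, h3⟩
    exact ⟨h1, h2, h3⟩
  · rintro ⟨h1, h2, h3⟩
    exact ⟨mem_univ _, h1, h2, h3⟩

theorem ar_ne {j : ℕ} (hj : j < X.n) {τ : Fin 2} {δ : ZMod 2} {α : Fin X.s} {b : V}
    (h : Y.ar j τ δ α b ≠ 0) : Y.ac j α b ∧ X.sd α b = δ + 1 := by
  unfold An.ar Cx.arr at h
  obtain ⟨a, ha, _⟩ := Finset.exists_ne_zero_of_sum_ne_zero h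
  obtain ⟨ha1, ha2⟩ := mem_filter.1 ha
  have h3 := Y.GG_ac hj (δ := δ) (α := α) (a := a) (b := b) ha1 ha2
  exact ⟨h3.1, h3.2.1⟩

end An

end Pool.Agent.H2.LN
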