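/-
ROW Aay. Arrivals and expected arrivals.
PROOF. `ar b = ∑ over a ∈ R b ∩ S with b ∈ GG a of m a / |GG a|` (`b ∈ GG a` implies `a ∈ R b`, `R_symm`). `|GG a - th dd| ≤ th dd pw (-39/200)` (`Gd1.g`). `ar_le`: at most `|R b ∩ S| ≤ th dd (1 + pw (-39/200))` terms (`TT.t3`), each `≤ B / (th dd (1 - pw (-39/200)))`: total `≤ 2 B`. `ar_y`: for `a ∈ R b ∩ S`, as `ac j b`: `b ∈ GG a` unless there is `α' ≠ α` of the same coordinate with `a ∈ S_α'`, `cn α' b`: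
at most `60 pw (1/5) / mT` such `a` (`Gd1.c`). So `|ar b - y b| ≤ ∑_{a ∈ R b ∩ S} B |1 / |GG a| - 1 / (th dd)| + (60 pw (1/5) / mT) B / (th dd) ≤ 2 th dd · B · 2 pw (-39/200) / (th dd) + 60 pw (1/5) B / (mT th dd)`; `mT dd ≥ pw 1 / 2` (`dd_mT`), `th ≥ pw (-3/5)`: `≤ (4 pw (-39/200) + 120 pw (-1/5)) B ≤ pw (-97/500) B` (`pwN`: `N ≤ pw (1/1000)`).
-/
import Pool.Agent.H2.LN.LD
import Pool.Agent.H2.LN.L.Agn

set_option autoImplicit false
set_option linter.unusedSectionVars false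

namespace Pool.Agent.H2.LN

open Finset Classical
open Pool.Agent.H65.GI

namespace An

variable {V : Type} [Fintype V] {X : Cx V} (Y : An X)

private theorem Aay_e (X : Cx V) : 0 < X.pw (-(39 : ℝ) / 200) ∧ X.pw (-(39 : ℝ) / 200) ≤ 1 / 4 ∧
    4 * X.pw (-(39 : ℝ) / 200) + 120 * X.pw (-(1 : ℝ) / 5) ≤ X.pw (-(97 : ℝ) / 500) := by
  have hN := X.N_big
  have h1 : (X.N : ℝ) ≤ X.pw (39 / 200) := by
    have := X.pwN 1 (39 / 200) (by norm_num)
    rwa [pow_one] at this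
  have h2 : (X.N : ℝ) ≤ X.pw (1 / 200) := by
    have := X.pwN 1 (1 / 200) (by norm_num)
    rwa [pow_one] at this
  have h3 : (X.N : ℝ) ≤ X.pw (1 / 1000) := by
    have := X.pwN 1 (1 / 1000) (by norm_num)
    rwa [pow_one] at this
  have e0 := X.pw_pos (-(39 : ℝ) / 200)
  have e1 := X.pw_pos (-(1 : ℝ) / 5)
  have m1 : X.pw (-(39 : ℝ) / 200) * X.pw (39 / 200) = 1 := by
    rw [X.pw_add, show -(39 : ℝ) / 200 + 39 / 200 = 0 by ring]
    exact Real.rpow_zero _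
  have m2 : X.pw (-(1 : ℝ) / 5) * X.pw (1 / 200) = X.pw (-(39 : ℝ) / 200) := by
    rw [X.pw_add, show -(1 : ℝ) / 5 + 1 / 200 = -(39 : ℝ) / 200 by ring]
  have m3 : X.pw (-(39 : ℝ) / 200) * X.pw (1 / 1000) = X.pw (-(97 : ℝ) / 500) := by
    rw [X.pw_add, show -(39 : ℝ) / 200 + 1 / 1000 = -(97 : ℝ) / 500 by ring]
  have b1 : (4 : ℝ) ≤ X.N := le_trans (by norm_num) hN
  have b2 : (1 : ℝ) ≤ X.N := by linarith
  have b3 : (124 : ℝ) ≤ X.N := le_trans (by norm_num) hN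
  refine ⟨e0, ?_, ?_⟩
  · have : X.pw (-(39 : ℝ) / 200) * 4 ≤ X.pw (-(39 : ℝ) / 200) * X.pw (39 / 200) :=
      mul_le_mul_of_nonneg_left (b1.trans h1) e0.le
    rw [m1] at this
    linarith
  · have c1 : X.pw (-(1 : ℝ) / 5) ≤ X.pw (-(39 : ℝ) / 200) := by
      rw [← m2]
      exact le_mul_of_one_le_right e1.le (b2.trans h2)
    have c2 : X.pw (-(39 : ℝ) / 200) * 124 ≤ X.pw (-(39 : ℝ) / 200) * X.pw (1 / 1000) :=
      mul_le_mul_of_nonneg_left (b3.trans h3) e0.le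
    rw [m3] at c2
    linarith

private theorem Aay_T (X : Cx V) : 0 < X.th * X.dd ∧
    60 * X.pw (1 / 5) / mT X.N / (X.th * X.dd) ≤ 120 * X.pw (-(1 : ℝ) / 5) := by
  have hth := X.th_bd.1
  have hth0 : 0 < X.th := lt_of_lt_of_le (X.pw_pos _) hth
  have hN0 : (0 : ℝ) < X.N := lt_of_lt_of_le (by norm_num) X.N_big
  have hmT : (0 : ℝ) < mT X.N := lt_of_lt_of_le (pow_pos hN0 54) X.mT_bd.1
  have hdd0 : 0 < X.dd := lt_of_lt_of_le (div_pos (X.pw_pos 1) (by positivity)) X.dd_bd.1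
  have hdm : X.pw 1 / mT X.N ≤ 2 * X.dd := X.dd_mT.2
  have hT : 0 < X.th * X.dd := mul_pos hth0 hdd0
  refine ⟨hT, ?_⟩
  rw [div_le_iff₀ hT, div_le_iff₀ hmT]
  rw [div_le_iff₀ hmT] at hdm
  have e1 := X.pw_pos (-(1 : ℝ) / 5)
  have a1 : X.pw (-(3 : ℝ) / 5) * X.pw 1 = X.pw (2 / 5) := by
    rw [X.pw_add, show -(3 : ℝ) / 5 + 1 = 2 / 5 by ring]
  have a2 : X.pw (-(1 : ℝ) / 5) * X.pw (2 / 5) = X.pw (1 / 5) := by
    rw [X.pw_add, show -(1 : ℝ) / 5 + 2 / 5 = 1 / 5 by ring]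
  have a3 : X.pw (-(3 : ℝ) / 5) * X.pw 1 ≤ X.th * (2 * X.dd * mT X.N) :=
    mul_le_mul hth hdm (X.pw_pos 1).le hth0.le
  rw [a1] at a3
  have a4 := mul_le_mul_of_nonneg_left a3 e1.le
  rw [a2] at a4
  nlinarith

private theorem Aay_ar {j : ℕ} (τ : Fin 2) (δ : ZMod 2) (α : Fin X.s) (b : V) :
    Y.ar j τ δ α b = ∑ a ∈ (X.R α δ j b).filter (fun a => a ∈ Y.S j δ α),
      if b ∈ Y.GG j δ α a then Y.m j τ δ α a / ((Y.GG j δ α a).card : ℝ) else 0 := by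
  unfold ar Cx.arr
  rw [← Finset.sum_filter, Finset.filter_filter]
  refine Finset.sum_congr ?_ fun a _ => rfl
  ext a
  simp only [Finset.mem_filter]
  constructor
  · rintro ⟨h1, h2⟩
    exact ⟨X.R_symm (Finset.mem_filter.1 h2).1, h1, h2⟩
  · rintro ⟨_, h1, h2⟩
    exact ⟨h1, h2⟩

private theorem Aay_gd {j : ℕ} (hj : j < X.n) :
    X.Gd1 Y.ds j (Y.t j) (Y.ω (j + 1)) (X.TF Y.c Y.Rc) := (Y.ok j hj).2

/-- arrivals are close to the expected ones -/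
theorem ar_y {j : ℕ} (hj : j < X.n) (τ : Fin 2) {B : ℝ} (hB : ∀ δ α a, |Y.m j τ δ α a| ≤ B)
    (δ : ZMod 2) (α : Fin X.s) (b : V) (hb : Y.ac j α b) (hs : X.sd α b = δ + 1) :
    |Y.ar j τ δ α b - Y.y j τ δ α b| ≤ X.pw (-(97 : ℝ) / 500) * B := by
  have hB0 : 0 ≤ B := (abs_nonneg _).trans (hB δ α b)
  obtain ⟨he0, he4, hfin⟩ := Aay_e X
  obtain ⟨hT, hTc⟩ := Aay_T X
  have hg := (Aay_gd Y hj).g δ α
  have hc := (Aay_gd Y hj).c δ α b
  have hK := (Y.tt j hj).t3 δ α b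
  set e : ℝ := X.pw (-(39 : ℝ) / 200) with he
  set T : ℝ := X.th * X.dd with hTd
  set Rb : Finset V := (X.R α δ j b).filter (fun a => a ∈ Y.S j δ α) with hRb
  have hK' : (Rb.card : ℝ) ≤ T * (1 + e) := hK
  have hy : Y.y j τ δ α b = ∑ a ∈ Rb, Y.m j τ δ α a / T := by
    rw [← Finset.sum_div]
    rfl
  set Bad : Finset V := Rb.filter (fun a => ¬ b ∈ Y.GG j δ α a) with hBad
  have hBadc : (Bad.card : ℝ) ≤ 60 * X.pw (1 / 5) / mT X.N := by
    refine le_trans ?_ hc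
    refine Nat.cast_le.2 (Finset.card_le_card ?_)
    intro a ha
    obtain ⟨ha1, ha2⟩ := Finset.mem_filter.1 ha
    obtain ⟨ha3, ha4⟩ := Finset.mem_filter.1 ha1
    refine Finset.mem_filter.2 ⟨ha3, ha4, ?_⟩
    by_contra hcon
    apply ha2
    refine Finset.mem_filter.2 ⟨X.R_symm ha3, hb.1, hb.2, ?_⟩
    intro α' h1 h2 h3 h4
    exact hcon ⟨α', h1, h2, h3, h4⟩
  have hterm : ∀ a ∈ Rb, |(if b ∈ Y.GG j δ α a then Y.m j τ δ α a / ((Y.GG j δ α a).card : ℝ) else 0) -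
      Y.m j τ δ α a / T| ≤ 2 * e / T * B + (if ¬ b ∈ Y.GG j δ α a then 1 / T * B else 0) := by
    intro a ha
    have haS : a ∈ Y.S j δ α := (Finset.mem_filter.1 ha).2
    have hm := hB δ α a
    by_cases hba : b ∈ Y.GG j δ α a
    · rw [if_pos hba, if_neg (not_not.2 hba), add_zero]
      have hga : |((Y.GG j δ α a).card : ℝ) - T| ≤ T * e := hg a haS
      set g : ℝ := ((Y.GG j δ α a).card : ℝ) with hgd
      have hg1 := abs_le.1 hga
      have hgl : T / 2 ≤ g := by nlinarith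
      have hg0 : 0 < g := by linarith
      have heq : Y.m j τ δ α a / g - Y.m j τ δ α a / T = Y.m j τ δ α a * ((T - g) / (g * T)) := by
        field_simp
      rw [heq, abs_mul, abs_div, abs_of_pos (mul_pos hg0 hT), mul_comm]
      refine mul_le_mul ?_ hm (abs_nonneg _) (by positivity)
      rw [div_le_iff₀ (mul_pos hg0 hT), abs_sub_comm]
      refine hga.trans ?_
      have : 2 * e / T * (g * T) = 2 * e * g := by field_simp
      rw [this]
      nlinarith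
    · rw [if_neg hba, if_pos hba, zero_sub, abs_neg, abs_div, abs_of_pos hT]
      have h1 : |Y.m j τ δ α a| / T ≤ 1 / T * B := by
        rw [div_mul_eq_mul_div, one_mul]
        gcongr
      have h2 : 0 ≤ 2 * e / T * B := by positivity
      linarith
  rw [Aay_ar, hy, ← Finset.sum_sub_distrib]
  refine (Finset.abs_sum_le_sum_abs _ _).trans ((Finset.sum_le_sum hterm).trans ?_)
  rw [Finset.sum_add_distrib, Finset.sum_const, nsmul_eq_mul, ← Finset.sum_filter, Finset.sum_const,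
    nsmul_eq_mul]
  have h1 : (Rb.card : ℝ) * (2 * e / T * B) ≤ 4 * e * B := by
    have h3 : (Rb.card : ℝ) * (2 * e / T * B) ≤ T * (1 + e) * (2 * e / T * B) :=
      mul_le_mul_of_nonneg_right hK' (by positivity)
    have h4 : T * (1 + e) * (2 * e / T * B) = (1 + e) * (2 * e) * B := by field_simp
    rw [h4] at h3
    refine h3.trans (mul_le_mul_of_nonneg_right ?_ hB0)
    nlinarith
  have h2 : (Bad.card : ℝ) * (1 / T * B) ≤ 120 * X.pw (-(1 : ℝ) / 5) * B := by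
    have h3 : (Bad.card : ℝ) * (1 / T * B) ≤ 60 * X.pw (1 / 5) / mT X.N * (1 / T * B) :=
      mul_le_mul_of_nonneg_right hBadc (by positivity)
    have h4 : 60 * X.pw (1 / 5) / mT X.N * (1 / T * B) = 60 * X.pw (1 / 5) / mT X.N / T * B := by ring
    rw [h4] at h3
    exact h3.trans (mul_le_mul_of_nonneg_right hTc hB0)
  calc (Rb.card : ℝ) * (2 * e / T * B) + (Bad.card : ℝ) * (1 / T * B)
      ≤ 4 * e * B + 120 * X.pw (-(1 : ℝ) / 5) * B := add_le_add h1 h2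
    _ = (4 * e + 120 * X.pw (-(1 : ℝ) / 5)) * B := by ring
    _ ≤ X.pw (-(97 : ℝ) / 500) * B := mul_le_mul_of_nonneg_right hfin hB0

theorem ar_le {j : ℕ} (hj : j < X.n) (τ : Fin 2) {B : ℝ} (hB : ∀ δ α a, |Y.m j τ δ α a| ≤ B)
    (δ : ZMod 2) (α : Fin X.s) (b : V) : |Y.ar j τ δ α b| ≤ 2 * B := by
  have hB0 : 0 ≤ B := (abs_nonneg _).trans (hB δ α b)
  obtain ⟨he0, he4, -⟩ := Aay_e X
  obtain ⟨hT, -⟩ := Aay_T X
  have hg := (Aay_gd Y hj).g δ α
  have hK := (Y.tt j hj).t3 δ α b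
  set e : ℝ := X.pw (-(39 : ℝ) / 200) with he
  set T : ℝ := X.th * X.dd with hTd
  set Rb : Finset V := (X.R α δ j b).filter (fun a => a ∈ Y.S j δ α) with hRb
  have hK' : (Rb.card : ℝ) ≤ T * (1 + e) := hK
  have hterm : ∀ a ∈ Rb, |(if b ∈ Y.GG j δ α a then Y.m j τ δ α a / ((Y.GG j δ α a).card : ℝ) else 0)| ≤
      B / (T * (1 - e)) := by
    intro a ha
    have haS : a ∈ Y.S j δ α := (Finset.mem_filter.1 ha).2
    have hm := hB δ α a
    have hT1 : 0 < T * (1 - e) := mul_pos hT (by linarith)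
    by_cases hba : b ∈ Y.GG j δ α a
    · rw [if_pos hba]
      have hga : |((Y.GG j δ α a).card : ℝ) - T| ≤ T * e := hg a haS
      have hg1 := abs_le.1 hga
      have hgl : T * (1 - e) ≤ ((Y.GG j δ α a).card : ℝ) := by linarith [hg1.1]
      rw [abs_div, abs_of_pos (lt_of_lt_of_le hT1 hgl)]
      exact div_le_div₀ hB0 hm hT1 hgl
    · rw [if_neg hba, abs_zero]
      positivity
  rw [Aay_ar]
  refine (Finset.abs_sum_le_sum_abs _ _).trans ((Finset.sum_le_sum hterm).trans ?_)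
  rw [Finset.sum_const, nsmul_eq_mul]
  have hT1 : 0 < T * (1 - e) := mul_pos hT (by linarith)
  rw [mul_div_assoc', div_le_iff₀ hT1]
  have h3 : (Rb.card : ℝ) * B ≤ T * (1 + e) * B := mul_le_mul_of_nonneg_right hK' hB0
  refine h3.trans ?_
  have h4 : T * (1 + e) ≤ 2 * (T * (1 - e)) := by nlinarith
  calc T * (1 + e) * B ≤ 2 * (T * (1 - e)) * B := mul_le_mul_of_nonneg_right h4 hB0
    _ = 2 * B * (T * (1 - e)) := by ring

end An

end Pool.Agent.H2.LN
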