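import Pool.Agent.H2.LN.LD
import Pool.Agent.H2.LN.L.Agn

set_option autoImplicit false
set_option linter.unusedSectionVars false

namespace Pool.Agent.H2.LN

open Finset Classical
open Pool.Agent.H65.GI

namespace Cx

variable {V : Type} [Fintype V] (X : Cx V)

theorem Abk_pos : 0 < X.N ^ 3 := by
  have h := X.pm.big
  have : 0 < X.N := by
    have h2 : (0 : ℕ) < 2 ^ 40 := by positivity
    omega
  positivity

theorem Abk_bk0 {j : ℕ} (h2 : j ≤ X.N ^ 3) : X.bk j = 0 := by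
  have hp := X.Abk_pos
  unfold bk
  exact Nat.div_eq_of_lt (by omega)

theorem Abk_bk {j k : ℕ} (h1 : X.zl k ≤ j) (h2 : j < X.zl (k + 1)) : X.bk j = k + 1 := by
  unfold zl at h1 h2
  unfold bk
  refine Nat.div_eq_of_lt_le ?_ ?_
  · omega
  · omega

theorem Abk_mono {a b : ℕ} (h : a ≤ b) : X.zl a ≤ X.zl b := by
  unfold zl
  have : (a + 1) * X.N ^ 3 ≤ (b + 1) * X.N ^ 3 := Nat.mul_le_mul_right _ (by omega)
  omega

end Cx

namespace An

variable {V : Type} [Fintype V] {X : Cx V} (Y : An X)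

theorem ij_0 {j : ℕ} (h1 : 1 ≤ j) (h2 : j ≤ X.n3) (α : Fin X.s) : Y.ij j 0 α = Y.u α / X.th := by
  have h3 : X.bk j = 0 := X.Abk_bk0 h2
  simp [ij, Cx.inj, h3]

theorem ij_k {j k : ℕ} (h1 : X.zl k ≤ j) (h2 : j < X.zl (k + 1)) (α : Fin X.s) :
    Y.ij j 0 α = X.be k := by
  have h3 : X.bk j = k + 1 := X.Abk_bk h1 h2
  simp [ij, Cx.inj, h3]

theorem isZ_no {j k : ℕ} (h1 : X.zl k < j) (h2 : j < X.zl (k + 1)) : ¬ X.isZ j := by
  rintro ⟨k', _, rfl⟩
  rcases Nat.lt_or_ge k k' with h | h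
  · have := X.Abk_mono (Nat.succ_le_of_lt h)
    simp only [Nat.succ_eq_add_one] at this
    omega
  · have := X.Abk_mono h
    omega

theorem isZ_no0 {j : ℕ} (h2 : j ≤ X.n3) : ¬ X.isZ j := by
  rintro ⟨k', _, rfl⟩
  have h := X.Abk_mono (Nat.zero_le k')
  have h0 : X.zl 0 = X.N ^ 3 + 1 := by unfold Cx.zl; ring
  have h3 : X.n3 = X.N ^ 3 := rfl
  omega

end An

end Pool.Agent.H2.LN
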