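/-
ROW Ac0. The initial masses.
PROOF. `F = A α δ 0 P ≥ 0`, supported on `sd = δ` (`RF_nd`, `R_sd`), `∑ F ≤ 1`. `m 0 0 δ α v` for `sd v = δ`: `1` if `¬W v, W (M v)` (then `M v ≠ v`), `u` if `M v = v, ¬ W v`, else `0`. `pa F m = ∑_{v : M v ≠ v, W (M v), ¬ W v} F v + u ∑_{M v = v, ¬ W v} F v`. First: reindex `x = M v`: `∑_x [W x] mv F x - ∑_x [W x ∧ W (M x)] mv F x`: `S1.l1`: `u ∑ mv F` up to `2 N pw (-19/5)`, `S1.b1`: `≤ N^31 / Δ^2`. Second: `u (∑ dv F - ∑_x [W x] dv F x)`,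
`S1.l2` (`j = 0`): `∑ [W] dv F ≤ u ∑ dv F + 2 N pw (-19/5)`, `∑ dv F ≤ ∑_{D} F ≤ 1 / dd` (`A_box`, `R_D`, `M_D`). `∑ mv F + ∑ dv F = ∑ F` (`mv_sum`, `nd_dv`). Errors: `N^31 pw (-2) + 4 N pw (-19/5) + u (u / dd + ..) ≤ 2 N^31 pw (-2)`.
-/
import Pool.Agent.H2.LN.LD
import Pool.Agent.H2.LN.L.Agn
import Pool.Agent.H2.LN.L.Lrf
import Pool.Agent.H2.LN.L.Lop
import Pool.Agent.H2.LN.L.Ll2

set_option autoImplicit false
set_option linter.unusedSectionVars false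

namespace Pool.Agent.H2.LN

open Finset Classical
open Pool.Agent.H65.GI

namespace An

variable {V : Type} [Fintype V] {X : Cx V} (Y : An X)

private theorem Ac0_pa {δ : ZMod 2} {α : Fin X.s} (F : V → ℝ) (hF : ∀ v, F v ≠ 0 → X.sd α v = δ) :
    Cx.pa F (Y.m 0 0 δ α) =
      ((∑ x, if Wc X.p Y.c α x then X.mv α F x else 0) -
        (∑ x, if Wc X.p Y.c α x ∧ Wc X.p Y.c α (X.M α x) then X.mv α F x else 0)) +
      Y.u α * ((∑ x, X.dv α F x) - ∑ x, if Wc X.p Y.c α x then X.dv α F x else 0) := by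
  have hinv : Function.Involutive (X.M α) := fun v => X.M_M α v
  have h1 : ∀ g : V → ℝ, ∑ v, g (X.M α v) = ∑ v, g v := fun g => Equiv.sum_comp hinv.toPerm g
  have h2 : ∀ v, F v * Y.m 0 0 δ α v =
      ((if Wc X.p Y.c α (X.M α v) then X.mv α F (X.M α v) else 0) -
        (if Wc X.p Y.c α (X.M α v) ∧ Wc X.p Y.c α (X.M α (X.M α v)) then X.mv α F (X.M α v) else 0)) +
      Y.u α * (X.dv α F v - if Wc X.p Y.c α v then X.dv α F v else 0) := by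
    intro v
    have hmv : X.mv α F (X.M α v) = if X.M α v = v then 0 else F v := by
      show (if X.M α (X.M α v) ≠ X.M α v then F (X.M α (X.M α v)) else 0) = if X.M α v = v then 0 else F v
      rw [X.M_M α v]
      by_cases hv : X.M α v = v
      · rw [if_pos hv, if_neg (fun hh => hh hv.symm)]
      · rw [if_neg hv, if_pos (fun hh => hv hh.symm)]
    have hdv : X.dv α F v = if X.M α v = v then F v else 0 := rfl
    have hm : Y.m 0 0 δ α v = if X.sd α v = δ ∧ ¬ Wc X.p Y.c α v then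
        (if (0 : Fin 2) = 0 then (if X.M α v = v then X.ub Y.φ α else if Wc X.p Y.c α (X.M α v) then 1 else 0)
          else if Rs X.G X.p Y.c X.D X.M Y.Rc Y.al α (X.M α v) then 1 / 16 else 0)
        else 0 := rfl
    have hu : Y.u α = X.ub Y.φ α := rfl
    rw [hmv, hdv, hm, hu, X.M_M α v, if_pos (rfl : (0 : Fin 2) = 0)]
    by_cases hz : F v = 0
    · rw [hz]
      simp
    · have hsd := hF v hz
      by_cases hw : Wc X.p Y.c α v
      · by_cases hw2 : Wc X.p Y.c α (X.M α v)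
        · by_cases hv : X.M α v = v
          · simp [hw, hv, hsd]
          · simp [hw, hw2, hv, hsd]
        · by_cases hv : X.M α v = v
          · simp [hw, hv, hsd]
          · simp [hw, hw2, hv, hsd]
      · by_cases hw2 : Wc X.p Y.c α (X.M α v)
        · by_cases hv : X.M α v = v
          · simp [hw, hv, hsd, mul_comm]
          · simp [hw, hw2, hv, hsd]
        · by_cases hv : X.M α v = v
          · simp [hw, hv, hsd, mul_comm]
          · simp [hw, hw2, hv, hsd]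
  have e1 : ∑ v, (if Wc X.p Y.c α (X.M α v) then X.mv α F (X.M α v) else 0) =
      ∑ v, if Wc X.p Y.c α v then X.mv α F v else 0 := h1 (fun x => if Wc X.p Y.c α x then X.mv α F x else 0)
  have e2 : ∑ v, (if Wc X.p Y.c α (X.M α v) ∧ Wc X.p Y.c α (X.M α (X.M α v)) then X.mv α F (X.M α v) else 0) =
      ∑ v, if Wc X.p Y.c α v ∧ Wc X.p Y.c α (X.M α v) then X.mv α F v else 0 :=
    h1 (fun x => if Wc X.p Y.c α x ∧ Wc X.p Y.c α (X.M α x) then X.mv α F x else 0)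
  unfold Cx.pa
  rw [Finset.sum_congr rfl (fun v _ => h2 v), Finset.sum_add_distrib, ← Finset.mul_sum, Finset.sum_sub_distrib,
    Finset.sum_sub_distrib, e1, e2]

private theorem Ac0_sd {r : ℕ} {δ : ZMod 2} {α : Fin X.s} {P : V → ℝ} (h : X.RF α δ 0 r P) (v : V)
    (hv : X.A α δ 0 P v ≠ 0) : X.sd α v = δ := by
  have h1 : ∃ b ∈ X.R α δ 0 v, P b ≠ 0 := by
    by_contra hc
    push Not at hc
    refine hv ?_
    show (∑ b ∈ X.R α δ 0 v, P b) / X.dd = 0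
    rw [Finset.sum_eq_zero hc, zero_div]
  obtain ⟨b, hb, hPb⟩ := h1
  have h2 := (Cx.RF_nd h b hPb).2
  rw [X.R_sd hb] at h2
  exact add_right_cancel h2

private theorem Ac0_num {N u Δ1 ε2 dinv Dv : ℝ} (hN : 2 ^ 40 ≤ N) (hp : 0 < Δ1) (hp1 : N ^ 16 * Δ1 ≤ 1) 
    (hd8 : dinv ≤ 8) (hu0 : 0 ≤ u) (hu : u ≤ 2 * N ^ 15 * Δ1) (hε0 : 0 ≤ ε2) (hε : ε2 ≤ Δ1 ^ 2) (hDv : Dv ≤ dinv) :
    2 * N * ε2 + N ^ 31 * Δ1 ^ 2 + u * (u * Dv + 2 * N * ε2) ≤ 2 * (N ^ 31 * Δ1 ^ 2) := by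
  have hN0 : 0 < N := lt_of_lt_of_le (by norm_num) hN
  have h1 : u ≤ 1 := by
    have h2 : 2 * N ^ 15 * Δ1 ≤ N ^ 16 * Δ1 := by
      refine mul_le_mul_of_nonneg_right ?_ hp.le
      rw [pow_succ N 15, mul_comm (N ^ 15) N]
      exact mul_le_mul_of_nonneg_right (le_trans (by norm_num) hN) (by positivity)
    linarith
  have h3 : u * u ≤ 4 * N ^ 30 * Δ1 ^ 2 := by
    calc u * u ≤ (2 * N ^ 15 * Δ1) * (2 * N ^ 15 * Δ1) := mul_le_mul hu hu hu0 (by positivity)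
      _ = 4 * N ^ 30 * Δ1 ^ 2 := by ring
  have h4 : u * (u * Dv) ≤ 32 * N ^ 30 * Δ1 ^ 2 := by
    calc u * (u * Dv) = (u * u) * Dv := by ring
      _ ≤ (u * u) * 8 := mul_le_mul_of_nonneg_left (hDv.trans hd8) (by positivity)
      _ ≤ (4 * N ^ 30 * Δ1 ^ 2) * 8 := mul_le_mul_of_nonneg_right h3 (by norm_num)
      _ = 32 * N ^ 30 * Δ1 ^ 2 := by ring
  have h5 : 2 * N * ε2 ≤ 2 * N * Δ1 ^ 2 := mul_le_mul_of_nonneg_left hε (by positivity)
  have h6 : u * (2 * N * ε2) ≤ 2 * N * Δ1 ^ 2 := by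
    calc u * (2 * N * ε2) ≤ 1 * (2 * N * ε2) := mul_le_mul_of_nonneg_right h1 (by positivity)
      _ = 2 * N * ε2 := one_mul _
      _ ≤ _ := h5
  have h7 : (36 : ℝ) * N ^ 30 ≤ N ^ 31 := by
    rw [pow_succ N 30, mul_comm (N ^ 30) N]
    exact mul_le_mul_of_nonneg_right (le_trans (by norm_num) hN) (by positivity)
  have h8 : N ≤ N ^ 30 := by
    have h9 : (1 : ℝ) ≤ N := le_trans (by norm_num) hN
    exact le_self_pow₀ h9 (by norm_num)
  have h10 : (4 * N + 32 * N ^ 30) * Δ1 ^ 2 ≤ N ^ 31 * Δ1 ^ 2 := mul_le_mul_of_nonneg_right (by linarith) (by positivity)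
  have h11 : u * (u * Dv + 2 * N * ε2) = u * (u * Dv) + u * (2 * N * ε2) := by ring
  rw [h11]
  have h12 : (4 * N + 32 * N ^ 30) * Δ1 ^ 2 = 4 * N * Δ1 ^ 2 + 32 * N ^ 30 * Δ1 ^ 2 := by ring
  rw [h12] at h10
  linarith

/-- the initial masses -/
theorem c0 {r : ℕ} {δ : ZMod 2} {α : Fin X.s} {P : V → ℝ} (h : X.RF α δ 0 r P) (hr : X.n3 ≤ r + 1) :
    |Cx.pa (X.A α δ 0 P) (Y.m 0 0 δ α) - Y.u α * ∑ x, X.A α δ 0 P x| ≤ 2 * (X.N ^ 31 * X.pw (-2)) := by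
  have hP : ∀ x, 0 ≤ P x := Cx.RF_nn h
  have hF0 : ∀ x, 0 ≤ X.A α δ 0 P x := fun x => Cx.A_nn hP x
  have hl1 := Y.s1.l1 α δ r P h hr
  have hl2 := Y.s1.l2 α δ 0 r P h hr
  have hb1 := Y.s1.b1 α δ r P h hr
  obtain ⟨hu0, hu1⟩ := Y.u_bd α
  have hpa := Ac0_pa Y (X.A α δ 0 P) (Ac0_sd h)
  have hsum : ∑ x, X.A α δ 0 P x = ∑ x, X.mv α (X.A α δ 0 P) x + ∑ x, X.dv α (X.A α δ 0 P) x := by
    rw [Cx.mv_sum, ← Cx.nd_dv]
  have hmv0 : ∀ x, 0 ≤ X.mv α (X.A α δ 0 P) x := by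
    intro x
    show 0 ≤ if X.M α x ≠ x then X.A α δ 0 P (X.M α x) else 0
    split_ifs
    · exact hF0 _
    · exact le_refl 0
  have hdv0 : ∀ x, 0 ≤ X.dv α (X.A α δ 0 P) x := by
    intro x
    show 0 ≤ if X.M α x = x then X.A α δ 0 P x else 0
    split_ifs
    · exact hF0 _
    · exact le_refl 0
  have hB0 : 0 ≤ ∑ x, if Wc X.p Y.c α x ∧ Wc X.p Y.c α (X.M α x) then X.mv α (X.A α δ 0 P) x else 0 := by
    refine Finset.sum_nonneg fun x _ => ?_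
    split_ifs
    · exact hmv0 x
    · exact le_refl 0
  have hS20 : 0 ≤ ∑ x, if Wc X.p Y.c α x then X.dv α (X.A α δ 0 P) x else 0 := by
    refine Finset.sum_nonneg fun x _ => ?_
    split_ifs
    · exact hdv0 x
    · exact le_refl 0
  have hDv : ∑ x, X.dv α (X.A α δ 0 P) x ≤ 1 / X.dd := by
    have h1 : ∑ a ∈ X.D, X.A α δ 0 P a ≤ 1 / X.dd :=
      Cx.A_box hP (Cx.RF_l1 h) X.D 1 zero_le_one (fun b => by exact_mod_cast X.R_D α δ 0 b)
    refine le_trans ?_ h1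
    have h2 : ∑ x, X.dv α (X.A α δ 0 P) x ≤ ∑ x, if x ∈ X.D then X.A α δ 0 P x else 0 := by
      refine Finset.sum_le_sum fun x _ => ?_
      show (if X.M α x = x then X.A α δ 0 P x else 0) ≤ _
      by_cases hx : X.M α x = x
      · rw [if_pos hx, if_pos (X.M_D hx)]
      · rw [if_neg hx]
        split_ifs
        · exact hF0 _
        · exact le_refl 0
    refine h2.trans (le_of_eq ?_)
    rw [← Finset.sum_filter]
    refine Finset.sum_congr ?_ fun _ _ => rfl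
    ext x
    simp
  have hu : Y.u α = X.ub Y.φ α := rfl
  have hpw2 : X.pw (-2) = X.pw (-1) ^ 2 := by
    rw [pow_two, X.pw_add]
    norm_num
  have hΔ : (X.N : ℝ) ^ 31 / (X.Δ : ℝ) ^ 2 = X.N ^ 31 * X.pw (-2) := by
    rw [div_eq_mul_inv]
    congr 1
    show ((X.Δ : ℝ) ^ 2)⁻¹ = (X.Δ : ℝ) ^ (-2 : ℝ)
    rw [Real.rpow_neg (Nat.cast_nonneg _)]
    norm_num
  have hpw0 := X.pw_pos (-1)
  have hinv1 : X.pw 1 * X.pw (-1) = 1 := by
    rw [X.pw_add, add_neg_cancel]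
    exact Real.rpow_zero _
  have hp1 : (X.N : ℝ) ^ 16 * X.pw (-1) ≤ 1 := by
    exact (mul_le_mul_of_nonneg_right (X.pwN 16 1 (by norm_num)) hpw0.le).trans hinv1.le
  have hN := X.N_big
  have hN0 : (0 : ℝ) < X.N := lt_of_lt_of_le (by norm_num) hN
  have hdd : 1 / X.dd ≤ 8 ∧ 0 ≤ 1 / X.dd := by
    obtain ⟨h1, _⟩ := X.dd_bd
    have h2 : (X.N : ℝ) ^ 54 ≤ X.pw 1 := X.pwN 54 1 (by norm_num)
    have h3 : (1 : ℝ) / 8 ≤ X.pw 1 / (8 * X.N ^ 54) := by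
      rw [div_le_div_iff₀ (by norm_num) (by positivity)]
      linarith
    have h4 : 0 < X.dd := by linarith
    refine ⟨?_, by positivity⟩
    rw [div_le_iff₀ h4]
    linarith
  have hε0 := X.pw_pos (-(19 : ℝ) / 5)
  have hε : X.pw (-(19 : ℝ) / 5) ≤ X.pw (-1) ^ 2 := by
    rw [← hpw2]
    have h1 : (1 : ℝ) ≤ X.Δ := by
      have h2 : (X.N : ℝ) ^ 1 ≤ X.pw 1 := X.pwN 1 1 (by norm_num)
      have h3 : X.pw 1 = X.Δ := Real.rpow_one _
      rw [h3, pow_one] at h2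
      exact le_trans (le_trans (by norm_num) hN) h2
    exact Real.rpow_le_rpow_of_exponent_le h1 (by norm_num)
  have hnum := Ac0_num hN hpw0 hp1 hdd.1 hu0 hu1 hε0.le hε hDv
  rw [hpa, hsum]
  rw [← hpw2] at hnum
  rw [hΔ] at hb1
  rw [← hu] at hl1 hl2
  rw [abs_le] at hl1 hl2 ⊢
  have hS2 := mul_le_mul_of_nonneg_left (sub_le_iff_le_add'.mp hl2.2) hu0
  have hS2' := mul_nonneg hu0 hS20
  constructor
  · nlinarith [hl1.1, hl1.2, hB0, hb1, hnum, hS2, hS2']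
  · nlinarith [hl1.1, hl1.2, hB0, hb1, hnum, hS2, hS2']

end An

end Pool.Agent.H2.LN
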