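/-
ROW Aid. Pairing with the next masses.
PROOF. `Y.m (j+1) τ δ α v` unfolds to the `if` of `nxt` (`Y.t (j+1) = X.nxt .. (Y.t j) (Y.ω (j+1))` by `rfl`), `v ∈ nS ↔ sd α v = δ ∧ ac j α v`. `id_st`: for `M v = v`: `F v * ij` if `v ∈ S (j+1)`, i.e. `ij · dv F v`. For `M v ≠ v`: `F v * ar j τ δ α (M v)` if `v ∈ S (j+1)`; if `v ∉ S (j+1)` then `ar (M v) = 0`: otherwise (`ar_ne`) `ac j (M v)`, `sd (M v) = δ + 1`, so
`ac j v` (`ac_M`, `M_M`), `sd v = δ`. So the sum is `∑_v nd F v * ar (M v) + ..= ∑_x mv F x * ar x` (reindex by `M α`; `mv F x = nd F (M x)`-type identity). `id_z0`: `j + 1 = zl k`, `bk (zl k) = k + 1` (`(zl k - 1) / N^3 = k + 1`), `inj = be k`; nodes: `be k + ar 0 0 (M v) - ar 0 1 v`; for `v ∉ S`: `ar 0 0 (M v) = 0` and `ar 0 1 v = 0` (`ar_ne`: `ac v`,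
`sd v = 1 + 1 = 0`). `id_z1`: unfold (`bk`; `M v = v`: `inj = be k`). `zl k - 1 + 1 = zl k`; `zl k - 1 < n` for `k < 8`.
-/
import Pool.Agent.H2.LN.LD
import Pool.Agent.H2.LN.L.Agn

set_option autoImplicit false
set_option linter.unusedSectionVars false

namespace Pool.Agent.H2.LN

open Finset Classical
open Pool.Agent.H65.GI

namespace An

variable {V : Type} [Fintype V] {X : Cx V} (Y : An X)

theorem Aid_m (j : ℕ) (τ : Fin 2) (δ : ZMod 2) (α : Fin X.s) (v : V) :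
    Y.m (j + 1) τ δ α v = if v ∈ Y.S (j + 1) δ α then
      (if X.M α v = v then (if τ = 0 then X.inj (Y.u α) (j + 1) else 0)
        else if τ = 0 ∧ X.isZ (j + 1) then
          (if δ = 0 then X.be (X.bk (j + 1) - 1) + Y.ar j 0 0 α (X.M α v) -
            Y.ar j 0 1 α v else X.be (X.bk (j + 1) - 1))
        else Y.ar j τ δ α (X.M α v)) else 0 := rfl

theorem Aid_mv (α : Fin X.s) (F : V → ℝ) (v : V) :
    X.mv α F (X.M α v) = if X.M α v ≠ v then F v else 0 := by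
  unfold Cx.mv
  rw [X.M_M α v]
  by_cases h : X.M α v = v
  · simp [h]
  · have h' : v ≠ X.M α v := fun h2 => h h2.symm
    simp [h, h']

theorem Aid_reindex (α : Fin X.s) (F g : V → ℝ) :
    (∑ b, X.mv α F b * g b) = ∑ v, (if X.M α v ≠ v then F v else 0) * g (X.M α v) := by
  have h := Equiv.sum_comp (Function.Involutive.toPerm (X.M α) (X.M_M α)) (fun b => X.mv α F b * g b)
  rw [← h]
  refine Finset.sum_congr rfl fun v _ => ?_
  show X.mv α F (X.M α v) * g (X.M α v) = _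
  rw [Aid_mv]

theorem Aid_ar0 {j : ℕ} (hj : j < X.n) {τ : Fin 2} {δ : ZMod 2} {α : Fin X.s} {v : V}
    (hM : X.M α v ≠ v) (hv : v ∉ Y.S (j + 1) δ α) : Y.ar j τ δ α (X.M α v) = 0 := by
  by_contra h
  obtain ⟨h1, h2⟩ := Y.ar_ne hj h
  apply hv
  rw [Y.S_succ]
  have h3 := Y.ac_M h1
  rw [X.M_M α v] at h3
  rw [X.M_sd hM] at h2
  exact ⟨add_right_cancel h2, h3⟩

theorem Aid_ar1 {j : ℕ} (hj : j < X.n) {τ : Fin 2} {α : Fin X.s} {v : V}
    (hv : v ∉ Y.S (j + 1) 0 α) : Y.ar j τ 1 α v = 0 := by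
  by_contra h
  obtain ⟨h1, h2⟩ := Y.ar_ne hj h
  apply hv
  rw [Y.S_succ]
  exact ⟨by rw [h2]; decide, h1⟩

theorem Aid_zl (k : ℕ) : X.zl k = (X.zl k - 1) + 1 := by
  unfold Cx.zl
  omega

theorem Aid_lt {k : ℕ} (hk : k < 8) : X.zl k - 1 < X.n := by
  unfold Cx.zl Cx.n
  have h : (k + 1) * X.N ^ 3 ≤ 9 * X.N ^ 3 := Nat.mul_le_mul_right _ (by omega)
  omega

theorem Aid_N : 0 < X.N := by
  have h := X.pm.big
  have h2 : 0 < 2 ^ 40 := by positivity
  exact lt_of_lt_of_le h2 h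

theorem Aid_bk (k : ℕ) : X.bk (X.zl k - 1 + 1) = k + 1 := by
  rw [← Aid_zl]
  unfold Cx.bk Cx.zl
  rw [Nat.add_sub_cancel]
  exact Nat.mul_div_cancel _ (pow_pos (Aid_N (X := X)) 3)

/-- pairing with the next masses: ordinary layers -/
theorem id_st {j : ℕ} (hj : j < X.n) (τ : Fin 2) (hz : ¬ (τ = 0 ∧ X.isZ (j + 1))) (δ : ZMod 2)
    (α : Fin X.s) (F : V → ℝ) : Cx.pa F (Y.m (j + 1) τ δ α) =
      (∑ b, X.mv α F b * Y.ar j τ δ α b) +
      Y.ij (j + 1) τ α * ∑ v ∈ Y.S (j + 1) δ α, X.dv α F v := by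
  rw [Aid_reindex, Finset.mul_sum, ← Finset.sum_filter_add_sum_filter_not univ (fun v => v ∈ Y.S (j + 1) δ α)
    (fun v => (if X.M α v ≠ v then F v else 0) * Y.ar j τ δ α (X.M α v))]
  unfold Cx.pa
  rw [← Finset.sum_filter_add_sum_filter_not univ (fun v => v ∈ Y.S (j + 1) δ α)
    (fun v => F v * Y.m (j + 1) τ δ α v)]
  have hf : univ.filter (fun v => v ∈ Y.S (j + 1) δ α) = Y.S (j + 1) δ α := by
    ext v
    simp
  rw [hf]
  have h1 : ∑ v ∈ univ.filter (fun v => ¬ v ∈ Y.S (j + 1) δ α), F v * Y.m (j + 1) τ δ α v = 0 := by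
    refine Finset.sum_eq_zero fun v hv => ?_
    have hv' : v ∉ Y.S (j + 1) δ α := (Finset.mem_filter.1 hv).2
    rw [Aid_m, if_neg hv', mul_zero]
  have h2 : ∑ v ∈ univ.filter (fun v => ¬ v ∈ Y.S (j + 1) δ α),
      (if X.M α v ≠ v then F v else 0) * Y.ar j τ δ α (X.M α v) = 0 := by
    refine Finset.sum_eq_zero fun v hv => ?_
    have hv' : v ∉ Y.S (j + 1) δ α := (Finset.mem_filter.1 hv).2
    by_cases hM : X.M α v = v
    · rw [if_neg (not_not.2 hM), zero_mul]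
    · rw [Y.Aid_ar0 hj hM hv', mul_zero]
  rw [h1, h2, add_zero, add_zero, ← Finset.sum_add_distrib]
  refine Finset.sum_congr rfl fun v hv => ?_
  rw [Aid_m, if_pos hv]
  unfold ij Cx.dv
  by_cases hM : X.M α v = v
  · simp only [if_pos hM, if_neg (not_not.2 hM)]
    ring
  · rw [if_neg hM, if_neg hz, if_pos hM, if_neg hM]
    ring

/-- Z-layers, direction 0 -/
theorem id_z0 {k : ℕ} (hk : k < 8) (α : Fin X.s) (F : V → ℝ) :
    Cx.pa F (Y.m (X.zl k) 0 0 α) = X.be k * (∑ v ∈ Y.S (X.zl k) 0 α, F v) +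
      (∑ b, X.mv α F b * Y.ar (X.zl k - 1) 0 0 α b) -
      ∑ b, X.nd α F b * Y.ar (X.zl k - 1) 0 1 α b := by
  have hn : X.zl k - 1 < X.n := Aid_lt hk
  have hbk : X.bk (X.zl k - 1 + 1) = k + 1 := Aid_bk k
  have hZ : X.isZ (X.zl k - 1 + 1) := ⟨k, hk, (Aid_zl k).symm⟩
  have key : ∀ j, X.zl k = j + 1 → j = X.zl k - 1 → j < X.n → X.bk (j + 1) = k + 1 → X.isZ (j + 1) →
      Cx.pa F (Y.m (X.zl k) 0 0 α) = X.be k * (∑ v ∈ Y.S (X.zl k) 0 α, F v) +
        (∑ b, X.mv α F b * Y.ar j 0 0 α b) - ∑ b, X.nd α F b * Y.ar j 0 1 α b := by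
    intro j e1 _ hj hb hZ'
    rw [e1, Aid_reindex, Finset.mul_sum]
    have hf : ∑ v ∈ Y.S (j + 1) 0 α, X.be k * F v =
        ∑ v, if v ∈ Y.S (j + 1) 0 α then X.be k * F v else 0 := by
      rw [← Finset.sum_filter]
      refine Finset.sum_congr ?_ fun _ _ => rfl
      ext v
      simp
    rw [hf, ← Finset.sum_add_distrib, ← Finset.sum_sub_distrib]
    unfold Cx.pa
    refine Finset.sum_congr rfl fun v _ => ?_
    rw [Aid_m, hb]
    have e3 : k + 1 - 1 = k := by omega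
    have hinj : X.inj (Y.u α) (j + 1) = X.be k := by
      unfold Cx.inj
      rw [hb, if_neg (by omega), e3]
    rw [hinj, e3]
    unfold Cx.nd
    by_cases hv : v ∈ Y.S (j + 1) 0 α
    · by_cases hM : X.M α v = v
      · rw [if_pos hv, if_pos hM, if_pos rfl, if_pos hv, if_neg (not_not.2 hM)]
        ring
      · rw [if_pos hv, if_neg hM, if_pos ⟨rfl, hZ'⟩, if_pos rfl, if_pos hv, if_pos hM]
        ring
    · rw [if_neg hv, if_neg hv]
      by_cases hM : X.M α v = v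
      · rw [if_neg (not_not.2 hM)]
        ring
      · rw [Y.Aid_ar0 hj hM hv, Y.Aid_ar1 hj hv]
        ring
  exact key _ (Aid_zl k) rfl hn hbk hZ

theorem id_z1 {k : ℕ} (hk : k < 8) (α : Fin X.s) (v : V) :
    Y.m (X.zl k) 0 1 α v = if v ∈ Y.S (X.zl k) 1 α then X.be k else 0 := by
  have key : ∀ j, X.zl k = j + 1 → X.bk (j + 1) = k + 1 → X.isZ (j + 1) →
      Y.m (X.zl k) 0 1 α v = if v ∈ Y.S (X.zl k) 1 α then X.be k else 0 := by
    intro j e1 hb hZ'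
    rw [e1, Aid_m, hb]
    have e3 : k + 1 - 1 = k := by omega
    have hinj : X.inj (Y.u α) (j + 1) = X.be k := by
      unfold Cx.inj
      rw [hb, if_neg (by omega), e3]
    rw [hinj, e3]
    by_cases hv : v ∈ Y.S (j + 1) 1 α
    · rw [if_pos hv, if_pos hv]
      by_cases hM : X.M α v = v
      · rw [if_pos hM, if_pos rfl]
      · rw [if_neg hM, if_pos ⟨rfl, hZ'⟩, if_neg (by decide)]
    · rw [if_neg hv, if_neg hv]
  exact key _ (Aid_zl k) (Aid_bk k) ⟨k, hk, (Aid_zl k).symm⟩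

end An

end Pool.Agent.H2.LN
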