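/-
ROW Ayn. Propagation of the expected arrivals.
PROOF. `y (j+1) b = (∑_{a ∈ R (j+1) b ∩ S (j+1)} m (j+1) a) / (th dd)`. For `a ∈ S (j+1)` with `M a ≠ a`: `m (j+1) a = ar j (M a)` (unfold `nxt`, `hz`), and `|ar j (M a) - y j (M a)| ≤ pw (-97/500) B` (`ar_y`; `ac j (M a)`, `sd (M a) = δ + 1`). For `M a = a`: `m = ij (j+1) τ α`, at most one such `a` (`M_D`, `R_D`). So `y (j+1) b` differs from `(∑_{a ∈ R (j+1) b ∩ nS} mv (y j) a) / (th dd)`
by at most `|R b ∩ nS| pw (-97/500) B / (th dd) + |ij| / (th dd) ≤ 2 pw (-97/500) B + |ij| / (th dd)` (`Gd1.t3`), and by `Gd1.y` this is within `pw (-39/200) B` of `A (mv (y j)) b`. `2 pw (-97/500) + pw (-39/200) ≤ pw (-19/100)` (`pwN`, `pw_add`).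
-/
import Pool.Agent.H2.LN.LD
import Pool.Agent.H2.LN.L.Aay
import Pool.Agent.H2.LN.L.Aid
import Pool.Agent.H2.LN.L.Lop

set_option autoImplicit false
set_option linter.unusedSectionVars false

namespace Pool.Agent.H2.LN

open Finset Classical
open Pool.Agent.H65.GI

namespace An

variable {V : Type} [Fintype V] {X : Cx V} (Y : An X)

/-- propagation of the expected arrivals -/
theorem y_nx {j : ℕ} (hj : j + 1 < X.n) (τ : Fin 2) (hz : ¬ (τ = 0 ∧ X.isZ (j + 1))) {B : ℝ}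
    (hB : ∀ δ α a, |Y.m j τ δ α a| ≤ B) (δ : ZMod 2) (α : Fin X.s) (b : V) :
    |Y.y (j + 1) τ δ α b - X.A α δ (j + 1) (X.mv α (Y.y j τ δ α)) b| ≤
      X.pw (-(19 : ℝ) / 100) * B + |Y.ij (j + 1) τ α| / (X.th * X.dd) := by
  have hj' : j < X.n := by omega
  have hB0 : 0 ≤ B := le_trans (abs_nonneg _) (hB δ α b)
  have hg := (Y.ok j hj').2
  have hy := hg.y τ δ α b B hB
  have ht3 := hg.t3 δ α b
  have hth : 0 < X.th := lt_of_lt_of_le (X.pw_pos _) X.th_bd.1
  have hN : (0 : ℝ) < X.N := lt_of_lt_of_le (by norm_num) X.N_big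
  have hdd : 0 < X.dd := by
    refine lt_of_lt_of_le ?_ X.dd_bd.1
    have := X.pw_pos 1
    positivity
  have htd : 0 < X.th * X.dd := mul_pos hth hdd
  -- the sum over the new senders
  set F : Finset V := (X.R α δ (j + 1) b).filter (fun a => a ∈ X.nS Y.ds (Y.ω (j + 1)) δ α) with hF
  have ey : Y.y (j + 1) τ δ α b = (∑ a ∈ F, Y.m (j + 1) τ δ α a) / (X.th * X.dd) := rfl
  have hy' : |(∑ a ∈ F, X.mv α (Y.y j τ δ α) a) / (X.th * X.dd) -
      X.A α δ (j + 1) (X.mv α (Y.y j τ δ α)) b| ≤ X.pw (-(39 : ℝ) / 200) * B := hy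
  have ht3' : (F.card : ℝ) ≤ X.th * X.dd * (1 + X.pw (-(39 : ℝ) / 200)) := ht3
  -- pointwise
  have hpt : ∀ a ∈ F, |Y.m (j + 1) τ δ α a - X.mv α (Y.y j τ δ α) a| ≤
      X.pw (-(97 : ℝ) / 500) * B + (if X.M α a = a then |Y.ij (j + 1) τ α| else 0) := by
    intro a ha
    have haS : a ∈ X.nS Y.ds (Y.ω (j + 1)) δ α := (Finset.mem_filter.1 ha).2
    have haS' : a ∈ Y.S (j + 1) δ α := haS
    obtain ⟨hsd, hac⟩ := (Y.S_succ j δ α a).1 haS'
    have em : Y.m (j + 1) τ δ α a = (if a ∈ X.nS Y.ds (Y.ω (j + 1)) δ α then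
        (if X.M α a = a then (if τ = 0 then X.inj (Y.u α) (j + 1) else 0)
          else if τ = 0 ∧ X.isZ (j + 1) then
            (if δ = 0 then X.be (X.bk (j + 1) - 1) + X.arr Y.ds j (Y.t j) (Y.ω (j + 1)) 0 0 α (X.M α a) -
              X.arr Y.ds j (Y.t j) (Y.ω (j + 1)) 0 1 α a else X.be (X.bk (j + 1) - 1))
          else X.arr Y.ds j (Y.t j) (Y.ω (j + 1)) τ δ α (X.M α a)) else 0) := rfl
    rw [if_pos haS] at em
    by_cases hM : X.M α a = a
    · rw [if_pos hM] at em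
      have e2 : X.mv α (Y.y j τ δ α) a = 0 := by
        unfold Cx.mv
        rw [if_neg (not_not.2 hM)]
      have e3 : Y.m (j + 1) τ δ α a = Y.ij (j + 1) τ α := em
      rw [e2, e3, if_pos hM, sub_zero]
      have := mul_nonneg (X.pw_pos (-(97 : ℝ) / 500)).le hB0
      linarith
    · rw [if_neg hM, if_neg hz] at em
      have e2 : X.mv α (Y.y j τ δ α) a = Y.y j τ δ α (X.M α a) := by
        unfold Cx.mv
        rw [if_pos hM]
      have e3 : Y.m (j + 1) τ δ α a = Y.ar j τ δ α (X.M α a) := em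
      rw [e2, e3, if_neg hM, add_zero]
      refine Y.ar_y hj' τ hB δ α (X.M α a) (Y.ac_M hac) ?_
      rw [X.M_sd hM, hsd]
  -- the sum of the pointwise bounds
  have hcard1 : ((F.filter (fun a => X.M α a = a)).card : ℝ) ≤ 1 := by
    have h1 : F.filter (fun a => X.M α a = a) ⊆
        (X.R α δ (j + 1) b).filter (fun u => u ∈ X.D) := by
      intro a ha
      rw [Finset.mem_filter] at ha
      rw [Finset.mem_filter]
      exact ⟨(Finset.mem_filter.1 ha.1).1, X.M_D ha.2⟩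
    have h2 := (Finset.card_le_card h1).trans (X.R_D α δ (j + 1) b)
    exact_mod_cast h2
  have hsum : |(∑ a ∈ F, Y.m (j + 1) τ δ α a) - ∑ a ∈ F, X.mv α (Y.y j τ δ α) a| ≤
      (F.card : ℝ) * (X.pw (-(97 : ℝ) / 500) * B) + |Y.ij (j + 1) τ α| := by
    rw [← Finset.sum_sub_distrib]
    refine (Finset.abs_sum_le_sum_abs _ _).trans ((Finset.sum_le_sum hpt).trans ?_)
    rw [Finset.sum_add_distrib, Finset.sum_const, nsmul_eq_mul, ← Finset.sum_filter,
      Finset.sum_const, nsmul_eq_mul]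
    have := mul_le_mul_of_nonneg_right hcard1 (abs_nonneg (Y.ij (j + 1) τ α))
    linarith
  -- numbers
  have hp0 : ∀ x : ℝ, 0 ≤ x → 1 ≤ X.pw x := by
    intro x hx
    have := X.pwN 0 x (by push_cast; linarith)
    simpa using this
  have hone : X.pw (-(39 : ℝ) / 200) ≤ 1 := by
    have h1 := X.pw_add (39 / 200) (-(39 : ℝ) / 200)
    have h2 := hp0 (39 / 200) (by norm_num)
    have h3 : X.pw ((39 : ℝ) / 200 + -(39 : ℝ) / 200) = 1 := by
      have : (39 : ℝ) / 200 + -(39 : ℝ) / 200 = 0 := by norm_num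
      rw [this]
      unfold Cx.pw
      exact Real.rpow_zero _
    rw [h3] at h1
    have h4 := X.pw_pos (-(39 : ℝ) / 200)
    nlinarith
  have hnum : 2 * X.pw (-(97 : ℝ) / 500) + X.pw (-(39 : ℝ) / 200) ≤ X.pw (-(19 : ℝ) / 100) := by
    have h1 : X.pw (1 / 1000) * X.pw (-(39 : ℝ) / 200) = X.pw (-(97 : ℝ) / 500) := by
      rw [X.pw_add]
      congr 1
      norm_num
    have h2 : X.pw (1 / 250) * X.pw (-(97 : ℝ) / 500) = X.pw (-(19 : ℝ) / 100) := by
      rw [X.pw_add]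
      congr 1
      norm_num
    have h3 := hp0 (1 / 1000) (by norm_num)
    have h4 : (3 : ℝ) ≤ X.pw (1 / 250) := by
      have h5 := X.pwN 1 (1 / 250) (by norm_num)
      have h6 := X.N_big
      rw [pow_one] at h5
      have : (3 : ℝ) ≤ 2 ^ 40 := by norm_num
      linarith
    have h7 := X.pw_pos (-(39 : ℝ) / 200)
    have h8 := X.pw_pos (-(97 : ℝ) / 500)
    have h9 : X.pw (-(39 : ℝ) / 200) ≤ X.pw (-(97 : ℝ) / 500) := by
      rw [← h1]
      nlinarith
    have h10 : 3 * X.pw (-(97 : ℝ) / 500) ≤ X.pw (-(19 : ℝ) / 100) := by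
      rw [← h2]
      exact mul_le_mul_of_nonneg_right h4 h8.le
    linarith
  -- put together
  have hq : |Y.y (j + 1) τ δ α b - (∑ a ∈ F, X.mv α (Y.y j τ δ α) a) / (X.th * X.dd)| ≤
      2 * X.pw (-(97 : ℝ) / 500) * B + |Y.ij (j + 1) τ α| / (X.th * X.dd) := by
    rw [ey, ← sub_div, abs_div, abs_of_pos htd, div_le_iff₀ htd, add_mul,
      div_mul_cancel₀ _ htd.ne']
    refine hsum.trans ?_
    have h1 : (F.card : ℝ) ≤ X.th * X.dd * 2 := by
      refine ht3'.trans ?_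
      exact mul_le_mul_of_nonneg_left (by linarith) htd.le
    have h2 : 0 ≤ X.pw (-(97 : ℝ) / 500) * B := mul_nonneg (X.pw_pos _).le hB0
    have h3 := mul_le_mul_of_nonneg_right h1 h2
    have h4 : X.th * X.dd * 2 * (X.pw (-(97 : ℝ) / 500) * B) =
        2 * X.pw (-(97 : ℝ) / 500) * B * (X.th * X.dd) := by ring
    linarith
  have htri := abs_sub_le (Y.y (j + 1) τ δ α b)
    ((∑ a ∈ F, X.mv α (Y.y j τ δ α) a) / (X.th * X.dd))
    (X.A α δ (j + 1) (X.mv α (Y.y j τ δ α)) b)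
  have hfin := mul_le_mul_of_nonneg_right hnum hB0
  rw [add_mul] at hfin
  linarith

end An

end Pool.Agent.H2.LN
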