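/-
ROW Lrp. The coins.
PROOF. `rp α v` is `v` or `M α v`. `rp_inj`: four cases; if `rp v = v` and `rp w = M w` (so `M w ≠ w`, `sd w ≠ 1`): `v = M w`, `sd v = sd w + 1` (`M_sd`), against `hs`; if `rp v = M v`, `rp w = M w`: `v = w` by `M_M`. `cn ω α v ↔ (ω (rp α v, α) : ℕ) = 0` by definition: `cn_loc`. `cn_pr`: `pr (fun ω => (ω i : ℕ) = 0) = 1 / q` for a coordinate `i`
(`pr_coord`-type rule: see `H65/GI/Cnd`, `pr` of an event of one coordinate; or `ex_emb` of `H12/LN/Tools` for `Unit → V × Fin s`), `q > 0` (`th_bd`), `{x : Fin q | x = 0}` has one element. `GG_loc`: `b ∈ R a` is in `bl a 1`, `rp α' b ∈ bl a 2` (`R_adj`, `M_adj`, `bl_adj`).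
-/


/-
ROW Lrp. The coins.
PROOF. `rp α v` is `v` or `M α v`. `rp_inj`: four cases; if `rp v = v` and `rp w = M w` (so `M w ≠ w`, `sd w ≠ 1`): `v = M w`, `sd v = sd w + 1` (`M_sd`), against `hs`; if `rp v = M v`, `rp w = M w`: `v = w` by `M_M`. `cn ω α v ↔ (ω (rp α v, α) : ℕ) = 0` by definition: `cn_loc`. `cn_pr`: `pr (fun ω => (ω i : ℕ) = 0) = 1 / q` for a coordinate `i`
(`pr_coord`-type rule: see `H65/GI/Cnd`, `pr` of an event of one coordinate; or `ex_emb` of `H12/LN/Tools` for `Unit → V × Fin s`), `q > 0` (`th_bd`), `{x : Fin q | x = 0}` has one element. `GG_loc`: `b ∈ R a` is in `bl a 1`, `rp α' b ∈ bl a 2` (`R_adj`, `M_adj`, `bl_adj`).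
-/
import Pool.Agent.H2.LN.LD
import Pool.Agent.H2.LN.L.Lbs
import Pool.Agent.H2.LN.L.Lnm
import Pool.Agent.H12.LN.Tools
import Pool.Agent.H12.LN.V0
import Pool.Agent.H65.GI.Lll

set_option autoImplicit false
set_option linter.unusedSectionVars false

namespace Pool.Agent.H2.LN

open Finset Classical
open Pool.Agent.H65.GI

namespace Cx

variable {V : Type} [Fintype V] {X : Cx V} {c : V → ℕ} {Rc : Finset V}

private theorem Lrp_ne (a : ZMod 2) : a ≠ a + 1 := by
  revert a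
  decide

theorem rp_inj {α : Fin X.s} {v w : V} (h : X.rp α v = X.rp α w) (hs : X.sd α v = X.sd α w) : v = w := by
  unfold rp at h
  split_ifs at h with h1 h2 h2
  · exact h
  · exfalso
    have h3 : X.M α w ≠ w := fun h4 => h2 (Or.inr h4)
    have h4 := X.M_sd h3
    rw [← h, hs] at h4
    exact Lrp_ne _ h4
  · exfalso
    have h3 : X.M α v ≠ v := fun h4 => h1 (Or.inr h4)
    have h4 := X.M_sd h3
    rw [h, ← hs] at h4
    exact Lrp_ne _ h4
  · rw [← X.M_M α v, h, X.M_M]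

private theorem Lrp_cn (ω : X.Co) (α : Fin X.s) (v : V) :
    X.cn ω α v ↔ ((ω (X.rp α v, α) : Fin X.q) : ℕ) = 0 := Iff.rfl

theorem cn_loc (α : Fin X.s) (v : V) : Loc (fun ω : X.Co => X.cn ω α v) {(X.rp α v, α)} := by
  intro ω ω' h
  have h1 := h (X.rp α v, α) (mem_singleton_self _)
  refine propext ?_
  show X.cn ω α v ↔ X.cn ω' α v
  rw [Lrp_cn, Lrp_cn, h1]

theorem cn_pr (α : Fin X.s) (v : V) : pr (fun ω : X.Co => X.cn ω α v) = X.th := by
  have hq : 0 < X.q := X.th_bd.2.2.1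
  have _ : Nonempty (Fin X.q) := ⟨⟨0, hq⟩⟩
  have h1 : pr (fun ω : X.Co => X.cn ω α v) =
      ex (fun ω : X.Co => (fun η : Unit → Fin X.q => if ((η () : Fin X.q) : ℕ) = 0 then (1 : ℝ) else 0)
        (fun i => ω ((fun _ : Unit => (X.rp α v, α)) i))) := by
    rw [ex_ind]
    refine congrArg ex (funext fun ω => ?_)
    exact if_congr (Lrp_cn ω α v) rfl rfl
  have h0 := Pool.Agent.H12.LN.ex_emb (I := Unit) (κ := Fin X.q) (fun _ : Unit => (X.rp α v, α))
    (fun a b _ => Subsingleton.elim a b)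
    (fun η : Unit → Fin X.q => if ((η () : Fin X.q) : ℕ) = 0 then (1 : ℝ) else 0)
  have h2 := Pool.Agent.H12.LN.ex_equiv (Equiv.funUnique Unit (Fin X.q))
    (fun x : Fin X.q => if (x : ℕ) = 0 then (1 : ℝ) else 0)
  refine h1.trans (h0.trans (Eq.trans ?_ (h2.trans ?_)))
  · congr 1
    exact Subsingleton.elim _ _
  unfold ex th
  rw [Fintype.card_fin, Finset.sum_eq_single (⟨0, hq⟩ : Fin X.q)]
  · simp
  · intro b _ hb
    refine if_neg fun h4 => hb (Fin.ext h4)
  · intro h4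
    exact absurd (mem_univ _) h4

/-- the coins which determine `GG` at `a` -/
theorem GG_loc (j : ℕ) (t : X.St) (δ : ZMod 2) (α : Fin X.s) (a : V) :
    Loc (fun ω : X.Co => X.GG (X.dis c Rc) j t ω δ α a)
      (univ.filter (fun i : V × Fin X.s => i.1 ∈ bl X.G a 2)) := by
  intro ω ω' h
  have h1 : ∀ b ∈ X.R α δ j a, ∀ β : Fin X.s, X.cn ω β b ↔ X.cn ω' β b := by
    intro b hb β
    have hb1 : b ∈ bl X.G a 1 := bl_adj X.G (bl_self X.G a 0) (X.R_adj hb)
    have h2 : X.rp β b ∈ bl X.G a 2 := by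
      unfold rp
      split_ifs with h3
      · exact bl_mono X.G a (by norm_num) hb1
      · exact bl_adj X.G hb1 (X.M_adj fun h4 => h3 (Or.inr h4))
    have h5 := h (X.rp β b, β) (mem_filter.2 ⟨mem_univ _, h2⟩)
    rw [Lrp_cn, Lrp_cn, h5]
  show X.GG (X.dis c Rc) j t ω δ α a = X.GG (X.dis c Rc) j t ω' δ α a
  unfold GG
  refine filter_congr fun b hb => ?_
  rw [h1 b hb α]
  refine and_congr_right fun _ => and_congr_right fun _ => forall_congr' fun β => ?_
  rw [h1 b hb β]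

end Cx

end Pool.Agent.H2.LN
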