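/-
ROW Lvy. The expected arrivals of the next step.
PROOF. `Y_le`: `|Y b| ≤ |R b ∩ t.S δ α| B / (th dd) ≤ (1 + pw (-39/200)) B ≤ 2 B` (`TT.t3`; `th dd > 0`). `ev_y`: `g := mv α (Y ...)`, `|g| ≤ 2 B`, `g a ≠ 0` only if `M a ≠ a`. Let `R' = R α δ (j+1) b`. The sum over `nS` is `∑_{a ∈ R', sd α a = δ, a ∉ dis} [cn α a] g a`; the coordinates `(rp α a, α)` are different (all `a ∈ R'` on the same side). If `sd α b + 1 ≠ δ` the sum is empty, and `A g b = 0`: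
`g a = Y (M a)`, `sd (M a) = sd b ≠ δ + 1`.. then `R α δ j (M a)` lies on the side `≠ δ` and contains no sender (`TT.sd`), so `Y (M a) = 0`. Otherwise the mean is `th ∑_{a ∈ R', a ∉ dis} g a`, and `|mean / (th dd) - A g b| = |∑_{R' ∩ dis} g| / dd ≤ kd 2 B / dd ≤ pw (-39/200) B / 2` (`KD` with `j + 1 ≤ n`). Deviation: `bern2` with `X_a = ([cn a] - th) g a`, `|X_a| ≤ 2 B`, variance `≤ 4 B^2 th`, `V = 4 B^2 th dd`,
`t = th dd pw (-39/200) B / 2`: exponent `t^2 / (4 (V + 2 B t)) ≥ th dd pw (-39/100) / 128 ≥ N^6 + 1`.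
-/
import Pool.Agent.H2.LN.LD
import Pool.Agent.H2.LN.L.Lrp
import Pool.Agent.H12.LN.Tools
import Pool.Agent.H12.LN.V0
import Pool.Agent.H65.GI.Lll

set_option autoImplicit false
set_option linter.unusedSectionVars false

namespace Pool.Agent.H2.LN

open Finset Classical
open Pool.Agent.H65.GI

namespace Cx

variable {V : Type} [Fintype V] {X : Cx V} {c : V → ℕ} {Rc : Finset V}

theorem Lvy_pos (X : Cx V) : 0 < X.th ∧ 0 < X.dd ∧ 0 < X.th * X.dd := by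
  have h1 : 0 < X.th := (X.pw_pos _).trans_le X.th_bd.1
  have hN : (0 : ℝ) < X.N := lt_of_lt_of_le (by norm_num) X.N_big
  have h2 : 0 < X.dd := lt_of_lt_of_le (div_pos (X.pw_pos 1) (by positivity)) X.dd_bd.1
  exact ⟨h1, h2, mul_pos h1 h2⟩

theorem Lvy_pw1 (X : Cx V) : X.pw (-(39 : ℝ) / 200) ≤ 1 := by
  have h1 : (1 : ℝ) ≤ X.pw (39 / 200) := by
    have := X.pwN 0 (39 / 200) (by norm_num)
    simpa using this
  have h2 : X.pw (39 / 200) * X.pw (-(39 : ℝ) / 200) = 1 := by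
    rw [X.pw_add]
    have : (39 : ℝ) / 200 + -39 / 200 = 0 := by norm_num
    rw [this]
    unfold pw
    rw [Real.rpow_zero]
  have h3 := X.pw_pos (-(39 : ℝ) / 200)
  nlinarith

/-- the sum of `|m|` over the senders among the neighbours is small -/
theorem Y_le (j : ℕ) (t : X.St) (ht : X.TT j t) (τ : Fin 2) (B : ℝ) (hB : ∀ δ α a, |t.m τ δ α a| ≤ B)
    (δ : ZMod 2) (α : Fin X.s) (b : V) : |X.Y j t τ δ α b| ≤ 2 * B := by
  have hB0 : 0 ≤ B := (abs_nonneg _).trans (hB δ α b)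
  obtain ⟨h1, h2, h3⟩ := Lvy_pos X
  have h4 := Lvy_pw1 X
  unfold Y
  rw [abs_div, abs_of_pos h3, div_le_iff₀ h3]
  calc |∑ a ∈ (X.R α δ j b).filter (fun a => a ∈ t.S δ α), t.m τ δ α a|
      ≤ ∑ a ∈ (X.R α δ j b).filter (fun a => a ∈ t.S δ α), |t.m τ δ α a| := abs_sum_le_sum_abs _ _
    _ ≤ ∑ _a ∈ (X.R α δ j b).filter (fun a => a ∈ t.S δ α), B := sum_le_sum fun a _ => hB δ α a
    _ = (((X.R α δ j b).filter (fun a => a ∈ t.S δ α)).card : ℝ) * B := by rw [sum_const, nsmul_eq_mul]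
    _ ≤ X.th * X.dd * (1 + X.pw (-(39 : ℝ) / 200)) * B :=
        mul_le_mul_of_nonneg_right (ht.t3 δ α b) hB0
    _ ≤ 2 * B * (X.th * X.dd) := by
        have : X.th * X.dd * (1 + X.pw (-(39 : ℝ) / 200)) ≤ X.th * X.dd * 2 :=
          mul_le_mul_of_nonneg_left (by linarith) h3.le
        nlinarith

/-- the function vanishes on the wrong side -/
theorem Lvy_zero (j : ℕ) (t : X.St) (ht : X.TT j t) (τ : Fin 2) (δ : ZMod 2) (α : Fin X.s) (a : V)
    (ha : X.sd α a ≠ δ) : X.mv α (X.Y j t τ δ α) a = 0 := by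
  unfold mv
  split_ifs with hM
  · unfold Y
    have h1 : (X.R α δ j (X.M α a)).filter (fun x => x ∈ t.S δ α) = ∅ := by
      rw [filter_eq_empty_iff]
      intro x hx hxS
      have h2 := X.R_sd hx
      have h3 := X.M_sd hM
      have h4 := ht.sd δ α x hxS
      apply ha
      rw [← h4, h2, h3, add_assoc]
      have : (1 : ZMod 2) + 1 = 0 := by decide
      rw [this, add_zero]
    rw [h1, sum_empty, zero_div]
  · rfl

theorem Lvy_mv_le (j : ℕ) (t : X.St) (ht : X.TT j t) (τ : Fin 2) (B : ℝ) (hB0 : 0 < B)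
    (hB : ∀ δ α a, |t.m τ δ α a| ≤ B)
    (δ : ZMod 2) (α : Fin X.s) (b : V) : |X.mv α (X.Y j t τ δ α) b| ≤ 2 * B := by
  unfold mv
  split_ifs with hM
  · exact Y_le j t ht τ B hB δ α _
  · rw [abs_zero]; positivity

/-- numbers -/
theorem Lvy_num1 (X : Cx V) : (X.kd : ℝ) * 2 / X.dd ≤ X.pw (-(39 : ℝ) / 200) / 2 := by
  obtain ⟨h1, h2, h3⟩ := Lvy_pos X
  have hN : (2 : ℝ) ^ 40 ≤ X.N := X.N_big
  have hN1 : (32 : ℝ) ≤ X.N := le_trans (by norm_num) hN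
  have hN0 : (0 : ℝ) < X.N := by linarith
  have hd := X.dd_bd.1
  rw [div_le_iff₀ h2]
  have h4 : (X.N : ℝ) ^ 107 ≤ X.pw (161 / 200) := X.pwN 107 _ (by norm_num)
  have h5 : X.pw (-(39 : ℝ) / 200) * X.pw 1 = X.pw (161 / 200) := by
    rw [X.pw_add]; congr 1; norm_num
  have h6 : (X.kd : ℝ) = (X.N : ℝ) ^ 52 := by unfold kd; push_cast; rfl
  rw [h6]
  have h7 := X.pw_pos (-(39 : ℝ) / 200)
  calc (X.N : ℝ) ^ 52 * 2 ≤ X.pw (161 / 200) / (2 * (8 * X.N ^ 54)) := by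
        rw [le_div_iff₀ (by positivity)]
        calc (X.N : ℝ) ^ 52 * 2 * (2 * (8 * (X.N : ℝ) ^ 54)) = 32 * (X.N : ℝ) ^ 106 := by ring
          _ ≤ (X.N : ℝ) * (X.N : ℝ) ^ 106 := mul_le_mul_of_nonneg_right hN1 (by positivity)
          _ = (X.N : ℝ) ^ 107 := by ring
          _ ≤ _ := h4
    _ = X.pw (-(39 : ℝ) / 200) / 2 * (X.pw 1 / (8 * X.N ^ 54)) := by
        rw [← h5]; field_simp
    _ ≤ _ := mul_le_mul_of_nonneg_left hd (by positivity)

theorem Lvy_num2 (X : Cx V) : (X.N : ℝ) ^ 6 + 1 ≤ X.th * X.dd * X.pw (-(39 : ℝ) / 200) ^ 2 / 80 := by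
  obtain ⟨h1, h2, h3⟩ := Lvy_pos X
  have hN : (2 : ℝ) ^ 40 ≤ X.N := X.N_big
  have hN1 : (1280 : ℝ) ≤ X.N := le_trans (by norm_num) hN
  have hN0 : (0 : ℝ) < X.N := by linarith
  have hN2 : (1 : ℝ) ≤ X.N := by linarith
  have hd := X.dd_bd.1
  have hth := X.th_bd.1
  have h4 : (X.N : ℝ) ^ 400 ≤ X.pw (1 / 100) := X.pwN 400 _ (by norm_num)
  have h5 : X.pw (-(3 : ℝ) / 5) * X.pw 1 * X.pw (-(39 : ℝ) / 200) ^ 2 = X.pw (1 / 100) := by
    rw [pow_two, X.pw_add, X.pw_add, X.pw_add]; congr 1; norm_num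
  have h7 := X.pw_pos (-(39 : ℝ) / 200)
  rw [le_div_iff₀ (by norm_num)]
  have h8 : X.pw (-(3 : ℝ) / 5) * (X.pw 1 / (8 * X.N ^ 54)) ≤ X.th * X.dd :=
    mul_le_mul hth hd (div_nonneg (X.pw_pos 1).le (by positivity)) h1.le
  have h9 : (X.N : ℝ) ^ 61 ≤ X.N ^ 400 := pow_le_pow_right₀ hN2 (by norm_num)
  calc ((X.N : ℝ) ^ 6 + 1) * 80 ≤ X.pw (1 / 100) / (8 * X.N ^ 54) := by
        rw [le_div_iff₀ (by positivity)]
        have h10 : (1 : ℝ) ≤ (X.N : ℝ) ^ 6 := one_le_pow₀ hN2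
        calc ((X.N : ℝ) ^ 6 + 1) * 80 * (8 * (X.N : ℝ) ^ 54) ≤
              ((X.N : ℝ) ^ 6 + (X.N : ℝ) ^ 6) * 80 * (8 * (X.N : ℝ) ^ 54) := by
              gcongr
          _ = 1280 * (X.N : ℝ) ^ 60 := by ring
          _ ≤ (X.N : ℝ) * (X.N : ℝ) ^ 60 := mul_le_mul_of_nonneg_right hN1 (by positivity)
          _ = (X.N : ℝ) ^ 61 := by ring
          _ ≤ _ := h9.trans h4
    _ = X.pw (-(3 : ℝ) / 5) * (X.pw 1 / (8 * X.N ^ 54)) * X.pw (-(39 : ℝ) / 200) ^ 2 := by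
        rw [← h5]; ring
    _ ≤ _ := mul_le_mul_of_nonneg_right h8 (by positivity)

/-- event `y` -/
theorem ev_y (hk : X.KD c Rc) (j : ℕ) (hj : j < X.n) (t : X.St) (ht : X.TT j t) (τ : Fin 2) (δ : ZMod 2)
    (α : Fin X.s) (b : V) (B : ℝ) (hB0 : 0 < B) (hB : ∀ δ α a, |t.m τ δ α a| ≤ B) :
    pr (fun ω : X.Co => X.pw (-(39 : ℝ) / 200) * B <
      |(∑ a ∈ (X.R α δ (j + 1) b).filter (fun a => a ∈ X.nS (X.dis c Rc) ω δ α),
        X.mv α (X.Y j t τ δ α) a) / (X.th * X.dd) -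
      X.A α δ (j + 1) (X.mv α (X.Y j t τ δ α)) b|) ≤ Real.exp (-(X.N : ℝ) ^ 6) := by
  obtain ⟨h1, h2, h3⟩ := Lvy_pos X
  have h4 := Lvy_pw1 X
  have h5 := X.pw_pos (-(39 : ℝ) / 200)
  have : Nonempty (Fin X.q) := ⟨⟨0, X.th_bd.2.2.1⟩⟩
  obtain ⟨g, hg⟩ : ∃ g, g = X.mv α (X.Y j t τ δ α) := ⟨_, rfl⟩
  have hg0 : ∀ a, X.sd α a ≠ δ → g a = 0 := fun a ha => by
    rw [hg]; exact Lvy_zero j t ht τ δ α a ha
  have hgB : ∀ a, |g a| ≤ 2 * B := fun a => by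
    rw [hg]; exact Lvy_mv_le j t ht τ B hB0 hB δ α a
  rw [← hg]
  obtain ⟨J, hJ⟩ : ∃ J, J = (X.R α δ (j + 1) b).filter (fun a => X.sd α a = δ ∧ a ∉ X.dis c Rc α) :=
    ⟨_, rfl⟩
  have hJs : ∀ a ∈ J, X.sd α a = δ := fun a ha => by
    rw [hJ] at ha; exact (mem_filter.1 ha).2.1
  have hpc : ∀ a, pr (fun ω : X.Co => X.cn ω α a) = X.th := fun a => cn_pr α a
  have hth1 := X.th_bd.2.2.2
  -- Bernstein
  obtain ⟨T, hT⟩ : ∃ T, T = X.th * X.dd * X.pw (-(39 : ℝ) / 200) * B / 2 := ⟨_, rfl⟩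
  have hT0 : 0 ≤ T := by rw [hT]; positivity
  have hb := Pool.Agent.H12.LN.bern2 (I := V × Fin X.s) (κ := Fin X.q) J
    (fun a ω => ((if X.cn ω α a then (1 : ℝ) else 0) - X.th) * g a)
    (fun a => {(X.rp α a, α)})
    (fun a _ ω ω' h => by
      have := cn_loc (X := X) α a ω ω' h
      simp only [this])
    (fun a ha a' ha' hne => by
      rw [disjoint_singleton]
      intro he
      apply hne
      exact rp_inj (Prod.ext_iff.1 he).1 (by rw [hJs a ha, hJs a' ha']))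
    (fun _ => 4 * B ^ 2 * X.th) (2 * B) (4 * B ^ 2 * X.th * X.dd) T
    (fun a _ => by
      have e : (fun ω : X.Co => ((if X.cn ω α a then (1 : ℝ) else 0) - X.th) * g a) =
          fun ω => g a * ((if X.cn ω α a then (1 : ℝ) else 0) + -X.th) := by
        funext ω; ring
      rw [e, ex_smul, ex_add (fun ω : X.Co => if X.cn ω α a then (1 : ℝ) else 0) (fun _ => -X.th),
        ← ex_ind, ex_const, hpc]
      ring)
    (fun a _ ω => by
      rw [abs_mul]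
      have : |(if X.cn ω α a then (1 : ℝ) else 0) - X.th| ≤ 1 := by
        rw [abs_le]
        split_ifs <;> constructor <;> linarith
      calc _ ≤ 1 * (2 * B) := mul_le_mul this (hgB a) (abs_nonneg _) zero_le_one
        _ = 2 * B := one_mul _)
    (fun a _ => by
      have e : (fun ω : X.Co => (((if X.cn ω α a then (1 : ℝ) else 0) - X.th) * g a) ^ 2) =
          fun ω => (g a ^ 2 * (1 - 2 * X.th)) * (if X.cn ω α a then (1 : ℝ) else 0) +
            g a ^ 2 * X.th ^ 2 := by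
        funext ω
        split_ifs <;> ring
      rw [e, ex_add, ex_smul, ← ex_ind, ex_const, hpc]
      have h6 : g a ^ 2 ≤ (2 * B) ^ 2 := by
        rw [← sq_abs]
        exact pow_le_pow_left₀ (abs_nonneg _) (hgB a) 2
      nlinarith [sq_nonneg (g a), mul_nonneg (sq_nonneg (g a)) (mul_nonneg h1.le h1.le)])
    (by
      rw [sum_const, nsmul_eq_mul, mul_comm]
      refine mul_le_mul_of_nonneg_left ?_ (by positivity)
      refine le_trans ?_ (X.R_card_le α δ (j + 1) b)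
      rw [hJ]
      exact_mod_cast card_filter_le _ _)
    (by positivity) (by positivity) hT0
  have hexp : 2 * Real.exp (-(T ^ 2 / (4 * (4 * B ^ 2 * X.th * X.dd + 2 * B * T)))) ≤
      Real.exp (-(X.N : ℝ) ^ 6) := by
    have h6 : (X.N : ℝ) ^ 6 + 1 ≤ T ^ 2 / (4 * (4 * B ^ 2 * X.th * X.dd + 2 * B * T)) := by
      refine (Lvy_num2 X).trans ?_
      rw [div_le_div_iff₀ (by norm_num) (by positivity), hT]
      have h7 : 0 < B ^ 2 * (X.th * X.dd) := by positivity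
      have h8 : 4 * (4 * B ^ 2 * X.th * X.dd + 2 * B * (X.th * X.dd * X.pw (-(39 : ℝ) / 200) * B / 2)) ≤
          20 * (B ^ 2 * (X.th * X.dd)) := by
        nlinarith [mul_le_mul_of_nonneg_left h4 h7.le]
      calc X.th * X.dd * X.pw (-(39 : ℝ) / 200) ^ 2 * (4 * (4 * B ^ 2 * X.th * X.dd + 2 * B *
            (X.th * X.dd * X.pw (-(39 : ℝ) / 200) * B / 2)))
          ≤ X.th * X.dd * X.pw (-(39 : ℝ) / 200) ^ 2 * (20 * (B ^ 2 * (X.th * X.dd))) :=
            mul_le_mul_of_nonneg_left h8 (by positivity)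
        _ = (X.th * X.dd * X.pw (-(39 : ℝ) / 200) * B / 2) ^ 2 * 80 := by ring
    have h9 : (2 : ℝ) ≤ Real.exp 1 := by
      have := Real.add_one_le_exp (1 : ℝ); linarith
    calc 2 * Real.exp (-(T ^ 2 / (4 * (4 * B ^ 2 * X.th * X.dd + 2 * B * T))))
        ≤ Real.exp 1 * Real.exp (-((X.N : ℝ) ^ 6 + 1)) :=
          mul_le_mul h9 (Real.exp_le_exp.2 (by linarith)) (Real.exp_pos _).le (Real.exp_pos _).le
      _ = Real.exp (-(X.N : ℝ) ^ 6) := by
          rw [← Real.exp_add]; congr 1; ring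
  refine (pr_mono fun ω hω => ?_).trans (hb.trans hexp)
  -- the deterministic comparison
  have hs1 : ∑ a ∈ (X.R α δ (j + 1) b).filter (fun a => a ∈ X.nS (X.dis c Rc) ω δ α), g a =
      ∑ a ∈ J, if X.cn ω α a then g a else 0 := by
    rw [← sum_filter, hJ, filter_filter]
    refine sum_congr ?_ fun _ _ => rfl
    ext a
    simp only [mem_filter, nS, mem_univ, true_and]
    tauto
  have hs2 : ∑ a ∈ X.R α δ (j + 1) b, g a = ∑ a ∈ J, g a +
      ∑ a ∈ (X.R α δ (j + 1) b).filter (fun a => ¬(X.sd α a = δ ∧ a ∉ X.dis c Rc α)), g a := by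
    rw [hJ]
    exact (sum_filter_add_sum_filter_not _ _ _).symm
  have hs3 : |∑ a ∈ (X.R α δ (j + 1) b).filter (fun a => ¬(X.sd α a = δ ∧ a ∉ X.dis c Rc α)), g a| ≤
      X.kd * (2 * B) := by
    have e : ∑ a ∈ (X.R α δ (j + 1) b).filter (fun a => ¬(X.sd α a = δ ∧ a ∉ X.dis c Rc α)), g a =
        ∑ a ∈ ((X.R α δ (j + 1) b).filter (fun a => ¬(X.sd α a = δ ∧ a ∉ X.dis c Rc α))).filter
          (fun a => X.sd α a = δ), g a := by
      refine (sum_filter_of_ne fun a _ hne => ?_).symm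
      by_contra h
      exact hne (hg0 a h)
    rw [e]
    refine (abs_sum_le_sum_abs _ _).trans ((sum_le_sum fun a _ => hgB a).trans ?_)
    rw [sum_const, nsmul_eq_mul]
    refine mul_le_mul_of_nonneg_right ?_ (by positivity)
    refine le_trans ?_ (Nat.cast_le.2 (hk α δ (j + 1) b hj))
    exact_mod_cast card_le_card fun a ha => by
      rw [mem_filter, mem_filter] at ha
      rw [mem_filter]
      refine ⟨ha.1.1, ?_⟩
      by_contra h
      exact ha.1.2 ⟨ha.2, h⟩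
  have hs4 : ∑ a ∈ J, ((if X.cn ω α a then (1 : ℝ) else 0) - X.th) * g a =
      (∑ a ∈ J, if X.cn ω α a then g a else 0) - X.th * ∑ a ∈ J, g a := by
    rw [mul_sum, ← sum_sub_distrib]
    refine sum_congr rfl fun a _ => ?_
    split_ifs <;> ring
  rw [hs1] at hω
  unfold A at hω
  rw [hs2] at hω
  have hs5 : (∑ a ∈ J, if X.cn ω α a then g a else 0) / (X.th * X.dd) - (∑ a ∈ J, g a +
      ∑ a ∈ (X.R α δ (j + 1) b).filter (fun a => ¬(X.sd α a = δ ∧ a ∉ X.dis c Rc α)), g a) / X.dd =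
      (∑ a ∈ J, ((if X.cn ω α a then (1 : ℝ) else 0) - X.th) * g a) / (X.th * X.dd) -
      (∑ a ∈ (X.R α δ (j + 1) b).filter (fun a => ¬(X.sd α a = δ ∧ a ∉ X.dis c Rc α)), g a) / X.dd := by
    rw [hs4]
    field_simp
    ring
  rw [hs5] at hω
  have hs6 := abs_sub ((∑ a ∈ J, ((if X.cn ω α a then (1 : ℝ) else 0) - X.th) * g a) / (X.th * X.dd))
    ((∑ a ∈ (X.R α δ (j + 1) b).filter (fun a => ¬(X.sd α a = δ ∧ a ∉ X.dis c Rc α)), g a) / X.dd)
  rw [abs_div, abs_div _ X.dd, abs_of_pos h3, abs_of_pos h2] at hs6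
  have hs7 : |∑ a ∈ (X.R α δ (j + 1) b).filter (fun a => ¬(X.sd α a = δ ∧ a ∉ X.dis c Rc α)), g a| /
      X.dd ≤ X.pw (-(39 : ℝ) / 200) / 2 * B := by
    calc _ ≤ X.kd * (2 * B) / X.dd := div_le_div_of_nonneg_right hs3 h2.le
      _ = X.kd * 2 / X.dd * B := by ring
      _ ≤ _ := mul_le_mul_of_nonneg_right (Lvy_num1 X) hB0.le
  have hs8 : X.pw (-(39 : ℝ) / 200) / 2 * B ≤
      |∑ a ∈ J, ((if X.cn ω α a then (1 : ℝ) else 0) - X.th) * g a| / (X.th * X.dd) := by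
    linarith
  rw [le_div_iff₀ h3] at hs8
  rw [hT]
  linarith

end Cx

end Pool.Agent.H2.LN
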