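/-
ROW As0. The main field in block 0.
PROOF. Induction on `j`: `j = 0`: values `0, 1, u α ∈ [0,1]`. `j + 1 ≤ N ^ 3` (not a Z-layer: `isZ_no0`): `m (j+1) v` is `0`, `ij (j+1) = u / th ≤ 2.1 N^15 pw (-2/5)` (`ij_0`, `th ≥ pw (-3/5)`) or `ar j (M v)`. Nonnegativity: `ar` is a sum of nonnegative terms (IH). `j = 0`: `ar_0`. `j ≥ 1`: strengthen the induction: also `|y i b| ≤ 2 N^80 pw (-2/5) + i pw (-1/2)` for `1 ≤ i ≤ j`, all `b` (`y 1 b ≤ 2 sup m 1` by `Y_le` (file Lvy) and then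
`y_nx`: `A` of a function `≤ c` is `≤ c` (`R_card_le`); error `pw (-19/100) N^90 pw (-2/5) + (2.1 N^15 pw (-2/5)) 8 N^54 pw (-2/5)·(th ≥ pw (-3/5)) ≤ pw (-1/2)`), `ar j ≤ y j + pw (-97/500) N^90 pw (-2/5) ≤ N^90 pw (-2/5)` (`ar_y`; if not `ac` then `ar = 0` by `ar_ne`). All numbers with `pwN`. `N^90 pw (-2/5) ≤ 1`.
-/
import Pool.Agent.H2.LN.LD
import Pool.Agent.H2.LN.L.Aa0
import Pool.Agent.H2.LN.L.Ayn
import Pool.Agent.H2.LN.L.Abk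
import Pool.Agent.H2.LN.L.Aid
import Pool.Agent.H2.LN.L.Lvy

set_option autoImplicit false
set_option linter.unusedSectionVars false

namespace Pool.Agent.H2.LN

open Finset Classical
open Pool.Agent.H65.GI

namespace An

variable {V : Type} [Fintype V] {X : Cx V} (Y : An X)

private theorem As0_pw0 (X : Cx V) : X.pw 0 = 1 := by
  unfold Cx.pw
  exact Real.rpow_zero _

private theorem As0_N1 (X : Cx V) : (1 : ℝ) ≤ X.N :=
  le_trans (by norm_num) X.N_big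

private theorem As0_N16 (X : Cx V) : (16 : ℝ) ≤ X.N :=
  le_trans (by norm_num) X.N_big

private theorem As0_pwm (X : Cx V) (x y z : ℝ) (k : ℕ) (h : (k : ℝ) ≤ 40000 * y) (hz : y + x = z) :
    (X.N : ℝ) ^ k * X.pw x ≤ X.pw z := by
  rw [← hz, ← X.pw_add]
  exact mul_le_mul_of_nonneg_right (X.pwN k y h) (X.pw_pos x).le

private theorem As0_u (α : Fin X.s) : 0 ≤ Y.u α / X.th ∧
    Y.u α / X.th ≤ 2 * X.N ^ 15 * X.pw (-(2 : ℝ) / 5) := by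
  obtain ⟨h0, h1⟩ := Y.u_bd α
  obtain ⟨h2, h3, h4, h5⟩ := X.th_bd
  have hp := X.pw_pos (-(3 : ℝ) / 5)
  have hth : 0 < X.th := lt_of_lt_of_le hp h2
  refine ⟨div_nonneg h0 hth.le, ?_⟩
  rw [div_le_iff₀ hth]
  refine h1.trans ?_
  have e : X.pw (-1) = X.pw (-(2 : ℝ) / 5) * X.pw (-(3 : ℝ) / 5) := by
    rw [X.pw_add]
    norm_num
  rw [e, ← mul_assoc]
  refine mul_le_mul_of_nonneg_left h2 ?_
  have := (X.pw_pos (-(2 : ℝ) / 5)).le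
  positivity

private theorem As0_u80 (α : Fin X.s) : 2 * (X.N : ℝ) ^ 15 * X.pw (-(2 : ℝ) / 5) ≤
    X.N ^ 80 * X.pw (-(2 : ℝ) / 5) := by
  refine mul_le_mul_of_nonneg_right ?_ (X.pw_pos _).le
  have h16 := As0_N16 X
  calc 2 * (X.N : ℝ) ^ 15 ≤ (X.N : ℝ) * (X.N : ℝ) ^ 15 := by
        refine mul_le_mul_of_nonneg_right (by linarith) (by positivity)
    _ = (X.N : ℝ) ^ 16 := by ring
    _ ≤ (X.N : ℝ) ^ 80 := pow_le_pow_right₀ (As0_N1 X) (by norm_num)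

private theorem As0_8090 (X : Cx V) : (X.N : ℝ) ^ 80 * X.pw (-(2 : ℝ) / 5) ≤
    X.N ^ 90 * X.pw (-(2 : ℝ) / 5) :=
  mul_le_mul_of_nonneg_right (pow_le_pow_right₀ (As0_N1 X) (by norm_num)) (X.pw_pos _).le

private theorem As0_90 (X : Cx V) : (X.N : ℝ) ^ 90 * X.pw (-(2 : ℝ) / 5) ≤ 1 := by
  have := As0_pwm X (-(2 : ℝ) / 5) (2 / 5) 0 90 (by norm_num) (by norm_num)
  rwa [As0_pw0] at this

private theorem As0_u1 (α : Fin X.s) : Y.u α ≤ 1 := by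
  refine (Y.u_bd α).2.trans ?_
  have h16 := As0_N16 X
  have h1 : 2 * (X.N : ℝ) ^ 15 ≤ X.N ^ 16 := by
    calc 2 * (X.N : ℝ) ^ 15 ≤ (X.N : ℝ) * (X.N : ℝ) ^ 15 := by
          refine mul_le_mul_of_nonneg_right (by linarith) (by positivity)
      _ = (X.N : ℝ) ^ 16 := by ring
  calc 2 * (X.N : ℝ) ^ 15 * X.pw (-1) ≤ (X.N : ℝ) ^ 16 * X.pw (-1) :=
        mul_le_mul_of_nonneg_right h1 (X.pw_pos _).le
    _ ≤ X.pw 0 := As0_pwm X (-1) 1 0 16 (by norm_num) (by norm_num)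
    _ = 1 := As0_pw0 X

/-- the error of one step -/
private theorem As0_err (X : Cx V) : X.pw (-(19 : ℝ) / 100) * (X.N ^ 90 * X.pw (-(2 : ℝ) / 5)) +
    2 * X.N ^ 15 * X.pw (-(2 : ℝ) / 5) / (X.th * X.dd) ≤ X.pw (-(1 : ℝ) / 2) := by
  have hN := As0_N16 X
  have hN0 : (0 : ℝ) < X.N := by linarith
  obtain ⟨h2, -, -, -⟩ := X.th_bd
  obtain ⟨h3, -⟩ := X.dd_bd
  have hp := X.pw_pos (-(3 : ℝ) / 5)
  have hp1 := X.pw_pos 1
  have hD : 0 < X.pw 1 / (8 * (X.N : ℝ) ^ 54) := by positivity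
  have htd : X.pw ((2 : ℝ) / 5) / (8 * (X.N : ℝ) ^ 54) ≤ X.th * X.dd := by
    have e : X.pw ((2 : ℝ) / 5) = X.pw (-(3 : ℝ) / 5) * X.pw 1 := by
      rw [X.pw_add]
      norm_num
    rw [e, mul_div_assoc]
    exact mul_le_mul h2 h3 hD.le (hp.le.trans h2)
  have hpos : 0 < X.pw ((2 : ℝ) / 5) / (8 * (X.N : ℝ) ^ 54) := by
    have := X.pw_pos ((2 : ℝ) / 5)
    positivity
  have h4 : 2 * X.N ^ 15 * X.pw (-(2 : ℝ) / 5) / (X.th * X.dd) ≤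
      16 * X.N ^ 69 * X.pw (-(4 : ℝ) / 5) := by
    have hn : 0 ≤ 2 * (X.N : ℝ) ^ 15 * X.pw (-(2 : ℝ) / 5) := by
      have := (X.pw_pos (-(2 : ℝ) / 5)).le
      positivity
    refine (div_le_div_of_nonneg_left hn hpos htd).trans ?_
    rw [div_le_iff₀ hpos]
    have e : X.pw (-(4 : ℝ) / 5) * X.pw ((2 : ℝ) / 5) = X.pw (-(2 : ℝ) / 5) := by
      rw [X.pw_add]
      norm_num
    have e2 : 16 * (X.N : ℝ) ^ 69 * X.pw (-(4 : ℝ) / 5) * (X.pw ((2 : ℝ) / 5) / (8 * X.N ^ 54)) =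
        2 * X.N ^ 15 * (X.pw (-(4 : ℝ) / 5) * X.pw ((2 : ℝ) / 5)) := by
      field_simp
      ring
    rw [e2, e]
  have h5 : 2 * (16 * (X.N : ℝ) ^ 69 * X.pw (-(4 : ℝ) / 5)) ≤ X.pw (-(1 : ℝ) / 2) := by
    refine le_trans ?_ (As0_pwm X (-(4 : ℝ) / 5) (3 / 10) (-(1 : ℝ) / 2) 71 (by norm_num) (by norm_num))
    have h6 : 32 * (X.N : ℝ) ^ 69 ≤ X.N ^ 71 := by
      have : (X.N : ℝ) ^ 71 = X.N * X.N * X.N ^ 69 := by ring
      rw [this]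
      refine mul_le_mul_of_nonneg_right ?_ (by positivity)
      nlinarith
    calc 2 * (16 * (X.N : ℝ) ^ 69 * X.pw (-(4 : ℝ) / 5)) = 32 * X.N ^ 69 * X.pw (-(4 : ℝ) / 5) := by
          ring
      _ ≤ _ := mul_le_mul_of_nonneg_right h6 (X.pw_pos _).le
  have h7 : 2 * (X.pw (-(19 : ℝ) / 100) * (X.N ^ 90 * X.pw (-(2 : ℝ) / 5))) ≤
      X.pw (-(1 : ℝ) / 2) := by
    refine le_trans ?_ (As0_pwm X (-(59 : ℝ) / 100) (9 / 100) (-(1 : ℝ) / 2) 91 (by norm_num)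
      (by norm_num))
    have e : X.pw (-(59 : ℝ) / 100) = X.pw (-(19 : ℝ) / 100) * X.pw (-(2 : ℝ) / 5) := by
      rw [X.pw_add]
      norm_num
    rw [e]
    have h8 : 2 * (X.N : ℝ) ^ 90 ≤ X.N ^ 91 := by
      have : (X.N : ℝ) ^ 91 = X.N * X.N ^ 90 := by ring
      rw [this]
      exact mul_le_mul_of_nonneg_right (by linarith) (by positivity)
    have h9 : 0 ≤ X.pw (-(19 : ℝ) / 100) * X.pw (-(2 : ℝ) / 5) :=
      (mul_pos (X.pw_pos _) (X.pw_pos _)).le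
    calc 2 * (X.pw (-(19 : ℝ) / 100) * (X.N ^ 90 * X.pw (-(2 : ℝ) / 5))) =
          2 * (X.N : ℝ) ^ 90 * (X.pw (-(19 : ℝ) / 100) * X.pw (-(2 : ℝ) / 5)) := by ring
      _ ≤ _ := mul_le_mul_of_nonneg_right h8 h9
  linarith

private theorem As0_tot (X : Cx V) : 2 * (X.N ^ 80 * X.pw (-(2 : ℝ) / 5)) +
    X.N ^ 3 * X.pw (-(1 : ℝ) / 2) +
    X.pw (-(97 : ℝ) / 500) * (X.N ^ 90 * X.pw (-(2 : ℝ) / 5)) ≤ X.N ^ 90 * X.pw (-(2 : ℝ) / 5) := by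
  have hN := As0_N16 X
  have h1 : (X.N : ℝ) ^ 3 * X.pw (-(1 : ℝ) / 2) ≤ X.pw (-(2 : ℝ) / 5) :=
    As0_pwm X (-(1 : ℝ) / 2) (1 / 10) _ 3 (by norm_num) (by norm_num)
  have h2 : X.pw (-(97 : ℝ) / 500) * (X.N ^ 90 * X.pw (-(2 : ℝ) / 5)) ≤ X.pw (-(2 : ℝ) / 5) := by
    have h3 : (X.N : ℝ) ^ 90 * X.pw (-(97 : ℝ) / 500) ≤ 1 := by
      have := As0_pwm X (-(97 : ℝ) / 500) (97 / 500) 0 90 (by norm_num) (by norm_num)
      rwa [As0_pw0] at this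
    calc X.pw (-(97 : ℝ) / 500) * (X.N ^ 90 * X.pw (-(2 : ℝ) / 5)) =
          (X.N ^ 90 * X.pw (-(97 : ℝ) / 500)) * X.pw (-(2 : ℝ) / 5) := by ring
      _ ≤ 1 * X.pw (-(2 : ℝ) / 5) := mul_le_mul_of_nonneg_right h3 (X.pw_pos _).le
      _ = _ := one_mul _
  have h4 : (2 * (X.N : ℝ) ^ 80 + 2) * X.pw (-(2 : ℝ) / 5) ≤ X.N ^ 90 * X.pw (-(2 : ℝ) / 5) := by
    refine mul_le_mul_of_nonneg_right ?_ (X.pw_pos _).le
    have h5 : (1 : ℝ) ≤ X.N ^ 80 := one_le_pow₀ (by linarith)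
    have h6 : (X.N : ℝ) ^ 81 ≤ X.N ^ 90 := pow_le_pow_right₀ (by linarith) (by norm_num)
    have h7 : (X.N : ℝ) ^ 81 = X.N * X.N ^ 80 := by ring
    nlinarith
  linarith

/-- the masses of the next layer -/
private theorem As0_m_succ {j : ℕ} (hj : j + 1 ≤ X.n3) (δ : ZMod 2) (α : Fin X.s) (v : V) :
    Y.m (j + 1) 0 δ α v = if v ∈ Y.S (j + 1) δ α then
      (if X.M α v = v then Y.u α / X.th else Y.ar j 0 δ α (X.M α v)) else 0 := by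
  have h1 : Y.m (j + 1) 0 δ α v = if v ∈ Y.S (j + 1) δ α then
    (if X.M α v = v then (if (0 : Fin 2) = 0 then X.inj (Y.u α) (j + 1) else 0)
      else if (0 : Fin 2) = 0 ∧ X.isZ (j + 1) then
        (if δ = 0 then X.be (X.bk (j + 1) - 1) + Y.ar j 0 0 α (X.M α v) -
          Y.ar j 0 1 α v else X.be (X.bk (j + 1) - 1))
      else Y.ar j 0 δ α (X.M α v)) else 0 := rfl
  rw [h1]
  have hz : ¬ ((0 : Fin 2) = 0 ∧ X.isZ (j + 1)) := fun h => isZ_no0 hj h.2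
  rw [if_neg hz]
  have h2 : (if (0 : Fin 2) = 0 then X.inj (Y.u α) (j + 1) else 0) = Y.u α / X.th :=
    Y.ij_0 (Nat.le_add_left 1 j) hj α
  rw [h2]

private theorem As0_ar_nn {j : ℕ} (h : ∀ δ α v, 0 ≤ Y.m j 0 δ α v) (δ : ZMod 2) (α : Fin X.s)
    (b : V) : 0 ≤ Y.ar j 0 δ α b := by
  refine Finset.sum_nonneg (fun a _ => ?_)
  exact div_nonneg (h δ α a) (Nat.cast_nonneg _)

private theorem As0_mv {α : Fin X.s} {F : V → ℝ} {c : ℝ} (hc : 0 ≤ c) (h : ∀ x, |F x| ≤ c) (x : V) :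
    |X.mv α F x| ≤ c := by
  unfold Cx.mv
  split_ifs
  · exact h _
  · rw [abs_zero]
    exact hc

private theorem As0_A {α : Fin X.s} {δ : ZMod 2} {j : ℕ} {F : V → ℝ} {c : ℝ} (hc : 0 ≤ c)
    (h : ∀ x, |F x| ≤ c) (x : V) : |X.A α δ j F x| ≤ c := by
  have hd : 0 < X.dd := by
    refine lt_of_lt_of_le ?_ X.dd_bd.1
    have := X.pw_pos 1
    have := As0_N16 X
    have : (0 : ℝ) < X.N := by linarith
    positivity
  unfold Cx.A
  rw [abs_div, abs_of_pos hd, div_le_iff₀ hd]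
  calc |∑ b ∈ X.R α δ j x, F b| ≤ ∑ b ∈ X.R α δ j x, |F b| := Finset.abs_sum_le_sum_abs _ _
    _ ≤ ∑ b ∈ X.R α δ j x, c := Finset.sum_le_sum (fun b _ => h b)
    _ = (X.R α δ j x).card * c := by rw [Finset.sum_const, nsmul_eq_mul]
    _ ≤ X.dd * c := mul_le_mul_of_nonneg_right (X.R_card_le α δ j x) hc
    _ = c * X.dd := mul_comm _ _

private theorem As0_n (X : Cx V) {j : ℕ} (hj : j ≤ X.n3) : j < X.n := by
  unfold Cx.n
  unfold Cx.n3 at hj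
  omega

private theorem As0_m0 (δ : ZMod 2) (α : Fin X.s) (v : V) :
    0 ≤ Y.m 0 0 δ α v ∧ Y.m 0 0 δ α v ≤ 1 := by
  have h1 : Y.m 0 0 δ α v = if X.sd α v = δ ∧ ¬ Wc X.p Y.c α v then
      (if (0 : Fin 2) = 0 then (if X.M α v = v then Y.u α else if Wc X.p Y.c α (X.M α v) then 1 else 0)
        else if Rs X.G X.p Y.c X.D X.M Y.Rc Y.al α (X.M α v) then 1 / 16 else 0)
    else 0 := rfl
  rw [h1, if_pos (rfl : (0 : Fin 2) = 0)]
  have h2 := (Y.u_bd α).1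
  have h3 := As0_u1 Y α
  split_ifs <;> constructor <;> first | exact h2 | exact h3 | norm_num

private theorem As0_key (j : ℕ) : j ≤ X.n3 → (∀ δ α v, 0 ≤ Y.m j 0 δ α v ∧ Y.m j 0 δ α v ≤ 1 ∧
    (1 ≤ j → Y.m j 0 δ α v ≤ X.N ^ 90 * X.pw (-(2 : ℝ) / 5))) ∧
    (1 ≤ j → ∀ δ α b, |Y.y j 0 δ α b| ≤
      2 * (X.N ^ 80 * X.pw (-(2 : ℝ) / 5)) + j * X.pw (-(1 : ℝ) / 2)) := by
  have hq80 : 0 ≤ (X.N : ℝ) ^ 80 * X.pw (-(2 : ℝ) / 5) :=
    mul_nonneg (pow_nonneg (Nat.cast_nonneg _) _) (X.pw_pos _).le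
  have hq90 : 0 ≤ (X.N : ℝ) ^ 90 * X.pw (-(2 : ℝ) / 5) :=
    mul_nonneg (pow_nonneg (Nat.cast_nonneg _) _) (X.pw_pos _).le
  have hp2 := X.pw_pos (-(1 : ℝ) / 2)
  induction j with
  | zero =>
    intro _
    refine ⟨fun δ α v => ⟨(As0_m0 Y δ α v).1, (As0_m0 Y δ α v).2, fun h => ?_⟩, fun h => ?_⟩
    · exact absurd h (by norm_num)
    · exact absurd h (by norm_num)
  | succ j ih =>
    intro hj1
    have hj : j ≤ X.n3 := by omega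
    obtain ⟨ih1, ih2⟩ := ih hj
    have hjn : j < X.n := As0_n X hj
    have hj1n : j + 1 < X.n := As0_n X hj1
    have hnn : ∀ δ α v, 0 ≤ Y.m j 0 δ α v := fun δ α v => (ih1 δ α v).1
    have ham : ∀ {B : ℝ}, (∀ δ α v, Y.m j 0 δ α v ≤ B) → ∀ δ α v, |Y.m j 0 δ α v| ≤ B := by
      intro B hB δ α v
      rw [abs_of_nonneg (hnn δ α v)]
      exact hB δ α v
    -- arrivals
    have har : ∀ δ α b, 0 ≤ Y.ar j 0 δ α b ∧ Y.ar j 0 δ α b ≤ X.N ^ 90 * X.pw (-(2 : ℝ) / 5) ∧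
        (j = 0 → Y.ar j 0 δ α b ≤ X.N ^ 80 * X.pw (-(2 : ℝ) / 5)) := by
      intro δ α b
      refine ⟨As0_ar_nn Y hnn δ α b, ?_, ?_⟩
      · rcases Nat.eq_zero_or_pos j with h0 | h0
        · subst h0
          exact (Y.ar_0 0 δ α b).2.trans (As0_8090 X)
        · by_cases hz : Y.ar j 0 δ α b = 0
          · rw [hz]
            exact hq90
          · obtain ⟨hac, hsd⟩ := Y.ar_ne hjn hz
            have h3 := Y.ar_y hjn 0 (ham (fun δ α v => (ih1 δ α v).2.2 h0)) δ α b hac hsd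
            have h4 := ih2 h0 δ α b
            have h5 := (abs_le.1 h3).2
            have h6 := (abs_le.1 h4).2
            have h7 : (j : ℝ) * X.pw (-(1 : ℝ) / 2) ≤ X.N ^ 3 * X.pw (-(1 : ℝ) / 2) := by
              refine mul_le_mul_of_nonneg_right ?_ hp2.le
              have : (j : ℝ) ≤ ((X.N ^ 3 : ℕ) : ℝ) := by
                exact_mod_cast hj
              push_cast at this
              exact this
            have h8 := As0_tot X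
            linarith
      · intro h0
        subst h0
        exact (Y.ar_0 0 δ α b).2
    -- masses
    have hm : ∀ δ α v, 0 ≤ Y.m (j + 1) 0 δ α v ∧
        Y.m (j + 1) 0 δ α v ≤ X.N ^ 90 * X.pw (-(2 : ℝ) / 5) ∧
        (j = 0 → Y.m (j + 1) 0 δ α v ≤ X.N ^ 80 * X.pw (-(2 : ℝ) / 5)) := by
      intro δ α v
      rw [As0_m_succ Y hj1]
      obtain ⟨hu0, hu1⟩ := As0_u Y α
      have hu2 := hu1.trans (As0_u80 α)
      split_ifs
      · exact ⟨hu0, hu2.trans (As0_8090 X), fun _ => hu2⟩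
      · exact har δ α (X.M α v)
      · exact ⟨le_rfl, hq90, fun _ => hq80⟩
    refine ⟨fun δ α v => ⟨(hm δ α v).1, (hm δ α v).2.1.trans (As0_90 X), fun _ => (hm δ α v).2.1⟩, ?_⟩
    intro _ δ α b
    rcases Nat.eq_zero_or_pos j with h0 | h0
    · have h1 : |Y.y (j + 1) 0 δ α b| ≤ 2 * (X.N ^ 80 * X.pw (-(2 : ℝ) / 5)) := by
        refine Cx.Y_le (X := X) (j + 1) (Y.t (j + 1)) (Y.tt (j + 1) hj1n) 0 _ ?_ δ α b
        intro δ' α' a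
        have h2 := hm δ' α' a
        have h3 : |Y.m (j + 1) 0 δ' α' a| ≤ X.N ^ 80 * X.pw (-(2 : ℝ) / 5) := by
          rw [abs_of_nonneg h2.1]
          exact h2.2.2 h0
        exact h3
      have h2 : 0 ≤ ((j + 1 : ℕ) : ℝ) * X.pw (-(1 : ℝ) / 2) :=
        mul_nonneg (Nat.cast_nonneg _) hp2.le
      linarith
    · have hz : ¬ ((0 : Fin 2) = 0 ∧ X.isZ (j + 1)) := fun h => isZ_no0 hj1 h.2
      have h3 := Y.y_nx hj1n 0 hz (ham (fun δ α v => (ih1 δ α v).2.2 h0)) δ α b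
      set cc : ℝ := 2 * (X.N ^ 80 * X.pw (-(2 : ℝ) / 5)) + j * X.pw (-(1 : ℝ) / 2) with hcc
      have hcc0 : 0 ≤ cc := by
        have : 0 ≤ (j : ℝ) * X.pw (-(1 : ℝ) / 2) := mul_nonneg (Nat.cast_nonneg _) hp2.le
        rw [hcc]
        linarith
      have h4 : |X.A α δ (j + 1) (X.mv α (Y.y j 0 δ α)) b| ≤ cc :=
        As0_A hcc0 (As0_mv hcc0 (fun x => ih2 h0 δ α x)) b
      have h5 : Y.ij (j + 1) 0 α = Y.u α / X.th := Y.ij_0 (Nat.le_add_left 1 j) hj1 α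
      obtain ⟨hu0, hu1⟩ := As0_u Y α
      have htd : 0 ≤ X.th * X.dd := by
        obtain ⟨h2, -, -, -⟩ := X.th_bd
        have hp := X.pw_pos (-(3 : ℝ) / 5)
        exact mul_nonneg (hp.le.trans h2) (Nat.cast_nonneg _)
      have h6 : |Y.ij (j + 1) 0 α| / (X.th * X.dd) ≤
          2 * X.N ^ 15 * X.pw (-(2 : ℝ) / 5) / (X.th * X.dd) := by
        rw [h5, abs_of_nonneg hu0]
        exact div_le_div_of_nonneg_right hu1 htd
      have h7 := As0_err X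
      have h8 : |Y.y (j + 1) 0 δ α b| ≤ cc + X.pw (-(1 : ℝ) / 2) := by
        have h9 : |Y.y (j + 1) 0 δ α b| ≤
            |Y.y (j + 1) 0 δ α b - X.A α δ (j + 1) (X.mv α (Y.y j 0 δ α)) b| +
            |X.A α δ (j + 1) (X.mv α (Y.y j 0 δ α)) b| := by
          have := abs_add_le (Y.y (j + 1) 0 δ α b - X.A α δ (j + 1) (X.mv α (Y.y j 0 δ α)) b)
            (X.A α δ (j + 1) (X.mv α (Y.y j 0 δ α)) b)
          rwa [sub_add_cancel] at this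
        linarith
      refine h8.trans (le_of_eq ?_)
      rw [hcc]
      push_cast
      ring

/-- bounds for the main field in block 0 -/
theorem s0 {j : ℕ} (hj : j ≤ X.n3) (δ : ZMod 2) (α : Fin X.s) (v : V) :
    0 ≤ Y.m j 0 δ α v ∧ Y.m j 0 δ α v ≤ 1 ∧ (1 ≤ j → Y.m j 0 δ α v ≤ X.N ^ 90 * X.pw (-(2 : ℝ) / 5)) :=
  (As0_key Y j hj).1 δ α v

end An

end Pool.Agent.H2.LN
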