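/-
ROW Lre. Enumeration of the receiver functions.
PROOF. For given `b, α` a receiver function is determined by: the direction `δ0` and the step `J < n` of its point `b`, an optional turn `k < 8` and the current step `j`. Let `w α δ J m b` (`m : ℕ`) be the `m`-fold `st` applied to the point at step `J`: `w 0 = (fun x => if x = b then 1 else 0)`, `w (m+1) = mv α (A δ (J - m) (w m))` (function at step `J - m - 1`),
and for a start function `P0` at step `J'` in direction 1 the same recursion `w' α J' m P0`. `κ := ZMod 2 × Fin n × Option (Fin 8)`, `e b (δ0, J, none) α δ j := w α δ0 J (J - j) b`, `e b (δ0, J, some k) α δ j := w' α (zl k - 1) (zl k - 1 - j) (nd α (A 0 (zl k) (w α 0 J (J - zl k) b)))` (the direction `δ` is not used).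
Claim by induction on `RF`: `RF α δ j r P` implies: there is `b` with `P` supported in `bl b (2 r)` and either `P = w α δ J (J - j) b`, `j ≤ J < n`, or `δ = 1`, `P = w' ...` with some `k < 8`, `zl k ≤ J < n`, `j ≤ zl k - 1` (a turn can only be applied to functions of direction 0, which are of the first kind; `0 ≠ 1` in `ZMod 2`).
Support: `mv α (A P) x ≠ 0`: `M α x` adjacent to `x`, some `y ∈ R (M α x)` with `P y ≠ 0`: `bl_adj` twice (`R_adj`, `M_adj`). `|κ| = 2 n 9 ≤ N ^ 10`.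
-/
import Pool.Agent.H2.LN.LD
import Pool.Agent.H2.LN.L.Lrf
import Pool.Agent.H65.GI.Lll

set_option autoImplicit false
set_option linter.unusedSectionVars false

namespace Pool.Agent.H2.LN

open Finset Classical
open Pool.Agent.H65.GI

namespace Cx

variable {V : Type} [Fintype V] {X : Cx V}

/-- iterated pull-back, starting with `P0` at the step `J` -/
noncomputable def Lre_gw (X : Cx V) (α : Fin X.s) (δ : ZMod 2) (J : ℕ) (P0 : V → ℝ) : ℕ → V → ℝ
  | 0 => P0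
  | m + 1 => X.mv α (X.A α δ (J - m) (Lre_gw X α δ J P0 m))

theorem Lre_gw_succ (X : Cx V) (α : Fin X.s) (δ : ZMod 2) (J : ℕ) (P0 : V → ℝ) {j : ℕ} (h : j + 1 ≤ J) :
    Lre_gw X α δ J P0 (J - j) = X.mv α (X.A α δ (j + 1) (Lre_gw X α δ J P0 (J - (j + 1)))) := by
  have h1 : J - j = (J - (j + 1)) + 1 := by omega
  rw [h1]
  show X.mv α (X.A α δ (J - (J - (j + 1))) (Lre_gw X α δ J P0 (J - (j + 1)))) = _
  have h2 : J - (J - (j + 1)) = j + 1 := by omega
  rw [h2]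

theorem Lre_A_supp (X : Cx V) {α : Fin X.s} {δ : ZMod 2} {j : ℕ} {P : V → ℝ} {x : V}
    (h : X.A α δ j P x ≠ 0) : ∃ y, P y ≠ 0 ∧ X.G.Adj x y := by
  unfold A at h
  have h1 : (∑ b ∈ X.R α δ j x, P b) ≠ 0 := by
    intro h2
    rw [h2, zero_div] at h
    exact h rfl
  obtain ⟨y, hy, hP⟩ := Finset.exists_ne_zero_of_sum_ne_zero h1
  exact ⟨y, hP, (X.base.Hadj _ _ _ hy).1⟩

theorem Lre_mv_supp (X : Cx V) {α : Fin X.s} {δ : ZMod 2} {j : ℕ} {P : V → ℝ} {b x : V} {k : ℕ}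
    (hP : ∀ x, P x ≠ 0 → x ∈ bl X.G b k) (h : X.mv α (X.A α δ j P) x ≠ 0) : x ∈ bl X.G b (k + 2) := by
  unfold mv at h
  split_ifs at h with hM
  · obtain ⟨y, hy, hxy⟩ := Lre_A_supp X h
    have h1 := bl_adj X.G (hP y hy) hxy.symm
    have h2 := bl_adj X.G h1 (X.base.adj α x hM).1.symm
    exact h2
  · exact absurd rfl h

theorem Lre_nd_supp (X : Cx V) {α : Fin X.s} {δ : ZMod 2} {j : ℕ} {P : V → ℝ} {b x : V} {k : ℕ}
    (hP : ∀ x, P x ≠ 0 → x ∈ bl X.G b k) (h : X.nd α (X.A α δ j P) x ≠ 0) : x ∈ bl X.G b (k + 2) := by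
  unfold nd at h
  split_ifs at h with hM
  · obtain ⟨y, hy, hxy⟩ := Lre_A_supp X h
    have h1 := bl_adj X.G (hP y hy) hxy.symm
    exact bl_mono X.G b (by omega) h1
  · exact absurd rfl h

/-- the point function -/
noncomputable def Lre_pt (b : V) : V → ℝ := fun x => if x = b then 1 else 0

/-- the start function after a turn -/
noncomputable def Lre_tn (X : Cx V) (α : Fin X.s) (J k : ℕ) (b : V) : V → ℝ :=
  X.nd α (X.A α 0 (X.zl k) (Lre_gw X α 0 J (Lre_pt b) (J - X.zl k)))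

theorem Lre_main (X : Cx V) {α : Fin X.s} {δ : ZMod 2} {j r : ℕ} {P : V → ℝ} (h : X.RF α δ j r P) :
    ∃ b, (∀ x, P x ≠ 0 → x ∈ bl X.G b (2 * r)) ∧
      ((∃ J, j ≤ J ∧ J < X.n ∧ Lre_gw X α δ J (Lre_pt b) (J - j) = P) ∨
        (δ = 1 ∧ ∃ k, k < 8 ∧ ∃ J, X.zl k ≤ J ∧ J < X.n ∧ j ≤ X.zl k - 1 ∧
          Lre_gw X α 1 (X.zl k - 1) (Lre_tn X α J k b) (X.zl k - 1 - j) = P)) := by
  induction h with
  | pt δ j b hj hM hs =>
    refine ⟨b, ?_, Or.inl ⟨j, le_rfl, hj, ?_⟩⟩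
    · intro x hx
      by_cases hxb : x = b
      · rw [hxb]
        exact bl_self X.G b _
      · exact absurd (if_neg hxb) hx
    · rw [Nat.sub_self]
      rfl
  | st δ j r P _ ih =>
    obtain ⟨b, hb, hc⟩ := ih
    refine ⟨b, ?_, ?_⟩
    · intro x hx
      have h1 := Lre_mv_supp X hb hx
      have h2 : 2 * (r + 1) = 2 * r + 2 := by ring
      rw [h2]
      exact h1
    · rcases hc with ⟨J, hJ, hJn, hP⟩ | ⟨hδ, k, hk, J, hJ, hJn, hj, hP⟩
      · left
        refine ⟨J, by omega, hJn, ?_⟩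
        rw [Lre_gw_succ X α δ J _ hJ, hP]
      · right
        refine ⟨hδ, k, hk, J, hJ, hJn, by omega, ?_⟩
        rw [Lre_gw_succ X α 1 (X.zl k - 1) _ hj, hP, hδ]
  | tn k r P hk _ ih =>
    obtain ⟨b, hb, hc⟩ := ih
    refine ⟨b, ?_, ?_⟩
    · intro x hx
      have h1 := Lre_nd_supp X hb hx
      have h2 : 2 * (r + 1) = 2 * r + 2 := by ring
      rw [h2]
      exact h1
    · rcases hc with ⟨J, hJ, hJn, hP⟩ | ⟨hδ, _⟩
      · right
        refine ⟨rfl, k, hk, J, hJ, hJn, le_rfl, ?_⟩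
        rw [Nat.sub_self]
        show Lre_tn X α J k b = _
        unfold Lre_tn
        rw [hP]
      · exact absurd hδ (by decide)

/-- the receiver functions with an index set; near the point `b` -/
theorem RF_en (X : Cx V) : ∃ (κ : Type) (_ : Fintype κ) (e : V → κ → Fin X.s → ZMod 2 → ℕ → V → ℝ),
    (Fintype.card κ : ℝ) ≤ X.N ^ 10 ∧ ∀ α δ j r P, X.RF α δ j r P → ∃ b k, e b k α δ j = P ∧
      ∀ x, P x ≠ 0 → x ∈ bl X.G b (2 * r) := by
  refine ⟨Fin X.n × Option (Fin 8), inferInstance, fun b k α δ j => match k.2 with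
    | none => Lre_gw X α δ k.1 (Lre_pt b) (k.1 - j)
    | some i => Lre_gw X α 1 (X.zl i - 1) (Lre_tn X α k.1 i b) (X.zl i - 1 - j), ?_, ?_⟩
  · have h1 : Fintype.card (Fin X.n × Option (Fin 8)) = X.n * 9 := by
      rw [Fintype.card_prod, Fintype.card_fin, Fintype.card_option, Fintype.card_fin]
    rw [h1]
    have hN : 2 ^ 40 ≤ X.N := X.pm.big
    have h2 : X.n * 9 ≤ X.N ^ 10 := by
      unfold Cx.n
      have h3 : 1 ≤ X.N ^ 3 := Nat.one_le_pow _ _ (by omega)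
      have h4 : 90 ≤ X.N ^ 7 := by
        have h5 : X.N ^ 1 ≤ X.N ^ 7 := Nat.pow_le_pow_right (by omega) (by norm_num)
        rw [pow_one] at h5
        omega
      calc (9 * X.N ^ 3 + 1) * 9 ≤ 90 * X.N ^ 3 := by omega
        _ ≤ X.N ^ 7 * X.N ^ 3 := Nat.mul_le_mul_right _ h4
        _ = X.N ^ 10 := by rw [← pow_add]
    exact_mod_cast h2
  · intro α δ j r P h
    obtain ⟨b, hb, hc⟩ := Lre_main X h
    rcases hc with ⟨J, hJ, hJn, hP⟩ | ⟨hδ, k, hk, J, hJ, hJn, hj, hP⟩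
    · exact ⟨b, (⟨J, hJn⟩, none), hP, hb⟩
    · exact ⟨b, (⟨J, hJn⟩, some ⟨k, hk⟩), hP, hb⟩

end Cx

end Pool.Agent.H2.LN
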