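/-
ROW Lrn. The norm of long receiver functions.
PROOF. Let `k0 := 1 / (10 ^ 5 N ^ 2)`, `ell := Δ ^ 12`. Claim (induction on `RF`): `∑ (A δ j P) ^ 2 ≤ (1 - k0) ^ (min (r + 1) (N ^ 3)) + 4 / (ell k0)`. If `r + 1 ≤ N ^ 3`: `P` is supported in `bl b (2 r) ⊆ bl b (7 N ^ 3)` (`RF_en`), `P ≥ 0`, `∑ P ≤ 1`, so `base.mix` (with `kap_ne`; `A P x = (∑ y ∈ H κ x, P y) / d0` by definition) gives
`∑ (A P) ^ 2 ≤ (1 - k0) ∑ P ^ 2 + 4 / ell`, and `∑ P ^ 2 ≤ ∑ (A P') ^ 2` for `P = mv (A P')` or `nd (A P')` (`mv_l2`; trivial for `nd`), `∑ P ^ 2 = 1` for a point; `(1 - k0) 4 / (ell k0) + 4 / ell = 4 / (ell k0)`. If `r + 1 > N ^ 3`: `∑ (A P) ^ 2 ≤ ∑ P ^ 2 ≤ ∑ (A P') ^ 2` (`A_l2`).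
Numbers: `(1 - k0) ^ (N ^ 3) ≤ exp (-N / 10 ^ 5) ≤ Δ ^ (-12)` because `log Δ ≤ N ^ (1/10)` (`pm.log : log Δ ^ 10 ≤ N`): if `L = log Δ ≥ 1`, `12 L ≤ N / 10 ^ 5` since `L ≤ L ^ 10 ≤ N` is not enough: use `L ^ 10 ≤ N` and `N ≥ 2 ^ 40`: if `L ≤ 16` then `12 L 10 ^ 5 ≤ 2 ^ 25 ≤ N`, otherwise `L ^ 9 ≥ 2 ^ 36 ≥ 12 * 10 ^ 5`, so `12 * 10 ^ 5 L ≤ L ^ 10 ≤ N`.
`1 / ell + 4 * 10 ^ 5 N ^ 2 / ell ≤ N ^ 3 / (2 ell)`. `RF_l2'`: `r ≥ n3 ≥ 1`, so `P = mv (A P')` or `nd (A P')` with `RF .. (r - 1) P'` (cases on `h`) and `n3 ≤ (r - 1) + 1`: `RF_l2` for `P'`.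
-/
import Pool.Agent.H2.LN.LD
import Pool.Agent.H2.LN.L.Lrf
import Pool.Agent.H2.LN.L.Lre

set_option autoImplicit false
set_option linter.unusedSectionVars false

namespace Pool.Agent.H2.LN

open Finset Classical
open Pool.Agent.H65.GI

namespace Cx

variable {V : Type} [Fintype V] {X : Cx V}

/-- the contraction constant -/
private noncomputable def Lrn_k (X : Cx V) : ℝ := 1 / (10 ^ 5 * (X.N : ℝ) ^ 2)

private theorem Lrn_N (X : Cx V) : (2 : ℝ) ^ 40 ≤ X.N := by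
  have h := X.pm.big
  exact_mod_cast h

private theorem Lrn_D (X : Cx V) : (1 : ℝ) ≤ X.Δ := by
  have h := X.pm.pow
  have hN : 1 ≤ X.N := le_trans (by norm_num) X.pm.big
  have h1 : 1 ≤ X.N ^ 40000 := Nat.one_le_pow _ _ hN
  exact_mod_cast h1.trans h

private theorem Lrn_k_pos (X : Cx V) : 0 < Lrn_k X := by
  have h := Lrn_N X
  have h0 : (0 : ℝ) < X.N := lt_of_lt_of_le (by norm_num) h
  unfold Lrn_k
  positivity

private theorem Lrn_k_le (X : Cx V) : Lrn_k X ≤ 1 := by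
  have h := Lrn_N X
  have h0 : (1 : ℝ) ≤ X.N := le_trans (by norm_num) h
  unfold Lrn_k
  rw [div_le_one (by positivity)]
  have h1 : (1 : ℝ) ≤ (X.N : ℝ) ^ 2 := one_le_pow₀ h0
  nlinarith

private theorem Lrn_nd {α : Fin X.s} (F : V → ℝ) : ∑ x, X.nd α F x ^ 2 ≤ ∑ x, F x ^ 2 := by
  refine Finset.sum_le_sum fun x _ => ?_
  unfold nd
  split_ifs with h
  · exact le_refl _
  · rw [zero_pow two_ne_zero]
    exact sq_nonneg _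

private theorem Lrn_mix {α : Fin X.s} {δ : ZMod 2} {j r : ℕ} {P : V → ℝ} (h : X.RF α δ j r P) (hr : r + 1 ≤ X.N ^ 3) :
    ∑ x, X.A α δ j P x ^ 2 ≤ (1 - Lrn_k X) * (∑ x, P x ^ 2) + 4 / (X.Δ : ℝ) ^ 12 := by
  obtain ⟨κ, _, e, -, he⟩ := RF_en X
  obtain ⟨b, k, -, hs⟩ := he α δ j r P h
  refine X.base.mix (X.kap α δ j) b P (kap_ne X α δ j) (RF_nn h) (fun x hx => ?_) (RF_l1 h)
  by_contra hne
  refine hx (bl_mono X.G b ?_ (hs x hne))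
  omega

private theorem Lrn_claim {α : Fin X.s} {δ : ZMod 2} {j r : ℕ} {P : V → ℝ} (h : X.RF α δ j r P) :
    ∑ x, X.A α δ j P x ^ 2 ≤ (1 - Lrn_k X) ^ (min (r + 1) (X.N ^ 3)) + 4 / ((X.Δ : ℝ) ^ 12 * Lrn_k X) := by
  have hk := Lrn_k_pos X
  have hk1 := Lrn_k_le X
  have hD := Lrn_D X
  have hD0 : (0 : ℝ) < (X.Δ : ℝ) ^ 12 := by positivity
  have hN3 : 1 ≤ X.N ^ 3 := Nat.one_le_pow _ _ (le_trans (by norm_num) X.pm.big)
  have hE : 4 / ((X.Δ : ℝ) ^ 12 * Lrn_k X) * Lrn_k X = 4 / (X.Δ : ℝ) ^ 12 := by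
    field_simp
  have hE0 : 0 ≤ 4 / ((X.Δ : ℝ) ^ 12 * Lrn_k X) := by positivity
  -- one step
  have step : ∀ (δ' : ZMod 2) (j' r' : ℕ) (Q : V → ℝ), X.RF α δ' j' (r' + 1) Q →
      ∑ x, Q x ^ 2 ≤ (1 - Lrn_k X) ^ (min (r' + 1) (X.N ^ 3)) + 4 / ((X.Δ : ℝ) ^ 12 * Lrn_k X) →
      ∑ x, X.A α δ' j' Q x ^ 2 ≤ (1 - Lrn_k X) ^ (min (r' + 1 + 1) (X.N ^ 3)) + 4 / ((X.Δ : ℝ) ^ 12 * Lrn_k X) := by
    intro δ' j' r' Q hQ hs
    rcases Nat.lt_or_ge (r' + 1) (X.N ^ 3) with hlt | hge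
    · have h1 := Lrn_mix hQ hlt
      have h2 : (1 - Lrn_k X) * (∑ x, Q x ^ 2) ≤
          (1 - Lrn_k X) * ((1 - Lrn_k X) ^ (min (r' + 1) (X.N ^ 3)) + 4 / ((X.Δ : ℝ) ^ 12 * Lrn_k X)) :=
        mul_le_mul_of_nonneg_left hs (by linarith)
      rw [min_eq_left hlt.le] at h2
      rw [min_eq_left (Nat.succ_le_of_lt hlt), pow_succ (1 - Lrn_k X) (r' + 1)]
      nlinarith
    · have h1 := A_l2 (X := X) α δ' j' Q
      rw [min_eq_right hge] at hs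
      rw [min_eq_right (hge.trans (Nat.le_succ _))]
      exact h1.trans hs
  induction h with
  | pt δ j b hj hM hsd =>
    have hRF := RF.pt (X := X) (α := α) δ j b hj hM hsd
    have h1 := Lrn_mix hRF (by simpa using hN3)
    have h2 : ∑ x, ((if x = b then (1 : ℝ) else 0) : ℝ) ^ 2 = 1 := by
      rw [Finset.sum_eq_single b]
      · rw [if_pos rfl, one_pow]
      · intro x _ hx
        rw [if_neg hx, zero_pow two_ne_zero]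
      · intro hb
        exact absurd (Finset.mem_univ b) hb
    rw [h2, mul_one] at h1
    rw [Nat.zero_add, min_eq_left hN3, pow_one]
    refine h1.trans ?_
    have h3 : 4 / (X.Δ : ℝ) ^ 12 ≤ 4 / ((X.Δ : ℝ) ^ 12 * Lrn_k X) := by
      rw [← hE]
      nlinarith
    linarith
  | st δ j r P hP ih =>
    exact step δ j r _ (RF.st δ j r P hP) ((mv_l2 α _).trans ih)
  | tn k r P hk' hP ih =>
    exact step 1 _ r _ (RF.tn k r P hk' hP) ((Lrn_nd _).trans ih)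

private theorem Lrn_log (X : Cx V) : 12 * Real.log X.Δ ≤ X.N / 10 ^ 5 := by
  have hN := Lrn_N X
  have hl := X.pm.log
  have hL0 : 0 ≤ Real.log X.Δ := Real.log_nonneg (Lrn_D X)
  set L := Real.log X.Δ with hL
  rw [le_div_iff₀ (by norm_num)]
  rcases le_or_gt L 16 with h | h
  · have h2 : (2 : ℝ) ^ 40 = 1099511627776 := by norm_num
    nlinarith
  · have h9 : (16 : ℝ) ^ 9 ≤ L ^ 9 := pow_le_pow_left₀ (by norm_num) h.le 9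
    have h10 : L ^ 10 = L ^ 9 * L := pow_succ L 9
    have h11 : (16 : ℝ) ^ 9 * L ≤ L ^ 9 * L := mul_le_mul_of_nonneg_right h9 hL0
    have h12 : (16 : ℝ) ^ 9 = 68719476736 := by norm_num
    rw [h12] at h11
    nlinarith

private theorem Lrn_pow (X : Cx V) : (1 - Lrn_k X) ^ (X.N ^ 3) ≤ 1 / (X.Δ : ℝ) ^ 12 := by
  have hk := Lrn_k_pos X
  have hk1 := Lrn_k_le X
  have hD := Lrn_D X
  have hD0 : (0 : ℝ) < X.Δ := by linarith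
  have hN := Lrn_N X
  have hN0 : (0 : ℝ) < X.N := lt_of_lt_of_le (by norm_num) hN
  have h1 : (1 - Lrn_k X) ^ (X.N ^ 3) ≤ Real.exp (-Lrn_k X) ^ (X.N ^ 3) :=
    pow_le_pow_left₀ (by linarith) (Real.one_sub_le_exp_neg _) _
  have h2 : Real.exp (-Lrn_k X) ^ (X.N ^ 3) = Real.exp (-((X.N : ℝ) / 10 ^ 5)) := by
    rw [← Real.exp_nat_mul]
    congr 1
    unfold Lrn_k
    push_cast
    field_simp
  have h3 : (X.Δ : ℝ) ^ 12 = Real.exp (12 * Real.log X.Δ) := by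
    have h4 := Real.exp_nat_mul (Real.log X.Δ) 12
    rw [Real.exp_log hD0] at h4
    rw [← h4]
    norm_num
  rw [h2] at h1
  refine h1.trans ?_
  rw [h3, one_div, ← Real.exp_neg]
  exact Real.exp_le_exp.2 (neg_le_neg (Lrn_log X))

/-- the norm of long receiver functions -/
theorem RF_l2 {α : Fin X.s} {δ : ZMod 2} {j r : ℕ} {P : V → ℝ} (h : X.RF α δ j r P) (hr : X.n3 ≤ r + 1) :
    ∑ x, X.A α δ j P x ^ 2 ≤ X.N ^ 3 / (2 * (X.Δ : ℝ) ^ 12) := by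
  have h1 := Lrn_claim h
  have hN := Lrn_N X
  have hN0 : (0 : ℝ) < X.N := lt_of_lt_of_le (by norm_num) hN
  have hD := Lrn_D X
  have hD0 : (0 : ℝ) < (X.Δ : ℝ) ^ 12 := by positivity
  have hr' : X.N ^ 3 ≤ r + 1 := hr
  rw [min_eq_right hr'] at h1
  have h2 := Lrn_pow X
  have h3 : 4 / ((X.Δ : ℝ) ^ 12 * Lrn_k X) = (4 * 10 ^ 5 * (X.N : ℝ) ^ 2) / (X.Δ : ℝ) ^ 12 := by
    unfold Lrn_k
    field_simp
  rw [h3] at h1
  have h4 : 1 / (X.Δ : ℝ) ^ 12 + (4 * 10 ^ 5 * (X.N : ℝ) ^ 2) / (X.Δ : ℝ) ^ 12 ≤ X.N ^ 3 / (2 * (X.Δ : ℝ) ^ 12) := by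
    rw [← add_div, ← div_div, div_le_div_iff_of_pos_right hD0]
    have h5 : (X.N : ℝ) ^ 3 = X.N ^ 2 * X.N := pow_succ _ 2
    have h6 : (1 : ℝ) ≤ (X.N : ℝ) ^ 2 := one_le_pow₀ (by linarith [show (1 : ℝ) ≤ 2 ^ 40 by norm_num])
    have h7 : (X.N : ℝ) ^ 2 * 2 ^ 40 ≤ X.N ^ 2 * X.N := mul_le_mul_of_nonneg_left hN (by positivity)
    have h8 : (2 : ℝ) ^ 40 = 1099511627776 := by norm_num
    rw [h8] at h7
    rw [h5]
    nlinarith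
  linarith

theorem RF_l2' {α : Fin X.s} {δ : ZMod 2} {j r : ℕ} {P : V → ℝ} (h : X.RF α δ j r P) (hr : X.n3 ≤ r) :
    ∑ x, P x ^ 2 ≤ X.N ^ 3 / (2 * (X.Δ : ℝ) ^ 12) := by
  have hN3 : 1 ≤ X.n3 := Nat.one_le_pow _ _ (le_trans (by norm_num) X.pm.big)
  cases h with
  | pt _ _ b hj hM hsd => omega
  | st _ _ r P' hP => exact (mv_l2 α _).trans (RF_l2 hP hr)
  | tn k r P' hk hP => exact (Lrn_nd _).trans (RF_l2 hP hr)

end Cx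

end Pool.Agent.H2.LN
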