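/-
ROW Lef. Pulled back error functions.
PROOF. Induction on `EF`. `EF_nn`: `gE_nn` (`RF_nn`); `T F = A (mv F)`, `A_nn`. `EF_l1`: base: `n3 ≤ r` and `n3 ≥ 1`, so `r = r' + 1` and `gE_l1`; step: `∑ A (mv F) ≤ ∑ mv F = ∑ nd F ≤ ∑ F`. `EF_l2`: base: `gE ≤ 3 A P` (`gE_le`, `RF_rj`), `RF_l2` (file Lrn): `9 N ^ 3 / (2 Δ ^ 12)`; step: `A_l2`, `mv_l2`.
`EF_lt`: base `RF_rj`; step: `j < j + 1`. `EF_dv`: `∑ dv F = ∑_{x : M x = x} F x ≤ ∑_{x ∈ D} F x` (`M_D`, `F ≥ 0`). Step: `∑_{x ∈ D} A (mv F) x = ∑_b mv F b |R b ∩ D| / dd ≤ (∑ F) / dd ≤ 8 kd / dd ^ 2` (`R_D`, `R_symm`, `EF_l1`). Base: `∑_{a ∈ D} gE P a`: `(2 / dd) (kd + 1) ∑_{a ∈ D} A P a ≤ 2 (kd + 1) / dd ^ 2`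
(`A_box` with `D`, `k = 1`), and `∑_{a ∈ D} ∑_{b ∈ R a ∩ dis} P b / dd = ∑_{b ∈ dis} P b |R b ∩ D| / dd ≤ (∑_{b ∈ dis} P b) / dd ≤ kd / dd ^ 2` (`RF_box`, as in `gE_l1`).
-/
import Pool.Agent.H2.LN.LD
import Pool.Agent.H2.LN.L.Leg
import Pool.Agent.H2.LN.L.Lrn

set_option autoImplicit false
set_option linter.unusedSectionVars false

namespace Pool.Agent.H2.LN

open Finset Classical
open Pool.Agent.H65.GI

namespace Cx

variable {V : Type} [Fintype V] {X : Cx V} {c : V → ℕ} {Rc : Finset V}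

theorem Lef_ddpos (X : Cx V) : 0 < X.dd := by
  have h := X.dd_bd.1
  have h1 : 0 < X.pw 1 / (8 * X.N ^ 54) := by
    have := X.pw_pos 1
    have hN : (0 : ℝ) < X.N := lt_of_lt_of_le (by norm_num) X.N_big
    positivity
  linarith

theorem Lef_mv_nn {α : Fin X.s} {F : V → ℝ} (h : ∀ x, 0 ≤ F x) (x : V) : 0 ≤ X.mv α F x := by
  unfold mv
  split_ifs
  · exact h _
  · exact le_refl _

theorem Lef_mv_le {α : Fin X.s} {F : V → ℝ} (h : ∀ x, 0 ≤ F x) : ∑ x, X.mv α F x ≤ ∑ x, F x := by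
  rw [mv_sum]
  apply Finset.sum_le_sum
  intro x _
  unfold nd
  split_ifs
  · exact le_refl _
  · exact h x

theorem Lef_n3 (X : Cx V) : 1 ≤ X.n3 := by
  unfold n3
  have h := X.pm.big
  have h1 : 0 < X.N := lt_of_lt_of_le (by norm_num) h
  exact Nat.succ_le_of_lt (pow_pos h1 3)

theorem Lef_D {α : Fin X.s} {δ : ZMod 2} {j : ℕ} {Q : V → ℝ} (h : ∀ x, 0 ≤ Q x) :
    ∑ a ∈ X.D, X.A α δ j Q a ≤ (∑ x, Q x) / X.dd := by
  have hd := Lef_ddpos X
  have e1 : ∑ a ∈ X.D, X.A α δ j Q a = ∑ a, (if a ∈ X.D then (1 : ℝ) else 0) * X.A α δ j Q a := by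
    rw [← Finset.sum_filter_add_sum_filter_not Finset.univ (fun a => a ∈ X.D)
      (fun a => (if a ∈ X.D then (1 : ℝ) else 0) * X.A α δ j Q a)]
    have h2 : ∑ a ∈ Finset.univ.filter (fun a => ¬ a ∈ X.D),
        (if a ∈ X.D then (1 : ℝ) else 0) * X.A α δ j Q a = 0 := by
      apply Finset.sum_eq_zero
      intro a ha
      rw [if_neg (Finset.mem_filter.mp ha).2, zero_mul]
    have h1 : ∑ a ∈ Finset.univ.filter (fun a => a ∈ X.D),
        (if a ∈ X.D then (1 : ℝ) else 0) * X.A α δ j Q a = ∑ a ∈ X.D, X.A α δ j Q a := by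
      rw [Finset.filter_mem_eq_inter, Finset.univ_inter]
      apply Finset.sum_congr rfl
      intro a ha
      rw [if_pos ha, one_mul]
    rw [h1, h2, add_zero]
  rw [e1, A_adj, Finset.sum_div]
  apply Finset.sum_le_sum
  intro a _
  have h3 : X.A α δ j (fun a => if a ∈ X.D then (1 : ℝ) else 0) a ≤ 1 / X.dd := by
    unfold A
    apply div_le_div_of_nonneg_right _ hd.le
    rw [← Finset.sum_filter, Finset.sum_const, nsmul_eq_mul, mul_one]
    exact_mod_cast X.R_D α δ j a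
  calc X.A α δ j (fun a => if a ∈ X.D then (1 : ℝ) else 0) a * Q a ≤ 1 / X.dd * Q a :=
        mul_le_mul_of_nonneg_right h3 (h a)
    _ = Q a / X.dd := by ring

theorem EF_nn {α : Fin X.s} {δ : ZMod 2} {j : ℕ} {F : V → ℝ} (h : X.EF c Rc α δ j F) (x : V) :
    0 ≤ F x := by
  induction h generalizing x with
  | bs j r P hr hP => exact gE_nn (RF_nn hP) x
  | pl j F hF ih => exact A_nn (Lef_mv_nn ih) x

theorem EF_l1 {α : Fin X.s} {δ : ZMod 2} {j : ℕ} {F : V → ℝ} (h : X.EF c Rc α δ j F)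
    (hk : X.KD c Rc) : ∑ x, F x ≤ 8 * X.kd / X.dd := by
  induction h with
  | bs j r P hr hP =>
    have h1 := Lef_n3 X
    obtain ⟨r', rfl⟩ : ∃ r', r = r' + 1 := ⟨r - 1, by omega⟩
    exact gE_l1 hP hk
  | pl j F hF ih =>
    refine le_trans ?_ ih
    exact le_trans (A_sum_le (Lef_mv_nn (EF_nn hF))) (Lef_mv_le (EF_nn hF))

theorem EF_lt {α : Fin X.s} {δ : ZMod 2} {j : ℕ} {F : V → ℝ} (h : X.EF c Rc α δ j F) : j < X.n := by
  induction h with
  | bs j r P hr hP =>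
    have := RF_rj hP
    omega
  | pl j F hF ih => omega

theorem EF_l2 {α : Fin X.s} {δ : ZMod 2} {j : ℕ} {F : V → ℝ} (h : X.EF c Rc α δ j F)
    (hk : X.KD c Rc) : ∑ x, F x ^ 2 ≤ 5 * X.N ^ 3 / (X.Δ : ℝ) ^ 12 := by
  induction h with
  | bs j r P hr hP =>
    have hj : j ≤ X.n := by
      have := RF_rj hP
      omega
    have h1 : ∑ x, X.gE c Rc α δ j P x ^ 2 ≤ ∑ x, 9 * X.A α δ j P x ^ 2 := by
      apply Finset.sum_le_sum
      intro x _
      have h2 : X.gE c Rc α δ j P x ≤ 3 * X.A α δ j P x := gE_le (RF_nn hP) hk hj x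
      have h3 : 0 ≤ X.gE c Rc α δ j P x := gE_nn (RF_nn hP) x
      have h9 : 0 ≤ X.A α δ j P x := A_nn (RF_nn hP) x
      nlinarith
    have h4 := RF_l2 hP (by omega)
    rw [← Finset.mul_sum] at h1
    have h5 : (9 : ℝ) * (X.N ^ 3 / (2 * (X.Δ : ℝ) ^ 12)) ≤ 5 * X.N ^ 3 / (X.Δ : ℝ) ^ 12 := by
      have h6 : (0 : ℝ) ≤ X.N ^ 3 / (X.Δ : ℝ) ^ 12 := by positivity
      have h7 : (9 : ℝ) * (X.N ^ 3 / (2 * (X.Δ : ℝ) ^ 12)) = 9 / 2 * (X.N ^ 3 / (X.Δ : ℝ) ^ 12) := by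
        rw [mul_comm (2 : ℝ), ← div_div]
        ring
      rw [h7, mul_div_assoc]
      nlinarith
    nlinarith
  | pl j F hF ih =>
    refine le_trans ?_ ih
    exact le_trans (A_l2 α δ j _) (mv_l2 α F)

theorem Lef_DF {α : Fin X.s} {δ : ZMod 2} {j : ℕ} {F : V → ℝ} (h : X.EF c Rc α δ j F)
    (hk : X.KD c Rc) : ∑ x ∈ X.D, F x ≤ 8 * X.kd / X.dd ^ 2 := by
  have hd := Lef_ddpos X
  cases h with
  | bs j r P hr hP =>
    have h1 := Lef_n3 X
    obtain ⟨r', rfl⟩ : ∃ r', r = r' + 1 := ⟨r - 1, by omega⟩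
    have hj : j ≤ X.n := by
      have := RF_rj hP
      omega
    have hnn := RF_nn hP
    have hl1 := RF_l1 hP
    have hS : ∑ a ∈ X.D, X.A α δ j P a ≤ 1 / X.dd :=
      le_trans (Lef_D hnn) (div_le_div_of_nonneg_right hl1 hd.le)
    have hbox : ∑ x ∈ X.dis c Rc α, P x ≤ X.kd / X.dd := by
      apply RF_box hP (X.dis c Rc α) X.kd (fun x hx => dis_M hx)
      intro δ' j' b hj'
      exact_mod_cast hk α δ' j' b hj'
    have hS2 : ∑ a ∈ X.D, X.A α δ j (fun b => if b ∈ X.dis c Rc α then P b else 0) a ≤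
        X.kd / X.dd / X.dd := by
      refine le_trans (Lef_D ?_) ?_
      · intro x
        split_ifs
        · exact hnn x
        · exact le_refl _
      · apply div_le_div_of_nonneg_right _ hd.le
        rw [← Finset.sum_filter, Finset.filter_mem_eq_inter, Finset.univ_inter]
        exact hbox
    have hpt : ∀ a ∈ X.D, X.gE c Rc α δ j P a ≤ (2 / X.dd * X.kd + 2 / X.dd) * X.A α δ j P a +
        X.A α δ j (fun b => if b ∈ X.dis c Rc α then P b else 0) a := by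
      intro a ha
      have hA : 0 ≤ X.A α δ j P a := A_nn hnn a
      have hc : ((((X.R α δ j a).filter (fun b => b ∈ X.dis c Rc α)).card : ℕ) : ℝ) ≤ X.kd := by
        exact_mod_cast hk α δ j a hj
      have h2 : (0 : ℝ) ≤ 2 / X.dd := by positivity
      have h3 : 2 / X.dd * X.A α δ j P a *
          (((X.R α δ j a).filter (fun b => b ∈ X.dis c Rc α)).card : ℝ) ≤
          2 / X.dd * X.A α δ j P a * X.kd :=
        mul_le_mul_of_nonneg_left hc (mul_nonneg h2 hA)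
      have h4 : (∑ b ∈ (X.R α δ j a).filter (fun b => b ∈ X.dis c Rc α), P b) / X.dd =
          X.A α δ j (fun b => if b ∈ X.dis c Rc α then P b else 0) a := by
        unfold A
        rw [Finset.sum_filter]
      unfold gE gB gD
      rw [if_pos ha, h4]
      nlinarith
    have hfin : ∑ a ∈ X.D, X.gE c Rc α δ j P a ≤
        (2 / X.dd * X.kd + 2 / X.dd) * (1 / X.dd) + X.kd / X.dd / X.dd := by
      refine le_trans (Finset.sum_le_sum hpt) ?_
      rw [Finset.sum_add_distrib, ← Finset.mul_sum]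
      apply add_le_add _ hS2
      apply mul_le_mul_of_nonneg_left hS
      positivity
    refine le_trans hfin ?_
    have hkd : (1 : ℝ) ≤ X.kd := by
      have h5 : 1 ≤ X.kd := by
        unfold kd
        have h6 : 0 < X.N := lt_of_lt_of_le (by norm_num) X.pm.big
        exact Nat.succ_le_of_lt (pow_pos h6 52)
      exact_mod_cast h5
    have h7 : (2 / X.dd * X.kd + 2 / X.dd) * (1 / X.dd) + X.kd / X.dd / X.dd =
        (3 * X.kd + 2) / X.dd ^ 2 := by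
      field_simp
      ring
    rw [h7]
    apply div_le_div_of_nonneg_right _ (by positivity)
    linarith
  | pl j F' hF =>
    have hnn := EF_nn hF
    refine le_trans (Lef_D (Lef_mv_nn hnn)) ?_
    have h8 : ∑ x, X.mv α F' x ≤ 8 * X.kd / X.dd := le_trans (Lef_mv_le hnn) (EF_l1 hF hk)
    refine le_trans (div_le_div_of_nonneg_right h8 hd.le) ?_
    rw [div_div, pow_two]

theorem EF_dv {α : Fin X.s} {δ : ZMod 2} {j : ℕ} {F : V → ℝ} (h : X.EF c Rc α δ j F)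
    (hk : X.KD c Rc) : ∑ x, X.dv α F x ≤ 8 * X.kd / X.dd ^ 2 := by
  refine le_trans ?_ (Lef_DF h hk)
  have h1 : ∑ x ∈ X.D, F x = ∑ x, if x ∈ X.D then F x else 0 := by
    rw [← Finset.sum_filter, Finset.filter_mem_eq_inter, Finset.univ_inter]
  rw [h1]
  apply Finset.sum_le_sum
  intro x _
  unfold dv
  by_cases hx : X.M α x = x
  · rw [if_pos hx, if_pos (M_D X hx)]
  · rw [if_neg hx]
    split_ifs
    · exact EF_nn h x
    · exact le_refl _

end Cx

end Pool.Agent.H2.LN
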