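/-
ROW Ast. One step.
PROOF. `Gd1.p` of `(Y.ok j hj).2` for `P`, with `B` (`|m| ≤ B` from `0 ≤ m ≤ B`): `∑ P ar` is within `pw (-19/5) / 2 * B` of `∑_{a ∈ S} m a avg a`. `st_le`: `|avg a - A P a| ≤ gE P a` (`avg_le`, `j ≤ n`), multiply by `m a ≥ 0` and sum over `a ∈ S`; `m a = 0` off `S` (`TT.sp`), so `∑_{a ∈ S} m a A P a = pa (A P) m` and `∑_{a ∈ S} m a gE a ≤ pa gE m` (`gE_nn`). `st_up`: `avg_up`. `st_h`: `Gd1.h`, `Y.S (j+1) = nS`.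
-/
import Pool.Agent.H2.LN.LD
import Pool.Agent.H2.LN.L.Agn
import Pool.Agent.H2.LN.L.Leg
import Pool.Agent.H2.LN.L.Lrf
import Pool.Agent.H2.LN.L.Lef

set_option autoImplicit false
set_option linter.unusedSectionVars false

namespace Pool.Agent.H2.LN

open Finset Classical
open Pool.Agent.H65.GI

namespace An

variable {V : Type} [Fintype V] {X : Cx V} (Y : An X)

/-- the average of `P` over the good receivers of `a` -/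
private noncomputable def Ast_av (j : ℕ) (δ : ZMod 2) (α : Fin X.s) (P : V → ℝ) (a : V) : ℝ :=
  (∑ b ∈ (X.R α δ j a).filter (fun b => b ∉ X.dis Y.c Y.Rc α), P b) /
    (((X.R α δ j a).filter (fun b => b ∉ X.dis Y.c Y.Rc α)).card : ℝ)

private theorem Ast_p {j : ℕ} (hj : j < X.n) (τ : Fin 2) (δ : ZMod 2) (α : Fin X.s) {P : V → ℝ}
    (hP : X.TF Y.c Y.Rc P) {B : ℝ} (hm : ∀ δ α v, 0 ≤ Y.m j τ δ α v)
    (hB : ∀ δ α v, Y.m j τ δ α v ≤ B) :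
    |(∑ b, P b * Y.ar j τ δ α b) - ∑ a ∈ Y.S j δ α, Y.m j τ δ α a * Ast_av Y j δ α P a| ≤
      X.pw (-(19 : ℝ) / 5) / 2 * B :=
  (Y.ok j hj).2.p P hP τ δ α B (fun δ α a => by
    have h1 : 0 ≤ Y.m j τ δ α a := hm δ α a
    have h2 : Y.m j τ δ α a ≤ B := hB δ α a
    have h3 : |Y.m j τ δ α a| ≤ B := by rw [abs_of_nonneg h1]; exact h2
    exact h3)

private theorem Ast_pa {j : ℕ} (hj : j < X.n) (τ : Fin 2) (δ : ZMod 2) (α : Fin X.s) (F : V → ℝ) :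
    Cx.pa F (Y.m j τ δ α) = ∑ a ∈ Y.S j δ α, F a * Y.m j τ δ α a := by
  unfold Cx.pa
  symm
  refine Finset.sum_subset (Finset.subset_univ _) ?_
  intro a _ ha
  have h1 : Y.m j τ δ α a = 0 := (Y.tt j hj).sp τ δ α a ha
  rw [h1, mul_zero]

/-- one step: test functions, nonnegative masses -/
theorem st_le {j : ℕ} (hj : j < X.n) (τ : Fin 2) (δ : ZMod 2) (α : Fin X.s) {P : V → ℝ}
    (hP : X.TF Y.c Y.Rc P) (hP0 : ∀ x, 0 ≤ P x) {B : ℝ} (hm : ∀ δ α v, 0 ≤ Y.m j τ δ α v)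
    (hB : ∀ δ α v, Y.m j τ δ α v ≤ B) :
    |(∑ b, P b * Y.ar j τ δ α b) - Cx.pa (X.A α δ j P) (Y.m j τ δ α)| ≤
      Cx.pa (X.gE Y.c Y.Rc α δ j P) (Y.m j τ δ α) + X.pw (-(19 : ℝ) / 5) / 2 * B := by
  have h1 := Ast_p Y hj τ δ α hP hm hB
  rw [Ast_pa Y hj, Ast_pa Y hj]
  have h2 : |(∑ a ∈ Y.S j δ α, Y.m j τ δ α a * Ast_av Y j δ α P a) -
      ∑ a ∈ Y.S j δ α, X.A α δ j P a * Y.m j τ δ α a| ≤
      ∑ a ∈ Y.S j δ α, X.gE Y.c Y.Rc α δ j P a * Y.m j τ δ α a := by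
    rw [← Finset.sum_sub_distrib]
    refine (Finset.abs_sum_le_sum_abs _ _).trans (Finset.sum_le_sum fun a _ => ?_)
    have h3 : |Ast_av Y j δ α P a - X.A α δ j P a| ≤ X.gE Y.c Y.Rc α δ j P a :=
      Cx.avg_le hP0 Y.kd hj.le a
    have h4 : Y.m j τ δ α a * Ast_av Y j δ α P a - X.A α δ j P a * Y.m j τ δ α a =
        (Ast_av Y j δ α P a - X.A α δ j P a) * Y.m j τ δ α a := by ring
    rw [h4, abs_mul, abs_of_nonneg (hm δ α a)]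
    exact mul_le_mul_of_nonneg_right h3 (hm δ α a)
  have h5 := abs_sub_le (∑ b, P b * Y.ar j τ δ α b)
    (∑ a ∈ Y.S j δ α, Y.m j τ δ α a * Ast_av Y j δ α P a)
    (∑ a ∈ Y.S j δ α, X.A α δ j P a * Y.m j τ δ α a)
  linarith

theorem st_up {j : ℕ} (hj : j < X.n) (τ : Fin 2) (δ : ZMod 2) (α : Fin X.s) {P : V → ℝ}
    (hP : X.TF Y.c Y.Rc P) (hP0 : ∀ x, 0 ≤ P x) {B : ℝ} (hm : ∀ δ α v, 0 ≤ Y.m j τ δ α v)
    (hB : ∀ δ α v, Y.m j τ δ α v ≤ B) :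
    (∑ b, P b * Y.ar j τ δ α b) ≤ (1 + 4 * X.kd / X.dd) * Cx.pa (X.A α δ j P) (Y.m j τ δ α) +
      X.pw (-(19 : ℝ) / 5) / 2 * B := by
  have h1 := (abs_le.1 (Ast_p Y hj τ δ α hP hm hB)).2
  rw [Ast_pa Y hj]
  have h2 : (∑ a ∈ Y.S j δ α, Y.m j τ δ α a * Ast_av Y j δ α P a) ≤
      (1 + 4 * X.kd / X.dd) * ∑ a ∈ Y.S j δ α, X.A α δ j P a * Y.m j τ δ α a := by
    rw [Finset.mul_sum]
    refine Finset.sum_le_sum fun a _ => ?_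
    have h3 : Ast_av Y j δ α P a ≤ (1 + 4 * X.kd / X.dd) * X.A α δ j P a :=
      Cx.avg_up hP0 Y.kd hj.le a
    have h4 : (1 + 4 * (X.kd : ℝ) / X.dd) * (X.A α δ j P a * Y.m j τ δ α a) =
        Y.m j τ δ α a * ((1 + 4 * X.kd / X.dd) * X.A α δ j P a) := by ring
    rw [h4]
    exact mul_le_mul_of_nonneg_left h3 (hm δ α a)
  linarith

/-- test functions against the senders -/
theorem st_h {j : ℕ} (hj : j < X.n) (δ : ZMod 2) (α : Fin X.s) {F : V → ℝ} (hF : X.TF Y.c Y.Rc F) :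
    |(∑ x ∈ Y.S (j + 1) δ α, F x) -
      X.th * ∑ x ∈ univ.filter (fun x => X.sd α x = δ ∧ x ∉ Y.ds α), F x| ≤
      X.pw (-(19 : ℝ) / 5) :=
  (Y.ok j hj).2.h F hF δ α

end An

end Pool.Agent.H2.LN
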