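/-
ROW Acj. The masses in block 0.
PROOF. Induction on `j` (all `r`, `P`). `j = 0`: `c0`. Step: `F = A α δ (j+1) P`, `P' = mv α F`: `RF α δ j (r+1) P'`, `n3 ≤ r + 1`. `id_st` (`isZ_no0`): `pa F (m (j+1)) = ∑ P' ar + ij ∑_{S (j+1)} dv F`. `st_le` (`TF.rc`, `B = 1`, `s0`): `|∑ P' ar - pa (A δ j P') (m j)| ≤ pa (gE P') (m j) + pw (-19/5) / 2 ≤ 5 N^31 pw (-2) + pw (-19/5) / 2` (`er0`). IH: `pa (A δ j P') (m j)` is `u ∑ A δ j P'` up to `(j+1) N^32 pw (-2)`.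
`ij ∑_{S} dv F = (u / th) ∑_S dv F`, `st_h` (`TF.ld`): `∑_S dv F = th ∑_{sd = δ, ∉ ds} dv F ± pw (-19/5)`; `F` is supported on `sd = δ`; for `M v = v`: `v ∈ ds ↔ W v`, and `∑ [W] dv F ≤ u ∑ dv F + 2 N pw (-19/5)` (`S1.l2`). So the term is `u ∑ dv F` up to `(u / th) pw (-19/5) + u (u / dd + 2 N pw (-19/5))`. `RF_k2`: `|∑ F - ∑ dv F - ∑ A δ j P'| ≤ N^5 / dd^2`. The errors other than IH sum to `≤ N^32 pw (-2)`.
-/
import Pool.Agent.H2.LN.LD
import Pool.Agent.H2.LN.L.Aup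
import Pool.Agent.H2.LN.L.Ac0
import Pool.Agent.H2.LN.L.Lrb
import Pool.Agent.H2.LN.L.Abk
import Pool.Agent.H2.LN.L.Aid
import Pool.Agent.H2.LN.L.As0
import Pool.Agent.H2.LN.L.Ast
import Pool.Agent.H2.LN.L.Agn
import Pool.Agent.H2.LN.L.Lop
import Pool.Agent.H2.LN.L.Lbs
import Pool.Agent.H2.LN.L.Lnm

set_option autoImplicit false
set_option linter.unusedSectionVars false

namespace Pool.Agent.H2.LN

open Finset Classical
open Pool.Agent.H65.GI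

theorem Acj_pw {V : Type} [Fintype V] {X : Cx V} (k : ℕ) (x y : ℝ) (h : (k : ℝ) ≤ 40000 * (y - x)) :
    (X.N : ℝ) ^ k * X.pw x ≤ X.pw y := by
  have h1 := X.pwN k (y - x) h
  have h2 := X.pw_add (y - x) x
  calc (X.N : ℝ) ^ k * X.pw x ≤ X.pw (y - x) * X.pw x :=
        mul_le_mul_of_nonneg_right h1 (X.pw_pos x).le
    _ = X.pw y := by
        rw [h2]
        congr 1
        ring

theorem Acj_sup {V : Type} [Fintype V] {X : Cx V} {α : Fin X.s} {δ : ZMod 2} {j r : ℕ} {P : V → ℝ}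
    (h : X.RF α δ j r P) {a : V} (ha : X.A α δ j P a ≠ 0) : X.sd α a = δ := by
  unfold Cx.A at ha
  have h1 : ∑ b ∈ X.R α δ j a, P b ≠ 0 := by
    intro h0
    rw [h0, zero_div] at ha
    exact ha rfl
  obtain ⟨b, hb, hb0⟩ := Finset.exists_ne_zero_of_sum_ne_zero h1
  have h2 := (Cx.RF_nd h b hb0).2
  have h3 := X.R_sd hb
  rw [h2] at h3
  exact (add_right_cancel h3).symm

theorem Acj_num {V : Type} [Fintype V] {X : Cx V} {u : ℝ} (h0 : 0 ≤ u)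
    (h1 : u ≤ 2 * X.N ^ 15 * X.pw (-1)) :
    5 * ((X.N : ℝ) ^ 31 * X.pw (-2)) + X.pw (-(19 : ℝ) / 5) / 2 + u * (X.N ^ 5 / X.dd ^ 2) +
      u / X.th * X.pw (-(19 : ℝ) / 5) + u * (u * (1 / X.dd) + 2 * X.N * X.pw (-(19 : ℝ) / 5)) ≤
      X.N ^ 32 * X.pw (-2) := by
  have hN : (2 : ℝ) ^ 40 ≤ X.N := X.N_big
  have hN1 : (1 : ℝ) ≤ X.N := le_trans (by norm_num) hN
  have hN128 : (128 : ℝ) ≤ X.N := le_trans (by norm_num) hN
  have hN0 : (0 : ℝ) < X.N := by linarith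
  have p2 := X.pw_pos (-2)
  have p1 := X.pw_pos (-1)
  have p19 := X.pw_pos (-(19 : ℝ) / 5)
  have hdd := (X.dd_bd).1
  have hq1 : 0 < X.pw 1 := X.pw_pos 1
  have hb : 0 < X.pw 1 / (8 * (X.N : ℝ) ^ 54) := by positivity
  have hddp : 0 < X.dd := lt_of_lt_of_le hb hdd
  have hinv : 1 / X.dd ≤ 8 * (X.N : ℝ) ^ 54 * X.pw (-1) := by
    rw [div_le_iff₀ hddp]
    have e1 : X.pw 1 * X.pw (-1) = 1 := by
      rw [X.pw_add]
      unfold Cx.pw
      norm_num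
    have e2 : 8 * (X.N : ℝ) ^ 54 * X.pw (-1) * (X.pw 1 / (8 * (X.N : ℝ) ^ 54)) = 1 := by
      field_simp
      linarith [e1]
    calc (1 : ℝ) = 8 * (X.N : ℝ) ^ 54 * X.pw (-1) * (X.pw 1 / (8 * (X.N : ℝ) ^ 54)) := e2.symm
      _ ≤ 8 * (X.N : ℝ) ^ 54 * X.pw (-1) * X.dd := by gcongr
  have hth := (X.th_bd).1
  have pth := X.pw_pos (-(3 : ℝ) / 5)
  have hthp : 0 < X.th := lt_of_lt_of_le pth hth
  have hthi : 1 / X.th ≤ X.pw ((3 : ℝ) / 5) := by
    rw [div_le_iff₀ hthp]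
    have e1 : X.pw ((3 : ℝ) / 5) * X.pw (-(3 : ℝ) / 5) = 1 := by
      rw [X.pw_add]
      unfold Cx.pw
      norm_num
    calc (1 : ℝ) = X.pw ((3 : ℝ) / 5) * X.pw (-(3 : ℝ) / 5) := e1.symm
      _ ≤ X.pw ((3 : ℝ) / 5) * X.th := by
        have := (X.pw_pos ((3 : ℝ) / 5)).le
        gcongr
  -- the five errors
  have a1 : X.pw (-(19 : ℝ) / 5) ≤ X.pw (-2) := by
    have := Acj_pw (X := X) 0 (-(19 : ℝ) / 5) (-2) (by norm_num)
    simpa using this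
  have hdi0 : 0 ≤ 1 / X.dd := by positivity
  have a2 : u * (X.N ^ 5 / X.dd ^ 2) ≤ X.pw (-2) := by
    have e1 : u * ((X.N : ℝ) ^ 5 / X.dd ^ 2) = u * (X.N : ℝ) ^ 5 * (1 / X.dd) ^ 2 := by
      field_simp
    have e2 : u * (X.N : ℝ) ^ 5 * (1 / X.dd) ^ 2 ≤
        (2 * X.N ^ 15 * X.pw (-1)) * (X.N : ℝ) ^ 5 * (8 * (X.N : ℝ) ^ 54 * X.pw (-1)) ^ 2 := by
      gcongr
    have e3 : X.pw (-1) * X.pw (-1) * X.pw (-1) = X.pw (-3) := by
      rw [X.pw_add, X.pw_add]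
      norm_num
    have e4 : (2 * X.N ^ 15 * X.pw (-1)) * (X.N : ℝ) ^ 5 * (8 * (X.N : ℝ) ^ 54 * X.pw (-1)) ^ 2 =
        128 * (X.N : ℝ) ^ 128 * X.pw (-3) := by
      rw [← e3]
      ring
    have e5 : 128 * (X.N : ℝ) ^ 128 * X.pw (-3) ≤ (X.N : ℝ) ^ 129 * X.pw (-3) := by
      have := (X.pw_pos (-3)).le
      have e6 : 128 * (X.N : ℝ) ^ 128 ≤ (X.N : ℝ) ^ 129 := by
        rw [pow_succ (X.N : ℝ) 128, mul_comm]
        gcongr
      gcongr
    have e7 := Acj_pw (X := X) 129 (-3) (-2) (by norm_num)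
    linarith
  have a3 : u / X.th * X.pw (-(19 : ℝ) / 5) ≤ X.pw (-2) := by
    have e1 : u / X.th * X.pw (-(19 : ℝ) / 5) = u * (1 / X.th) * X.pw (-(19 : ℝ) / 5) := by
      ring
    have hti0 : 0 ≤ 1 / X.th := by positivity
    have e2 : u * (1 / X.th) * X.pw (-(19 : ℝ) / 5) ≤
        (2 * X.N ^ 15 * X.pw (-1)) * X.pw ((3 : ℝ) / 5) * X.pw (-(19 : ℝ) / 5) := by
      gcongr
    have e3 : X.pw (-1) * X.pw ((3 : ℝ) / 5) * X.pw (-(19 : ℝ) / 5) = X.pw (-(21 : ℝ) / 5) := by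
      rw [X.pw_add, X.pw_add]
      norm_num
    have e4 : (2 * X.N ^ 15 * X.pw (-1)) * X.pw ((3 : ℝ) / 5) * X.pw (-(19 : ℝ) / 5) =
        2 * (X.N : ℝ) ^ 15 * X.pw (-(21 : ℝ) / 5) := by
      rw [← e3]
      ring
    have e5 : 2 * (X.N : ℝ) ^ 15 * X.pw (-(21 : ℝ) / 5) ≤ (X.N : ℝ) ^ 16 * X.pw (-(21 : ℝ) / 5) := by
      have := (X.pw_pos (-(21 : ℝ) / 5)).le
      have e6 : 2 * (X.N : ℝ) ^ 15 ≤ (X.N : ℝ) ^ 16 := by
        rw [pow_succ (X.N : ℝ) 15, mul_comm]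
        gcongr
        linarith
      gcongr
    have e7 := Acj_pw (X := X) 16 (-(21 : ℝ) / 5) (-2) (by norm_num)
    linarith
  have a4 : u * (u * (1 / X.dd)) ≤ X.pw (-2) := by
    have e2 : u * (u * (1 / X.dd)) ≤
        (2 * X.N ^ 15 * X.pw (-1)) * ((2 * X.N ^ 15 * X.pw (-1)) * (8 * (X.N : ℝ) ^ 54 * X.pw (-1))) := by
      gcongr
    have e3 : X.pw (-1) * X.pw (-1) * X.pw (-1) = X.pw (-3) := by
      rw [X.pw_add, X.pw_add]
      norm_num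
    have e4 : (2 * X.N ^ 15 * X.pw (-1)) * ((2 * X.N ^ 15 * X.pw (-1)) * (8 * (X.N : ℝ) ^ 54 * X.pw (-1))) =
        32 * (X.N : ℝ) ^ 84 * X.pw (-3) := by
      rw [← e3]
      ring
    have e5 : 32 * (X.N : ℝ) ^ 84 * X.pw (-3) ≤ (X.N : ℝ) ^ 85 * X.pw (-3) := by
      have := (X.pw_pos (-3)).le
      have e6 : 32 * (X.N : ℝ) ^ 84 ≤ (X.N : ℝ) ^ 85 := by
        rw [pow_succ (X.N : ℝ) 84, mul_comm]
        gcongr
        linarith
      gcongr
    have e7 := Acj_pw (X := X) 85 (-3) (-2) (by norm_num)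
    linarith
  have a5 : u * (2 * X.N * X.pw (-(19 : ℝ) / 5)) ≤ X.pw (-2) := by
    have e2 : u * (2 * X.N * X.pw (-(19 : ℝ) / 5)) ≤
        (2 * X.N ^ 15 * X.pw (-1)) * (2 * X.N * X.pw (-(19 : ℝ) / 5)) := by
      gcongr
    have e3 : X.pw (-1) * X.pw (-(19 : ℝ) / 5) = X.pw (-(24 : ℝ) / 5) := by
      rw [X.pw_add]
      norm_num
    have e4 : (2 * X.N ^ 15 * X.pw (-1)) * (2 * X.N * X.pw (-(19 : ℝ) / 5)) =
        4 * (X.N : ℝ) ^ 16 * X.pw (-(24 : ℝ) / 5) := by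
      rw [← e3]
      ring
    have e5 : 4 * (X.N : ℝ) ^ 16 * X.pw (-(24 : ℝ) / 5) ≤ (X.N : ℝ) ^ 17 * X.pw (-(24 : ℝ) / 5) := by
      have := (X.pw_pos (-(24 : ℝ) / 5)).le
      have e6 : 4 * (X.N : ℝ) ^ 16 ≤ (X.N : ℝ) ^ 17 := by
        rw [pow_succ (X.N : ℝ) 16, mul_comm]
        gcongr
        linarith
      gcongr
    have e7 := Acj_pw (X := X) 17 (-(24 : ℝ) / 5) (-2) (by norm_num)
    linarith
  have b1 : X.pw (-2) ≤ (X.N : ℝ) ^ 31 * X.pw (-2) := by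
    have : (1 : ℝ) ≤ (X.N : ℝ) ^ 31 := one_le_pow₀ hN1
    nlinarith
  have b2 : 10 * ((X.N : ℝ) ^ 31 * X.pw (-2)) ≤ (X.N : ℝ) ^ 32 * X.pw (-2) := by
    have e6 : 10 * (X.N : ℝ) ^ 31 ≤ (X.N : ℝ) ^ 32 := by
      rw [pow_succ (X.N : ℝ) 31, mul_comm]
      gcongr
      linarith
    have := mul_le_mul_of_nonneg_right e6 p2.le
    linarith
  have c1 : u * (u * (1 / X.dd) + 2 * X.N * X.pw (-(19 : ℝ) / 5)) =
      u * (u * (1 / X.dd)) + u * (2 * X.N * X.pw (-(19 : ℝ) / 5)) := by ring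
  rw [c1]
  linarith

namespace An

variable {V : Type} [Fintype V] {X : Cx V} (Y : An X)

theorem Acj_dsum {δ : ZMod 2} {α : Fin X.s} {F : V → ℝ} (hF : ∀ a, F a ≠ 0 → X.sd α a = δ) :
    ∑ x ∈ univ.filter (fun x => X.sd α x = δ ∧ x ∉ Y.ds α), X.dv α F x =
      (∑ x, X.dv α F x) - ∑ x, if Wc X.p Y.c α x then X.dv α F x else 0 := by
  rw [Finset.sum_filter, ← Finset.sum_sub_distrib]
  refine Finset.sum_congr rfl fun x _ => ?_
  by_cases hM : X.M α x = x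
  · by_cases h0 : F x = 0
    · have : X.dv α F x = 0 := by
        unfold Cx.dv
        rw [if_pos hM, h0]
      simp [this]
    · have hs := hF x h0
      have hds : x ∈ Y.ds α ↔ Wc X.p Y.c α x := by
        unfold An.ds Cx.dis Cx.disW Cx.disX
        rw [Finset.mem_union, Finset.mem_filter, Finset.mem_filter, hM]
        simp
      by_cases hW : Wc X.p Y.c α x
      · rw [if_neg (fun h => h.2 (hds.2 hW)), if_pos hW, sub_self]
      · rw [if_pos ⟨hs, fun h => hW (hds.1 h)⟩, if_neg hW, sub_zero]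
  · have : X.dv α F x = 0 := by
      unfold Cx.dv
      rw [if_neg hM]
    simp [this]

theorem Acj_dle {δ : ZMod 2} {j r : ℕ} {α : Fin X.s} {P : V → ℝ} (h : X.RF α δ j r P) :
    ∑ x, X.dv α (X.A α δ j P) x ≤ 1 / X.dd ∧ 0 ≤ ∑ x, X.dv α (X.A α δ j P) x := by
  have hn : ∀ a, 0 ≤ X.A α δ j P a := Cx.A_nn (Cx.RF_nn h)
  constructor
  · have h1 : ∑ x, X.dv α (X.A α δ j P) x ≤ ∑ x ∈ X.D, X.A α δ j P x := by
      have e1 : ∑ x, X.dv α (X.A α δ j P) x = ∑ x ∈ univ.filter (fun x => X.M α x = x), X.A α δ j P x := by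
        rw [Finset.sum_filter]
        rfl
      rw [e1]
      refine Finset.sum_le_sum_of_subset_of_nonneg ?_ fun x _ _ => hn x
      intro x hx
      exact X.M_D (Finset.mem_filter.1 hx).2
    refine h1.trans (Cx.A_box (Cx.RF_nn h) (Cx.RF_l1 h) X.D 1 zero_le_one fun b => ?_)
    have := X.R_D α δ j b
    exact_mod_cast this
  · refine Finset.sum_nonneg fun x _ => ?_
    unfold Cx.dv
    split_ifs
    · exact hn x
    · exact le_rfl

/-- block 0 -/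
theorem c0j {j r : ℕ} (hj : j ≤ X.n3) {δ : ZMod 2} {α : Fin X.s} {P : V → ℝ} (h : X.RF α δ j r P)
    (hr : X.n3 ≤ r + 1) : |Cx.pa (X.A α δ j P) (Y.m j 0 δ α) - Y.u α * ∑ x, X.A α δ j P x| ≤
      (j + 1) * (X.N ^ 32 * X.pw (-2)) := by
  induction j generalizing r P with
  | zero =>
    have h1 := Y.c0 h hr
    have hN : (2 : ℝ) ^ 40 ≤ X.N := X.N_big
    have p2 := X.pw_pos (-2)
    have e6 : 2 * (X.N : ℝ) ^ 31 ≤ (X.N : ℝ) ^ 32 := by
      rw [pow_succ (X.N : ℝ) 31, mul_comm]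
      gcongr
      exact le_trans (by norm_num) hN
    have := mul_le_mul_of_nonneg_right e6 p2.le
    push_cast
    linarith
  | succ j ih =>
    have hjn : j < X.n := by
      unfold Cx.n
      unfold Cx.n3 at hj
      omega
    have hj' : j ≤ X.n3 := by omega
    have hP' : X.RF α δ j (r + 1) (X.mv α (X.A α δ (j + 1) P)) := Cx.RF.st δ j r P h
    have hih := ih hj' hP' (by omega)
    have hid := Y.id_st hjn 0 (fun h => isZ_no0 hj h.2) δ α (X.A α δ (j + 1) P)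
    have hst := Y.st_le hjn 0 δ α (Cx.TF.rc α δ j (r + 1) _ hr hP') (Cx.RF_nn hP') (B := 1)
      (fun δ α v => (Y.s0 hj' δ α v).1) (fun δ α v => (Y.s0 hj' δ α v).2.1)
    have her := Y.er0 hj' hP' hr
    have hk2 := Cx.RF_k2 h δ _ (Or.inl rfl)
    have hh := Y.st_h hjn δ α (Cx.TF.ld α δ (j + 1) r P hr h)
    have hij := Y.ij_0 (j := j + 1) (by omega) hj α
    have hl2 := Y.s1.l2 α δ (j + 1) r P h hr
    have hds := Y.Acj_dsum (δ := δ) (α := α) (F := X.A α δ (j + 1) P) (fun a ha => Acj_sup h ha)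
    have hdl := Acj_dle h
    have hu := Y.u_bd α
    have hnum := Acj_num (X := X) hu.1 hu.2
    have hth := (X.th_bd).1
    have pth := X.pw_pos (-(3 : ℝ) / 5)
    have hthp : 0 < X.th := lt_of_lt_of_le pth hth
    have p19 := X.pw_pos (-(19 : ℝ) / 5)
    have hN : (2 : ℝ) ^ 40 ≤ X.N := X.N_big
    have hub : X.ub Y.φ α = Y.u α := rfl
    rw [hub] at hl2
    rw [hid, hij]
    rw [hds] at hh
    set F := X.A α δ (j + 1) P with hF
    set u := Y.u α with hudef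
    set S1 := ∑ b, X.mv α F b * Y.ar j 0 δ α b with hS1
    set S2 := ∑ v ∈ Y.S (j + 1) δ α, X.dv α F v with hS2
    set S3 := ∑ x, X.dv α F x with hS3
    set S4 := ∑ x, (if Wc X.p Y.c α x then X.dv α F x else 0) with hS4
    set S5 := ∑ x, F x with hS5
    set S6 := ∑ x, X.A α δ j (X.mv α F) x with hS6
    set S7 := Cx.pa (X.A α δ j (X.mv α F)) (Y.m j 0 δ α) with hS7
    have q1 : |u * (S6 - S5 + S3)| ≤ u * (X.N ^ 5 / X.dd ^ 2) := by
      rw [abs_mul, abs_of_nonneg hu.1]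
      have : |S6 - S5 + S3| ≤ X.N ^ 5 / X.dd ^ 2 := by
        rw [← abs_neg]
        have e : -(S6 - S5 + S3) = S5 - S3 - S6 := by ring
        rw [e]
        exact hk2
      exact mul_le_mul_of_nonneg_left this hu.1
    have q2 : |u / X.th * (S2 - X.th * (S3 - S4))| ≤ u / X.th * X.pw (-(19 : ℝ) / 5) := by
      have h0 : 0 ≤ u / X.th := div_nonneg hu.1 hthp.le
      rw [abs_mul, abs_of_nonneg h0]
      exact mul_le_mul_of_nonneg_left hh h0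
    have q3 : |u * S4| ≤ u * (u * (1 / X.dd) + 2 * X.N * X.pw (-(19 : ℝ) / 5)) := by
      rw [abs_mul, abs_of_nonneg hu.1]
      refine mul_le_mul_of_nonneg_left ?_ hu.1
      have e1 : |S4| ≤ |S4 - u * S3| + |u * S3| := by
        have e : S4 = (S4 - u * S3) + u * S3 := by ring
        calc |S4| = |(S4 - u * S3) + u * S3| := by rw [← e]
          _ ≤ _ := abs_add_le _ _
      have e2 : |u * S3| ≤ u * (1 / X.dd) := by
        rw [abs_mul, abs_of_nonneg hu.1, abs_of_nonneg hdl.2]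
        exact mul_le_mul_of_nonneg_left hdl.1 hu.1
      linarith
    have key : S1 + u / X.th * S2 - u * S5 =
        (S1 - S7) + (S7 - u * S6) + u * (S6 - S5 + S3) + u / X.th * (S2 - X.th * (S3 - S4)) - u * S4 := by
      field_simp
      ring
    rw [key]
    have t1 := abs_sub ((S1 - S7) + (S7 - u * S6) + u * (S6 - S5 + S3) +
      u / X.th * (S2 - X.th * (S3 - S4))) (u * S4)
    have t2 := abs_add_le ((S1 - S7) + (S7 - u * S6) + u * (S6 - S5 + S3))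
      (u / X.th * (S2 - X.th * (S3 - S4)))
    have t3 := abs_add_le ((S1 - S7) + (S7 - u * S6)) (u * (S6 - S5 + S3))
    have t4 := abs_add_le (S1 - S7) (S7 - u * S6)
    push_cast
    linarith

end An

end Pool.Agent.H2.LN
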