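/-
ROW Ask. The main field in a block.
PROOF. `aa k > 0`, `aa k ≤ pw (-29/50)` (induction on `k`: `pw (-3/20) ≤ 1`, `N^45 pw (-7/5) ≤ pw (-29/50)`), `be k = 2 aa k`. Induction on `j` from `zl k`. `j = zl k`: direction 0: `v ∈ S`: `|m - be k| ≤ aa k = be k / 2` (`Iv.e`), so `m ∈ [be k / 2, 3/2 be k]`; `v ∉ S`: `0` (`TT.sp`, `tt`; `zl k < n`); direction 1: `id_z1`. Then `|y (zl k) b| ≤ (|R b ∩ S| 3/2 be k) / (th dd) ≤ 3/2 (1 + pw (-39/200)) be k` (`TT.t3`). For `zl k < i < zl (k+1)`: no Z-layers,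
`ij i = be k` (`ij_k`), `y_nx`: `|y i b| ≤ sup |y (i-1)| + pw (-19/100) (8/5) be k + be k / (th dd)`; so for all `i` in the block `|y i b| ≤ (3/2 (1 + pw (-39/200)) + N^3 (pw (-19/100) (8/5) + 1 / (th dd))) be k ≤ 1.55 be k`; `m (i+1) v` is `0`, `be k` or `ar i (M v) ≤ y + pw (-97/500) (8/5) be k ≤ 8/5 be k` (`ar_y`, `ar_ne`), nonnegative. (Strong induction: bounds for `m i` and `y i` together.)
-/
import Pool.Agent.H2.LN.LD
import Pool.Agent.H2.LN.L.Ayn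
import Pool.Agent.H2.LN.L.Abk
import Pool.Agent.H2.LN.L.Aid
import Pool.Agent.H2.LN.L.Agn
import Pool.Agent.H2.LN.L.Lvy

set_option autoImplicit false
set_option linter.unusedSectionVars false

namespace Pool.Agent.H2.LN

open Finset Classical
open Pool.Agent.H65.GI

namespace An

variable {V : Type} [Fintype V] {X : Cx V} (Y : An X)

private theorem Ask_aa (X : Cx V) (k : ℕ) : 0 < X.aa k := by
  cases k with
  | zero => exact X.pw_pos _
  | succ k =>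
    refine lt_of_lt_of_le ?_ (le_max_right _ _)
    have h1 : (0 : ℝ) < X.N := lt_of_lt_of_le (by positivity) X.N_big
    exact mul_pos (by positivity) (X.pw_pos _)

private theorem Ask_be (X : Cx V) (k : ℕ) : 0 < X.be k := by
  unfold Cx.be
  have := Ask_aa X k
  linarith

private theorem Ask_zl (X : Cx V) (k : ℕ) : X.zl (k + 1) = X.zl k + X.N ^ 3 := by
  unfold Cx.zl
  ring

private theorem Ask_lt {k j : ℕ} (hk : k < 8) (h2 : j < X.zl (k + 1)) : j < X.n := by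
  unfold Cx.zl at h2
  unfold Cx.n
  have h3 : (k + 1 + 1) * X.N ^ 3 ≤ 9 * X.N ^ 3 := Nat.mul_le_mul_right _ (by omega)
  omega

private theorem Ask_sm (X : Cx V) (k : ℕ) (x : ℝ) (h : ((k + 1 : ℕ) : ℝ) ≤ 40000 * x) :
    (X.N : ℝ) ^ k * X.pw (-x) ≤ 1 / X.N := by
  have hN : (0 : ℝ) < X.N := lt_of_lt_of_le (by positivity) X.N_big
  have h1 := X.pwN (k + 1) x h
  have h2 : X.pw x * X.pw (-x) = 1 := by
    rw [X.pw_add, add_neg_cancel]
    unfold Cx.pw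
    exact Real.rpow_zero _
  have h3 := X.pw_pos (-x)
  rw [le_div_iff₀ hN]
  calc (X.N : ℝ) ^ k * X.pw (-x) * X.N = (X.N : ℝ) ^ (k + 1) * X.pw (-x) := by ring
    _ ≤ X.pw x * X.pw (-x) := mul_le_mul_of_nonneg_right h1 h3.le
    _ = 1 := h2

private theorem Ask_dd (X : Cx V) : 0 < X.dd := by
  have hN : (0 : ℝ) < X.N := lt_of_lt_of_le (by positivity) X.N_big
  exact lt_of_lt_of_le (div_pos (X.pw_pos 1) (by positivity)) X.dd_bd.1

private theorem Ask_th (X : Cx V) : 0 < X.th := lt_of_lt_of_le (X.pw_pos _) X.th_bd.1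

private theorem Ask_td (X : Cx V) : 1 / (X.th * X.dd) ≤ 8 * ((X.N : ℝ) ^ 54 * X.pw (-(2 / 5))) := by
  have hN : (0 : ℝ) < X.N := lt_of_lt_of_le (by positivity) X.N_big
  have h1 := X.th_bd.1
  have h2 := X.dd_bd.1
  have h3 : X.pw (-(3 : ℝ) / 5) * (X.pw 1 / (8 * X.N ^ 54)) ≤ X.th * X.dd :=
    mul_le_mul h1 h2 (div_pos (X.pw_pos 1) (by positivity)).le (Ask_th X).le
  have h4 : X.pw (-(3 : ℝ) / 5) * X.pw 1 = X.pw (2 / 5) := by
    rw [X.pw_add]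
    norm_num
  have h5 : X.pw (2 / 5) * X.pw (-(2 / 5)) = 1 := by
    rw [X.pw_add, add_neg_cancel]
    unfold Cx.pw
    exact Real.rpow_zero _
  have h6 : 0 < X.pw (2 / 5) := X.pw_pos _
  have h8 : X.pw (-(3 : ℝ) / 5) * (X.pw 1 / (8 * X.N ^ 54)) = X.pw (2 / 5) / (8 * X.N ^ 54) := by
    rw [← h4]
    ring
  rw [h8] at h3
  have h9 : 0 < X.pw (2 / 5) / (8 * (X.N : ℝ) ^ 54) := div_pos h6 (by positivity)
  calc 1 / (X.th * X.dd) ≤ 1 / (X.pw (2 / 5) / (8 * (X.N : ℝ) ^ 54)) := one_div_le_one_div_of_le h9 h3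
    _ = 8 * ((X.N : ℝ) ^ 54 * X.pw (-(2 / 5))) := by
        have h10 : X.pw (-(2 / 5)) = 1 / X.pw (2 / 5) := by
          rw [eq_div_iff h6.ne', mul_comm]
          exact h5
        rw [h10]
        field_simp

private theorem Ask_A {α : Fin X.s} {δ : ZMod 2} {j : ℕ} {P : V → ℝ} {C : ℝ} (hC : 0 ≤ C) (h : ∀ x, |P x| ≤ C) (a : V) :
    |X.A α δ j P a| ≤ C := by
  have hd := Ask_dd X
  unfold Cx.A
  rw [abs_div, abs_of_pos hd, div_le_iff₀ hd]
  calc |∑ b ∈ X.R α δ j a, P b| ≤ ∑ b ∈ X.R α δ j a, |P b| := Finset.abs_sum_le_sum_abs _ _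
    _ ≤ ∑ _b ∈ X.R α δ j a, C := Finset.sum_le_sum fun b _ => h b
    _ = ((X.R α δ j a).card : ℝ) * C := by rw [Finset.sum_const, nsmul_eq_mul]
    _ ≤ X.dd * C := mul_le_mul_of_nonneg_right (X.R_card_le α δ j a) hC
    _ = C * X.dd := mul_comm _ _

private theorem Ask_y {j : ℕ} (hj : j < X.n) {B : ℝ} (hB0 : 0 ≤ B)
    (hB : ∀ δ α v, 0 ≤ Y.m j 0 δ α v ∧ Y.m j 0 δ α v ≤ B) (δ : ZMod 2) (α : Fin X.s) (b : V) :
    |Y.y j 0 δ α b| ≤ (1 + X.pw (-(39 : ℝ) / 200)) * B := by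
  have hp : 0 < X.th * X.dd := mul_pos (Ask_th X) (Ask_dd X)
  have h3 := (Y.tt j hj).t3 δ α b
  have hs0 : 0 ≤ ∑ a ∈ (X.R α δ j b).filter (fun a => a ∈ (Y.t j).S δ α), (Y.t j).m 0 δ α a :=
    Finset.sum_nonneg fun a _ => (hB δ α a).1
  have hs1 : ∑ a ∈ (X.R α δ j b).filter (fun a => a ∈ (Y.t j).S δ α), (Y.t j).m 0 δ α a ≤
      (X.th * X.dd * (1 + X.pw (-(39 : ℝ) / 200))) * B := by
    calc ∑ a ∈ (X.R α δ j b).filter (fun a => a ∈ (Y.t j).S δ α), (Y.t j).m 0 δ α a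
        ≤ ∑ _a ∈ (X.R α δ j b).filter (fun a => a ∈ (Y.t j).S δ α), B :=
          Finset.sum_le_sum fun a _ => (hB δ α a).2
      _ = (((X.R α δ j b).filter (fun a => a ∈ (Y.t j).S δ α)).card : ℝ) * B := by
          rw [Finset.sum_const, nsmul_eq_mul]
      _ ≤ _ := mul_le_mul_of_nonneg_right h3 hB0
  show |(∑ a ∈ (X.R α δ j b).filter (fun a => a ∈ (Y.t j).S δ α), (Y.t j).m 0 δ α a) / (X.th * X.dd)| ≤ _
  rw [abs_of_nonneg (div_nonneg hs0 hp.le), div_le_iff₀ hp]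
  calc _ ≤ _ := hs1
    _ = _ := by ring

private theorem Ask_m {j : ℕ} (hz : ¬ X.isZ (j + 1)) (δ : ZMod 2) (α : Fin X.s) (v : V) :
    Y.m (j + 1) 0 δ α v = if v ∈ Y.S (j + 1) δ α then
      (if X.M α v = v then Y.ij (j + 1) 0 α else Y.ar j 0 δ α (X.M α v)) else 0 := by
  show (X.nxt Y.ds Y.u j (Y.t j) (Y.ω (j + 1))).m 0 δ α v = if v ∈ (X.nxt Y.ds Y.u j (Y.t j) (Y.ω (j + 1))).S δ α then _ else 0
  unfold Cx.nxt An.ij An.ar
  simp only [hz, and_false, if_false, if_true]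

private theorem Ask_ar {j : ℕ} {δ : ZMod 2} {α : Fin X.s} (hB : ∀ v, 0 ≤ Y.m j 0 δ α v) (b : V) : 0 ≤ Y.ar j 0 δ α b := by
  unfold An.ar Cx.arr
  exact Finset.sum_nonneg fun a _ => div_nonneg (hB a) (Nat.cast_nonneg _)

private theorem Ask_num (X : Cx V) {i : ℕ} (hi : i ≤ X.N ^ 3) :
    3 / 2 * (1 + X.pw (-(39 : ℝ) / 200)) + i * (8 / 5 * X.pw (-(19 : ℝ) / 100) + 1 / (X.th * X.dd)) ≤ 31 / 20 ∧
      X.pw (-(97 : ℝ) / 500) ≤ 1 / 1000 := by
  have hN := X.N_big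
  have hN0 : (0 : ℝ) < X.N := lt_of_lt_of_le (by positivity) hN
  have hN1 : 1 / (X.N : ℝ) ≤ 1 / 2 ^ 40 := one_div_le_one_div_of_le (by positivity) hN
  have h1 := Ask_sm X 0 (39 / 200) (by norm_num)
  have h2 := Ask_sm X 3 (19 / 100) (by norm_num)
  have h3 := Ask_sm X 0 (97 / 500) (by norm_num)
  have h4 := Ask_sm X 57 (2 / 5) (by norm_num)
  have h5 := Ask_td X
  have e1 : -(39 / 200 : ℝ) = -39 / 200 := by norm_num
  have e2 : -(19 / 100 : ℝ) = -19 / 100 := by norm_num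
  have e3 : -(97 / 500 : ℝ) = -97 / 500 := by norm_num
  rw [e1] at h1
  rw [e2] at h2
  rw [e3] at h3
  rw [pow_zero, one_mul] at h1 h3
  have hi' : (i : ℝ) ≤ (X.N : ℝ) ^ 3 := by exact_mod_cast hi
  have hD0 : 0 ≤ 8 / 5 * X.pw (-(19 : ℝ) / 100) + 1 / (X.th * X.dd) := by
    have := X.pw_pos (-(19 : ℝ) / 100)
    have := mul_pos (Ask_th X) (Ask_dd X)
    positivity
  have h6 : (i : ℝ) * (8 / 5 * X.pw (-(19 : ℝ) / 100) + 1 / (X.th * X.dd)) ≤
      (X.N : ℝ) ^ 3 * (8 / 5 * X.pw (-(19 : ℝ) / 100) + 1 / (X.th * X.dd)) := mul_le_mul_of_nonneg_right hi' hD0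
  have h7 : (X.N : ℝ) ^ 3 * (1 / (X.th * X.dd)) ≤ 8 * ((X.N : ℝ) ^ 57 * X.pw (-(2 / 5))) := by
    calc (X.N : ℝ) ^ 3 * (1 / (X.th * X.dd)) ≤ (X.N : ℝ) ^ 3 * (8 * ((X.N : ℝ) ^ 54 * X.pw (-(2 / 5)))) :=
          mul_le_mul_of_nonneg_left h5 (by positivity)
      _ = 8 * ((X.N : ℝ) ^ 57 * X.pw (-(2 / 5))) := by ring
  have h8 : (X.N : ℝ) ^ 3 * (8 / 5 * X.pw (-(19 : ℝ) / 100) + 1 / (X.th * X.dd)) =
      8 / 5 * ((X.N : ℝ) ^ 3 * X.pw (-(19 : ℝ) / 100)) + (X.N : ℝ) ^ 3 * (1 / (X.th * X.dd)) := by ring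
  rw [h8] at h6
  have hN2 : 1 / (X.N : ℝ) ≤ 1 / 1000000 := hN1.trans (by norm_num)
  constructor
  · linarith
  · linarith

private theorem Ask_main {k : ℕ} (hk : k < 8) (h : Y.Iv k) (i : ℕ) : X.zl k + i < X.zl (k + 1) →
    (∀ (δ : ZMod 2) (α : Fin X.s) (v : V), 0 ≤ Y.m (X.zl k + i) 0 δ α v ∧ Y.m (X.zl k + i) 0 δ α v ≤ 8 / 5 * X.be k) ∧
    ∀ (δ : ZMod 2) (α : Fin X.s) (b : V), |Y.y (X.zl k + i) 0 δ α b| ≤
      (3 / 2 * (1 + X.pw (-(39 : ℝ) / 200)) + i * (8 / 5 * X.pw (-(19 : ℝ) / 100) + 1 / (X.th * X.dd))) * X.be k := by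
  have hbe := Ask_be X k
  have haa : X.be k = 2 * X.aa k := rfl
  induction i with
  | zero =>
    intro hlt
    rw [add_zero] at hlt ⊢
    have hn : X.zl k < X.n := Ask_lt hk hlt
    have hm : ∀ (δ : ZMod 2) (α : Fin X.s) (v : V), 0 ≤ Y.m (X.zl k) 0 δ α v ∧ Y.m (X.zl k) 0 δ α v ≤ 3 / 2 * X.be k := by
      intro δ α v
      have hδ : δ = 0 ∨ δ = 1 := by
        revert δ
        decide
      rcases hδ with rfl | rfl
      · by_cases hv : v ∈ Y.S (X.zl k) 0 α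
        · have h1 := abs_le.mp (h.e α v hv)
          constructor
          · linarith [h1.1]
          · linarith [h1.2]
        · have h1 : Y.m (X.zl k) 0 0 α v = 0 := (Y.tt _ hn).sp 0 0 α v hv
          rw [h1]
          exact ⟨le_refl _, by linarith⟩
      · rw [Y.id_z1 hk α v]
        split_ifs
        · exact ⟨hbe.le, by linarith⟩
        · exact ⟨le_refl _, by linarith⟩
    refine ⟨fun δ α v => ⟨(hm δ α v).1, (hm δ α v).2.trans (by linarith)⟩, ?_⟩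
    intro δ α b
    have h1 := Ask_y Y hn (by linarith : (0 : ℝ) ≤ 3 / 2 * X.be k) hm δ α b
    rw [Nat.cast_zero, zero_mul, add_zero]
    calc _ ≤ _ := h1
      _ = _ := by ring
  | succ i ih =>
    intro hlt
    have hlt' : X.zl k + i < X.zl (k + 1) := by omega
    obtain ⟨ihm, ihy⟩ := ih hlt'
    have hn' : X.zl k + i < X.n := Ask_lt hk hlt'
    have hn : X.zl k + i + 1 < X.n := Ask_lt hk hlt
    have hz : ¬ X.isZ (X.zl k + i + 1) := isZ_no (by omega) hlt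
    have hij : ∀ α, Y.ij (X.zl k + i + 1) 0 α = X.be k := fun α => Y.ij_k (by omega) hlt α
    have hi3 : i ≤ X.N ^ 3 := by
      rw [Ask_zl] at hlt
      omega
    have hB : ∀ δ α a, |Y.m (X.zl k + i) 0 δ α a| ≤ 8 / 5 * X.be k := fun δ α a => by
      rw [abs_of_nonneg (ihm δ α a).1]
      exact (ihm δ α a).2
    have hnum := Ask_num X hi3
    have e0 : X.zl k + (i + 1) = X.zl k + i + 1 := by omega
    rw [e0]
    constructor
    · intro δ α v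
      rw [Ask_m Y hz δ α v]
      split_ifs with hv hM
      · rw [hij]
        exact ⟨hbe.le, by linarith⟩
      · refine ⟨Ask_ar Y (fun v => (ihm δ α v).1) _, ?_⟩
        have h1 := (Y.S_succ (X.zl k + i) δ α v).mp hv
        have h2 := Y.ac_M h1.2
        have h3 : X.sd α (X.M α v) = δ + 1 := by rw [X.M_sd hM, h1.1]
        have h4 := (abs_le.mp (Y.ar_y hn' 0 hB δ α (X.M α v) h2 h3)).2
        have h5 := (abs_le.mp (ihy δ α (X.M α v))).2
        have h6 : (3 / 2 * (1 + X.pw (-(39 : ℝ) / 200)) + i * (8 / 5 * X.pw (-(19 : ℝ) / 100) + 1 / (X.th * X.dd))) * X.be k ≤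
            31 / 20 * X.be k := mul_le_mul_of_nonneg_right hnum.1 hbe.le
        have h7 : X.pw (-(97 : ℝ) / 500) * (8 / 5 * X.be k) ≤ 1 / 1000 * (8 / 5 * X.be k) :=
          mul_le_mul_of_nonneg_right hnum.2 (by linarith)
        linarith
      · exact ⟨le_refl _, by linarith⟩
    · intro δ α b
      have h1 := Y.y_nx hn 0 (fun hh => hz hh.2) hB δ α b
      rw [hij, abs_of_pos hbe] at h1
      have hC0 : 0 ≤ (3 / 2 * (1 + X.pw (-(39 : ℝ) / 200)) + i * (8 / 5 * X.pw (-(19 : ℝ) / 100) + 1 / (X.th * X.dd))) * X.be k := by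
        have := X.pw_pos (-(19 : ℝ) / 100)
        have := X.pw_pos (-(39 : ℝ) / 200)
        have := mul_pos (Ask_th X) (Ask_dd X)
        positivity
      have h2 := Ask_A (X := X) (α := α) (δ := δ) (j := X.zl k + i + 1) (P := X.mv α (Y.y (X.zl k + i) 0 δ α)) hC0 (fun x => by
        unfold Cx.mv
        split_ifs
        · exact ihy δ α _
        · rw [abs_zero]
          exact hC0) b
      have h3 := abs_sub_abs_le_abs_sub (Y.y (X.zl k + i + 1) 0 δ α b)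
        (X.A α δ (X.zl k + i + 1) (X.mv α (Y.y (X.zl k + i) 0 δ α)) b)
      have h4 : X.be k / (X.th * X.dd) = 1 / (X.th * X.dd) * X.be k := by ring
      rw [h4] at h1
      push_cast
      linarith

/-- bounds in block `k + 1` -/
theorem sk {k j : ℕ} (hk : k < 8) (h : Y.Iv k) (h1 : X.zl k ≤ j) (h2 : j < X.zl (k + 1)) (δ : ZMod 2)
    (α : Fin X.s) (v : V) : 0 ≤ Y.m j 0 δ α v ∧ Y.m j 0 δ α v ≤ 8 / 5 * X.be k := by
  obtain ⟨i, rfl⟩ := Nat.exists_eq_add_of_le h1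
  exact (Ask_main Y hk h i h2).1 δ α v

end An

end Pool.Agent.H2.LN
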