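/-
ROW Aek. The error functions in a block.
PROOF. `j ≥ zl k ≥ 1`, `j = j' + 1`, `j' < n`. `m j 0 δ α v ≤ 8/5 be k [v ∈ S j δ α]` (`sk`, `TT.sp` by `tt`; `zl (k+1) ≤ n` for `k < 8`), `F ≥ 0` (`EF_nn`): `pa F m ≤ 8/5 be k ∑_{S} F ≤ 8/5 be k (th ∑ F + pw (-19/5))` (`st_h` with `TF.es`), `∑ F ≤ 8 kd / dd` (`EF_l1`, `Y.kd`). `be k ≤ 2 pw (-29/50)`, `th ≤ 1.01 pw (-3/5)`, `kd / dd ≤ 8 N^106 pw (-1)`: `≤ 300 N^106 pw (-109/50) + .. ≤ pw (-43/20)` (`pwN` with `x = 3/100`).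
-/
import Pool.Agent.H2.LN.LD
import Pool.Agent.H2.LN.L.Ask
import Pool.Agent.H2.LN.L.Ast
import Pool.Agent.H2.LN.L.Lef

set_option autoImplicit false
set_option linter.unusedSectionVars false

namespace Pool.Agent.H2.LN

open Finset Classical
open Pool.Agent.H65.GI

namespace Cx

variable {V : Type} [Fintype V] (X : Cx V)

theorem Aek_one {x : ℝ} (hx : 0 ≤ x) : 1 ≤ X.pw x := by
  have h := X.pwN 0 x (by push_cast; linarith)
  simpa using h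

theorem Aek_le1 {x : ℝ} (hx : x ≤ 0) : X.pw x ≤ 1 := by
  have h0 : X.pw x * X.pw (-x) = 1 := by
    rw [X.pw_add]
    simp [Cx.pw]
  have h1 := X.Aek_one (x := -x) (by linarith)
  have h2 := X.pw_pos x
  nlinarith

theorem Aek_aa (k : ℕ) : X.aa k ≤ X.pw (-(29 : ℝ) / 50) := by
  induction k with
  | zero => exact le_refl _
  | succ k ih =>
    show max (X.pw (-(3 : ℝ) / 20) * X.aa k) ((X.N : ℝ) ^ 45 * X.pw (-(7 : ℝ) / 5)) ≤ _
    apply max_le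
    · have h1 := X.Aek_le1 (x := -(3 : ℝ) / 20) (by norm_num)
      have h2 := X.pw_pos (-(3 : ℝ) / 20)
      have h3 := X.pw_pos (-(29 : ℝ) / 50)
      calc X.pw (-(3 : ℝ) / 20) * X.aa k ≤ X.pw (-(3 : ℝ) / 20) * X.pw (-(29 : ℝ) / 50) :=
            mul_le_mul_of_nonneg_left ih h2.le
        _ ≤ 1 * X.pw (-(29 : ℝ) / 50) := mul_le_mul_of_nonneg_right h1 h3.le
        _ = X.pw (-(29 : ℝ) / 50) := one_mul _
    · have h1 := X.pwN 45 (41 / 50) (by norm_num)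
      have h2 := X.pw_pos (-(7 : ℝ) / 5)
      calc (X.N : ℝ) ^ 45 * X.pw (-(7 : ℝ) / 5) ≤ X.pw (41 / 50) * X.pw (-(7 : ℝ) / 5) :=
            mul_le_mul_of_nonneg_right h1 h2.le
        _ = X.pw (-(29 : ℝ) / 50) := by rw [X.pw_add]; norm_num

theorem Aek_aa0 (k : ℕ) : 0 < X.aa k := by
  induction k with
  | zero => exact X.pw_pos _
  | succ k ih =>
    show 0 < max (X.pw (-(3 : ℝ) / 20) * X.aa k) ((X.N : ℝ) ^ 45 * X.pw (-(7 : ℝ) / 5))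
    exact lt_max_of_lt_left (mul_pos (X.pw_pos _) ih)

theorem Aek_dd : 0 < X.dd := by
  have hN : (0 : ℝ) < X.N := lt_of_lt_of_le (by positivity) X.N_big
  have h := X.dd_bd.1
  have h1 := X.pw_pos 1
  exact lt_of_lt_of_le (by positivity) h

/-- `kd / dd` -/
theorem Aek_kd : 8 * (X.kd : ℝ) / X.dd ≤ 64 * (X.N : ℝ) ^ 106 * X.pw (-1) := by
  have hN : (0 : ℝ) < X.N := lt_of_lt_of_le (by positivity) X.N_big
  have hd := X.Aek_dd
  have h := X.dd_bd.1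
  have h1 := X.pw_pos 1
  have h0 : X.pw (-1) * X.pw 1 = 1 := by
    rw [X.pw_add]
    simp [Cx.pw]
  have hm := X.pw_pos (-1)
  rw [div_le_iff₀ hd]
  have hk : (X.kd : ℝ) = (X.N : ℝ) ^ 52 := by
    simp [Cx.kd]
  rw [hk]
  have h2 : 64 * (X.N : ℝ) ^ 106 * X.pw (-1) * (X.pw 1 / (8 * (X.N : ℝ) ^ 54)) ≤
      64 * (X.N : ℝ) ^ 106 * X.pw (-1) * X.dd :=
    mul_le_mul_of_nonneg_left h (by positivity)
  refine le_trans (le_of_eq ?_) h2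
  have h3 : 64 * (X.N : ℝ) ^ 106 * X.pw (-1) * (X.pw 1 / (8 * (X.N : ℝ) ^ 54)) =
      8 * (X.N : ℝ) ^ 52 * (X.pw (-1) * X.pw 1) := by
    field_simp
    ring
  rw [h3, h0, mul_one]

theorem Aek_num (b : ℝ) (S : ℝ) (hb0 : 0 ≤ b) (hb : b ≤ 2 * X.pw (-(29 : ℝ) / 50)) (hS0 : 0 ≤ S)
    (hS : S ≤ 8 * (X.kd : ℝ) / X.dd) :
    8 / 5 * b * (X.th * S + X.pw (-(19 : ℝ) / 5)) ≤ X.pw (-(43 : ℝ) / 20) := by
  have hN := X.N_big
  have hN0 : (0 : ℝ) < X.N := lt_of_lt_of_le (by positivity) hN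
  have hN1 : (1 : ℝ) ≤ X.N := le_trans (by norm_num) hN
  have ht := X.th_bd.2.1
  have hp1 := X.pw_pos (-(3 : ℝ) / 5)
  have hp2 := X.pw_pos (-1)
  have hp3 := X.pw_pos (-(29 : ℝ) / 50)
  have hp4 := X.pw_pos (-(19 : ℝ) / 5)
  have hp5 := X.pw_pos (-(109 : ℝ) / 50)
  have hS' := le_trans hS X.Aek_kd
  have h1 : X.th * S ≤ (101 / 100 * X.pw (-(3 : ℝ) / 5)) * (64 * (X.N : ℝ) ^ 106 * X.pw (-1)) :=
    mul_le_mul ht hS' hS0 (by positivity)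
  have e1 : X.pw (-(3 : ℝ) / 5) * X.pw (-1) = X.pw (-(8 : ℝ) / 5) := by
    rw [X.pw_add]; norm_num
  have e2 : X.pw (-(29 : ℝ) / 50) * X.pw (-(8 : ℝ) / 5) = X.pw (-(109 : ℝ) / 50) := by
    rw [X.pw_add]; norm_num
  have e3 : X.pw (-(29 : ℝ) / 50) * X.pw (-(19 : ℝ) / 5) ≤ X.pw (-(109 : ℝ) / 50) := by
    have h := X.Aek_le1 (x := -(11 : ℝ) / 5) (by norm_num)
    have e : X.pw (-(29 : ℝ) / 50) * X.pw (-(19 : ℝ) / 5) =
        X.pw (-(109 : ℝ) / 50) * X.pw (-(11 : ℝ) / 5) := by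
      rw [X.pw_add, X.pw_add]; norm_num
    rw [e]
    nlinarith
  have h2 : 8 / 5 * b * (X.th * S + X.pw (-(19 : ℝ) / 5)) ≤
      8 / 5 * (2 * X.pw (-(29 : ℝ) / 50)) *
        ((101 / 100 * X.pw (-(3 : ℝ) / 5)) * (64 * (X.N : ℝ) ^ 106 * X.pw (-1)) +
          X.pw (-(19 : ℝ) / 5)) := by
    apply mul_le_mul
    · linarith
    · linarith
    · have : 0 ≤ X.th := le_trans hp1.le X.th_bd.1
      positivity
    · positivity
  refine le_trans h2 ?_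
  have h3 : 8 / 5 * (2 * X.pw (-(29 : ℝ) / 50)) *
        ((101 / 100 * X.pw (-(3 : ℝ) / 5)) * (64 * (X.N : ℝ) ^ 106 * X.pw (-1)) +
          X.pw (-(19 : ℝ) / 5)) =
      (16 / 5 * (101 / 100) * 64) * (X.N : ℝ) ^ 106 * (X.pw (-(29 : ℝ) / 50) *
        (X.pw (-(3 : ℝ) / 5) * X.pw (-1))) +
        16 / 5 * (X.pw (-(29 : ℝ) / 50) * X.pw (-(19 : ℝ) / 5)) := by
    ring
  rw [h3, e1, e2]
  have h4 : (1 : ℝ) ≤ (X.N : ℝ) ^ 106 := one_le_pow₀ hN1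
  have h5 : (16 / 5 * (101 / 100) * 64) * (X.N : ℝ) ^ 106 * X.pw (-(109 : ℝ) / 50) +
      16 / 5 * (X.pw (-(29 : ℝ) / 50) * X.pw (-(19 : ℝ) / 5)) ≤
      (300 * (X.N : ℝ) ^ 106) * X.pw (-(109 : ℝ) / 50) := by
    have h6 : X.pw (-(109 : ℝ) / 50) ≤ (X.N : ℝ) ^ 106 * X.pw (-(109 : ℝ) / 50) := by
      nlinarith
    have h7 : 0 ≤ (X.N : ℝ) ^ 106 * X.pw (-(109 : ℝ) / 50) := by positivity
    nlinarith
  refine le_trans h5 ?_
  have h8 : 300 * (X.N : ℝ) ^ 106 ≤ (X.N : ℝ) ^ 107 := by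
    rw [pow_succ (X.N : ℝ) 106, mul_comm]
    apply mul_le_mul_of_nonneg_left _ (by positivity)
    exact le_trans (by norm_num) hN
  have h9 := X.pwN 107 (3 / 100) (by norm_num)
  calc (300 * (X.N : ℝ) ^ 106) * X.pw (-(109 : ℝ) / 50) ≤ X.pw (3 / 100) * X.pw (-(109 : ℝ) / 50) :=
        mul_le_mul_of_nonneg_right (le_trans h8 h9) hp5.le
    _ = X.pw (-(43 : ℝ) / 20) := by rw [X.pw_add]; norm_num

end Cx

namespace An

variable {V : Type} [Fintype V] {X : Cx V} (Y : An X)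

/-- the error functions in block `k + 1` -/
theorem erk {k j : ℕ} (hk : k < 8) (h : Y.Iv k) (h1 : X.zl k ≤ j) (h2 : j < X.zl (k + 1)) {δ : ZMod 2}
    {α : Fin X.s} {F : V → ℝ} (hF : X.EF Y.c Y.Rc α δ j F) :
    Cx.pa F (Y.m j 0 δ α) ≤ X.pw (-(43 : ℝ) / 20) := by
  have hjn : j < X.n := by
    refine lt_of_lt_of_le h2 ?_
    unfold Cx.zl Cx.n
    have : (k + 1 + 1) * X.N ^ 3 ≤ 9 * X.N ^ 3 := Nat.mul_le_mul_right _ (by omega)
    omega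
  have hj1 : 1 ≤ j := le_trans (by unfold Cx.zl; omega) h1
  have hsp := (Y.tt j hjn).sp
  have hsk := Y.sk hk h h1 h2 δ α
  have hFn := Cx.EF_nn hF
  have hb0 : 0 ≤ X.be k := by
    unfold Cx.be
    have := X.Aek_aa0 k
    linarith
  have hb1 : X.be k ≤ 2 * X.pw (-(29 : ℝ) / 50) := by
    unfold Cx.be
    have := X.Aek_aa k
    linarith
  -- the bound by the senders
  have hA : Cx.pa F (Y.m j 0 δ α) ≤ 8 / 5 * X.be k * ∑ x ∈ Y.S j δ α, F x := by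
    unfold Cx.pa
    rw [Finset.mul_sum, ← Finset.sum_subset (Finset.subset_univ (Y.S j δ α))]
    · apply Finset.sum_le_sum
      intro v _
      rw [mul_comm (F v)]
      exact mul_le_mul_of_nonneg_right (hsk v).2 (hFn v)
    · intro v _ hv
      have : Y.m j 0 δ α v = 0 := hsp 0 δ α v hv
      rw [this, mul_zero]
  -- the senders and the test function
  have hB : ∑ x ∈ Y.S j δ α, F x ≤ X.th * ∑ x, F x + X.pw (-(19 : ℝ) / 5) := by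
    obtain ⟨j', rfl⟩ : ∃ j', j = j' + 1 := ⟨j - 1, by omega⟩
    have hh := (abs_le.mp (Y.st_h (by omega : j' < X.n) δ α (Cx.TF.es α δ (j' + 1) F hF))).2
    have hth : 0 ≤ X.th := le_trans (X.pw_pos _).le X.th_bd.1
    have hs : ∑ x ∈ univ.filter (fun x => X.sd α x = δ ∧ x ∉ Y.ds α), F x ≤ ∑ x, F x :=
      Finset.sum_le_sum_of_subset_of_nonneg (Finset.filter_subset _ _) (fun x _ _ => hFn x)
    have := mul_le_mul_of_nonneg_left hs hth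
    linarith
  have hC : 0 ≤ ∑ x, F x := Finset.sum_nonneg (fun x _ => hFn x)
  have hD := Cx.EF_l1 hF Y.kd
  calc Cx.pa F (Y.m j 0 δ α) ≤ 8 / 5 * X.be k * ∑ x ∈ Y.S j δ α, F x := hA
    _ ≤ 8 / 5 * X.be k * (X.th * ∑ x, F x + X.pw (-(19 : ℝ) / 5)) :=
        mul_le_mul_of_nonneg_left hB (by positivity)
    _ ≤ X.pw (-(43 : ℝ) / 20) := X.Aek_num (X.be k) (∑ x, F x) hb0 hb1 hC hD

end An

end Pool.Agent.H2.LN
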