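/-
ROW Ack. The masses in a block.
PROOF. Induction on `j` from `zl k` (all `r, P`). `j = zl k`, `δ = 0`: `Iv.c`. `δ = 1`: `m = be k [v ∈ S]` (`id_z1`), `F = A 1 (zl k) P` is supported on `sd = 1`: `pa F m = be k ∑_S F = be k (th ∑_{∉ ds} F ± pw (-19/5))` (`st_h`, `TF.ls`), `∑_{ds} F ≤ kd / dd` (`A_box`): error `be k (th kd / dd + pw (-19/5)) ≤ pw (-43/20)`. Step `j → j + 1 < zl (k+1)`: as in Acj: `F = A δ (j+1) P`, `P' = mv F`, `id_st` (`isZ_no`), `st_le` (`B = 8/5 be k ≤ 1`, `sk`), `erk` for `gE P'` (`EF.bs`),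
IH for `P'`; `ij = be k`: `be k ∑_{S} dv F = be k (th ∑_{∉ ds} dv F ± pw (-19/5))`, `∑_{ds} dv F ≤ ∑ dv F ≤ ∑_{D} F ≤ 1 / dd`; `RF_k2`. The new errors: `pw (-43/20) + pw (-19/5) + be k (pw (-19/5) + th / dd + th N^5 / dd^2) ≤ 3 pw (-43/20)`.
-/
import Pool.Agent.H2.LN.LD
import Pool.Agent.H2.LN.L.Aek
import Pool.Agent.H2.LN.L.Aid
import Pool.Agent.H2.LN.L.Lrb

set_option autoImplicit false
set_option linter.unusedSectionVars false

namespace Pool.Agent.H2.LN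

open Finset Classical
open Pool.Agent.H65.GI

namespace An

variable {V : Type} [Fintype V] {X : Cx V} (Y : An X)

/-- `a_k` is between `0` and `pw (-29/50)` -/
theorem Ack_aa (X : Cx V) (k : ℕ) : 0 < X.aa k ∧ X.aa k ≤ X.pw (-(29 : ℝ) / 50) := by
  induction k with
  | zero => exact ⟨X.pw_pos _, le_refl _⟩
  | succ k ih =>
    have hN : (0 : ℝ) < X.N := lt_of_lt_of_le (by positivity) X.N_big
    have e1 : X.pw (-(3 : ℝ) / 20) ≤ 1 := by
      have h1 : X.pw (-(3 : ℝ) / 20) * X.pw (3 / 20) = 1 := by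
        rw [X.pw_add]
        have : -(3 : ℝ) / 20 + 3 / 20 = 0 := by norm_num
        rw [this]
        exact Real.rpow_zero _
      have h2 : (1 : ℝ) ≤ X.pw (3 / 20) := by
        have := X.pwN 0 (3 / 20) (by norm_num)
        simpa using this
      nlinarith [X.pw_pos (-(3 : ℝ) / 20)]
    have e2 : (X.N : ℝ) ^ 45 * X.pw (-(7 : ℝ) / 5) ≤ X.pw (-(29 : ℝ) / 50) := by
      have h1 : X.pw (41 / 50) * X.pw (-(7 : ℝ) / 5) = X.pw (-(29 : ℝ) / 50) := by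
        rw [X.pw_add]
        congr 1
        norm_num
      rw [← h1]
      exact mul_le_mul_of_nonneg_right (X.pwN 45 (41 / 50) (by norm_num)) (X.pw_pos _).le
    have h3 : X.aa (k + 1) = max (X.pw (-(3 : ℝ) / 20) * X.aa k) ((X.N : ℝ) ^ 45 * X.pw (-(7 : ℝ) / 5)) := rfl
    rw [h3]
    refine ⟨lt_max_of_lt_left (mul_pos (X.pw_pos _) ih.1), max_le ?_ e2⟩
    calc X.pw (-(3 : ℝ) / 20) * X.aa k ≤ 1 * X.aa k := mul_le_mul_of_nonneg_right e1 ih.1.le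
      _ ≤ _ := by rw [one_mul]; exact ih.2

theorem Ack_be (X : Cx V) (k : ℕ) : 0 < X.be k ∧ X.be k ≤ 2 * X.pw (-(29 : ℝ) / 50) := by
  have := Ack_aa X k
  unfold Cx.be
  constructor <;> linarith [this.1, this.2]

theorem Ack_dd (X : Cx V) : 0 < X.dd ∧ 1 / X.dd ≤ 8 * X.N ^ 54 * X.pw (-1) ∧ 1 ≤ X.dd := by
  have hN : (0 : ℝ) < X.N := lt_of_lt_of_le (by positivity) X.N_big
  have h1 := X.dd_bd.1
  have hp : (0 : ℝ) < X.pw 1 / (8 * X.N ^ 54) := div_pos (X.pw_pos 1) (by positivity)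
  have hd : 0 < X.dd := lt_of_lt_of_le hp h1
  refine ⟨hd, ?_, ?_⟩
  · have h2 : X.pw 1 * X.pw (-1) = 1 := by
      rw [X.pw_add]
      have : (1 : ℝ) + -1 = 0 := by norm_num
      rw [this]
      exact Real.rpow_zero _
    have h3 : 1 / X.dd ≤ 1 / (X.pw 1 / (8 * X.N ^ 54)) := one_div_le_one_div_of_le hp h1
    have h4 : 1 / (X.pw 1 / (8 * X.N ^ 54)) = 8 * X.N ^ 54 * X.pw (-1) := by
      have hp1 := X.pw_pos 1
      have h5 : X.pw (-1) = 1 / X.pw 1 := by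
        field_simp
        linarith [h2]
      rw [h5]
      field_simp
    rw [h4] at h3
    exact h3
  · have h5 : (0 : ℝ) < (d0 X.N X.Δ : ℝ) := hd
    have h6 : 0 < d0 X.N X.Δ := by exact_mod_cast h5
    have h7 : (1 : ℝ) ≤ (d0 X.N X.Δ : ℝ) := by exact_mod_cast h6
    exact h7

/-- numbers -/
theorem Ack_n1 (X : Cx V) (k : ℕ) :
    X.be k * (X.th * (X.N ^ 53 / X.dd)) ≤ X.pw (-(43 : ℝ) / 20) / 2 := by
  have hN : (2 : ℝ) ^ 40 ≤ X.N := X.N_big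
  have hN0 : (0 : ℝ) < X.N := lt_of_lt_of_le (by positivity) hN
  obtain ⟨hd, hd1, _⟩ := Ack_dd X
  obtain ⟨hb0, hb⟩ := Ack_be X k
  have ht := X.th_bd.2.1
  have ht0 : 0 < X.th := lt_of_lt_of_le (X.pw_pos _) X.th_bd.1
  have h1 : (X.N : ℝ) ^ 53 / X.dd ≤ X.N ^ 53 * (8 * X.N ^ 54 * X.pw (-1)) := by
    have : (X.N : ℝ) ^ 53 / X.dd = X.N ^ 53 * (1 / X.dd) := by ring
    rw [this]
    exact mul_le_mul_of_nonneg_left hd1 (by positivity)
  have h2 : X.be k * (X.th * (X.N ^ 53 / X.dd)) ≤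
      (2 * X.pw (-(29 : ℝ) / 50)) * ((101 / 100 * X.pw (-(3 : ℝ) / 5)) *
        (X.N ^ 53 * (8 * X.N ^ 54 * X.pw (-1)))) := by
    have p1 := X.pw_pos (-(29 : ℝ) / 50)
    have p2 := X.pw_pos (-(3 : ℝ) / 5)
    have p3 := X.pw_pos (-1)
    apply mul_le_mul hb _ (by positivity) (by positivity)
    apply mul_le_mul ht h1 (by positivity) (by positivity)
  have h3 : X.pw (-(29 : ℝ) / 50) * X.pw (-(3 : ℝ) / 5) * X.pw (-1) =
      X.pw (-(43 : ℝ) / 20) * X.pw (-(3 : ℝ) / 100) := by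
    rw [X.pw_add, X.pw_add, X.pw_add]
    congr 1
    norm_num
  have h4 : (X.N : ℝ) ^ 108 * X.pw (-(3 : ℝ) / 100) ≤ 1 := by
    have h5 : X.pw (3 / 100) * X.pw (-(3 : ℝ) / 100) = 1 := by
      rw [X.pw_add]
      have : (3 : ℝ) / 100 + -3 / 100 = 0 := by norm_num
      rw [this]
      exact Real.rpow_zero _
    rw [← h5]
    exact mul_le_mul_of_nonneg_right (X.pwN 108 (3 / 100) (by norm_num)) (X.pw_pos _).le
  have h5 : (2 * X.pw (-(29 : ℝ) / 50)) * ((101 / 100 * X.pw (-(3 : ℝ) / 5)) *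
        (X.N ^ 53 * (8 * X.N ^ 54 * X.pw (-1)))) =
      (1616 / 100 * X.N ^ 107) * (X.pw (-(29 : ℝ) / 50) * X.pw (-(3 : ℝ) / 5) * X.pw (-1)) := by
    ring
  have h6 : 1616 / 100 * (X.N : ℝ) ^ 107 ≤ X.N ^ 108 / 2 := by
    have : (X.N : ℝ) ^ 108 = X.N ^ 107 * X.N := by ring
    rw [this]
    have h7 : (0 : ℝ) < (X.N : ℝ) ^ 107 := by positivity
    nlinarith
  rw [h5, h3] at h2
  have q1 := X.pw_pos (-(43 : ℝ) / 20)
  have q2 := X.pw_pos (-(3 : ℝ) / 100)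
  calc _ ≤ 1616 / 100 * (X.N : ℝ) ^ 107 * (X.pw (-(43 : ℝ) / 20) * X.pw (-(3 : ℝ) / 100)) := h2
    _ ≤ X.N ^ 108 / 2 * (X.pw (-(43 : ℝ) / 20) * X.pw (-(3 : ℝ) / 100)) :=
      mul_le_mul_of_nonneg_right h6 (by positivity)
    _ = (X.N ^ 108 * X.pw (-(3 : ℝ) / 100)) * X.pw (-(43 : ℝ) / 20) / 2 := by ring
    _ ≤ 1 * X.pw (-(43 : ℝ) / 20) / 2 := by
      apply div_le_div_of_nonneg_right _ (by norm_num)
      exact mul_le_mul_of_nonneg_right h4 q1.le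
    _ = _ := by ring

theorem Ack_n2 (X : Cx V) (k : ℕ) :
    X.be k * X.pw (-(19 : ℝ) / 5) ≤ X.pw (-(43 : ℝ) / 20) / 4 := by
  have hN : (2 : ℝ) ^ 40 ≤ X.N := X.N_big
  have hN0 : (0 : ℝ) < X.N := lt_of_lt_of_le (by positivity) hN
  obtain ⟨hb0, hb⟩ := Ack_be X k
  have hz : ∀ x : ℝ, 1 ≤ 40000 * x → X.pw (-x) ≤ 1 / X.N := by
    intro x hx
    have h1 := X.pwN 1 x (by simpa using hx)
    have h2 : X.pw x * X.pw (-x) = 1 := by
      rw [X.pw_add, add_neg_cancel]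
      exact Real.rpow_zero _
    have h3 := X.pw_pos (-x)
    rw [le_div_iff₀ hN0]
    rw [pow_one] at h1
    nlinarith
  have h1 : X.be k ≤ 1 := by
    have h2 := hz (29 / 50) (by norm_num)
    have h3 : -((29 : ℝ) / 50) = -(29 : ℝ) / 50 := by norm_num
    rw [h3] at h2
    have h4 : 1 / (X.N : ℝ) ≤ 1 / 2 ^ 40 := one_div_le_one_div_of_le (by positivity) hN
    have h5 : (1 : ℝ) / 2 ^ 40 ≤ 1 / 2 := by norm_num
    linarith
  have h2 : X.pw (-(19 : ℝ) / 5) = X.pw (-(43 : ℝ) / 20) * X.pw (-(33 / 20)) := by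
    rw [X.pw_add]
    congr 1
    norm_num
  have h3 : X.pw (-(33 / 20)) ≤ 1 / 4 := by
    have h2 := hz (33 / 20) (by norm_num)
    have h4 : 1 / (X.N : ℝ) ≤ 1 / 2 ^ 40 := one_div_le_one_div_of_le (by positivity) hN
    have h5 : (1 : ℝ) / 2 ^ 40 ≤ 1 / 4 := by norm_num
    linarith
  have q1 := X.pw_pos (-(43 : ℝ) / 20)
  have q2 := X.pw_pos (-(33 / 20))
  rw [h2]
  calc X.be k * (X.pw (-(43 : ℝ) / 20) * X.pw (-(33 / 20))) ≤
      1 * (X.pw (-(43 : ℝ) / 20) * X.pw (-(33 / 20))) :=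
        mul_le_mul_of_nonneg_right h1 (by positivity)
    _ = X.pw (-(43 : ℝ) / 20) * X.pw (-(33 / 20)) := by ring
    _ ≤ X.pw (-(43 : ℝ) / 20) * (1 / 4) := mul_le_mul_of_nonneg_left h3 q1.le
    _ = _ := by ring

/-- the layers of the blocks -/
theorem Ack_zl (X : Cx V) {k : ℕ} (hk : k < 8) : 1 ≤ X.zl k ∧ X.zl (k + 1) ≤ X.n := by
  unfold Cx.zl Cx.n
  constructor
  · omega
  · have : (k + 1 + 1) * X.N ^ 3 ≤ 9 * X.N ^ 3 := Nat.mul_le_mul_right _ (by omega)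
    omega

/-- the support of `A P` -/
theorem Ack_sup {α : Fin X.s} {δ : ZMod 2} {j r : ℕ} {P : V → ℝ} (hP : X.RF α δ j r P) (a : V)
    (ha : X.A α δ j P a ≠ 0) : X.sd α a = δ := by
  have h1 : ∃ b ∈ X.R α δ j a, P b ≠ 0 := by
    by_contra hc
    push Not at hc
    apply ha
    unfold Cx.A
    rw [Finset.sum_eq_zero hc, zero_div]
  obtain ⟨b, hb, hPb⟩ := h1
  have h2 := (Cx.RF_nd hP b hPb).2
  have h3 := X.R_sd hb
  rw [h3] at h2
  exact add_right_cancel h2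

/-- the part of a sum outside the allowed senders -/
theorem Ack_out (Y : An X) {α : Fin X.s} {δ : ZMod 2} {F : V → ℝ} (hF : ∀ x, 0 ≤ F x)
    (hs : ∀ x, F x ≠ 0 → X.sd α x = δ) {B : ℝ} (hB : ∑ x ∈ Y.ds α, F x ≤ B) :
    |(∑ x ∈ univ.filter (fun x => X.sd α x = δ ∧ x ∉ Y.ds α), F x) - ∑ x, F x| ≤ B := by
  have h1 : ∑ x, F x = (∑ x ∈ univ.filter (fun x => X.sd α x = δ ∧ x ∉ Y.ds α), F x) +
      ∑ x ∈ univ.filter (fun x => ¬ (X.sd α x = δ ∧ x ∉ Y.ds α)), F x :=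
    (Finset.sum_filter_add_sum_filter_not _ _ _).symm
  have h2 : ∑ x ∈ univ.filter (fun x => ¬ (X.sd α x = δ ∧ x ∉ Y.ds α)), F x ≤ ∑ x ∈ Y.ds α, F x := by
    rw [Finset.sum_filter]
    have h3 : ∑ x ∈ Y.ds α, F x = ∑ x, if x ∈ Y.ds α then F x else 0 := by
      rw [← Finset.sum_filter]
      congr 1
      ext x
      simp
    rw [h3]
    apply Finset.sum_le_sum
    intro x _
    by_cases hx : F x = 0
    · rw [hx]
      simp
    · have h4 := hs x hx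
      by_cases hd : x ∈ Y.ds α
      · rw [if_pos hd, if_pos (fun hh => hh.2 hd)]
      · rw [if_neg hd, if_neg (fun hh => hh ⟨h4, hd⟩)]
  have h3 : 0 ≤ ∑ x ∈ univ.filter (fun x => ¬ (X.sd α x = δ ∧ x ∉ Y.ds α)), F x :=
    Finset.sum_nonneg (fun x _ => hF x)
  rw [abs_le]
  constructor <;> linarith

/-- the sum of `dv F` -/
theorem Ack_dv {α : Fin X.s} {δ : ZMod 2} {j r : ℕ} {P : V → ℝ} (hP : X.RF α δ j r P) :
    ∑ x, X.dv α (X.A α δ j P) x ≤ 1 / X.dd := by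
  have hF : ∀ x, 0 ≤ X.A α δ j P x := Cx.A_nn (Cx.RF_nn hP)
  have h1 : ∑ x ∈ X.D, X.A α δ j P x ≤ 1 / X.dd := by
    apply Cx.A_box (Cx.RF_nn hP) (Cx.RF_l1 hP) X.D 1 (by norm_num)
    intro b
    exact_mod_cast X.R_D α δ j b
  refine le_trans ?_ h1
  have h3 : ∑ x ∈ X.D, X.A α δ j P x = ∑ x, if x ∈ X.D then X.A α δ j P x else 0 := by
    rw [← Finset.sum_filter]
    congr 1
    ext x
    simp
  rw [h3]
  apply Finset.sum_le_sum
  intro x _
  unfold Cx.dv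
  by_cases hx : X.M α x = x
  · rw [if_pos hx, if_pos (X.M_D hx)]
  · rw [if_neg hx]
    split_ifs
    · exact hF x
    · exact le_refl _

/-- the error bound -/
noncomputable def Ack_E (X : Cx V) (k : ℕ) (δ : ZMod 2) (i : ℕ) : ℝ :=
  (if δ = 0 then X.N ^ 36 * X.pw (-2) / 2 + k * X.pw (-(21 : ℝ) / 10) else 0) +
      (i + 1 : ℕ) * (3 * X.pw (-(43 : ℝ) / 20))

/-- the first layer of the block -/
theorem Ack_base {k : ℕ} (hk : k < 8) (h : Y.Iv k) {δ : ZMod 2}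
    {α : Fin X.s} {r : ℕ} {P : V → ℝ} (hP : X.RF α δ (X.zl k) r P) (hr : X.n3 ≤ r + 1) :
    |Cx.pa (X.A α δ (X.zl k) P) (Y.m (X.zl k) 0 δ α) - X.th * X.be k * ∑ x, X.A α δ (X.zl k) P x| ≤
      Ack_E X k δ 0 := by
  have hp43 := X.pw_pos (-(43 : ℝ) / 20)
  by_cases hδ : δ = 0
  · subst hδ
    have h1 := h.c α r P hP hr
    unfold Ack_E
    rw [if_pos rfl]
    refine le_trans h1 ?_
    have : (0 : ℝ) ≤ ((0 + 1 : ℕ) : ℝ) * (3 * X.pw (-(43 : ℝ) / 20)) := by positivity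
    linarith
  · have hδ1 : δ = 1 := by
      have : ∀ d : ZMod 2, d ≠ 0 → d = 1 := by decide
      exact this δ hδ
    subst hδ1
    have hz := Ack_zl X hk
    have hzz : X.zl k < X.zl (k + 1) := by
      have hN : (0 : ℝ) < X.N := lt_of_lt_of_le (by positivity) X.N_big
      have hN' : 0 < X.N := by exact_mod_cast hN
      have : 0 < X.N ^ 3 := by positivity
      unfold Cx.zl
      have : (k + 1 + 1) * X.N ^ 3 = (k + 1) * X.N ^ 3 + X.N ^ 3 := by ring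
      omega
    set F := X.A α 1 (X.zl k) P with hFd
    have hF : ∀ x, 0 ≤ F x := Cx.A_nn (Cx.RF_nn hP)
    have e1 : Cx.pa F (Y.m (X.zl k) 0 1 α) = X.be k * ∑ x ∈ Y.S (X.zl k) 1 α, F x := by
      unfold Cx.pa
      have h3 : ∑ x ∈ Y.S (X.zl k) 1 α, F x = ∑ x, if x ∈ Y.S (X.zl k) 1 α then F x else 0 := by
        rw [← Finset.sum_filter]
        congr 1
        ext x
        simp
      rw [h3, Finset.mul_sum]
      apply Finset.sum_congr rfl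
      intro x _
      rw [Y.id_z1 hk α x]
      split_ifs
      · ring
      · ring
    have e2 : |(∑ x ∈ Y.S (X.zl k) 1 α, F x) -
      X.th * ∑ x ∈ univ.filter (fun x => X.sd α x = 1 ∧ x ∉ Y.ds α), F x| ≤
      X.pw (-(19 : ℝ) / 5) := by
      have h1 := Y.st_h (j := X.zl k - 1) (by omega) 1 α (Cx.TF.ls (c := Y.c) (Rc := Y.Rc) α 1 (X.zl k) r P hr hP)
      have h2 : X.zl k - 1 + 1 = X.zl k := by omega
      rw [h2] at h1
      exact h1
    have e3 : |(∑ x ∈ univ.filter (fun x => X.sd α x = 1 ∧ x ∉ Y.ds α), F x) - ∑ x, F x| ≤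
        X.kd / X.dd := by
      apply Ack_out Y hF (Ack_sup hP)
      apply Cx.A_box (Cx.RF_nn hP) (Cx.RF_l1 hP) (Y.ds α) X.kd (by positivity)
      intro b
      exact_mod_cast Y.kd α 1 (X.zl k) b (by omega)
    obtain ⟨hb0, _⟩ := Ack_be X k
    have ht0 : 0 < X.th := lt_of_lt_of_le (X.pw_pos _) X.th_bd.1
    have n1 := Ack_n1 X k
    have n2 := Ack_n2 X k
    obtain ⟨hd, _, _⟩ := Ack_dd X
    have n3 : X.be k * (X.th * (X.kd / X.dd)) ≤ X.pw (-(43 : ℝ) / 20) / 2 := by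
      refine le_trans ?_ n1
      apply mul_le_mul_of_nonneg_left _ hb0.le
      apply mul_le_mul_of_nonneg_left _ ht0.le
      apply div_le_div_of_nonneg_right _ hd.le
      have hN : (2 : ℝ) ^ 40 ≤ X.N := X.N_big
      have hN1 : (1 : ℝ) ≤ X.N := le_trans (by norm_num) hN
      have : (X.kd : ℝ) = (X.N : ℝ) ^ 52 := by
        unfold Cx.kd
        push_cast
        rfl
      rw [this]
      exact pow_le_pow_right₀ hN1 (by norm_num)
    have e4 : Cx.pa F (Y.m (X.zl k) 0 1 α) - X.th * X.be k * ∑ x, F x =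
        X.be k * ((∑ x ∈ Y.S (X.zl k) 1 α, F x) -
          X.th * ∑ x ∈ univ.filter (fun x => X.sd α x = 1 ∧ x ∉ Y.ds α), F x) +
        X.be k * (X.th * ((∑ x ∈ univ.filter (fun x => X.sd α x = 1 ∧ x ∉ Y.ds α), F x) - ∑ x, F x)) := by
      rw [e1]
      ring
    rw [e4]
    refine le_trans (abs_add_le _ _) ?_
    rw [abs_mul, abs_mul, abs_mul, abs_of_pos hb0, abs_of_pos ht0]
    have g1 := mul_le_mul_of_nonneg_left e2 hb0.le
    have g2 := mul_le_mul_of_nonneg_left (mul_le_mul_of_nonneg_left e3 ht0.le) hb0.le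
    have g3 : Ack_E X k 1 0 = 3 * X.pw (-(43 : ℝ) / 20) := by
      unfold Ack_E
      rw [if_neg (by decide)]
      push_cast
      ring
    rw [g3]
    linarith

/-- one step in the block -/
theorem Ack_step {k j : ℕ} (hk : k < 8) (h : Y.Iv k) (h1 : X.zl k ≤ j) (h2 : j + 1 < X.zl (k + 1))
    {δ : ZMod 2} {α : Fin X.s} {r : ℕ} {P : V → ℝ} (hP : X.RF α δ (j + 1) r P) (hr : X.n3 ≤ r + 1)
    {E : ℝ} (ih : |Cx.pa (X.A α δ j (X.mv α (X.A α δ (j + 1) P))) (Y.m j 0 δ α) -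
      X.th * X.be k * ∑ x, X.A α δ j (X.mv α (X.A α δ (j + 1) P)) x| ≤ E) :
    |Cx.pa (X.A α δ (j + 1) P) (Y.m (j + 1) 0 δ α) - X.th * X.be k * ∑ x, X.A α δ (j + 1) P x| ≤
      E + 3 * X.pw (-(43 : ℝ) / 20) := by
  have hz := Ack_zl X hk
  have hjn : j < X.n := by omega
  have hp43 := X.pw_pos (-(43 : ℝ) / 20)
  have hp19 := X.pw_pos (-(19 : ℝ) / 5)
  obtain ⟨hb0, _⟩ := Ack_be X k
  have ht0 : 0 < X.th := lt_of_lt_of_le (X.pw_pos _) X.th_bd.1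
  obtain ⟨hd, _, hd1⟩ := Ack_dd X
  have n1 := Ack_n1 X k
  have n2 := Ack_n2 X k
  have hP' : X.RF α δ j (r + 1) (X.mv α (X.A α δ (j + 1) P)) := Cx.RF.st δ j r P hP
  set F := X.A α δ (j + 1) P with hFd
  have hF : ∀ x, 0 ≤ F x := Cx.A_nn (Cx.RF_nn hP)
  have e1 : Cx.pa F (Y.m (j + 1) 0 δ α) = (∑ b, X.mv α F b * Y.ar j 0 δ α b) +
      X.be k * ∑ v ∈ Y.S (j + 1) δ α, X.dv α F v := by
    have g1 := Y.id_st hjn 0 (fun hh => An.isZ_no (X := X) (j := j + 1) (k := k) (by omega) h2 hh.2) δ α F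
    rw [g1, Y.ij_k (j := j + 1) (k := k) (by omega) h2 α]
  have e2 : |(∑ b, X.mv α F b * Y.ar j 0 δ α b) - Cx.pa (X.A α δ j (X.mv α F)) (Y.m j 0 δ α)| ≤
      X.pw (-(43 : ℝ) / 20) + X.pw (-(19 : ℝ) / 5) / 2 * (8 / 5 * X.be k) := by
    have g1 := Y.st_le hjn 0 δ α (Cx.TF.rc (c := Y.c) (Rc := Y.Rc) α δ j (r + 1) (X.mv α F) hr hP')
      (Cx.RF_nn hP') (B := 8 / 5 * X.be k)
      (fun δ α v => (Y.sk hk h h1 (by omega) δ α v).1) (fun δ α v => (Y.sk hk h h1 (by omega) δ α v).2)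
    have g2 := Y.erk hk h h1 (by omega) (Cx.EF.bs (c := Y.c) (Rc := Y.Rc) δ j (r + 1) (X.mv α F) hr hP')
    linarith
  have e3 : |(∑ x ∈ Y.S (j + 1) δ α, X.dv α F x) -
      X.th * ∑ x ∈ univ.filter (fun x => X.sd α x = δ ∧ x ∉ Y.ds α), X.dv α F x| ≤
      X.pw (-(19 : ℝ) / 5) :=
    Y.st_h hjn δ α (Cx.TF.ld (c := Y.c) (Rc := Y.Rc) α δ (j + 1) r P hr hP)
  have hdv0 : ∀ x, 0 ≤ X.dv α F x := by
    intro x
    unfold Cx.dv
    split_ifs
    · exact hF x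
    · exact le_refl _
  have hdvs : ∀ x, X.dv α F x ≠ 0 → X.sd α x = δ := by
    intro x hx
    apply Ack_sup hP
    intro hc
    apply hx
    unfold Cx.dv
    rw [← hFd] at hc
    rw [hc]
    simp
  have e4 : |(∑ x ∈ univ.filter (fun x => X.sd α x = δ ∧ x ∉ Y.ds α), X.dv α F x) -
      ∑ x, X.dv α F x| ≤ 1 / X.dd := by
    apply Ack_out Y hdv0 hdvs
    refine le_trans ?_ (Ack_dv hP)
    exact Finset.sum_le_sum_of_subset_of_nonneg (Finset.subset_univ _) (fun x _ _ => hdv0 x)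
  have e5 := Cx.RF_k2 hP δ (X.mv α F) (Or.inl rfl)
  rw [← hFd] at e5
  have e6 : Cx.pa F (Y.m (j + 1) 0 δ α) - X.th * X.be k * ∑ x, F x =
      ((∑ b, X.mv α F b * Y.ar j 0 δ α b) - Cx.pa (X.A α δ j (X.mv α F)) (Y.m j 0 δ α)) +
      (Cx.pa (X.A α δ j (X.mv α F)) (Y.m j 0 δ α) - X.th * X.be k * ∑ x, X.A α δ j (X.mv α F) x) +
      X.be k * ((∑ x ∈ Y.S (j + 1) δ α, X.dv α F x) -
        X.th * ∑ x ∈ univ.filter (fun x => X.sd α x = δ ∧ x ∉ Y.ds α), X.dv α F x) +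
      X.be k * (X.th * ((∑ x ∈ univ.filter (fun x => X.sd α x = δ ∧ x ∉ Y.ds α), X.dv α F x) -
        ∑ x, X.dv α F x)) -
      X.be k * (X.th * ((∑ x, F x) - (∑ x, X.dv α F x) - ∑ x, X.A α δ j (X.mv α F) x)) := by
    rw [e1]
    ring
  have n3 : X.be k * (X.th * (1 / X.dd)) ≤ X.pw (-(43 : ℝ) / 20) / 2 := by
    refine le_trans ?_ n1
    apply mul_le_mul_of_nonneg_left _ hb0.le
    apply mul_le_mul_of_nonneg_left _ ht0.le
    apply div_le_div_of_nonneg_right _ hd.le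
    have hN1 : (1 : ℝ) ≤ X.N := le_trans (by norm_num) X.N_big
    exact one_le_pow₀ hN1
  have n4 : X.be k * (X.th * (X.N ^ 5 / X.dd ^ 2)) ≤ X.pw (-(43 : ℝ) / 20) / 2 := by
    refine le_trans ?_ n1
    apply mul_le_mul_of_nonneg_left _ hb0.le
    apply mul_le_mul_of_nonneg_left _ ht0.le
    have hN1 : (1 : ℝ) ≤ X.N := le_trans (by norm_num) X.N_big
    apply div_le_div₀ (by positivity) (pow_le_pow_right₀ hN1 (by norm_num)) hd
    nlinarith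
  have g3 := mul_le_mul_of_nonneg_left e3 hb0.le
  have g4 := mul_le_mul_of_nonneg_left (mul_le_mul_of_nonneg_left e4 ht0.le) hb0.le
  have g5 := mul_le_mul_of_nonneg_left (mul_le_mul_of_nonneg_left e5 ht0.le) hb0.le
  rw [e6]
  refine le_trans (abs_sub _ _) ?_
  refine le_trans (add_le_add_left (le_trans (abs_add_le _ _) (add_le_add_left (le_trans (abs_add_le _ _)
    (add_le_add_left (abs_add_le _ _) _)) _)) _) ?_
  rw [abs_mul (X.be k), abs_mul (X.be k), abs_mul (X.be k), abs_mul X.th, abs_mul X.th, abs_of_pos hb0, abs_of_pos ht0]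
  nlinarith [mul_pos hb0 hp19]

/-- block `k + 1` -/
theorem ck {k j : ℕ} (hk : k < 8) (h : Y.Iv k) (h1 : X.zl k ≤ j) (h2 : j < X.zl (k + 1)) {δ : ZMod 2}
    {α : Fin X.s} {r : ℕ} {P : V → ℝ} (hP : X.RF α δ j r P) (hr : X.n3 ≤ r + 1) :
    |Cx.pa (X.A α δ j P) (Y.m j 0 δ α) - X.th * X.be k * ∑ x, X.A α δ j P x| ≤
      (if δ = 0 then X.N ^ 36 * X.pw (-2) / 2 + k * X.pw (-(21 : ℝ) / 10) else 0) +
      (j - X.zl k + 1 : ℕ) * (3 * X.pw (-(43 : ℝ) / 20)) := by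
  have key : ∀ i : ℕ, X.zl k + i < X.zl (k + 1) → ∀ (r : ℕ) (P : V → ℝ),
      X.RF α δ (X.zl k + i) r P → X.n3 ≤ r + 1 →
      |Cx.pa (X.A α δ (X.zl k + i) P) (Y.m (X.zl k + i) 0 δ α) -
        X.th * X.be k * ∑ x, X.A α δ (X.zl k + i) P x| ≤ Ack_E X k δ i := by
    intro i
    induction i with
    | zero =>
      intro _ r P hP hr
      exact Y.Ack_base hk h hP hr
    | succ i ih =>
      intro hi r P hP hr
      have hi' : X.zl k + i < X.zl (k + 1) := by omega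
      have g1 := ih hi' (r + 1) (X.mv α (X.A α δ (X.zl k + i + 1) P)) (Cx.RF.st δ (X.zl k + i) r P hP)
        (by omega)
      have g2 := Y.Ack_step hk h (j := X.zl k + i) (by omega) (by omega) hP hr g1
      have g3 : Ack_E X k δ (i + 1) = Ack_E X k δ i + 3 * X.pw (-(43 : ℝ) / 20) := by
        unfold Ack_E
        push_cast
        ring
      rw [g3]
      exact g2
  obtain ⟨i, rfl⟩ := Nat.exists_eq_add_of_le h1
  have g := key i h2 r P hP hr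
  have g4 : X.zl k + i - X.zl k + 1 = i + 1 := by omega
  rw [g4]
  exact g

end An

end Pool.Agent.H2.LN
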