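/-
ROW Ayp. Pointwise propagation.
PROOF. Claim by induction on `i ≤ r`: there is `P` with `RF α δ (j + r - i) i P` and `|y (j+r) b - ∑_x P x * y (j + r - i) x| ≤ i * err`, `err = pw (-19/100) B + I / (th dd)`. `i = 0`: the point `b` (`RF.pt`, `j + r < n`). Step: with `j' = j + r - i - 1`: `y (j'+1) x` is within `err` of `A (mv (y j')) x` (`y_nx`, `hz, hB, hI` for `j'`), `P ≥ 0`, `∑ P ≤ 1`; `∑_x P x A (mv (y j')) x = ∑_a (A P) a mv (y j') a = ∑_x mv (A P) x y j' x`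
(`A_adj`, `mv_adj`), and `mv α (A α δ (j'+1) P)` is `RF .. j' (i+1)`. Finally `i = r`: `∑_x P x y j x = (∑_x P x ∑_{a ∈ R x ∩ S} m a) / (th dd) = (∑_a m a A P a) / th = pa (A P) m / th` (`m a = 0` off `S`: `TT.sp`; interchange, `R_symm`).
-/
import Pool.Agent.H2.LN.LD
import Pool.Agent.H2.LN.L.Ayn
import Pool.Agent.H2.LN.L.Lrf
import Pool.Agent.H2.LN.L.Ll2

set_option autoImplicit false
set_option linter.unusedSectionVars false

namespace Pool.Agent.H2.LN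

open Finset Classical
open Pool.Agent.H65.GI

namespace An

variable {V : Type} [Fintype V] {X : Cx V} (Y : An X)

/-- the expected arrivals as an average of the masses -/
theorem Ayp_y {j : ℕ} (hj : j < X.n) (τ : Fin 2) (δ : ZMod 2) (α : Fin X.s) (x : V) :
    Y.y j τ δ α x = X.A α δ j (Y.m j τ δ α) x / X.th := by
  have h1 : ∑ a ∈ (X.R α δ j x).filter (fun a => a ∈ (Y.t j).S δ α), (Y.t j).m τ δ α a =
      ∑ a ∈ X.R α δ j x, (Y.t j).m τ δ α a := by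
    refine Finset.sum_subset (Finset.filter_subset _ _) fun a ha hna => ?_
    have h2 : a ∉ (Y.t j).S δ α := fun h3 => hna (Finset.mem_filter.2 ⟨ha, h3⟩)
    exact (Y.ok j hj).1.sp τ δ α a h2
  change (∑ a ∈ (X.R α δ j x).filter (fun a => a ∈ (Y.t j).S δ α), (Y.t j).m τ δ α a) / (X.th * X.dd) =
    ((∑ a ∈ X.R α δ j x, (Y.t j).m τ δ α a) / X.dd) / X.th
  rw [h1, div_div, mul_comm]

/-- the induction -/
theorem Ayp_ind {j r : ℕ} (hj : j + r < X.n) (τ : Fin 2) {B I : ℝ}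
    (hz : ∀ i, j ≤ i → i < j + r → ¬ (τ = 0 ∧ X.isZ (i + 1)))
    (hB : ∀ i, j ≤ i → i < j + r → ∀ δ α a, |Y.m i τ δ α a| ≤ B)
    (hI : ∀ i, j ≤ i → i < j + r → ∀ α, |Y.ij (i + 1) τ α| ≤ I) (δ : ZMod 2) (α : Fin X.s) (b : V)
    (hb : X.M α b ≠ b) (hs : X.sd α b = δ + 1) (i : ℕ) (hi : i ≤ r) :
    ∃ P, X.RF α δ (j + r - i) i P ∧ |Y.y (j + r) τ δ α b - ∑ x, P x * Y.y (j + r - i) τ δ α x| ≤
      i * (X.pw (-(19 : ℝ) / 100) * B + I / (X.th * X.dd)) := by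
  induction i with
  | zero =>
    refine ⟨fun x => if x = b then 1 else 0, Cx.RF.pt δ (j + r) b hj hb hs, ?_⟩
    have h1 : ∑ x, (if x = b then (1 : ℝ) else 0) * Y.y (j + r - 0) τ δ α x = Y.y (j + r) τ δ α b := by
      rw [Finset.sum_eq_single b]
      · rw [if_pos rfl, one_mul]
        rfl
      · intro x _ hx
        rw [if_neg hx, zero_mul]
      · intro h
        exact absurd (Finset.mem_univ b) h
    rw [h1, sub_self, abs_zero]
    simp
  | succ i ih =>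
    obtain ⟨P, hP, hPb⟩ := ih (by omega)
    obtain ⟨j', hj'⟩ : ∃ j', j' = j + r - (i + 1) := ⟨_, rfl⟩
    have e1 : j + r - i = j' + 1 := by omega
    have hj1 : j ≤ j' := by omega
    have hj2 : j' < j + r := by omega
    rw [← hj']
    rw [e1] at hP hPb
    have hth := (X.th_bd).1
    have hth0 : 0 < X.th := lt_of_lt_of_le (X.pw_pos _) hth
    have hN : (0 : ℝ) < X.N := lt_of_lt_of_le (by positivity) X.N_big
    have hdd : 0 < X.dd := lt_of_lt_of_le (div_pos (X.pw_pos 1) (by positivity)) X.dd_bd.1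
    have herr : ∀ x, |Y.y (j' + 1) τ δ α x - X.A α δ (j' + 1) (X.mv α (Y.y j' τ δ α)) x| ≤
        X.pw (-(19 : ℝ) / 100) * B + I / (X.th * X.dd) := by
      intro x
      refine (Y.y_nx (by omega) τ (hz j' hj1 hj2) (hB j' hj1 hj2) δ α x).trans ?_
      have h2 : |Y.ij (j' + 1) τ α| / (X.th * X.dd) ≤ I / (X.th * X.dd) :=
        div_le_div_of_nonneg_right (hI j' hj1 hj2 α) (by positivity)
      linarith
    refine ⟨X.mv α (X.A α δ (j' + 1) P), Cx.RF.st δ j' i P hP, ?_⟩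
    have h3 : ∑ x, X.mv α (X.A α δ (j' + 1) P) x * Y.y j' τ δ α x =
        ∑ x, P x * X.A α δ (j' + 1) (X.mv α (Y.y j' τ δ α)) x := by
      rw [Cx.mv_adj, Cx.A_adj]
    have herr0 : 0 ≤ X.pw (-(19 : ℝ) / 100) * B + I / (X.th * X.dd) := (abs_nonneg _).trans (herr b)
    have h4 : |∑ x, P x * Y.y (j' + 1) τ δ α x - ∑ x, P x * X.A α δ (j' + 1) (X.mv α (Y.y j' τ δ α)) x| ≤
        X.pw (-(19 : ℝ) / 100) * B + I / (X.th * X.dd) := by
      rw [← Finset.sum_sub_distrib]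
      refine (Finset.abs_sum_le_sum_abs _ _).trans ?_
      have h5 : ∑ x, |P x * Y.y (j' + 1) τ δ α x - P x * X.A α δ (j' + 1) (X.mv α (Y.y j' τ δ α)) x| ≤
          ∑ x, P x * (X.pw (-(19 : ℝ) / 100) * B + I / (X.th * X.dd)) := by
        refine Finset.sum_le_sum fun x _ => ?_
        rw [← mul_sub, abs_mul, abs_of_nonneg (Cx.RF_nn hP x)]
        exact mul_le_mul_of_nonneg_left (herr x) (Cx.RF_nn hP x)
      refine h5.trans ?_
      rw [← Finset.sum_mul]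
      calc (∑ x, P x) * (X.pw (-(19 : ℝ) / 100) * B + I / (X.th * X.dd)) ≤
          1 * (X.pw (-(19 : ℝ) / 100) * B + I / (X.th * X.dd)) :=
            mul_le_mul_of_nonneg_right (Cx.RF_l1 hP) herr0
        _ = _ := one_mul _
    rw [h3]
    have h6 := abs_sub_le (Y.y (j + r) τ δ α b) (∑ x, P x * Y.y (j' + 1) τ δ α x)
      (∑ x, P x * X.A α δ (j' + 1) (X.mv α (Y.y j' τ δ α)) x)
    have h7 : ((i + 1 : ℕ) : ℝ) * (X.pw (-(19 : ℝ) / 100) * B + I / (X.th * X.dd)) =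
        (i : ℝ) * (X.pw (-(19 : ℝ) / 100) * B + I / (X.th * X.dd)) +
          (X.pw (-(19 : ℝ) / 100) * B + I / (X.th * X.dd)) := by
      push_cast
      ring
    rw [h7]
    linarith

/-- pointwise propagation: from step `j` to step `j + r` -/
theorem y_pt {j r : ℕ} (hj : j + r < X.n) (τ : Fin 2) {B I : ℝ}
    (hz : ∀ i, j ≤ i → i < j + r → ¬ (τ = 0 ∧ X.isZ (i + 1)))
    (hB : ∀ i, j ≤ i → i < j + r → ∀ δ α a, |Y.m i τ δ α a| ≤ B)
    (hI : ∀ i, j ≤ i → i < j + r → ∀ α, |Y.ij (i + 1) τ α| ≤ I) (δ : ZMod 2) (α : Fin X.s) (b : V)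
    (hb : X.M α b ≠ b) (hs : X.sd α b = δ + 1) :
    ∃ P, X.RF α δ j r P ∧ |Y.y (j + r) τ δ α b - Cx.pa (X.A α δ j P) (Y.m j τ δ α) / X.th| ≤
      r * (X.pw (-(19 : ℝ) / 100) * B + I / (X.th * X.dd)) := by
  obtain ⟨P, hP, hb1⟩ := Y.Ayp_ind hj τ hz hB hI δ α b hb hs r le_rfl
  rw [Nat.add_sub_cancel] at hP hb1
  refine ⟨P, hP, ?_⟩
  have h1 : ∑ x, P x * Y.y j τ δ α x = Cx.pa (X.A α δ j P) (Y.m j τ δ α) / X.th := by
    have h2 : ∀ x, P x * Y.y j τ δ α x = P x * X.A α δ j (Y.m j τ δ α) x / X.th := by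
      intro x
      rw [Y.Ayp_y (by omega) τ δ α x, mul_div_assoc]
    rw [Finset.sum_congr rfl fun x _ => h2 x, ← Finset.sum_div, Cx.A_adj]
    rfl
  rw [← h1]
  exact hb1

end An

end Pool.Agent.H2.LN
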