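/-
ROW Adf. The difference in the last step of block 0.
PROOF. `j = n3 = N^3`. `x0 = M v` (`sd = 1 = 0 + 1`, receiver of direction 0), `x1 = v` (`sd = 0 = 1 + 1`, receiver of direction 1); both `ac` (`ac_M`). `ar_y` with `B = N^90 pw (-2/5)` (`s0`; `N^3 ≥ 1`): `|ar - y| ≤ pw (-97/500) B` for both. `y_pt` from `j = 1` with `r = N^3 - 1` (no Z-layers: `isZ_no0`; `I = 2.1 N^15 pw (-2/5)` as `ij_0`): `y (x_δ) = pa (A δ 1 P_δ) (m 1) / th ± N^3 (pw (-19/100) B + I / (th dd))`, and `n3 ≤ r + 1`,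
so `c0j`: `= (u / th) ∑ A δ 1 P_δ ± 2 N^32 pw (-2) / th ± ..`; `1 - 2 N^3 (2 / dd) ≤ ∑ A δ 1 P_δ ≤ 1` (`RF_low`, `A_sum_ge`, `RF_l1`). So `|df| ≤ (u / th) 4 N^3 / dd + 4 N^32 pw (-2) / th + 2 N^3 (pw (-19/100) N^90 pw (-2/5) + I / (th dd)) + 2 pw (-97/500) N^90 pw (-2/5) ≤ pw (-29/50) = aa 0`: the largest term is `2 N^93 pw (-59/100) ≤ pw (-29/50) / 4` (`pwN` with `x = 1/100`).
-/
import Pool.Agent.H2.LN.LD
import Pool.Agent.H2.LN.L.Acj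
import Pool.Agent.H2.LN.L.Ayp
import Pool.Agent.H2.LN.L.As0
import Pool.Agent.H2.LN.L.Lrb

set_option autoImplicit false
set_option linter.unusedSectionVars false

namespace Pool.Agent.H2.LN

open Finset Classical
open Pool.Agent.H65.GI

namespace An

variable {V : Type} [Fintype V] {X : Cx V} (Y : An X)

theorem Adf_num (X : Cx V) {c x y : ℝ} {k : ℕ} (hc : 5 * c ≤ X.N) (hc0 : 0 ≤ c)
    (hk : ((k + 1 : ℕ) : ℝ) ≤ 40000 * y) (hxy : y + x = -(29 : ℝ) / 50) :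
    c * ((X.N : ℝ) ^ k * X.pw x) ≤ X.pw (-(29 : ℝ) / 50) / 5 := by
  have h1 := X.pwN (k + 1) y hk
  have h2 : X.pw y * X.pw x = X.pw (-(29 : ℝ) / 50) := by rw [X.pw_add, hxy]
  have h3 := X.pw_pos x
  have hN : (0 : ℝ) ≤ X.N := Nat.cast_nonneg _
  have h4 : 5 * c * (X.N : ℝ) ^ k ≤ X.pw y := by
    calc 5 * c * (X.N : ℝ) ^ k ≤ X.N * (X.N : ℝ) ^ k :=
          mul_le_mul_of_nonneg_right hc (pow_nonneg hN k)
      _ = (X.N : ℝ) ^ (k + 1) := by rw [pow_succ]; ring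
      _ ≤ X.pw y := h1
  have h5 : 5 * c * (X.N : ℝ) ^ k * X.pw x ≤ X.pw y * X.pw x :=
    mul_le_mul_of_nonneg_right h4 h3.le
  rw [h2] at h5
  have h6 : c * ((X.N : ℝ) ^ k * X.pw x) = (5 * c * (X.N : ℝ) ^ k * X.pw x) / 5 := by ring
  rw [h6]
  linarith

theorem Adf_dd (X : Cx V) : 0 < X.dd ∧ 1 / X.dd ≤ 8 * (X.N : ℝ) ^ 54 * X.pw (-1) := by
  have h1 := X.dd_bd.1
  have hp1 := X.pw_pos 1
  have hpm := X.pw_pos (-1)
  have hN : (0 : ℝ) < X.N := lt_of_lt_of_le (by norm_num) X.N_big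
  have hNp : (0 : ℝ) < (X.N : ℝ) ^ 54 := pow_pos hN 54
  have h0 : 0 < X.pw 1 / (8 * (X.N : ℝ) ^ 54) := div_pos hp1 (by positivity)
  have hd : 0 < X.dd := lt_of_lt_of_le h0 h1
  refine ⟨hd, ?_⟩
  have h2 : X.pw 1 * X.pw (-1) = 1 := by
    rw [X.pw_add]
    have : (1 : ℝ) + (-1) = 0 := by norm_num
    rw [this]
    unfold Cx.pw
    exact Real.rpow_zero _
  rw [div_le_iff₀ hd]
  have h3 : X.pw 1 ≤ X.dd * (8 * (X.N : ℝ) ^ 54) := by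
    rw [div_le_iff₀ (by positivity)] at h1
    exact h1
  calc (1 : ℝ) = X.pw 1 * X.pw (-1) := h2.symm
    _ ≤ X.dd * (8 * (X.N : ℝ) ^ 54) * X.pw (-1) := mul_le_mul_of_nonneg_right h3 hpm.le
    _ = 8 * (X.N : ℝ) ^ 54 * X.pw (-1) * X.dd := by ring

theorem Adf_th (X : Cx V) : 0 < X.th ∧ 1 / X.th ≤ X.pw ((3 : ℝ) / 5) := by
  have h1 := X.th_bd.1
  have hp := X.pw_pos (-(3 : ℝ) / 5)
  have hp2 := X.pw_pos ((3 : ℝ) / 5)
  have ht : 0 < X.th := lt_of_lt_of_le hp h1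
  refine ⟨ht, ?_⟩
  have h2 : X.pw ((3 : ℝ) / 5) * X.pw (-(3 : ℝ) / 5) = 1 := by
    rw [X.pw_add]
    have : (3 : ℝ) / 5 + (-(3 : ℝ) / 5) = 0 := by norm_num
    rw [this]
    unfold Cx.pw
    exact Real.rpow_zero _
  rw [div_le_iff₀ ht]
  calc (1 : ℝ) = X.pw ((3 : ℝ) / 5) * X.pw (-(3 : ℝ) / 5) := h2.symm
    _ ≤ X.pw ((3 : ℝ) / 5) * X.th := mul_le_mul_of_nonneg_left h1 hp2.le

theorem Adf_sum {α : Fin X.s} {δ : ZMod 2} {j r : ℕ} {P : V → ℝ} (h : X.RF α δ j r P) :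
    1 - (2 * (r : ℝ) + 1) / X.dd ≤ ∑ x, X.A α δ j P x ∧ ∑ x, X.A α δ j P x ≤ 1 := by
  have hd := (Adf_dd X).1
  have hnn := X.RF_nn h
  have hl1 := X.RF_l1 h
  have hlow := X.RF_low h
  refine ⟨?_, le_trans (X.A_sum_le hnn) hl1⟩
  have h1 := X.A_sum_ge (α := α) (δ := δ) (j := j) hnn
  have h2 : (∑ x ∈ X.D, P x) ≤ 1 := by
    refine le_trans ?_ hl1
    exact Finset.sum_le_sum_of_subset_of_nonneg (Finset.subset_univ _) (fun x _ _ => hnn x)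
  have h3 : (∑ x ∈ X.D, P x) / X.dd ≤ 1 / X.dd := div_le_div_of_nonneg_right h2 hd.le
  have h4 : (2 * (r : ℝ) + 1) / X.dd = r * (2 / X.dd) + 1 / X.dd := by ring
  rw [h4]
  linarith

/-- one of the two receivers -/
theorem Adf_one (α : Fin X.s) (δ : ZMod 2) (b : V) (hb : X.M α b ≠ b) (hs : X.sd α b = δ + 1)
    (ha : Y.ac X.n3 α b) : ∃ S : ℝ, 1 - 2 * (X.n3 : ℝ) / X.dd ≤ S ∧ S ≤ 1 ∧
      |Y.ar X.n3 0 δ α b - Y.u α / X.th * S| ≤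
        (X.n3 : ℝ) * (X.pw (-(19 : ℝ) / 100) * (X.N ^ 90 * X.pw (-(2 : ℝ) / 5)) +
          2 * X.N ^ 15 * X.pw (-(2 : ℝ) / 5) / (X.th * X.dd)) +
        2 * (X.N ^ 32 * X.pw (-2)) / X.th + X.pw (-(97 : ℝ) / 500) * (X.N ^ 90 * X.pw (-(2 : ℝ) / 5)) := by
  have hN1 : 1 ≤ X.N := by
    have := X.N_big
    have h : (1 : ℝ) ≤ X.N := le_trans (by norm_num) this
    exact_mod_cast h
  have hn3 : 1 ≤ X.n3 := by
    unfold Cx.n3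
    exact Nat.one_le_pow _ _ hN1
  have hn : X.n3 < X.n := by
    unfold Cx.n3 Cx.n
    omega
  obtain ⟨r, hr⟩ : ∃ r, X.n3 = 1 + r := ⟨X.n3 - 1, by omega⟩
  have ht := Adf_th X
  have hd := Adf_dd X
  have hu := Y.u_bd α
  have hI : ∀ i, 1 ≤ i → i < 1 + r → ∀ α, |Y.ij (i + 1) 0 α| ≤ 2 * X.N ^ 15 * X.pw (-(2 : ℝ) / 5) := by
    intro i hi1 hi2 β
    rw [Y.ij_0 (by omega) (by omega) β]
    have hub := Y.u_bd β
    have hu0 : 0 ≤ Y.u β / X.th := div_nonneg hub.1 ht.1.le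
    rw [abs_of_nonneg hu0]
    have e1 : Y.u β / X.th = Y.u β * (1 / X.th) := by ring
    rw [e1]
    have e2 : X.pw (-1) * X.pw ((3 : ℝ) / 5) = X.pw (-(2 : ℝ) / 5) := by
      rw [X.pw_add]; congr 1; norm_num
    calc Y.u β * (1 / X.th) ≤ (2 * X.N ^ 15 * X.pw (-1)) * X.pw ((3 : ℝ) / 5) := by
          apply mul_le_mul hub.2 ht.2 (one_div_pos.mpr ht.1).le
          exact le_trans hub.1 hub.2
      _ = 2 * X.N ^ 15 * X.pw (-(2 : ℝ) / 5) := by rw [← e2]; ring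
  have hB : ∀ i, 1 ≤ i → i ≤ X.n3 → ∀ δ α a, |Y.m i 0 δ α a| ≤ X.N ^ 90 * X.pw (-(2 : ℝ) / 5) := by
    intro i hi1 hi2 δ' β a
    have := Y.s0 hi2 δ' β a
    rw [abs_of_nonneg this.1]
    exact this.2.2 hi1
  obtain ⟨P, hP, hy⟩ := Y.y_pt (j := 1) (r := r) (by omega) 0
    (B := X.N ^ 90 * X.pw (-(2 : ℝ) / 5)) (I := 2 * X.N ^ 15 * X.pw (-(2 : ℝ) / 5))
    (fun i _ hi2 hz => isZ_no0 (j := i + 1) (by omega) hz.2)
    (fun i hi1 hi2 => hB i hi1 (by omega)) hI δ α b hb hs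
  have hsum := Adf_sum hP
  have hc := Y.c0j (j := 1) hn3 hP (by omega)
  have har := Y.ar_y hn 0 (B := X.N ^ 90 * X.pw (-(2 : ℝ) / 5)) (hB X.n3 hn3 le_rfl) δ α b ha hs
  rw [← hr] at hy
  refine ⟨∑ x, X.A α δ 1 P x, ?_, hsum.2, ?_⟩
  · refine le_trans ?_ hsum.1
    have h1 : (X.n3 : ℝ) = 1 + r := by rw [hr]; push_cast; ring
    have h2 : (2 * (r : ℝ) + 1) / X.dd ≤ 2 * (X.n3 : ℝ) / X.dd := by
      apply div_le_div_of_nonneg_right _ hd.1.le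
      rw [h1]; linarith
    linarith
  · have h1 : |Cx.pa (X.A α δ 1 P) (Y.m 1 0 δ α) / X.th - Y.u α / X.th * ∑ x, X.A α δ 1 P x| ≤
        2 * (X.N ^ 32 * X.pw (-2)) / X.th := by
      have e : Cx.pa (X.A α δ 1 P) (Y.m 1 0 δ α) / X.th - Y.u α / X.th * ∑ x, X.A α δ 1 P x =
          (Cx.pa (X.A α δ 1 P) (Y.m 1 0 δ α) - Y.u α * ∑ x, X.A α δ 1 P x) / X.th := by ring
      rw [e, abs_div, abs_of_pos ht.1]
      apply div_le_div_of_nonneg_right _ ht.1.le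
      refine le_trans hc (le_of_eq ?_)
      push_cast
      ring
    have h2 : (r : ℝ) * (X.pw (-(19 : ℝ) / 100) * (X.N ^ 90 * X.pw (-(2 : ℝ) / 5)) +
          2 * X.N ^ 15 * X.pw (-(2 : ℝ) / 5) / (X.th * X.dd)) ≤
        (X.n3 : ℝ) * (X.pw (-(19 : ℝ) / 100) * (X.N ^ 90 * X.pw (-(2 : ℝ) / 5)) +
          2 * X.N ^ 15 * X.pw (-(2 : ℝ) / 5) / (X.th * X.dd)) := by
      have hp1 := X.pw_pos (-(19 : ℝ) / 100)
      have hp2 := X.pw_pos (-(2 : ℝ) / 5)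
      have ht1 := ht.1
      have hd1 := hd.1
      apply mul_le_mul_of_nonneg_right _ (by positivity)
      rw [hr]; push_cast; linarith
    have e : Y.ar X.n3 0 δ α b - Y.u α / X.th * ∑ x, X.A α δ 1 P x =
        (Y.ar X.n3 0 δ α b - Y.y X.n3 0 δ α b) +
        (Y.y X.n3 0 δ α b - Cx.pa (X.A α δ 1 P) (Y.m 1 0 δ α) / X.th) +
        (Cx.pa (X.A α δ 1 P) (Y.m 1 0 δ α) / X.th - Y.u α / X.th * ∑ x, X.A α δ 1 P x) := by ring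
    rw [e]
    have t1 := abs_add_le ((Y.ar X.n3 0 δ α b - Y.y X.n3 0 δ α b) +
        (Y.y X.n3 0 δ α b - Cx.pa (X.A α δ 1 P) (Y.m 1 0 δ α) / X.th))
        (Cx.pa (X.A α δ 1 P) (Y.m 1 0 δ α) / X.th - Y.u α / X.th * ∑ x, X.A α δ 1 P x)
    have t2 := abs_add_le (Y.ar X.n3 0 δ α b - Y.y X.n3 0 δ α b)
        (Y.y X.n3 0 δ α b - Cx.pa (X.A α δ 1 P) (Y.m 1 0 δ α) / X.th)
    linarith

/-- the difference in the last step of block 0 -/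
theorem df0 (α : Fin X.s) (v : V) (h1 : X.sd α v = 0) (h2 : Y.ac X.n3 α v) (h3 : X.M α v ≠ v) :
    |Y.df X.n3 α v| ≤ X.aa 0 := by
  have hs0 : X.sd α (X.M α v) = 0 + 1 := by rw [X.M_sd h3, h1]
  have hs1 : X.sd α v = 1 + 1 := by rw [h1]; decide
  have hM : X.M α (X.M α v) ≠ X.M α v := by rw [X.M_M]; exact fun h => h3 h.symm
  obtain ⟨S0, a1, a2, a3⟩ := Adf_one Y α 0 (X.M α v) hM hs0 (Y.ac_M h2)
  obtain ⟨S1, b1, b2, b3⟩ := Adf_one Y α 1 v h3 hs1 h2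
  have ht := Adf_th X
  have hd := Adf_dd X
  have hu := Y.u_bd α
  have hNb := X.N_big
  have hN : (0 : ℝ) < X.N := lt_of_lt_of_le (by norm_num) hNb
  have hn3 : (X.n3 : ℝ) = (X.N : ℝ) ^ 3 := by unfold Cx.n3; push_cast; rfl
  have haa : X.aa 0 = X.pw (-(29 : ℝ) / 50) := rfl
  have hS : |S0 - S1| ≤ 2 * (X.n3 : ℝ) / X.dd := by
    rw [abs_le]; constructor <;> linarith
  have hut : Y.u α / X.th ≤ 2 * X.N ^ 15 * X.pw (-(2 : ℝ) / 5) := by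
    have e1 : Y.u α / X.th = Y.u α * (1 / X.th) := by ring
    rw [e1]
    have e2 : X.pw (-1) * X.pw ((3 : ℝ) / 5) = X.pw (-(2 : ℝ) / 5) := by
      rw [X.pw_add]; congr 1; norm_num
    have ht1 := ht.1
    calc Y.u α * (1 / X.th) ≤ (2 * X.N ^ 15 * X.pw (-1)) * X.pw ((3 : ℝ) / 5) := by
          apply mul_le_mul hu.2 ht.2 (by positivity)
          exact le_trans hu.1 hu.2
      _ = 2 * X.N ^ 15 * X.pw (-(2 : ℝ) / 5) := by rw [← e2]; ring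
  have hu0 : 0 ≤ Y.u α / X.th := div_nonneg hu.1 ht.1.le
  have hp19 := X.pw_pos (-(19 : ℝ) / 100)
  have hp97 := X.pw_pos (-(97 : ℝ) / 500)
  have hp25 := X.pw_pos (-(2 : ℝ) / 5)
  have hp2 := X.pw_pos (-2)
  have hpm1 := X.pw_pos (-1)
  have hp35 := X.pw_pos ((3 : ℝ) / 5)
  have ht0 := ht.1
  have hd0 := hd.1
  have hpa : ∀ x y z : ℝ, x + y = z → X.pw x * X.pw y = X.pw z := by
    intro x y z h; rw [X.pw_add, h]
  -- the five terms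
  have T1 : 2 * (X.pw (-(97 : ℝ) / 500) * (X.N ^ 90 * X.pw (-(2 : ℝ) / 5))) ≤
      X.pw (-(29 : ℝ) / 50) / 5 := by
    have e := hpa (-(97 : ℝ) / 500) (-(2 : ℝ) / 5) (-(297 : ℝ) / 500) (by norm_num)
    have e' : 2 * (X.pw (-(97 : ℝ) / 500) * (X.N ^ 90 * X.pw (-(2 : ℝ) / 5))) =
        2 * ((X.N : ℝ) ^ 90 * X.pw (-(297 : ℝ) / 500)) := by rw [← e]; ring
    rw [e']
    exact Adf_num X (y := 7 / 500) (by linarith) (by norm_num) (by norm_num) (by norm_num)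
  have T2 : 2 * ((X.n3 : ℝ) * (X.pw (-(19 : ℝ) / 100) * (X.N ^ 90 * X.pw (-(2 : ℝ) / 5)))) ≤
      X.pw (-(29 : ℝ) / 50) / 5 := by
    have e := hpa (-(19 : ℝ) / 100) (-(2 : ℝ) / 5) (-(59 : ℝ) / 100) (by norm_num)
    have e' : 2 * ((X.n3 : ℝ) * (X.pw (-(19 : ℝ) / 100) * (X.N ^ 90 * X.pw (-(2 : ℝ) / 5)))) =
        2 * ((X.N : ℝ) ^ 93 * X.pw (-(59 : ℝ) / 100)) := by rw [← e, hn3]; ring
    rw [e']
    exact Adf_num X (y := 1 / 100) (by linarith) (by norm_num) (by norm_num) (by norm_num)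
  have T3 : 2 * ((X.n3 : ℝ) * (2 * X.N ^ 15 * X.pw (-(2 : ℝ) / 5) / (X.th * X.dd))) ≤
      X.pw (-(29 : ℝ) / 50) / 5 := by
    have e' : 2 * ((X.n3 : ℝ) * (2 * X.N ^ 15 * X.pw (-(2 : ℝ) / 5) / (X.th * X.dd))) =
        4 * (X.N : ℝ) ^ 18 * X.pw (-(2 : ℝ) / 5) * ((1 / X.th) * (1 / X.dd)) := by
      rw [hn3]; field_simp; ring
    rw [e']
    have h5 : (1 / X.th) * (1 / X.dd) ≤ X.pw ((3 : ℝ) / 5) * (8 * (X.N : ℝ) ^ 54 * X.pw (-1)) := by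
      apply mul_le_mul ht.2 hd.2 (by positivity) hp35.le
    have e := hpa (-(2 : ℝ) / 5) ((3 : ℝ) / 5) ((1 : ℝ) / 5) (by norm_num)
    have e2 := hpa ((1 : ℝ) / 5) (-1) (-(4 : ℝ) / 5) (by norm_num)
    calc 4 * (X.N : ℝ) ^ 18 * X.pw (-(2 : ℝ) / 5) * ((1 / X.th) * (1 / X.dd)) ≤
        4 * (X.N : ℝ) ^ 18 * X.pw (-(2 : ℝ) / 5) *
          (X.pw ((3 : ℝ) / 5) * (8 * (X.N : ℝ) ^ 54 * X.pw (-1))) :=
          mul_le_mul_of_nonneg_left h5 (by positivity)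
      _ = 32 * ((X.N : ℝ) ^ 72 * X.pw (-(4 : ℝ) / 5)) := by rw [← e2, ← e]; ring
      _ ≤ X.pw (-(29 : ℝ) / 50) / 5 :=
          Adf_num X (y := 11 / 50) (by linarith) (by norm_num) (by norm_num) (by norm_num)
  have T4 : 2 * (2 * (X.N ^ 32 * X.pw (-2)) / X.th) ≤ X.pw (-(29 : ℝ) / 50) / 5 := by
    have e' : 2 * (2 * (X.N ^ 32 * X.pw (-2)) / X.th) = 4 * (X.N ^ 32 * X.pw (-2)) * (1 / X.th) := by
      field_simp; ring
    rw [e']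
    have e := hpa (-2) ((3 : ℝ) / 5) (-(7 : ℝ) / 5) (by norm_num)
    calc 4 * (X.N ^ 32 * X.pw (-2)) * (1 / X.th) ≤ 4 * (X.N ^ 32 * X.pw (-2)) * X.pw ((3 : ℝ) / 5) :=
          mul_le_mul_of_nonneg_left ht.2 (by positivity)
      _ = 4 * ((X.N : ℝ) ^ 32 * X.pw (-(7 : ℝ) / 5)) := by rw [← e]; ring
      _ ≤ X.pw (-(29 : ℝ) / 50) / 5 :=
          Adf_num X (y := 41 / 50) (by linarith) (by norm_num) (by norm_num) (by norm_num)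
  have T5 : Y.u α / X.th * (2 * (X.n3 : ℝ) / X.dd) ≤ X.pw (-(29 : ℝ) / 50) / 5 := by
    have h5 : 2 * (X.n3 : ℝ) / X.dd ≤ 2 * (X.N : ℝ) ^ 3 * (8 * (X.N : ℝ) ^ 54 * X.pw (-1)) := by
      have : 2 * (X.n3 : ℝ) / X.dd = 2 * (X.N : ℝ) ^ 3 * (1 / X.dd) := by rw [hn3]; ring
      rw [this]
      exact mul_le_mul_of_nonneg_left hd.2 (by positivity)
    have e := hpa (-(2 : ℝ) / 5) (-1) (-(7 : ℝ) / 5) (by norm_num)
    calc Y.u α / X.th * (2 * (X.n3 : ℝ) / X.dd) ≤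
        2 * X.N ^ 15 * X.pw (-(2 : ℝ) / 5) * (2 * (X.N : ℝ) ^ 3 * (8 * (X.N : ℝ) ^ 54 * X.pw (-1))) :=
          mul_le_mul hut h5 (by positivity) (by positivity)
      _ = 32 * ((X.N : ℝ) ^ 72 * X.pw (-(7 : ℝ) / 5)) := by rw [← e]; ring
      _ ≤ X.pw (-(29 : ℝ) / 50) / 5 :=
          Adf_num X (y := 41 / 50) (by linarith) (by norm_num) (by norm_num) (by norm_num)
  have h6 : |Y.u α / X.th * S0 - Y.u α / X.th * S1| ≤ Y.u α / X.th * (2 * (X.n3 : ℝ) / X.dd) := by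
    rw [← mul_sub, abs_mul, abs_of_nonneg hu0]
    exact mul_le_mul_of_nonneg_left hS hu0
  have hdf : Y.df X.n3 α v = Y.ar X.n3 0 0 α (X.M α v) - Y.ar X.n3 0 1 α v := rfl
  rw [haa, hdf]
  have e : Y.ar X.n3 0 0 α (X.M α v) - Y.ar X.n3 0 1 α v =
      (Y.ar X.n3 0 0 α (X.M α v) - Y.u α / X.th * S0) - (Y.ar X.n3 0 1 α v - Y.u α / X.th * S1) +
      (Y.u α / X.th * S0 - Y.u α / X.th * S1) := by ring
  rw [e]
  have t1 := abs_add_le ((Y.ar X.n3 0 0 α (X.M α v) - Y.u α / X.th * S0) -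
      (Y.ar X.n3 0 1 α v - Y.u α / X.th * S1)) (Y.u α / X.th * S0 - Y.u α / X.th * S1)
  have t2 := abs_sub (Y.ar X.n3 0 0 α (X.M α v) - Y.u α / X.th * S0)
      (Y.ar X.n3 0 1 α v - Y.u α / X.th * S1)
  have e7 : (X.n3 : ℝ) * (X.pw (-(19 : ℝ) / 100) * (X.N ^ 90 * X.pw (-(2 : ℝ) / 5)) +
          2 * X.N ^ 15 * X.pw (-(2 : ℝ) / 5) / (X.th * X.dd)) =
      (X.n3 : ℝ) * (X.pw (-(19 : ℝ) / 100) * (X.N ^ 90 * X.pw (-(2 : ℝ) / 5))) +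
      (X.n3 : ℝ) * (2 * X.N ^ 15 * X.pw (-(2 : ℝ) / 5) / (X.th * X.dd)) := by ring
  rw [e7] at a3 b3
  linarith

end An

end Pool.Agent.H2.LN
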