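/-
ROW Adk. The difference in the last step of a block.
PROOF. `j0 = zl k`, `r = N^3 - 1`: `j0 + r = zl (k+1) - 1 < n`. As in Adf: `ar_y` with `B = 8/5 be k` (`sk`), `y_pt` from `j0` (no Z-layers strictly between: `isZ_no`; `I = be k`), `ck` at `j = zl k` for `P_δ` (`n3 ≤ r + 1`): `pa (A δ (zl k) P_δ) (m (zl k)) / th = be k ∑ A P_δ ± (tt [δ = 0] + 3 pw (-43/20)) / th`, `tt = N^36 pw (-2) / 2 + k pw (-21/10)`; `∑ A P_δ ∈ [1 - 4 N^3 / dd, 1]` (`RF_low`, `A_sum_ge`). So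
`|df| ≤ be k (4 N^3 / dd) + (tt + 6 pw (-43/20)) / th + 2 N^3 (pw (-19/100) (8/5) be k + be k / (th dd)) + 2 pw (-97/500) (8/5) be k`. The terms with `be k = 2 aa k` sum to `≤ pw (-3/20) aa k / 2` (`pwN` with `x = 1/25`), the rest is `≤ N^45 pw (-7/5) / 2` (`1 / th ≤ pw (3/5)`); `aa (k+1)` is the maximum of the two.
-/
import Pool.Agent.H2.LN.LD
import Pool.Agent.H2.LN.L.Ack
import Pool.Agent.H2.LN.L.Ayp
import Pool.Agent.H2.LN.L.Lrb

set_option autoImplicit false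
set_option linter.unusedSectionVars false

namespace Pool.Agent.H2.LN

open Finset Classical
open Pool.Agent.H65.GI

namespace An

variable {V : Type} [Fintype V] {X : Cx V} (Y : An X)

theorem Adk_aa_nn (X : Cx V) (k : ℕ) : 0 ≤ X.aa k := by
  cases k with
  | zero => exact (X.pw_pos _).le
  | succ k =>
    refine le_max_of_le_right ?_
    exact mul_nonneg (by positivity) (X.pw_pos _).le

theorem Adk_dd_pos (X : Cx V) : 0 < X.dd := by
  have h1 := X.dd_bd.1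
  have h2 := X.pw_pos 1
  have h3 : (0 : ℝ) < X.N := lt_of_lt_of_le (by norm_num) X.N_big
  have h4 : 0 < X.pw 1 / (8 * X.N ^ 54) := by positivity
  linarith

/-- the sum of `A P` for a receiver function -/
theorem Adk_sum {α : Fin X.s} {δ : ZMod 2} {j r : ℕ} {P : V → ℝ} (h : X.RF α δ j r P) :
    1 - (r + 1) * (2 / X.dd) ≤ ∑ x, X.A α δ j P x ∧ ∑ x, X.A α δ j P x ≤ 1 := by
  have hdd := Adk_dd_pos X
  have h1 := Cx.RF_low h
  have h2 := Cx.RF_l1 h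
  have h3 := Cx.RF_nn h
  have h4 := Cx.A_sum_ge (α := α) (δ := δ) (j := j) h3
  have h5 := Cx.A_sum_le (α := α) (δ := δ) (j := j) h3
  have h6 : ∑ x ∈ X.D, P x ≤ ∑ x, P x :=
    Finset.sum_le_sum_of_subset_of_nonneg (Finset.subset_univ _) (fun x _ _ => h3 x)
  have h7 : (∑ x ∈ X.D, P x) / X.dd ≤ 1 / X.dd := by
    apply div_le_div_of_nonneg_right (by linarith) hdd.le
  have h8 : (1 : ℝ) / X.dd ≤ 2 / X.dd := by
    apply div_le_div_of_nonneg_right (by norm_num) hdd.le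
  constructor
  · have : ((r : ℝ) + 1) * (2 / X.dd) = r * (2 / X.dd) + 2 / X.dd := by ring
    linarith
  · linarith

/-- one side -/
theorem Adk_one {k : ℕ} (hk : k < 8) (h : Y.Iv k) (δ : ZMod 2) (α : Fin X.s) (b : V)
    (hb : X.M α b ≠ b) (hs : X.sd α b = δ + 1) (hac : Y.ac (X.zl (k + 1) - 1) α b) :
    ∃ S : ℝ, 1 - X.N ^ 3 * (2 / X.dd) ≤ S ∧ S ≤ 1 ∧
      |Y.ar (X.zl (k + 1) - 1) 0 δ α b - X.be k * S| ≤
        X.pw (-(97 : ℝ) / 500) * (8 / 5 * X.be k) +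
        X.N ^ 3 * (X.pw (-(19 : ℝ) / 100) * (8 / 5 * X.be k) + X.be k / (X.th * X.dd)) +
        ((if δ = 0 then X.N ^ 36 * X.pw (-2) / 2 + k * X.pw (-(21 : ℝ) / 10) else 0) +
          3 * X.pw (-(43 : ℝ) / 20)) / X.th := by
  have hN : (1 : ℝ) ≤ X.N := le_trans (by norm_num) X.N_big
  have hN' : 1 ≤ X.N := by exact_mod_cast hN
  have hN3 : 1 ≤ X.N ^ 3 := Nat.one_le_pow _ _ hN'
  have hj : X.zl k + (X.N ^ 3 - 1) = X.zl (k + 1) - 1 := by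
    unfold Cx.zl
    have : (k + 1 + 1) * X.N ^ 3 = (k + 1) * X.N ^ 3 + X.N ^ 3 := by ring
    omega
  have hlt : X.zl (k + 1) - 1 < X.zl (k + 1) := by
    unfold Cx.zl; omega
  have hn : X.zl (k + 1) - 1 < X.n := by
    unfold Cx.zl Cx.n
    have : (k + 1 + 1) * X.N ^ 3 ≤ 9 * X.N ^ 3 := Nat.mul_le_mul_right _ (by omega)
    omega
  have hkk : X.zl k < X.zl (k + 1) := by omega
  have hbe : 0 ≤ X.be k := by
    unfold Cx.be; have := Adk_aa_nn X k; linarith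
  have hB : ∀ i, X.zl k ≤ i → i < X.zl (k + 1) → ∀ δ α a, |Y.m i 0 δ α a| ≤ 8 / 5 * X.be k := by
    intro i h1 h2 δ α a
    have := Y.sk hk h h1 h2 δ α a
    rw [abs_of_nonneg this.1]
    exact this.2
  have h1 := Y.ar_y hn 0 (hB _ (by omega) hlt) δ α b hac hs
  obtain ⟨P, hP, h2⟩ := Y.y_pt (j := X.zl k) (r := X.N ^ 3 - 1) (by rw [hj]; exact hn) 0
    (B := 8 / 5 * X.be k) (I := X.be k)
    (by
      intro i hi1 hi2 hh
      exact An.isZ_no (k := k) (j := i + 1) (by omega) (by omega) hh.2)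
    (fun i hi1 hi2 => hB i hi1 (by omega))
    (by
      intro i hi1 hi2 α
      rw [Y.ij_k (k := k) (by omega) (by omega), abs_of_nonneg hbe])
    δ α b hb hs
  rw [hj] at h2
  have h3 := Y.ck hk h le_rfl hkk hP (by unfold Cx.n3; omega)
  have h4 := Adk_sum hP
  have hth : 0 < X.th := lt_of_lt_of_le (X.pw_pos _) X.th_bd.1
  have hdd := Adk_dd_pos X
  have hr : (((X.N ^ 3 - 1 : ℕ) : ℝ)) + 1 = (X.N : ℝ) ^ 3 := by
    have : (X.N ^ 3 - 1) + 1 = X.N ^ 3 := by omega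
    exact_mod_cast this
  rw [hr] at h4
  refine ⟨∑ x, X.A α δ (X.zl k) P x, h4.1, h4.2, ?_⟩
  set Q := Cx.pa (X.A α δ (X.zl k) P) (Y.m (X.zl k) 0 δ α) with hQ
  set S := ∑ x, X.A α δ (X.zl k) P x with hS
  set E := (if δ = 0 then (X.N : ℝ) ^ 36 * X.pw (-2) / 2 + k * X.pw (-(21 : ℝ) / 10) else 0) +
    3 * X.pw (-(43 : ℝ) / 20) with hE
  have h3' : |Q - X.th * X.be k * S| ≤ E := by
    have e1 : ((X.zl k - X.zl k + 1 : ℕ) : ℝ) = 1 := by simp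
    rw [e1, one_mul] at h3
    exact h3
  have h5 : |Q / X.th - X.be k * S| ≤ E / X.th := by
    have : Q / X.th - X.be k * S = (Q - X.th * X.be k * S) / X.th := by
      field_simp
    rw [this, abs_div, abs_of_pos hth]
    exact div_le_div_of_nonneg_right h3' hth.le
  have h6 : ((X.N ^ 3 - 1 : ℕ) : ℝ) * (X.pw (-(19 : ℝ) / 100) * (8 / 5 * X.be k) + X.be k / (X.th * X.dd)) ≤
      (X.N : ℝ) ^ 3 * (X.pw (-(19 : ℝ) / 100) * (8 / 5 * X.be k) + X.be k / (X.th * X.dd)) := by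
    apply mul_le_mul_of_nonneg_right
    · linarith
    · have := X.pw_pos (-(19 : ℝ) / 100)
      positivity
  have h7 : Y.ar (X.zl (k + 1) - 1) 0 δ α b - X.be k * S =
      (Y.ar (X.zl (k + 1) - 1) 0 δ α b - Y.y (X.zl (k + 1) - 1) 0 δ α b) +
      ((Y.y (X.zl (k + 1) - 1) 0 δ α b - Q / X.th) + (Q / X.th - X.be k * S)) := by ring
  rw [h7]
  refine (abs_add_le _ _).trans ?_
  have h8 := abs_add_le (Y.y (X.zl (k + 1) - 1) 0 δ α b - Q / X.th) (Q / X.th - X.be k * S)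
  linarith

theorem Adk_pw_one_le (X : Cx V) : 1 ≤ X.pw (1 / 40000) := by
  have h := X.pwN 1 (1 / 40000) (by norm_num)
  have := X.N_big
  rw [pow_one] at h
  linarith [show (1 : ℝ) ≤ 2 ^ 40 by norm_num]

/-- the terms with `aa k` -/
theorem Adk_num1 (X : Cx V) :
    2 * (X.pw (-(97 : ℝ) / 500) * (8 / 5 * 2)) +
      2 * (X.N ^ 3 * (X.pw (-(19 : ℝ) / 100) * (8 / 5 * 2) + 2 / (X.th * X.dd))) +
      2 * (X.N ^ 3 * (2 / X.dd)) ≤ X.pw (-(3 : ℝ) / 20) / 2 := by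
  have hN := X.N_big
  have hN0 : (0 : ℝ) < X.N := lt_of_lt_of_le (by norm_num) hN
  have hdd := Adk_dd_pos X
  have hth : 0 < X.th := lt_of_lt_of_le (X.pw_pos _) X.th_bd.1
  have hp := X.pw_pos (-(3 : ℝ) / 20)
  -- first term
  have a1 : X.pw (-(97 : ℝ) / 500) * X.N ≤ X.pw (-(3 : ℝ) / 20) := by
    have h := X.pwN 1 (11 / 250) (by norm_num)
    rw [pow_one] at h
    have h2 := X.pw_add (-(97 : ℝ) / 500) (11 / 250)
    have e : (-(97 : ℝ) / 500) + 11 / 250 = -(3 : ℝ) / 20 := by norm_num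
    rw [e] at h2
    rw [← h2]
    exact mul_le_mul_of_nonneg_left h (X.pw_pos _).le
  have a2 : X.pw (-(19 : ℝ) / 100) * X.N ^ 4 ≤ X.pw (-(3 : ℝ) / 20) := by
    have h := X.pwN 4 (1 / 25) (by norm_num)
    have h2 := X.pw_add (-(19 : ℝ) / 100) (1 / 25)
    have e : (-(19 : ℝ) / 100) + 1 / 25 = -(3 : ℝ) / 20 := by norm_num
    rw [e] at h2
    rw [← h2]
    exact mul_le_mul_of_nonneg_left h (X.pw_pos _).le
  -- 1 / dd ≤ 8 N ^ 54 pw (-1)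
  have d1 : 1 / X.dd ≤ 8 * X.N ^ 54 * X.pw (-1) := by
    have h := X.dd_bd.1
    have hm : X.pw 1 * X.pw (-1) = 1 := by
      rw [X.pw_add]; unfold Cx.pw; norm_num
    have hq := X.pw_pos (-1)
    rw [div_le_iff₀ hdd]
    have : 8 * (X.N : ℝ) ^ 54 * X.pw (-1) * (X.pw 1 / (8 * X.N ^ 54)) = 1 := by
      have h8 : (8 * (X.N : ℝ) ^ 54) ≠ 0 := by positivity
      field_simp
      linarith
    calc (1 : ℝ) = 8 * (X.N : ℝ) ^ 54 * X.pw (-1) * (X.pw 1 / (8 * X.N ^ 54)) := this.symm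
      _ ≤ 8 * (X.N : ℝ) ^ 54 * X.pw (-1) * X.dd := by
        apply mul_le_mul_of_nonneg_left h
        positivity
  have t1 : 1 / X.th ≤ X.pw (3 / 5) := by
    have h := X.th_bd.1
    have hm : X.pw (-(3 : ℝ) / 5) * X.pw (3 / 5) = 1 := by
      rw [X.pw_add]; unfold Cx.pw; norm_num
    rw [div_le_iff₀ hth]
    have := mul_le_mul_of_nonneg_right h (X.pw_pos (3 / 5)).le
    linarith [mul_comm X.th (X.pw (3 / 5))]
  have a3 : X.N ^ 3 * (1 / (X.th * X.dd)) * X.N ≤ X.pw (-(3 : ℝ) / 20) := by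
    have e1 : 1 / (X.th * X.dd) = 1 / X.th * (1 / X.dd) := by field_simp
    have h1 : 1 / X.th * (1 / X.dd) ≤ X.pw (3 / 5) * (8 * X.N ^ 54 * X.pw (-1)) :=
      mul_le_mul t1 d1 (by positivity) (X.pw_pos _).le
    have e2 : X.pw (3 / 5) * X.pw (-1) = X.pw (-(2 : ℝ) / 5) := by
      rw [X.pw_add]; norm_num
    have h2 : (8 : ℝ) * (X.N : ℝ) ^ 58 ≤ (X.N : ℝ) ^ 59 := by
      have : (8 : ℝ) ≤ X.N := by linarith [show (8 : ℝ) ≤ 2 ^ 40 by norm_num]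
      calc (8 : ℝ) * (X.N : ℝ) ^ 58 ≤ (X.N : ℝ) * (X.N : ℝ) ^ 58 := by
            apply mul_le_mul_of_nonneg_right this (by positivity)
        _ = (X.N : ℝ) ^ 59 := by ring
    have h3 := X.pwN 59 (1 / 4) (by norm_num)
    have e3 : X.pw (-(2 : ℝ) / 5) * X.pw (1 / 4) = X.pw (-(3 : ℝ) / 20) := by
      rw [X.pw_add]; norm_num
    rw [e1]
    calc X.N ^ 3 * (1 / X.th * (1 / X.dd)) * X.N
        ≤ X.N ^ 3 * (X.pw (3 / 5) * (8 * X.N ^ 54 * X.pw (-1))) * X.N := by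
          apply mul_le_mul_of_nonneg_right _ hN0.le
          apply mul_le_mul_of_nonneg_left h1 (by positivity)
      _ = (X.pw (3 / 5) * X.pw (-1)) * (8 * X.N ^ 58) := by ring
      _ = X.pw (-(2 : ℝ) / 5) * (8 * X.N ^ 58) := by rw [e2]
      _ ≤ X.pw (-(2 : ℝ) / 5) * X.pw (1 / 4) := by
          apply mul_le_mul_of_nonneg_left (h2.trans h3) (X.pw_pos _).le
      _ = X.pw (-(3 : ℝ) / 20) := e3
  have a4 : X.N ^ 3 * (1 / X.dd) * X.N ≤ X.pw (-(3 : ℝ) / 20) := by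
    refine le_trans ?_ a3
    apply mul_le_mul_of_nonneg_right _ hN0.le
    apply mul_le_mul_of_nonneg_left _ (by positivity)
    apply one_div_le_one_div_of_le (by positivity)
    calc X.th * X.dd ≤ 1 * X.dd := mul_le_mul_of_nonneg_right X.th_bd.2.2.2 hdd.le
      _ = X.dd := one_mul _
  -- collect
  have b1 : X.pw (-(97 : ℝ) / 500) * 1000 ≤ X.pw (-(3 : ℝ) / 20) := by
    refine le_trans ?_ a1
    apply mul_le_mul_of_nonneg_left _ (X.pw_pos _).le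
    linarith [show (1000 : ℝ) ≤ 2 ^ 40 by norm_num]
  have b2 : X.N ^ 3 * X.pw (-(19 : ℝ) / 100) * 1000 ≤ X.pw (-(3 : ℝ) / 20) := by
    refine le_trans ?_ a2
    calc X.N ^ 3 * X.pw (-(19 : ℝ) / 100) * 1000 ≤ X.N ^ 3 * X.pw (-(19 : ℝ) / 100) * X.N := by
          apply mul_le_mul_of_nonneg_left _ (mul_nonneg (by positivity) (X.pw_pos _).le)
          linarith [show (1000 : ℝ) ≤ 2 ^ 40 by norm_num]
      _ = X.pw (-(19 : ℝ) / 100) * X.N ^ 4 := by ring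
  have b3 : X.N ^ 3 * (1 / (X.th * X.dd)) * 1000 ≤ X.pw (-(3 : ℝ) / 20) := by
    refine le_trans ?_ a3
    apply mul_le_mul_of_nonneg_left _ (by positivity)
    linarith [show (1000 : ℝ) ≤ 2 ^ 40 by norm_num]
  have b4 : X.N ^ 3 * (1 / X.dd) * 1000 ≤ X.pw (-(3 : ℝ) / 20) := by
    refine le_trans ?_ a4
    apply mul_le_mul_of_nonneg_left _ (by positivity)
    linarith [show (1000 : ℝ) ≤ 2 ^ 40 by norm_num]
  have e1 : 2 / (X.th * X.dd) = 2 * (1 / (X.th * X.dd)) := by ring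
  have e2 : 2 / X.dd = 2 * (1 / X.dd) := by ring
  rw [e1, e2]
  nlinarith [b1, b2, b3, b4, hp]

/-- the other terms -/
theorem Adk_num2 (X : Cx V) {k : ℕ} (hk : k < 8) :
    (X.N ^ 36 * X.pw (-2) / 2 + k * X.pw (-(21 : ℝ) / 10) + 3 * X.pw (-(43 : ℝ) / 20)) / X.th +
      3 * X.pw (-(43 : ℝ) / 20) / X.th ≤ (X.N : ℝ) ^ 45 * X.pw (-(7 : ℝ) / 5) / 2 := by
  have hN := X.N_big
  have hN0 : (0 : ℝ) < X.N := lt_of_lt_of_le (by norm_num) hN
  have hN1 : (1 : ℝ) ≤ X.N := le_trans (by norm_num) hN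
  have hth : 0 < X.th := lt_of_lt_of_le (X.pw_pos _) X.th_bd.1
  have t1 : 1 / X.th ≤ X.pw (3 / 5) := by
    have h := X.th_bd.1
    have hm : X.pw (-(3 : ℝ) / 5) * X.pw (3 / 5) = 1 := by
      rw [X.pw_add]; unfold Cx.pw; norm_num
    rw [div_le_iff₀ hth]
    have := mul_le_mul_of_nonneg_right h (X.pw_pos (3 / 5)).le
    linarith [mul_comm X.th (X.pw (3 / 5))]
  have e1 : X.pw (-2) * X.pw (3 / 5) = X.pw (-(7 : ℝ) / 5) := by
    rw [X.pw_add]; norm_num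
  have mono : ∀ x y : ℝ, x ≤ y → X.pw x ≤ X.pw y := by
    intro x y hxy
    unfold Cx.pw
    apply Real.rpow_le_rpow_of_exponent_le _ hxy
    have h1 := Adk_pw_one_le X
    by_contra hcon
    rw [not_le] at hcon
    have hΔ0 : (0 : ℝ) ≤ X.Δ := Nat.cast_nonneg _
    have : X.pw (1 / 40000) < 1 := by
      unfold Cx.pw
      exact Real.rpow_lt_one hΔ0 hcon (by norm_num)
    linarith
  have e2 : X.pw (-(21 : ℝ) / 10) * X.pw (3 / 5) ≤ X.pw (-(7 : ℝ) / 5) := by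
    rw [X.pw_add]; apply mono; norm_num
  have e3 : X.pw (-(43 : ℝ) / 20) * X.pw (3 / 5) ≤ X.pw (-(7 : ℝ) / 5) := by
    rw [X.pw_add]; apply mono; norm_num
  have hk' : (k : ℝ) ≤ 8 := by exact_mod_cast hk.le
  have hp := X.pw_pos (-(7 : ℝ) / 5)
  have p2 := X.pw_pos (-2)
  have p3 := X.pw_pos (-(21 : ℝ) / 10)
  have p4 := X.pw_pos (-(43 : ℝ) / 20)
  set W := X.N ^ 36 * X.pw (-2) / 2 + k * X.pw (-(21 : ℝ) / 10) + 6 * X.pw (-(43 : ℝ) / 20) with hW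
  have hW0 : 0 ≤ W := by rw [hW]; positivity
  have h1 : (X.N ^ 36 * X.pw (-2) / 2 + k * X.pw (-(21 : ℝ) / 10) + 3 * X.pw (-(43 : ℝ) / 20)) / X.th +
      3 * X.pw (-(43 : ℝ) / 20) / X.th = W * (1 / X.th) := by
    rw [hW]; ring
  rw [h1]
  have h2 : W * (1 / X.th) ≤ W * X.pw (3 / 5) := mul_le_mul_of_nonneg_left t1 hW0
  have h3 : W * X.pw (3 / 5) ≤ (X.N ^ 36 / 2 + 8 + 6) * X.pw (-(7 : ℝ) / 5) := by
    have : W * X.pw (3 / 5) = X.N ^ 36 / 2 * (X.pw (-2) * X.pw (3 / 5)) +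
        k * (X.pw (-(21 : ℝ) / 10) * X.pw (3 / 5)) + 6 * (X.pw (-(43 : ℝ) / 20) * X.pw (3 / 5)) := by
      rw [hW]; ring
    rw [this, e1]
    have c1 : (k : ℝ) * (X.pw (-(21 : ℝ) / 10) * X.pw (3 / 5)) ≤ 8 * X.pw (-(7 : ℝ) / 5) :=
      mul_le_mul hk' e2 (mul_nonneg p3.le (X.pw_pos _).le) (by norm_num)
    linarith
  have h4 : (X.N : ℝ) ^ 36 / 2 + 8 + 6 ≤ X.N ^ 45 / 2 := by
    have c1 : (1 : ℝ) ≤ X.N ^ 36 := one_le_pow₀ hN1
    have c2 : (X.N : ℝ) ≤ X.N ^ 9 := by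
      calc (X.N : ℝ) = X.N ^ 1 := (pow_one _).symm
        _ ≤ X.N ^ 9 := pow_le_pow_right₀ hN1 (by norm_num)
    have c3 : (29 : ℝ) ≤ X.N ^ 9 := by
      linarith [show (29 : ℝ) ≤ 2 ^ 40 by norm_num]
    have c4 : (X.N : ℝ) ^ 45 = X.N ^ 36 * X.N ^ 9 := by ring
    rw [c4]
    nlinarith
  calc W * (1 / X.th) ≤ W * X.pw (3 / 5) := h2
    _ ≤ (X.N ^ 36 / 2 + 8 + 6) * X.pw (-(7 : ℝ) / 5) := h3
    _ ≤ (X.N ^ 45 / 2) * X.pw (-(7 : ℝ) / 5) := mul_le_mul_of_nonneg_right h4 hp.le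
    _ = (X.N : ℝ) ^ 45 * X.pw (-(7 : ℝ) / 5) / 2 := by ring

theorem dfk {k : ℕ} (hk : k < 8) (h : Y.Iv k) (α : Fin X.s) (v : V) (h1 : X.sd α v = 0)
    (h2 : Y.ac (X.zl (k + 1) - 1) α v) (h3 : X.M α v ≠ v) :
    |Y.df (X.zl (k + 1) - 1) α v| ≤ X.aa (k + 1) := by
  have hs0 : X.sd α (X.M α v) = 0 + 1 := by rw [X.M_sd h3, h1]
  have hb0 : X.M α (X.M α v) ≠ X.M α v := by
    rw [X.M_M]; exact fun hh => h3 hh.symm
  have hs1 : X.sd α v = 1 + 1 := by rw [h1]; decide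
  obtain ⟨S0, l0, u0, w0⟩ := Adk_one Y hk h 0 α (X.M α v) hb0 hs0 (Y.ac_M h2)
  obtain ⟨S1, l1, u1, w1⟩ := Adk_one Y hk h 1 α v h3 hs1 h2
  rw [if_pos rfl] at w0
  rw [if_neg (by decide : ¬ ((1 : ZMod 2) = 0)), zero_add] at w1
  have hbe : X.be k = 2 * X.aa k := rfl
  have haa := Adk_aa_nn X k
  have n1 := Adk_num1 X
  have n2 := Adk_num2 X hk
  have hdf : Y.df (X.zl (k + 1) - 1) α v = (Y.ar (X.zl (k + 1) - 1) 0 0 α (X.M α v) - X.be k * S0) -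
      (Y.ar (X.zl (k + 1) - 1) 0 1 α v - X.be k * S1) + X.be k * (S0 - S1) := by
    unfold An.df; ring
  have hS : |S0 - S1| ≤ X.N ^ 3 * (2 / X.dd) := by
    rw [abs_le]; constructor <;> linarith
  have hbS : |X.be k * (S0 - S1)| ≤ X.be k * (X.N ^ 3 * (2 / X.dd)) := by
    rw [abs_mul, abs_of_nonneg (by rw [hbe]; positivity)]
    exact mul_le_mul_of_nonneg_left hS (by rw [hbe]; positivity)
  have hmain : |Y.df (X.zl (k + 1) - 1) α v| ≤ X.aa k * (X.pw (-(3 : ℝ) / 20) / 2) +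
      (X.N : ℝ) ^ 45 * X.pw (-(7 : ℝ) / 5) / 2 := by
    rw [hdf]
    refine (abs_add_le _ _).trans ?_
    have g1 := abs_sub (Y.ar (X.zl (k + 1) - 1) 0 0 α (X.M α v) - X.be k * S0)
      (Y.ar (X.zl (k + 1) - 1) 0 1 α v - X.be k * S1)
    have g2 := mul_le_mul_of_nonneg_left n1 haa
    rw [hbe] at w0 w1 hbS g1 ⊢
    have g3 : 2 * X.aa k / (X.th * X.dd) = X.aa k * (2 / (X.th * X.dd)) := by ring
    rw [g3] at w0 w1
    nlinarith [w0, w1, hbS, g1, g2, n2]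
  have m1 : X.pw (-(3 : ℝ) / 20) * X.aa k ≤ X.aa (k + 1) := le_max_left _ _
  have m2 : (X.N : ℝ) ^ 45 * X.pw (-(7 : ℝ) / 5) ≤ X.aa (k + 1) := le_max_right _ _
  linarith
end An

end Pool.Agent.H2.LN
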