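/-
ROW Ai0. The first Z-layer.
PROOF. `zl 0 = N^3 + 1`, `j = N^3`. `e`: `v ∈ S (zl 0) 0 α`: `sd v = 0`, `ac N^3 v` (`S_succ`). If `M v = v`: `m = inj = be 0`, difference `0 ≤ aa 0`. If `M v ≠ v`: `m = be 0 + df` (unfold `nxt`; `isZ (zl 0)`), `df0`. `c`: `F = A α 0 (zl 0) P`, `id_z0`: `be 0 ∑_S F + ∑ mv F ar^0 - ∑ nd F ar^1`. `∑_S F = th ∑_{sd = 0, ∉ ds} F ± pw (-19/5)` (`st_h`, `TF.ls`), `F` lives on `sd = 0` (`RF_nd`, `R_sd`), `∑_{ds} F ≤ kd / dd` (`A_box`, `Y.kd`).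
`P0 = mv F`: `RF 0 N^3 (r+1)`, `P1 = nd F`: `RF 1 N^3 (r+1)` (`RF.tn` with `k = 0`, `zl 0 - 1 = N^3`). `st_le`, `er0`: each `∑ P_δ ar^δ = pa (A δ N^3 P_δ) (m N^3) ± (5 N^31 pw (-2) + pw (-19/5))`, `c0j`: `= u ∑ A δ N^3 P_δ ± (N^3 + 1) N^32 pw (-2)`. `RF_k2` twice: `|∑ A 0 N^3 P0 - ∑ A 1 N^3 P1| ≤ 2 N^5 / dd^2`. Sum of the errors: `2 (N^3+1) N^32 pw (-2) + 10 N^31 pw (-2) + 2 pw (-19/5) + u 2 N^5 / dd^2 + be 0 (th kd / dd + pw (-19/5)) ≤ N^36 pw (-2) / 2`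
(`be 0 th kd / dd ≤ 2 pw (-29/50) 1.01 pw (-3/5) 8 N^106 pw (-1) ≤ pw (-21/10)`).
-/
import Pool.Agent.H2.LN.LD
import Pool.Agent.H2.LN.L.Acj
import Pool.Agent.H2.LN.L.Adf
import Pool.Agent.H2.LN.L.Ast
import Pool.Agent.H2.LN.L.Lrb
import Pool.Agent.H2.LN.L.Lop
import Pool.Agent.H2.LN.L.Aid
import Pool.Agent.H2.LN.L.As0
import Pool.Agent.H2.LN.L.Agn
import Pool.Agent.H2.LN.L.Lbs
import Pool.Agent.H2.LN.L.Lnm
import Pool.Agent.H2.LN.L.Lrf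

set_option autoImplicit false
set_option linter.unusedSectionVars false

namespace Pool.Agent.H2.LN

open Finset Classical
open Pool.Agent.H65.GI

namespace An

variable {V : Type} [Fintype V] {X : Cx V} (Y : An X)

private theorem Ai0_zl : X.zl 0 = X.n3 + 1 := by
  simp [Cx.zl, Cx.n3]

private theorem Ai0_Npos : 0 < X.N := by
  have h := X.pm.big
  have : 0 < 2 ^ 40 := by norm_num
  omega

private theorem Ai0_n3pos : 0 < X.n3 := by
  unfold Cx.n3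
  exact pow_pos Ai0_Npos 3

private theorem Ai0_n3lt : X.n3 < X.n := by
  unfold Cx.n Cx.n3
  have : 0 ≤ X.N ^ 3 := Nat.zero_le _
  omega

private theorem Ai0_zln : X.zl 0 ≤ X.n := by
  have := Ai0_n3lt (X := X)
  rw [Ai0_zl]
  omega

private theorem Ai0_bk : X.bk (X.n3 + 1) = 1 := by
  unfold Cx.bk
  have h : 0 < X.N ^ 3 := pow_pos Ai0_Npos 3
  show (X.n3 + 1 - 1) / X.N ^ 3 = 1
  rw [Nat.add_sub_cancel]
  exact Nat.div_self h

private theorem Ai0_isZ : X.isZ (X.n3 + 1) := ⟨0, by norm_num, Ai0_zl.symm⟩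

/-- part e -/
private theorem Ai0_e (α : Fin X.s) (v : V) (hv : v ∈ Y.S (X.zl 0) 0 α) :
    |Y.m (X.zl 0) 0 0 α v - X.be 0| ≤ X.aa 0 := by
  rw [Ai0_zl] at hv ⊢
  have haa : 0 ≤ X.aa 0 := le_of_lt (X.pw_pos _)
  have h12 := (Y.S_succ X.n3 0 α v).1 hv
  have hmem : v ∈ X.nS Y.ds (Y.ω (X.n3 + 1)) 0 α := hv
  by_cases hM : X.M α v = v
  · have hm : Y.m (X.n3 + 1) 0 0 α v = X.be 0 := by
      show (if v ∈ X.nS Y.ds (Y.ω (X.n3 + 1)) 0 α then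
        (if X.M α v = v then (if (0 : Fin 2) = 0 then X.inj (Y.u α) (X.n3 + 1) else 0)
          else _) else (0 : ℝ)) = X.be 0
      rw [if_pos hmem, if_pos hM, if_pos rfl]
      unfold Cx.inj
      rw [Ai0_bk, if_neg one_ne_zero]
    rw [hm, sub_self, abs_zero]
    exact haa
  · have hm : Y.m (X.n3 + 1) 0 0 α v = X.be 0 + Y.df X.n3 α v := by
      show (if v ∈ X.nS Y.ds (Y.ω (X.n3 + 1)) 0 α then
        (if X.M α v = v then (if (0 : Fin 2) = 0 then X.inj (Y.u α) (X.n3 + 1) else 0)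
          else if (0 : Fin 2) = 0 ∧ X.isZ (X.n3 + 1) then
            (if (0 : ZMod 2) = 0 then X.be (X.bk (X.n3 + 1) - 1) +
              X.arr Y.ds X.n3 (Y.t X.n3) (Y.ω (X.n3 + 1)) 0 0 α (X.M α v) -
              X.arr Y.ds X.n3 (Y.t X.n3) (Y.ω (X.n3 + 1)) 0 1 α v
              else X.be (X.bk (X.n3 + 1) - 1))
          else X.arr Y.ds X.n3 (Y.t X.n3) (Y.ω (X.n3 + 1)) 0 0 α (X.M α v)) else (0 : ℝ)) =
        X.be 0 + Y.df X.n3 α v
      rw [if_pos hmem, if_neg hM, if_pos ⟨rfl, Ai0_isZ⟩, if_pos rfl, Ai0_bk]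
      unfold An.df An.ar
      ring
    rw [hm, add_sub_cancel_left]
    exact Y.df0 α v h12.1 h12.2 hM

/-- the function lives on the side 0 -/
private theorem Ai0_sd {α : Fin X.s} {r : ℕ} {P : V → ℝ} (h : X.RF α 0 (X.zl 0) r P) (x : V)
    (hx : X.A α 0 (X.zl 0) P x ≠ 0) : X.sd α x = 0 := by
  have h1 : (∑ b ∈ X.R α 0 (X.zl 0) x, P b) ≠ 0 := by
    intro h0
    apply hx
    unfold Cx.A
    rw [h0, zero_div]
  obtain ⟨b, hb, hPb⟩ := Finset.exists_ne_zero_of_sum_ne_zero h1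
  have h2 := (Cx.RF_nd h b hPb).2
  have h3 := X.R_sd hb
  rw [h3] at h2
  have h4 : X.sd α x + 1 = 0 + 1 := h2
  exact add_right_cancel h4

private theorem Ai0_sum {α : Fin X.s} {r : ℕ} {P : V → ℝ} (h : X.RF α 0 (X.zl 0) r P)
    (hr : X.n3 ≤ r + 1) :
    |(∑ v ∈ Y.S (X.zl 0) 0 α, X.A α 0 (X.zl 0) P v) - X.th * ∑ x, X.A α 0 (X.zl 0) P x| ≤
      X.pw (-(19 : ℝ) / 5) + X.th * (X.kd / X.dd) := by
  set F := X.A α 0 (X.zl 0) P with hF
  have hF0 : ∀ x, 0 ≤ F x := fun x => Cx.A_nn (X := X) (fun y => Cx.RF_nn h y) x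
  have h1 := Y.st_h (Ai0_n3lt (X := X)) 0 α (Cx.TF.ls (c := Y.c) (Rc := Y.Rc) α 0 (X.zl 0) r P hr h)
  rw [← Ai0_zl] at h1
  have h2 : ∑ x ∈ Y.ds α, F x ≤ X.kd / X.dd := by
    apply Cx.A_box (X := X) (fun y => Cx.RF_nn h y) (Cx.RF_l1 h) (Y.ds α) X.kd (Nat.cast_nonneg _)
    intro b
    have := Y.kd α 0 (X.zl 0) b Ai0_zln
    exact_mod_cast this
  have h3 : (∑ x, F x) = (∑ x ∈ univ.filter (fun x => X.sd α x = 0 ∧ x ∉ Y.ds α), F x) +
      ∑ x ∈ Y.ds α, (if X.sd α x = 0 then F x else 0) := by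
    have e1 : (∑ x, F x) = ∑ x, ((if X.sd α x = 0 ∧ x ∉ Y.ds α then F x else 0) +
        (if x ∈ Y.ds α then (if X.sd α x = 0 then F x else 0) else 0)) := by
      apply Finset.sum_congr rfl
      intro x _
      by_cases hs : X.sd α x = 0
      · by_cases hd : x ∈ Y.ds α
        · simp [hs, hd]
        · simp [hs, hd]
      · have : F x = 0 := by
          by_contra hne
          exact hs (Ai0_sd h x hne)
        simp [this]
    rw [e1, Finset.sum_add_distrib, Finset.sum_filter]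
    congr 1
    rw [← Finset.sum_filter]
    congr 1
    ext x
    simp
  have h4 : 0 ≤ ∑ x ∈ Y.ds α, (if X.sd α x = 0 then F x else 0) := by
    apply Finset.sum_nonneg
    intro x _
    split_ifs
    · exact hF0 x
    · exact le_refl _
  have h5 : ∑ x ∈ Y.ds α, (if X.sd α x = 0 then F x else 0) ≤ X.kd / X.dd := by
    refine le_trans (Finset.sum_le_sum fun x _ => ?_) h2
    split_ifs
    · exact le_refl _
    · exact hF0 x
  have hth : 0 ≤ X.th := le_trans (le_of_lt (X.pw_pos _)) X.th_bd.1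
  have h6 : |X.th * (∑ x ∈ univ.filter (fun x => X.sd α x = 0 ∧ x ∉ Y.ds α), F x) -
      X.th * ∑ x, F x| ≤ X.th * (X.kd / X.dd) := by
    rw [h3, ← mul_sub, abs_mul, abs_of_nonneg hth]
    apply mul_le_mul_of_nonneg_left _ hth
    rw [sub_add_cancel_left, abs_neg, abs_of_nonneg h4]
    exact h5
  calc |(∑ v ∈ Y.S (X.zl 0) 0 α, F v) - X.th * ∑ x, F x|
      = |((∑ v ∈ Y.S (X.zl 0) 0 α, F v) -
          X.th * ∑ x ∈ univ.filter (fun x => X.sd α x = 0 ∧ x ∉ Y.ds α), F x) +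
          (X.th * (∑ x ∈ univ.filter (fun x => X.sd α x = 0 ∧ x ∉ Y.ds α), F x) -
            X.th * ∑ x, F x)| := by ring_nf
    _ ≤ _ := abs_add_le _ _
    _ ≤ _ := add_le_add h1 h6

/-- one direction -/
private theorem Ai0_dir {α : Fin X.s} {δ : ZMod 2} {r : ℕ} {P : V → ℝ} (h : X.RF α δ X.n3 r P)
    (hr : X.n3 ≤ r) :
    |(∑ b, P b * Y.ar X.n3 0 δ α b) - Y.u α * ∑ x, X.A α δ X.n3 P x| ≤
      5 * (X.N ^ 31 * X.pw (-2)) + X.pw (-(19 : ℝ) / 5) / 2 +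
        (X.n3 + 1) * (X.N ^ 32 * X.pw (-2)) := by
  have h1 := Y.st_le (Ai0_n3lt (X := X)) 0 δ α (Cx.TF.rc (c := Y.c) (Rc := Y.Rc) α δ X.n3 r P hr h)
    (fun x => Cx.RF_nn h x) (B := 1) (fun δ α v => (Y.s0 (le_refl _) δ α v).1)
    (fun δ α v => (Y.s0 (le_refl _) δ α v).2.1)
  have h2 := Y.er0 (le_refl _) h hr
  have h3 := Y.c0j (le_refl _) h (le_trans hr (Nat.le_succ r))
  rw [abs_le] at h1 h3 ⊢
  constructor
  · linarith [h1.1, h3.1]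
  · linarith [h1.2, h3.2]

private theorem Ai0_num (α : Fin X.s) :
    X.be 0 * (X.pw (-(19 : ℝ) / 5) + X.th * (X.kd / X.dd)) +
      2 * (5 * (X.N ^ 31 * X.pw (-2)) + X.pw (-(19 : ℝ) / 5) / 2 +
        (X.n3 + 1) * (X.N ^ 32 * X.pw (-2))) + Y.u α * (2 * (X.N ^ 5 / X.dd ^ 2)) ≤
      X.N ^ 36 * X.pw (-2) / 2 := by
  have hN := X.N_big
  have hN1 : (1 : ℝ) ≤ X.N := le_trans (by norm_num) hN
  have hN0 : (0 : ℝ) < X.N := lt_of_lt_of_le one_pos hN1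
  have hD := X.pw_pos (-2)
  have hp0 : X.pw 0 = 1 := by simp [Cx.pw]
  have hone : ∀ x : ℝ, 0 ≤ x → 1 ≤ X.pw x := by
    intro x hx
    have := X.pwN 0 x (by simpa using hx)
    simpa using this
  -- the small powers
  have a1 : X.pw (-(19 : ℝ) / 5) ≤ X.pw (-2) := by
    have e : X.pw (-(19 : ℝ) / 5) * X.pw (9 / 5) = X.pw (-2) := by
      rw [X.pw_add]; norm_num
    rw [← e]
    exact le_mul_of_one_le_right (le_of_lt (X.pw_pos _)) (hone _ (by norm_num))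
  have hbe : X.be 0 = 2 * X.pw (-(29 : ℝ) / 50) := rfl
  have hb1 : X.pw (-(29 : ℝ) / 50) ≤ 1 := by
    have e : X.pw (-(29 : ℝ) / 50) * X.pw (29 / 50) = 1 := by
      rw [X.pw_add]; norm_num [hp0]
    refine le_trans ?_ (le_of_eq e)
    exact le_mul_of_one_le_right (le_of_lt (X.pw_pos _)) (hone _ (by norm_num))
  have hbp := X.pw_pos (-(29 : ℝ) / 50)
  have hdd := X.dd_bd.1
  have hddp : 0 < X.dd := lt_of_lt_of_le (div_pos (X.pw_pos 1) (by positivity)) hdd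
  -- 1 / dd
  have hinv : 1 / X.dd ≤ 8 * X.N ^ 54 * X.pw (-1) := by
    rw [div_le_iff₀ hddp]
    have e : X.pw (-1) * X.pw 1 = 1 := by rw [X.pw_add]; norm_num [hp0]
    have h1 : 8 * X.N ^ 54 * X.pw (-1) * (X.pw 1 / (8 * X.N ^ 54)) ≤
        8 * X.N ^ 54 * X.pw (-1) * X.dd :=
      mul_le_mul_of_nonneg_left hdd (mul_nonneg (by positivity) (le_of_lt (X.pw_pos _)))
    have h2 : 8 * (X.N : ℝ) ^ 54 * X.pw (-1) * (X.pw 1 / (8 * X.N ^ 54)) = 1 := by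
      have h3 : 8 * (X.N : ℝ) ^ 54 * X.pw (-1) * (X.pw 1 / (8 * X.N ^ 54)) =
          X.pw (-1) * X.pw 1 := by field_simp
      rw [h3, e]
    linarith
  have hip : 0 < 1 / X.dd := by positivity
  have hth := X.th_bd.2.1
  have hth0 : 0 ≤ X.th := le_trans (le_of_lt (X.pw_pos _)) X.th_bd.1
  have hu := (Y.u_bd α).2
  have hu0 := (Y.u_bd α).1
  -- the term of the spoiled vertices
  have b1 : X.be 0 * (X.th * (X.kd / X.dd)) ≤ X.pw (-2) := by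
    have hkd : (X.kd : ℝ) = X.N ^ 52 := by simp [Cx.kd]
    have e0 : X.kd / X.dd = X.N ^ 52 * (1 / X.dd) := by rw [hkd]; ring
    have h1 : X.kd / X.dd ≤ 8 * X.N ^ 106 * X.pw (-1) := by
      rw [e0]
      calc (X.N : ℝ) ^ 52 * (1 / X.dd) ≤ X.N ^ 52 * (8 * X.N ^ 54 * X.pw (-1)) :=
            mul_le_mul_of_nonneg_left hinv (by positivity)
        _ = 8 * X.N ^ 106 * X.pw (-1) := by ring
    have h0 : 0 ≤ (X.kd : ℝ) / X.dd := by positivity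
    have h2 : X.th * (X.kd / X.dd) ≤ (101 / 100 * X.pw (-(3 : ℝ) / 5)) *
        (8 * X.N ^ 106 * X.pw (-1)) :=
      mul_le_mul hth h1 h0 (mul_nonneg (by norm_num) (le_of_lt (X.pw_pos _)))
    have h3 : X.be 0 * (X.th * (X.kd / X.dd)) ≤ (2 * X.pw (-(29 : ℝ) / 50)) *
        ((101 / 100 * X.pw (-(3 : ℝ) / 5)) * (8 * X.N ^ 106 * X.pw (-1))) := by
      rw [hbe]
      exact mul_le_mul_of_nonneg_left h2 (by positivity)
    have e1 : X.pw (-(29 : ℝ) / 50) * (X.pw (-(3 : ℝ) / 5) * X.pw (-1)) =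
        X.pw (-2) * X.pw (-(9 : ℝ) / 50) := by
      rw [X.pw_add, X.pw_add, X.pw_add]; norm_num
    have h4 : (2 * X.pw (-(29 : ℝ) / 50)) *
        ((101 / 100 * X.pw (-(3 : ℝ) / 5)) * (8 * X.N ^ 106 * X.pw (-1))) =
        (404 / 25 * X.N ^ 106 * X.pw (-(9 : ℝ) / 50)) * X.pw (-2) := by
      calc _ = (404 / 25 * X.N ^ 106) *
            (X.pw (-(29 : ℝ) / 50) * (X.pw (-(3 : ℝ) / 5) * X.pw (-1))) := by ring
        _ = _ := by rw [e1]; ring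
    have h5 : 404 / 25 * X.N ^ 106 * X.pw (-(9 : ℝ) / 50) ≤ 1 := by
      have e : X.pw (9 / 50) * X.pw (-(9 : ℝ) / 50) = 1 := by
        rw [X.pw_add]; norm_num [hp0]
      refine le_trans ?_ (le_of_eq e)
      apply mul_le_mul_of_nonneg_right _ (le_of_lt (X.pw_pos _))
      have hp := X.pwN 107 (9 / 50) (by norm_num)
      refine le_trans ?_ hp
      have : (X.N : ℝ) ^ 107 = X.N * X.N ^ 106 := by ring
      rw [this]
      apply mul_le_mul_of_nonneg_right _ (by positivity)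
      linarith
    calc _ ≤ _ := h3
      _ = _ := h4
      _ ≤ 1 * X.pw (-2) := mul_le_mul_of_nonneg_right h5 (le_of_lt hD)
      _ = _ := one_mul _
  have b2 : Y.u α * (2 * (X.N ^ 5 / X.dd ^ 2)) ≤ X.pw (-2) := by
    have e0 : 2 * (X.N ^ 5 / X.dd ^ 2) = 2 * X.N ^ 5 * ((1 / X.dd) * (1 / X.dd)) := by
      field_simp
    have h1 : (1 / X.dd) * (1 / X.dd) ≤ (8 * X.N ^ 54 * X.pw (-1)) * (8 * X.N ^ 54 * X.pw (-1)) :=
      mul_le_mul hinv hinv (le_of_lt hip) (le_trans (le_of_lt hip) hinv)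
    have h2 : 2 * (X.N : ℝ) ^ 5 * ((1 / X.dd) * (1 / X.dd)) ≤ 2 * X.N ^ 5 *
        ((8 * X.N ^ 54 * X.pw (-1)) * (8 * X.N ^ 54 * X.pw (-1))) :=
      mul_le_mul_of_nonneg_left h1 (by positivity)
    have h3 : Y.u α * (2 * (X.N ^ 5 / X.dd ^ 2)) ≤ (2 * X.N ^ 15 * X.pw (-1)) * (2 * X.N ^ 5 *
        ((8 * X.N ^ 54 * X.pw (-1)) * (8 * X.N ^ 54 * X.pw (-1)))) := by
      rw [e0]
      exact mul_le_mul hu h2 (by positivity) (le_trans hu0 hu)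
    have e1 : X.pw (-1) * (X.pw (-1) * X.pw (-1)) = X.pw (-2) * X.pw (-1) := by
      rw [X.pw_add, X.pw_add, X.pw_add]; norm_num
    have h4 : (2 * X.N ^ 15 * X.pw (-1)) * (2 * X.N ^ 5 *
        ((8 * X.N ^ 54 * X.pw (-1)) * (8 * X.N ^ 54 * X.pw (-1)))) =
        (256 * X.N ^ 128 * X.pw (-1)) * X.pw (-2) := by
      calc _ = (256 * X.N ^ 128) * (X.pw (-1) * (X.pw (-1) * X.pw (-1))) := by ring
        _ = _ := by rw [e1]; ring
    have h5 : 256 * X.N ^ 128 * X.pw (-1) ≤ 1 := by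
      have e : X.pw 1 * X.pw (-1) = 1 := by
        rw [X.pw_add]; norm_num [hp0]
      refine le_trans ?_ (le_of_eq e)
      apply mul_le_mul_of_nonneg_right _ (le_of_lt (X.pw_pos _))
      have hp := X.pwN 129 1 (by norm_num)
      refine le_trans ?_ hp
      have : (X.N : ℝ) ^ 129 = X.N * X.N ^ 128 := by ring
      rw [this]
      apply mul_le_mul_of_nonneg_right _ (by positivity)
      linarith
    calc _ ≤ _ := h3
      _ = _ := h4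
      _ ≤ 1 * X.pw (-2) := mul_le_mul_of_nonneg_right h5 (le_of_lt hD)
      _ = _ := one_mul _
  have b3 : X.be 0 * X.pw (-(19 : ℝ) / 5) ≤ 2 * X.pw (-2) := by
    rw [hbe]
    exact mul_le_mul (by linarith) a1 (le_of_lt (X.pw_pos _)) (by norm_num)
  have hn3 : (X.n3 : ℝ) = X.N ^ 3 := by simp [Cx.n3]
  have c1 : (X.N : ℝ) ^ 31 * X.pw (-2) ≤ X.N ^ 35 * X.pw (-2) :=
    mul_le_mul_of_nonneg_right (pow_le_pow_right₀ hN1 (by norm_num)) (le_of_lt hD)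
  have c2 : ((X.n3 : ℝ) + 1) * (X.N ^ 32 * X.pw (-2)) ≤ 2 * (X.N ^ 35 * X.pw (-2)) := by
    rw [hn3]
    have h1 : (1 : ℝ) ≤ X.N ^ 3 := one_le_pow₀ hN1
    calc ((X.N : ℝ) ^ 3 + 1) * (X.N ^ 32 * X.pw (-2)) ≤ (2 * X.N ^ 3) * (X.N ^ 32 * X.pw (-2)) :=
          mul_le_mul_of_nonneg_right (by linarith) (by positivity)
      _ = 2 * (X.N ^ 35 * X.pw (-2)) := by ring
  have c3 : X.pw (-2) ≤ X.N ^ 35 * X.pw (-2) :=
    le_mul_of_one_le_left (le_of_lt hD) (one_le_pow₀ hN1)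
  have c4 : 100 * (X.N ^ 35 * X.pw (-2)) ≤ X.N ^ 36 * X.pw (-2) := by
    have : (X.N : ℝ) ^ 36 * X.pw (-2) = X.N * (X.N ^ 35 * X.pw (-2)) := by ring
    rw [this]
    apply mul_le_mul_of_nonneg_right _ (by positivity)
    linarith
  have e9 : X.be 0 * (X.pw (-(19 : ℝ) / 5) + X.th * (X.kd / X.dd)) =
      X.be 0 * X.pw (-(19 : ℝ) / 5) + X.be 0 * (X.th * (X.kd / X.dd)) := by ring
  rw [e9]
  linarith

theorem iv0 : Y.Iv 0 := by
  refine ⟨?_, fun α v hv => Ai0_e Y α v hv⟩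
  intro α r P h hr
  set F := X.A α 0 (X.zl 0) P with hF
  have hz := Ai0_zl (X := X)
  have hz1 : X.zl 0 - 1 = X.n3 := by rw [hz]; rfl
  have h' : X.RF α 0 (X.n3 + 1) r P := by rw [← hz]; exact h
  have hF' : X.A α 0 (X.n3 + 1) P = F := by rw [hF, hz]
  have hP0 : X.RF α 0 X.n3 (r + 1) (X.mv α F) := by
    have := Cx.RF.st (X := X) (α := α) 0 X.n3 r P h'
    rw [hF'] at this
    exact this
  have hP1 : X.RF α 1 X.n3 (r + 1) (X.nd α F) := by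
    have := Cx.RF.tn (X := X) (α := α) 0 r P (by norm_num) h
    rw [hz1] at this
    exact this
  have d0 := Ai0_dir Y hP0 hr
  have d1 := Ai0_dir Y hP1 hr
  have k0 := Cx.RF_k2 h' 0 (X.mv α F) (Or.inl (by rw [hF']))
  have k1 := Cx.RF_k2 h' 1 (X.nd α F) (Or.inr (by rw [hF']))
  have hs := Ai0_sum Y h hr
  rw [← hF] at hs
  have hid := Y.id_z0 (k := 0) (by norm_num) α F
  rw [hz1] at hid
  have hnum := Ai0_num Y α
  have hbe0 : 0 ≤ X.be 0 := mul_nonneg (by norm_num) (le_of_lt (X.pw_pos _))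
  have hu0 := (Y.u_bd α).1
  have hs' : |X.be 0 * (∑ v ∈ Y.S (X.zl 0) 0 α, F v) - X.th * X.be 0 * ∑ x, F x| ≤
      X.be 0 * (X.pw (-(19 : ℝ) / 5) + X.th * (X.kd / X.dd)) := by
    have e : X.be 0 * (∑ v ∈ Y.S (X.zl 0) 0 α, F v) - X.th * X.be 0 * ∑ x, F x =
        X.be 0 * ((∑ v ∈ Y.S (X.zl 0) 0 α, F v) - X.th * ∑ x, F x) := by ring
    rw [e, abs_mul, abs_of_nonneg hbe0]
    exact mul_le_mul_of_nonneg_left hs hbe0
  have hk : |(∑ x, X.A α 0 X.n3 (X.mv α F) x) - ∑ x, X.A α 1 X.n3 (X.nd α F) x| ≤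
      2 * (X.N ^ 5 / X.dd ^ 2) := by
    rw [abs_le] at k0 k1 ⊢
    constructor
    · linarith [k0.2, k1.1]
    · linarith [k0.1, k1.2]
  have hk' : |Y.u α * (∑ x, X.A α 0 X.n3 (X.mv α F) x) -
      Y.u α * ∑ x, X.A α 1 X.n3 (X.nd α F) x| ≤ Y.u α * (2 * (X.N ^ 5 / X.dd ^ 2)) := by
    rw [← mul_sub, abs_mul, abs_of_nonneg hu0]
    exact mul_le_mul_of_nonneg_left hk hu0
  have hz0 : ((0 : ℕ) : ℝ) * X.pw (-(21 : ℝ) / 10) = 0 := by simp
  rw [hz0, add_zero]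
  rw [hid]
  rw [abs_le] at d0 d1 hs' hk' ⊢
  constructor
  · linarith [d0.1, d1.2, hs'.1, hk'.1]
  · linarith [d0.2, d1.1, hs'.2, hk'.2]

end An

end Pool.Agent.H2.LN
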