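/-
ROW Aik. The next Z-layer.
PROOF. As in Ai0 with `zl (k+1)`, `k + 1 ≤ 7 < 8`, `j = zl (k+1) - 1`. `e`: `dfk`. `c`: `F = A 0 (zl (k+1)) P`; `id_z0` for `k+1`; `P0 = mv F`, `P1 = nd F` (`RF.tn`), `st_le`, `erk`, `ck` at `j`: `∑ P_δ ar^δ = th be k ∑ A δ j P_δ ± ([δ = 0] tt_k + N^3 3 pw (-43/20) + pw (-43/20) + pw (-19/5))`; `RF_k2`: the two sums differ by `2 N^5 / dd^2`. `be (k+1) ∑_S F` as in Ai0. Total error `≤ tt_k + 8 N^3 pw (-43/20) + .. ≤ tt_k + pw (-21/10) = tt_(k+1)` (`pwN` with `x = 1/20`).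
-/
import Pool.Agent.H2.LN.LD
import Pool.Agent.H2.LN.L.Adk
import Pool.Agent.H2.LN.L.Ack
import Pool.Agent.H2.LN.L.Ast

set_option autoImplicit false
set_option linter.unusedSectionVars false

namespace Pool.Agent.H2.LN

open Finset Classical
open Pool.Agent.H65.GI

namespace Cx

variable {V : Type} [Fintype V] (X : Cx V)

theorem Aik_N : (1000 : ℝ) ≤ X.N :=
  le_trans (by norm_num : (1000 : ℝ) ≤ 2 ^ 40) X.N_big

theorem Aik_le (k : ℕ) (x y : ℝ) (h : (k : ℝ) ≤ 40000 * (y - x)) :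
    (X.N : ℝ) ^ k * X.pw x ≤ X.pw y := by
  have h1 := X.pwN k (y - x) h
  have h2 := X.pw_add (y - x) x
  have h3 := X.pw_pos x
  calc (X.N : ℝ) ^ k * X.pw x ≤ X.pw (y - x) * X.pw x := mul_le_mul_of_nonneg_right h1 h3.le
    _ = X.pw y := by rw [h2]; congr 1; ring

theorem Aik_mono {x y : ℝ} (h : x ≤ y) : X.pw x ≤ X.pw y := by
  have := X.Aik_le 0 x y (by push_cast; linarith)
  simpa using this

theorem Aik_pw0 : X.pw 0 = 1 := by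
  unfold Cx.pw
  exact Real.rpow_zero _

theorem Aik_aa (k : ℕ) : 0 ≤ X.aa k ∧ X.aa k ≤ X.pw (-(29 : ℝ) / 50) := by
  induction k with
  | zero => exact ⟨(X.pw_pos _).le, le_refl _⟩
  | succ k ih =>
    have e : X.aa (k + 1) = max (X.pw (-(3 : ℝ) / 20) * X.aa k)
      ((X.N : ℝ) ^ 45 * X.pw (-(7 : ℝ) / 5)) := rfl
    rw [e]
    have h1 : X.pw (-(3 : ℝ) / 20) ≤ 1 := by
      have := X.Aik_mono (x := -(3 : ℝ) / 20) (y := 0) (by norm_num)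
      rwa [X.Aik_pw0] at this
    have h0 := X.pw_pos (-(3 : ℝ) / 20)
    refine ⟨le_max_of_le_left (mul_nonneg h0.le ih.1), max_le ?_ ?_⟩
    · calc X.pw (-(3 : ℝ) / 20) * X.aa k ≤ 1 * X.aa k := mul_le_mul_of_nonneg_right h1 ih.1
        _ ≤ _ := by rw [one_mul]; exact ih.2
    · exact X.Aik_le 45 _ _ (by push_cast; norm_num)

theorem Aik_pws : X.pw (-(29 : ℝ) / 50) ≤ 1 / 2 ^ 40 := by
  have h1 := X.Aik_le 1 (-(29 : ℝ) / 50) 0 (by push_cast; norm_num)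
  rw [X.Aik_pw0, pow_one] at h1
  have h2 := X.N_big
  have h3 := X.pw_pos (-(29 : ℝ) / 50)
  rw [le_div_iff₀ (by positivity)]
  nlinarith

theorem Aik_be (k : ℕ) : 0 ≤ X.be k ∧ X.be k ≤ 2 * X.pw (-(29 : ℝ) / 50) ∧ X.be k ≤ 5 / 8 := by
  have h1 := X.Aik_aa k
  have h2 := X.Aik_pws
  unfold Cx.be
  refine ⟨by linarith, by linarith, ?_⟩
  norm_num at h2
  linarith

theorem Aik_dd : 0 < X.dd ∧ 1 / X.dd ≤ 8 * (X.N : ℝ) ^ 54 * X.pw (-1) := by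
  have h1 := X.dd_bd.1
  have h2 := X.pw_pos 1
  have hN : (0 : ℝ) < (X.N : ℝ) ^ 54 := by
    apply pow_pos
    have := X.Aik_N
    linarith
  have h4 : 0 < X.pw 1 / (8 * (X.N : ℝ) ^ 54) := by positivity
  have h5 : X.pw 1 * X.pw (-1) = 1 := by
    rw [X.pw_add, ← X.Aik_pw0]
    congr 1
    norm_num
  have hd : 0 < X.dd := lt_of_lt_of_le h4 h1
  refine ⟨hd, ?_⟩
  rw [div_le_iff₀ hd]
  have h6 := X.pw_pos (-1)
  have hN' : (X.N : ℝ) ≠ 0 := by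
    have := X.Aik_N
    intro h
    rw [h] at this
    norm_num at this
  calc (1 : ℝ) = X.pw 1 * X.pw (-1) := h5.symm
    _ = (8 * (X.N : ℝ) ^ 54 * X.pw (-1)) * (X.pw 1 / (8 * (X.N : ℝ) ^ 54)) := by
        field_simp
    _ ≤ (8 * (X.N : ℝ) ^ 54 * X.pw (-1)) * X.dd := by
        apply mul_le_mul_of_nonneg_left h1
        positivity

/-- the numerical inequality of the row -/
theorem Aik_num (k : ℕ) (B : ℝ) (hB : B ≤ 1) :
    2 * ((X.N : ℝ) ^ 3 * (3 * X.pw (-(43 : ℝ) / 20)) + X.pw (-(43 : ℝ) / 20) +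
      X.pw (-(19 : ℝ) / 5) / 2 * B) + X.th * X.be k * (2 * ((X.N : ℝ) ^ 5 / X.dd ^ 2)) +
      X.be (k + 1) * (X.pw (-(19 : ℝ) / 5) + X.th * ((X.kd : ℝ) / X.dd)) ≤
      X.pw (-(21 : ℝ) / 10) := by
  obtain ⟨hd, hd1⟩ := X.Aik_dd
  obtain ⟨b0, b1, b2⟩ := X.Aik_be k
  obtain ⟨c0, c1, c2⟩ := X.Aik_be (k + 1)
  have hN1 := X.Aik_N
  have hN : (0 : ℝ) < X.N := by linarith
  obtain ⟨t1, t2, t3, t4⟩ := X.th_bd
  have t0 : 0 ≤ X.th := le_trans (X.pw_pos _).le t1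
  set p := X.pw (-(43 : ℝ) / 20) with hp
  have hp0 : 0 < p := X.pw_pos _
  have q1 : X.pw (-(19 : ℝ) / 5) ≤ p := X.Aik_mono (by norm_num)
  have q0 : 0 < X.pw (-(19 : ℝ) / 5) := X.pw_pos _
  -- (a)
  have ea : X.pw (-(19 : ℝ) / 5) / 2 * B ≤ p / 2 := by
    calc X.pw (-(19 : ℝ) / 5) / 2 * B ≤ X.pw (-(19 : ℝ) / 5) / 2 * 1 :=
          mul_le_mul_of_nonneg_left hB (by positivity)
      _ ≤ p / 2 := by linarith
  -- (b)
  have m1 : 0 < X.pw (-1) := X.pw_pos _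
  have d2 : 1 / X.dd ^ 2 ≤ 64 * (X.N : ℝ) ^ 108 * X.pw (-2) := by
    have h1 : (1 / X.dd) ^ 2 ≤ (8 * (X.N : ℝ) ^ 54 * X.pw (-1)) ^ 2 := by
      apply pow_le_pow_left₀ _ hd1
      positivity
    have h2 : X.pw (-1) * X.pw (-1) = X.pw (-2) := by
      rw [X.pw_add]
      congr 1
      norm_num
    calc 1 / X.dd ^ 2 = (1 / X.dd) ^ 2 := by rw [one_div_pow]
      _ ≤ _ := h1
      _ = 64 * (X.N : ℝ) ^ 108 * (X.pw (-1) * X.pw (-1)) := by ring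
      _ = _ := by rw [h2]
  have w2 : 0 < X.pw (-2) := X.pw_pos _
  have w35 : 0 < X.pw (-(3 : ℝ) / 5) := X.pw_pos _
  have eb : X.th * X.be k * (2 * ((X.N : ℝ) ^ 5 / X.dd ^ 2)) ≤ p := by
    have h1 : X.th * X.be k ≤ 101 / 100 * X.pw (-(3 : ℝ) / 5) := by
      calc X.th * X.be k ≤ X.th * 1 := mul_le_mul_of_nonneg_left (by linarith) t0
        _ ≤ _ := by rw [mul_one]; exact t2
    have h2 : 2 * ((X.N : ℝ) ^ 5 / X.dd ^ 2) ≤ 128 * (X.N : ℝ) ^ 113 * X.pw (-2) := by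
      calc 2 * ((X.N : ℝ) ^ 5 / X.dd ^ 2) = 2 * (X.N : ℝ) ^ 5 * (1 / X.dd ^ 2) := by ring
        _ ≤ 2 * (X.N : ℝ) ^ 5 * (64 * (X.N : ℝ) ^ 108 * X.pw (-2)) :=
            mul_le_mul_of_nonneg_left d2 (by positivity)
        _ = _ := by ring
    have h3 : X.pw (-(3 : ℝ) / 5) * X.pw (-2) = X.pw (-(13 : ℝ) / 5) := by
      rw [X.pw_add]
      congr 1
      norm_num
    have h4 := X.Aik_le 114 (-(13 : ℝ) / 5) (-(43 : ℝ) / 20) (by push_cast; norm_num)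
    have w13 : 0 < X.pw (-(13 : ℝ) / 5) := X.pw_pos _
    calc X.th * X.be k * (2 * ((X.N : ℝ) ^ 5 / X.dd ^ 2))
        ≤ (101 / 100 * X.pw (-(3 : ℝ) / 5)) * (128 * (X.N : ℝ) ^ 113 * X.pw (-2)) := by
          apply mul_le_mul h1 h2
          · positivity
          · positivity
      _ = (101 / 100 * 128) * ((X.N : ℝ) ^ 113 * (X.pw (-(3 : ℝ) / 5) * X.pw (-2))) := by ring
      _ = (101 / 100 * 128) * ((X.N : ℝ) ^ 113 * X.pw (-(13 : ℝ) / 5)) := by rw [h3]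
      _ ≤ (X.N : ℝ) * ((X.N : ℝ) ^ 113 * X.pw (-(13 : ℝ) / 5)) := by
          apply mul_le_mul_of_nonneg_right _ (by positivity)
          linarith
      _ = (X.N : ℝ) ^ 114 * X.pw (-(13 : ℝ) / 5) := by ring
      _ ≤ p := h4
  -- (c), (d)
  have ec : X.be (k + 1) * X.pw (-(19 : ℝ) / 5) ≤ p := by
    calc X.be (k + 1) * X.pw (-(19 : ℝ) / 5) ≤ 1 * X.pw (-(19 : ℝ) / 5) :=
          mul_le_mul_of_nonneg_right (by linarith) q0.le
      _ ≤ p := by linarith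
  have ed : X.be (k + 1) * (X.th * ((X.kd : ℝ) / X.dd)) ≤ p := by
    have hk : (X.kd : ℝ) = (X.N : ℝ) ^ 52 := by
      unfold Cx.kd
      push_cast
      rfl
    rw [hk]
    have w29 : 0 < X.pw (-(29 : ℝ) / 50) := X.pw_pos _
    have h1 : X.th * ((X.N : ℝ) ^ 52 / X.dd) ≤
        (101 / 100 * X.pw (-(3 : ℝ) / 5)) * (8 * (X.N : ℝ) ^ 106 * X.pw (-1)) := by
      apply mul_le_mul t2 _ (by positivity) (by positivity)
      calc (X.N : ℝ) ^ 52 / X.dd = (X.N : ℝ) ^ 52 * (1 / X.dd) := by ring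
        _ ≤ (X.N : ℝ) ^ 52 * (8 * (X.N : ℝ) ^ 54 * X.pw (-1)) :=
            mul_le_mul_of_nonneg_left hd1 (by positivity)
        _ = _ := by ring
    have h3 : X.pw (-(29 : ℝ) / 50) * (X.pw (-(3 : ℝ) / 5) * X.pw (-1)) = X.pw (-(109 : ℝ) / 50) := by
      rw [X.pw_add, X.pw_add]
      congr 1
      norm_num
    have h4 := X.Aik_le 107 (-(109 : ℝ) / 50) (-(43 : ℝ) / 20) (by push_cast; norm_num)
    have w13 : 0 < X.pw (-(109 : ℝ) / 50) := X.pw_pos _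
    calc X.be (k + 1) * (X.th * ((X.N : ℝ) ^ 52 / X.dd))
        ≤ (2 * X.pw (-(29 : ℝ) / 50)) *
          ((101 / 100 * X.pw (-(3 : ℝ) / 5)) * (8 * (X.N : ℝ) ^ 106 * X.pw (-1))) := by
          apply mul_le_mul c1 h1
          · positivity
          · positivity
      _ = (2 * (101 / 100) * 8) * ((X.N : ℝ) ^ 106 *
          (X.pw (-(29 : ℝ) / 50) * (X.pw (-(3 : ℝ) / 5) * X.pw (-1)))) := by ring
      _ = (2 * (101 / 100) * 8) * ((X.N : ℝ) ^ 106 * X.pw (-(109 : ℝ) / 50)) := by rw [h3]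
      _ ≤ (X.N : ℝ) * ((X.N : ℝ) ^ 106 * X.pw (-(109 : ℝ) / 50)) := by
          apply mul_le_mul_of_nonneg_right _ (by positivity)
          linarith
      _ = (X.N : ℝ) ^ 107 * X.pw (-(109 : ℝ) / 50) := by ring
      _ ≤ p := h4
  have e5 := X.Aik_le 5 (-(43 : ℝ) / 20) (-(21 : ℝ) / 10) (by push_cast; norm_num)
  rw [← hp] at e5
  have e6 : 6 * (X.N : ℝ) ^ 3 + 6 ≤ (X.N : ℝ) ^ 5 := by
    have h1 : (1 : ℝ) ≤ (X.N : ℝ) ^ 3 := one_le_pow₀ (by linarith)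
    have h2 : (12 : ℝ) ≤ (X.N : ℝ) ^ 2 := by nlinarith
    nlinarith
  have e7 : (6 * (X.N : ℝ) ^ 3 + 6) * p ≤ (X.N : ℝ) ^ 5 * p := mul_le_mul_of_nonneg_right e6 hp0.le
  have e8 : X.be (k + 1) * (X.pw (-(19 : ℝ) / 5) + X.th * ((X.kd : ℝ) / X.dd)) =
      X.be (k + 1) * X.pw (-(19 : ℝ) / 5) + X.be (k + 1) * (X.th * ((X.kd : ℝ) / X.dd)) := by ring
  rw [e8]
  have e9 : (6 * (X.N : ℝ) ^ 3 + 6) * p = 6 * ((X.N : ℝ) ^ 3 * p) + 6 * p := by ring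
  have e10 : 2 * ((X.N : ℝ) ^ 3 * (3 * p) + p + X.pw (-(19 : ℝ) / 5) / 2 * B) =
    6 * ((X.N : ℝ) ^ 3 * p) + 2 * p + 2 * (X.pw (-(19 : ℝ) / 5) / 2 * B) := by ring
  rw [e10]
  linarith

end Cx

namespace An

variable {V : Type} [Fintype V] {X : Cx V} (Y : An X)

theorem Aik_e {k : ℕ} (hk : k < 7) (h : Y.Iv k) (α : Fin X.s) (v : V)
    (hv : v ∈ Y.S (X.zl (k + 1)) 0 α) :
    |Y.m (X.zl (k + 1)) 0 0 α v - X.be (k + 1)| ≤ X.aa (k + 1) := by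
  obtain ⟨j, hj⟩ : ∃ j, X.zl (k + 1) = j + 1 := ⟨(k + 1 + 1) * X.N ^ 3, rfl⟩
  have hZ : X.isZ (j + 1) := ⟨k + 1, by omega, hj.symm⟩
  have hN : 0 < X.N ^ 3 := by
    have : 0 < X.N := by
      have : (0 : ℝ) < X.N := by
        have := X.Aik_N
        linarith
      exact_mod_cast this
    positivity
  have hb : X.bk (j + 1) = k + 1 + 1 := by
    unfold Cx.bk
    rw [Nat.add_sub_cancel]
    have : j = (k + 1 + 1) * X.N ^ 3 := by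
      have h1 : X.zl (k + 1) = (k + 1 + 1) * X.N ^ 3 + 1 := rfl
      omega
    rw [this]
    exact Nat.mul_div_cancel _ hN
  have hjj : X.zl (k + 1) - 1 = j := by omega
  rw [hj] at hv ⊢
  have hv' := (Y.S_succ j 0 α v).mp hv
  have hm : Y.m (j + 1) 0 0 α v = if v ∈ Y.S (j + 1) 0 α then
      (if X.M α v = v then (if (0 : Fin 2) = 0 then X.inj (Y.u α) (j + 1) else 0)
        else if (0 : Fin 2) = 0 ∧ X.isZ (j + 1) then
          (if (0 : ZMod 2) = 0 then X.be (X.bk (j + 1) - 1) + Y.ar j 0 0 α (X.M α v) -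
            Y.ar j 0 1 α v else X.be (X.bk (j + 1) - 1))
        else Y.ar j 0 0 α (X.M α v)) else 0 := rfl
  rw [hm, if_pos hv]
  by_cases hM : X.M α v = v
  · rw [if_pos hM, if_pos rfl]
    unfold Cx.inj
    rw [hb, if_neg (by omega)]
    have : k + 1 + 1 - 1 = k + 1 := by omega
    rw [this, sub_self, abs_zero]
    exact (X.Aik_aa _).1
  · rw [if_neg hM, if_pos ⟨rfl, hZ⟩, if_pos rfl, hb]
    have e1 : k + 1 + 1 - 1 = k + 1 := by omega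
    rw [e1]
    have hd := Y.dfk (by omega : k < 8) h α v hv'.1 (by rw [hjj]; exact hv'.2) hM
    rw [hjj] at hd
    unfold An.df at hd
    have e2 : X.be (k + 1) + Y.ar j 0 0 α (X.M α v) - Y.ar j 0 1 α v - X.be (k + 1) =
      Y.ar j 0 0 α (X.M α v) - Y.ar j 0 1 α v := by ring
    rw [e2]
    exact hd

/-- the sum over the new senders -/
theorem Aik_S {j r : ℕ} (hj : j < X.n) (hj1 : j + 1 ≤ X.n) {α : Fin X.s} {P : V → ℝ}
    (hP : X.RF α 0 (j + 1) r P) (hr : X.n3 ≤ r + 1) :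
    |(∑ v ∈ Y.S (j + 1) 0 α, X.A α 0 (j + 1) P v) - X.th * ∑ x, X.A α 0 (j + 1) P x| ≤
      X.pw (-(19 : ℝ) / 5) + X.th * ((X.kd : ℝ) / X.dd) := by
  have hP0 : ∀ x, 0 ≤ P x := Cx.RF_nn hP
  have h1 := Y.st_h hj 0 α (Cx.TF.ls α 0 (j + 1) r P hr hP)
  have hsup : ∀ x, X.sd α x ≠ 0 → X.A α 0 (j + 1) P x = 0 := by
    intro x hx
    unfold Cx.A
    rw [Finset.sum_eq_zero, zero_div]
    intro b hb
    by_contra hne
    have e1 := (Cx.RF_nd hP b hne).2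
    have e2 := X.R_sd hb
    apply hx
    have e3 : X.sd α x + 1 = 0 + 1 := by rw [← e2, e1]
    exact add_right_cancel e3
  have h2 : ∑ x ∈ univ.filter (fun x => X.sd α x = 0 ∧ x ∉ Y.ds α), X.A α 0 (j + 1) P x =
      (∑ x, X.A α 0 (j + 1) P x) - ∑ x ∈ Y.ds α, X.A α 0 (j + 1) P x := by
    have e1 : ∑ x ∈ univ.filter (fun x => X.sd α x = 0 ∧ x ∉ Y.ds α), X.A α 0 (j + 1) P x =
        ∑ x ∈ univ.filter (fun x => x ∉ Y.ds α), X.A α 0 (j + 1) P x := by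
      apply Finset.sum_subset
      · intro x hx
        rw [Finset.mem_filter] at hx ⊢
        exact ⟨hx.1, hx.2.2⟩
      · intro x hx hx2
        apply hsup
        intro h0
        apply hx2
        rw [Finset.mem_filter] at hx ⊢
        exact ⟨hx.1, h0, hx.2⟩
    have e2 : (univ.filter (fun x => x ∉ Y.ds α)) = univ \ Y.ds α := by
      ext x
      simp
    rw [e1, e2, ← Finset.sum_sdiff (Finset.subset_univ (Y.ds α))]
    ring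
  have h3 : ∑ x ∈ Y.ds α, X.A α 0 (j + 1) P x ≤ (X.kd : ℝ) / X.dd := by
    apply Cx.A_box hP0 (Cx.RF_l1 hP) _ _ (by positivity)
    intro b
    have := Y.kd α 0 (j + 1) b hj1
    exact_mod_cast this
  have h4 : 0 ≤ ∑ x ∈ Y.ds α, X.A α 0 (j + 1) P x := Finset.sum_nonneg (fun x _ => Cx.A_nn hP0 x)
  obtain ⟨t1, t2, t3, t4⟩ := X.th_bd
  have t0 : 0 ≤ X.th := le_trans (X.pw_pos _).le t1
  rw [h2] at h1
  have h5 : X.th * ∑ x ∈ Y.ds α, X.A α 0 (j + 1) P x ≤ X.th * ((X.kd : ℝ) / X.dd) :=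
    mul_le_mul_of_nonneg_left h3 t0
  have h6 : 0 ≤ X.th * ∑ x ∈ Y.ds α, X.A α 0 (j + 1) P x := mul_nonneg t0 h4
  rw [mul_sub] at h1
  rw [abs_le] at h1 ⊢
  constructor
  · linarith [h1.1]
  · linarith [h1.2]

/-- the next Z-layer, the sums -/
theorem Aik_c {k : ℕ} (hk : k < 7) (h : Y.Iv k) (α : Fin X.s) (r : ℕ) (P : V → ℝ)
    (hP : X.RF α 0 (X.zl (k + 1)) r P) (hr : X.n3 ≤ r + 1) :
    |Cx.pa (X.A α 0 (X.zl (k + 1)) P) (Y.m (X.zl (k + 1)) 0 0 α) -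
      X.th * X.be (k + 1) * ∑ x, X.A α 0 (X.zl (k + 1)) P x| ≤
      X.N ^ 36 * X.pw (-2) / 2 + ((k + 1 : ℕ) : ℝ) * X.pw (-(21 : ℝ) / 10) := by
  have hN : 0 < X.N := by
    have : (0 : ℝ) < X.N := by
      have := X.Aik_N
      linarith
    exact_mod_cast this
  have hN3 : 0 < X.N ^ 3 := by positivity
  have hjv : X.zl (k + 1) = (k + 2) * X.N ^ 3 + 1 := rfl
  have hz0 : X.zl k = (k + 1) * X.N ^ 3 + 1 := rfl
  have hn : X.n = 9 * X.N ^ 3 + 1 := rfl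
  obtain ⟨j, hjj⟩ : ∃ j, j = (k + 2) * X.N ^ 3 := ⟨_, rfl⟩
  have hj : X.zl (k + 1) = j + 1 := by rw [hjv, hjj]
  have h82 : (k + 2) * X.N ^ 3 ≤ 8 * X.N ^ 3 := Nat.mul_le_mul_right _ (by omega)
  have e12 : (k + 2) * X.N ^ 3 = (k + 1) * X.N ^ 3 + X.N ^ 3 := by ring
  have hjn : j < X.n := by rw [hn, hjj]; omega
  have hj1n : j + 1 ≤ X.n := by rw [hn, hjj]; omega
  have hjz : X.zl k ≤ j := by rw [hz0, hjj, e12]; omega
  have hjz2 : j < X.zl (k + 1) := by omega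
  have hsub : j - X.zl k + 1 = X.N ^ 3 := by rw [hz0, hjj, e12]; omega
  have hjm : X.zl (k + 1) - 1 = j := by omega
  have hid := Y.id_z0 (k := k + 1) (by omega) α (X.A α 0 (X.zl (k + 1)) P)
  rw [hjm] at hid
  rw [hid]
  rw [hj] at hP ⊢
  set F := X.A α 0 (j + 1) P with hF
  set P0 := X.mv α F with hP0d
  set P1 := X.nd α F with hP1d
  have hR0 : X.RF α 0 j (r + 1) P0 := Cx.RF.st 0 j r P hP
  have hR1 : X.RF α 1 j (r + 1) P1 := by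
    have := Cx.RF.tn (X := X) (α := α) (k + 1) r P (by omega) (by rw [hj]; exact hP)
    rw [hjm, hj] at this
    exact this
  have hr2 : X.n3 ≤ r + 1 + 1 := by omega
  have hm : ∀ δ α v, 0 ≤ Y.m j 0 δ α v := fun δ α v => (Y.sk (by omega) h hjz hjz2 δ α v).1
  have hB : ∀ δ α v, Y.m j 0 δ α v ≤ 8 / 5 * X.be k :=
    fun δ α v => (Y.sk (by omega) h hjz hjz2 δ α v).2
  have hB1 : 8 / 5 * X.be k ≤ 1 := by
    have := (X.Aik_be k).2.2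
    linarith
  have s0 := Y.st_le hjn 0 0 α (Cx.TF.rc α 0 j (r + 1) P0 hr hR0) (Cx.RF_nn hR0) hm hB
  have s1 := Y.st_le hjn 0 1 α (Cx.TF.rc α 1 j (r + 1) P1 hr hR1) (Cx.RF_nn hR1) hm hB
  have r0 := Y.erk (by omega : k < 8) h hjz hjz2 (Cx.EF.bs 0 j (r + 1) P0 hr hR0)
  have r1 := Y.erk (by omega : k < 8) h hjz hjz2 (Cx.EF.bs 1 j (r + 1) P1 hr hR1)
  have c0 := Y.ck (by omega : k < 8) h hjz hjz2 hR0 hr2
  have c1 := Y.ck (by omega : k < 8) h hjz hjz2 hR1 hr2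
  rw [if_pos rfl, hsub] at c0
  rw [if_neg (by decide), hsub] at c1
  have k0 := Cx.RF_k2 hP 0 P0 (Or.inl rfl)
  have k1 := Cx.RF_k2 hP 1 P1 (Or.inr rfl)
  have hS := Y.Aik_S hjn hj1n hP hr
  have hnum := X.Aik_num k (8 / 5 * X.be k) hB1
  obtain ⟨t1, t2, t3, t4⟩ := X.th_bd
  have t0 : 0 ≤ X.th := le_trans (X.pw_pos _).le t1
  have b0 := (X.Aik_be k).1
  have b1 := (X.Aik_be (k + 1)).1
  have tb : 0 ≤ X.th * X.be k := mul_nonneg t0 b0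
  -- combine
  have hk2 : |(∑ x, X.A α 0 j P0 x) - ∑ x, X.A α 1 j P1 x| ≤ 2 * ((X.N : ℝ) ^ 5 / X.dd ^ 2) := by
    rw [abs_le] at k0 k1 ⊢
    constructor
    · linarith [k0.1, k0.2, k1.1, k1.2]
    · linarith [k0.1, k0.2, k1.1, k1.2]
  have hk3 : |X.th * X.be k * (∑ x, X.A α 0 j P0 x) - X.th * X.be k * ∑ x, X.A α 1 j P1 x| ≤
      X.th * X.be k * (2 * ((X.N : ℝ) ^ 5 / X.dd ^ 2)) := by
    rw [← mul_sub, abs_mul, abs_of_nonneg tb]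
    exact mul_le_mul_of_nonneg_left hk2 tb
  have hS2 : |X.be (k + 1) * (∑ v ∈ Y.S (j + 1) 0 α, F v) - X.th * X.be (k + 1) * ∑ x, F x| ≤
      X.be (k + 1) * (X.pw (-(19 : ℝ) / 5) + X.th * ((X.kd : ℝ) / X.dd)) := by
    have e : X.be (k + 1) * (∑ v ∈ Y.S (j + 1) 0 α, F v) - X.th * X.be (k + 1) * ∑ x, F x =
      X.be (k + 1) * ((∑ v ∈ Y.S (j + 1) 0 α, F v) - X.th * ∑ x, F x) := by ring
    rw [e, abs_mul, abs_of_nonneg b1]
    exact mul_le_mul_of_nonneg_left hS b1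
  push_cast at c0 c1 ⊢
  rw [abs_le] at s0 s1 c0 c1 hk3 hS2 ⊢
  obtain ⟨s0a, s0b⟩ := s0
  obtain ⟨s1a, s1b⟩ := s1
  obtain ⟨c0a, c0b⟩ := c0
  obtain ⟨c1a, c1b⟩ := c1
  obtain ⟨k3a, k3b⟩ := hk3
  obtain ⟨S2a, S2b⟩ := hS2
  constructor
  · linarith
  · linarith

theorem ivk {k : ℕ} (hk : k < 7) (h : Y.Iv k) : Y.Iv (k + 1) :=
  ⟨Y.Aik_c hk h, Y.Aik_e hk h⟩

end An

end Pool.Agent.H2.LN
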