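/-
ROW Amn. The main field: summary.
PROOF. `Iv k` for all `k ≤ 7`: `iv0`, `ivk`. `main_bd`: `j ≤ N^3`: `s0`, `N^90 pw (-2/5) ≤ pw (-39/100)`. Otherwise `zl k ≤ j < zl (k+1)` for some `k ≤ 7` (`j < n = zl 8`): `sk`, `8/5 be k ≤ 16/5 pw (-29/50) ≤ pw (-39/100)`. `main_df`: `n = zl 8`, `dfk` with `k = 7`: `|df| ≤ aa 8 ≤ N^45 pw (-7/5)`: `aa k ≤ max (pw (-29/50 - 3 k / 20)) (N^45 pw (-7/5))` by induction, and `pw (-29/50 - 6/5) ≤ N^45 pw (-7/5)`.
-/
import Pool.Agent.H2.LN.LD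
import Pool.Agent.H2.LN.L.Aik
import Pool.Agent.H2.LN.L.Ai0
import Pool.Agent.H2.LN.L.As0

set_option autoImplicit false
set_option linter.unusedSectionVars false

namespace Pool.Agent.H2.LN

open Finset Classical
open Pool.Agent.H65.GI

namespace An

variable {V : Type} [Fintype V] {X : Cx V} (Y : An X)

theorem Amn_mono {x y : ℝ} (h : x ≤ y) : X.pw x ≤ X.pw y := by
  have h1 : (X.N : ℝ) ^ 0 ≤ X.pw (y - x) := X.pwN 0 (y - x) (by push_cast; linarith)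
  have h2 := X.pw_add x (y - x)
  rw [show x + (y - x) = y by ring] at h2
  rw [pow_zero] at h1
  rw [← h2]
  have h3 := X.pw_pos x
  nlinarith

theorem Amn_B : 0 < (X.N : ℝ) ^ 45 * X.pw (-(7 : ℝ) / 5) := by
  have h1 : (0 : ℝ) < X.N := lt_of_lt_of_le (by norm_num) X.N_big
  exact mul_pos (pow_pos h1 45) (X.pw_pos _)

theorem Amn_aa (k : ℕ) : X.aa k ≤ X.pw (-(29 : ℝ) / 50) ∧
    X.aa k ≤ max (X.pw (-(29 : ℝ) / 50 - 3 * k / 20)) ((X.N : ℝ) ^ 45 * X.pw (-(7 : ℝ) / 5)) := by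
  have hB : (X.N : ℝ) ^ 45 * X.pw (-(7 : ℝ) / 5) ≤ X.pw (-(29 : ℝ) / 50) := by
    have h1 : (X.N : ℝ) ^ 45 ≤ X.pw (1 / 100) := X.pwN 45 (1 / 100) (by norm_num)
    have h2 := X.pw_add (1 / 100) (-(7 : ℝ) / 5)
    have h3 : X.pw (1 / 100 + -(7 : ℝ) / 5) ≤ X.pw (-(29 : ℝ) / 50) := Amn_mono (by norm_num)
    have h4 := mul_le_mul_of_nonneg_right h1 (le_of_lt (X.pw_pos (-(7 : ℝ) / 5)))
    rw [h2] at h4
    exact le_trans h4 h3
  have hs : 0 < X.pw (-(3 : ℝ) / 20) := X.pw_pos _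
  have hs1 : X.pw (-(3 : ℝ) / 20) ≤ 1 := by
    have h1 : X.pw (-(3 : ℝ) / 20) ≤ X.pw 0 := Amn_mono (by norm_num)
    have h2 : X.pw 0 = 1 := by
      unfold Cx.pw
      exact Real.rpow_zero _
    rw [h2] at h1
    exact h1
  induction k with
  | zero =>
    constructor
    · exact le_of_eq rfl
    · apply le_max_of_le_left
      apply le_of_eq
      show X.pw (-(29 : ℝ) / 50) = _
      congr 1
      push_cast
      ring
  | succ k ih =>
    obtain ⟨ih1, ih2⟩ := ih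
    have hstep : X.aa (k + 1) = max (X.pw (-(3 : ℝ) / 20) * X.aa k) ((X.N : ℝ) ^ 45 * X.pw (-(7 : ℝ) / 5)) := rfl
    rw [hstep]
    have hp := X.pw_pos (-(29 : ℝ) / 50)
    constructor
    · apply max_le
      · have h1 := mul_le_mul_of_nonneg_left ih1 (le_of_lt hs)
        nlinarith
      · exact hB
    · apply max_le
      · have h1 := mul_le_mul_of_nonneg_left ih2 (le_of_lt hs)
        refine le_trans h1 ?_
        rcases le_total (X.pw (-(29 : ℝ) / 50 - 3 * k / 20)) ((X.N : ℝ) ^ 45 * X.pw (-(7 : ℝ) / 5)) with hc | hc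
        · rw [max_eq_right hc]
          apply le_max_of_le_right
          have := Amn_B (X := X)
          nlinarith
        · rw [max_eq_left hc, X.pw_add]
          apply le_max_of_le_left
          apply le_of_eq
          congr 1
          push_cast
          ring
      · exact le_max_right _ _

theorem Amn_iv (k : ℕ) (hk : k ≤ 7) : Y.Iv k := by
  induction k with
  | zero => exact Y.iv0
  | succ k ih => exact Y.ivk (by omega) (ih (by omega))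

/-- the main field, summary -/
theorem main_bd {j : ℕ} (hj : j < X.n) (δ : ZMod 2) (α : Fin X.s) (v : V) :
    0 ≤ Y.m j 0 δ α v ∧ (1 ≤ j → Y.m j 0 δ α v ≤ X.pw (-(39 : ℝ) / 100)) := by
  by_cases hj3 : j ≤ X.n3
  · obtain ⟨h0, _, h1⟩ := Y.s0 hj3 δ α v
    refine ⟨h0, fun hj1 => le_trans (h1 hj1) ?_⟩
    have h2 : (X.N : ℝ) ^ 90 ≤ X.pw (1 / 100) := X.pwN 90 (1 / 100) (by norm_num)
    have h3 := X.pw_add (1 / 100) (-(2 : ℝ) / 5)
    rw [show (1 / 100 : ℝ) + -(2 : ℝ) / 5 = -(39 : ℝ) / 100 by norm_num] at h3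
    have h4 := mul_le_mul_of_nonneg_right h2 (le_of_lt (X.pw_pos (-(2 : ℝ) / 5)))
    rw [h3] at h4
    exact h4
  · have hn3 : X.n3 = X.N ^ 3 := rfl
    have hn : X.n = 9 * X.N ^ 3 + 1 := rfl
    have hN : 0 < X.N ^ 3 := by
      have h1 : (0 : ℝ) < X.N := lt_of_lt_of_le (by norm_num) X.N_big
      have h2 : 0 < X.N := by exact_mod_cast h1
      exact pow_pos h2 3
    have hq := Nat.div_add_mod (j - 1) (X.N ^ 3)
    have hr := Nat.mod_lt (j - 1) hN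
    have hq1 : 1 ≤ (j - 1) / X.N ^ 3 := by
      rw [Nat.le_div_iff_mul_le hN]
      omega
    have hq8 : (j - 1) / X.N ^ 3 < 9 := by
      rw [Nat.div_lt_iff_lt_mul hN]
      omega
    obtain ⟨k, hk⟩ : ∃ k, (j - 1) / X.N ^ 3 = k + 1 := ⟨(j - 1) / X.N ^ 3 - 1, by omega⟩
    rw [hk] at hq hq8
    have hk8 : k < 8 := by omega
    generalize (j - 1) % X.N ^ 3 = rem at hq hr
    have hq2 : (k + 1) * X.N ^ 3 + rem = j - 1 := by
      rw [← hq]
      ring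
    have e1 : X.zl k ≤ j := by
      show (k + 1) * X.N ^ 3 + 1 ≤ j
      omega
    have e2 : j < X.zl (k + 1) := by
      show j < (k + 1 + 1) * X.N ^ 3 + 1
      have : (k + 1 + 1) * X.N ^ 3 = (k + 1) * X.N ^ 3 + X.N ^ 3 := by ring
      omega
    obtain ⟨h0, h1⟩ := Y.sk hk8 (Y.Amn_iv k (by omega)) e1 e2 δ α v
    refine ⟨h0, fun _ => le_trans h1 ?_⟩
    have h2 : X.be k = 2 * X.aa k := rfl
    have h3 := (Amn_aa (X := X) k).1
    have h4 : (X.N : ℝ) ^ 1 ≤ X.pw (1 / 100) := X.pwN 1 (1 / 100) (by norm_num)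
    rw [pow_one] at h4
    have h5 := X.N_big
    have h6 : (16 / 5 : ℝ) ≤ X.pw (1 / 100) := by
      refine le_trans ?_ (le_trans h5 h4)
      norm_num
    have h7 := X.pw_pos (-(29 : ℝ) / 50)
    have h8 := X.pw_add (1 / 100) (-(29 : ℝ) / 50)
    have h9 : X.pw (1 / 100 + -(29 : ℝ) / 50) ≤ X.pw (-(39 : ℝ) / 100) := Amn_mono (by norm_num)
    have h10 := mul_le_mul_of_nonneg_right h6 (le_of_lt h7)
    rw [h2]
    rw [h8] at h10
    linarith

theorem main_df (α : Fin X.s) (v : V) (h1 : X.sd α v = 0) (h2 : Y.ac (X.n - 1) α v)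
    (h3 : X.M α v ≠ v) : |Y.df (X.n - 1) α v| ≤ X.N ^ 45 * X.pw (-(7 : ℝ) / 5) := by
  have hn : X.n = X.zl (7 + 1) := by
    show 9 * X.N ^ 3 + 1 = (7 + 1 + 1) * X.N ^ 3 + 1
    norm_num
  rw [hn] at h2 ⊢
  have h4 := Y.dfk (by norm_num) (Y.Amn_iv 7 le_rfl) α v h1 h2 h3
  refine le_trans h4 ?_
  have h5 := (Amn_aa (X := X) (7 + 1)).2
  refine le_trans h5 (max_le ?_ le_rfl)
  have h6 : X.pw (-(29 : ℝ) / 50 - 3 * ((7 + 1 : ℕ) : ℝ) / 20) ≤ X.pw (-(7 : ℝ) / 5) :=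
    Amn_mono (by push_cast; norm_num)
  have h7 : (1 : ℝ) ≤ (X.N : ℝ) ^ 45 := by
    apply one_le_pow₀
    refine le_trans ?_ X.N_big
    norm_num
  have h8 := X.pw_pos (-(7 : ℝ) / 5)
  nlinarith

end An

end Pool.Agent.H2.LN
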