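/-
ROW An0. The field of Res: rough bounds.
PROOF. As As0 with `τ = 1` (`ij (j) 1 α = 0`, the condition of `id_st`, `y_nx` holds in every layer because `τ ≠ 0`): `m 0 ∈ {0, 1/16}`; `m (j+1) v ∈ {0, ar j (M v)}`; `ar_0`: `m 1 ≤ N^80 pw (-2/5)`; `|y 1| ≤ 2 N^80 pw (-2/5)` (`Y_le`), `|y (i+1)| ≤ sup |y i| + pw (-19/100) B`, `B = N^81 pw (-2/5)`; `n pw (-19/100) N^81 ≤ N^80`; so `m j ≤ N^81 pw (-2/5) ≤ pw (-39/100)` for `1 ≤ j < n`. Also `≤ 1/16`.
-/
import Pool.Agent.H2.LN.LD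
import Pool.Agent.H2.LN.L.Aa0
import Pool.Agent.H2.LN.L.Ayn
import Pool.Agent.H2.LN.L.Aid
import Pool.Agent.H2.LN.L.Lvy

set_option autoImplicit false
set_option linter.unusedSectionVars false

namespace Pool.Agent.H2.LN

open Finset Classical
open Pool.Agent.H65.GI

namespace An

variable {V : Type} [Fintype V] {X : Cx V} (Y : An X)

theorem An0_m {j : ℕ} (hj : j < X.n) (δ : ZMod 2) (α : Fin X.s) (v : V) :
    Y.m (j + 1) 1 δ α v = if X.M α v ≠ v then Y.ar j 1 δ α (X.M α v) else 0 := by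
  have h := Y.id_st hj 1 (by simp) δ α (fun w => if w = v then 1 else 0)
  have hij : Y.ij (j + 1) 1 α = 0 := by simp [An.ij]
  rw [hij, zero_mul, add_zero] at h
  have h1 : Cx.pa (fun w => if w = v then (1 : ℝ) else 0) (Y.m (j + 1) 1 δ α) = Y.m (j + 1) 1 δ α v := by
    unfold Cx.pa
    simp
  rw [← h1, h, Finset.sum_eq_single (X.M α v)]
  · unfold Cx.mv
    rw [X.M_M α v]
    by_cases hv : X.M α v = v
    · simp [hv]
    · have : ¬ v = X.M α v := fun h => hv h.symm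
      simp [hv, this]
  · intro b _ hb
    have : X.M α b ≠ v := by
      intro h'
      apply hb
      rw [← h', X.M_M]
    unfold Cx.mv
    simp [this]
  · intro h'
    exact absurd (Finset.mem_univ _) h'

theorem An0_ar_nn {j : ℕ} {τ : Fin 2} (h : ∀ δ α a, 0 ≤ Y.m j τ δ α a) (δ : ZMod 2) (α : Fin X.s)
    (b : V) : 0 ≤ Y.ar j τ δ α b := by
  unfold An.ar Cx.arr
  exact Finset.sum_nonneg (fun a _ => div_nonneg (h δ α a) (Nat.cast_nonneg _))

theorem An0_base (δ : ZMod 2) (α : Fin X.s) (v : V) :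
    0 ≤ Y.m 0 1 δ α v ∧ Y.m 0 1 δ α v ≤ 1 / 16 := by
  unfold An.m An.t Cx.sq Cx.st0
  simp only [one_ne_zero, if_false]
  split_ifs <;> norm_num

theorem An0_A {α : Fin X.s} {δ : ZMod 2} {j : ℕ} {P : V → ℝ} {c : ℝ} (hc : 0 ≤ c)
    (h : ∀ x, |P x| ≤ c) (a : V) : |X.A α δ j P a| ≤ c := by
  unfold Cx.A
  have hdd : 0 ≤ X.dd := Nat.cast_nonneg _
  rw [abs_div, abs_of_nonneg hdd]
  have h1 : |∑ b ∈ X.R α δ j a, P b| ≤ X.dd * c := by
    calc |∑ b ∈ X.R α δ j a, P b| ≤ ∑ b ∈ X.R α δ j a, |P b| := Finset.abs_sum_le_sum_abs _ _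
      _ ≤ ∑ b ∈ X.R α δ j a, c := Finset.sum_le_sum (fun b _ => h b)
      _ = ((X.R α δ j a).card : ℝ) * c := by simp
      _ ≤ X.dd * c := mul_le_mul_of_nonneg_right (X.R_card_le α δ j a) hc
  rcases hdd.eq_or_lt with h0 | h0
  · rw [← h0]; simpa using hc
  · rw [div_le_iff₀ h0]
    linarith [mul_comm X.dd c]

theorem An0_neg (x y : ℝ) (h : X.pw x ≥ y) (hy : 0 < y) : X.pw (-x) ≤ 1 / y := by
  have h1 : X.pw x * X.pw (-x) = 1 := by
    rw [X.pw_add]
    unfold Cx.pw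
    simp
  rw [le_div_iff₀ hy]
  have h2 := X.pw_pos (-x)
  nlinarith

theorem An0_main (j : ℕ) (hj : j < X.n) :
    (∀ δ α v, 0 ≤ Y.m j 1 δ α v) ∧ (1 ≤ j →
      (∀ δ α v, Y.m j 1 δ α v ≤ X.N ^ 81 * X.pw (-(2 : ℝ) / 5)) ∧
      ∀ δ α b, |Y.y j 1 δ α b| ≤ 2 * (X.N ^ 80 * X.pw (-(2 : ℝ) / 5)) +
        j * (X.pw (-(19 : ℝ) / 100) * (X.N ^ 81 * X.pw (-(2 : ℝ) / 5)))) := by
  have hN := X.N_big
  have hN1 : (1 : ℝ) ≤ X.N := le_trans (by norm_num) hN
  have hN0 : (0 : ℝ) < X.N := by linarith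
  have hp := X.pw_pos (-(2 : ℝ) / 5)
  set a : ℝ := X.N ^ 80 * X.pw (-(2 : ℝ) / 5) with ha
  have ha0 : 0 < a := by positivity
  have hBa : (X.N : ℝ) ^ 81 * X.pw (-(2 : ℝ) / 5) = X.N * a := by rw [ha]; ring
  rw [hBa]
  set B : ℝ := X.N * a with hB
  have hB0 : 0 < B := by positivity
  have haB : a ≤ B := by rw [hB]; nlinarith
  have he1 : X.pw (-(19 : ℝ) / 100) ≤ 1 / (X.N : ℝ) ^ 4 := by
    have := An0_neg (X := X) (19 / 100) ((X.N : ℝ) ^ 4) (X.pwN 4 _ (by norm_num)) (by positivity)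
    rw [show (-(19 : ℝ) / 100) = -(19 / 100) by ring]
    exact this
  have he2 : X.pw (-(97 : ℝ) / 500) ≤ 1 / X.N := by
    have := An0_neg (X := X) (97 / 500) (X.N : ℝ)
      (by simpa using X.pwN 1 (97 / 500) (by norm_num)) hN0
    rw [show (-(97 : ℝ) / 500) = -(97 / 500) by ring]
    exact this
  have he0 : 0 < X.pw (-(19 : ℝ) / 100) := X.pw_pos _
  have hnn : ((X.n : ℕ) : ℝ) * X.pw (-(19 : ℝ) / 100) ≤ 10 / X.N := by
    have h1 : ((X.n : ℕ) : ℝ) ≤ 10 * (X.N : ℝ) ^ 3 := by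
      unfold Cx.n
      push_cast
      have : (1 : ℝ) ≤ (X.N : ℝ) ^ 3 := one_le_pow₀ hN1
      linarith
    calc ((X.n : ℕ) : ℝ) * X.pw (-(19 : ℝ) / 100) ≤ (10 * (X.N : ℝ) ^ 3) * (1 / (X.N : ℝ) ^ 4) :=
          mul_le_mul h1 he1 he0.le (by positivity)
      _ = 10 / X.N := by field_simp
  have hi : 1 / (X.N : ℝ) ≤ 1 / 2 ^ 40 := one_div_le_one_div_of_le (by norm_num) hN
  induction j with
  | zero => exact ⟨fun δ α v => (Y.An0_base δ α v).1, fun h => absurd h (by norm_num)⟩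
  | succ j ih =>
    have hj' : j < X.n := by omega
    obtain ⟨ih1, ih2⟩ := ih hj'
    have hnnar : ∀ δ α b, 0 ≤ Y.ar j 1 δ α b := fun δ α b => Y.An0_ar_nn ih1 δ α b
    have hnn1 : ∀ δ α v, 0 ≤ Y.m (j + 1) 1 δ α v := by
      intro δ α v
      rw [Y.An0_m hj']
      split_ifs
      · exact hnnar _ _ _
      · exact le_rfl
    refine ⟨hnn1, fun _ => ?_⟩
    rcases Nat.eq_zero_or_pos j with h0 | h0
    · subst h0
      have hm : ∀ δ α v, Y.m (0 + 1) 1 δ α v ≤ a := by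
        intro δ α v
        rw [Y.An0_m hj']
        split_ifs
        · exact (Y.ar_0 1 δ α _).2
        · exact ha0.le
      refine ⟨fun δ α v => (hm δ α v).trans haB, fun δ α b => ?_⟩
      have h1 := Cx.Y_le (0 + 1) (Y.t (0 + 1)) (Y.tt (0 + 1) hj) 1 a
        (fun δ α v => by
          rw [abs_le]
          exact ⟨by have := hnn1 δ α v; unfold An.m at this; linarith, hm δ α v⟩) δ α b
      have h2 : |Y.y (0 + 1) 1 δ α b| ≤ 2 * a := h1
      have h3 : 0 ≤ (((0 + 1 : ℕ)) : ℝ) * (X.pw (-(19 : ℝ) / 100) * B) := by positivity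
      linarith
    · obtain ⟨ihm, ihy⟩ := ih2 h0
      have hBj : ∀ δ α a, |Y.m j 1 δ α a| ≤ B := by
        intro δ α a'
        rw [abs_le]
        exact ⟨by have := ih1 δ α a'; linarith, ihm δ α a'⟩
      have hjn : (j : ℝ) ≤ (X.n : ℝ) := by exact_mod_cast hj'.le
      have hje : (j : ℝ) * (X.pw (-(19 : ℝ) / 100) * B) ≤ 10 / X.N * B := by
        have : (j : ℝ) * X.pw (-(19 : ℝ) / 100) ≤ 10 / X.N :=
          (mul_le_mul_of_nonneg_right hjn he0.le).trans hnn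
        calc (j : ℝ) * (X.pw (-(19 : ℝ) / 100) * B) = (j : ℝ) * X.pw (-(19 : ℝ) / 100) * B := by ring
          _ ≤ 10 / X.N * B := mul_le_mul_of_nonneg_right this hB0.le
      have hsup0 : 0 ≤ 2 * a + (j : ℝ) * (X.pw (-(19 : ℝ) / 100) * B) := by positivity
      refine ⟨fun δ α v => ?_, fun δ α b => ?_⟩
      · rw [Y.An0_m hj']
        split_ifs with hv
        · by_cases hz : Y.ar j 1 δ α (X.M α v) = 0
          · rw [hz]; exact hB0.le
          · obtain ⟨hac, hsd⟩ := Y.ar_ne hj' hz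
            have h1 := Y.ar_y hj' 1 hBj δ α _ hac hsd
            have h2 := ihy δ α (X.M α v)
            have h3 := abs_le.mp h1
            have h4 := abs_le.mp h2
            have h5 : X.pw (-(97 : ℝ) / 500) * B ≤ 1 / X.N * B :=
              mul_le_mul_of_nonneg_right he2 hB0.le
            have h6 : a = 1 / X.N * B := by rw [hB]; field_simp
            have h7 : 1 / (X.N : ℝ) * B ≤ 1 / 2 ^ 40 * B := mul_le_mul_of_nonneg_right hi hB0.le
            have h8 : 10 / (X.N : ℝ) * B = 10 * (1 / X.N * B) := by ring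
            linarith [h3.2, h4.2]
        · exact hB0.le
      · have h1 := Y.y_nx hj 1 (by simp) hBj δ α b
        have hij : Y.ij (j + 1) 1 α = 0 := by simp [An.ij]
        rw [hij, abs_zero, zero_div, add_zero] at h1
        have h2 : |X.A α δ (j + 1) (X.mv α (Y.y j 1 δ α)) b| ≤
            2 * a + (j : ℝ) * (X.pw (-(19 : ℝ) / 100) * B) := by
          apply An0_A hsup0
          intro x
          unfold Cx.mv
          split_ifs
          · exact ihy δ α _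
          · rw [abs_zero]; exact hsup0
        have h3 := abs_le.mp h1
        have h4 := abs_le.mp h2
        rw [abs_le]
        push_cast
        constructor
        · linarith [h3.1, h4.1]
        · linarith [h3.2, h4.2]

theorem nu_0 {j : ℕ} (hj : j < X.n) (δ : ZMod 2) (α : Fin X.s) (v : V) :
    0 ≤ Y.m j 1 δ α v ∧ Y.m j 1 δ α v ≤ 1 / 16 ∧ (1 ≤ j → Y.m j 1 δ α v ≤ X.pw (-(39 : ℝ) / 100)) := by
  have hN := X.N_big
  have hN1 : (1 : ℝ) ≤ X.N := le_trans (by norm_num) hN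
  have hN0 : (0 : ℝ) < X.N := by linarith
  obtain ⟨h1, h2⟩ := Y.An0_main j hj
  have h3 : 1 ≤ j → Y.m j 1 δ α v ≤ X.pw (-(39 : ℝ) / 100) := by
    intro h
    refine ((h2 h).1 δ α v).trans ?_
    have h4 : (X.N : ℝ) ^ 81 ≤ X.pw (1 / 100) := X.pwN 81 _ (by norm_num)
    calc (X.N : ℝ) ^ 81 * X.pw (-(2 : ℝ) / 5) ≤ X.pw (1 / 100) * X.pw (-(2 : ℝ) / 5) :=
          mul_le_mul_of_nonneg_right h4 (X.pw_pos _).le
      _ = X.pw (-(39 : ℝ) / 100) := by rw [X.pw_add]; norm_num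
  refine ⟨h1 δ α v, ?_, h3⟩
  rcases Nat.eq_zero_or_pos j with h0 | h0
  · subst h0
    exact (Y.An0_base δ α v).2
  · refine (h3 h0).trans ?_
    have he2 : X.pw (-(39 : ℝ) / 100) ≤ 1 / X.N := by
      have := An0_neg (X := X) (39 / 100) (X.N : ℝ)
        (by simpa using X.pwN 1 (39 / 100) (by norm_num)) hN0
      rw [show (-(39 : ℝ) / 100) = -(39 / 100) by ring]
      exact this
    refine he2.trans ?_
    exact one_div_le_one_div_of_le (by norm_num) (le_trans (by norm_num) hN)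

end An

end Pool.Agent.H2.LN
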