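/-
ROW Anc. The field of Res in layer 0.
PROOF. `F = A α δ 0 P`: `pa F (m 0 1) = (1/16) ∑_x [Rs x] mv F x` (reindex `x = M v`; `F v ≠ 0` gives `sd v = δ`; `Rs (M v)` gives `¬ W v`, `M v ≠ v`). Upper bound: `S2.u1`, `∑ mv F ≤ 1`: `(1/16)(2 rho + pw (-3))`. Lower: `S2.l1`: `(1/16) (rho / 2 ∑ [Gd x] mv F x - pw (-3))`; `∑ [Gd] mv F ≥ ∑ mv F - ∑_{x ∈ D} mv F x - ∑_{x ∈ disW} mv F x` (`Gd x ↔ x ∉ D ∧ ¬ W x ∧ M x ≠ x ∧ ¬ W (M x)`); `∑_{x ∈ D} mv F x ≤ ∑_{v : M v ∈ D} F v ≤ N^5 / dd` (`A_box`, `R_MD`);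
`∑_{x ∈ disW} mv F x ≤ ∑_{v ∈ disW} F v ≤ kd / dd` (`disW_M`, `A_box`); `∑ mv F = ∑ F - ∑ dv F ≥ ∑ P - 1 / dd - 1 / dd`, `∑ P ≥ 1 - 2 n / dd` (`RF_low`, `RF_rj`, `A_sum_ge`). Total loss `≤ N^60·8 N^54 pw (-1) ≤ 1/100`: `(1/32)(99/100) rho - pw (-3) ≥ rho / 33 - pw (-3)`.
-/
import Pool.Agent.H2.LN.LD
import Pool.Agent.H2.LN.L.Agn
import Pool.Agent.H2.LN.L.Lrb
import Pool.Agent.H2.LN.L.Lop
import Pool.Agent.H2.LN.L.Leg
import Pool.Agent.H2.LN.L.Ll2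
import Pool.Agent.H2.LN.L.Lrf

set_option autoImplicit false
set_option linter.unusedSectionVars false

namespace Pool.Agent.H2.LN

open Finset Classical
open Pool.Agent.H65.GI

namespace An

variable {V : Type} [Fintype V] {X : Cx V} (Y : An X)

theorem Anc_sum_M (α : Fin X.s) (g : V → ℝ) : ∑ x, g (X.M α x) = ∑ x, g x := by
  have hinv : Function.Involutive (X.M α) := fun v => X.M_M α v
  exact Equiv.sum_comp (hinv.toPerm) g

theorem Anc_sd {r : ℕ} {δ : ZMod 2} {α : Fin X.s} {P : V → ℝ} (h : X.RF α δ 0 r P) (v : V)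
    (hv : X.A α δ 0 P v ≠ 0) : X.sd α v = δ := by
  have h1 : (∑ b ∈ X.R α δ 0 v, P b) ≠ 0 := by
    intro h0
    apply hv
    unfold Cx.A
    rw [h0, zero_div]
  obtain ⟨b, hb, hPb⟩ := Finset.exists_ne_zero_of_sum_ne_zero h1
  have h2 := (Cx.RF_nd h b hPb).2
  have h3 := X.R_sd hb
  rw [h2] at h3
  exact (add_right_cancel h3).symm

theorem Anc_pa {r : ℕ} {δ : ZMod 2} {α : Fin X.s} {P : V → ℝ} (h : X.RF α δ 0 r P) :
    Cx.pa (X.A α δ 0 P) (Y.m 0 1 δ α) =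
      1 / 16 * ∑ x, if Rs X.G X.p Y.c X.D X.M Y.Rc Y.al α x then X.mv α (X.A α δ 0 P) x else 0 := by
  unfold Cx.pa
  rw [← Anc_sum_M (X := X) α (fun v => X.A α δ 0 P v * Y.m 0 1 δ α v), Finset.mul_sum]
  refine Finset.sum_congr rfl (fun x _ => ?_)
  have hm : Y.m 0 1 δ α (X.M α x) = if X.sd α (X.M α x) = δ ∧ ¬ Wc X.p Y.c α (X.M α x) then
      (if Rs X.G X.p Y.c X.D X.M Y.Rc Y.al α x then (1 / 16 : ℝ) else 0) else 0 := by
    show (if X.sd α (X.M α x) = δ ∧ ¬ Wc X.p Y.c α (X.M α x) then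
      (if (1 : Fin 2) = 0 then _ else
        if Rs X.G X.p Y.c X.D X.M Y.Rc Y.al α (X.M α (X.M α x)) then (1 / 16 : ℝ) else 0) else 0) = _
    rw [X.M_M, if_neg (by decide : ¬ (1 : Fin 2) = 0)]
  rw [hm]
  by_cases hR : Rs X.G X.p Y.c X.D X.M Y.Rc Y.al α x
  · have hG : Gd X.p Y.c X.D X.M α x := hR.2.2.1
    rw [if_pos hR, if_pos hR]
    have hmv : X.mv α (X.A α δ 0 P) x = X.A α δ 0 P (X.M α x) := by
      unfold Cx.mv
      rw [if_pos hG.2.2.1]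
    rw [hmv]
    by_cases h0 : X.A α δ 0 P (X.M α x) = 0
    · rw [h0]; simp
    · rw [if_pos ⟨Anc_sd h _ h0, hG.2.2.2⟩]
      ring
  · rw [if_neg hR, if_neg hR]
    simp

theorem Anc_nn {r : ℕ} {δ : ZMod 2} {α : Fin X.s} {P : V → ℝ} (h : X.RF α δ 0 r P) (x : V) :
    0 ≤ X.A α δ 0 P x := Cx.A_nn (Cx.RF_nn h) x

theorem Anc_mv_nn {r : ℕ} {δ : ZMod 2} {α : Fin X.s} {P : V → ℝ} (h : X.RF α δ 0 r P) (x : V) :
    0 ≤ X.mv α (X.A α δ 0 P) x := by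
  unfold Cx.mv
  split_ifs
  · exact Anc_nn h _
  · exact le_rfl

theorem Anc_up {r : ℕ} {δ : ZMod 2} {α : Fin X.s} {P : V → ℝ} (h : X.RF α δ 0 r P) :
    ∑ x, X.mv α (X.A α δ 0 P) x ≤ 1 := by
  rw [Cx.mv_sum]
  have h1 : ∑ x, X.nd α (X.A α δ 0 P) x ≤ ∑ x, X.A α δ 0 P x := by
    refine Finset.sum_le_sum (fun x _ => ?_)
    unfold Cx.nd
    split_ifs
    · exact le_rfl
    · exact Anc_nn h _
  exact h1.trans ((Cx.A_sum_le (Cx.RF_nn h)).trans (Cx.RF_l1 h))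

/-- mass of `mv F` on a set, in terms of `F` on a set containing the image under `M` -/
theorem Anc_set {r : ℕ} {δ : ZMod 2} {α : Fin X.s} {P : V → ℝ} (h : X.RF α δ 0 r P)
    (B C : Finset V) (hBC : ∀ x ∈ B, X.M α x ∈ C) :
    (∑ x, if x ∈ B then X.mv α (X.A α δ 0 P) x else 0) ≤ ∑ x ∈ C, X.A α δ 0 P x := by
  have h1 : ∑ x ∈ C, X.A α δ 0 P x = ∑ x, if X.M α x ∈ C then X.A α δ 0 P (X.M α x) else 0 := by
    rw [Anc_sum_M (X := X) α (fun v => if v ∈ C then X.A α δ 0 P v else 0)]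
    rw [← Finset.sum_filter]
    refine Finset.sum_congr ?_ (fun _ _ => rfl)
    ext v
    simp
  rw [h1]
  refine Finset.sum_le_sum (fun x _ => ?_)
  by_cases hx : x ∈ B
  · rw [if_pos hx, if_pos (hBC x hx)]
    unfold Cx.mv
    split_ifs
    · exact le_rfl
    · exact Anc_nn h _
  · rw [if_neg hx]
    split_ifs
    · exact Anc_nn h _
    · exact le_rfl

theorem Anc_D {r : ℕ} {δ : ZMod 2} {α : Fin X.s} {P : V → ℝ} (h : X.RF α δ 0 r P) :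
    (∑ x, if x ∈ X.D then X.mv α (X.A α δ 0 P) x else 0) ≤ (X.N : ℝ) ^ 5 / X.dd := by
  refine (Anc_set h X.D (univ.filter (fun v => X.M α v ∈ X.D)) ?_).trans ?_
  · intro x hx
    simp only [Finset.mem_filter, Finset.mem_univ, true_and]
    rw [X.M_M]
    exact hx
  · refine Cx.A_box (Cx.RF_nn h) (Cx.RF_l1 h) _ _ (by positivity) (fun b => ?_)
    have h1 := X.R_MD α δ 0 b
    have h2 : (X.R α δ 0 b).filter (fun u => u ∈ univ.filter (fun v => X.M α v ∈ X.D)) =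
        (X.R α δ 0 b).filter (fun u => X.M α u ∈ X.D) := by
      ext u
      simp
    rw [h2]
    exact_mod_cast h1

theorem Anc_W {r : ℕ} {δ : ZMod 2} {α : Fin X.s} {P : V → ℝ} (h : X.RF α δ 0 r P) :
    (∑ x, if x ∈ X.disW Y.c α then X.mv α (X.A α δ 0 P) x else 0) ≤ (X.N : ℝ) ^ 20 / X.dd := by
  refine (Anc_set h (X.disW Y.c α) (X.disW Y.c α) (fun x hx => Cx.disW_M hx)).trans ?_
  refine Cx.A_box (Cx.RF_nn h) (Cx.RF_l1 h) _ _ (by positivity) (fun b => ?_)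
  have h1 := Y.s1.k1 α δ 0 (Nat.zero_le _) b
  exact_mod_cast h1

theorem Anc_dv {r : ℕ} {δ : ZMod 2} {α : Fin X.s} {P : V → ℝ} (h : X.RF α δ 0 r P) :
    ∑ x, X.dv α (X.A α δ 0 P) x ≤ 1 / X.dd := by
  have h1 : ∑ x, X.dv α (X.A α δ 0 P) x ≤ ∑ x ∈ X.D, X.A α δ 0 P x := by
    have h2 : ∑ x ∈ X.D, X.A α δ 0 P x = ∑ x, if x ∈ X.D then X.A α δ 0 P x else 0 := by
      rw [← Finset.sum_filter]
      refine Finset.sum_congr ?_ (fun _ _ => rfl)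
      ext v
      simp
    rw [h2]
    refine Finset.sum_le_sum (fun x _ => ?_)
    unfold Cx.dv
    by_cases hx : X.M α x = x
    · rw [if_pos hx, if_pos (X.M_D hx)]
    · rw [if_neg hx]
      split_ifs
      · exact Anc_nn h _
      · exact le_rfl
  refine h1.trans (Cx.A_box (Cx.RF_nn h) (Cx.RF_l1 h) _ _ (by norm_num) (fun b => ?_))
  exact_mod_cast X.R_D α δ 0 b

theorem Anc_dd (X : Cx V) : 0 < X.dd ∧ (2 * (X.n : ℝ) + 2 + (X.N : ℝ) ^ 5 + (X.N : ℝ) ^ 20) / X.dd ≤ 1 / 100 := by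
  have hN : (2 : ℝ) ^ 40 ≤ X.N := X.N_big
  have hN1 : (1 : ℝ) ≤ X.N := le_trans (by norm_num) hN
  have hN0 : (0 : ℝ) < X.N := lt_of_lt_of_le one_pos hN1
  have h1 := X.dd_bd.1
  have h2 := X.pwN 100 1 (by norm_num)
  have h3 : (X.N : ℝ) ^ 46 / 8 ≤ X.dd := by
    refine le_trans ?_ h1
    rw [div_le_div_iff₀ (by norm_num) (by positivity)]
    have : (X.N : ℝ) ^ 46 * (8 * (X.N : ℝ) ^ 54) = (X.N : ℝ) ^ 100 * 8 := by ring
    rw [this]
    exact mul_le_mul_of_nonneg_right h2 (by norm_num)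
  have hdd : 0 < X.dd := lt_of_lt_of_le (by positivity) h3
  refine ⟨hdd, ?_⟩
  rw [div_le_div_iff₀ hdd (by norm_num)]
  have hn : (X.n : ℝ) = 9 * (X.N : ℝ) ^ 3 + 1 := by
    unfold Cx.n
    push_cast
    ring
  rw [hn]
  have p3 : (X.N : ℝ) ^ 3 ≤ (X.N : ℝ) ^ 20 := pow_le_pow_right₀ hN1 (by norm_num)
  have p5 : (X.N : ℝ) ^ 5 ≤ (X.N : ℝ) ^ 20 := pow_le_pow_right₀ hN1 (by norm_num)
  have p0 : (1 : ℝ) ≤ (X.N : ℝ) ^ 20 := one_le_pow₀ hN1
  have p21 : (2 : ℝ) ^ 40 * (X.N : ℝ) ^ 20 ≤ (X.N : ℝ) ^ 46 := by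
    have : (X.N : ℝ) ^ 46 = (X.N : ℝ) ^ 26 * (X.N : ℝ) ^ 20 := by ring
    rw [this]
    refine mul_le_mul_of_nonneg_right ?_ (by positivity)
    exact hN.trans (le_self_pow₀ hN1 (by norm_num))
  nlinarith

theorem Anc_low {r : ℕ} {δ : ZMod 2} {α : Fin X.s} {P : V → ℝ} (h : X.RF α δ 0 r P) :
    99 / 100 ≤ ∑ x, if Gd X.p Y.c X.D X.M α x then X.mv α (X.A α δ 0 P) x else 0 := by
  obtain ⟨hdd, hsm⟩ := Anc_dd X
  have e1 : ∑ x, X.mv α (X.A α δ 0 P) x ≤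
      (∑ x, if Gd X.p Y.c X.D X.M α x then X.mv α (X.A α δ 0 P) x else 0) +
      (∑ x, if x ∈ X.D then X.mv α (X.A α δ 0 P) x else 0) +
      (∑ x, if x ∈ X.disW Y.c α then X.mv α (X.A α δ 0 P) x else 0) := by
    rw [← Finset.sum_add_distrib, ← Finset.sum_add_distrib]
    refine Finset.sum_le_sum (fun x _ => ?_)
    have hnn := Anc_mv_nn h x
    by_cases hG : Gd X.p Y.c X.D X.M α x
    · rw [if_pos hG]
      have a1 : 0 ≤ (if x ∈ X.D then X.mv α (X.A α δ 0 P) x else 0) := by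
        split_ifs
        · exact hnn
        · exact le_rfl
      have a2 : 0 ≤ (if x ∈ X.disW Y.c α then X.mv α (X.A α δ 0 P) x else 0) := by
        split_ifs
        · exact hnn
        · exact le_rfl
      linarith
    · rw [if_neg hG]
      by_cases hD : x ∈ X.D
      · rw [if_pos hD]
        have a2 : 0 ≤ (if x ∈ X.disW Y.c α then X.mv α (X.A α δ 0 P) x else 0) := by
          split_ifs
          · exact hnn
          · exact le_rfl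
        linarith
      · rw [if_neg hD]
        by_cases hM : X.M α x ≠ x
        · have hW : x ∈ X.disW Y.c α := by
            unfold Cx.disW
            simp only [Finset.mem_filter, Finset.mem_univ, true_and]
            by_contra hcon
            push Not at hcon
            exact hG ⟨hD, hcon.1, hM, hcon.2⟩
          rw [if_pos hW]
          linarith
        · have hz : X.mv α (X.A α δ 0 P) x = 0 := by
            unfold Cx.mv
            rw [if_neg hM]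
          rw [hz]
          simp
  have e2 : ∑ x, X.mv α (X.A α δ 0 P) x = ∑ x, X.A α δ 0 P x - ∑ x, X.dv α (X.A α δ 0 P) x := by
    rw [Cx.mv_sum, Cx.nd_dv α (X.A α δ 0 P)]
    ring
  have e3 := Anc_D h
  have e4 := Y.Anc_W h
  have e5 := Anc_dv h
  have e6 := Cx.A_sum_ge (α := α) (δ := δ) (j := 0) (Cx.RF_nn h)
  have e7 : (∑ x ∈ X.D, P x) / X.dd ≤ 1 / X.dd := by
    refine div_le_div_of_nonneg_right ?_ hdd.le
    refine le_trans ?_ (Cx.RF_l1 h)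
    exact Finset.sum_le_sum_of_subset_of_nonneg (Finset.subset_univ _) (fun x _ _ => Cx.RF_nn h x)
  have e8 := Cx.RF_low h
  have e9 : (r : ℝ) * (2 / X.dd) ≤ 2 * (X.n : ℝ) / X.dd := by
    have hr : (r : ℝ) ≤ X.n := by
      have := Cx.RF_rj h
      have h' : r ≤ X.n := by omega
      exact_mod_cast h'
    have : (r : ℝ) * (2 / X.dd) = 2 * (r : ℝ) / X.dd := by ring
    rw [this]
    exact div_le_div_of_nonneg_right (by linarith) hdd.le
  have e10 : (2 * (X.n : ℝ) + 2 + (X.N : ℝ) ^ 5 + (X.N : ℝ) ^ 20) / X.dd =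
      2 * (X.n : ℝ) / X.dd + 1 / X.dd + 1 / X.dd + (X.N : ℝ) ^ 5 / X.dd + (X.N : ℝ) ^ 20 / X.dd := by
    field_simp
    ring
  rw [e10] at hsm
  rw [e2] at e1
  linarith

theorem nu_c0 {r : ℕ} {δ : ZMod 2} {α : Fin X.s} {P : V → ℝ} (h : X.RF α δ 0 r P) (hr : X.n3 ≤ r + 1) :
    X.rho / 33 - X.pw (-3) ≤ Cx.pa (X.A α δ 0 P) (Y.m 0 1 δ α) ∧
      Cx.pa (X.A α δ 0 P) (Y.m 0 1 δ α) ≤ X.rho / 8 + X.pw (-3) := by
  rw [Y.Anc_pa h]
  have hp := (X.pw_pos (-3)).le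
  have hrho : 0 ≤ X.rho := le_trans (by have := (X.pw_pos (-2)).le; positivity) X.rho_bd.1
  constructor
  · have h1 := Y.s2.l1 α δ r P h hr
    have h2 := Y.Anc_low h
    have h3 : X.rho / 2 * (99 / 100) ≤ X.rho / 2 *
        (∑ x, if Gd X.p Y.c X.D X.M α x then X.mv α (X.A α δ 0 P) x else 0) :=
      mul_le_mul_of_nonneg_left h2 (by positivity)
    linarith
  · have h1 := Y.s2.u1 α δ r P h hr
    have h2 := Anc_up h
    have h3 : 2 * X.rho * (∑ x, X.mv α (X.A α δ 0 P) x) ≤ 2 * X.rho * 1 :=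
      mul_le_mul_of_nonneg_left h2 (by positivity)
    linarith

end An

end Pool.Agent.H2.LN
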