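/-
ROW Lgy. Error functions as sums over the spoiling vertices.
PROOF. `gy P y a` has two terms: `y ∈ R`: `2 / dd · A P a + P y / dd`; `M y ≠ y` and `M y ∈ R`: `2 / dd · A P a + P (M y) / dd`. `gy_sum`: `∑_y` of the first: `2 / dd · A P a · |R| + A P a ≤ 3 A P a` (`R_card_le`); of the second: `≤` the same sum over `x = M y ∈ R` (`y ↦ M y` injective, `M_M`): `≤ 3 A P a`.
`gB B P a = ∑_{b ∈ R ∩ B} (2 / dd · A P a + P b / dd)` (`Finset.sum_add_distrib`, `Finset.sum_const`, `Finset.sum_div`). `gB_W`: for `b ∈ R ∩ disW` choose `y = b` if `Wc α b` (first term of `gy`), otherwise `y = M b` with `Wc α (M b)`; then `M b ≠ b` and the second term of `gy` for `y = M b` is `2 / dd · A P a + P b / dd` (`M (M b) = b`).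
So `gB ≤ ∑_{b ∈ R, W b} t b + ∑_{b ∈ R, M b ≠ b, W (M b)} t b` (`t b = 2 / dd A P a + P b / dd ≥ 0`), and the second sum reindexed by `y = M b` is the second part of `∑_y [W y] gy`. `gB_X`: first terms of `gy` only. `gB_un`: `filter_or`, nonnegative terms.
-/
import Pool.Agent.H2.LN.LD
import Pool.Agent.H2.LN.L.Leg

set_option autoImplicit false
set_option linter.unusedSectionVars false

namespace Pool.Agent.H2.LN

open Finset Classical
open Pool.Agent.H65.GI

namespace Cx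

variable {V : Type} [Fintype V] {X : Cx V} {c : V → ℕ} {Rc : Finset V}

/-- the weight of the receiver `b` -/
noncomputable def Lgy_t (X : Cx V) (α : Fin X.s) (δ : ZMod 2) (j : ℕ) (P : V → ℝ) (a b : V) : ℝ :=
  2 / X.dd * X.A α δ j P a + P b / X.dd

theorem Lgy_dd (X : Cx V) : 0 ≤ X.dd := by
  unfold Cx.dd
  exact Nat.cast_nonneg _

theorem Lgy_A {α : Fin X.s} {δ : ZMod 2} {j : ℕ} {P : V → ℝ} (h : ∀ x, 0 ≤ P x) (a : V) :
    0 ≤ X.A α δ j P a := by
  unfold Cx.A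
  exact div_nonneg (Finset.sum_nonneg fun b _ => h b) (Lgy_dd X)

theorem Lgy_tn {α : Fin X.s} {δ : ZMod 2} {j : ℕ} {P : V → ℝ} (h : ∀ x, 0 ≤ P x) (a b : V) :
    0 ≤ Lgy_t X α δ j P a b := by
  unfold Lgy_t
  have h1 := Lgy_dd X
  have h2 := Lgy_A (X := X) (α := α) (δ := δ) (j := j) h a
  have h3 := h b
  positivity

/-- the first part of `gy` -/
noncomputable def Lgy_f (X : Cx V) (α : Fin X.s) (δ : ZMod 2) (j : ℕ) (P : V → ℝ) (a b : V) : ℝ :=
  if b ∈ X.R α δ j a then Lgy_t X α δ j P a b else 0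

theorem Lgy_fn {α : Fin X.s} {δ : ZMod 2} {j : ℕ} {P : V → ℝ} (h : ∀ x, 0 ≤ P x) (a b : V) :
    0 ≤ Lgy_f X α δ j P a b := by
  unfold Lgy_f
  split_ifs
  · exact Lgy_tn h a b
  · exact le_rfl

theorem Lgy_gy (α : Fin X.s) (δ : ZMod 2) (j : ℕ) (P : V → ℝ) (y a : V) :
    X.gy α δ j P y a = Lgy_f X α δ j P a y +
      (if X.M α y ≠ y then Lgy_f X α δ j P a (X.M α y) else 0) := by
  unfold Cx.gy Lgy_f Lgy_t
  by_cases h1 : X.M α y = y
  · simp [h1]
  · by_cases h2 : X.M α y ∈ X.R α δ j a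
    · simp [h1, h2]
    · simp [h1, h2]

theorem Lgy_re (α : Fin X.s) (f : V → ℝ) : ∑ y, f (X.M α y) = ∑ y, f y :=
  Equiv.sum_comp (Function.Involutive.toPerm (X.M α) (X.M_M α)) f

theorem Lgy_fs {α : Fin X.s} {δ : ZMod 2} {j : ℕ} {P : V → ℝ} (h : ∀ x, 0 ≤ P x) (a : V) :
    ∑ y, Lgy_f X α δ j P a y ≤ 3 * X.A α δ j P a := by
  unfold Lgy_f
  rw [← Finset.sum_filter]
  have e : (univ.filter fun y => y ∈ X.R α δ j a) = X.R α δ j a := by
    ext y; simp
  rw [e]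
  unfold Lgy_t
  rw [Finset.sum_add_distrib, Finset.sum_const, ← Finset.sum_div, nsmul_eq_mul]
  have h1 : (∑ b ∈ X.R α δ j a, P b) / X.dd = X.A α δ j P a := rfl
  rw [h1]
  have h2 := X.R_card_le α δ j a
  have h3 := Lgy_A (X := X) (α := α) (δ := δ) (j := j) h a
  have h4 : X.dd * (2 / X.dd) ≤ 2 := by
    rcases eq_or_ne X.dd 0 with h0 | h0
    · rw [h0]; norm_num
    · rw [mul_div_cancel₀ _ h0]
  have h5 : 0 ≤ 2 / X.dd := div_nonneg (by norm_num) (Lgy_dd X)
  have h6 : ((X.R α δ j a).card : ℝ) * (2 / X.dd) ≤ 2 :=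
    (mul_le_mul_of_nonneg_right h2 h5).trans h4
  have h7 : ((X.R α δ j a).card : ℝ) * (2 / X.dd) * X.A α δ j P a ≤ 2 * X.A α δ j P a :=
    mul_le_mul_of_nonneg_right h6 h3
  have h8 : ((X.R α δ j a).card : ℝ) * (2 / X.dd * X.A α δ j P a) =
      ((X.R α δ j a).card : ℝ) * (2 / X.dd) * X.A α δ j P a := by ring
  rw [h8]
  linarith

theorem Lgy_gB (B : Finset V) (α : Fin X.s) (δ : ZMod 2) (j : ℕ) (P : V → ℝ) (a : V) :
    X.gB B α δ j P a = ∑ b, if b ∈ B then Lgy_f X α δ j P a b else 0 := by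
  have e : (∑ b, if b ∈ B then Lgy_f X α δ j P a b else 0) =
      ∑ b ∈ (X.R α δ j a).filter (fun b => b ∈ B), Lgy_t X α δ j P a b := by
    rw [Finset.sum_filter]
    have e1 : ∑ b, (if b ∈ B then Lgy_f X α δ j P a b else 0) =
        ∑ b ∈ X.R α δ j a, (if b ∈ B then Lgy_f X α δ j P a b else 0) := by
      symm
      apply Finset.sum_subset (Finset.subset_univ _)
      intro b _ hb
      unfold Lgy_f
      rw [if_neg hb]
      simp
    rw [e1]
    refine Finset.sum_congr rfl fun b hb => ?_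
    unfold Lgy_f
    rw [if_pos hb]
  rw [e]
  unfold Cx.gB Lgy_t
  rw [Finset.sum_add_distrib, Finset.sum_const, ← Finset.sum_div, nsmul_eq_mul]
  ring

theorem gy_nn {α : Fin X.s} {δ : ZMod 2} {j : ℕ} {P : V → ℝ} (h : ∀ x, 0 ≤ P x) (y a : V) :
    0 ≤ X.gy α δ j P y a := by
  rw [Lgy_gy]
  refine add_nonneg (Lgy_fn h a y) ?_
  split_ifs
  · exact Lgy_fn h a _
  · exact le_rfl

theorem gy_sum {α : Fin X.s} {δ : ZMod 2} {j : ℕ} {P : V → ℝ} (h : ∀ x, 0 ≤ P x) (a : V) :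
    ∑ y, X.gy α δ j P y a ≤ 6 * X.A α δ j P a := by
  have h1 : ∑ y, X.gy α δ j P y a ≤
      ∑ y, (Lgy_f X α δ j P a y + Lgy_f X α δ j P a (X.M α y)) := by
    refine Finset.sum_le_sum fun y _ => ?_
    rw [Lgy_gy]
    refine add_le_add le_rfl ?_
    split_ifs
    · exact le_rfl
    · exact Lgy_fn h a _
  rw [Finset.sum_add_distrib, Lgy_re α (fun x => Lgy_f X α δ j P a x)] at h1
  have h2 := Lgy_fs (X := X) (α := α) (δ := δ) (j := j) h a
  linarith

theorem gB_W {α : Fin X.s} {δ : ZMod 2} {j : ℕ} {P : V → ℝ} (h : ∀ x, 0 ≤ P x) (a : V) :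
    X.gB (X.disW c α) α δ j P a ≤ ∑ y, if Wc X.p c α y then X.gy α δ j P y a else 0 := by
  rw [Lgy_gB]
  have e : (∑ y, if Wc X.p c α y then X.gy α δ j P y a else 0) =
      ∑ y, ((if Wc X.p c α y then Lgy_f X α δ j P a y else 0) +
        (if Wc X.p c α (X.M α y) ∧ X.M α y ≠ y then Lgy_f X α δ j P a y else 0)) := by
    rw [Finset.sum_add_distrib, ← Lgy_re α (fun y =>
      if Wc X.p c α (X.M α y) ∧ X.M α y ≠ y then Lgy_f X α δ j P a y else 0),
      ← Finset.sum_add_distrib]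
    refine Finset.sum_congr rfl fun y _ => ?_
    rw [Lgy_gy, X.M_M α y]
    by_cases h1 : Wc X.p c α y
    · by_cases h2 : X.M α y = y
      · rw [h2]; simp [h1]
      · rw [if_pos h1, if_pos h1, if_pos h2, if_pos ⟨h1, fun hh => h2 hh.symm⟩]
    · rw [if_neg h1, if_neg h1, if_neg (fun hh => h1 hh.1)]
      simp
  rw [e]
  refine Finset.sum_le_sum fun y _ => ?_
  have hf := Lgy_fn (X := X) (α := α) (δ := δ) (j := j) h a y
  by_cases hy : y ∈ X.disW c α
  · rw [if_pos hy]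
    have hy' : Wc X.p c α y ∨ Wc X.p c α (X.M α y) := by
      unfold Cx.disW at hy
      exact (Finset.mem_filter.1 hy).2
    by_cases h1 : Wc X.p c α y
    · rw [if_pos h1]
      have : 0 ≤ (if Wc X.p c α (X.M α y) ∧ X.M α y ≠ y then Lgy_f X α δ j P a y else 0) := by
        split_ifs
        · exact hf
        · exact le_rfl
      linarith
    · have h2 : Wc X.p c α (X.M α y) := hy'.resolve_left h1
      have h3 : X.M α y ≠ y := by
        intro hh
        rw [hh] at h2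
        exact h1 h2
      rw [if_neg h1, if_pos ⟨h2, h3⟩]
      linarith
  · rw [if_neg hy]
    refine add_nonneg ?_ ?_
    · split_ifs
      · exact hf
      · exact le_rfl
    · split_ifs
      · exact hf
      · exact le_rfl

theorem gB_X {α : Fin X.s} {δ : ZMod 2} {j : ℕ} {P : V → ℝ} (h : ∀ x, 0 ≤ P x) (a : V) :
    X.gB (X.disX Rc α) α δ j P a ≤
      ∑ y, if y ∈ Rc ∧ X.M α y ∈ Rc ∧ X.M α y ≠ y then X.gy α δ j P y a else 0 := by
  rw [Lgy_gB]
  refine Finset.sum_le_sum fun y _ => ?_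
  have hg := gy_nn (X := X) (α := α) (δ := δ) (j := j) h y a
  by_cases hy : y ∈ X.disX Rc α
  · rw [if_pos hy]
    have hy' : X.M α y ≠ y ∧ y ∈ Rc ∧ X.M α y ∈ Rc := by
      unfold Cx.disX at hy
      exact (Finset.mem_filter.1 hy).2
    rw [if_pos ⟨hy'.2.1, hy'.2.2, hy'.1⟩, Lgy_gy]
    have : 0 ≤ (if X.M α y ≠ y then Lgy_f X α δ j P a (X.M α y) else 0) := by
      split_ifs
      · exact Lgy_fn h a _
      · exact le_rfl
    linarith
  · rw [if_neg hy]
    split_ifs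
    · exact hg
    · exact le_rfl

theorem gB_un {α : Fin X.s} {δ : ZMod 2} {j : ℕ} {P : V → ℝ} (h : ∀ x, 0 ≤ P x) (a : V) :
    X.gB (X.dis c Rc α) α δ j P a ≤ X.gB (X.disW c α) α δ j P a + X.gB (X.disX Rc α) α δ j P a := by
  rw [Lgy_gB, Lgy_gB, Lgy_gB, ← Finset.sum_add_distrib]
  refine Finset.sum_le_sum fun y _ => ?_
  have hf := Lgy_fn (X := X) (α := α) (δ := δ) (j := j) h a y
  have h1 : 0 ≤ (if y ∈ X.disW c α then Lgy_f X α δ j P a y else 0) := by
    split_ifs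
    · exact hf
    · exact le_rfl
  have h2 : 0 ≤ (if y ∈ X.disX Rc α then Lgy_f X α δ j P a y else 0) := by
    split_ifs
    · exact hf
    · exact le_rfl
  by_cases hy : y ∈ X.dis c Rc α
  · rw [if_pos hy]
    unfold Cx.dis at hy
    rcases Finset.mem_union.1 hy with h3 | h3
    · rw [if_pos h3]; linarith
    · rw [if_pos h3]; linarith
  · rw [if_neg hy]; linarith

end Cx

end Pool.Agent.H2.LN
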