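/-
ROW Lt0. Pull-back to layer 0.
PROOF. `T0 α δ (j+1) F = T0 α δ j (T α δ j F)`, `T α δ j F = A α δ j (mv α F)`. Everything by induction on `j` generalising `F`. `T_mono`: `mv` and `A` are monotone (`A_mono`). `T0_sum`, `T0_smul`: `mv`, `A` are linear (`Finset.sum_comm`, `Finset.sum_div`; show `X.T α δ j (fun x => ∑ i ∈ K, F i x) = fun a => ∑ i ∈ K, X.T α δ j (F i) a` by `funext`).
`T0_l1`: `∑ A (mv F) ≤ ∑ mv F = ∑ nd F ≤ ∑ F` (`A_sum_le`, `mv_sum`). `T0_l2`: `A_l2`, `mv_l2`. `T0_ball`: `T α δ j F a ≠ 0` gives `x ∈ R a` with `mv F x ≠ 0`, `F (M α x) ≠ 0`, `M α x ∈ bl b k`: `x ∈ bl b (k+1)` (`M_adj`), `a ∈ bl b (k + 2)` (`R_adj`): hypothesis of the induction for `T F` with `k + 2`.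
`T0_RF`: induction on `j` generalising `r P`: `j = 0`: `P' = P`. `j + 1`: `T0 (j+1) (A (j+1) P) = T0 j (A j (mv (A (j+1) P)))` (definitions), `RF.st`: `RF δ j (r+1) (mv (A (j+1) P))`, IH gives `RF δ 0 (r + 1 + j) P'`.
-/
import Pool.Agent.H2.LN.LD
import Pool.Agent.H2.LN.L.Lrf
import Pool.Agent.H65.GI.Lll

set_option autoImplicit false
set_option linter.unusedSectionVars false

namespace Pool.Agent.H2.LN

open Finset Classical
open Pool.Agent.H65.GI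

namespace Cx

variable {V : Type} [Fintype V] {X : Cx V}

theorem Lt0_T_nn {α : Fin X.s} {δ : ZMod 2} {j : ℕ} {F : V → ℝ} (h : ∀ x, 0 ≤ F x) (a : V) :
    0 ≤ X.T α δ j F a := by
  unfold T
  refine A_nn ?_ a
  intro x
  unfold mv
  split_ifs
  · exact h _
  · exact le_refl _

theorem Lt0_T_mono {α : Fin X.s} {δ : ZMod 2} {j : ℕ} {F F' : V → ℝ} (h : ∀ x, F x ≤ F' x) (a : V) :
    X.T α δ j F a ≤ X.T α δ j F' a := by
  unfold T
  refine A_mono ?_ a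
  intro x
  unfold mv
  split_ifs
  · exact h _
  · exact le_refl _

theorem Lt0_T_sum (α : Fin X.s) (δ : ZMod 2) (j : ℕ) {ι : Type} (K : Finset ι) (F : ι → V → ℝ) :
    X.T α δ j (fun x => ∑ i ∈ K, F i x) = fun a => ∑ i ∈ K, X.T α δ j (F i) a := by
  funext a
  unfold T A
  rw [← Finset.sum_div, Finset.sum_comm]
  congr 1
  refine Finset.sum_congr rfl ?_
  intro x _
  unfold mv
  split_ifs
  · rfl
  · exact (Finset.sum_const_zero).symm

theorem Lt0_T_smul (α : Fin X.s) (δ : ZMod 2) (j : ℕ) (k : ℝ) (F : V → ℝ) :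
    X.T α δ j (fun x => k * F x) = fun a => k * X.T α δ j F a := by
  funext a
  unfold T A
  rw [← mul_div_assoc, Finset.mul_sum]
  congr 1
  refine Finset.sum_congr rfl ?_
  intro x _
  unfold mv
  split_ifs
  · rfl
  · exact (mul_zero k).symm

theorem Lt0_T_l1 {α : Fin X.s} {δ : ZMod 2} {j : ℕ} {F : V → ℝ} (h : ∀ x, 0 ≤ F x) :
    ∑ a, X.T α δ j F a ≤ ∑ x, F x := by
  have h0 : ∀ x, 0 ≤ X.mv α F x := by
    intro x
    unfold mv
    split_ifs
    · exact h _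
    · exact le_refl _
  have h1 : ∑ a, X.T α δ j F a ≤ ∑ x, X.mv α F x := A_sum_le h0
  refine h1.trans ?_
  rw [mv_sum]
  refine Finset.sum_le_sum ?_
  intro x _
  unfold nd
  split_ifs
  · exact le_refl _
  · exact h x

theorem Lt0_T_l2 (α : Fin X.s) (δ : ZMod 2) (j : ℕ) (F : V → ℝ) :
    ∑ a, X.T α δ j F a ^ 2 ≤ ∑ x, F x ^ 2 := by
  have h1 : ∑ a, X.T α δ j F a ^ 2 ≤ ∑ x, X.mv α F x ^ 2 := A_l2 α δ j (X.mv α F)
  exact h1.trans (mv_l2 α F)

theorem Lt0_T_ball {α : Fin X.s} {δ : ZMod 2} {j : ℕ} {F : V → ℝ} {b : V} {k : ℕ}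
    (h : ∀ x, F x ≠ 0 → x ∈ bl X.G b k) (a : V) (ha : X.T α δ j F a ≠ 0) : a ∈ bl X.G b (k + 2) := by
  have h1 : ∑ x ∈ X.R α δ j a, X.mv α F x ≠ 0 := by
    intro h0
    apply ha
    change (∑ x ∈ X.R α δ j a, X.mv α F x) / X.dd = 0
    rw [h0, zero_div]
  obtain ⟨x, hx, hx0⟩ := Finset.exists_ne_zero_of_sum_ne_zero h1
  have h2 : X.M α x ≠ x := by
    intro h3
    apply hx0
    unfold mv
    rw [if_neg (not_not.2 h3)]
  have h4 : F (X.M α x) ≠ 0 := by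
    intro h3
    apply hx0
    unfold mv
    rw [if_pos h2, h3]
  have h5 := h _ h4
  have h6 : x ∈ bl X.G b (k + 1) := bl_adj X.G h5 (X.M_adj h2).symm
  exact bl_adj X.G h6 (X.R_adj hx).symm

theorem T0_nn {α : Fin X.s} {δ : ZMod 2} {j : ℕ} {F : V → ℝ} (h : ∀ x, 0 ≤ F x) (a : V) :
    0 ≤ X.T0 α δ j F a := by
  induction j generalizing F with
  | zero => exact h a
  | succ j ih =>
    change 0 ≤ X.T0 α δ j (X.T α δ j F) a
    exact ih (fun x => Lt0_T_nn h x)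

theorem T0_mono {α : Fin X.s} {δ : ZMod 2} {j : ℕ} {F F' : V → ℝ} (h : ∀ x, F x ≤ F' x) (a : V) :
    X.T0 α δ j F a ≤ X.T0 α δ j F' a := by
  induction j generalizing F F' with
  | zero => exact h a
  | succ j ih =>
    change X.T0 α δ j (X.T α δ j F) a ≤ X.T0 α δ j (X.T α δ j F') a
    exact ih (fun x => Lt0_T_mono h x)

theorem T0_sum (α : Fin X.s) (δ : ZMod 2) (j : ℕ) {ι : Type} (K : Finset ι) (F : ι → V → ℝ) (a : V) :
    X.T0 α δ j (fun x => ∑ i ∈ K, F i x) a = ∑ i ∈ K, X.T0 α δ j (F i) a := by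
  induction j generalizing F with
  | zero => rfl
  | succ j ih =>
    change X.T0 α δ j (X.T α δ j (fun x => ∑ i ∈ K, F i x)) a =
      ∑ i ∈ K, X.T0 α δ j (X.T α δ j (F i)) a
    rw [Lt0_T_sum]
    exact ih (fun i => X.T α δ j (F i))

theorem T0_smul (α : Fin X.s) (δ : ZMod 2) (j : ℕ) (k : ℝ) (F : V → ℝ) (a : V) :
    X.T0 α δ j (fun x => k * F x) a = k * X.T0 α δ j F a := by
  induction j generalizing F with
  | zero => rfl
  | succ j ih =>
    change X.T0 α δ j (X.T α δ j (fun x => k * F x)) a = k * X.T0 α δ j (X.T α δ j F) a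
    rw [Lt0_T_smul]
    exact ih (X.T α δ j F)

theorem T0_l1 {α : Fin X.s} {δ : ZMod 2} {j : ℕ} {F : V → ℝ} (h : ∀ x, 0 ≤ F x) :
    ∑ a, X.T0 α δ j F a ≤ ∑ x, F x := by
  induction j generalizing F with
  | zero => exact le_refl _
  | succ j ih =>
    change ∑ a, X.T0 α δ j (X.T α δ j F) a ≤ ∑ x, F x
    exact (ih (fun x => Lt0_T_nn h x)).trans (Lt0_T_l1 h)

theorem T0_l2 (α : Fin X.s) (δ : ZMod 2) (j : ℕ) (F : V → ℝ) :
    ∑ a, X.T0 α δ j F a ^ 2 ≤ ∑ x, F x ^ 2 := by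
  induction j generalizing F with
  | zero => exact le_refl _
  | succ j ih =>
    change ∑ a, X.T0 α δ j (X.T α δ j F) a ^ 2 ≤ ∑ x, F x ^ 2
    exact (ih (X.T α δ j F)).trans (Lt0_T_l2 α δ j F)

theorem T0_ball {α : Fin X.s} {δ : ZMod 2} {j : ℕ} {F : V → ℝ} {b : V} {k : ℕ}
    (h : ∀ x, F x ≠ 0 → x ∈ bl X.G b k) (a : V) (ha : X.T0 α δ j F a ≠ 0) : a ∈ bl X.G b (k + 2 * j) := by
  induction j generalizing F k with
  | zero => exact h a ha
  | succ j ih =>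
    have h1 : a ∈ bl X.G b (k + 2 + 2 * j) := ih (F := X.T α δ j F) (k := k + 2)
      (fun x hx => Lt0_T_ball h x hx) ha
    have h2 : k + 2 * (j + 1) = k + 2 + 2 * j := by ring
    rw [h2]
    exact h1

theorem T0_RF {α : Fin X.s} {δ : ZMod 2} {j r : ℕ} {P : V → ℝ} (h : X.RF α δ j r P) :
    ∃ P', X.RF α δ 0 (r + j) P' ∧ X.T0 α δ j (X.A α δ j P) = X.A α δ 0 P' := by
  induction j generalizing r P with
  | zero => exact ⟨P, h, rfl⟩
  | succ j ih =>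
    obtain ⟨P', h1, h2⟩ := ih (RF.st δ j r P h)
    refine ⟨P', ?_, h2⟩
    have h3 : r + (j + 1) = r + 1 + j := by ring
    rw [h3]
    exact h1

end Cx

end Pool.Agent.H2.LN
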