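/-
ROW Lge. Error functions pulled back to layer 0.
PROOF. `gE P ≤ gB disW P + gB disX P + gD P` pointwise (`gB_un`); `gE_T0`: `gB disW P a ≤ ∑_y [W y] gy P y a = ∑_{y ∈ univ.filter W} gy P y a` (`gB_W`), the same for `disX` (`gB_X`). Apply `T0_mono`, and `T0` of a sum of functions is the sum (`T0_sum`; for two or three functions use `T0_sum` with a `Finset` of `Fin 3` or prove `T0_add` from it), then `mv` at `x`, multiply by `[q x]`, sum over `x`;
`∑_x [q x] mv (T0 (∑_{y ∈ K} gy P y)) x = ∑_x ∑_y [q x ∧ W y] cb P x y`. If `M x = x` everything is `0`. `gE_T0'`: the same without expanding the first part. `gD_l1`: `T0_l1`, `∑ gD P = ∑_{a ∈ D} 2 / dd A P a ≤ (2 / dd) (1 / dd)` (`A_box` with `B = D`, `k = 1`, `R_D`, `RF_l1`).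
`gW_l1`: `T0_l1`; `∑_a gB disW P a = ∑_a (2 / dd) A P a |R ∩ disW| + ∑_{b ∈ disW} P b |R b| / dd ≤ 2 kd / dd + kd / dd` (`disW ⊆ dis`, `KD`; `RF_box` with `B = disW`, `disW_M`).
-/
import Pool.Agent.H2.LN.LD
import Pool.Agent.H2.LN.L.Lgy
import Pool.Agent.H2.LN.L.Lt0
import Pool.Agent.H2.LN.L.Lef

set_option autoImplicit false
set_option linter.unusedSectionVars false

namespace Pool.Agent.H2.LN

open Finset Classical
open Pool.Agent.H65.GI

namespace Cx

variable {V : Type} [Fintype V] {X : Cx V} {c : V → ℕ} {Rc : Finset V}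

theorem Lge_z (α : Fin X.s) (δ : ZMod 2) (j : ℕ) (a : V) :
    X.T0 α δ j (fun _ => (0 : ℝ)) a = 0 := by
  have h := T0_sum (X := X) α δ j (∅ : Finset (Fin 1)) (fun _ _ => (0 : ℝ)) a
  simpa using h

theorem Lge_add (α : Fin X.s) (δ : ZMod 2) (j : ℕ) (F G : V → ℝ) (a : V) :
    X.T0 α δ j (fun x => F x + G x) a = X.T0 α δ j F a + X.T0 α δ j G a := by
  have h := T0_sum (X := X) α δ j (univ : Finset (Fin 2)) ![F, G] a
  simpa [Fin.sum_univ_two] using h

theorem Lge_if (α : Fin X.s) (δ : ZMod 2) (j : ℕ) (P : V → ℝ) (p : V → Prop) [DecidablePred p] (a : V) :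
    X.T0 α δ j (fun a => ∑ y, if p y then X.gy α δ j P y a else 0) a =
      ∑ y, if p y then X.T0 α δ j (X.gy α δ j P y) a else 0 := by
  rw [T0_sum (X := X) α δ j (univ : Finset V) (fun y a => if p y then X.gy α δ j P y a else 0) a]
  refine Finset.sum_congr rfl fun y _ => ?_
  by_cases hy : p y
  · simp only [hy, if_true]
  · simp only [hy, if_false]
    exact Lge_z α δ j a

theorem Lge_pt' {α : Fin X.s} {δ : ZMod 2} {j : ℕ} {P : V → ℝ} (h : ∀ x, 0 ≤ P x) (x : V) :
    X.mv α (X.T0 α δ j (X.gE c Rc α δ j P)) x ≤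
      X.mv α (X.T0 α δ j (X.gB (X.disW c α) α δ j P)) x +
      (∑ y, if y ∈ Rc ∧ X.M α y ∈ Rc ∧ X.M α y ≠ y then X.cb α δ j P x y else 0) +
      X.mv α (X.T0 α δ j (X.gD α δ j P)) x := by
  unfold Cx.cb Cx.mv
  by_cases hM : X.M α x ≠ x
  · simp only [if_pos hM]
    rw [← Lge_if α δ j P (fun y => y ∈ Rc ∧ X.M α y ∈ Rc ∧ X.M α y ≠ y) (X.M α x)]
    rw [← Lge_add, ← Lge_add]
    refine T0_mono (fun a => ?_) _
    have h1 := gB_un (X := X) (c := c) (Rc := Rc) (α := α) (δ := δ) (j := j) h a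
    have h2 := gB_X (X := X) (Rc := Rc) (α := α) (δ := δ) (j := j) h a
    unfold Cx.gE
    linarith
  · simp [if_neg hM]

theorem Lge_pt {α : Fin X.s} {δ : ZMod 2} {j : ℕ} {P : V → ℝ} (h : ∀ x, 0 ≤ P x) (x : V) :
    X.mv α (X.T0 α δ j (X.gB (X.disW c α) α δ j P)) x ≤
      ∑ y, if Wc X.p c α y then X.cb α δ j P x y else 0 := by
  unfold Cx.cb Cx.mv
  by_cases hM : X.M α x ≠ x
  · simp only [if_pos hM]
    rw [← Lge_if α δ j P (fun y => Wc X.p c α y) (X.M α x)]
    refine T0_mono (fun a => ?_) _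
    exact gB_W (X := X) (c := c) (α := α) (δ := δ) (j := j) h a
  · simp [if_neg hM]

theorem Lge_dd (X : Cx V) : 0 ≤ X.dd := by
  unfold Cx.dd
  exact Nat.cast_nonneg _

/-- the same, the `W`-part not expanded -/
theorem gE_T0' {α : Fin X.s} {δ : ZMod 2} {j : ℕ} {P : V → ℝ} (h : ∀ x, 0 ≤ P x) (q : V → Prop) :
    (∑ x, if q x then X.mv α (X.T0 α δ j (X.gE c Rc α δ j P)) x else 0) ≤
      (∑ x, if q x then X.mv α (X.T0 α δ j (X.gB (X.disW c α) α δ j P)) x else 0) +
      (∑ x, ∑ y, if q x ∧ y ∈ Rc ∧ X.M α y ∈ Rc ∧ X.M α y ≠ y then X.cb α δ j P x y else 0) +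
      ∑ x, if q x then X.mv α (X.T0 α δ j (X.gD α δ j P)) x else 0 := by
  rw [← Finset.sum_add_distrib, ← Finset.sum_add_distrib]
  refine Finset.sum_le_sum fun x _ => ?_
  by_cases hq : q x
  · simp only [hq, if_true, true_and]
    exact Lge_pt' h x
  · simp [hq]

/-- the error functions, pulled back, tested against a set of partners -/
theorem gE_T0 {α : Fin X.s} {δ : ZMod 2} {j : ℕ} {P : V → ℝ} (h : ∀ x, 0 ≤ P x) (q : V → Prop) :
    (∑ x, if q x then X.mv α (X.T0 α δ j (X.gE c Rc α δ j P)) x else 0) ≤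
      (∑ x, ∑ y, if q x ∧ Wc X.p c α y then X.cb α δ j P x y else 0) +
      (∑ x, ∑ y, if q x ∧ y ∈ Rc ∧ X.M α y ∈ Rc ∧ X.M α y ≠ y then X.cb α δ j P x y else 0) +
      ∑ x, if q x then X.mv α (X.T0 α δ j (X.gD α δ j P)) x else 0 := by
  refine (gE_T0' (X := X) (c := c) (Rc := Rc) h q).trans ?_
  refine add_le_add (add_le_add ?_ le_rfl) le_rfl
  refine Finset.sum_le_sum fun x _ => ?_
  by_cases hq : q x
  · simp only [hq, if_true, true_and]
    exact Lge_pt h x
  · simp [hq]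

theorem gD_l1 {α : Fin X.s} {δ : ZMod 2} {j r : ℕ} {P : V → ℝ} (h : X.RF α δ j r P) :
    ∑ a, X.T0 α δ j (X.gD α δ j P) a ≤ 2 / X.dd ^ 2 := by
  have hP := RF_nn h
  have hA : ∀ a, 0 ≤ X.A α δ j P a := fun a => A_nn hP a
  have hdd := Lge_dd X
  have hg : ∀ a, 0 ≤ X.gD α δ j P a := by
    intro a
    unfold Cx.gD
    split_ifs
    · exact mul_nonneg (div_nonneg (by norm_num) hdd) (hA a)
    · exact le_rfl
  refine (T0_l1 hg).trans ?_
  have e1 : ∑ a, X.gD α δ j P a = 2 / X.dd * ∑ a ∈ X.D, X.A α δ j P a := by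
    unfold Cx.gD
    rw [← Finset.sum_filter, Finset.mul_sum]
    refine Finset.sum_congr ?_ fun _ _ => rfl
    ext a
    simp
  rw [e1]
  have h1 := A_box (X := X) (α := α) (δ := δ) (j := j) hP (RF_l1 h) X.D 1 (by norm_num)
    (fun b => by exact_mod_cast X.R_D α δ j b)
  calc 2 / X.dd * ∑ a ∈ X.D, X.A α δ j P a ≤ 2 / X.dd * (1 / X.dd) :=
        mul_le_mul_of_nonneg_left h1 (div_nonneg (by norm_num) hdd)
    _ = 2 / X.dd ^ 2 := by
        rw [div_mul_div_comm, mul_one, pow_two]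

theorem gW_l1 {α : Fin X.s} {δ : ZMod 2} {j r : ℕ} {P : V → ℝ} (h : X.RF α δ j (r + 1) P)
    (hk : X.KD c Rc) : ∑ a, X.T0 α δ j (X.gB (X.disW c α) α δ j P) a ≤ 4 * X.kd / X.dd := by
  have hP := RF_nn h
  have hA : ∀ a, 0 ≤ X.A α δ j P a := fun a => A_nn hP a
  have hdd := Lge_dd X
  have hkd : (0 : ℝ) ≤ X.kd := Nat.cast_nonneg _
  have hj : j ≤ X.n := by
    have := RF_rj h
    omega
  have hcard : ∀ δ' j' b, j' ≤ X.n →
      (((X.R α δ' j' b).filter (fun u => u ∈ X.disW c α)).card : ℝ) ≤ X.kd := by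
    intro δ' j' b hj'
    have h1 := hk α δ' j' b hj'
    have h2 : ((X.R α δ' j' b).filter (fun u => u ∈ X.disW c α)).card ≤
        ((X.R α δ' j' b).filter (fun u => u ∈ X.dis c Rc α)).card := by
      refine Finset.card_le_card fun u hu => ?_
      rw [Finset.mem_filter] at hu ⊢
      refine ⟨hu.1, ?_⟩
      unfold Cx.dis
      exact Finset.mem_union_left _ hu.2
    exact_mod_cast h2.trans h1
  have hg : ∀ a, 0 ≤ X.gB (X.disW c α) α δ j P a := by
    intro a
    unfold Cx.gB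
    refine add_nonneg ?_ ?_
    · exact mul_nonneg (mul_nonneg (div_nonneg (by norm_num) hdd) (hA a)) (Nat.cast_nonneg _)
    · exact div_nonneg (Finset.sum_nonneg fun b _ => hP b) hdd
  refine (T0_l1 hg).trans ?_
  unfold Cx.gB
  rw [Finset.sum_add_distrib]
  have p1 : ∑ a, 2 / X.dd * X.A α δ j P a *
      (((X.R α δ j a).filter (fun b => b ∈ X.disW c α)).card : ℝ) ≤ 2 * X.kd / X.dd := by
    calc ∑ a, 2 / X.dd * X.A α δ j P a *
        (((X.R α δ j a).filter (fun b => b ∈ X.disW c α)).card : ℝ)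
        ≤ ∑ a, 2 / X.dd * X.A α δ j P a * X.kd := by
          refine Finset.sum_le_sum fun a _ => ?_
          exact mul_le_mul_of_nonneg_left (hcard δ j a hj)
            (mul_nonneg (div_nonneg (by norm_num) hdd) (hA a))
      _ = 2 / X.dd * X.kd * ∑ a, X.A α δ j P a := by
          rw [Finset.mul_sum]
          refine Finset.sum_congr rfl fun a _ => ?_
          ring
      _ ≤ 2 / X.dd * X.kd * 1 :=
          mul_le_mul_of_nonneg_left ((A_sum_le hP).trans (RF_l1 h))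
            (mul_nonneg (div_nonneg (by norm_num) hdd) hkd)
      _ = 2 * X.kd / X.dd := by ring
  have p2 : ∑ a, (∑ b ∈ (X.R α δ j a).filter (fun b => b ∈ X.disW c α), P b) / X.dd ≤
      X.kd / X.dd := by
    have e1 : ∑ a, (∑ b ∈ (X.R α δ j a).filter (fun b => b ∈ X.disW c α), P b) / X.dd =
        ∑ b ∈ X.disW c α, P b * (((X.R α δ j b).card : ℝ) / X.dd) := by
      have e2 : ∀ a, (∑ b ∈ (X.R α δ j a).filter (fun b => b ∈ X.disW c α), P b) / X.dd =
          ∑ b ∈ X.disW c α, if a ∈ X.R α δ j b then P b / X.dd else 0 := by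
        intro a
        rw [← Finset.sum_filter, Finset.sum_div]
        refine Finset.sum_congr ?_ fun _ _ => rfl
        ext b
        simp only [Finset.mem_filter]
        constructor
        · rintro ⟨hb, hb'⟩
          exact ⟨hb', X.R_symm hb⟩
        · rintro ⟨hb, hb'⟩
          exact ⟨X.R_symm hb', hb⟩
      rw [Finset.sum_congr rfl fun a _ => e2 a, Finset.sum_comm]
      refine Finset.sum_congr rfl fun b _ => ?_
      rw [← Finset.sum_filter]
      have e3 : (univ.filter fun a => a ∈ X.R α δ j b) = X.R α δ j b := by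
        ext a
        simp
      rw [e3, Finset.sum_const, nsmul_eq_mul]
      ring
    rw [e1]
    refine le_trans ?_ (RF_box h (X.disW c α) X.kd (fun x hx => disW_M hx) hcard)
    refine Finset.sum_le_sum fun b _ => ?_
    have : ((X.R α δ j b).card : ℝ) / X.dd ≤ 1 := div_le_one_of_le₀ (X.R_card_le α δ j b) hdd
    calc P b * (((X.R α δ j b).card : ℝ) / X.dd) ≤ P b * 1 :=
          mul_le_mul_of_nonneg_left this (hP b)
      _ = P b := mul_one _
  calc _ ≤ 2 * X.kd / X.dd + X.kd / X.dd := add_le_add p1 p2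
    _ = 3 * X.kd / X.dd := by ring
    _ ≤ 4 * X.kd / X.dd := by
        refine div_le_div_of_nonneg_right ?_ hdd
        nlinarith

end Cx

end Pool.Agent.H2.LN
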