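/-
ROW Anw. Error functions against the sources.
PROOF. `nu_w`: `m 0 1 δ α v ≤ (1/16) [Rs (M v)]`, and `Rs (M v)` implies `M v ≠ v` (`Gd`): `pa G m ≤ (1/16) ∑_x [Rs x] mv G x`, `G = T0 (gE P) ≥ 0`. `gE_T0'` with `q = Rs`: `S2.u2`: `2 rho ∑ mv (T0 gW) + pw (-3) ≤ 2 rho 4 kd / dd + pw (-3)` (`gW_l1`; `n3 ≥ 1`), `S2.e`: `N^102 pw (-3)`, `S2.u3`: `2 rho 2 / dd^2 + pw (-3)` (`gD_l1`). `rho ≤ N^51 pw (-2)`, `kd / dd ≤ 8 N^106 pw (-1)`: total `≤ N^180 pw (-3) ≤ pw (-59/20)` (`pwN` with `x = 1/20`).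
`nu_up`: as `up0` in Aup with `τ = 1`, `B = 1/16`, no injection: `pa F (m (j+1)) = ∑ mv F ar ≤ (1 + 4 kd / dd) pa (T F) (m j) + pw (-19/5) / 32`; `(1 + 4 kd / dd)^n ≤ 2`, `2 n pw (-19/5) / 32 ≤ pw (-18/5)`.
-/
import Pool.Agent.H2.LN.LD
import Pool.Agent.H2.LN.L.An0
import Pool.Agent.H2.LN.L.Lge
import Pool.Agent.H2.LN.L.Ast
import Pool.Agent.H2.LN.L.Lef
import Pool.Agent.H2.LN.L.Aid
import Pool.Agent.H2.LN.L.Lt0
import Pool.Agent.H2.LN.L.Lnm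
import Pool.Agent.H2.LN.L.Lbs

set_option autoImplicit false
set_option linter.unusedSectionVars false

namespace Pool.Agent.H2.LN

open Finset Classical
open Pool.Agent.H65.GI

namespace An

variable {V : Type} [Fintype V] {X : Cx V} (Y : An X)

private theorem Anw_N (X : Cx V) : (1 : ℝ) ≤ X.N := le_trans (by norm_num) X.N_big

private theorem Anw_kd (X : Cx V) : (X.kd : ℝ) = (X.N : ℝ) ^ 52 := by
  unfold Cx.kd; push_cast; rfl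

private theorem Anw_dd (X : Cx V) : 0 < X.dd := by
  have hN := Anw_N X
  have h1 := X.dd_bd.1
  have h2 := X.pw_pos 1
  have h3 : (0 : ℝ) < X.pw 1 / (8 * (X.N : ℝ) ^ 54) := by positivity
  linarith

private theorem Anw_kdd (X : Cx V) : (X.kd : ℝ) / X.dd ≤ 8 * (X.N : ℝ) ^ 106 * X.pw (-1) := by
  have hN := Anw_N X
  have hd := Anw_dd X
  have h1 := X.dd_bd.1
  have h2 := X.pw_pos 1
  have h3 : X.pw 1 * X.pw (-1) = 1 := by
    rw [X.pw_add]; unfold Cx.pw; norm_num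
  rw [Anw_kd, div_le_iff₀ hd]
  have h5 := X.pw_pos (-1)
  have h4 : 8 * (X.N : ℝ) ^ 106 * X.pw (-1) * (X.pw 1 / (8 * (X.N : ℝ) ^ 54)) = (X.N : ℝ) ^ 52 := by
    have hN0 : (X.N : ℝ) ≠ 0 := by positivity
    have e : 8 * (X.N : ℝ) ^ 106 * X.pw (-1) * (X.pw 1 / (8 * (X.N : ℝ) ^ 54)) =
        (X.pw 1 * X.pw (-1)) * ((X.N : ℝ) ^ 106 / (X.N : ℝ) ^ 54) := by
      field_simp
    rw [e, h3, one_mul, div_eq_iff (by positivity), ← pow_add]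
  calc (X.N : ℝ) ^ 52 = 8 * (X.N : ℝ) ^ 106 * X.pw (-1) * (X.pw 1 / (8 * (X.N : ℝ) ^ 54)) := h4.symm
    _ ≤ 8 * (X.N : ℝ) ^ 106 * X.pw (-1) * X.dd := by
        apply mul_le_mul_of_nonneg_left h1
        positivity

private theorem Anw_idd (X : Cx V) : 1 / X.dd ≤ 8 * (X.N : ℝ) ^ 54 * X.pw (-1) := by
  have hN := Anw_N X
  have hd := Anw_dd X
  have h1 := X.dd_bd.1
  have h3 : X.pw 1 * X.pw (-1) = 1 := by
    rw [X.pw_add]; unfold Cx.pw; norm_num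
  rw [div_le_iff₀ hd]
  have h5 := X.pw_pos (-1)
  have h4 : 8 * (X.N : ℝ) ^ 54 * X.pw (-1) * (X.pw 1 / (8 * (X.N : ℝ) ^ 54)) = 1 := by
    have hN0 : (X.N : ℝ) ≠ 0 := by positivity
    have e : 8 * (X.N : ℝ) ^ 54 * X.pw (-1) * (X.pw 1 / (8 * (X.N : ℝ) ^ 54)) =
        (X.pw 1 * X.pw (-1)) := by
      field_simp
    rw [e, h3]
  calc (1 : ℝ) = 8 * (X.N : ℝ) ^ 54 * X.pw (-1) * (X.pw 1 / (8 * (X.N : ℝ) ^ 54)) := h4.symm
    _ ≤ 8 * (X.N : ℝ) ^ 54 * X.pw (-1) * X.dd := by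
        apply mul_le_mul_of_nonneg_left h1
        positivity

private theorem Anw_mv (X : Cx V) (α : Fin X.s) {F : V → ℝ} (hF : ∀ x, 0 ≤ F x) :
    ∑ x, X.mv α F x ≤ ∑ x, F x := by
  rw [X.mv_sum]
  apply sum_le_sum
  intro x _
  unfold Cx.nd
  split_ifs
  · exact le_rfl
  · exact hF x

private theorem Anw_mvnn (X : Cx V) (α : Fin X.s) {F : V → ℝ} (hF : ∀ x, 0 ≤ F x) (x : V) :
    0 ≤ X.mv α F x := by
  unfold Cx.mv
  split_ifs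
  · exact hF _
  · exact le_rfl

private theorem Anw_m0 (δ : ZMod 2) (α : Fin X.s) (v : V) :
    Y.m 0 1 δ α v ≤ if Rs X.G X.p Y.c X.D X.M Y.Rc Y.al α (X.M α v) then 1 / 16 else 0 := by
  have e : Y.m 0 1 δ α v = if X.sd α v = δ ∧ ¬ Wc X.p Y.c α v then
      (if (1 : Fin 2) = 0 then (if X.M α v = v then X.ub Y.φ α else if Wc X.p Y.c α (X.M α v) then 1 else 0)
        else if Rs X.G X.p Y.c X.D X.M Y.Rc Y.al α (X.M α v) then 1 / 16 else 0)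
    else 0 := rfl
  rw [e, if_neg (show ¬ (1 : Fin 2) = 0 by decide)]
  by_cases h1 : Rs X.G X.p Y.c X.D X.M Y.Rc Y.al α (X.M α v)
  · rw [if_pos h1]
    split_ifs <;> norm_num
  · rw [if_neg h1]
    split_ifs <;> norm_num

private theorem Anw_pa0 (δ : ZMod 2) (α : Fin X.s) {G : V → ℝ} (hG : ∀ x, 0 ≤ G x) :
    Cx.pa G (Y.m 0 1 δ α) ≤
      1 / 16 * ∑ x, if Rs X.G X.p Y.c X.D X.M Y.Rc Y.al α x then X.mv α G x else 0 := by
  have hre : (∑ x, if Rs X.G X.p Y.c X.D X.M Y.Rc Y.al α x then X.mv α G x else 0) =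
      ∑ v, if Rs X.G X.p Y.c X.D X.M Y.Rc Y.al α (X.M α v) then X.mv α G (X.M α v) else 0 :=
    (Equiv.sum_comp (Function.Involutive.toPerm (X.M α) (X.M_M α))
      (fun x => if Rs X.G X.p Y.c X.D X.M Y.Rc Y.al α x then X.mv α G x else 0)).symm
  rw [hre, mul_sum]
  unfold Cx.pa
  apply sum_le_sum
  intro v _
  have hm := Anw_m0 Y δ α v
  by_cases h1 : Rs X.G X.p Y.c X.D X.M Y.Rc Y.al α (X.M α v)
  · rw [if_pos h1] at hm ⊢
    have h2 : X.M α (X.M α v) ≠ X.M α v := h1.2.2.1.2.2.1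
    have h3 : X.mv α G (X.M α v) = G v := by
      unfold Cx.mv
      rw [if_pos h2, X.M_M]
    rw [h3, mul_comm (G v)]
    exact mul_le_mul_of_nonneg_right hm (hG v)
  · rw [if_neg h1] at hm ⊢
    rw [mul_zero]
    exact mul_nonpos_of_nonneg_of_nonpos (hG v) hm

private theorem Anw_num (X : Cx V) :
    1 / 16 * ((2 * X.rho * (4 * X.kd / X.dd) + X.pw (-3)) + (X.N : ℝ) ^ 102 * X.pw (-3) +
      (2 * X.rho * (2 / X.dd ^ 2) + X.pw (-3))) ≤ X.pw (-(59 : ℝ) / 20) := by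
  have hN := Anw_N X
  have hd := Anw_dd X
  have h1 := Anw_kdd X
  have h2 := Anw_idd X
  have hr := X.rho_bd.2
  have p1 := X.pw_pos (-1)
  have p2 := X.pw_pos (-2)
  have p3 := X.pw_pos (-3)
  have e3 : X.pw (-2) * X.pw (-1) = X.pw (-3) := by rw [X.pw_add]; norm_num
  have hr0 : 0 ≤ X.rho := by
    have := X.rho_bd.1
    have h : (0 : ℝ) ≤ (X.N : ℝ) ^ 49 * X.pw (-2) := by positivity
    linarith
  have hk0 : (0 : ℝ) ≤ (X.kd : ℝ) / X.dd := by positivity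
  have hq : X.pw (-1) ≤ 1 := by
    have h := X.pwN 0 1 (by norm_num)
    have h3 : X.pw 1 * X.pw (-1) = 1 := by
      rw [X.pw_add]; unfold Cx.pw; norm_num
    rw [pow_zero] at h
    nlinarith
  -- first term
  have a1 : X.rho * ((X.kd : ℝ) / X.dd) ≤ 8 * (X.N : ℝ) ^ 157 * X.pw (-3) := by
    calc X.rho * ((X.kd : ℝ) / X.dd) ≤ ((X.N : ℝ) ^ 51 * X.pw (-2)) * (8 * (X.N : ℝ) ^ 106 * X.pw (-1)) :=
          mul_le_mul hr h1 hk0 (by positivity)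
      _ = 8 * (X.N : ℝ) ^ 157 * (X.pw (-2) * X.pw (-1)) := by ring
      _ = 8 * (X.N : ℝ) ^ 157 * X.pw (-3) := by rw [e3]
  have a2 : X.rho * (1 / X.dd * (1 / X.dd)) ≤ 64 * (X.N : ℝ) ^ 159 * X.pw (-3) := by
    have h4 : 1 / X.dd * (1 / X.dd) ≤ (8 * (X.N : ℝ) ^ 54 * X.pw (-1)) * (8 * (X.N : ℝ) ^ 54 * X.pw (-1)) :=
      mul_le_mul h2 h2 (by positivity) (by positivity)
    calc X.rho * (1 / X.dd * (1 / X.dd)) ≤ ((X.N : ℝ) ^ 51 * X.pw (-2)) *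
          ((8 * (X.N : ℝ) ^ 54 * X.pw (-1)) * (8 * (X.N : ℝ) ^ 54 * X.pw (-1))) :=
          mul_le_mul hr h4 (by positivity) (by positivity)
      _ = 64 * (X.N : ℝ) ^ 159 * (X.pw (-2) * X.pw (-1)) * X.pw (-1) := by ring
      _ = 64 * (X.N : ℝ) ^ 159 * X.pw (-3) * X.pw (-1) := by rw [e3]
      _ ≤ 64 * (X.N : ℝ) ^ 159 * X.pw (-3) * 1 := by
          apply mul_le_mul_of_nonneg_left hq (by positivity)
      _ = 64 * (X.N : ℝ) ^ 159 * X.pw (-3) := by ring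
  have e4 : (2 : ℝ) * X.rho * (4 * X.kd / X.dd) = 8 * (X.rho * ((X.kd : ℝ) / X.dd)) := by ring
  have e5 : (2 : ℝ) * X.rho * (2 / X.dd ^ 2) = 4 * (X.rho * (1 / X.dd * (1 / X.dd))) := by
    field_simp; ring
  rw [e4, e5]
  have hN1 : (1 : ℝ) ≤ (X.N : ℝ) ^ 159 := one_le_pow₀ hN
  have hN2 : (X.N : ℝ) ^ 157 ≤ (X.N : ℝ) ^ 159 := pow_le_pow_right₀ hN (by norm_num)
  have hN3 : (X.N : ℝ) ^ 102 ≤ (X.N : ℝ) ^ 159 := pow_le_pow_right₀ hN (by norm_num)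
  have hN4 : (X.N : ℝ) ^ 159 * 64 ≤ (X.N : ℝ) ^ 180 := by
    have h64 : (64 : ℝ) ≤ X.N := le_trans (by norm_num) X.N_big
    calc (X.N : ℝ) ^ 159 * 64 ≤ (X.N : ℝ) ^ 159 * X.N := by
          apply mul_le_mul_of_nonneg_left h64 (by positivity)
      _ = (X.N : ℝ) ^ 160 := by ring
      _ ≤ (X.N : ℝ) ^ 180 := pow_le_pow_right₀ hN (by norm_num)
  have hp := X.pwN 180 (1 / 20) (by norm_num)
  have e6 : X.pw (1 / 20) * X.pw (-3) = X.pw (-(59 : ℝ) / 20) := by rw [X.pw_add]; norm_num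
  have f1 : (X.N : ℝ) ^ 157 * X.pw (-3) ≤ (X.N : ℝ) ^ 159 * X.pw (-3) := mul_le_mul_of_nonneg_right hN2 p3.le
  have f2 : (X.N : ℝ) ^ 102 * X.pw (-3) ≤ (X.N : ℝ) ^ 159 * X.pw (-3) := mul_le_mul_of_nonneg_right hN3 p3.le
  have f3 : 1 * X.pw (-3) ≤ (X.N : ℝ) ^ 159 * X.pw (-3) := mul_le_mul_of_nonneg_right hN1 p3.le
  have f4 : (X.N : ℝ) ^ 159 * 64 * X.pw (-3) ≤ (X.N : ℝ) ^ 180 * X.pw (-3) := mul_le_mul_of_nonneg_right hN4 p3.le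
  have f5 : (X.N : ℝ) ^ 180 * X.pw (-3) ≤ X.pw (1 / 20) * X.pw (-3) := mul_le_mul_of_nonneg_right hp p3.le
  rw [e6] at f5
  have f6 : 0 ≤ (X.N : ℝ) ^ 159 * X.pw (-3) := by positivity
  nlinarith

private theorem Anw_q (X : Cx V) : (1 + 4 * X.kd / X.dd) ^ X.n ≤ 2 := by
  have hN := Anw_N X
  have hd := Anw_dd X
  have h1 := Anw_kdd X
  have hk0 : (0 : ℝ) ≤ 4 * (X.kd : ℝ) / X.dd := by positivity
  have hn : (X.n : ℝ) = 9 * (X.N : ℝ) ^ 3 + 1 := by unfold Cx.n; push_cast; rfl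
  have p1 := X.pw_pos (-1)
  have h2 : (X.n : ℝ) * (4 * (X.kd : ℝ) / X.dd) ≤ 1 / 2 := by
    have hN3 : (1 : ℝ) ≤ (X.N : ℝ) ^ 3 := one_le_pow₀ hN
    have a1 : (X.n : ℝ) ≤ 10 * (X.N : ℝ) ^ 3 := by rw [hn]; linarith
    have a2 : 4 * (X.kd : ℝ) / X.dd ≤ 32 * (X.N : ℝ) ^ 106 * X.pw (-1) := by
      have e : 4 * (X.kd : ℝ) / X.dd = 4 * ((X.kd : ℝ) / X.dd) := by ring
      rw [e]; linarith
    have a3 : (X.n : ℝ) * (4 * (X.kd : ℝ) / X.dd) ≤ (10 * (X.N : ℝ) ^ 3) * (32 * (X.N : ℝ) ^ 106 * X.pw (-1)) :=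
      mul_le_mul a1 a2 hk0 (by positivity)
    have h640 : (640 : ℝ) ≤ X.N := le_trans (by norm_num) X.N_big
    have a4 : 640 * (X.N : ℝ) ^ 109 ≤ (X.N : ℝ) ^ 110 := by
      calc 640 * (X.N : ℝ) ^ 109 ≤ X.N * (X.N : ℝ) ^ 109 := mul_le_mul_of_nonneg_right h640 (by positivity)
        _ = (X.N : ℝ) ^ 110 := by ring
    have hp := X.pwN 110 1 (by norm_num)
    have h3 : X.pw 1 * X.pw (-1) = 1 := by
      rw [X.pw_add]; unfold Cx.pw; norm_num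
    have a5 : 640 * (X.N : ℝ) ^ 109 * X.pw (-1) ≤ X.pw 1 * X.pw (-1) :=
      mul_le_mul_of_nonneg_right (a4.trans hp) p1.le
    rw [h3] at a5
    nlinarith
  have h3 : (1 + 4 * (X.kd : ℝ) / X.dd) ^ X.n ≤ Real.exp ((X.n : ℝ) * (4 * (X.kd : ℝ) / X.dd)) := by
    rw [Real.exp_nat_mul]
    apply pow_le_pow_left₀ (by linarith)
    have := Real.add_one_le_exp (4 * (X.kd : ℝ) / X.dd)
    linarith
  have h4 : Real.exp ((X.n : ℝ) * (4 * (X.kd : ℝ) / X.dd)) ≤ Real.exp (1 / 2) := Real.exp_le_exp.2 h2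
  have h5 : Real.exp (1 / 2 : ℝ) ≤ 2 := by
    have h6 := Real.exp_one_lt_d9
    have h7 : Real.exp (1 / 2 : ℝ) * Real.exp (1 / 2 : ℝ) = Real.exp 1 := by
      rw [← Real.exp_add]; norm_num
    have h8 := Real.exp_pos (1 / 2 : ℝ)
    nlinarith
  exact h3.trans (h4.trans h5)

private theorem Anw_E (X : Cx V) : 2 * ((X.n : ℝ) * (X.pw (-(19 : ℝ) / 5) / 2 * (1 / 16))) ≤ X.pw (-(18 : ℝ) / 5) := by
  have hN := Anw_N X
  have hn : (X.n : ℝ) = 9 * (X.N : ℝ) ^ 3 + 1 := by unfold Cx.n; push_cast; rfl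
  have p1 := X.pw_pos (-(19 : ℝ) / 5)
  have hp := X.pwN 3 (1 / 5) (by norm_num)
  have e : X.pw (1 / 5) * X.pw (-(19 : ℝ) / 5) = X.pw (-(18 : ℝ) / 5) := by rw [X.pw_add]; norm_num
  have hN3 : (1 : ℝ) ≤ (X.N : ℝ) ^ 3 := one_le_pow₀ hN
  have a := mul_le_mul_of_nonneg_right hp p1.le
  rw [e] at a
  have b : 1 * X.pw (-(19 : ℝ) / 5) ≤ (X.N : ℝ) ^ 3 * X.pw (-(19 : ℝ) / 5) := mul_le_mul_of_nonneg_right hN3 p1.le
  rw [hn]
  nlinarith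

private theorem Anw_ind {δ : ZMod 2} {α : Fin X.s} (j : ℕ) : j < X.n → ∀ F : V → ℝ, X.EF Y.c Y.Rc α δ j F →
    Cx.pa F (Y.m j 1 δ α) ≤ (1 + 4 * X.kd / X.dd) ^ j * (Cx.pa (X.T0 α δ j F) (Y.m 0 1 δ α) +
      (j : ℝ) * (X.pw (-(19 : ℝ) / 5) / 2 * (1 / 16))) := by
  have hd := Anw_dd X
  have hk0 : (0 : ℝ) ≤ 4 * (X.kd : ℝ) / X.dd := by positivity
  have hE : 0 < X.pw (-(19 : ℝ) / 5) / 2 * (1 / 16) := by
    have := X.pw_pos (-(19 : ℝ) / 5); positivity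
  induction j with
  | zero =>
    intro _ F _
    rw [pow_zero, one_mul, Nat.cast_zero, zero_mul, add_zero]
    exact le_rfl
  | succ j ih =>
    intro hj F hF
    have hj' : j < X.n := by omega
    have hid := Y.id_st hj' 1 (by rintro ⟨h, _⟩; exact absurd h (by decide)) δ α F
    have hij : Y.ij (j + 1) 1 α = 0 := by
      unfold An.ij; rw [if_neg (by decide)]
    rw [hij, zero_mul, add_zero] at hid
    have hF0 := Cx.EF_nn hF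
    have hst := Y.st_up hj' 1 δ α (P := X.mv α F) (Cx.TF.em α δ (j + 1) F hF) (Anw_mvnn X α hF0)
      (B := 1 / 16) (fun δ α v => (Y.nu_0 hj' δ α v).1) (fun δ α v => (Y.nu_0 hj' δ α v).2.1)
    have hIH := ih hj' (X.T α δ j F) (Cx.EF.pl δ j F hF)
    have hT : X.A α δ j (X.mv α F) = X.T α δ j F := rfl
    have hT0 : X.T0 α δ (j + 1) F = X.T0 α δ j (X.T α δ j F) := rfl
    rw [hT] at hst
    rw [hid, hT0]
    set q : ℝ := 1 + 4 * X.kd / X.dd with hq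
    set E : ℝ := X.pw (-(19 : ℝ) / 5) / 2 * (1 / 16) with hEd
    have hq1 : 1 ≤ q := by rw [hq]; linarith
    have hqj : 1 ≤ q ^ (j + 1) := one_le_pow₀ hq1
    calc (∑ b, X.mv α F b * Y.ar j 1 δ α b) ≤ q * Cx.pa (X.T α δ j F) (Y.m j 1 δ α) + E := hst
      _ ≤ q * (q ^ j * (Cx.pa (X.T0 α δ j (X.T α δ j F)) (Y.m 0 1 δ α) + (j : ℝ) * E)) + E := by
          have := mul_le_mul_of_nonneg_left hIH (by linarith : (0 : ℝ) ≤ q)
          linarith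
      _ = q ^ (j + 1) * (Cx.pa (X.T0 α δ j (X.T α δ j F)) (Y.m 0 1 δ α) + (j : ℝ) * E) + 1 * E := by
          rw [pow_succ]; ring
      _ ≤ q ^ (j + 1) * (Cx.pa (X.T0 α δ j (X.T α δ j F)) (Y.m 0 1 δ α) + (j : ℝ) * E) + q ^ (j + 1) * E := by
          have := mul_le_mul_of_nonneg_right hqj hE.le
          linarith
      _ = q ^ (j + 1) * (Cx.pa (X.T0 α δ j (X.T α δ j F)) (Y.m 0 1 δ α) + ((j + 1 : ℕ) : ℝ) * E) := by
          push_cast; ring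

/-- error functions against the sources -/
theorem nu_w {j r : ℕ} (hj : j < X.n) {δ : ZMod 2} {α : Fin X.s} {P : V → ℝ} (h : X.RF α δ j r P)
    (hr : X.n3 ≤ r) : Cx.pa (X.T0 α δ j (X.gE Y.c Y.Rc α δ j P)) (Y.m 0 1 δ α) ≤
      X.pw (-(59 : ℝ) / 20) := by
  have hN := Anw_N X
  have hnn := Cx.RF_nn h
  have hn3 : 1 ≤ X.n3 := by
    unfold Cx.n3
    have : 1 ≤ X.N := by exact_mod_cast hN
    exact Nat.one_le_pow _ _ this
  obtain ⟨r', rfl⟩ : ∃ r', r = r' + 1 := ⟨r - 1, by omega⟩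
  have hr0 : 0 ≤ X.rho := by
    have := X.rho_bd.1
    have h : (0 : ℝ) ≤ (X.N : ℝ) ^ 49 * X.pw (-2) := by
      have := X.pw_pos (-2); positivity
    linarith
  have h1 := Anw_pa0 Y δ α (G := X.T0 α δ j (X.gE Y.c Y.Rc α δ j P))
    (fun x => Cx.T0_nn (fun y => Cx.gE_nn hnn y) x)
  have h2 := Cx.gE_T0' (c := Y.c) (Rc := Y.Rc) (α := α) (δ := δ) (j := j) hnn
    (fun x => Rs X.G X.p Y.c X.D X.M Y.Rc Y.al α x)
  have h3 := Y.s2.u2 α δ j (r' + 1) P h hr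
  have h4 := Y.s2.e α δ j (r' + 1) P h hr
  have h5 := Y.s2.u3 α δ j (r' + 1) P h hr
  have gBnn : ∀ x, 0 ≤ X.gB (X.disW Y.c α) α δ j P x := by
    intro x
    have hd := Anw_dd X
    have hA := Cx.A_nn (X := X) (α := α) (δ := δ) (j := j) hnn x
    have hs : 0 ≤ ∑ b ∈ (X.R α δ j x).filter (fun b => b ∈ X.disW Y.c α), P b := sum_nonneg fun b _ => hnn b
    unfold Cx.gB
    positivity
  have gDnn : ∀ x, 0 ≤ X.gD α δ j P x := by
    intro x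
    have hd := Anw_dd X
    have hA := Cx.A_nn (X := X) (α := α) (δ := δ) (j := j) hnn x
    unfold Cx.gD
    split_ifs
    · positivity
    · exact le_rfl
  have h6 := (Anw_mv X α (fun x => Cx.T0_nn (X := X) (α := α) (δ := δ) (j := j) gBnn x)).trans
    (Cx.gW_l1 h Y.kd)
  have h7 := (Anw_mv X α (fun x => Cx.T0_nn (X := X) (α := α) (δ := δ) (j := j) gDnn x)).trans
    (Cx.gD_l1 h)
  have h8 := mul_le_mul_of_nonneg_left h6 (by linarith : (0 : ℝ) ≤ 2 * X.rho)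
  have h9 := mul_le_mul_of_nonneg_left h7 (by linarith : (0 : ℝ) ≤ 2 * X.rho)
  have h10 := Anw_num X
  refine h1.trans (le_trans ?_ h10)
  apply mul_le_mul_of_nonneg_left _ (by norm_num)
  linarith

theorem nu_up {j : ℕ} (hj : j < X.n) {δ : ZMod 2} {α : Fin X.s} {F : V → ℝ}
    (h : X.EF Y.c Y.Rc α δ j F) : Cx.pa F (Y.m j 1 δ α) ≤
      2 * Cx.pa (X.T0 α δ j F) (Y.m 0 1 δ α) + X.pw (-(18 : ℝ) / 5) := by
  have h1 := Anw_ind Y (δ := δ) (α := α) j hj F h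
  have hd := Anw_dd X
  have hk0 : (0 : ℝ) ≤ 4 * (X.kd : ℝ) / X.dd := by positivity
  have hE : 0 < X.pw (-(19 : ℝ) / 5) / 2 * (1 / 16) := by
    have := X.pw_pos (-(19 : ℝ) / 5); positivity
  have hq2 : (1 + 4 * X.kd / X.dd) ^ j ≤ 2 :=
    (pow_le_pow_right₀ (by linarith) hj.le).trans (Anw_q X)
  have h0 : 0 < X.n := by omega
  have hpa : 0 ≤ Cx.pa (X.T0 α δ j F) (Y.m 0 1 δ α) := by
    unfold Cx.pa
    exact sum_nonneg fun v _ => mul_nonneg (Cx.T0_nn (Cx.EF_nn h) v) (Y.nu_0 h0 δ α v).1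
  have hjn : (j : ℝ) * (X.pw (-(19 : ℝ) / 5) / 2 * (1 / 16)) ≤
      (X.n : ℝ) * (X.pw (-(19 : ℝ) / 5) / 2 * (1 / 16)) := by
    apply mul_le_mul_of_nonneg_right _ hE.le
    exact_mod_cast hj.le
  have hj0 : 0 ≤ (j : ℝ) * (X.pw (-(19 : ℝ) / 5) / 2 * (1 / 16)) := by positivity
  have h2 := Anw_E X
  have h3 := mul_le_mul_of_nonneg_right hq2 (add_nonneg hpa hj0)
  linarith

end An

end Pool.Agent.H2.LN
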