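/-
ROW And. The field of Res in all layers.
PROOF. Claim by induction on `j`: `|pa (A δ j P) (m j 1) - pa (A δ 0 P0) (m 0 1)| ≤ j E`, where `T0 j (A δ j P) = A δ 0 P0`, `RF δ 0 (r + j) P0` (`T0_RF`), `E = 4 pw (-59/20)`: `F = A δ (j+1) P`, `P' = mv F` (`RF.st`), `id_st` (`τ = 1`), `ij = 0`, `st_le` (`TF.rc`, `B = 1/16`), `gE P'` is `EF.bs`: `nu_up`, `nu_w`: `pa (gE P') (m j) ≤ 2 pw (-59/20) + pw (-18/5)`. Then `nu_c0`: between `rho / 33 - pw (-3) - n E` and `rho / 8 + pw (-3) + n E`; `n E + pw (-3) ≤ N^5 pw (-59/20) ≤ rho / 10^6` (`rho ≥ N^49 pw (-2)`).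
-/
import Pool.Agent.H2.LN.LD
import Pool.Agent.H2.LN.L.Anw
import Pool.Agent.H2.LN.L.Anc
import Pool.Agent.H2.LN.L.Aid
import Pool.Agent.H2.LN.L.Ast
import Pool.Agent.H2.LN.L.An0
import Pool.Agent.H2.LN.L.Lt0
import Pool.Agent.H2.LN.L.Lrf
import Pool.Agent.H2.LN.L.Lnm
import Pool.Agent.H2.LN.L.Lop

set_option autoImplicit false
set_option linter.unusedSectionVars false

namespace Pool.Agent.H2.LN

open Finset Classical
open Pool.Agent.H65.GI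

namespace An

variable {V : Type} [Fintype V] {X : Cx V} (Y : An X)

theorem And_pw_mono {a b : ℝ} (h : a ≤ b) : X.pw a ≤ X.pw b := by
  have h1 : X.pw b = X.pw a * X.pw (b - a) := by
    rw [X.pw_add]
    congr 1
    ring
  have h2 : (X.N : ℝ) ^ 0 ≤ X.pw (b - a) := X.pwN 0 (b - a) (by
    push_cast
    linarith)
  rw [pow_zero] at h2
  rw [h1]
  exact le_mul_of_one_le_right (X.pw_pos a).le h2

theorem And_ind (j : ℕ) : j < X.n → ∀ (r : ℕ) (δ : ZMod 2) (α : Fin X.s) (P : V → ℝ), X.RF α δ j r P →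
    X.n3 ≤ r + 1 → |Cx.pa (X.A α δ j P) (Y.m j 1 δ α) - Cx.pa (X.T0 α δ j (X.A α δ j P)) (Y.m 0 1 δ α)| ≤
      j * (4 * X.pw (-(59 : ℝ) / 20)) := by
  induction j with
  | zero =>
    intro _ r δ α P _ _
    have h0 : X.T0 α δ 0 (X.A α δ 0 P) = X.A α δ 0 P := rfl
    rw [h0, sub_self, abs_zero]
    simp
  | succ j ih =>
    intro hj r δ α P h hr
    have hj' : j < X.n := Nat.lt_of_succ_lt hj
    have hst : X.RF α δ j (r + 1) (X.mv α (X.A α δ (j + 1) P)) := Cx.RF.st δ j r P h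
    have hI := ih hj' (r + 1) δ α _ hst (by omega)
    have hid := Y.id_st hj' 1 (by
      rintro ⟨h1, _⟩
      exact absurd h1 (by decide)) δ α (X.A α δ (j + 1) P)
    have hij : Y.ij (j + 1) 1 α = 0 := by
      unfold ij
      rw [if_neg (by decide)]
    rw [hij, zero_mul, add_zero] at hid
    have hnn : ∀ x, 0 ≤ X.mv α (X.A α δ (j + 1) P) x := fun x => Cx.RF_nn hst x
    have hS := Y.st_le hj' 1 δ α (Cx.TF.rc α δ j (r + 1) _ hr hst) hnn (B := 1 / 16)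
      (fun δ α v => (Y.nu_0 hj' δ α v).1) (fun δ α v => (Y.nu_0 hj' δ α v).2.1)
    have hE : X.EF Y.c Y.Rc α δ j (X.gE Y.c Y.Rc α δ j (X.mv α (X.A α δ (j + 1) P))) :=
      Cx.EF.bs δ j (r + 1) _ hr hst
    have hU := Y.nu_up hj' hE
    have hW := Y.nu_w hj' hst hr
    have e0 : X.T0 α δ (j + 1) (X.A α δ (j + 1) P) =
        X.T0 α δ j (X.A α δ j (X.mv α (X.A α δ (j + 1) P))) := rfl
    have p1 : X.pw (-(18 : ℝ) / 5) ≤ X.pw (-(59 : ℝ) / 20) := And_pw_mono (by norm_num)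
    have p2 : X.pw (-(19 : ℝ) / 5) ≤ X.pw (-(59 : ℝ) / 20) := And_pw_mono (by norm_num)
    have p3 := X.pw_pos (-(19 : ℝ) / 5)
    have p4 := X.pw_pos (-(59 : ℝ) / 20)
    rw [e0, hid]
    push_cast
    rw [abs_le] at hI hS ⊢
    constructor
    · nlinarith [hI.1, hS.1]
    · nlinarith [hI.2, hS.2]

theorem nu_c {j r : ℕ} (hj : j < X.n) {δ : ZMod 2} {α : Fin X.s} {P : V → ℝ} (h : X.RF α δ j r P)
    (hr : X.n3 ≤ r + 1) : X.rho / 34 ≤ Cx.pa (X.A α δ j P) (Y.m j 1 δ α) ∧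
      Cx.pa (X.A α δ j P) (Y.m j 1 δ α) ≤ X.rho / 7 := by
  have hI := Y.And_ind j hj r δ α P h hr
  obtain ⟨P0, h0, e0⟩ := Cx.T0_RF h
  have hc := Y.nu_c0 h0 (by omega)
  rw [e0] at hI
  have hN := X.N_big
  have hN1 : (1 : ℝ) ≤ X.N := le_trans (by norm_num) hN
  have hρ := X.rho_bd.1
  have p1 : X.pw (-(59 : ℝ) / 20) ≤ X.pw (-2) := And_pw_mono (by norm_num)
  have p2 : X.pw (-3) ≤ X.pw (-2) := And_pw_mono (by norm_num)
  have p3 := X.pw_pos (-(59 : ℝ) / 20)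
  have p4 := X.pw_pos (-2)
  have hn : (j : ℝ) ≤ 9 * (X.N : ℝ) ^ 3 + 1 := by
    have h1 : j ≤ 9 * X.N ^ 3 + 1 := by
      have : X.n = 9 * X.N ^ 3 + 1 := rfl
      omega
    exact_mod_cast h1
  have hN3 : (1 : ℝ) ≤ (X.N : ℝ) ^ 3 := one_le_pow₀ hN1
  have hj0 : (0 : ℝ) ≤ j := Nat.cast_nonneg j
  have hE : (j : ℝ) * (4 * X.pw (-(59 : ℝ) / 20)) + X.pw (-3) ≤ 41 * (X.N : ℝ) ^ 3 * X.pw (-2) := by
    have h1 : (j : ℝ) * (4 * X.pw (-(59 : ℝ) / 20)) ≤ 10 * (X.N : ℝ) ^ 3 * (4 * X.pw (-2)) := by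
      apply mul_le_mul _ _ (by positivity) (by positivity)
      · linarith
      · linarith
    nlinarith
  have hN46 : (46002 : ℝ) ≤ (X.N : ℝ) ^ 46 := by
    calc (46002 : ℝ) ≤ (2 : ℝ) ^ 40 := by norm_num
      _ ≤ X.N := hN
      _ = (X.N : ℝ) ^ 1 := (pow_one _).symm
      _ ≤ (X.N : ℝ) ^ 46 := pow_le_pow_right₀ hN1 (by norm_num)
  have hR : 46002 * ((X.N : ℝ) ^ 3 * X.pw (-2)) ≤ X.rho := by
    calc 46002 * ((X.N : ℝ) ^ 3 * X.pw (-2)) ≤ (X.N : ℝ) ^ 46 * ((X.N : ℝ) ^ 3 * X.pw (-2)) :=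
          mul_le_mul_of_nonneg_right hN46 (by positivity)
      _ = (X.N : ℝ) ^ 49 * X.pw (-2) := by ring
      _ ≤ X.rho := hρ
  rw [abs_le] at hI
  have hpos : 0 ≤ (X.N : ℝ) ^ 3 * X.pw (-2) := by positivity
  constructor
  · linarith [hI.1, hc.1]
  · linarith [hI.2, hc.2]

end An

end Pool.Agent.H2.LN
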