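/-
ROW Ans. The field of Res: sup bounds.
PROOF. Induction on `i`. `i = 0`: `nu_0`. Step: `j ≥ (i+1) n3 + 1`, `j = j1 + 1`, `j' := j1 + 1 - N^3 ≥ i n3 + 1`, `r = N^3 - 1`, `j' + r = j1`. `m j v` is `0` or `ar j1 (M v)` with `v ∈ S j` (`sd`, `ac`), `M v ≠ v`: `ar_y`: `≤ y j1 (M v) + pw (-97/500) B`, `B := max (rho / (6 th)) (pw (-39/100 - 9 i / 50))` (bound for the layers `≥ j'` by IH), `y_pt` (`τ = 1`, `I = 0`): `y ≤ pa (A δ j' P) (m j') / th + N^3 pw (-19/100) B ≤ rho / (7 th) + N^3 pw (-19/100) B` (`nu_c`).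
So `m ≤ rho / (7 th) + x`, `x = 2 N^3 pw (-19/100) B`. If `B = rho / (6 th)`: `x ≤ rho / (42 th)`: `≤ rho / (6 th)`. If `B = pw (-39/100 - 9 i / 50)`: either `x ≤ rho / (42 th)`, or `rho / (7 th) < 6 x` and the sum is `≤ 7 x ≤ 14 N^3 pw (-1/100) pw (-39/100 - 9 (i+1) / 50) ≤ pw (-39/100 - 9 (i+1) / 50)` (`pwN`).
-/
import Pool.Agent.H2.LN.LD
import Pool.Agent.H2.LN.L.And
import Pool.Agent.H2.LN.L.Ayp
import Pool.Agent.H2.LN.L.An0

set_option autoImplicit false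
set_option linter.unusedSectionVars false

namespace Pool.Agent.H2.LN

open Finset Classical
open Pool.Agent.H65.GI

namespace An

variable {V : Type} [Fintype V] {X : Cx V} (Y : An X)

omit Y in
private theorem Ans_K : 7 * ((X.n3 : ℝ) * X.pw (-(19 : ℝ) / 100)) ≤ X.pw (-(9 : ℝ) / 50) := by
  have h1 := X.pwN 4 (1 / 100) (by norm_num)
  have h2 := X.N_big
  have h3 : (7 : ℝ) ≤ X.N := le_trans (by norm_num) h2
  have h4 : (0 : ℝ) ≤ (X.N : ℝ) ^ 3 := by positivity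
  have h5 : 7 * ((X.n3 : ℝ)) ≤ X.pw (1 / 100) := by
    unfold Cx.n3
    push_cast
    calc 7 * (X.N : ℝ) ^ 3 ≤ X.N * (X.N : ℝ) ^ 3 := mul_le_mul_of_nonneg_right h3 h4
      _ = (X.N : ℝ) ^ 4 := by ring
      _ ≤ _ := h1
  have h6 := X.pw_pos (-(19 : ℝ) / 100)
  calc 7 * ((X.n3 : ℝ) * X.pw (-(19 : ℝ) / 100)) = 7 * (X.n3 : ℝ) * X.pw (-(19 : ℝ) / 100) := by ring
    _ ≤ X.pw (1 / 100) * X.pw (-(19 : ℝ) / 100) := mul_le_mul_of_nonneg_right h5 h6.le
    _ = X.pw (-(9 : ℝ) / 50) := by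
      rw [X.pw_add]
      congr 1
      norm_num

omit Y in
private theorem Ans_le {x y : ℝ} (h : x ≤ y) : X.pw x ≤ X.pw y := by
  have h1 := X.pwN 0 (y - x) (by push_cast; linarith)
  rw [pow_zero] at h1
  calc X.pw x ≤ X.pw x * X.pw (y - x) := le_mul_of_one_le_right (X.pw_pos x).le h1
    _ = X.pw y := by
      rw [X.pw_add]
      congr 1
      ring

omit Y in
private theorem Ans_le_one {x : ℝ} (h : x ≤ 0) : X.pw x ≤ 1 := by
  have h1 := X.pwN 0 (-x) (by push_cast; linarith)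
  rw [pow_zero] at h1
  have h2 : X.pw x * X.pw (-x) = 1 := by
    rw [X.pw_add, add_neg_cancel]
    exact Real.rpow_zero _
  calc X.pw x ≤ X.pw x * X.pw (-x) := le_mul_of_one_le_right (X.pw_pos x).le h1
    _ = 1 := h2

private theorem Ans_m (j : ℕ) (δ : ZMod 2) (α : Fin X.s) (v : V) (h : 0 < Y.m (j + 1) 1 δ α v) :
    v ∈ Y.S (j + 1) δ α ∧ X.M α v ≠ v ∧ Y.m (j + 1) 1 δ α v = Y.ar j 1 δ α (X.M α v) := by
  have e : Y.m (j + 1) 1 δ α v = if v ∈ Y.S (j + 1) δ α then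
      (if X.M α v = v then (0 : ℝ) else Y.ar j 1 δ α (X.M α v)) else 0 := rfl
  by_cases h1 : v ∈ Y.S (j + 1) δ α
  · by_cases h2 : X.M α v = v
    · rw [e, if_pos h1, if_pos h2] at h
      exact absurd h (lt_irrefl _)
    · refine ⟨h1, h2, ?_⟩
      rw [e, if_pos h1, if_neg h2]
  · rw [e, if_neg h1] at h
    exact absurd h (lt_irrefl _)

/-- the bounds improve from block to block -/
theorem nu_s {i j : ℕ} (hi : i ≤ 7) (h1 : i * X.n3 + 1 ≤ j) (hj : j < X.n) (δ : ZMod 2) (α : Fin X.s)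
    (v : V) : Y.m j 1 δ α v ≤ max (X.rho / (6 * X.th)) (X.pw (-(39 : ℝ) / 100 - 9 * i / 50)) := by
  induction i generalizing j δ α v with
  | zero =>
    refine le_trans ((Y.nu_0 hj δ α v).2.2 (by omega)) (le_trans (le_of_eq ?_) (le_max_right _ _))
    congr 1
    push_cast
    ring
  | succ i ih =>
    have hth : 0 < X.th := lt_of_lt_of_le (X.pw_pos _) X.th_bd.1
    have hrho : 0 < X.rho := by
      refine lt_of_lt_of_le ?_ X.rho_bd.1
      have h2 := X.N_big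
      have h3 : (0 : ℝ) < X.N := lt_of_lt_of_le (by norm_num) h2
      exact mul_pos (pow_pos h3 _) (X.pw_pos _)
    have hn3 : 1 ≤ X.n3 := by
      unfold Cx.n3
      have h2 := X.N_big
      have h3 : (0 : ℝ) < X.N := lt_of_lt_of_le (by norm_num) h2
      have h4 : 0 < X.N := by exact_mod_cast h3
      exact Nat.one_le_pow _ _ h4
    by_cases hm : 0 < Y.m j 1 δ α v
    swap
    · exact le_trans (not_lt.1 hm) (le_trans (X.pw_pos _).le (le_max_right _ _))
    obtain ⟨j1, rfl⟩ : ∃ j1, j = j1 + 1 := ⟨j - 1, by omega⟩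
    obtain ⟨hS, hM, he⟩ := Ans_m Y j1 δ α v hm
    have hexp : (i + 1) * X.n3 = i * X.n3 + X.n3 := by ring
    rw [hexp] at h1
    obtain ⟨hsd, hac⟩ := (Y.S_succ j1 δ α v).1 hS
    have hac' : Y.ac j1 α (X.M α v) := Y.ac_M hac
    have hsd' : X.sd α (X.M α v) = δ + 1 := by rw [X.M_sd hM, hsd]
    have hMM : X.M α (X.M α v) ≠ X.M α v := by
      rw [X.M_M]
      exact fun h => hM h.symm
    set B : ℝ := max (X.rho / (6 * X.th)) (X.pw (-(39 : ℝ) / 100 - 9 * i / 50)) with hB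
    have hB0 : 0 < B := lt_of_lt_of_le (X.pw_pos _) (le_max_right _ _)
    have hb : ∀ l, i * X.n3 + 1 ≤ l → l < X.n → ∀ δ α a, |Y.m l 1 δ α a| ≤ B := by
      intro l hl hl2 δ α a
      rw [abs_of_nonneg (Y.nu_0 hl2 δ α a).1]
      exact ih (by omega) hl hl2 δ α a
    have hj1 : j1 < X.n := by omega
    have e1 := Y.ar_y hj1 1 (hb j1 (by omega) hj1) δ α (X.M α v) hac' hsd'
    have hjr : (j1 + 1 - X.n3) + (X.n3 - 1) = j1 := by omega
    obtain ⟨P, hP, e2⟩ := Y.y_pt (j := j1 + 1 - X.n3) (r := X.n3 - 1) (by omega) 1 (B := B) (I := 0)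
      (fun l _ _ h => absurd h.1 (by decide)) (fun l h2 h3 => hb l (by omega) (by omega))
      (fun l _ _ α => by
        have : Y.ij (l + 1) 1 α = 0 := if_neg (by decide)
        rw [this, abs_zero]) δ α (X.M α v) hMM hsd'
    have e3 := (Y.nu_c (j := j1 + 1 - X.n3) (by omega) hP (by omega)).2
    rw [hjr, zero_div, add_zero] at e2
    have e4 : X.pw (-(97 : ℝ) / 500) ≤ X.pw (-(19 : ℝ) / 100) := Ans_le (by norm_num)
    have e5 : Cx.pa (X.A α δ (j1 + 1 - X.n3) P) (Y.m (j1 + 1 - X.n3) 1 δ α) / X.th ≤ X.rho / 7 / X.th :=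
      div_le_div_of_nonneg_right e3 hth.le
    have e6 : ((X.n3 - 1 : ℕ) : ℝ) + 1 = X.n3 := by
      exact_mod_cast (by omega : X.n3 - 1 + 1 = X.n3)
    have e7 := (abs_le.1 e1).2
    have e8 := (abs_le.1 e2).2
    set K : ℝ := (X.n3 : ℝ) * X.pw (-(19 : ℝ) / 100) with hK
    have hK0 : 0 < K := by
      rw [hK]
      have : (0 : ℝ) < X.n3 := by exact_mod_cast hn3
      exact mul_pos this (X.pw_pos _)
    have e9 : Y.m (j1 + 1) 1 δ α v ≤ X.rho / 7 / X.th + K * B := by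
      have e10 : X.pw (-(97 : ℝ) / 500) * B ≤ X.pw (-(19 : ℝ) / 100) * B := mul_le_mul_of_nonneg_right e4 hB0.le
      have e11 : K * B = ((X.n3 - 1 : ℕ) : ℝ) * (X.pw (-(19 : ℝ) / 100) * B) + X.pw (-(19 : ℝ) / 100) * B := by
        rw [hK, ← e6]
        ring
      rw [he, e11]
      linarith
    have hR : X.rho / 7 / X.th = 6 / 7 * (X.rho / (6 * X.th)) := by
      field_simp
    have hKK : 7 * K ≤ X.pw (-(9 : ℝ) / 50) := Ans_K
    have hK1 : 7 * K ≤ 1 := hKK.trans (Ans_le_one (by norm_num))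
    have hR0 : 0 < X.rho / (6 * X.th) := by positivity
    by_cases hc : K * B ≤ 1 / 7 * (X.rho / (6 * X.th))
    · refine le_trans ?_ (le_max_left _ _)
      rw [hR] at e9
      linarith
    · push Not at hc
      have hB2 : B = X.pw (-(39 : ℝ) / 100 - 9 * i / 50) := by
        rcases max_choice (X.rho / (6 * X.th)) (X.pw (-(39 : ℝ) / 100 - 9 * i / 50)) with h | h
        · exfalso
          rw [hB, h] at hc
          nlinarith
        · rw [hB, h]
      refine le_trans ?_ (le_max_right _ _)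
      have e12 : X.pw (-(39 : ℝ) / 100 - 9 * ((i + 1 : ℕ) : ℝ) / 50) = X.pw (-(9 : ℝ) / 50) * B := by
        rw [hB2, X.pw_add]
        congr 1
        push_cast
        ring
      rw [e12]
      have e13 : 7 * K * B ≤ X.pw (-(9 : ℝ) / 50) * B := mul_le_mul_of_nonneg_right hKK hB0.le
      rw [hR] at e9
      linarith

end An

end Pool.Agent.H2.LN
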