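/-
ROW Anf. The field of Res in the last step.
PROOF. `j1 = n - 1`, `j' = n - N^3 = 8 N^3 + 1`, `r = N^3 - 1`. `B := rho / (6 th)`: `nu_s` with `i = 7` for layers `≥ 7 n3 + 1`: `max (rho / (6 th)) (pw (-33/20)) = rho / (6 th)` because `rho / (6 th) ≥ N^49 pw (-2) pw (3/5) / 7 ≥ pw (-33/20)`. `ar_y`, `y_pt`, `nu_c`: `ar = pa / th ± (N^3 pw (-19/100) + pw (-97/500)) B`, `pa / th ∈ [rho / (34 th), rho / (7 th)]`; the error is `≤ rho / (10^6 th)`.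
-/
import Pool.Agent.H2.LN.LD
import Pool.Agent.H2.LN.L.Ans
import Pool.Agent.H2.LN.L.Aay
import Pool.Agent.H2.LN.L.And
import Pool.Agent.H2.LN.L.Ayp
import Pool.Agent.H2.LN.L.An0
import Pool.Agent.H2.LN.L.Lnm

set_option autoImplicit false
set_option linter.unusedSectionVars false

namespace Pool.Agent.H2.LN

open Finset Classical
open Pool.Agent.H65.GI

namespace An

variable {V : Type} [Fintype V] {X : Cx V} (Y : An X)

/-- small negative powers -/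
theorem Anf_sm (X : Cx V) (k : ℕ) (x : ℝ) (h : ((k + 1 : ℕ) : ℝ) ≤ 40000 * x) :
    (X.N : ℝ) ^ k * X.pw (-x) ≤ 1 / 1000000 := by
  have h1 := X.pwN (k + 1) x h
  have h2 : X.pw x * X.pw (-x) = 1 := by
    rw [X.pw_add]
    simp [Cx.pw]
  have h3 : 0 < X.pw (-x) := X.pw_pos _
  have h4 : (X.N : ℝ) ^ (k + 1) * X.pw (-x) ≤ 1 := by
    calc (X.N : ℝ) ^ (k + 1) * X.pw (-x) ≤ X.pw x * X.pw (-x) :=
          mul_le_mul_of_nonneg_right h1 h3.le
      _ = 1 := h2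
  have h5 : (1000000 : ℝ) ≤ X.N := le_trans (by norm_num) X.N_big
  have h6 : 0 ≤ (X.N : ℝ) ^ k * X.pw (-x) := by positivity
  have h7 : (X.N : ℝ) ^ (k + 1) * X.pw (-x) = X.N * ((X.N : ℝ) ^ k * X.pw (-x)) := by ring
  rw [h7] at h4
  have h8 : 1000000 * ((X.N : ℝ) ^ k * X.pw (-x)) ≤ 1 :=
    le_trans (mul_le_mul_of_nonneg_right h5 h6) h4
  linarith

theorem Anf_B (X : Cx V) : X.pw (-(39 : ℝ) / 100 - 9 * (7 : ℕ) / 50) ≤ X.rho / (6 * X.th) := by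
  have hth := X.th_bd
  have hth0 : 0 < X.th := lt_of_lt_of_le (X.pw_pos _) hth.1
  rw [le_div_iff₀ (by positivity)]
  have e1 : (-(39 : ℝ) / 100 - 9 * (7 : ℕ) / 50) = -(33 : ℝ) / 20 := by norm_num
  rw [e1]
  have h1 : X.pw (-(33 : ℝ) / 20) * X.pw (-(3 : ℝ) / 5) = X.pw (-2) * X.pw (-(1 / 4)) := by
    rw [X.pw_add, X.pw_add]
    norm_num
  have h2 : X.pw (-(1 / 4)) ≤ 1 / 1000000 := by
    have := Anf_sm X 0 (1 / 4) (by norm_num)
    simpa using this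
  have h3 : 0 < X.pw (-2) := X.pw_pos _
  have h4 : 0 < X.pw (-(33 : ℝ) / 20) := X.pw_pos _
  have h5 : X.N ^ 49 * X.pw (-2) ≤ X.rho := X.rho_bd.1
  have h6 : (1 : ℝ) ≤ X.N ^ 49 := one_le_pow₀ (le_trans (by norm_num) X.N_big)
  have h7 : X.pw (-2) ≤ X.rho := by
    refine le_trans ?_ h5
    have := mul_le_mul_of_nonneg_right h6 h3.le
    linarith
  calc X.pw (-(33 : ℝ) / 20) * (6 * X.th) ≤ X.pw (-(33 : ℝ) / 20) * (7 * X.pw (-(3 : ℝ) / 5)) := by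
        refine mul_le_mul_of_nonneg_left ?_ h4.le
        have h0 : 0 < X.pw (-(3 : ℝ) / 5) := X.pw_pos _
        linarith [hth.2.1]
    _ = 7 * X.pw (-2) * X.pw (-(1 / 4)) := by
        rw [show X.pw (-(33 : ℝ) / 20) * (7 * X.pw (-(3 : ℝ) / 5)) =
          7 * (X.pw (-(33 : ℝ) / 20) * X.pw (-(3 : ℝ) / 5)) by ring, h1]
        ring
    _ ≤ 7 * X.pw (-2) * (1 / 1000000) := mul_le_mul_of_nonneg_left h2 (by positivity)
    _ ≤ X.rho := by linarith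

theorem nu_f (δ : ZMod 2) (α : Fin X.s) (b : V) (h1 : X.sd α b = δ + 1)
    (h2 : Y.ac (X.n - 1) α b) (h3 : X.M α b ≠ b) :
    X.rho / (36 * X.th) ≤ Y.ar (X.n - 1) 1 δ α b ∧ Y.ar (X.n - 1) 1 δ α b ≤ X.rho / (6 * X.th) := by
  have hth := X.th_bd
  have hth0 : 0 < X.th := lt_of_lt_of_le (X.pw_pos _) hth.1
  have hN : (2 : ℝ) ^ 40 ≤ X.N := X.N_big
  have hN1 : 1 ≤ X.N := by
    have : (1 : ℝ) ≤ X.N := le_trans (by norm_num) hN
    exact_mod_cast this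
  have hN3 : 1 ≤ X.N ^ 3 := Nat.one_le_pow _ _ hN1
  have hn : X.n = 9 * X.N ^ 3 + 1 := rfl
  have hn3 : X.n3 = X.N ^ 3 := rfl
  have hrho : 0 < X.rho := lt_of_lt_of_le (by have := X.pw_pos (-2); positivity) X.rho_bd.1
  -- the bound
  have hB : ∀ i, 7 * X.n3 + 1 ≤ i → i < X.n → ∀ δ α a, |Y.m i 1 δ α a| ≤ X.rho / (6 * X.th) := by
    intro i hi hi' δ α a
    rw [abs_of_nonneg (Y.nu_0 hi' δ α a).1]
    have := Y.nu_s (i := 7) (le_refl 7) hi hi' δ α a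
    exact le_trans this (max_le le_rfl (Anf_B X))
  set B := X.rho / (6 * X.th) with hBdef
  have hB0 : 0 < B := by positivity
  have e1 : 8 * X.N ^ 3 + 1 + (X.N ^ 3 - 1) = X.n - 1 := by omega
  obtain ⟨P, hP, hy⟩ := Y.y_pt (j := 8 * X.N ^ 3 + 1) (r := X.N ^ 3 - 1) (by omega) 1 (B := B) (I := 0)
    (by intro i _ _ h; exact absurd h.1 (by decide))
    (by
      intro i hi1 hi2 δ α a
      exact hB i (by omega) (by omega) δ α a)
    (by
      intro i _ _ α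
      simp [An.ij])
    δ α b h3 h1
  rw [e1] at hy
  have hnu := Y.nu_c (j := 8 * X.N ^ 3 + 1) (by omega) hP (by omega)
  have har := Y.ar_y (j := X.n - 1) (by omega) 1 (B := B)
    (fun δ α a => hB (X.n - 1) (by omega) (by omega) δ α a) δ α b h2 h1
  -- errors
  have s1 : (X.N : ℝ) ^ 3 * X.pw (-(19 / 100)) ≤ 1 / 1000000 := Anf_sm X 3 (19 / 100) (by norm_num)
  have s2 : X.pw (-(97 / 500)) ≤ 1 / 1000000 := by
    have := Anf_sm X 0 (97 / 500) (by norm_num)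
    simpa using this
  have e2 : (-(19 : ℝ) / 100) = -(19 / 100) := by norm_num
  have e3 : (-(97 : ℝ) / 500) = -(97 / 500) := by norm_num
  rw [e2] at hy
  rw [e3] at har
  have p19 : 0 < X.pw (-(19 / 100)) := X.pw_pos _
  have hr : ((X.N ^ 3 - 1 : ℕ) : ℝ) ≤ (X.N : ℝ) ^ 3 := by
    have : (X.N ^ 3 - 1 : ℕ) ≤ X.N ^ 3 := Nat.sub_le _ _
    exact_mod_cast this
  have hy' : |Y.y (X.n - 1) 1 δ α b - Cx.pa (X.A α δ (8 * X.N ^ 3 + 1) P)
      (Y.m (8 * X.N ^ 3 + 1) 1 δ α) / X.th| ≤ 1 / 1000000 * B := by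
    refine le_trans hy ?_
    rw [zero_div, add_zero, ← mul_assoc]
    refine mul_le_mul_of_nonneg_right ?_ hB0.le
    refine le_trans (mul_le_mul_of_nonneg_right hr p19.le) s1
  have har' : |Y.ar (X.n - 1) 1 δ α b - Y.y (X.n - 1) 1 δ α b| ≤ 1 / 1000000 * B :=
    le_trans har (mul_le_mul_of_nonneg_right s2 hB0.le)
  have a1 := abs_le.mp hy'
  have a2 := abs_le.mp har'
  have q1 : X.rho / 34 / X.th ≤ Cx.pa (X.A α δ (8 * X.N ^ 3 + 1) P) (Y.m (8 * X.N ^ 3 + 1) 1 δ α) / X.th :=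
    div_le_div_of_nonneg_right hnu.1 hth0.le
  have q2 : Cx.pa (X.A α δ (8 * X.N ^ 3 + 1) P) (Y.m (8 * X.N ^ 3 + 1) 1 δ α) / X.th ≤ X.rho / 7 / X.th :=
    div_le_div_of_nonneg_right hnu.2 hth0.le
  have w0 : 0 < X.rho / X.th := by positivity
  have w1 : X.rho / 34 / X.th = X.rho / X.th / 34 := by ring
  have w2 : X.rho / 7 / X.th = X.rho / X.th / 7 := by ring
  have w3 : B = X.rho / X.th / 6 := by
    rw [hBdef]
    field_simp
  have w4 : X.rho / (36 * X.th) = X.rho / X.th / 36 := by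
    field_simp
  rw [w1] at q1
  rw [w2] at q2
  rw [w3] at a1 a2 ⊢
  rw [w4]
  constructor
  · linarith [a1.1, a2.1]
  · linarith [a1.2, a2.2]

end An

end Pool.Agent.H2.LN
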