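/-
ROW Aw0. Error functions against the initial masses.
PROOF. `G := T0 (gE P) ≥ 0`. `m 0 0 δ α v ≤ [M v ≠ v, W (M v)] + u [M v = v]` (unfold `st0`). So `pa G m ≤ ∑_x [W x] mv G x + u ∑ dv G` (reindex `x = M v`). First: `gE_T0` with `q = W`: `S1.b2` (`≤ N^31 / Δ^2`), `S2.d` (`≤ N^30 / Δ^2`), and `S1.l3`: `∑_x [W x] mv (T0 gD) x ≤ u ∑ mv (T0 gD) + 2 N pw (-19/5) ≤ u 2 / dd^2 + 2 N pw (-19/5)` (`gD_l1`, `mv_sum`; `u = ub φ α`). Second: `G` is `EF .. 0`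
(`T0 δ j F` of an `EF`-function of layer `j`: induction with `EF.pl`), `EF_dv`: `u 8 kd / dd^2`. Total `≤ 2 N^31 pw (-2)` (`u_bd`, `dd_bd`, `pwN`, `pw_add`; `pw (-2) = 1 / Δ^2`).
-/
import Pool.Agent.H2.LN.LD
import Pool.Agent.H2.LN.L.Lge
import Pool.Agent.H2.LN.L.Agn
import Pool.Agent.H2.LN.L.Lef

set_option autoImplicit false
set_option linter.unusedSectionVars false

namespace Pool.Agent.H2.LN

open Finset Classical
open Pool.Agent.H65.GI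

namespace An

variable {V : Type} [Fintype V] {X : Cx V} (Y : An X)

theorem Aw0_N (X : Cx V) : (1 : ℝ) ≤ X.N := le_trans (by norm_num) X.N_big

theorem Aw0_kd (X : Cx V) : (X.kd : ℝ) = (X.N : ℝ) ^ 52 := by
  unfold Cx.kd; push_cast; rfl

theorem Aw0_dd (X : Cx V) : 0 < X.dd := by
  have hN := Aw0_N X
  have h1 := X.dd_bd.1
  have h2 := X.pw_pos 1
  have h3 : (0 : ℝ) < X.pw 1 / (8 * (X.N : ℝ) ^ 54) := by positivity
  linarith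

theorem Aw0_one (X : Cx V) : X.pw 1 * X.pw (-1) = 1 := by
  rw [X.pw_add]; unfold Cx.pw; norm_num

theorem Aw0_idd (X : Cx V) : 1 / X.dd ≤ 8 * (X.N : ℝ) ^ 54 * X.pw (-1) := by
  have hN := Aw0_N X
  have hd := Aw0_dd X
  have h1 := X.dd_bd.1
  have h3 := Aw0_one X
  rw [div_le_iff₀ hd]
  have h5 := X.pw_pos (-1)
  have h4 : 8 * (X.N : ℝ) ^ 54 * X.pw (-1) * (X.pw 1 / (8 * (X.N : ℝ) ^ 54)) = 1 := by
    have hN0 : (X.N : ℝ) ≠ 0 := by positivity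
    have e : 8 * (X.N : ℝ) ^ 54 * X.pw (-1) * (X.pw 1 / (8 * (X.N : ℝ) ^ 54)) =
        (X.pw 1 * X.pw (-1)) := by
      field_simp
    rw [e, h3]
  calc (1 : ℝ) = 8 * (X.N : ℝ) ^ 54 * X.pw (-1) * (X.pw 1 / (8 * (X.N : ℝ) ^ 54)) := h4.symm
    _ ≤ 8 * (X.N : ℝ) ^ 54 * X.pw (-1) * X.dd := by
        apply mul_le_mul_of_nonneg_left h1
        positivity

theorem Aw0_m2 (X : Cx V) : 1 / (X.Δ : ℝ) ^ 2 = X.pw (-2) := by
  unfold Cx.pw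
  rw [Real.rpow_neg (Nat.cast_nonneg _), one_div]
  norm_num

theorem Aw0_EF {c : V → ℕ} {Rc : Finset V} {α : Fin X.s} {δ : ZMod 2} (j : ℕ) :
    ∀ F : V → ℝ, X.EF c Rc α δ j F → X.EF c Rc α δ 0 (X.T0 α δ j F) := by
  induction j with
  | zero => intro F h; exact h
  | succ j ih => intro F h; exact ih _ (Cx.EF.pl δ j F h)

theorem Aw0_m0 (δ : ZMod 2) (α : Fin X.s) (v : V) :
    Y.m 0 0 δ α v ≤ (if X.M α v ≠ v ∧ Wc X.p Y.c α (X.M α v) then 1 else 0) +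
      (if X.M α v = v then Y.u α else 0) := by
  have hu := (Y.u_bd α).1
  have e : Y.m 0 0 δ α v = if X.sd α v = δ ∧ ¬ Wc X.p Y.c α v then
      (if (0 : Fin 2) = 0 then (if X.M α v = v then X.ub Y.φ α else if Wc X.p Y.c α (X.M α v) then 1 else 0)
        else if Rs X.G X.p Y.c X.D X.M Y.Rc Y.al α (X.M α v) then 1 / 16 else 0)
    else 0 := rfl
  rw [e, if_pos (show (0 : Fin 2) = 0 by decide)]
  by_cases h1 : X.M α v = v
  · have h3 : ¬ (X.M α v ≠ v ∧ Wc X.p Y.c α (X.M α v)) := fun h => h.1 h1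
    rw [if_pos h1, if_pos h1, if_neg h3, zero_add]
    split_ifs
    · exact le_rfl
    · exact hu
  · rw [if_neg h1, if_neg h1, add_zero]
    by_cases h2 : Wc X.p Y.c α (X.M α v)
    · have h3 : X.M α v ≠ v ∧ Wc X.p Y.c α (X.M α v) := ⟨h1, h2⟩
      rw [if_pos h2, if_pos h3]
      split_ifs <;> norm_num
    · have h3 : ¬ (X.M α v ≠ v ∧ Wc X.p Y.c α (X.M α v)) := fun h => h2 h.2
      rw [if_neg h2, if_neg h3]
      split_ifs <;> norm_num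

theorem Aw0_pa0 (δ : ZMod 2) (α : Fin X.s) {G : V → ℝ} (hG : ∀ x, 0 ≤ G x) :
    Cx.pa G (Y.m 0 0 δ α) ≤
      (∑ x, if Wc X.p Y.c α x then X.mv α G x else 0) + Y.u α * ∑ x, X.dv α G x := by
  have hre : (∑ x, if Wc X.p Y.c α x then X.mv α G x else 0) =
      ∑ v, if Wc X.p Y.c α (X.M α v) then X.mv α G (X.M α v) else 0 :=
    (Equiv.sum_comp (Function.Involutive.toPerm (X.M α) (X.M_M α))
      (fun x => if Wc X.p Y.c α x then X.mv α G x else 0)).symm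
  rw [hre, mul_sum, ← sum_add_distrib]
  unfold Cx.pa
  apply sum_le_sum
  intro v _
  have hm := Aw0_m0 Y δ α v
  have hm2 := mul_le_mul_of_nonneg_left hm (hG v)
  refine hm2.trans (le_of_eq ?_)
  unfold Cx.mv Cx.dv
  rw [X.M_M]
  by_cases h1 : X.M α v = v
  · have h3 : ¬ (X.M α v ≠ v ∧ Wc X.p Y.c α (X.M α v)) := fun h => h.1 h1
    have h4 : ¬ (v ≠ X.M α v) := fun h => h h1.symm
    rw [if_pos h1, if_pos h1, if_neg h3, if_neg h4, ite_self, zero_add, zero_add, mul_comm]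
  · have h1' : v ≠ X.M α v := fun h => h1 h.symm
    rw [if_neg h1, if_neg h1, if_pos h1', mul_zero, add_zero, add_zero]
    by_cases h2 : Wc X.p Y.c α (X.M α v)
    · have h3 : X.M α v ≠ v ∧ Wc X.p Y.c α (X.M α v) := ⟨h1, h2⟩
      rw [if_pos h2, if_pos h3, mul_one]
    · have h3 : ¬ (X.M α v ≠ v ∧ Wc X.p Y.c α (X.M α v)) := fun h => h2 h.2
      rw [if_neg h2, if_neg h3, mul_zero]

theorem Aw0_num (X : Cx V) {u : ℝ} (h0 : 0 ≤ u) (h1 : u ≤ 2 * X.N ^ 15 * X.pw (-1)) :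
    X.N ^ 31 / (X.Δ : ℝ) ^ 2 + X.N ^ 30 / (X.Δ : ℝ) ^ 2 +
      (u * (2 / X.dd ^ 2) + 2 * X.N * X.pw (-(19 : ℝ) / 5)) + u * (8 * X.kd / X.dd ^ 2) ≤
      2 * (X.N ^ 31 * X.pw (-2)) := by
  have hN := Aw0_N X
  have hNb := X.N_big
  have hd := Aw0_dd X
  have h2 := Aw0_idd X
  have p1 := X.pw_pos (-1)
  have p2 := X.pw_pos (-2)
  have i2 : X.pw (-1) * X.pw (-1) = X.pw (-2) := by rw [X.pw_add]; norm_num
  have e1 : (X.N : ℝ) ^ 31 / (X.Δ : ℝ) ^ 2 = X.N ^ 31 * X.pw (-2) := by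
    rw [← Aw0_m2]; ring
  have e2 : (X.N : ℝ) ^ 30 / (X.Δ : ℝ) ^ 2 = X.N ^ 30 * X.pw (-2) := by
    rw [← Aw0_m2]; ring
  -- u part
  have a1 : 1 / X.dd * (1 / X.dd) ≤ 64 * (X.N : ℝ) ^ 108 * X.pw (-2) := by
    have h4 : 1 / X.dd * (1 / X.dd) ≤ (8 * (X.N : ℝ) ^ 54 * X.pw (-1)) * (8 * (X.N : ℝ) ^ 54 * X.pw (-1)) :=
      mul_le_mul h2 h2 (by positivity) (by positivity)
    calc 1 / X.dd * (1 / X.dd) ≤ (8 * (X.N : ℝ) ^ 54 * X.pw (-1)) * (8 * (X.N : ℝ) ^ 54 * X.pw (-1)) := h4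
      _ = 64 * (X.N : ℝ) ^ 108 * (X.pw (-1) * X.pw (-1)) := by ring
      _ = 64 * (X.N : ℝ) ^ 108 * X.pw (-2) := by rw [i2]
  have a2 : u * (2 / X.dd ^ 2) + u * (8 * X.kd / X.dd ^ 2) =
      (2 + 8 * (X.N : ℝ) ^ 52) * (u * (1 / X.dd * (1 / X.dd))) := by
    rw [Aw0_kd]; field_simp
  have a3 : u * (1 / X.dd * (1 / X.dd)) ≤ (2 * (X.N : ℝ) ^ 15 * X.pw (-1)) * (64 * (X.N : ℝ) ^ 108 * X.pw (-2)) :=
    mul_le_mul h1 a1 (by positivity) (by positivity)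
  have hN52 : (1 : ℝ) ≤ (X.N : ℝ) ^ 52 := one_le_pow₀ hN
  have a4 : (2 + 8 * (X.N : ℝ) ^ 52) * (u * (1 / X.dd * (1 / X.dd))) ≤
      (10 * (X.N : ℝ) ^ 52) * ((2 * (X.N : ℝ) ^ 15 * X.pw (-1)) * (64 * (X.N : ℝ) ^ 108 * X.pw (-2))) := by
    apply mul_le_mul _ a3 (by positivity) (by positivity)
    linarith
  have a5 : (10 * (X.N : ℝ) ^ 52) * ((2 * (X.N : ℝ) ^ 15 * X.pw (-1)) * (64 * (X.N : ℝ) ^ 108 * X.pw (-2))) =
      1280 * (X.N : ℝ) ^ 175 * X.pw (-1) * X.pw (-2) := by ring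
  have a6 : 1280 * (X.N : ℝ) ^ 175 * X.pw (-1) ≤ 1 := by
    have h := X.pwN 176 1 (by norm_num)
    have h3 := Aw0_one X
    have h4 : 1280 * (X.N : ℝ) ^ 175 ≤ (X.N : ℝ) ^ 176 := by
      have : (1280 : ℝ) ≤ X.N := le_trans (by norm_num) hNb
      calc 1280 * (X.N : ℝ) ^ 175 ≤ X.N * (X.N : ℝ) ^ 175 :=
            mul_le_mul_of_nonneg_right this (by positivity)
        _ = (X.N : ℝ) ^ 176 := by ring
    calc 1280 * (X.N : ℝ) ^ 175 * X.pw (-1) ≤ X.pw 1 * X.pw (-1) :=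
          mul_le_mul_of_nonneg_right (h4.trans h) p1.le
      _ = 1 := h3
  have a7 : 1280 * (X.N : ℝ) ^ 175 * X.pw (-1) * X.pw (-2) ≤ 1 * X.pw (-2) :=
    mul_le_mul_of_nonneg_right a6 p2.le
  -- the error
  have b1 : 2 * (X.N : ℝ) * X.pw (-(19 : ℝ) / 5) ≤ 1 * X.pw (-2) := by
    have e : X.pw (-(19 : ℝ) / 5) = X.pw (-(9 : ℝ) / 5) * X.pw (-2) := by
      rw [X.pw_add]; norm_num
    have p3 := X.pw_pos (-(9 : ℝ) / 5)
    have h3 : X.pw (9 / 5) * X.pw (-(9 : ℝ) / 5) = 1 := by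
      rw [X.pw_add]; unfold Cx.pw; norm_num
    have h := X.pwN 2 (9 / 5) (by norm_num)
    have h4 : 2 * (X.N : ℝ) ≤ (X.N : ℝ) ^ 2 := by
      have : (2 : ℝ) ≤ X.N := le_trans (by norm_num) hNb
      nlinarith
    have h5 : 2 * (X.N : ℝ) * X.pw (-(9 : ℝ) / 5) ≤ 1 := by
      calc 2 * (X.N : ℝ) * X.pw (-(9 : ℝ) / 5) ≤ X.pw (9 / 5) * X.pw (-(9 : ℝ) / 5) :=
            mul_le_mul_of_nonneg_right (h4.trans h) p3.le
        _ = 1 := h3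
    rw [e, ← mul_assoc]
    exact mul_le_mul_of_nonneg_right h5 p2.le
  have c1 : (X.N : ℝ) ^ 30 + 2 ≤ (X.N : ℝ) ^ 31 := by
    have h3 : (1 : ℝ) ≤ (X.N : ℝ) ^ 30 := one_le_pow₀ hN
    have h4 : (X.N : ℝ) ^ 31 = X.N * (X.N : ℝ) ^ 30 := by ring
    have h5 : (3 : ℝ) ≤ X.N := le_trans (by norm_num) hNb
    nlinarith
  have c2 := mul_le_mul_of_nonneg_right c1 p2.le
  rw [e1, e2]
  nlinarith [a2, a4, a5, a7, b1, c2]

/-- error functions against the initial masses -/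
theorem w0 {j r : ℕ} (hj : j ≤ X.n3) {δ : ZMod 2} {α : Fin X.s} {P : V → ℝ} (h : X.RF α δ j r P)
    (hr : X.n3 ≤ r) : Cx.pa (X.T0 α δ j (X.gE Y.c Y.Rc α δ j P)) (Y.m 0 0 δ α) ≤
      2 * (X.N ^ 31 * X.pw (-2)) := by
  have hP := Cx.RF_nn h
  have hE : X.EF Y.c Y.Rc α δ 0 (X.T0 α δ j (X.gE Y.c Y.Rc α δ j P)) :=
    Aw0_EF j _ (Cx.EF.bs δ j r P hr h)
  have hG := Cx.EF_nn hE
  have hu := Y.u_bd α
  have h1 := Aw0_pa0 Y δ α hG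
  have h2 := Cx.gE_T0 (X := X) (c := Y.c) (Rc := Y.Rc) (α := α) (δ := δ) (j := j) hP
    (fun x => Wc X.p Y.c α x)
  have h3 := Y.s1.b2 α δ j r P h hr
  have h4 := Y.s2.d α δ j r P h hr
  have h5 := (abs_le.mp (Y.s1.l3 α δ j r P h hr)).2
  have h6 := Cx.EF_dv hE Y.kd
  have h7 : ∑ x, X.mv α (X.T0 α δ j (X.gD α δ j P)) x ≤ 2 / X.dd ^ 2 := by
    have hg : ∀ a, 0 ≤ X.gD α δ j P a := by
      intro a
      unfold Cx.gD
      split_ifs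
      · exact mul_nonneg (div_nonneg (by norm_num) (Aw0_dd X).le) (Cx.A_nn hP a)
      · exact le_rfl
    have ht : ∀ a, 0 ≤ X.T0 α δ j (X.gD α δ j P) a := Cx.T0_nn hg
    exact (Cx.Lef_mv_le ht).trans (Cx.gD_l1 h)
  have h8 : Y.u α = X.ub Y.φ α := rfl
  have h9 := mul_le_mul_of_nonneg_left h7 hu.1
  have h10 := mul_le_mul_of_nonneg_left h6 hu.1
  have h11 := Aw0_num X hu.1 hu.2
  rw [← h8] at h5
  linarith

end An

end Pool.Agent.H2.LN
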