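/-
ROW Aup. Pulling back to layer 0.
PROOF. `up0`: let `q1 = 1 + 4 kd / dd`. Claim by induction on `j ≤ N^3`: `pa F (m j) ≤ q1^j (pa (T0 j F) (m 0) + j E)`, `E = pw (-19/5) + pw (-3)`. Step: `id_st` (not a Z-layer), `st_up` with `P = mv F` (`TF.em`; `mv F ≥ 0`), `B = 1` (`s0`), `A δ j (mv F) = T δ j F`, which is `EF .. j` (`EF.pl`); `ij (j+1) ∑_{S} dv F ≤ (u / th) (th ∑ dv F + pw (-19/5))` (`st_h` with `TF.ed`, `ij_0`), `∑ dv F ≤ 8 kd / dd^2` (`EF_dv`): all together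
`≤ u 8 kd / dd^2 + (u / th) pw (-19/5) ≤ pw (-3) + pw (-19/5) / 2`. `q1^(N^3) ≤ exp (4 N^3 kd / dd) ≤ 2`, `2 N^3 E ≤ pw (-5/2)`. `er0`: `gE P` is `EF.bs`; `up0`, `w0`: `4 N^31 pw (-2) + pw (-5/2) ≤ 5 N^31 pw (-2)`.
-/
import Pool.Agent.H2.LN.LD
import Pool.Agent.H2.LN.L.As0
import Pool.Agent.H2.LN.L.Aw0
import Pool.Agent.H2.LN.L.Ast

set_option autoImplicit false
set_option linter.unusedSectionVars false

namespace Pool.Agent.H2.LN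

open Finset Classical
open Pool.Agent.H65.GI

namespace An

variable {V : Type} [Fintype V] {X : Cx V} (Y : An X)

/-- `n3 = N ^ 3` as a real number is at most `N ^ 3` -/
private theorem Aup_N1 : (1 : ℝ) ≤ X.N := le_trans (by norm_num) X.N_big

private theorem Aup_dd : 0 < X.dd := lt_of_lt_of_le
  (div_pos (X.pw_pos 1) (mul_pos (by norm_num) (pow_pos (lt_of_lt_of_le one_pos (Aup_N1 (X := X))) 54))) X.dd_bd.1

/-- the inverse of `dd` -/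
private theorem Aup_inv : 1 / X.dd ≤ 8 * (X.N : ℝ) ^ 54 * X.pw (-1) := by
  have hN : (1 : ℝ) ≤ X.N := Aup_N1
  have hd := X.dd_bd.1
  have h0 : 0 < X.dd := Aup_dd
  have hN54 : (0 : ℝ) < 8 * (X.N : ℝ) ^ 54 := by positivity
  have h1 : X.pw 1 ≤ X.dd * (8 * (X.N : ℝ) ^ 54) := (div_le_iff₀ hN54).1 hd
  have h2 : X.pw 1 * X.pw (-1) = 1 := by
    rw [X.pw_add]
    norm_num [Cx.pw]
  have h3 : 0 < X.pw (-1) := X.pw_pos _
  rw [div_le_iff₀ h0]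
  nlinarith [mul_le_mul_of_nonneg_right h1 h3.le]

private theorem Aup_kd : (X.kd : ℝ) = (X.N : ℝ) ^ 52 := by
  simp [Cx.kd]

/-- `4 kd / dd` is small -/
private theorem Aup_q (j : ℕ) (hj : j ≤ X.n3) : (1 + 4 * (X.kd : ℝ) / X.dd) ^ j ≤ 2 := by
  have hN : (1 : ℝ) ≤ X.N := Aup_N1
  have hN2 : (2 : ℝ) ^ 40 ≤ X.N := X.N_big
  have h0 : 0 < X.dd := Aup_dd
  have hx : 0 ≤ 4 * (X.kd : ℝ) / X.dd := by positivity
  have h1 : (1 + 4 * (X.kd : ℝ) / X.dd) ^ j ≤ Real.exp (4 * (X.kd : ℝ) / X.dd * j) := by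
    have h2 : 1 + 4 * (X.kd : ℝ) / X.dd ≤ Real.exp (4 * (X.kd : ℝ) / X.dd) := by
      have := Real.add_one_le_exp (4 * (X.kd : ℝ) / X.dd)
      linarith
    calc (1 + 4 * (X.kd : ℝ) / X.dd) ^ j ≤ Real.exp (4 * (X.kd : ℝ) / X.dd) ^ j :=
          pow_le_pow_left₀ (by positivity) h2 j
      _ = Real.exp (4 * (X.kd : ℝ) / X.dd * j) := by
          rw [← Real.exp_nat_mul, mul_comm]
  have hjn : (j : ℝ) ≤ (X.N : ℝ) ^ 3 := by
    have : ((j : ℕ) : ℝ) ≤ ((X.N ^ 3 : ℕ) : ℝ) := by exact_mod_cast hj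
    simpa using this
  have h3 : 4 * (X.kd : ℝ) / X.dd * j ≤ 32 * (X.N : ℝ) ^ 109 * X.pw (-1) := by
    have h4 : 4 * (X.kd : ℝ) / X.dd ≤ 32 * (X.N : ℝ) ^ 106 * X.pw (-1) := by
      have h5 := Aup_inv (X := X)
      rw [Aup_kd]
      calc 4 * (X.N : ℝ) ^ 52 / X.dd = 4 * (X.N : ℝ) ^ 52 * (1 / X.dd) := by ring
        _ ≤ 4 * (X.N : ℝ) ^ 52 * (8 * (X.N : ℝ) ^ 54 * X.pw (-1)) :=
            mul_le_mul_of_nonneg_left h5 (by positivity)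
        _ = 32 * (X.N : ℝ) ^ 106 * X.pw (-1) := by ring
    have h6 : 0 < X.pw (-1) := X.pw_pos _
    calc 4 * (X.kd : ℝ) / X.dd * j ≤ (32 * (X.N : ℝ) ^ 106 * X.pw (-1)) * (X.N : ℝ) ^ 3 :=
          mul_le_mul h4 hjn (by positivity) (by positivity)
      _ = 32 * (X.N : ℝ) ^ 109 * X.pw (-1) := by ring
  have h7 : 64 * (X.N : ℝ) ^ 109 ≤ X.pw 1 := by
    have h8 : (X.N : ℝ) ^ 110 ≤ X.pw 1 := X.pwN 110 1 (by norm_num)
    have h9 : (64 : ℝ) ≤ X.N := le_trans (by norm_num) hN2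
    have h10 : 64 * (X.N : ℝ) ^ 109 ≤ (X.N : ℝ) ^ 110 := by
      have : (X.N : ℝ) ^ 110 = X.N * (X.N : ℝ) ^ 109 := by ring
      rw [this]
      exact mul_le_mul_of_nonneg_right h9 (by positivity)
    linarith
  have h11 : X.pw 1 * X.pw (-1) = 1 := by
    rw [X.pw_add]
    norm_num [Cx.pw]
  have h12 : 32 * (X.N : ℝ) ^ 109 * X.pw (-1) ≤ 1 / 2 := by
    have h13 := mul_le_mul_of_nonneg_right h7 (X.pw_pos (-1)).le
    rw [h11] at h13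
    linarith
  have h14 : Real.exp (4 * (X.kd : ℝ) / X.dd * j) ≤ Real.exp (Real.log 2) := by
    apply Real.exp_le_exp.2
    have := Real.log_two_gt_d9
    linarith
  rw [Real.exp_log (by norm_num)] at h14
  exact h1.trans h14

/-- `pw` is monotone -/
private theorem Aup_mono {x y : ℝ} (h : x ≤ y) : X.pw x ≤ X.pw y := by
  have h1 : (1 : ℝ) ≤ X.pw (y - x) := by
    have := X.pwN 0 (y - x) (by push_cast; linarith)
    simpa using this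
  have h2 : X.pw x * X.pw (y - x) = X.pw y := by
    rw [X.pw_add]; congr 1; ring
  have h3 := X.pw_pos x
  nlinarith

/-- the injected mass -/
private theorem Aup_inj (α : Fin X.s) : Y.u α * (8 * (X.kd : ℝ) / X.dd ^ 2) + Y.u α / X.th * X.pw (-(19 : ℝ) / 5) ≤
    X.pw (-(29 : ℝ) / 10) + X.pw (-(19 : ℝ) / 5) / 2 := by
  have hN : (1 : ℝ) ≤ X.N := Aup_N1
  have hN2 : (2 : ℝ) ^ 40 ≤ X.N := X.N_big
  have h0 : 0 < X.dd := Aup_dd
  obtain ⟨hu0, hu⟩ := Y.u_bd α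
  have hi := Aup_inv (X := X)
  have hp1 : 0 < X.pw (-1) := X.pw_pos _
  have hA : Y.u α * (8 * (X.kd : ℝ) / X.dd ^ 2) ≤ X.pw (-(29 : ℝ) / 10) := by
    have h1 : 8 * (X.kd : ℝ) / X.dd ^ 2 ≤ 512 * (X.N : ℝ) ^ 160 * (X.pw (-1) * X.pw (-1)) := by
      rw [Aup_kd]
      have h2 : (1 / X.dd) ^ 2 ≤ (8 * (X.N : ℝ) ^ 54 * X.pw (-1)) ^ 2 :=
        pow_le_pow_left₀ (by positivity) hi 2
      calc 8 * (X.N : ℝ) ^ 52 / X.dd ^ 2 = 8 * (X.N : ℝ) ^ 52 * (1 / X.dd) ^ 2 := by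
            field_simp
        _ ≤ 8 * (X.N : ℝ) ^ 52 * (8 * (X.N : ℝ) ^ 54 * X.pw (-1)) ^ 2 :=
            mul_le_mul_of_nonneg_left h2 (by positivity)
        _ = 512 * (X.N : ℝ) ^ 160 * (X.pw (-1) * X.pw (-1)) := by ring
    have h3 : Y.u α * (8 * (X.kd : ℝ) / X.dd ^ 2) ≤
        1024 * (X.N : ℝ) ^ 175 * X.pw (-3) := by
      have h4 : X.pw (-1) * (X.pw (-1) * X.pw (-1)) = X.pw (-3) := by
        rw [X.pw_add, X.pw_add]; norm_num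
      calc Y.u α * (8 * (X.kd : ℝ) / X.dd ^ 2) ≤
          (2 * X.N ^ 15 * X.pw (-1)) * (512 * (X.N : ℝ) ^ 160 * (X.pw (-1) * X.pw (-1))) :=
            mul_le_mul hu h1 (by positivity) (by positivity)
        _ = 1024 * (X.N : ℝ) ^ 175 * (X.pw (-1) * (X.pw (-1) * X.pw (-1))) := by ring
        _ = _ := by rw [h4]
    have h5 : 1024 * (X.N : ℝ) ^ 175 ≤ X.pw (1 / 10) := by
      have h6 : (X.N : ℝ) ^ 176 ≤ X.pw (1 / 10) := X.pwN 176 _ (by norm_num)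
      have h7 : (1024 : ℝ) ≤ X.N := le_trans (by norm_num) hN2
      have h8 : 1024 * (X.N : ℝ) ^ 175 ≤ (X.N : ℝ) ^ 176 := by
        have : (X.N : ℝ) ^ 176 = X.N * (X.N : ℝ) ^ 175 := by ring
        rw [this]
        exact mul_le_mul_of_nonneg_right h7 (by positivity)
      linarith
    have h9 : X.pw (1 / 10) * X.pw (-3) = X.pw (-(29 : ℝ) / 10) := by
      rw [X.pw_add]; norm_num
    calc Y.u α * (8 * (X.kd : ℝ) / X.dd ^ 2) ≤ 1024 * (X.N : ℝ) ^ 175 * X.pw (-3) := h3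
      _ ≤ X.pw (1 / 10) * X.pw (-3) := mul_le_mul_of_nonneg_right h5 (X.pw_pos _).le
      _ = _ := h9
  have hB : Y.u α / X.th ≤ 1 / 2 := by
    obtain ⟨ht, -, -, -⟩ := X.th_bd
    have hp : 0 < X.pw (-(3 : ℝ) / 5) := X.pw_pos _
    have hth : 0 < X.th := lt_of_lt_of_le hp ht
    rw [div_le_iff₀ hth]
    have h1 : 4 * (X.N : ℝ) ^ 15 ≤ X.pw (2 / 5) := by
      have h6 : (X.N : ℝ) ^ 16 ≤ X.pw (2 / 5) := X.pwN 16 _ (by norm_num)
      have h7 : (4 : ℝ) ≤ X.N := le_trans (by norm_num) hN2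
      have h8 : 4 * (X.N : ℝ) ^ 15 ≤ (X.N : ℝ) ^ 16 := by
        have : (X.N : ℝ) ^ 16 = X.N * (X.N : ℝ) ^ 15 := by ring
        rw [this]
        exact mul_le_mul_of_nonneg_right h7 (by positivity)
      linarith
    have h2 : X.pw (2 / 5) * X.pw (-1) = X.pw (-(3 : ℝ) / 5) := by
      rw [X.pw_add]; norm_num
    have h3 := mul_le_mul_of_nonneg_right h1 hp1.le
    rw [h2] at h3
    linarith
  have hC : Y.u α / X.th * X.pw (-(19 : ℝ) / 5) ≤ X.pw (-(19 : ℝ) / 5) / 2 := by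
    have := mul_le_mul_of_nonneg_right hB (X.pw_pos (-(19 : ℝ) / 5)).le
    linarith
  linarith

/-- the masses pair nonnegatively -/
private theorem Aup_pa {F : V → ℝ} (hF : ∀ x, 0 ≤ F x) (δ : ZMod 2) (α : Fin X.s) :
    0 ≤ Cx.pa F (Y.m 0 0 δ α) :=
  Finset.sum_nonneg fun v _ => mul_nonneg (hF v) (Y.s0 (Nat.zero_le _) δ α v).1

private theorem Aup_main : ∀ j : ℕ, j ≤ X.n3 → ∀ (δ : ZMod 2) (α : Fin X.s) (F : V → ℝ),
    X.EF Y.c Y.Rc α δ j F → Cx.pa F (Y.m j 0 δ α) ≤ (1 + 4 * (X.kd : ℝ) / X.dd) ^ j *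
      (Cx.pa (X.T0 α δ j F) (Y.m 0 0 δ α) + j * (X.pw (-(19 : ℝ) / 5) + X.pw (-(29 : ℝ) / 10))) := by
  intro j
  induction j with
  | zero =>
    intro _ δ α F h
    simp [Cx.T0]
  | succ j ih =>
    intro hj δ α F h
    have hjn : j < X.n := by
      have := Cx.EF_lt h
      omega
    have hz : ¬ ((0 : Fin 2) = 0 ∧ X.isZ (j + 1)) := fun hh => isZ_no0 hj hh.2
    have hF0 : ∀ x, 0 ≤ F x := fun x => Cx.EF_nn h x
    have hmv0 : ∀ x, 0 ≤ X.mv α F x := by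
      intro x
      unfold Cx.mv
      split_ifs
      · exact hF0 _
      · exact le_rfl
    have hdv0 : ∀ x, 0 ≤ X.dv α F x := by
      intro x
      unfold Cx.dv
      split_ifs
      · exact hF0 _
      · exact le_rfl
    have hm : ∀ (δ : ZMod 2) (α : Fin X.s) (v : V), 0 ≤ Y.m j 0 δ α v := fun δ α v =>
      (Y.s0 (by omega) δ α v).1
    have hB : ∀ (δ : ZMod 2) (α : Fin X.s) (v : V), Y.m j 0 δ α v ≤ 1 := fun δ α v =>
      (Y.s0 (by omega) δ α v).2.1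
    have h1 := Y.st_up hjn 0 δ α (Cx.TF.em α δ (j + 1) F h) hmv0 hm hB
    have h2 := Y.id_st hjn 0 hz δ α F
    have h3 := ih (by omega) δ α (X.T α δ j F) (Cx.EF.pl δ j F h)
    have h4 : (∑ v ∈ Y.S (j + 1) δ α, X.dv α F v) ≤ X.th * (8 * (X.kd : ℝ) / X.dd ^ 2) + X.pw (-(19 : ℝ) / 5) := by
      have h5 := (abs_le.1 (Y.st_h hjn δ α (Cx.TF.ed α δ (j + 1) F h))).2
      have h6 : (∑ x ∈ univ.filter (fun x => X.sd α x = δ ∧ x ∉ Y.ds α), X.dv α F x) ≤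
          8 * (X.kd : ℝ) / X.dd ^ 2 :=
        le_trans (Finset.sum_le_sum_of_subset_of_nonneg (Finset.filter_subset _ _)
          fun x _ _ => hdv0 x) (Cx.EF_dv h Y.kd)
      have hth : 0 ≤ X.th := le_trans (X.pw_pos _).le X.th_bd.1
      have h7 := mul_le_mul_of_nonneg_left h6 hth
      linarith
    have hij : Y.ij (j + 1) 0 α = Y.u α / X.th := Y.ij_0 (by omega) hj α
    obtain ⟨hu0, -⟩ := Y.u_bd α
    have hth : 0 < X.th := lt_of_lt_of_le (X.pw_pos _) X.th_bd.1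
    have h8 : Y.u α / X.th * (∑ v ∈ Y.S (j + 1) δ α, X.dv α F v) ≤
        X.pw (-(29 : ℝ) / 10) + X.pw (-(19 : ℝ) / 5) / 2 := by
      have h9 := mul_le_mul_of_nonneg_left h4 (div_nonneg hu0 hth.le)
      have h10 : Y.u α / X.th * (X.th * (8 * (X.kd : ℝ) / X.dd ^ 2) + X.pw (-(19 : ℝ) / 5)) =
          Y.u α * (8 * (X.kd : ℝ) / X.dd ^ 2) + Y.u α / X.th * X.pw (-(19 : ℝ) / 5) := by
        field_simp
      rw [h10] at h9
      exact h9.trans (Y.Aup_inj α)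
    have hq : 1 ≤ 1 + 4 * (X.kd : ℝ) / X.dd := by
      have h0 : 0 < X.dd := Aup_dd
      have : 0 ≤ 4 * (X.kd : ℝ) / X.dd := by positivity
      linarith
    set q := 1 + 4 * (X.kd : ℝ) / X.dd with hqd
    set E := X.pw (-(19 : ℝ) / 5) + X.pw (-(29 : ℝ) / 10) with hE
    have hE0 : 0 ≤ E := add_nonneg (X.pw_pos _).le (X.pw_pos _).le
    have h11 : Cx.pa F (Y.m (j + 1) 0 δ α) ≤ q * Cx.pa (X.T α δ j F) (Y.m j 0 δ α) + E := by
      rw [h2, hij]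
      have h12 : X.A α δ j (X.mv α F) = X.T α δ j F := rfl
      rw [h12] at h1
      linarith
    have h13 := mul_le_mul_of_nonneg_left h3 (le_trans zero_le_one hq)
    have h14 : (1 : ℝ) ≤ q ^ (j + 1) := one_le_pow₀ hq
    have h15 : X.T0 α δ (j + 1) F = X.T0 α δ j (X.T α δ j F) := rfl
    rw [h15]
    push_cast
    have h16 : E ≤ q ^ (j + 1) * E := by
      have := mul_le_mul_of_nonneg_right h14 hE0
      linarith
    calc Cx.pa F (Y.m (j + 1) 0 δ α) ≤ q * Cx.pa (X.T α δ j F) (Y.m j 0 δ α) + E := h11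
      _ ≤ q * (q ^ j * (Cx.pa (X.T0 α δ j (X.T α δ j F)) (Y.m 0 0 δ α) + j * E)) + q ^ (j + 1) * E := by
          linarith
      _ = q ^ (j + 1) * (Cx.pa (X.T0 α δ j (X.T α δ j F)) (Y.m 0 0 δ α) + (j + 1) * E) := by ring

/-- upper bound by pulling back to layer 0 -/
theorem up0 {j : ℕ} (hj : j ≤ X.n3) {δ : ZMod 2} {α : Fin X.s} {F : V → ℝ}
    (h : X.EF Y.c Y.Rc α δ j F) : Cx.pa F (Y.m j 0 δ α) ≤
      2 * Cx.pa (X.T0 α δ j F) (Y.m 0 0 δ α) + X.pw (-(5 : ℝ) / 2) := by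
  have hN : (1 : ℝ) ≤ X.N := Aup_N1
  have hN2 : (2 : ℝ) ^ 40 ≤ X.N := X.N_big
  have h1 := Y.Aup_main j hj δ α F h
  have hF0 : ∀ x, 0 ≤ F x := fun x => Cx.EF_nn h x
  have hT : 0 ≤ Cx.pa (X.T0 α δ j F) (Y.m 0 0 δ α) := Y.Aup_pa (fun x => Cx.T0_nn hF0 x) δ α
  have hq := Aup_q (X := X) j hj
  have hjn : (j : ℝ) ≤ (X.N : ℝ) ^ 3 := by
    have : ((j : ℕ) : ℝ) ≤ ((X.N ^ 3 : ℕ) : ℝ) := by exact_mod_cast hj
    simpa using this
  set E := X.pw (-(19 : ℝ) / 5) + X.pw (-(29 : ℝ) / 10) with hE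
  have hE0 : 0 ≤ E := add_nonneg (X.pw_pos _).le (X.pw_pos _).le
  have hE1 : E ≤ 2 * X.pw (-(29 : ℝ) / 10) := by
    have := Aup_mono (X := X) (show (-(19 : ℝ) / 5) ≤ -(29 : ℝ) / 10 by norm_num)
    linarith
  have h2 : (1 + 4 * (X.kd : ℝ) / X.dd) ^ j * (Cx.pa (X.T0 α δ j F) (Y.m 0 0 δ α) + j * E) ≤
      2 * (Cx.pa (X.T0 α δ j F) (Y.m 0 0 δ α) + (X.N : ℝ) ^ 3 * E) := by
    apply mul_le_mul hq _ _ (by norm_num)
    · have := mul_le_mul_of_nonneg_right hjn hE0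
      linarith
    · have : 0 ≤ (j : ℝ) * E := mul_nonneg (Nat.cast_nonneg _) hE0
      linarith
  have h3 : 2 * ((X.N : ℝ) ^ 3 * E) ≤ X.pw (-(5 : ℝ) / 2) := by
    have h4 : 4 * (X.N : ℝ) ^ 3 ≤ X.pw (2 / 5) := by
      have h6 : (X.N : ℝ) ^ 4 ≤ X.pw (2 / 5) := X.pwN 4 _ (by norm_num)
      have h7 : (4 : ℝ) ≤ X.N := le_trans (by norm_num) hN2
      have h8 : 4 * (X.N : ℝ) ^ 3 ≤ (X.N : ℝ) ^ 4 := by
        have : (X.N : ℝ) ^ 4 = X.N * (X.N : ℝ) ^ 3 := by ring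
        rw [this]
        exact mul_le_mul_of_nonneg_right h7 (by positivity)
      linarith
    have h5 : X.pw (2 / 5) * X.pw (-(29 : ℝ) / 10) = X.pw (-(5 : ℝ) / 2) := by
      rw [X.pw_add]; norm_num
    calc 2 * ((X.N : ℝ) ^ 3 * E) ≤ 2 * ((X.N : ℝ) ^ 3 * (2 * X.pw (-(29 : ℝ) / 10))) := by
          have := mul_le_mul_of_nonneg_left hE1 (show (0 : ℝ) ≤ 2 * (X.N : ℝ) ^ 3 by positivity)
          linarith
      _ = 4 * (X.N : ℝ) ^ 3 * X.pw (-(29 : ℝ) / 10) := by ring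
      _ ≤ X.pw (2 / 5) * X.pw (-(29 : ℝ) / 10) := mul_le_mul_of_nonneg_right h4 (X.pw_pos _).le
      _ = _ := h5
  linarith

theorem er0 {j r : ℕ} (hj : j ≤ X.n3) {δ : ZMod 2} {α : Fin X.s} {P : V → ℝ} (h : X.RF α δ j r P)
    (hr : X.n3 ≤ r) : Cx.pa (X.gE Y.c Y.Rc α δ j P) (Y.m j 0 δ α) ≤ 5 * (X.N ^ 31 * X.pw (-2)) := by
  have hN : (1 : ℝ) ≤ X.N := Aup_N1
  have h1 := Y.up0 hj (Cx.EF.bs δ j r P hr h)
  have h2 := Y.w0 hj h hr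
  have h3 : X.pw (-(5 : ℝ) / 2) ≤ X.pw (-2) := Aup_mono (by norm_num)
  have h4 : X.pw (-2) ≤ (X.N : ℝ) ^ 31 * X.pw (-2) := by
    have h5 : (1 : ℝ) ≤ (X.N : ℝ) ^ 31 := one_le_pow₀ hN
    have := mul_le_mul_of_nonneg_right h5 (X.pw_pos (-2)).le
    linarith
  linarith

end An

end Pool.Agent.H2.LN
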