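/-
ROW Bfr. The scaling factors.
PROOF. `GG_ne`: `Gd1.g`: `|GG| ≥ th dd (1 - pw (-39/200)) > 0`. `fr_bd`: induction on `i`. `i = 0`, `ac (n - 1) u`: if `M u = u`: `1`. Otherwise `(ar 1 0 (M u) + df u) / ar 1 1 u` with both arrivals in `[rho / (36 th), rho / (6 th)]` (`nu_f`; `sd (M u) = 0 + 1`, `sd u = 0 = 1 + 1`; `ac_M`) and `|df u| ≤ N^45 pw (-7/5) ≤ rho / (10^6 th)` (`main_df`, `rho ≥ N^49 pw (-2)`, `th ≤ 1.01 pw (-3/5)`): quotient in `[1/7, 7]`: `(1/36 - 10^-6) / (1/6) ≥ 1/8`, `(1/6 + 10^-6) · 36 ≤ 7`.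
`i + 1`: `M u = u`: `1`. Otherwise `M u` is a sender of layer `n - 1 - i = (n - 1 - (i+1)) + 1` in direction 1 (`S_succ`: `sd (M u) = 1`, `ac (n - 1 - (i+1)) (M u)`), `GG` is nonempty (`GG_ne`), its elements `w` have `sd w = 0` and `ac (n - 1 - i) w` (`GG_ac`): the average of numbers in `[1/8, 7]`.
-/
import Pool.Agent.H2.LN.LD
import Pool.Agent.H2.LN.L.Amn
import Pool.Agent.H2.LN.L.Anf
import Pool.Agent.H2.LN.L.Agn
import Pool.Agent.H2.LN.L.Lnm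
import Pool.Agent.H2.LN.L.Lbs

set_option autoImplicit false
set_option linter.unusedSectionVars false

namespace Pool.Agent.H2.LN

open Finset Classical
open Pool.Agent.H65.GI

namespace An

variable {V : Type} [Fintype V] {X : Cx V} (Y : An X)

theorem Bfr_pw0 (X : Cx V) : X.pw 0 = 1 := by
  unfold Cx.pw
  exact Real.rpow_zero _

theorem Bfr_neg (X : Cx V) (k : ℕ) (x : ℝ) (h : (k : ℝ) ≤ 40000 * x) : X.pw (-x) * (X.N : ℝ) ^ k ≤ 1 := by
  have h1 := X.pwN k x h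
  have h2 := X.pw_add (-x) x
  rw [neg_add_cancel, Bfr_pw0] at h2
  calc X.pw (-x) * (X.N : ℝ) ^ k ≤ X.pw (-x) * X.pw x :=
        mul_le_mul_of_nonneg_left h1 (X.pw_pos _).le
    _ = 1 := h2

theorem GG_ne {j : ℕ} (hj : j < X.n) {δ : ZMod 2} {α : Fin X.s} {v : V} (hv : v ∈ Y.S j δ α) :
    (Y.GG j δ α v).Nonempty := by
  have hg := (Y.ok j hj).2.g δ α v hv
  have hN := X.N_big
  have hth : 0 < X.th := lt_of_lt_of_le (X.pw_pos _) X.th_bd.1
  have hNp : (0 : ℝ) < X.N := lt_of_lt_of_le (by norm_num) hN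
  have hdd : 0 < X.dd := lt_of_lt_of_le (div_pos (X.pw_pos _) (by positivity)) X.dd_bd.1
  have hp : X.pw (-(39 : ℝ) / 200) < 1 := by
    have h := Bfr_neg X 1 (39 / 200) (by norm_num)
    rw [pow_one] at h
    have e : (-(39 : ℝ) / 200) = -(39 / 200) := by ring
    rw [e]
    by_contra hc
    push Not at hc
    have : (2 : ℝ) ^ 40 ≤ X.pw (-(39 / 200)) * X.N :=
      calc (2 : ℝ) ^ 40 ≤ X.N := hN
        _ = 1 * X.N := (one_mul _).symm
        _ ≤ X.pw (-(39 / 200)) * X.N := mul_le_mul_of_nonneg_right hc hNp.le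
    have h40 : (1 : ℝ) < 2 ^ 40 := by norm_num
    linarith
  rw [← Finset.card_pos]
  have h1 := (abs_le.1 hg).1
  have h2 : X.th * X.dd * X.pw (-(39 : ℝ) / 200) < X.th * X.dd * 1 :=
    mul_lt_mul_of_pos_left hp (mul_pos hth hdd)
  have h3 : (0 : ℝ) < ((X.GG (X.dis Y.c Y.Rc) j
      (X.sq (X.dis Y.c Y.Rc) (fun α => X.ub Y.φ α) (X.st0 Y.c Y.φ Y.Rc Y.al) Y.ω j) (Y.ω (j + 1)) δ α v).card : ℝ) := by
    linarith
  exact_mod_cast h3

theorem Bfr_quo {A B d r : ℝ} (hr : 0 < r) (hA1 : r / 36 ≤ A) (hA2 : A ≤ r / 6) (hB1 : r / 36 ≤ B) (hB2 : B ≤ r / 6)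
    (hd : |d| ≤ r / 1000000) : 1 / 8 ≤ (A + d) / B ∧ (A + d) / B ≤ 7 := by
  have hB : 0 < B := lt_of_lt_of_le (by positivity) hB1
  have hd1 := (abs_le.1 hd).1
  have hd2 := (abs_le.1 hd).2
  constructor
  · rw [le_div_iff₀ hB]
    linarith
  · rw [div_le_iff₀ hB]
    linarith

theorem Bfr_rt (X : Cx V) : 0 < X.rho / X.th ∧ (X.N : ℝ) ^ 45 * X.pw (-(7 : ℝ) / 5) ≤ X.rho / X.th / 1000000 := by
  have hN := X.N_big
  have hNp : (0 : ℝ) < X.N := lt_of_lt_of_le (by norm_num) hN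
  have hth : 0 < X.th := lt_of_lt_of_le (X.pw_pos _) X.th_bd.1
  have hr : 0 < X.rho := lt_of_lt_of_le (mul_pos (by positivity) (X.pw_pos _)) X.rho_bd.1
  refine ⟨div_pos hr hth, ?_⟩
  rw [div_div, le_div_iff₀ (mul_pos hth (by norm_num))]
  have h1 := X.th_bd.2.1
  have h2 := X.rho_bd.1
  have e : X.pw (-(7 : ℝ) / 5) * X.pw (-(3 : ℝ) / 5) = X.pw (-2) := by
    rw [X.pw_add]
    norm_num
  have hp7 := X.pw_pos (-(7 : ℝ) / 5)
  have hN4 : (2 : ℝ) ^ 160 ≤ (X.N : ℝ) ^ 4 := by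
    calc (2 : ℝ) ^ 160 = (2 ^ 40) ^ 4 := by norm_num
      _ ≤ (X.N : ℝ) ^ 4 := pow_le_pow_left₀ (by norm_num) hN 4
  have h160 : (1010000 : ℝ) ≤ 2 ^ 160 := by norm_num
  calc (X.N : ℝ) ^ 45 * X.pw (-(7 : ℝ) / 5) * (X.th * 1000000)
      ≤ (X.N : ℝ) ^ 45 * X.pw (-(7 : ℝ) / 5) * (101 / 100 * X.pw (-(3 : ℝ) / 5) * 1000000) := by
        gcongr
    _ = (X.N : ℝ) ^ 45 * (X.pw (-(7 : ℝ) / 5) * X.pw (-(3 : ℝ) / 5)) * 1010000 := by ring
    _ = (X.N : ℝ) ^ 45 * X.pw (-2) * 1010000 := by rw [e]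
    _ ≤ (X.N : ℝ) ^ 45 * X.pw (-2) * (X.N : ℝ) ^ 4 := by
        have : 0 < (X.N : ℝ) ^ 45 * X.pw (-2) := mul_pos (by positivity) (X.pw_pos _)
        exact mul_le_mul_of_nonneg_left (by linarith) this.le
    _ = (X.N : ℝ) ^ 49 * X.pw (-2) := by ring
    _ ≤ X.rho := h2

theorem fr_bd (α : Fin X.s) {i : ℕ} (hi : i < X.n) (u : V) (h1 : X.sd α u = 0)
    (h2 : Y.ac (X.n - 1 - i) α u) : 1 / 8 ≤ Y.fr α i u ∧ Y.fr α i u ≤ 7 := by
  induction i generalizing u with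
  | zero =>
    rw [Nat.sub_zero] at h2
    by_cases hM : X.M α u = u
    · unfold fr
      rw [if_neg (fun h => h.1 hM)]
      norm_num
    · unfold fr
      rw [if_pos ⟨hM, h2⟩]
      have hs : X.sd α (X.M α u) = 0 + 1 := by rw [X.M_sd hM, h1]
      have hMM : X.M α (X.M α u) ≠ X.M α u := by
        rw [X.M_M]
        exact fun h => hM h.symm
      have hs2 : X.sd α u = 1 + 1 := by
        rw [h1]
        decide
      obtain ⟨a1, a2⟩ := Y.nu_f 0 α (X.M α u) hs (Y.ac_M h2) hMM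
      obtain ⟨b1, b2⟩ := Y.nu_f 1 α u hs2 h2 hM
      have hd := Y.main_df α u h1 h2 hM
      obtain ⟨hr, hr2⟩ := Bfr_rt X
      have e36 : X.rho / (36 * X.th) = X.rho / X.th / 36 := by rw [div_div, mul_comm]
      have e6 : X.rho / (6 * X.th) = X.rho / X.th / 6 := by rw [div_div, mul_comm]
      rw [e36] at a1 b1
      rw [e6] at a2 b2
      exact Bfr_quo hr a1 a2 b1 b2 (hd.trans hr2)
  | succ i ih =>
    by_cases hM : X.M α u = u
    · unfold fr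
      rw [if_neg (fun h => h hM)]
      norm_num
    · unfold fr
      rw [if_pos hM]
      have hs : X.sd α (X.M α u) = 1 := by rw [X.M_sd hM, h1, zero_add]
      have hj : X.n - 1 - i < X.n := by omega
      have e : X.n - 1 - i = X.n - 1 - (i + 1) + 1 := by omega
      have hS : X.M α u ∈ Y.S (X.n - 1 - i) 1 α := by
        rw [e]
        exact (Y.S_succ _ _ _ _).2 ⟨hs, Y.ac_M h2⟩
      have hne := Y.GG_ne hj hS
      have hcp : (0 : ℝ) < ((Y.GG (X.n - 1 - i) 1 α (X.M α u)).card : ℝ) := by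
        exact_mod_cast Finset.card_pos.2 hne
      have hw : ∀ w ∈ Y.GG (X.n - 1 - i) 1 α (X.M α u), 1 / 8 ≤ Y.fr α i w ∧ Y.fr α i w ≤ 7 := by
        intro w hw
        obtain ⟨w1, w2, _⟩ := Y.GG_ac hj hS hw
        refine ih (by omega) w ?_ w1
        rw [w2]
        decide
      constructor
      · rw [le_div_iff₀ hcp]
        calc 1 / 8 * ((Y.GG (X.n - 1 - i) 1 α (X.M α u)).card : ℝ)
            = ∑ _w ∈ Y.GG (X.n - 1 - i) 1 α (X.M α u), (1 / 8 : ℝ) := by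
              rw [Finset.sum_const, nsmul_eq_mul, mul_comm]
          _ ≤ _ := Finset.sum_le_sum fun w hw' => (hw w hw').1
      · rw [div_le_iff₀ hcp]
        calc _ ≤ ∑ _w ∈ Y.GG (X.n - 1 - i) 1 α (X.M α u), (7 : ℝ) := Finset.sum_le_sum fun w hw' => (hw w hw').2
          _ = 7 * ((Y.GG (X.n - 1 - i) 1 α (X.M α u)).card : ℝ) := by
              rw [Finset.sum_const, nsmul_eq_mul, mul_comm]

end An

end Pool.Agent.H2.LN
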