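/-
ROW Bfl. The flows.
PROOF. `fl_nn`: masses `≥ 0` (`main_bd`, `nu_0`), `fac ≥ 0`: `fr_bd` with `i = n - 1 - j` for `u ∈ GG j 1 α v` (`GG_ac`; `n - 1 - (n - 1 - j) = j`). `fl_ne`: the `if`; `TT.sd` (`tt`), `GG_ac`. `side_z`: all terms vanish by `fl_ne` (`δ + 1 ≠ δ`).
-/
import Pool.Agent.H2.LN.LD
import Pool.Agent.H2.LN.L.Bfr
import Pool.Agent.H2.LN.L.An0

set_option autoImplicit false
set_option linter.unusedSectionVars false

namespace Pool.Agent.H2.LN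

open Finset Classical
open Pool.Agent.H65.GI

namespace An

variable {V : Type} [Fintype V] {X : Cx V} (Y : An X)

private theorem Bfl_fac_nn {j : ℕ} (hj : j < X.n) {δ : ZMod 2} {α : Fin X.s} {v u : V} (hv : v ∈ Y.S j δ α)
    (hu : u ∈ Y.GG j δ α v) : 0 ≤ Y.fac j δ α u := by
  unfold fac
  split_ifs with h
  · subst h
    obtain ⟨h1, h2, -⟩ := Y.GG_ac hj hv hu
    have h3 : X.n - 1 - j < X.n := by omega
    have h4 : X.n - 1 - (X.n - 1 - j) = j := by omega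
    have h5 : X.sd α u = 0 := by
      rw [h2]
      decide
    have h6 := Y.fr_bd α h3 u h5 (by rw [h4]; exact h1)
    linarith [h6.1]
  · exact zero_le_one

theorem fl_nn {j : ℕ} (hj : j < X.n) (δ : ZMod 2) (α : Fin X.s) (v u : V) : 0 ≤ Y.fl j δ α v u := by
  unfold fl
  split_ifs with h
  · exact div_nonneg (add_nonneg (Y.main_bd hj δ α v).1
      (mul_nonneg (Y.nu_0 hj δ α v).1 (Y.Bfl_fac_nn hj h.1 h.2))) (Nat.cast_nonneg _)
  · exact le_rfl

theorem fl_ne {j : ℕ} (hj : j < X.n) {δ : ZMod 2} {α : Fin X.s} {v u : V} (h : Y.fl j δ α v u ≠ 0) :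
    X.sd α v = δ ∧ X.sd α u = δ + 1 ∧ u ∈ X.R α δ j v ∧ v ∈ Y.S j δ α ∧ u ∈ Y.GG j δ α v := by
  have hc : v ∈ Y.S j δ α ∧ u ∈ Y.GG j δ α v := by
    by_contra hc
    apply h
    unfold fl
    rw [if_neg hc]
  obtain ⟨h1, h2, h3⟩ := Y.GG_ac hj hc.1 hc.2
  exact ⟨(Y.tt j hj).sd δ α v hc.1, h2, h3, hc.1, hc.2⟩

/-- no flow at the vertices of the wrong side -/
theorem side_z {j : ℕ} (hj : j < X.n) {δ : ZMod 2} {α : Fin X.s} {v : V} :
    (X.sd α v ≠ δ → Y.out j δ α v = 0) ∧ (X.sd α v = δ → Y.inf j δ α v = 0) := by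
  constructor
  · intro h
    unfold out
    refine Finset.sum_eq_zero fun u _ => ?_
    by_contra hf
    exact h (Y.fl_ne hj hf).1
  · intro h
    unfold inf
    refine Finset.sum_eq_zero fun w _ => ?_
    by_contra hf
    have h2 := (Y.fl_ne hj hf).2.1
    rw [h] at h2
    have h3 : ∀ d : ZMod 2, d ≠ d + 1 := by decide
    exact h3 δ h2

end An

end Pool.Agent.H2.LN
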