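/-
ROW Bcs. Conservation in ordinary layers.
PROOF. Let `x = M v`. `inf j δ x = ∑_{a ∈ S j, x ∈ GG a} (m j 0 a + m j 1 a fac j x) / |GG a| = ar j 0 x + fac j δ α x · ar j 1 x` (definition of `ar`, `Finset.sum_filter`, `Finset.sum_div`, `mul_sum`). If `v ∉ S (j+1)`: `out (j+1) v = 0`, and `inf j x = 0` (otherwise by `fl_ne` some `a` has `x ∈ GG a`, so `ac j x`, `sd x = δ + 1`, so `v ∈ S (j+1)` by `S_succ`, `ac_M`, `M_sd`). If `v ∈ S (j+1)`: `out (j+1) v = (∑_{u ∈ GG (j+1) v} (m 0 v + m 1 v fac (j+1) u)) / |GG| = m (j+1) 0 v + m (j+1) 1 v · (average of fac (j+1))`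
(`GG_ne`), `m (j+1) τ v = ar j τ x` (unfold `nxt`: not a Z-layer, `M v ≠ v`). `δ = 0`: `fac = 1`. `δ = 1`: `fac j 1 α x = fr α (n - 1 - j) x`, `n - 1 - j = (n - 1 - (j+1)) + 1`, `M x = v ≠ x`: the definition of `fr` with `i = n - 1 - (j+1)`, `n - 1 - i = j + 1`: the average of `fr α i w = fac (j+1) 1 α w` over `GG (j+1) 1 α v`.
-/
import Pool.Agent.H2.LN.LD
import Pool.Agent.H2.LN.L.Bfl
import Pool.Agent.H2.LN.L.Aid

set_option autoImplicit false
set_option linter.unusedSectionVars false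

namespace Pool.Agent.H2.LN

open Finset Classical
open Pool.Agent.H65.GI

namespace An

variable {V : Type} [Fintype V] {X : Cx V} (Y : An X)

private theorem Bcs_inf (j : ℕ) (δ : ZMod 2) (α : Fin X.s) (x : V) :
    Y.inf j δ α x = Y.ar j 0 δ α x + Y.fac j δ α x * Y.ar j 1 δ α x := by
  have h1 : ∀ τ : Fin 2, Y.ar j τ δ α x =
      ∑ a ∈ univ.filter (fun a => a ∈ Y.S j δ α ∧ x ∈ Y.GG j δ α a), Y.m j τ δ α a / ((Y.GG j δ α a).card : ℝ) := by
    intro τ
    show ∑ a ∈ ((Y.t j).S δ α).filter (fun a => x ∈ X.GG Y.ds j (Y.t j) (Y.ω (j + 1)) δ α a), _ = _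
    refine Finset.sum_congr ?_ fun a _ => rfl
    ext a
    simp only [Finset.mem_filter, Finset.mem_univ, true_and]
    rfl
  rw [h1, h1, Finset.mul_sum, ← Finset.sum_add_distrib, Finset.sum_filter]
  show ∑ v, Y.fl j δ α v x = _
  refine Finset.sum_congr rfl fun a _ => ?_
  unfold An.fl
  split_ifs with h
  · ring
  · rfl

private theorem Bcs_m {j : ℕ} (hz : ¬ X.isZ (j + 1)) {δ : ZMod 2} {α : Fin X.s} {v : V}
    (hv : X.M α v ≠ v) (hS : v ∈ Y.S (j + 1) δ α) (τ : Fin 2) :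
    Y.m (j + 1) τ δ α v = Y.ar j τ δ α (X.M α v) := by
  show (if v ∈ X.nS Y.ds (Y.ω (j + 1)) δ α then
    (if X.M α v = v then (if τ = 0 then X.inj (Y.u α) (j + 1) else 0)
      else if τ = 0 ∧ X.isZ (j + 1) then
        (if δ = 0 then X.be (X.bk (j + 1) - 1) + X.arr Y.ds j (Y.t j) (Y.ω (j + 1)) 0 0 α (X.M α v) -
          X.arr Y.ds j (Y.t j) (Y.ω (j + 1)) 0 1 α v else X.be (X.bk (j + 1) - 1))
      else X.arr Y.ds j (Y.t j) (Y.ω (j + 1)) τ δ α (X.M α v)) else 0) = _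
  have hS' : v ∈ X.nS Y.ds (Y.ω (j + 1)) δ α := hS
  rw [if_pos hS', if_neg hv, if_neg (fun h => hz h.2)]
  rfl

private theorem Bcs_out {j : ℕ} (hj : j < X.n) {δ : ZMod 2} {α : Fin X.s} {v : V} (hS : v ∈ Y.S j δ α) :
    Y.out j δ α v = Y.m j 0 δ α v +
      (∑ u ∈ Y.GG j δ α v, Y.fac j δ α u) / ((Y.GG j δ α v).card : ℝ) * Y.m j 1 δ α v := by
  have hne : ((Y.GG j δ α v).card : ℝ) ≠ 0 := by
    have := Finset.card_pos.2 (GG_ne Y hj hS)
    positivity
  have h1 : Y.out j δ α v = ∑ u ∈ Y.GG j δ α v,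
      (Y.m j 0 δ α v + Y.m j 1 δ α v * Y.fac j δ α u) / ((Y.GG j δ α v).card : ℝ) := by
    show ∑ u, Y.fl j δ α v u = _
    rw [← Finset.sum_filter_add_sum_filter_not univ (fun u => u ∈ Y.GG j δ α v)]
    rw [Finset.sum_eq_zero (s := univ.filter (fun u => ¬ u ∈ Y.GG j δ α v)), add_zero]
    · refine Finset.sum_congr ?_ fun u hu => ?_
      · ext u
        simp
      · unfold An.fl
        rw [if_pos ⟨hS, by simpa using hu⟩]
    · intro u hu
      unfold An.fl
      rw [if_neg]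
      rintro ⟨_, h⟩
      exact (Finset.mem_filter.1 hu).2 h
  rw [h1, ← Finset.sum_div, Finset.sum_add_distrib, Finset.sum_const, nsmul_eq_mul, ← Finset.mul_sum]
  field_simp

/-- outflow of a sender of layer `j + 1` and inflow of its partner in step `j`: ordinary layers -/
theorem cons_st {j : ℕ} (hj : j + 1 < X.n) (hz : ¬ X.isZ (j + 1)) (δ : ZMod 2) (α : Fin X.s) (v : V)
    (hv : X.M α v ≠ v) : Y.out (j + 1) δ α v = Y.inf j δ α (X.M α v) := by
  have hMM : X.M α (X.M α v) = v := X.base.inv α v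
  have hx : X.M α (X.M α v) ≠ X.M α v := by
    rw [hMM]
    exact fun h => hv h.symm
  by_cases hS : v ∈ Y.S (j + 1) δ α
  · rw [Bcs_out Y hj hS, Bcs_inf, Bcs_m Y hz hv hS, Bcs_m Y hz hv hS]
    congr 2
    by_cases hδ : δ = 1
    · subst hδ
      have e1 : X.n - 1 - j = (X.n - 1 - (j + 1)) + 1 := by omega
      have e2 : X.n - 1 - (X.n - 1 - (j + 1)) = j + 1 := by omega
      have h1 : Y.fac j 1 α (X.M α v) = Y.fr α ((X.n - 1 - (j + 1)) + 1) (X.M α v) := by
        unfold An.fac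
        rw [if_pos rfl, e1]
      have h2 : ∀ u, Y.fac (j + 1) 1 α u = Y.fr α (X.n - 1 - (j + 1)) u := by
        intro u
        unfold An.fac
        rw [if_pos rfl]
      rw [h1]
      conv_rhs => rw [An.fr]
      rw [if_pos hx, hMM, e2]
      simp only [h2]
    · have hfac : ∀ (i : ℕ) (u : V), Y.fac i δ α u = 1 := by
        intro i u
        unfold An.fac
        rw [if_neg hδ]
      simp only [hfac, Finset.sum_const, nsmul_eq_mul, mul_one]
      have hne : ((Y.GG (j + 1) δ α v).card : ℝ) ≠ 0 := by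
        have := Finset.card_pos.2 (GG_ne Y hj hS)
        positivity
      rw [div_self hne]
  · have h1 : Y.out (j + 1) δ α v = 0 := by
      show ∑ u, Y.fl (j + 1) δ α v u = 0
      refine Finset.sum_eq_zero fun u _ => ?_
      unfold An.fl
      rw [if_neg fun h => hS h.1]
    have h2 : Y.inf j δ α (X.M α v) = 0 := by
      show ∑ a, Y.fl j δ α a (X.M α v) = 0
      refine Finset.sum_eq_zero fun a _ => ?_
      by_contra hne
      have hj' : j < X.n := by omega
      obtain ⟨_, h3, _, h4, h5⟩ := fl_ne Y hj' hne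
      have h6 := GG_ac Y hj' h4 h5
      apply hS
      rw [S_succ]
      constructor
      · have h7 := Cx.M_sd X (α := α) (v := X.M α v) hx
        rw [hMM, h3] at h7
        rw [h7, add_assoc]
        have : (1 : ZMod 2) + 1 = 0 := by decide
        rw [this, add_zero]
      · have h7 := ac_M Y h6.1
        rwa [hMM] at h7
    rw [h1, h2]

end An

end Pool.Agent.H2.LN
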