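/-
ROW Bcz. Conservation in the Z-layers and in the last step.
PROOF. `x = M v`, `sd x = 1`. `cons_z`, `j + 1 = zl k`: as in Bcs: `inf j δ x' = ar j 0 x' + fac · ar j 1 x'`. If `¬ ac j v` all four terms are `0`. Otherwise `v ∈ S (zl k) 0`, `x ∈ S (zl k) 1`: `out 0 v = m 0 0 v + m 1 0 v = (be k + ar 0 0 x - ar 0 1 v) + ar 1 0 x`, so `out 0 v - inf 0 x = be k - ar 0 1 v`; `out 1 x = m 0 1 x + m 1 1 x · avg = be k + ar 1 1 v · fac j 1 v` (the average of `fac (j+1)` over `GG (zl k) 1 x` is `fr (n-1-j) v`, as `M v = x`), `inf 1 v = ar 0 1 v + fac j 1 v · ar 1 1 v`: difference `be k - ar 0 1 v`.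
`cons_n`: `j = n - 1`: if `¬ ac`: both `0`. Otherwise `inf 0 x = ar 0 0 x + ar 1 0 x`, `inf 1 v = ar 0 1 v + fr 0 v · ar 1 1 v = ar 0 1 v + ar 1 0 x + df v` (`ar 1 1 v ≠ 0` by `nu_f`, `rho > 0`), `df v = ar 0 0 x - ar 0 1 v`.
-/
import Pool.Agent.H2.LN.LD
import Pool.Agent.H2.LN.L.Bcs

set_option autoImplicit false
set_option linter.unusedSectionVars false

namespace Pool.Agent.H2.LN

open Finset Classical
open Pool.Agent.H65.GI

namespace An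

variable {V : Type} [Fintype V] {X : Cx V} (Y : An X)

/-- the inflow in terms of the arrivals -/
theorem Bcz_inf (j : ℕ) (δ : ZMod 2) (α : Fin X.s) (u : V) :
    Y.inf j δ α u = Y.ar j 0 δ α u + Y.fac j δ α u * Y.ar j 1 δ α u := by
  have h0 : ∀ τ : Fin 2, Y.ar j τ δ α u =
      ∑ a, if a ∈ Y.S j δ α ∧ u ∈ Y.GG j δ α a then Y.m j τ δ α a / ((Y.GG j δ α a).card : ℝ) else 0 := by
    intro τ
    unfold ar Cx.arr
    rw [← Finset.sum_filter]
    refine Finset.sum_congr ?_ fun a _ => rfl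
    ext a
    rw [Finset.mem_filter, Finset.mem_filter]
    constructor
    · rintro ⟨h1, h2⟩
      exact ⟨Finset.mem_univ a, h1, h2⟩
    · rintro ⟨_, h1, h2⟩
      exact ⟨h1, h2⟩
  rw [h0 0, h0 1, Finset.mul_sum, ← Finset.sum_add_distrib]
  unfold inf
  refine Finset.sum_congr rfl fun a _ => ?_
  unfold fl
  by_cases h : a ∈ Y.S j δ α ∧ u ∈ Y.GG j δ α a
  · rw [if_pos h, if_pos h, if_pos h]
    ring
  · rw [if_neg h, if_neg h, if_neg h]
    ring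

/-- the outflow of a sender -/
theorem Bcz_out {j : ℕ} (hj : j < X.n) {δ : ZMod 2} {α : Fin X.s} {v : V} (hv : v ∈ Y.S j δ α) :
    Y.out j δ α v = Y.m j 0 δ α v +
      Y.m j 1 δ α v * ((∑ u ∈ Y.GG j δ α v, Y.fac j δ α u) / ((Y.GG j δ α v).card : ℝ)) := by
  have hne : ((Y.GG j δ α v).card : ℝ) ≠ 0 := by
    have := Finset.card_pos.2 (Y.GG_ne hj hv)
    positivity
  unfold out fl
  rw [← Finset.sum_filter]
  have h1 : univ.filter (fun u => v ∈ Y.S j δ α ∧ u ∈ Y.GG j δ α v) = Y.GG j δ α v := by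
    ext u
    rw [Finset.mem_filter]
    exact ⟨fun h => h.2.2, fun h => ⟨Finset.mem_univ u, hv, h⟩⟩
  rw [h1, ← Finset.sum_div, Finset.sum_add_distrib, Finset.sum_const, nsmul_eq_mul, ← Finset.mul_sum]
  field_simp

theorem Bcz_out0 {j : ℕ} {δ : ZMod 2} {α : Fin X.s} {v : V} (hv : v ∉ Y.S j δ α) : Y.out j δ α v = 0 := by
  unfold out fl
  refine Finset.sum_eq_zero fun u _ => ?_
  rw [if_neg (fun h => hv h.1)]

theorem Bcz_inf0 {j : ℕ} (hj : j < X.n) {δ : ZMod 2} {α : Fin X.s} {u : V} (hu : ¬ Y.ac j α u) :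
    Y.inf j δ α u = 0 := by
  unfold inf
  refine Finset.sum_eq_zero fun a _ => ?_
  by_contra h
  obtain ⟨_, _, _, h4, h5⟩ := Y.fl_ne hj h
  exact hu (Y.GG_ac hj h4 h5).1

theorem Bcz_acM {j : ℕ} {α : Fin X.s} {v : V} (h : ¬ Y.ac j α v) : ¬ Y.ac j α (X.M α v) := by
  intro h1
  have h2 := Y.ac_M h1
  rw [X.M_M] at h2
  exact h h2

theorem Bcz_fac0 (j : ℕ) (α : Fin X.s) (u : V) : Y.fac j 0 α u = 1 := by
  unfold fac
  rw [if_neg]
  decide

theorem Bcz_bk (k : ℕ) (hN : 0 < X.N) : X.bk (X.zl k) = k + 1 := by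
  unfold Cx.bk Cx.zl
  rw [Nat.add_sub_cancel]
  exact Nat.mul_div_cancel _ (pow_pos hN 3)

/-- the masses of an active node in the layer `j + 1` -/
theorem Bcz_m {j : ℕ} {τ : Fin 2} {δ : ZMod 2} {α : Fin X.s} {v : V} (hs : X.sd α v = δ) (ha : Y.ac j α v)
    (hv : X.M α v ≠ v) : Y.m (j + 1) τ δ α v =
      if τ = 0 ∧ X.isZ (j + 1) then
        (if δ = 0 then X.be (X.bk (j + 1) - 1) + Y.ar j 0 0 α (X.M α v) - Y.ar j 0 1 α v
          else X.be (X.bk (j + 1) - 1))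
      else Y.ar j τ δ α (X.M α v) := by
  have h1 : v ∈ X.nS Y.ds (Y.ω (j + 1)) δ α := by
    unfold Cx.nS
    rw [Finset.mem_filter]
    exact ⟨Finset.mem_univ v, hs, ha.1, ha.2⟩
  show (if v ∈ X.nS Y.ds (Y.ω (j + 1)) δ α then _ else _) = _
  rw [if_pos h1, if_neg hv]
  rfl

theorem Bcz_fac1 {j : ℕ} (hj : j + 1 < X.n) (α : Fin X.s) {v : V} (hv : X.M α v ≠ v) :
    Y.fac j 1 α v = (∑ w ∈ Y.GG (j + 1) 1 α (X.M α v), Y.fac (j + 1) 1 α w) /
      ((Y.GG (j + 1) 1 α (X.M α v)).card : ℝ) := by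
  unfold fac
  rw [if_pos rfl]
  have h1 : X.n - 1 - j = (X.n - 1 - (j + 1)) + 1 := by omega
  have h2 : X.n - 1 - (X.n - 1 - (j + 1)) = j + 1 := by omega
  rw [h1]
  generalize X.n - 1 - (j + 1) = i at *
  show (if X.M α v ≠ v then (∑ w ∈ Y.GG (X.n - 1 - i) 1 α (X.M α v), Y.fr α i w) /
      ((Y.GG (X.n - 1 - i) 1 α (X.M α v)).card : ℝ) else 1) = _
  rw [if_pos hv, h2]
  simp only [if_true]

theorem cons_z {k : ℕ} (hk : k < 8) (α : Fin X.s) (v : V) (hv : X.M α v ≠ v) (hs : X.sd α v = 0) :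
    Y.out (X.zl k) 0 α v - Y.inf (X.zl k - 1) 0 α (X.M α v) =
      Y.out (X.zl k) 1 α (X.M α v) - Y.inf (X.zl k - 1) 1 α v := by
  have hN : 0 < X.N := by
    have := Cx.N_big (X := X)
    by_contra h
    have h0 : X.N = 0 := by omega
    rw [h0] at this
    norm_num at this
  have hN3 : 0 < X.N ^ 3 := pow_pos hN 3
  have hzl : X.zl k - 1 + 1 = X.zl k := by
    unfold Cx.zl
    omega
  have hlt : X.zl k < X.n := by
    unfold Cx.zl Cx.n
    have : (k + 1) * X.N ^ 3 ≤ 8 * X.N ^ 3 := Nat.mul_le_mul_right _ (by omega)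
    omega
  have hbk := Bcz_bk (X := X) k hN
  have hZ : X.isZ (X.zl k) := ⟨k, hk, rfl⟩
  generalize hj : X.zl k - 1 = j at *
  rw [← hzl] at hlt hbk hZ ⊢
  have hj' : j < X.n := by omega
  have hxs : X.sd α (X.M α v) = 1 := by rw [X.M_sd hv, hs, zero_add]
  have hMx : X.M α (X.M α v) = v := X.M_M α v
  have hMx' : X.M α (X.M α v) ≠ X.M α v := by
    rw [hMx]
    exact hv.symm
  by_cases ha : Y.ac j α v
  · have hax : Y.ac j α (X.M α v) := Y.ac_M ha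
    have hv1 : v ∈ Y.S (j + 1) 0 α := (Y.S_succ j 0 α v).2 ⟨hs, ha⟩
    have hx1 : X.M α v ∈ Y.S (j + 1) 1 α := (Y.S_succ j 1 α (X.M α v)).2 ⟨hxs, hax⟩
    have hc : ((Y.GG (j + 1) 0 α v).card : ℝ) ≠ 0 := by
      have := Finset.card_pos.2 (Y.GG_ne hlt hv1)
      positivity
    rw [Y.Bcz_out hlt hv1, Y.Bcz_out hlt hx1, Y.Bcz_inf, Y.Bcz_inf, Y.Bcz_m hs ha hv, Y.Bcz_m hs ha hv,
      Y.Bcz_m hxs hax hMx', Y.Bcz_m hxs hax hMx', hMx, Y.Bcz_fac1 hlt α hv, hbk]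
    rw [Y.Bcz_fac0 j α (X.M α v), Finset.sum_congr rfl (fun u _ => Y.Bcz_fac0 (j + 1) α u)]
    rw [if_pos ⟨rfl, hZ⟩, if_pos rfl, if_neg (fun h => absurd h.1 (by decide)), if_pos ⟨rfl, hZ⟩,
      if_neg (show ¬ ((1 : ZMod 2) = 0) by decide), if_neg (fun h => absurd h.1 (by decide)),
      Finset.sum_const, nsmul_eq_mul, mul_one, div_self hc, Nat.add_sub_cancel]
    ring
  · have hax := Y.Bcz_acM ha
    have hv1 : v ∉ Y.S (j + 1) 0 α := fun h => ha ((Y.S_succ j 0 α v).1 h).2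
    have hx1 : X.M α v ∉ Y.S (j + 1) 1 α := fun h => hax ((Y.S_succ j 1 α (X.M α v)).1 h).2
    rw [Y.Bcz_out0 hv1, Y.Bcz_out0 hx1, Y.Bcz_inf0 hj' hax, Y.Bcz_inf0 hj' ha]

theorem cons_n (α : Fin X.s) (v : V) (hv : X.M α v ≠ v) (hs : X.sd α v = 0) :
    Y.inf (X.n - 1) 0 α (X.M α v) = Y.inf (X.n - 1) 1 α v := by
  have hn : X.n - 1 < X.n := by
    unfold Cx.n
    omega
  by_cases ha : Y.ac (X.n - 1) α v
  · rw [Y.Bcz_inf, Y.Bcz_inf, Y.Bcz_fac0]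
    have h1 : Y.fac (X.n - 1) 1 α v =
        (Y.ar (X.n - 1) 1 0 α (X.M α v) + Y.df (X.n - 1) α v) / Y.ar (X.n - 1) 1 1 α v := by
      unfold fac
      rw [if_pos rfl, Nat.sub_self]
      unfold fr
      rw [if_pos ⟨hv, ha⟩]
    have h2 : Y.ar (X.n - 1) 1 1 α v ≠ 0 := by
      have h3 := (Y.nu_f 1 α v (by rw [hs]; decide) ha hv).1
      have h4 : 0 < X.rho := by
        have h5 := (Cx.rho_bd (X := X)).1
        have h6 := Cx.pw_pos (X := X) (-2)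
        have h7 := Cx.N_big (X := X)
        have h8 : (0 : ℝ) < X.N := lt_of_lt_of_le (by norm_num) h7
        exact lt_of_lt_of_le (by positivity) h5
      have h9 : 0 < X.th := lt_of_lt_of_le (Cx.pw_pos (X := X) _) (Cx.th_bd (X := X)).1
      have h10 : 0 < X.rho / (36 * X.th) := by positivity
      linarith
    rw [h1, div_mul_cancel₀ _ h2]
    unfold df
    ring
  · rw [Y.Bcz_inf0 hn (Y.Bcz_acM ha), Y.Bcz_inf0 hn ha]

end An

end Pool.Agent.H2.LN
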