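/-
ROW Bld. The difference of the loads of a node.
PROOF. `a = v` (side 0), `b = M v` (side 1). By `side_z`: `ld a = ∑_j (out j 0 a + inf j 1 a)`, `ld b = ∑_j (out j 1 b + inf j 0 b)` (the sum over `δ : ZMod 2` is the sum over `0, 1`: `Fin.sum_univ_two`-like; `0 + 1 = 1`, `1 + 1 = 0`). `ld a - ld b = ∑_{j < n} (out j 0 a - out j 1 b) - ∑_{j < n} (inf j 0 b - inf j 1 a)`. Shift the first sum (`Finset.sum_range_succ'`): `out 0 0 a - out 0 1 b + ∑_{j < n-1} (out (j+1) 0 a - out (j+1) 1 b)`; the second (`sum_range_succ`): `∑_{j < n-1} (..) + (inf (n-1) 0 b - inf (n-1) 1 a)`, the last is `0` (`cons_n`).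
For each `j < n - 1`: `out (j+1) 0 a - out (j+1) 1 b = inf j 0 b - inf j 1 a`: ordinary layer: `cons_st` for `a` in direction 0 and for `b` in direction 1 (`M b = a`); Z-layer `j + 1 = zl k`: `cons_z`.
-/
import Pool.Agent.H2.LN.LD
import Pool.Agent.H2.LN.L.Bcz

set_option autoImplicit false
set_option linter.unusedSectionVars false

namespace Pool.Agent.H2.LN

open Finset Classical
open Pool.Agent.H65.GI

namespace An

variable {V : Type} [Fintype V] {X : Cx V} (Y : An X)

private theorem Bld_sum2 (f : ZMod 2 → ℝ) : ∑ δ : ZMod 2, f δ = f 0 + f 1 := Fin.sum_univ_two f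

theorem ld_diff (α : Fin X.s) (v : V) (hv : X.M α v ≠ v) (hs : X.sd α v = 0) :
    Y.ld α v - Y.ld α (X.M α v) = Y.out 0 0 α v - Y.out 0 1 α (X.M α v) := by
  have hsb : X.sd α (X.M α v) = 1 := by rw [X.M_sd hv, hs, zero_add]
  have hMM := X.M_M α v
  have hvM : X.M α (X.M α v) ≠ X.M α v := by rw [hMM]; exact fun h => hv h.symm
  have h01 : (0 : ZMod 2) ≠ 1 := zero_ne_one
  have hla : Y.ld α v = ∑ j ∈ range X.n, (Y.out j 0 α v + Y.inf j 1 α v) := by
    unfold ld
    rw [Bld_sum2, ← Finset.sum_add_distrib]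
    refine Finset.sum_congr rfl fun j hj => ?_
    have hj' := Finset.mem_range.1 hj
    rw [(Y.side_z hj' (δ := 0) (α := α) (v := v)).2 hs,
      (Y.side_z hj' (δ := 1) (α := α) (v := v)).1 (by rw [hs]; exact h01)]
    ring
  have hlb : Y.ld α (X.M α v) =
      ∑ j ∈ range X.n, (Y.out j 1 α (X.M α v) + Y.inf j 0 α (X.M α v)) := by
    unfold ld
    rw [Bld_sum2, ← Finset.sum_add_distrib]
    refine Finset.sum_congr rfl fun j hj => ?_
    have hj' := Finset.mem_range.1 hj
    rw [(Y.side_z hj' (δ := 1) (α := α) (v := X.M α v)).2 hsb,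
      (Y.side_z hj' (δ := 0) (α := α) (v := X.M α v)).1 (by rw [hsb]; exact h01.symm)]
    ring
  have hn : X.n = 9 * X.N ^ 3 + 1 := rfl
  have hlast := Y.cons_n α v hv hs
  rw [hn, Nat.add_sub_cancel] at hlast
  have hstep : ∀ j ∈ range (9 * X.N ^ 3),
      Y.out (j + 1) 0 α v - Y.out (j + 1) 1 α (X.M α v) =
        Y.inf j 0 α (X.M α v) - Y.inf j 1 α v := by
    intro j hj
    have hj' : j + 1 < X.n := by rw [hn]; have := Finset.mem_range.1 hj; omega
    by_cases hz : X.isZ (j + 1)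
    · obtain ⟨k, hk, hjk⟩ := hz
      have h1 := Y.cons_z hk α v hv hs
      rw [← hjk, Nat.add_sub_cancel] at h1
      linarith
    · have h1 := Y.cons_st hj' hz 0 α v hv
      have h2 := Y.cons_st hj' hz 1 α (X.M α v) hvM
      rw [hMM] at h2
      rw [h1, h2]
  have hsum := Finset.sum_congr (rfl : range (9 * X.N ^ 3) = _) hstep
  rw [Finset.sum_sub_distrib, Finset.sum_sub_distrib] at hsum
  rw [hla, hlb, hn, Finset.sum_add_distrib, Finset.sum_add_distrib,
    Finset.sum_range_succ' (fun j => Y.out j 0 α v), Finset.sum_range_succ' (fun j => Y.out j 1 α (X.M α v)),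
    Finset.sum_range_succ (fun j => Y.inf j 1 α v), Finset.sum_range_succ (fun j => Y.inf j 0 α (X.M α v)),
    hlast]
  linarith

end An

end Pool.Agent.H2.LN
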