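/-
ROW Bl1. Loads of special vertices.
PROOF. `fl j δ v u ≠ 0` gives `v ∈ S j` and `u ∈ GG j v`, `u ∉ ds`. Vertices of `ds` are never receivers and never senders of layers `≥ 1` (`S_succ`). `ld_W`: `v ∈ W`: `v ∈ ds`, and `v ∉ S 0` (unfold `st0`). `ld_def`: `M v ∈ W`, so `v ∈ ds` (and `M v ≠ v`): only `out 0 δ v` with `δ = sd v`: `v ∈ S 0 δ`, `m 0 0 = 1`, `m 0 1 = 0` (`Rs (M v)` would need `¬ W (M v)`: `Gd`), `out 0 = (∑_{GG} 1 / |GG|) = 1` (`GG_ne`). `ld_X`: `M v ≠ v`, both in `Rc`: `v ∈ disX`, and `v ∉ S 0`: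
`M v ≠ v`, `¬ W (M v)`, `Rs (M v)` needs `M (M v) = v ∉ Rc`. `ld_ge`: if `sd v = 0`: `ld v - ld (M v) = out 0 0 v - out 0 1 (M v)` (`ld_diff`), `out 0 0 v ≥ 0`, and `out 0 1 (M v) = 0`: `M v ∈ S 0 1` would need `M (M v) = M v` (no), `W (M (M v)) = W v` (no) or `Rs (M (M v)) = Rs v` (no). If `sd v = 1`: `ld_diff` for `M v` (`sd (M v) = 0`): `ld (M v) - ld v = out 0 0 (M v) - out 0 1 v ≤ 0` in the same way.
-/
import Pool.Agent.H2.LN.LD
import Pool.Agent.H2.LN.L.Bfl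
import Pool.Agent.H2.LN.L.Bld

set_option autoImplicit false
set_option linter.unusedSectionVars false

namespace Pool.Agent.H2.LN

open Finset Classical
open Pool.Agent.H65.GI

namespace An

variable {V : Type} [Fintype V] {X : Cx V} (Y : An X)

theorem Bl1_rec {α : Fin X.s} {v : V} (h : v ∈ Y.ds α) (j : ℕ) (δ : ZMod 2) (u : V) :
    Y.fl j δ α u v = 0 := by
  unfold fl
  rw [if_neg]
  rintro ⟨-, h2⟩
  unfold GG Cx.GG at h2
  rw [mem_filter] at h2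
  exact h2.2.1 h

theorem Bl1_sucS {α : Fin X.s} {v : V} (h : v ∈ Y.ds α) (j : ℕ) (δ : ZMod 2) :
    v ∉ Y.S (j + 1) δ α := by
  intro hS
  rw [S_succ] at hS
  exact hS.2.1 h

theorem Bl1_S0 (δ : ZMod 2) (α : Fin X.s) (v : V) : v ∈ Y.S 0 δ α ↔
    (X.sd α v = δ ∧ ¬ Wc X.p Y.c α v ∧
    (X.M α v = v ∨ Wc X.p Y.c α (X.M α v) ∨ Rs X.G X.p Y.c X.D X.M Y.Rc Y.al α (X.M α v))) := by
  have : Y.S 0 δ α = (X.st0 Y.c Y.φ Y.Rc Y.al).S δ α := rfl
  rw [this]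
  simp only [Cx.st0, mem_filter, mem_univ, true_and]

theorem Bl1_out0 {j : ℕ} {δ : ZMod 2} {α : Fin X.s} {v : V} (h : v ∉ Y.S j δ α) (u : V) :
    Y.fl j δ α v u = 0 := by
  unfold fl
  rw [if_neg]
  rintro ⟨h1, -⟩
  exact h h1

theorem Bl1_n : 0 < X.n := by unfold Cx.n; omega

theorem ld_def (α : Fin X.s) (v : V) (h : ¬ Wc X.p Y.c α v) (hM : Wc X.p Y.c α (X.M α v)) :
    Y.ld α v = 1 := by
  have hds : v ∈ Y.ds α := by
    unfold ds Cx.dis Cx.disW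
    rw [mem_union, mem_filter]
    exact Or.inl ⟨mem_univ _, Or.inr hM⟩
  have hinf : ∀ j δ, Y.inf j δ α v = 0 := fun j δ => by
    unfold inf
    exact sum_eq_zero fun u _ => Y.Bl1_rec hds j δ u
  have hout : ∀ j δ, Y.out (j + 1) δ α v = 0 := fun j δ => by
    unfold out
    exact sum_eq_zero fun u _ => Y.Bl1_out0 (Y.Bl1_sucS hds j δ) u
  have hne : X.M α v ≠ v := fun e => h (by rw [e] at hM; exact hM)
  have hout0 : ∀ δ, δ ≠ X.sd α v → Y.out 0 δ α v = 0 := fun δ hδ => by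
    unfold out
    refine sum_eq_zero fun u _ => Y.Bl1_out0 (fun hS => ?_) u
    rw [Bl1_S0] at hS
    exact hδ hS.1.symm
  have hS : v ∈ Y.S 0 (X.sd α v) α := by
    rw [Bl1_S0]
    exact ⟨rfl, h, Or.inr (Or.inl hM)⟩
  have hRs : ¬ Rs X.G X.p Y.c X.D X.M Y.Rc Y.al α (X.M α v) := by
    rintro ⟨-, -, hG, -, -⟩
    exact hG.2.1 hM
  have hm0 : Y.m 0 0 (X.sd α v) α v = 1 := by
    have : Y.m 0 0 (X.sd α v) α v = (X.st0 Y.c Y.φ Y.Rc Y.al).m 0 (X.sd α v) α v := rfl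
    rw [this]
    simp only [Cx.st0]
    rw [if_pos ⟨trivial, h⟩, if_pos trivial, if_neg hne, if_pos hM]
  have hm1 : Y.m 0 1 (X.sd α v) α v = 0 := by
    have : Y.m 0 1 (X.sd α v) α v = (X.st0 Y.c Y.φ Y.Rc Y.al).m 1 (X.sd α v) α v := rfl
    rw [this]
    simp only [Cx.st0]
    rw [if_pos ⟨trivial, h⟩, if_neg (by decide), if_neg hRs]
  have hO : Y.out 0 (X.sd α v) α v = 1 := by
    unfold out
    have hg := Y.GG_ne (Bl1_n (X := X)) hS
    have hc : ((Y.GG 0 (X.sd α v) α v).card : ℝ) ≠ 0 := by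
      have := hg.card_pos
      positivity
    have : ∀ u, Y.fl 0 (X.sd α v) α v u =
        if u ∈ Y.GG 0 (X.sd α v) α v then 1 / ((Y.GG 0 (X.sd α v) α v).card : ℝ) else 0 := by
      intro u
      unfold fl
      by_cases hu : u ∈ Y.GG 0 (X.sd α v) α v
      · rw [if_pos ⟨hS, hu⟩, if_pos hu, hm0, hm1]
        simp
      · rw [if_neg (fun hh => hu hh.2), if_neg hu]
    rw [sum_congr rfl (fun u _ => this u), sum_ite_mem, univ_inter, sum_const, nsmul_eq_mul]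
    field_simp
  unfold ld
  have hpos := Bl1_n (X := X)
  have h1 : ∀ δ : ZMod 2, ∑ j ∈ range X.n, (Y.out j δ α v + Y.inf j δ α v) = Y.out 0 δ α v := by
    intro δ
    rw [sum_eq_single_of_mem 0 (mem_range.2 hpos)]
    · rw [hinf, add_zero]
    · intro j _ hj
      obtain ⟨i, rfl⟩ := Nat.exists_eq_succ_of_ne_zero hj
      rw [hinf, add_zero]
      exact hout i δ
  rw [sum_congr rfl (fun δ _ => h1 δ), sum_eq_single_of_mem (X.sd α v) (mem_univ _)]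
  · exact hO
  · intro δ _ hδ
    exact hout0 δ hδ

theorem ld_W (α : Fin X.s) (v : V) (h : Wc X.p Y.c α v) : Y.ld α v = 0 := by
  have hds : v ∈ Y.ds α := by
    unfold ds Cx.dis Cx.disW
    rw [mem_union, mem_filter]
    exact Or.inl ⟨mem_univ _, Or.inl h⟩
  unfold ld
  refine sum_eq_zero fun δ _ => sum_eq_zero fun j _ => ?_
  have h1 : Y.inf j δ α v = 0 := by
    unfold inf
    exact sum_eq_zero fun u _ => Y.Bl1_rec hds j δ u
  have h2 : Y.out j δ α v = 0 := by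
    unfold out
    refine sum_eq_zero fun u _ => Y.Bl1_out0 ?_ u
    rcases j with _ | i
    · rw [Bl1_S0]
      exact fun hh => hh.2.1 h
    · exact Y.Bl1_sucS hds i δ
  rw [h1, h2, add_zero]

theorem Bl1_M0 (α : Fin X.s) (v : V) (hv : X.M α v ≠ v) (h : ¬ Wc X.p Y.c α v)
    (hR : ¬ Rs X.G X.p Y.c X.D X.M Y.Rc Y.al α v) (δ : ZMod 2) : Y.out 0 δ α (X.M α v) = 0 := by
  unfold out
  refine sum_eq_zero fun u _ => Y.Bl1_out0 ?_ u
  rw [Bl1_S0, X.M_M]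
  rintro ⟨-, -, hh | hh | hh⟩
  · exact hv hh.symm
  · exact h hh
  · exact hR hh

theorem ld_ge (α : Fin X.s) (v : V) (hv : X.M α v ≠ v) (h : ¬ Wc X.p Y.c α v)
    (hM : ¬ Wc X.p Y.c α (X.M α v)) (hR : ¬ Rs X.G X.p Y.c X.D X.M Y.Rc Y.al α v) :
    Y.ld α (X.M α v) ≤ Y.ld α v := by
  have hnn : ∀ δ, 0 ≤ Y.out 0 δ α v := fun δ => by
    unfold out
    exact sum_nonneg fun u _ => Y.fl_nn (Bl1_n (X := X)) δ α v u
  have h2 : X.sd α v = 0 ∨ X.sd α v = 1 := by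
    generalize X.sd α v = t
    revert t
    decide
  rcases h2 with hs | hs
  · have e := Y.ld_diff α v hv hs
    rw [Y.Bl1_M0 α v hv h hR] at e
    have := hnn 0
    linarith
  · have hv' : X.M α (X.M α v) ≠ X.M α v := by rw [X.M_M]; exact fun hh => hv hh.symm
    have hs' : X.sd α (X.M α v) = 0 := by
      rw [X.M_sd hv, hs]; decide
    have e := Y.ld_diff α (X.M α v) hv' hs'
    rw [X.M_M, Y.Bl1_M0 α v hv h hR] at e
    have := hnn 1
    linarith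

/-- no flow at the nodes with two coins -/
theorem ld_X (α : Fin X.s) (v : V) (hv : X.M α v ≠ v) (h : ¬ Wc X.p Y.c α v)
    (hM : ¬ Wc X.p Y.c α (X.M α v)) (h1 : v ∈ Y.Rc) (h2 : X.M α v ∈ Y.Rc) {j : ℕ} (hj : j < X.n)
    (δ : ZMod 2) (w : V) : Y.fl j δ α v w = 0 ∧ Y.fl j δ α w v = 0 := by
  have hds : v ∈ Y.ds α := by
    unfold ds Cx.dis Cx.disX
    rw [mem_union, mem_filter]
    exact Or.inr ⟨mem_univ _, hv, h1, h2⟩
  refine ⟨Y.Bl1_out0 ?_ w, Y.Bl1_rec hds j δ w⟩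
  rcases j with _ | i
  · rw [Bl1_S0]
    rintro ⟨-, -, hh | hh | hh⟩
    · exact hv hh
    · exact hM hh
    · obtain ⟨-, -, -, -, h5⟩ := hh
      rw [X.M_M] at h5
      exact h5 h1
  · exact Y.Bl1_sucS hds i δ

end An

end Pool.Agent.H2.LN
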