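/-
ROW Blb. The load of clean nodes.
PROOF. `out j δ v ≤ m j 0 v + 7 m j 1 v` and `= 0` if `v ∉ S j` (the average of `fac ≤ 7`: `fr_bd`, `GG_ac`); `inf j δ v ≤ ar j 0 v + 7 ar j 1 v` (`fac j δ α v ≤ 7` if `v ∈ GG a`). `j = 0`: `m 0 0 δ α v`: not `1` because `¬ W (M v)`: `≤ u α ≤ 1/1000`; `m 0 1 ≤ 1/16`: `out 0 ≤ 1/1000 + 7/16`; `inf 0 ≤ 8 N^80 pw (-2/5)` (`ar_0`). `j ≥ 1`: `out ≤ 8 pw (-39/100)` (`main_bd`, `nu_0`), `inf j ≤ 16 pw (-39/100)` (`ar_le` with `B = pw (-39/100)`).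
Only one `δ` contributes to `out 0` (`side_z`). Total `≤ 7/16 + 1/1000 + 16 N^80 pw (-2/5) + 2 n · 24 pw (-39/100) ≤ 3/5` (`pwN`).
-/
import Pool.Agent.H2.LN.LD
import Pool.Agent.H2.LN.L.Bfl
import Pool.Agent.H2.LN.L.Aay
import Pool.Agent.H2.LN.L.Aa0

set_option autoImplicit false
set_option linter.unusedSectionVars false

namespace Pool.Agent.H2.LN

open Finset Classical
open Pool.Agent.H65.GI

namespace An

variable {V : Type} [Fintype V] {X : Cx V} (Y : An X)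

theorem Blb_zmod2 (δ : ZMod 2) : δ = 0 ∨ δ = 1 := by
  revert δ
  decide

theorem Blb_pw0 : X.pw 0 = 1 := by
  unfold Cx.pw
  exact Real.rpow_zero _

/-- a power of `N` times a negative power of `Δ` -/
theorem Blb_small (k : ℕ) (x : ℝ) (h : ((k + 1 : ℕ) : ℝ) ≤ 40000 * x) : (X.N : ℝ) ^ k * X.pw (-x) ≤ 1 / 2 ^ 40 := by
  have hN := X.N_big
  have hN0 : (0 : ℝ) < X.N := lt_of_lt_of_le (by positivity) hN
  have h1 := X.pwN (k + 1) x h
  have h2 : X.pw x * X.pw (-x) = 1 := by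
    rw [X.pw_add, add_neg_cancel]
    exact Blb_pw0
  have hp := X.pw_pos (-x)
  have h3 : (X.N : ℝ) ^ (k + 1) * X.pw (-x) ≤ 1 := by
    calc (X.N : ℝ) ^ (k + 1) * X.pw (-x) ≤ X.pw x * X.pw (-x) := mul_le_mul_of_nonneg_right h1 hp.le
      _ = 1 := h2
  have h4 : (2 : ℝ) ^ 40 * ((X.N : ℝ) ^ k * X.pw (-x)) ≤ 1 := by
    calc (2 : ℝ) ^ 40 * ((X.N : ℝ) ^ k * X.pw (-x)) ≤ X.N * ((X.N : ℝ) ^ k * X.pw (-x)) :=
          mul_le_mul_of_nonneg_right hN (by positivity)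
      _ = (X.N : ℝ) ^ (k + 1) * X.pw (-x) := by ring
      _ ≤ 1 := h3
  rw [le_div_iff₀ (by positivity)]
  linarith

theorem Blb_fac {j : ℕ} (hj : j < X.n) {δ : ZMod 2} {α : Fin X.s} {v u : V} (hv : v ∈ Y.S j δ α)
    (hu : u ∈ Y.GG j δ α v) : Y.fac j δ α u ≤ 7 := by
  unfold fac
  split_ifs with hd
  · obtain ⟨h1, h2, -⟩ := Y.GG_ac hj hv hu
    subst hd
    have h2' : X.sd α u = 0 := by
      rw [h2]
      decide
    have h3 : X.n - 1 - (X.n - 1 - j) = j := by omega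
    exact (Y.fr_bd α (i := X.n - 1 - j) (by omega) u h2' (by rw [h3]; exact h1)).2
  · norm_num

theorem Blb_fl_le {j : ℕ} (hj : j < X.n) (δ : ZMod 2) (α : Fin X.s) (v u : V) :
    Y.fl j δ α v u ≤ if v ∈ Y.S j δ α ∧ u ∈ Y.GG j δ α v then
      (Y.m j 0 δ α v + 7 * Y.m j 1 δ α v) / ((Y.GG j δ α v).card : ℝ) else 0 := by
  unfold fl
  split_ifs with h
  · have h1 := Y.Blb_fac hj h.1 h.2
    have h2 := (Y.nu_0 hj δ α v).1
    apply div_le_div_of_nonneg_right _ (by positivity)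
    nlinarith
  · exact le_rfl

theorem Blb_out {j : ℕ} (hj : j < X.n) (δ : ZMod 2) (α : Fin X.s) (v : V) :
    Y.out j δ α v ≤ Y.m j 0 δ α v + 7 * Y.m j 1 δ α v := by
  have hm0 := (Y.main_bd hj δ α v).1
  have hm1 := (Y.nu_0 hj δ α v).1
  unfold out
  refine (Finset.sum_le_sum fun u _ => Y.Blb_fl_le hj δ α v u).trans ?_
  by_cases hv : v ∈ Y.S j δ α
  · have h1 : ∀ u, (if v ∈ Y.S j δ α ∧ u ∈ Y.GG j δ α v then
        (Y.m j 0 δ α v + 7 * Y.m j 1 δ α v) / ((Y.GG j δ α v).card : ℝ) else 0) =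
        if u ∈ Y.GG j δ α v then (Y.m j 0 δ α v + 7 * Y.m j 1 δ α v) / ((Y.GG j δ α v).card : ℝ) else 0 := by
      intro u
      simp [hv]
    rw [Finset.sum_congr rfl fun u _ => h1 u, ← Finset.sum_filter]
    rw [Finset.sum_const, nsmul_eq_mul]
    have h2 : (univ.filter fun u => u ∈ Y.GG j δ α v) = Y.GG j δ α v := by
      ext u
      simp
    rw [h2]
    by_cases h3 : ((Y.GG j δ α v).card : ℝ) = 0
    · rw [h3]
      simp
      positivity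
    · rw [mul_div_cancel₀ _ h3]
  · simp only [hv, false_and, if_false, Finset.sum_const_zero]
    positivity

theorem Blb_inf {j : ℕ} (hj : j < X.n) (δ : ZMod 2) (α : Fin X.s) (u : V) :
    Y.inf j δ α u ≤ Y.ar j 0 δ α u + 7 * Y.ar j 1 δ α u := by
  unfold inf
  refine (Finset.sum_le_sum fun v _ => Y.Blb_fl_le hj δ α v u).trans ?_
  rw [← Finset.sum_filter]
  have h1 : (univ.filter fun v => v ∈ Y.S j δ α ∧ u ∈ Y.GG j δ α v) =
      (Y.S j δ α).filter (fun v => u ∈ Y.GG j δ α v) := by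
    ext v
    simp
  rw [h1]
  unfold ar Cx.arr
  rw [Finset.mul_sum, ← Finset.sum_add_distrib]
  refine le_of_eq (Finset.sum_congr rfl fun v _ => ?_)
  unfold m GG
  ring

theorem Blb_ar1 {j : ℕ} (hj : j < X.n) (h1 : 1 ≤ j) (τ : Fin 2) (δ : ZMod 2) (α : Fin X.s) (u : V) :
    Y.ar j τ δ α u ≤ 2 * X.pw (-(39 : ℝ) / 100) := by
  refine (le_abs_self _).trans (Y.ar_le hj τ (B := X.pw (-(39 : ℝ) / 100)) ?_ δ α u)
  intro δ' α' a
  fin_cases τ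
  · have h := Y.main_bd hj δ' α' a
    show |Y.m j 0 δ' α' a| ≤ _
    rw [abs_of_nonneg h.1]
    exact h.2 h1
  · have h := Y.nu_0 hj δ' α' a
    show |Y.m j 1 δ' α' a| ≤ _
    rw [abs_of_nonneg h.1]
    exact h.2.2 h1

theorem Blb_m0 (δ : ZMod 2) (α : Fin X.s) (v : V) (hM : ¬ Wc X.p Y.c α (X.M α v)) :
    Y.m 0 0 δ α v ≤ Y.u α := by
  have hu := (Y.u_bd α).1
  have h : Y.m 0 0 δ α v = if X.sd α v = δ ∧ ¬ Wc X.p Y.c α v then
      (if X.M α v = v then X.ub Y.φ α else if Wc X.p Y.c α (X.M α v) then 1 else 0) else 0 := by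
    unfold m t
    simp [Cx.sq, Cx.st0]
  rw [h]
  unfold u at hu ⊢
  split_ifs
  · exact le_rfl
  · exact hu
  · exact hu

theorem Blb_j1 {j : ℕ} (hj : j < X.n) (h1 : 1 ≤ j) (δ : ZMod 2) (α : Fin X.s) (v : V) :
    Y.out j δ α v + Y.inf j δ α v ≤ 24 * X.pw (-(39 : ℝ) / 100) := by
  have a1 := Y.Blb_out hj δ α v
  have a2 := Y.Blb_inf hj δ α v
  have a3 := Y.Blb_ar1 hj h1 0 δ α v
  have a4 := Y.Blb_ar1 hj h1 1 δ α v
  have a5 := (Y.main_bd hj δ α v).2 h1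
  have a6 := (Y.nu_0 hj δ α v).2.2 h1
  linarith

theorem Blb_j0 (α : Fin X.s) (v : V) (hM : ¬ Wc X.p Y.c α (X.M α v)) :
    ∑ δ : ZMod 2, (Y.out 0 δ α v + Y.inf 0 δ α v) ≤
      Y.u α + 7 / 16 + 16 * (X.N ^ 80 * X.pw (-(2 : ℝ) / 5)) := by
  have hn : 0 < X.n := by
    unfold Cx.n
    omega
  have key : ∀ δ : ZMod 2, Y.inf 0 δ α v ≤ 8 * (X.N ^ 80 * X.pw (-(2 : ℝ) / 5)) := by
    intro δ
    have a1 := Y.Blb_inf hn δ α v
    have a2 := (Y.ar_0 0 δ α v).2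
    have a3 := (Y.ar_0 1 δ α v).2
    linarith
  have ko : ∀ δ : ZMod 2, Y.out 0 δ α v ≤ if X.sd α v = δ then Y.u α + 7 / 16 else 0 := by
    intro δ
    split_ifs with h
    · have a1 := Y.Blb_out hn δ α v
      have a2 := Y.Blb_m0 δ α v hM
      have a3 := (Y.nu_0 hn δ α v).2.1
      linarith
    · exact le_of_eq ((Y.side_z hn).1 h)
  rw [Finset.sum_add_distrib]
  have s1 : ∑ δ : ZMod 2, Y.out 0 δ α v ≤ Y.u α + 7 / 16 := by
    refine (Finset.sum_le_sum fun δ _ => ko δ).trans ?_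
    rw [Finset.sum_ite_eq]
    simp
  have s2 : ∑ δ : ZMod 2, Y.inf 0 δ α v ≤ 16 * (X.N ^ 80 * X.pw (-(2 : ℝ) / 5)) := by
    refine (Finset.sum_le_sum fun δ _ => key δ).trans ?_
    rw [Finset.sum_const, Finset.card_univ, nsmul_eq_mul]
    have hc : (Fintype.card (ZMod 2) : ℝ) = 2 := by
      rw [ZMod.card]
      norm_num
    rw [hc]
    linarith
  linarith

/-- the loads of clean nodes -/
theorem ld_bd (α : Fin X.s) (v : V) (h : ¬ Wc X.p Y.c α v) (hM : ¬ Wc X.p Y.c α (X.M α v)) :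
    Y.ld α v ≤ 3 / 5 := by
  have hn : 0 < X.n := by
    unfold Cx.n
    omega
  unfold ld
  have hsplit : ∀ δ : ZMod 2, ∑ j ∈ range X.n, (Y.out j δ α v + Y.inf j δ α v) ≤
      (Y.out 0 δ α v + Y.inf 0 δ α v) + X.n * (24 * X.pw (-(39 : ℝ) / 100)) := by
    intro δ
    obtain ⟨k, hk⟩ : ∃ k, X.n = k + 1 := ⟨X.n - 1, by omega⟩
    rw [hk, Finset.sum_range_succ', add_comm]
    refine add_le_add le_rfl ?_
    have hb : ∀ j ∈ range k, Y.out (j + 1) δ α v + Y.inf (j + 1) δ α v ≤ 24 * X.pw (-(39 : ℝ) / 100) := by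
      intro j hj
      have := Finset.mem_range.1 hj
      exact Y.Blb_j1 (by omega) (by omega) δ α v
    refine (Finset.sum_le_sum hb).trans ?_
    rw [Finset.sum_const, Finset.card_range, nsmul_eq_mul]
    have := X.pw_pos (-(39 : ℝ) / 100)
    push_cast
    nlinarith
  have h1 := Y.Blb_j0 α v hM
  have h2 : ∑ δ : ZMod 2, ∑ j ∈ range X.n, (Y.out j δ α v + Y.inf j δ α v) ≤
      ∑ δ : ZMod 2, ((Y.out 0 δ α v + Y.inf 0 δ α v) + X.n * (24 * X.pw (-(39 : ℝ) / 100))) :=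
    Finset.sum_le_sum fun δ _ => hsplit δ
  rw [Finset.sum_add_distrib, Finset.sum_const, Finset.card_univ, nsmul_eq_mul] at h2
  have hc : (Fintype.card (ZMod 2) : ℝ) = 2 := by
    rw [ZMod.card]
    norm_num
  rw [hc] at h2
  have hu := (Y.u_bd α).2
  have e1 : (X.N : ℝ) ^ 15 * X.pw (-1) ≤ 1 / 2 ^ 40 := Blb_small 15 1 (by norm_num)
  have e2 : (X.N : ℝ) ^ 80 * X.pw (-(2 : ℝ) / 5) ≤ 1 / 2 ^ 40 := by
    have := Blb_small (X := X) 80 (2 / 5) (by norm_num)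
    rwa [show -(2 / 5 : ℝ) = -(2 : ℝ) / 5 by ring] at this
  have e3 : (X.N : ℝ) ^ 4 * X.pw (-(39 : ℝ) / 100) ≤ 1 / 2 ^ 40 := by
    have := Blb_small (X := X) 4 (39 / 100) (by norm_num)
    rwa [show -(39 / 100 : ℝ) = -(39 : ℝ) / 100 by ring] at this
  have hN := X.N_big
  have e4 : (X.n : ℝ) ≤ (X.N : ℝ) ^ 4 := by
    unfold Cx.n
    push_cast
    have hN0 : (0 : ℝ) ≤ (X.N : ℝ) ^ 3 := by positivity
    have hN1 : (1 : ℝ) ≤ (X.N : ℝ) ^ 3 := by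
      have : (1 : ℝ) ≤ X.N := le_trans (by norm_num) hN
      exact one_le_pow₀ this
    have : (X.N : ℝ) ^ 4 = X.N * (X.N : ℝ) ^ 3 := by ring
    rw [this]
    have : (10 : ℝ) * (X.N : ℝ) ^ 3 ≤ X.N * (X.N : ℝ) ^ 3 :=
      mul_le_mul_of_nonneg_right (le_trans (by norm_num) hN) hN0
    linarith
  have hp := X.pw_pos (-(39 : ℝ) / 100)
  have e5 : (X.n : ℝ) * X.pw (-(39 : ℝ) / 100) ≤ 1 / 2 ^ 40 :=
    (mul_le_mul_of_nonneg_right e4 hp.le).trans e3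
  have e6 : 2 * ((X.n : ℝ) * (24 * X.pw (-(39 : ℝ) / 100))) = 48 * ((X.n : ℝ) * X.pw (-(39 : ℝ) / 100)) := by ring
  have e7 : (2 : ℝ) * X.N ^ 15 * X.pw (-1) = 2 * ((X.N : ℝ) ^ 15 * X.pw (-1)) := by ring
  rw [e6] at h2
  rw [e7] at hu
  norm_num at e1 e2 e5 ⊢
  linarith

end An

end Pool.Agent.H2.LN
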