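/-
ROW Bxd. Different labels use different edges.
PROOF. `xx α v w ≠ 0`: (a) `M α v = w ≠ v`, or (b) some `fl j δ α v w ≠ 0` or `fl j δ α w v ≠ 0`, `j < n`. Suppose `xx β v w ≠ 0` too. (a)(a): `base.dis`. (a)(b): `w ∈ R β δ j v` (or `v ∈ R β δ j w`, so by `R_symm` the same) but `M α v = w`: `R_M`. (b)(b): `w ∈ R α δ j v`, `w ∈ R β δ' j' v`: `R_dj`, `kap_inj`: `crd α = crd β`, `δ = δ'`, `j = j'`, so `sd α = sd β` (as functions). `fl j δ α v w ≠ 0` means `sd v = δ`, `fl j δ α w v ≠ 0` means `sd w = δ`, `sd v = δ + 1`: so both labels have the same orientation, say `v → w`: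
`v ∈ S_α`, `w ∈ GG_α v`, `v ∈ S_β`, `w ∈ GG_β v`: `w ∈ GG_α v` requires `¬ cn β w` (`β ≠ α`, same coordinate, `v ∈ S_β`), `w ∈ GG_β v` requires `cn β w`.
-/
import Pool.Agent.H2.LN.LD
import Pool.Agent.H2.LN.L.Bfl
import Pool.Agent.H2.LN.L.Lbs

set_option autoImplicit false
set_option linter.unusedSectionVars false

namespace Pool.Agent.H2.LN

open Finset Classical
open Pool.Agent.H65.GI

namespace An

variable {V : Type} [Fintype V] {X : Cx V} (Y : An X)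

theorem Bxd_use (α : Fin X.s) (v w : V) (h : Y.xx α v w ≠ 0) : (X.M α v = w ∧ w ≠ v) ∨
    ∃ (δ : ZMod 2) (j : ℕ), j < X.n ∧ (Y.fl j δ α v w ≠ 0 ∨ Y.fl j δ α w v ≠ 0) := by
  by_contra hc
  rw [not_or] at hc
  obtain ⟨h1, h2⟩ := hc
  apply h
  unfold An.xx
  rw [if_neg (fun hh => h1 ⟨hh.1, hh.2.1⟩), add_zero]
  refine Finset.sum_eq_zero fun δ _ => Finset.sum_eq_zero fun j hj => ?_
  rw [mem_range] at hj
  have h3 : Y.fl j δ α v w = 0 := by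
    by_contra h4
    exact h2 ⟨δ, j, hj, Or.inl h4⟩
  have h4 : Y.fl j δ α w v = 0 := by
    by_contra h4
    exact h2 ⟨δ, j, hj, Or.inr h4⟩
  rw [h3, h4, add_zero]

theorem Bxd_eq {α β : Fin X.s} {v w : V} {δ δ' : ZMod 2} {j j' : ℕ} (hj : j < X.n) (hj' : j' < X.n)
    (h1 : w ∈ X.R α δ j v) (h2 : w ∈ X.R β δ' j' v) : X.crd α = X.crd β ∧ δ = δ' ∧ j = j' :=
  X.kap_inj hj.le hj'.le (X.R_dj h1 h2)

theorem Bxd_o {α β : Fin X.s} {v w : V} {δ δ' : ZMod 2} {j j' : ℕ} (hj : j < X.n) (hj' : j' < X.n)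
    (h1 : Y.fl j δ α v w ≠ 0) (h2 : Y.fl j' δ' β v w ≠ 0) (h : α ≠ β) : False := by
  obtain ⟨-, -, a1, a2, a3⟩ := Y.fl_ne hj h1
  obtain ⟨-, -, b1, b2, b3⟩ := Y.fl_ne hj' h2
  obtain ⟨c1, c2, c3⟩ := Bxd_eq hj hj' a1 b1
  subst c2
  subst c3
  have e1 := (mem_filter.1 a3).2.2.2 β h.symm c1.symm b2
  exact e1 (mem_filter.1 b3).2.2.1

theorem Bxd_r {α β : Fin X.s} {v w : V} {δ δ' : ZMod 2} {j j' : ℕ} (hj : j < X.n) (hj' : j' < X.n)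
    (h1 : Y.fl j δ α v w ≠ 0) (h2 : Y.fl j' δ' β w v ≠ 0) : False := by
  obtain ⟨a0, -, a1, -, -⟩ := Y.fl_ne hj h1
  obtain ⟨-, b0, b1, -, -⟩ := Y.fl_ne hj' h2
  obtain ⟨c1, c2, -⟩ := Bxd_eq hj hj' a1 (X.R_symm b1)
  subst c2
  have e : X.sd α v = X.sd β v := by
    unfold Cx.sd
    rw [c1]
  rw [← e, a0] at b0
  have : ∀ x : ZMod 2, x = x + 1 → False := by decide
  exact this δ b0

theorem Bxd_M {α β : Fin X.s} {v w : V} (h1 : X.M α v = w) {δ : ZMod 2} {j : ℕ} (hj : j < X.n)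
    (h2 : Y.fl j δ β v w ≠ 0 ∨ Y.fl j δ β w v ≠ 0) : False := by
  rcases h2 with h2 | h2
  · exact X.R_M (Y.fl_ne hj h2).2.2.1 h1
  · exact X.R_M (X.R_symm (Y.fl_ne hj h2).2.2.1) h1

/-- different labels use different edges -/
theorem xx_dj (α β : Fin X.s) (v w : V) (h : α ≠ β) (h1 : Y.xx α v w ≠ 0) : Y.xx β v w = 0 := by
  by_contra h2
  rcases Y.Bxd_use α v w h1 with ⟨a1, a2⟩ | ⟨δ, j, hj, a1⟩
  · rcases Y.Bxd_use β v w h2 with ⟨b1, b2⟩ | ⟨δ', j', hj', b1⟩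
    · exact X.base.dis α β v h (by rw [a1]; exact a2) (by rw [a1, b1])
    · exact Y.Bxd_M a1 hj' b1
  · rcases Y.Bxd_use β v w h2 with ⟨b1, b2⟩ | ⟨δ', j', hj', b1⟩
    · exact Y.Bxd_M b1 hj a1
    · rcases a1 with a1 | a1
      · rcases b1 with b1 | b1
        · exact Y.Bxd_o hj hj' a1 b1 h
        · exact Y.Bxd_r hj hj' a1 b1
      · rcases b1 with b1 | b1
        · exact Y.Bxd_r hj' hj b1 a1
        · exact Y.Bxd_o hj hj' a1 b1 h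

end An

end Pool.Agent.H2.LN
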