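/-
ROW Bxx. The fractional matching.
PROOF. `xx_nn`: `fl_nn`; `1 - max ≥ 0` by `ld_bd` (`M w = v`, `M v = w`, both not in `W`). `xx_sy`: `add_comm`; `M v = w ∧ w ≠ v ↔ M w = v ∧ v ≠ w` (`M_M`), `max_comm`. `xx_sd`: `fl_ne` (`sd` differ by 1), `M_sd`. Row sum: `∑_w xx v w = ld v + (if M v ≠ v ∧ ¬W v ∧ ¬W (M v) then 1 - max (ld v) (ld (M v)) else 0)` (`Finset.sum_add_distrib`, `Finset.sum_comm`; only `w = M v` in the second part). `xx_le`: clean node: `≤ 1`; otherwise `W v`: `0`; `M v = v`, `¬ W v`: `ld_bd` (`W (M v) = W v`); `W (M v)`: `ld_def`: `1`.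
`xx_eq`: clean: `ld (M v) ≤ ld v` (`ld_ge`), so the sum is `1`; `W (M v)`: `ld_def`. `xx_W`: `ld_W` gives that all flows at `v` are `0` (or directly: `v ∈ ds`, `v ∉ S 0`), the last part needs `¬ W v`.
-/
import Pool.Agent.H2.LN.LD
import Pool.Agent.H2.LN.L.Bl1
import Pool.Agent.H2.LN.L.Blb

set_option autoImplicit false
set_option linter.unusedSectionVars false

namespace Pool.Agent.H2.LN

open Finset Classical
open Pool.Agent.H65.GI

namespace An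

variable {V : Type} [Fintype V] {X : Cx V} (Y : An X)

/-- the flow part -/
noncomputable def Bxx_fl (α : Fin X.s) (v w : V) : ℝ :=
  ∑ δ : ZMod 2, ∑ j ∈ range X.n, (Y.fl j δ α v w + Y.fl j δ α w v)

/-- the matching part -/
noncomputable def Bxx_mt (α : Fin X.s) (v w : V) : ℝ :=
  if X.M α v = w ∧ w ≠ v ∧ ¬ Wc X.p Y.c α v ∧ ¬ Wc X.p Y.c α w then 1 - max (Y.ld α v) (Y.ld α w) else 0

theorem Bxx_eq (α : Fin X.s) (v w : V) : Y.xx α v w = Y.Bxx_fl α v w + Y.Bxx_mt α v w := rfl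

theorem Bxx_fl_nn (α : Fin X.s) (v w : V) : 0 ≤ Y.Bxx_fl α v w := by
  unfold Bxx_fl
  exact sum_nonneg fun δ _ => sum_nonneg fun j hj =>
    add_nonneg (Y.fl_nn (mem_range.1 hj) δ α v w) (Y.fl_nn (mem_range.1 hj) δ α w v)

theorem Bxx_mt_nn (α : Fin X.s) (v w : V) : 0 ≤ Y.Bxx_mt α v w := by
  unfold Bxx_mt
  split_ifs with h
  · obtain ⟨h1, h2, h3, h4⟩ := h
    subst h1
    have e1 := Y.ld_bd α v h3 h4
    have e2 := Y.ld_bd α (X.M α v) h4 (by rw [X.M_M]; exact h3)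
    have := max_le e1 e2
    linarith
  · exact le_rfl

theorem Bxx_fl_sum (α : Fin X.s) (v : V) : ∑ w, Y.Bxx_fl α v w = Y.ld α v := by
  unfold Bxx_fl ld out inf
  rw [sum_comm]
  refine sum_congr rfl fun δ _ => ?_
  rw [sum_comm]
  refine sum_congr rfl fun j _ => ?_
  rw [sum_add_distrib]

theorem Bxx_mt_sum (α : Fin X.s) (v : V) : ∑ w, Y.Bxx_mt α v w =
    if X.M α v ≠ v ∧ ¬ Wc X.p Y.c α v ∧ ¬ Wc X.p Y.c α (X.M α v) then
      1 - max (Y.ld α v) (Y.ld α (X.M α v)) else 0 := by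
  rw [sum_eq_single (X.M α v)]
  · unfold Bxx_mt
    simp only [true_and]
  · intro w _ hw
    unfold Bxx_mt
    rw [if_neg]
    rintro ⟨h, -⟩
    exact hw h.symm
  · intro h
    exact absurd (mem_univ _) h

theorem Bxx_sum (α : Fin X.s) (v : V) : ∑ w, Y.xx α v w = Y.ld α v +
    if X.M α v ≠ v ∧ ¬ Wc X.p Y.c α v ∧ ¬ Wc X.p Y.c α (X.M α v) then
      1 - max (Y.ld α v) (Y.ld α (X.M α v)) else 0 := by
  simp only [Bxx_eq, sum_add_distrib, Bxx_fl_sum, Bxx_mt_sum]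

theorem xx_nn (α : Fin X.s) (v w : V) : 0 ≤ Y.xx α v w := by
  rw [Bxx_eq]
  exact add_nonneg (Y.Bxx_fl_nn α v w) (Y.Bxx_mt_nn α v w)

theorem xx_sy (α : Fin X.s) (v w : V) : Y.xx α v w = Y.xx α w v := by
  rw [Bxx_eq, Bxx_eq]
  congr 1
  · unfold Bxx_fl
    exact sum_congr rfl fun δ _ => sum_congr rfl fun j _ => add_comm _ _
  · unfold Bxx_mt
    rw [max_comm (Y.ld α v)]
    by_cases h : X.M α v = w ∧ w ≠ v ∧ ¬ Wc X.p Y.c α v ∧ ¬ Wc X.p Y.c α w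
    · rw [if_pos h, if_pos]
      obtain ⟨h1, h2, h3, h4⟩ := h
      refine ⟨?_, h2.symm, h4, h3⟩
      rw [← h1, X.M_M]
    · rw [if_neg h, if_neg]
      rintro ⟨h1, h2, h3, h4⟩
      refine h ⟨?_, h2.symm, h4, h3⟩
      rw [← h1, X.M_M]

theorem xx_sd (α : Fin X.s) (v w : V) (h : Y.xx α v w ≠ 0) : X.sd α v ≠ X.sd α w := by
  intro he
  apply h
  rw [Bxx_eq]
  have hz : ∀ a : ZMod 2, a ≠ a + 1 := by decide
  have h1 : Y.Bxx_fl α v w = 0 := by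
    unfold Bxx_fl
    refine sum_eq_zero fun δ _ => sum_eq_zero fun j hj => ?_
    have hj' := mem_range.1 hj
    have a1 : Y.fl j δ α v w = 0 := by
      by_contra hc
      obtain ⟨b1, b2, -⟩ := Y.fl_ne hj' hc
      rw [← he, b1] at b2
      exact hz δ b2
    have a2 : Y.fl j δ α w v = 0 := by
      by_contra hc
      obtain ⟨b1, b2, -⟩ := Y.fl_ne hj' hc
      rw [he, b1] at b2
      exact hz δ b2
    rw [a1, a2, add_zero]
  have h2 : Y.Bxx_mt α v w = 0 := by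
    unfold Bxx_mt
    rw [if_neg]
    rintro ⟨b1, b2, -⟩
    have b3 := X.M_sd (α := α) (v := v) (by rw [b1]; exact b2)
    rw [b1, ← he] at b3
    exact hz _ b3
  rw [h1, h2, add_zero]

theorem xx_le (α : Fin X.s) (v : V) : ∑ w, Y.xx α v w ≤ 1 := by
  rw [Bxx_sum]
  split_ifs with h
  · have := le_max_left (Y.ld α v) (Y.ld α (X.M α v))
    linarith
  · rw [add_zero]
    by_cases hW : Wc X.p Y.c α v
    · rw [Y.ld_W α v hW]
      exact zero_le_one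
    · by_cases hM : Wc X.p Y.c α (X.M α v)
      · rw [Y.ld_def α v hW hM]
      · exact (Y.ld_bd α v hW hM).trans (by norm_num)

theorem xx_eq (α : Fin X.s) (v : V) (h : ¬ Wc X.p Y.c α v) (hv : X.M α v ≠ v)
    (hR : ¬ Rs X.G X.p Y.c X.D X.M Y.Rc Y.al α v) : ∑ w, Y.xx α v w = 1 := by
  rw [Bxx_sum]
  by_cases hM : Wc X.p Y.c α (X.M α v)
  · rw [if_neg (fun hc => hc.2.2 hM), add_zero, Y.ld_def α v h hM]
  · rw [if_pos ⟨hv, h, hM⟩, max_eq_left (Y.ld_ge α v hv h hM hR)]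
    ring

theorem xx_W (α : Fin X.s) (v w : V) (h : Wc X.p Y.c α v) : Y.xx α v w = 0 := by
  rw [Bxx_eq]
  have h1 : Y.Bxx_mt α v w = 0 := by
    unfold Bxx_mt
    rw [if_neg (fun hc => hc.2.2.1 h)]
  have h2 : Y.Bxx_fl α v w = 0 := by
    have h3 := Y.Bxx_fl_sum α v
    rw [Y.ld_W α v h] at h3
    exact (sum_eq_zero_iff_of_nonneg (fun w _ => Y.Bxx_fl_nn α v w)).1 h3 w (mem_univ w)
  rw [h1, h2, add_zero]

end An

end Pool.Agent.H2.LN
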