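/-
ROW Bmt. The matchings.
PROOF. For every `α`: `frac_match` (H65/GI/Fit) with `side v = decide (X.sd α v = 0)` (in `ZMod 2`, `sd v ≠ sd w` gives different sides) and `wt = Y.xx α`: an involution `M' α` with `xx α v (M' α v) ≠ 0` if `M' α v ≠ v`, and `M' α v ≠ v` if the row sum is `1`. `choose`. `adj`: `xx ≠ 0` gives adjacency (`M_adj`, `R_adj` via `fl_ne`). `dis`: `xx_dj`. `avo`: `xx_W`. `cov`: if `M v ≠ v` and `¬ Rs v` then the row sum is `1` (`xx_eq`). `x`: `M v ≠ v`, `v, M v ∈ Rc`, not in `W`: all flows at `v` vanish (`ld_X`), so `xx v w ≠ 0` only for `w = M v`;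
`¬ Rs v` (`Rs v` needs `M v ∉ Rc`), so the row sum is `1`, `M' v ≠ v`, hence `M' v = M v`.
-/
import Pool.Agent.H2.LN.LD
import Pool.Agent.H2.LN.L.Bxx
import Pool.Agent.H2.LN.L.Bxd
import Pool.Agent.H65.GI.Fit

set_option autoImplicit false
set_option linter.unusedSectionVars false

namespace Pool.Agent.H2.LN

open Finset Classical
open Pool.Agent.H65.GI

namespace An

variable {V : Type} [Fintype V] {X : Cx V} (Y : An X)

theorem Bmt_z (a b : ZMod 2) (h : a ≠ b) : ¬ (a = 0 ↔ b = 0) := by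
  revert a b
  decide

theorem Bmt_adj {α : Fin X.s} {v w : V} (h : Y.xx α v w ≠ 0) : X.G.Adj v w := by
  unfold xx at h
  by_cases hM : X.M α v = w ∧ w ≠ v ∧ ¬ Wc X.p Y.c α v ∧ ¬ Wc X.p Y.c α w
  · obtain ⟨h1, h2, -, -⟩ := hM
    subst h1
    exact X.M_adj h2
  · rw [if_neg hM, add_zero] at h
    obtain ⟨δ, -, h1⟩ := Finset.exists_ne_zero_of_sum_ne_zero h
    obtain ⟨j, hj, h2⟩ := Finset.exists_ne_zero_of_sum_ne_zero h1
    have hj' := Finset.mem_range.mp hj
    by_cases h3 : Y.fl j δ α v w = 0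
    · rw [h3, zero_add] at h2
      exact (X.R_adj (Y.fl_ne hj' h2).2.2.1).symm
    · exact X.R_adj (Y.fl_ne hj' h3).2.2.1

theorem mat : ∃ M' : Fin X.s → V → V, Top.Mat X.G X.p Y.c X.D X.M Y.Rc Y.al M' := by
  have h := fun α : Fin X.s => frac_match (fun v => decide (X.sd α v = 0)) (Y.xx α)
    (Y.xx_nn α) (Y.xx_sy α) (fun u v h => by
      intro h'
      exact Bmt_z _ _ (Y.xx_sd α u v h) (decide_eq_decide.mp h')) (Y.xx_le α)
  choose M' h1 h2 h3 using h
  refine ⟨M', h1, fun α v h => Bmt_adj Y (h2 α v h), ?_, ?_, ?_, ?_⟩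
  · intro α β v hab hv heq
    have h4 := h2 α v hv
    have h5 : M' β v ≠ v := by
      rw [← heq]
      exact hv
    have h6 := h2 β v h5
    rw [← heq] at h6
    exact h6 (Y.xx_dj α β v _ hab h4)
  · intro α v hW
    by_contra hv
    exact h2 α v hv (Y.xx_W α v _ hW)
  · intro α v hW hv
    by_contra hc
    rw [not_or] at hc
    exact h3 α v (Y.xx_eq α v hW hc.1 hc.2) hv
  · intro α v hv hW hW' hR hR'
    have hRs : ¬ Rs X.G X.p Y.c X.D X.M Y.Rc Y.al α v := fun h => h.2.2.2.2 hR'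
    have h4 := h3 α v (Y.xx_eq α v hW hv hRs)
    have h5 := h2 α v h4
    by_contra hne
    apply h5
    unfold xx
    rw [if_neg (fun h => hne h.1.symm), add_zero]
    refine Finset.sum_eq_zero fun δ _ => Finset.sum_eq_zero fun j hj => ?_
    have h6 := Y.ld_X α v hv hW hW' hR hR' (Finset.mem_range.mp hj) δ (M' α v)
    rw [h6.1, h6.2, add_zero]

end An

end Pool.Agent.H2.LN
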