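/-
ROW Len. Enumeration of the error functions.
PROOF. `RF_en X` gives `κ0, e0`. `κ := κ0 × Fin (n + 1)` (`i` = number of pull-backs), `e b (k, i) α δ j :=` the `i`-fold pull-back of `gE c Rc α δ (j + i) (e0 b k α δ (j + i))` to layer `j`: define by recursion `pb i F` : `pb 0 J F = F`, `pb (i+1) J F = T α δ (J - i - 1) (pb i J F)` (function at layer `J - i - 1`).
Claim by induction on `EF`: `EF α δ j F` implies there are `b k i`, `r`, `P` with `RF α δ (j + i) r P`, `P = e0 b k α δ (j + i)`, `P` supported in `bl b (2 r)`, `F` the `i`-fold pull-back, `j + i < n` (`RF_rj`: even `r + (j + i) < n`), `F` supported in `bl b (2 r + 2 + 2 i)`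
(`gE P a ≠ 0` gives `A P a ≠ 0` or `P b ≠ 0` for some `b ∈ R a`, in both cases `a` is adjacent to a point of the support of `P`: `bl_adj`; `T` adds 2 as in `T0_ball`). `2 r + 2 + 2 i ≤ 2 n ≤ 20 N ^ 3`, `bl_mono`. `|κ| ≤ N ^ 10 (n + 1) ≤ N ^ 20`.
-/
import Pool.Agent.H2.LN.LD
import Pool.Agent.H2.LN.L.Lef
import Pool.Agent.H2.LN.L.Lre
import Pool.Agent.H2.LN.L.Lnm
import Pool.Agent.H2.LN.L.Lrf
import Pool.Agent.H2.LN.L.Lbs
import Pool.Agent.H65.GI.Lll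

set_option autoImplicit false
set_option linter.unusedSectionVars false

namespace Pool.Agent.H2.LN

open Finset Classical
open Pool.Agent.H65.GI

namespace Cx

variable {V : Type} [Fintype V] {X : Cx V} {c : V → ℕ} {Rc : Finset V}

private noncomputable def Len_pb (X : Cx V) (α : Fin X.s) (δ : ZMod 2) : ℕ → ℕ → (V → ℝ) → V → ℝ
  | 0, _, F => F
  | i + 1, J, F => X.T α δ (J - i - 1) (Len_pb X α δ i J F)

private theorem Len_A {α : Fin X.s} {δ : ZMod 2} {j : ℕ} {P : V → ℝ} {a : V}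
    (h : X.A α δ j P a ≠ 0) : ∃ y ∈ X.R α δ j a, P y ≠ 0 := by
  by_contra hc
  push Not at hc
  apply h
  unfold A
  rw [Finset.sum_eq_zero hc, zero_div]

private theorem Len_Ab {α : Fin X.s} {δ : ZMod 2} {j : ℕ} {P : V → ℝ} {b : V} {ρ : ℕ}
    (hP : ∀ x, P x ≠ 0 → x ∈ bl X.G b ρ) {a : V} (h : X.A α δ j P a ≠ 0) :
    a ∈ bl X.G b (ρ + 1) := by
  obtain ⟨y, hy, h1⟩ := Len_A h
  exact bl_adj X.G (hP y h1) (R_adj X hy).symm

private theorem Len_T {α : Fin X.s} {δ : ZMod 2} {j : ℕ} {F : V → ℝ} {b : V} {ρ : ℕ}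
    (hF : ∀ x, F x ≠ 0 → x ∈ bl X.G b ρ) {a : V} (h : X.T α δ j F a ≠ 0) :
    a ∈ bl X.G b (ρ + 2) := by
  unfold T at h
  refine Len_Ab (b := b) (ρ := ρ + 1) ?_ h
  intro x hx
  unfold mv at hx
  by_cases hM : X.M α x ≠ x
  · rw [if_pos hM] at hx
    exact bl_adj X.G (hF _ hx) (M_adj X hM).symm
  · rw [if_neg hM] at hx
    exact absurd rfl hx

private theorem Len_g {α : Fin X.s} {δ : ZMod 2} {j : ℕ} {P : V → ℝ} {b : V} {ρ : ℕ}
    (hP : ∀ x, P x ≠ 0 → x ∈ bl X.G b ρ) {a : V} (h : X.gE c Rc α δ j P a ≠ 0) :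
    a ∈ bl X.G b (ρ + 1) := by
  by_cases hA : X.A α δ j P a = 0
  · by_cases hy : ∃ y ∈ X.R α δ j a, P y ≠ 0
    · obtain ⟨y, hy, h1⟩ := hy
      exact bl_adj X.G (hP y h1) (R_adj X hy).symm
    · push Not at hy
      exfalso
      apply h
      unfold gE gB gD
      rw [hA, Finset.sum_eq_zero (fun y hy' => hy y (Finset.mem_filter.1 hy').1)]
      simp
  · exact Len_Ab hP hA

private theorem Len_claim (κ0 : Type) (e0 : V → κ0 → Fin X.s → ZMod 2 → ℕ → V → ℝ)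
    (he : ∀ α δ j r P, X.RF α δ j r P → ∃ b k, e0 b k α δ j = P ∧
      ∀ x, P x ≠ 0 → x ∈ bl X.G b (2 * r)) {α : Fin X.s} {δ : ZMod 2} {j : ℕ} {F : V → ℝ}
    (h : X.EF c Rc α δ j F) : ∃ (b : V) (k : κ0) (i r : ℕ) (P : V → ℝ), X.RF α δ (j + i) r P ∧
      e0 b k α δ (j + i) = P ∧ (∀ x, F x ≠ 0 → x ∈ bl X.G b (2 * r + 2 + 2 * i)) ∧
      Len_pb X α δ i (j + i) (X.gE c Rc α δ (j + i) P) = F := by
  induction h with
  | bs j r P hr hP =>
    obtain ⟨b, k, h1, h2⟩ := he α δ j r P hP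
    refine ⟨b, k, 0, r, P, hP, h1, ?_, rfl⟩
    intro x hx
    exact bl_mono X.G b (by omega) (Len_g h2 hx)
  | pl j F hF ih =>
    obtain ⟨b, k, i, r, P, h1, h2, h3, h4⟩ := ih
    have e : j + 1 + i = j + (i + 1) := by omega
    rw [e] at h1 h2 h4
    refine ⟨b, k, i + 1, r, P, h1, h2, ?_, ?_⟩
    · intro x hx
      exact bl_mono X.G b (by omega) (Len_T h3 hx)
    · have e2 : j + (i + 1) - i - 1 = j := by omega
      change X.T α δ (j + (i + 1) - i - 1) (Len_pb X α δ i (j + (i + 1)) _) = _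
      rw [h4, e2]

/-- the error functions with an index set; near the point `b` -/
theorem EF_en (X : Cx V) (c : V → ℕ) (Rc : Finset V) : ∃ (κ : Type) (_ : Fintype κ)
    (e : V → κ → Fin X.s → ZMod 2 → ℕ → V → ℝ), (Fintype.card κ : ℝ) ≤ X.N ^ 20 ∧
    ∀ α δ j F, X.EF c Rc α δ j F → ∃ b k, e b k α δ j = F ∧
      ∀ x, F x ≠ 0 → x ∈ bl X.G b (20 * X.N ^ 3) := by
  obtain ⟨κ0, i0, e0, hc, he⟩ := RF_en X
  have hN : (2 : ℝ) ^ 40 ≤ X.N := N_big X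
  have hN1 : 2 ^ 40 ≤ X.N := by exact_mod_cast hN
  have hN3 : 1 ≤ X.N ^ 3 := Nat.one_le_pow _ _ (by omega)
  refine ⟨κ0 × Fin (X.n + 1), inferInstance, fun b k α δ j =>
    Len_pb X α δ (k.2 : ℕ) (j + k.2) (X.gE c Rc α δ (j + k.2) (e0 b k.1 α δ (j + k.2))), ?_, ?_⟩
  · rw [Fintype.card_prod, Fintype.card_fin]
    push_cast
    have h1 : ((X.n : ℕ) : ℝ) = 9 * (X.N : ℝ) ^ 3 + 1 := by
      unfold n
      push_cast
      ring
    have h2 : ((X.n : ℕ) : ℝ) + 1 ≤ (X.N : ℝ) ^ 10 := by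
      rw [h1]
      have h3 : (1 : ℝ) ≤ (X.N : ℝ) ^ 3 := by exact_mod_cast hN3
      have h4 : (11 : ℝ) ≤ (X.N : ℝ) ^ 7 := by
        have : (2 ^ 40 : ℝ) ^ 7 ≤ (X.N : ℝ) ^ 7 := pow_le_pow_left₀ (by norm_num) hN 7
        refine le_trans ?_ this
        norm_num
      calc 9 * (X.N : ℝ) ^ 3 + 1 + 1 ≤ (X.N : ℝ) ^ 3 * 11 := by linarith
        _ ≤ (X.N : ℝ) ^ 3 * (X.N : ℝ) ^ 7 := mul_le_mul_of_nonneg_left h4 (by positivity)
        _ = (X.N : ℝ) ^ 10 := by ring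
    calc (Fintype.card κ0 : ℝ) * ((X.n : ℝ) + 1) ≤ (X.N : ℝ) ^ 10 * (X.N : ℝ) ^ 10 :=
          mul_le_mul hc h2 (by positivity) (by positivity)
      _ = (X.N : ℝ) ^ 20 := by ring
  · intro α δ j F hF
    obtain ⟨b, k, i, r, P, h1, h2, h3, h4⟩ := Len_claim κ0 e0 he hF
    have hrj := RF_rj h1
    have hn : X.n = 9 * X.N ^ 3 + 1 := rfl
    refine ⟨b, (k, ⟨i, by omega⟩), ?_, ?_⟩
    · change Len_pb X α δ i (j + i) (X.gE c Rc α δ (j + i) (e0 b k α δ (j + i))) = F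
      rw [h2, h4]
    · intro x hx
      exact bl_mono X.G b (by omega) (h3 x hx)

end Cx

end Pool.Agent.H2.LN
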