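/-
ROW Lcb. The bilinear functions.
PROOF. `cb P x y = mv α (T0 α δ j (gy P y)) x`. `cb_nn`: `gy_nn`, `T0_nn`. `cb_row`: `∑_y cb P x y = mv (T0 (∑_y gy P y)) x` (`T0_sum` with `K = univ`; if `M x = x` both sides are `0`) `≤ 6 mv (T0 (A P)) x` (`gy_sum`, `T0_mono`, `T0_smul`). `cb_l1`: `∑_x mv (T0 (A P)) x = ∑ nd .. ≤ ∑ T0 (A P) ≤ ∑ A P ≤ 1` (`mv_sum`, `T0_l1`, `A_sum_le`, `RF_l1`).
`cb_rw`: `(∑_y cb)^2 ≤ 36 (mv (T0 (A P)) x) ^ 2`, `mv_l2`, `T0_l2`, `RF_l2` (`n3 ≤ r + 1`): `36 N ^ 3 / (2 Δ ^ 12)`. `cb_cm`: `∑_x cb P x y ≤ ∑_a T0 (gy P y) a ≤ ∑_a gy P y a = (2 / dd) ∑_{a ∈ R y} A P a + |R y| P y / dd + [M y ≠ y] (the same at M y) ≤ 2 Q y + P y + 2 Q (M y) + P (M y)` with `Q := A α δ j (A α δ j P)`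
(`R_symm`, `T0_l1`, `mv_sum`). The square sum: `(2 a + b + 2 c + d)^2 ≤ 6 (2 a^2 + b^2 + 2 c^2 + d^2)` (Cauchy-Schwarz), `∑ Q ^ 2 ≤ ∑ (A P) ^ 2`, reindex by `M α`: total `≤ 6 (4 ∑ (A P)^2 + 2 ∑ P^2) ≤ 36 N ^ 3 / (2 Δ ^ 12)` (`RF_l2`, `RF_l2'`).
`cb_ball`: `T0 (gy P y) (M x) ≠ 0`. `gy P y a ≠ 0` implies that `a` or a vertex of `R a` is near the support: `A P a ≠ 0` or `P y ≠ 0` or `P (M y) ≠ 0`, together with `y ∈ R a` or `M y ∈ R a`: in all cases `a ∈ bl b (k + 1)` and `y ∈ bl b (k + 3)` (`bl_adj`, `R_adj`, `M_adj`, and `a ∈ R y` by `R_symm`). `T0_ball` with `k + 1`: `M x ∈ bl b (k + 1 + 2 j)`; `x` adjacent.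
For `y`: if `T0 (gy P y) (M x) ≠ 0` then `gy P y ≠ 0` somewhere (`T0_nn`-type: `T0` of the zero function is zero by `T0_smul` with `k = 0` or `T0_ball`).
-/
import Pool.Agent.H2.LN.LD
import Pool.Agent.H2.LN.L.Lgy
import Pool.Agent.H2.LN.L.Lt0
import Pool.Agent.H2.LN.L.Lrn
import Pool.Agent.H65.GI.Lll

set_option autoImplicit false
set_option linter.unusedSectionVars false

namespace Pool.Agent.H2.LN

open Finset Classical
open Pool.Agent.H65.GI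

namespace Cx

variable {V : Type} [Fintype V] {X : Cx V} {c : V → ℕ} {Rc : Finset V}

theorem Lcb_eq (α : Fin X.s) (δ : ZMod 2) (j : ℕ) (P : V → ℝ) (x y : V) :
    X.cb α δ j P x y = if X.M α x ≠ x then X.T0 α δ j (X.gy α δ j P y) (X.M α x) else 0 := rfl

theorem Lcb_mv (α : Fin X.s) (F : V → ℝ) (x : V) :
    X.mv α F x = if X.M α x ≠ x then F (X.M α x) else 0 := rfl

theorem Lcb_nd_le {α : Fin X.s} {F : V → ℝ} (h : ∀ x, 0 ≤ F x) :
    ∑ x, X.mv α F x ≤ ∑ x, F x := by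
  rw [mv_sum]
  refine Finset.sum_le_sum (fun x _ => ?_)
  have e : X.nd α F x = if X.M α x ≠ x then F x else 0 := rfl
  rw [e]
  split_ifs
  · exact le_refl _
  · exact h x

theorem cb_nn {α : Fin X.s} {δ : ZMod 2} {j : ℕ} {P : V → ℝ} (h : ∀ x, 0 ≤ P x) (x y : V) :
    0 ≤ X.cb α δ j P x y := by
  rw [Lcb_eq]
  split_ifs
  · exact T0_nn (fun a => gy_nn h y a) _
  · exact le_refl _

theorem cb_row {α : Fin X.s} {δ : ZMod 2} {j r : ℕ} {P : V → ℝ} (h : X.RF α δ j r P) (x : V) :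
    ∑ y, X.cb α δ j P x y ≤ 6 * X.mv α (X.T0 α δ j (X.A α δ j P)) x := by
  by_cases hM : X.M α x ≠ x
  · have e1 : ∑ y, X.cb α δ j P x y = ∑ y, X.T0 α δ j (X.gy α δ j P y) (X.M α x) := by
      refine Finset.sum_congr rfl (fun y _ => ?_)
      rw [Lcb_eq, if_pos hM]
    rw [e1, Lcb_mv, if_pos hM, ← T0_sum, ← T0_smul]
    exact T0_mono (fun a => gy_sum (RF_nn h) a) _
  · have e1 : ∑ y, X.cb α δ j P x y = 0 := by
      refine Finset.sum_eq_zero (fun y _ => ?_)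
      rw [Lcb_eq, if_neg hM]
    rw [e1, Lcb_mv, if_neg hM, mul_zero]

theorem cb_l1 {α : Fin X.s} {δ : ZMod 2} {j r : ℕ} {P : V → ℝ} (h : X.RF α δ j r P) :
    ∑ x, ∑ y, X.cb α δ j P x y ≤ 6 := by
  have hA : ∀ a, 0 ≤ X.A α δ j P a := fun a => A_nn (RF_nn h) a
  have hT : ∀ a, 0 ≤ X.T0 α δ j (X.A α δ j P) a := fun a => T0_nn hA a
  calc ∑ x, ∑ y, X.cb α δ j P x y
      ≤ ∑ x, 6 * X.mv α (X.T0 α δ j (X.A α δ j P)) x := Finset.sum_le_sum (fun x _ => cb_row h x)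
    _ = 6 * ∑ x, X.mv α (X.T0 α δ j (X.A α δ j P)) x := by rw [Finset.mul_sum]
    _ ≤ 6 * ∑ x, X.T0 α δ j (X.A α δ j P) x :=
        mul_le_mul_of_nonneg_left (Lcb_nd_le hT) (by norm_num)
    _ ≤ 6 * ∑ x, X.A α δ j P x := mul_le_mul_of_nonneg_left (T0_l1 hA) (by norm_num)
    _ ≤ 6 * ∑ x, P x := mul_le_mul_of_nonneg_left (A_sum_le (RF_nn h)) (by norm_num)
    _ ≤ 6 * 1 := mul_le_mul_of_nonneg_left (RF_l1 h) (by norm_num)
    _ = 6 := by norm_num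

theorem cb_rw {α : Fin X.s} {δ : ZMod 2} {j r : ℕ} {P : V → ℝ} (h : X.RF α δ j r P) (hr : X.n3 ≤ r) :
    ∑ x, (∑ y, X.cb α δ j P x y) ^ 2 ≤ 18 * X.N ^ 3 / (X.Δ : ℝ) ^ 12 := by
  have h2 := RF_l2 h (le_trans hr (Nat.le_succ r))
  calc ∑ x, (∑ y, X.cb α δ j P x y) ^ 2
      ≤ ∑ x, 36 * X.mv α (X.T0 α δ j (X.A α δ j P)) x ^ 2 := by
        refine Finset.sum_le_sum (fun x _ => ?_)
        have h0 : 0 ≤ ∑ y, X.cb α δ j P x y := Finset.sum_nonneg (fun y _ => cb_nn (RF_nn h) x y)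
        have h1 := cb_row h x
        calc (∑ y, X.cb α δ j P x y) ^ 2 ≤ (6 * X.mv α (X.T0 α δ j (X.A α δ j P)) x) ^ 2 :=
              pow_le_pow_left₀ h0 h1 2
          _ = 36 * X.mv α (X.T0 α δ j (X.A α δ j P)) x ^ 2 := by ring
    _ = 36 * ∑ x, X.mv α (X.T0 α δ j (X.A α δ j P)) x ^ 2 := by rw [Finset.mul_sum]
    _ ≤ 36 * ∑ x, X.T0 α δ j (X.A α δ j P) x ^ 2 :=
        mul_le_mul_of_nonneg_left (mv_l2 α _) (by norm_num)
    _ ≤ 36 * ∑ x, X.A α δ j P x ^ 2 := mul_le_mul_of_nonneg_left (T0_l2 α δ j _) (by norm_num)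
    _ ≤ 36 * (X.N ^ 3 / (2 * (X.Δ : ℝ) ^ 12)) := mul_le_mul_of_nonneg_left h2 (by norm_num)
    _ = 18 * X.N ^ 3 / (X.Δ : ℝ) ^ 12 := by
        rw [← mul_div_assoc, mul_comm (2 : ℝ), ← div_div]
        ring

/-- the column sums of the error functions -/
theorem Lcb_half {α : Fin X.s} {δ : ZMod 2} {j : ℕ} {P : V → ℝ} (h : ∀ x, 0 ≤ P x) (y : V) :
    ∑ a, (if y ∈ X.R α δ j a then 2 / X.dd * X.A α δ j P a + P y / X.dd else 0) ≤
      2 * X.A α δ j (X.A α δ j P) y + P y := by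
  have hd : 0 ≤ X.dd := Nat.cast_nonneg _
  have e1 : ∑ a, (if y ∈ X.R α δ j a then 2 / X.dd * X.A α δ j P a + P y / X.dd else 0) =
      ∑ a ∈ X.R α δ j y, (2 / X.dd * X.A α δ j P a + P y / X.dd) := by
    rw [← Finset.sum_filter]
    refine Finset.sum_congr ?_ (fun _ _ => rfl)
    ext a
    rw [Finset.mem_filter]
    constructor
    · intro ha
      exact X.R_symm ha.2
    · intro ha
      exact ⟨Finset.mem_univ _, X.R_symm ha⟩
  have e2 : X.A α δ j (X.A α δ j P) y = (∑ b ∈ X.R α δ j y, X.A α δ j P b) / X.dd := rfl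
  rw [e1, Finset.sum_add_distrib, ← Finset.mul_sum, Finset.sum_const, nsmul_eq_mul, e2]
  refine add_le_add (le_of_eq (by ring)) ?_
  have h1 := X.R_card_le α δ j y
  have hP := h y
  by_cases h0 : X.dd = 0
  · rw [h0, div_zero, mul_zero]
    exact hP
  · have hpos : 0 < X.dd := lt_of_le_of_ne hd (Ne.symm h0)
    rw [← mul_div_assoc, div_le_iff₀ hpos, mul_comm]
    exact mul_le_mul_of_nonneg_left h1 hP

theorem Lcb_col {α : Fin X.s} {δ : ZMod 2} {j : ℕ} {P : V → ℝ} (h : ∀ x, 0 ≤ P x) (y : V) :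
    ∑ x, X.cb α δ j P x y ≤ 2 * X.A α δ j (X.A α δ j P) y + P y +
      2 * X.A α δ j (X.A α δ j P) (X.M α y) + P (X.M α y) := by
  have hg : ∀ a, 0 ≤ X.gy α δ j P y a := fun a => gy_nn h y a
  have h1 : ∑ x, X.cb α δ j P x y ≤ ∑ a, X.gy α δ j P y a :=
    le_trans (Lcb_nd_le (F := X.T0 α δ j (X.gy α δ j P y)) (fun a => T0_nn hg a)) (T0_l1 hg)
  have hAA : ∀ z, 0 ≤ X.A α δ j (X.A α δ j P) z := fun z => A_nn (fun a => A_nn h a) z
  have h2 : ∑ a, X.gy α δ j P y a =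
      ∑ a, (if y ∈ X.R α δ j a then 2 / X.dd * X.A α δ j P a + P y / X.dd else 0) +
      ∑ a, (if X.M α y ≠ y ∧ X.M α y ∈ X.R α δ j a then
        2 / X.dd * X.A α δ j P a + P (X.M α y) / X.dd else 0) := by
    rw [← Finset.sum_add_distrib]
    exact Finset.sum_congr rfl (fun _ _ => rfl)
  have h3 : ∑ a, (if X.M α y ≠ y ∧ X.M α y ∈ X.R α δ j a then
        2 / X.dd * X.A α δ j P a + P (X.M α y) / X.dd else 0) ≤
      2 * X.A α δ j (X.A α δ j P) (X.M α y) + P (X.M α y) := by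
    by_cases hM : X.M α y ≠ y
    · have e : ∑ a, (if X.M α y ≠ y ∧ X.M α y ∈ X.R α δ j a then
          2 / X.dd * X.A α δ j P a + P (X.M α y) / X.dd else 0) =
          ∑ a, (if X.M α y ∈ X.R α δ j a then
          2 / X.dd * X.A α δ j P a + P (X.M α y) / X.dd else 0) := by
        refine Finset.sum_congr rfl (fun a _ => ?_)
        by_cases hm : X.M α y ∈ X.R α δ j a
        · rw [if_pos ⟨hM, hm⟩, if_pos hm]
        · rw [if_neg (fun hh => hm hh.2), if_neg hm]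
      rw [e]
      exact Lcb_half h (X.M α y)
    · have e : ∑ a, (if X.M α y ≠ y ∧ X.M α y ∈ X.R α δ j a then
          2 / X.dd * X.A α δ j P a + P (X.M α y) / X.dd else 0) = 0 :=
        Finset.sum_eq_zero (fun a _ => if_neg (fun hh => hM hh.1))
      rw [e]
      have := hAA (X.M α y)
      have := h (X.M α y)
      linarith
  have h4 := Lcb_half (X := X) (α := α) (δ := δ) (j := j) h y
  linarith

theorem Lcb_re (α : Fin X.s) (F : V → ℝ) : ∑ y, F (X.M α y) = ∑ y, F y := by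
  have hb : Function.Bijective (X.M α) :=
    Function.Involutive.bijective (fun v => X.M_M α v)
  exact Function.Bijective.sum_comp hb F

theorem cb_cm {α : Fin X.s} {δ : ZMod 2} {j r : ℕ} {P : V → ℝ} (h : X.RF α δ j r P) (hr : X.n3 ≤ r) :
    ∑ y, (∑ x, X.cb α δ j P x y) ^ 2 ≤ 18 * X.N ^ 3 / (X.Δ : ℝ) ^ 12 := by
  have h2 := RF_l2 h (le_trans hr (Nat.le_succ r))
  have h2' := RF_l2' h hr
  have hQ : ∑ y, X.A α δ j (X.A α δ j P) y ^ 2 ≤ X.N ^ 3 / (2 * (X.Δ : ℝ) ^ 12) :=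
    le_trans (A_l2 α δ j _) h2
  have hQM : ∑ y, X.A α δ j (X.A α δ j P) (X.M α y) ^ 2 ≤ X.N ^ 3 / (2 * (X.Δ : ℝ) ^ 12) := by
    rw [Lcb_re α (fun y => X.A α δ j (X.A α δ j P) y ^ 2)]
    exact hQ
  have hPM : ∑ y, P (X.M α y) ^ 2 ≤ X.N ^ 3 / (2 * (X.Δ : ℝ) ^ 12) := by
    rw [Lcb_re α (fun y => P y ^ 2)]
    exact h2'
  have h3 : ∑ y, (∑ x, X.cb α δ j P x y) ^ 2 ≤
      ∑ y, 6 * (2 * X.A α δ j (X.A α δ j P) y ^ 2 + P y ^ 2 +
        2 * X.A α δ j (X.A α δ j P) (X.M α y) ^ 2 + P (X.M α y) ^ 2) := by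
    refine Finset.sum_le_sum (fun y _ => ?_)
    have h0 : 0 ≤ ∑ x, X.cb α δ j P x y := Finset.sum_nonneg (fun x _ => cb_nn (RF_nn h) x y)
    refine le_trans (pow_le_pow_left₀ h0 (Lcb_col (RF_nn h) y) 2) ?_
    generalize X.A α δ j (X.A α δ j P) y = a
    generalize X.A α δ j (X.A α δ j P) (X.M α y) = c
    generalize P y = b
    generalize P (X.M α y) = d
    nlinarith [sq_nonneg (a - b), sq_nonneg (a - c), sq_nonneg (a - d), sq_nonneg (b - c),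
      sq_nonneg (b - d), sq_nonneg (c - d)]
  refine le_trans h3 ?_
  have e : ∑ y, 6 * (2 * X.A α δ j (X.A α δ j P) y ^ 2 + P y ^ 2 +
        2 * X.A α δ j (X.A α δ j P) (X.M α y) ^ 2 + P (X.M α y) ^ 2) =
      6 * (2 * ∑ y, X.A α δ j (X.A α δ j P) y ^ 2 + ∑ y, P y ^ 2 +
        2 * ∑ y, X.A α δ j (X.A α δ j P) (X.M α y) ^ 2 + ∑ y, P (X.M α y) ^ 2) := by
    rw [← Finset.mul_sum, Finset.sum_add_distrib, Finset.sum_add_distrib, Finset.sum_add_distrib,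
      ← Finset.mul_sum, ← Finset.mul_sum]
  rw [e]
  have e2 : 18 * (X.N : ℝ) ^ 3 / (X.Δ : ℝ) ^ 12 = 36 * (X.N ^ 3 / (2 * (X.Δ : ℝ) ^ 12)) := by
    rw [← mul_div_assoc, mul_comm (2 : ℝ), ← div_div]
    ring
  rw [e2]
  linarith

theorem Lcb_gy {α : Fin X.s} {δ : ZMod 2} {j : ℕ} {P : V → ℝ} {b : V} {k : ℕ}
    (h : ∀ x, P x ≠ 0 → x ∈ bl X.G b k) (y a : V) (ha : X.gy α δ j P y a ≠ 0) :
    a ∈ bl X.G b (k + 1) ∧ y ∈ bl X.G b (k + 3) := by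
  have hA : X.A α δ j P a ≠ 0 → a ∈ bl X.G b (k + 1) := by
    intro hne
    have h1 : ∑ z ∈ X.R α δ j a, P z ≠ 0 := by
      intro h0
      apply hne
      have e : X.A α δ j P a = (∑ z ∈ X.R α δ j a, P z) / X.dd := rfl
      rw [e, h0, zero_div]
    obtain ⟨z, hz, hPz⟩ := Finset.exists_ne_zero_of_sum_ne_zero h1
    exact bl_adj X.G (h z hPz) (X.R_adj hz).symm
  have key : ∀ u : V, u ∈ X.R α δ j a → 2 / X.dd * X.A α δ j P a + P u / X.dd ≠ 0 →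
      a ∈ bl X.G b (k + 1) ∧ u ∈ bl X.G b (k + 2) := by
    intro u hu hne
    have h1 : a ∈ bl X.G b (k + 1) := by
      by_cases h2 : X.A α δ j P a = 0
      · have h3 : P u ≠ 0 := by
          intro h0
          apply hne
          rw [h2, h0, mul_zero, zero_div, add_zero]
        exact bl_adj X.G (h u h3) (X.R_adj hu).symm
      · exact hA h2
    exact ⟨h1, bl_adj X.G h1 (X.R_adj hu)⟩
  have e : X.gy α δ j P y a =
      (if y ∈ X.R α δ j a then 2 / X.dd * X.A α δ j P a + P y / X.dd else 0) +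
      (if X.M α y ≠ y ∧ X.M α y ∈ X.R α δ j a then
        2 / X.dd * X.A α δ j P a + P (X.M α y) / X.dd else 0) := rfl
  rw [e] at ha
  by_cases h1 : (if y ∈ X.R α δ j a then 2 / X.dd * X.A α δ j P a + P y / X.dd else 0) = 0
  · rw [h1, zero_add] at ha
    by_cases h2 : X.M α y ≠ y ∧ X.M α y ∈ X.R α δ j a
    · rw [if_pos h2] at ha
      obtain ⟨h3, h4⟩ := key _ h2.2 ha
      exact ⟨h3, bl_adj X.G h4 (X.M_adj h2.1).symm⟩
    · exact absurd (if_neg h2) ha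
  · by_cases h2 : y ∈ X.R α δ j a
    · rw [if_pos h2] at h1
      obtain ⟨h3, h4⟩ := key _ h2 h1
      exact ⟨h3, bl_mono X.G b (by omega) h4⟩
    · exact absurd (if_neg h2) h1

theorem cb_ball {α : Fin X.s} {δ : ZMod 2} {j : ℕ} {P : V → ℝ} {b : V} {k : ℕ}
    (h : ∀ x, P x ≠ 0 → x ∈ bl X.G b k) (x y : V) (hxy : X.cb α δ j P x y ≠ 0) :
    x ∈ bl X.G b (k + 2 * j + 4) ∧ y ∈ bl X.G b (k + 4) := by
  rw [Lcb_eq] at hxy
  by_cases hM : X.M α x ≠ x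
  · rw [if_pos hM] at hxy
    constructor
    · have h1 := T0_ball (k := k + 1) (fun a ha => (Lcb_gy h y a ha).1) (X.M α x) hxy
      have h2 := bl_adj X.G h1 (X.M_adj hM).symm
      exact bl_mono X.G b (by omega) h2
    · by_contra hy
      apply hxy
      have h0 : ∀ a, X.gy α δ j P y a = 0 := by
        intro a
        by_contra ha
        exact hy (bl_mono X.G b (by omega) (Lcb_gy h y a ha).2)
      have e : X.gy α δ j P y = fun a => (0 : ℝ) * X.gy α δ j P y a := by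
        funext a
        rw [h0 a, mul_zero]
      rw [e, T0_smul, zero_mul]
  · exact absurd (if_neg hM) hxy

end Cx

end Pool.Agent.H2.LN
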