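/-
ROW Lcd. The zero diagonal.
PROOF. If `M x = x`, `mv .. x = 0`. Let `M x ≠ x`, `a0 = M x`, `ξ = (cl α).1`, `e = ev (crd α)`, `ez = ev z`. Claim (induction on `j` generalising `F`): `T0 α δ j F a0 ≠ 0` implies that there is `a` with `F a ≠ 0`, `sd α a = sd α a0` and: `a = a0` if `j = 0`, `(χ a).1 = (χ a0).1 + ez + j • (e + ξ)` if `j ≥ 1`.
[`T0 (j+1) F = T0 j (T j F)`: IH gives `a'` with `T j F a' ≠ 0`: some `b ∈ R α δ j a'` with `mv F b ≠ 0`, `a := M b`, `M b ≠ b`: `(χ b).1 = (χ a').1 + (kap α δ j).1` and `(χ a).1 = (χ b).1 + ξ` (`base.Hadj`, `base.adj`; in `ZMod 2`-vectors `u + v = w` gives `v = u + w`), `(kap 0).1 = e + ez`, `(kap j).1 = e` for `j ≥ 1`; `sd`: `R_sd`, `M_sd`.]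
Apply it with `F = gy P x` and suppose `gy P x a ≠ 0`. Then `x ∈ R α δ j a` or `M x ∈ R α δ j a`. The second: `sd (M x) = sd a + 1 = sd (M x) + 1`, impossible. The first: `(χ x).1 = (χ a).1 + (kap j).1`; also `(χ x).1 = (χ a0).1 + ξ` (`base.adj`). `j = 0`: `x ∈ R α δ 0 (M x)` and `x = M (M x)`: contradiction to `R_M`.
`j ≥ 1`: `ξ = ez + j • (e + ξ) + e`, i.e. `ez + (j + 1) • (e + ξ) = 0`. If `j + 1` is even: `ez = 0`, false (evaluate at `z`). If `j + 1` is odd: `ξ = e + ez`, so `ξ ∈ Xi z` (`crd α ≠ z`), against `base.clX`.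
-/
import Pool.Agent.H2.LN.LD
import Pool.Agent.H2.LN.L.Lgy
import Pool.Agent.H2.LN.L.Lt0

set_option autoImplicit false
set_option linter.unusedSectionVars false

namespace Pool.Agent.H2.LN

open Finset Classical
open Pool.Agent.H65.GI

namespace Cx

variable {V : Type} [Fintype V] {X : Cx V} {c : V → ℕ} {Rc : Finset V}

private theorem Lcd_sw {k : ℕ} {u v w : Fin k → ZMod 2} (h : u + v = w) : v = u + w := by
  funext i
  have h1 : u i + v i = w i := by rw [← h]; rfl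
  have h2 : ∀ a b d : ZMod 2, a + b = d → b = a + d := by decide
  exact h2 _ _ _ h1

private theorem Lcd_dbl {k : ℕ} (u : Fin k → ZMod 2) : u + u = 0 := by
  funext i
  have h2 : ∀ a : ZMod 2, a + a = 0 := by decide
  exact h2 _

private theorem Lcd_sm {k : ℕ} (n : ℕ) (u : Fin k → ZMod 2) :
    (n % 2 = 0 → n • u = 0) ∧ (n % 2 = 1 → n • u = u) := by
  induction n with
  | zero => exact ⟨fun _ => zero_smul ℕ u, fun h => by omega⟩
  | succ n ih =>
    obtain ⟨h0, h1⟩ := ih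
    refine ⟨fun h => ?_, fun h => ?_⟩
    · rw [succ_nsmul, h1 (by omega), Lcd_dbl]
    · rw [succ_nsmul, h0 (by omega), zero_add]

private theorem Lcd_R1 {α : Fin X.s} {δ : ZMod 2} {j : ℕ} {u v : V} (h : u ∈ X.R α δ j v) :
    (X.χ u).1 = (X.χ v).1 + (X.kap α δ j).1 := by
  have h1 := (X.base.Hadj (X.kap α δ j) u v h).2
  have h2 : (X.χ v).1 + (X.χ u).1 = (X.kap α δ j).1 := by rw [← h1]; rfl
  exact Lcd_sw h2

private theorem Lcd_M1 {α : Fin X.s} {v : V} (h : X.M α v ≠ v) :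
    (X.χ (X.M α v)).1 = (X.χ v).1 + (X.cl α).1 := by
  have h1 := (X.base.adj α v h).2
  have h2 : (X.χ v).1 + (X.χ (X.M α v)).1 = (X.cl α).1 := by rw [← h1]; rfl
  exact Lcd_sw h2

private theorem Lcd_k0 (α : Fin X.s) (δ : ZMod 2) : (X.kap α δ 0).1 = ev (X.crd α) + ev X.z := by
  unfold kap
  rw [if_pos rfl]

private theorem Lcd_kj (α : Fin X.s) (δ : ZMod 2) {j : ℕ} (hj : j ≠ 0) :
    (X.kap α δ j).1 = ev (X.crd α) := by
  unfold kap
  rw [if_neg hj]

private theorem Lcd_ch (α : Fin X.s) (δ : ZMod 2) (j : ℕ) :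
    ∀ (F : V → ℝ) (a0 : V), X.T0 α δ j F a0 ≠ 0 → ∃ a, F a ≠ 0 ∧ X.sd α a = X.sd α a0 ∧
      (j = 0 → a = a0) ∧
      (j ≠ 0 → (X.χ a).1 = (X.χ a0).1 + ev X.z + j • (ev (X.crd α) + (X.cl α).1)) := by
  induction j with
  | zero =>
    intro F a0 h
    exact ⟨a0, h, rfl, fun _ => rfl, fun h => absurd rfl h⟩
  | succ j ih =>
    intro F a0 h
    have h' : X.T0 α δ j (X.T α δ j F) a0 ≠ 0 := h
    obtain ⟨a', hF, hs, h0, h1⟩ := ih _ _ h'
    have h2 : (∑ b ∈ X.R α δ j a', X.mv α F b) / X.dd ≠ 0 := hF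
    have h3 : ∑ b ∈ X.R α δ j a', X.mv α F b ≠ 0 := by
      intro h3
      rw [h3, zero_div] at h2
      exact h2 rfl
    obtain ⟨b, hb, hb'⟩ := Finset.exists_ne_zero_of_sum_ne_zero h3
    unfold mv at hb'
    have hM : X.M α b ≠ b := by
      intro hM
      rw [if_neg (not_not.2 hM)] at hb'
      exact hb' rfl
    rw [if_pos hM] at hb'
    have e1 := Lcd_R1 hb
    have e2 := Lcd_M1 hM
    have e3 : X.sd α (X.M α b) = X.sd α a0 := by
      rw [X.M_sd hM, X.R_sd hb, hs]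
      have h2 : ∀ a : ZMod 2, a + 1 + 1 = a := by decide
      exact h2 _
    refine ⟨X.M α b, hb', e3, fun h => absurd h (Nat.succ_ne_zero j), fun _ => ?_⟩
    by_cases hj : j = 0
    · have e4 := h0 hj
      subst hj
      subst e4
      rw [e2, e1, Lcd_k0, zero_add, one_smul]
      abel
    · rw [e2, e1, h1 hj, Lcd_kj α δ hj, succ_nsmul]
      abel

/-- the zero diagonal -/
theorem cb_dg (α : Fin X.s) (δ : ZMod 2) (j : ℕ) (P : V → ℝ) (x : V) :
    X.cb α δ j P x x = 0 := by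
  unfold cb mv
  by_cases hM : X.M α x ≠ x
  swap
  · rw [if_neg hM]
  rw [if_pos hM]
  by_contra hne
  obtain ⟨a, hg, hs, h0, h1⟩ := Lcd_ch α δ j _ _ hne
  have hMM := X.M_M α x
  have e2 := Lcd_M1 (α := α) (v := X.M α x) (by rw [hMM]; exact fun h => hM h.symm)
  rw [hMM] at e2
  have hR : x ∈ X.R α δ j a := by
    by_contra hx
    by_cases hy : X.M α x ≠ x ∧ X.M α x ∈ X.R α δ j a
    · have h2 := X.R_sd hy.2
      rw [hs] at h2
      have h3 : ∀ a : ZMod 2, a ≠ a + 1 := by decide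
      exact h3 _ h2
    · apply hg
      unfold gy
      rw [if_neg hx, if_neg hy, add_zero]
  by_cases hj : j = 0
  · have h2 := h0 hj
    rw [h2] at hR
    exact X.R_M (β := α) hR hMM
  · have e1 := Lcd_R1 hR
    rw [h1 hj, Lcd_kj α δ hj, e2] at e1
    have e3 : (X.cl α).1 = ev X.z + j • (ev (X.crd α) + (X.cl α).1) + ev (X.crd α) := by
      have e4 : (X.χ (X.M α x)).1 + (X.cl α).1 = (X.χ (X.M α x)).1 +
          (ev X.z + j • (ev (X.crd α) + (X.cl α).1) + ev (X.crd α)) := by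
        rw [e1]
        abel
      exact add_left_cancel e4
    have e5 : ev X.z + (j + 1) • (ev (X.crd α) + (X.cl α).1) = 0 := by
      have e6 := Lcd_dbl (X.cl α).1
      nth_rewrite 1 [e3] at e6
      rw [succ_nsmul, ← e6]
      abel
    obtain ⟨p0, p1⟩ := Lcd_sm (j + 1) (ev (X.crd α) + (X.cl α).1)
    rcases Nat.mod_two_eq_zero_or_one (j + 1) with hp | hp
    · rw [p0 hp, add_zero] at e5
      have e7 := congrFun e5 X.z
      unfold ev at e7
      rw [Pi.single_eq_same, Pi.zero_apply] at e7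
      exact absurd e7 (by decide)
    · rw [p1 hp] at e5
      have e8 : (X.cl α).1 = ev (X.crd α) + ev X.z := by
        have e9 := Lcd_sw (u := ev X.z + ev (X.crd α)) (v := (X.cl α).1) (w := 0)
          (by rw [← e5]; abel)
        rw [e9, add_zero, add_comm]
      exact X.base.clX α (Or.inr (Or.inr ⟨X.crd α, X.base.crz α, e8⟩))

end Cx

end Pool.Agent.H2.LN
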