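/-
ROW Llf. The linear test functions are admissible.
PROOF. `LinF G N Δ b f`: nonnegative, supported in `bl b (60 N ^ 3)`, `∑ f ≤ 1`, `∑ f ^ 2 ≤ 16 N ^ 3 / Δ ^ 12`. Nonnegativity: `RF_nn`, `A_nn`, `EF_nn`, `T0_nn`. Sums: `RF_l1`, `A_sum_le`, `mv_sum`, `nd_dv` (`∑ nd, ∑ dv ≤ ∑` for nonnegative functions), `T0_l1`, `gD_l1`, `gW_l1`, `EF_l1` (`8 kd / dd ≤ 1`: `dd_bd`, `pwN`).
Square sums: `RF_l2`, `RF_l2'` (`N ^ 3 / (2 Δ ^ 12)`), `A_l2`, `mv_l2` (`dv ^ 2 ≤ F ^ 2`), `T0_l2`, `EF_l2`; `gD P ≤ A P` and `gB disW P ≤ 3 A P` pointwise (`2 / dd ≤ 1`, `gE_le` as `gB disW ≤ gE`). Supports: `P` supported in `bl b (2 r)`, `2 r ≤ 2 n ≤ 20 N ^ 3`; `A`, `mv` add one step (`R_adj`, `M_adj`, `bl_adj`), `T0 .. j` adds `2 j` (`T0_ball`), `r + j < n` (`RF_rj`).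
-/
import Pool.Agent.H2.LN.LD
import Pool.Agent.H2.LN.L.Lge
import Pool.Agent.H2.LN.L.Len
import Pool.Agent.H2.LN.L.Lcb
import Pool.Agent.H2.LN.L.Lcd
import Pool.Agent.H65.GI.Lll

set_option autoImplicit false
set_option linter.unusedSectionVars false

namespace Pool.Agent.H2.LN

open Finset Classical
open Pool.Agent.H65.GI

namespace Cx

variable {V : Type} [Fintype V] {X : Cx V} {c : V → ℕ} {Rc : Finset V}

/-- auxiliary: bounds for a test function -/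
structure Llf_Q (X : Cx V) (b : V) (k : ℕ) (F : V → ℝ) : Prop where
  nn : ∀ x, 0 ≤ F x
  sp : ∀ x, F x ≠ 0 → x ∈ bl X.G b k
  l1 : ∑ x, F x ≤ 1
  l2 : ∑ x, F x ^ 2 ≤ 5 * X.N ^ 3 / (X.Δ : ℝ) ^ 12

theorem Llf_N3 (X : Cx V) : 2 ≤ X.N ^ 3 := by
  have h : 2 ^ 40 ≤ X.N := X.pm.big
  calc 2 ≤ (2 ^ 40) ^ 3 := by norm_num
    _ ≤ X.N ^ 3 := Nat.pow_le_pow_left h 3

theorem Llf_fin {b : V} {k : ℕ} {F : V → ℝ} (h : Llf_Q X b k F) (hk : k ≤ 60 * X.N ^ 3) :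
    LinF X.G X.N X.Δ b F := by
  refine ⟨h.nn, ?_, h.l1, ?_⟩
  · intro x hx
    by_contra h0
    exact hx (bl_mono X.G b hk (h.sp x h0))
  · refine h.l2.trans ?_
    have h0 : (0 : ℝ) ≤ (X.N : ℝ) ^ 3 / (X.Δ : ℝ) ^ 12 := by positivity
    rw [mul_div_assoc, mul_div_assoc]
    linarith

theorem Llf_mv {b : V} {k : ℕ} {F : V → ℝ} (h : Llf_Q X b k F) (α : Fin X.s) :
    Llf_Q X b (k + 1) (X.mv α F) := by
  refine ⟨?_, ?_, ?_, (mv_l2 α F).trans h.l2⟩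
  · intro x
    unfold mv
    split_ifs
    · exact h.nn _
    · exact le_refl _
  · intro x hx
    unfold mv at hx
    by_cases hM : X.M α x ≠ x
    · rw [if_pos hM] at hx
      exact bl_adj X.G (h.sp _ hx) (X.M_adj hM).symm
    · rw [if_neg hM] at hx
      exact absurd rfl hx
  · rw [mv_sum]
    refine le_trans (Finset.sum_le_sum (fun x _ => ?_)) h.l1
    unfold nd
    split_ifs
    · exact le_refl _
    · exact h.nn _

theorem Llf_dv {b : V} {k : ℕ} {F : V → ℝ} (h : Llf_Q X b k F) (α : Fin X.s) :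
    Llf_Q X b k (X.dv α F) := by
  refine ⟨?_, ?_, ?_, ?_⟩
  · intro x
    unfold dv
    split_ifs
    · exact h.nn _
    · exact le_refl _
  · intro x hx
    unfold dv at hx
    by_cases hM : X.M α x = x
    · rw [if_pos hM] at hx
      exact h.sp _ hx
    · rw [if_neg hM] at hx
      exact absurd rfl hx
  · refine le_trans (Finset.sum_le_sum (fun x _ => ?_)) h.l1
    unfold dv
    split_ifs
    · exact le_refl _
    · exact h.nn _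
  · refine le_trans (Finset.sum_le_sum (fun x _ => ?_)) h.l2
    unfold dv
    split_ifs
    · exact le_refl _
    · rw [zero_pow (by norm_num)]
      exact sq_nonneg _

theorem Llf_spA {α : Fin X.s} {δ : ZMod 2} {j k : ℕ} {P : V → ℝ} {b : V}
    (hb : ∀ x, P x ≠ 0 → x ∈ bl X.G b k) (a : V) (ha : X.A α δ j P a ≠ 0) : a ∈ bl X.G b (k + 1) := by
  by_contra h0
  apply ha
  unfold A
  rw [Finset.sum_eq_zero, zero_div]
  intro x hx
  by_contra h1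
  exact h0 (bl_adj X.G (hb x h1) (X.R_adj hx).symm)

theorem Llf_half (X : Cx V) : (X.N : ℝ) ^ 3 / (2 * (X.Δ : ℝ) ^ 12) = (X.N ^ 3 / (X.Δ : ℝ) ^ 12) / 2 := by
  rw [mul_comm, div_div]

theorem Llf_AQ {α : Fin X.s} {δ : ZMod 2} {j r : ℕ} {P : V → ℝ} {b : V} (h : X.RF α δ j r P)
    (hr : X.n3 ≤ r + 1) (hb : ∀ x, P x ≠ 0 → x ∈ bl X.G b (2 * r)) :
    Llf_Q X b (2 * r + 1) (X.A α δ j P) := by
  refine ⟨A_nn (RF_nn h), Llf_spA hb, (A_sum_le (RF_nn h)).trans (RF_l1 h), ?_⟩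
  refine (RF_l2 h hr).trans ?_
  have h0 : (0 : ℝ) ≤ (X.N : ℝ) ^ 3 / (X.Δ : ℝ) ^ 12 := by positivity
  rw [Llf_half, mul_div_assoc]
  linarith

theorem Llf_kd (X : Cx V) : 8 * (X.kd : ℝ) ≤ X.dd ∧ 2 ≤ X.dd := by
  have h1 := X.dd_bd.1
  have h2 := X.N_big
  have hN : (0 : ℝ) < X.N := lt_of_lt_of_le (by positivity) h2
  have h3 : (X.N : ℝ) ^ 110 ≤ X.pw 1 := X.pwN 110 1 (by norm_num)
  have h4 : (X.N : ℝ) ^ 56 / 8 ≤ X.dd := by
    refine le_trans ?_ h1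
    rw [div_le_div_iff₀ (by norm_num) (by positivity)]
    calc (X.N : ℝ) ^ 56 * (8 * X.N ^ 54) = X.N ^ 110 * 8 := by ring
      _ ≤ X.pw 1 * 8 := by linarith
  have h5 : (X.kd : ℝ) = (X.N : ℝ) ^ 52 := by
    unfold kd
    push_cast
    rfl
  have h6 : (64 : ℝ) ≤ (X.N : ℝ) ^ 4 := by
    calc (64 : ℝ) ≤ (2 ^ 40) ^ 4 := by norm_num
      _ ≤ (X.N : ℝ) ^ 4 := pow_le_pow_left₀ (by positivity) h2 4
  have h7 : (64 : ℝ) * (X.N : ℝ) ^ 52 ≤ (X.N : ℝ) ^ 56 := by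
    calc (64 : ℝ) * (X.N : ℝ) ^ 52 ≤ (X.N : ℝ) ^ 4 * (X.N : ℝ) ^ 52 :=
          mul_le_mul_of_nonneg_right h6 (by positivity)
      _ = (X.N : ℝ) ^ 56 := by ring
  have h8 : (1 : ℝ) ≤ (X.N : ℝ) ^ 52 := one_le_pow₀ (le_trans (by norm_num) h2)
  constructor
  · rw [h5]
    linarith
  · linarith

theorem Llf_n {α : Fin X.s} {δ : ZMod 2} {j r : ℕ} {P : V → ℝ} (h : X.RF α δ j r P) :
    r + j ≤ 9 * X.N ^ 3 := by
  have h1 := RF_rj h
  unfold n at h1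
  omega

theorem Llf_EF {α : Fin X.s} {δ : ZMod 2} {j : ℕ} {F : V → ℝ} {b : V} (h : X.EF c Rc α δ j F)
    (hb : ∀ x, F x ≠ 0 → x ∈ bl X.G b (20 * X.N ^ 3)) (hk : X.KD c Rc) :
    Llf_Q X b (20 * X.N ^ 3) F := by
  obtain ⟨hkd, hdd⟩ := Llf_kd X
  refine ⟨EF_nn h, hb, (EF_l1 h hk).trans ?_, EF_l2 h hk⟩
  rw [div_le_one (by linarith)]
  exact hkd

theorem LF_mvA {α : Fin X.s} {δ : ZMod 2} {r : ℕ} {P : V → ℝ} {b : V} (h : X.RF α δ 0 r P)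
    (hr : X.n3 ≤ r + 1) (hb : ∀ x, P x ≠ 0 → x ∈ bl X.G b (2 * r)) :
    LinF X.G X.N X.Δ b (X.mv α (X.A α δ 0 P)) := by
  have h1 := Llf_n h
  have h2 := Llf_N3 X
  exact Llf_fin (Llf_mv (Llf_AQ h hr hb) α) (by omega)

theorem LF_dvA {α : Fin X.s} {δ : ZMod 2} {j r : ℕ} {P : V → ℝ} {b : V} (h : X.RF α δ j r P)
    (hr : X.n3 ≤ r + 1) (hb : ∀ x, P x ≠ 0 → x ∈ bl X.G b (2 * r)) :
    LinF X.G X.N X.Δ b (X.dv α (X.A α δ j P)) := by
  have h1 := Llf_n h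
  have h2 := Llf_N3 X
  exact Llf_fin (Llf_dv (Llf_AQ h hr hb) α) (by omega)

theorem LF_gD {α : Fin X.s} {δ : ZMod 2} {j r : ℕ} {P : V → ℝ} {b : V} (h : X.RF α δ j r P)
    (hr : X.n3 ≤ r) (hb : ∀ x, P x ≠ 0 → x ∈ bl X.G b (2 * r)) :
    LinF X.G X.N X.Δ b (X.mv α (X.T0 α δ j (X.gD α δ j P))) := by
  have h1 := Llf_n h
  have h2 := Llf_N3 X
  have hA := Llf_AQ h (hr.trans (Nat.le_succ r)) hb
  obtain ⟨-, hdd⟩ := Llf_kd X
  have hdd0 : (0 : ℝ) < X.dd := by linarith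
  have hc1 : 2 / X.dd ≤ 1 := by
    rw [div_le_one hdd0]
    exact hdd
  have hc0 : 0 ≤ 2 / X.dd := by positivity
  have hg0 : ∀ a, 0 ≤ X.gD α δ j P a := by
    intro a
    unfold gD
    split_ifs
    · exact mul_nonneg hc0 (hA.nn a)
    · exact le_refl _
  have hgA : ∀ a, X.gD α δ j P a ≤ X.A α δ j P a := by
    intro a
    unfold gD
    split_ifs
    · exact mul_le_of_le_one_left (hA.nn a) hc1
    · exact hA.nn a
  have hQ : Llf_Q X b (2 * r + 1 + 2 * j) (X.T0 α δ j (X.gD α δ j P)) := by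
    refine ⟨T0_nn hg0, T0_ball (fun x hx => hA.sp x (fun h0 => hx ?_)), ?_, ?_⟩
    · exact le_antisymm ((hgA x).trans h0.le) (hg0 x)
    · refine (gD_l1 h).trans ?_
      rw [div_le_one (by positivity)]
      nlinarith
    · refine (T0_l2 α δ j _).trans (le_trans (Finset.sum_le_sum (fun x _ => ?_)) hA.l2)
      exact pow_le_pow_left₀ (hg0 x) (hgA x) 2
  exact Llf_fin (Llf_mv hQ α) (by omega)

theorem LF_gW {α : Fin X.s} {δ : ZMod 2} {j r : ℕ} {P : V → ℝ} {b : V} (h : X.RF α δ j r P)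
    (hr : X.n3 ≤ r) (hb : ∀ x, P x ≠ 0 → x ∈ bl X.G b (2 * r)) (hk : X.KD c Rc) :
    LinF X.G X.N X.Δ b (X.mv α (X.T0 α δ j (X.gB (X.disW c α) α δ j P))) := by
  have h1 := Llf_n h
  have h2 := Llf_N3 X
  have hA := Llf_AQ h (hr.trans (Nat.le_succ r)) hb
  obtain ⟨hkd, hdd⟩ := Llf_kd X
  have hdd0 : (0 : ℝ) < X.dd := by linarith
  have hc0 : 0 ≤ 2 / X.dd := by positivity
  have hP := RF_nn h
  have hj : j ≤ X.n := by
    have := RF_rj h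
    omega
  have hg0 : ∀ a, 0 ≤ X.gB (X.disW c α) α δ j P a := by
    intro a
    unfold gB
    exact add_nonneg (mul_nonneg (mul_nonneg hc0 (hA.nn a)) (Nat.cast_nonneg _))
      (div_nonneg (Finset.sum_nonneg (fun x _ => hP x)) hdd0.le)
  have hgA : ∀ a, X.gB (X.disW c α) α δ j P a ≤ 3 * X.A α δ j P a := by
    intro a
    refine le_trans ?_ (gE_le hP hk hj a)
    have hsub : (X.R α δ j a).filter (fun b => b ∈ X.disW c α) ⊆
        (X.R α δ j a).filter (fun b => b ∈ X.dis c Rc α) := by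
      intro x hx
      rw [Finset.mem_filter] at hx ⊢
      exact ⟨hx.1, Finset.mem_union_left _ hx.2⟩
    have hg1 : 0 ≤ X.gD α δ j P a := by
      unfold gD
      split_ifs
      · exact mul_nonneg hc0 (hA.nn a)
      · exact le_refl _
    unfold gE
    refine le_trans ?_ (le_add_of_nonneg_right hg1)
    unfold gB
    refine add_le_add (mul_le_mul_of_nonneg_left ?_ (mul_nonneg hc0 (hA.nn a)))
      (div_le_div_of_nonneg_right ?_ hdd0.le)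
    · exact_mod_cast Finset.card_le_card hsub
    · exact Finset.sum_le_sum_of_subset_of_nonneg hsub (fun x _ _ => hP x)
  have hr1 : ∃ r', r = r' + 1 := by
    have h3 : X.n3 = X.N ^ 3 := rfl
    exact ⟨r - 1, by omega⟩
  obtain ⟨r', rfl⟩ := hr1
  have hQ : Llf_Q X b (2 * (r' + 1) + 1 + 2 * j) (X.T0 α δ j (X.gB (X.disW c α) α δ j P)) := by
    refine ⟨T0_nn hg0, T0_ball (fun x hx => hA.sp x (fun h0 => hx ?_)), ?_, ?_⟩
    · refine le_antisymm ((hgA x).trans ?_) (hg0 x)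
      rw [h0, mul_zero]
    · refine (gW_l1 h hk).trans ?_
      rw [div_le_one hdd0]
      have : (0 : ℝ) ≤ X.kd := Nat.cast_nonneg _
      linarith
    · refine (T0_l2 α δ j _).trans ?_
      have h5 : ∑ x, X.gB (X.disW c α) α δ j P x ^ 2 ≤ 9 * ∑ x, X.A α δ j P x ^ 2 := by
        rw [Finset.mul_sum]
        refine Finset.sum_le_sum (fun x _ => ?_)
        calc X.gB (X.disW c α) α δ j P x ^ 2 ≤ (3 * X.A α δ j P x) ^ 2 :=
              pow_le_pow_left₀ (hg0 x) (hgA x) 2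
          _ = 9 * X.A α δ j P x ^ 2 := by ring
      have h6 := RF_l2 h (hr.trans (Nat.le_succ _))
      have h7 : (0 : ℝ) ≤ (X.N : ℝ) ^ 3 / (X.Δ : ℝ) ^ 12 := by positivity
      rw [Llf_half] at h6
      rw [mul_div_assoc]
      linarith
  exact Llf_fin (Llf_mv hQ α) (by omega)

theorem LF_P {α : Fin X.s} {δ : ZMod 2} {j r : ℕ} {P : V → ℝ} {b : V} (h : X.RF α δ j r P)
    (hr : X.n3 ≤ r) (hb : ∀ x, P x ≠ 0 → x ∈ bl X.G b (2 * r)) : LinF X.G X.N X.Δ b P := by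
  have h1 := Llf_n h
  have h2 := Llf_N3 X
  refine Llf_fin (k := 2 * r) ⟨RF_nn h, hb, RF_l1 h, ?_⟩ (by omega)
  refine (RF_l2' h hr).trans ?_
  have h0 : (0 : ℝ) ≤ (X.N : ℝ) ^ 3 / (X.Δ : ℝ) ^ 12 := by positivity
  rw [Llf_half, mul_div_assoc]
  linarith

theorem LF_A {α : Fin X.s} {δ : ZMod 2} {j r : ℕ} {P : V → ℝ} {b : V} (h : X.RF α δ j r P)
    (hr : X.n3 ≤ r + 1) (hb : ∀ x, P x ≠ 0 → x ∈ bl X.G b (2 * r)) :
    LinF X.G X.N X.Δ b (X.A α δ j P) := by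
  have h1 := Llf_n h
  have h2 := Llf_N3 X
  exact Llf_fin (Llf_AQ h hr hb) (by omega)

theorem LF_EF {α : Fin X.s} {δ : ZMod 2} {j : ℕ} {F : V → ℝ} {b : V} (h : X.EF c Rc α δ j F)
    (hb : ∀ x, F x ≠ 0 → x ∈ bl X.G b (20 * X.N ^ 3)) (hk : X.KD c Rc) :
    LinF X.G X.N X.Δ b F := by
  exact Llf_fin (Llf_EF h hb hk) (by omega)

theorem LF_mEF {α : Fin X.s} {δ : ZMod 2} {j : ℕ} {F : V → ℝ} {b : V} (h : X.EF c Rc α δ j F)
    (hb : ∀ x, F x ≠ 0 → x ∈ bl X.G b (20 * X.N ^ 3)) (hk : X.KD c Rc) :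
    LinF X.G X.N X.Δ b (X.mv α F) := by
  have h2 := Llf_N3 X
  exact Llf_fin (Llf_mv (Llf_EF h hb hk) α) (by omega)

theorem LF_dEF {α : Fin X.s} {δ : ZMod 2} {j : ℕ} {F : V → ℝ} {b : V} (h : X.EF c Rc α δ j F)
    (hb : ∀ x, F x ≠ 0 → x ∈ bl X.G b (20 * X.N ^ 3)) (hk : X.KD c Rc) :
    LinF X.G X.N X.Δ b (X.dv α F) := by
  exact Llf_fin (Llf_dv (Llf_EF h hb hk) α) (by omega)

end Cx

end Pool.Agent.H2.LN
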