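/-
ROW Lf3. The tests for the steps.
PROOF. `RF_en X`: `κ1, e1`; `EF_en X c Rc`: `κ2, e2`. `ι := Fin 8 × (κ1 ⊕ κ2) × Fin s × ZMod 2 × Fin (n + 1)`, `|ι| ≤ exp (N ^ 4)` as `Δ ≤ exp N`. `f b (tag, k, α, δ, j)`: for `P = e1 b k α δ j` with `RF α δ j r P` and support in `bl b (2 r)`: tag 0: `P` (`n3 ≤ r`; `LF_P`), tag 1: `A α δ j P` (`n3 ≤ r + 1`; `LF_A`), tag 2: `dv α (A α δ j P)` (`LF_dvA`); for `F = e2 b k α δ j` with
`EF c Rc α δ j F` and support in `bl b (20 N ^ 3)`: tag 3: `F`, tag 4: `mv α F`, tag 5: `dv α F` (`LF_EF, LF_mEF, LF_dEF`); `0` otherwise. Cases on `TF`.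
-/
import Pool.Agent.H2.LN.LD
import Pool.Agent.H2.LN.L.Llf
import Pool.Agent.H2.LN.L.Lre
import Pool.Agent.H2.LN.L.Len

set_option autoImplicit false
set_option linter.unusedSectionVars false

namespace Pool.Agent.H2.LN

open Finset Classical
open Pool.Agent.H65.GI

namespace Cx

variable {V : Type} [Fintype V] {X : Cx V} {c : V → ℕ} {Rc : Finset V}

private theorem Lf3_zero (G : SimpleGraph V) (N Δ : ℕ) (v : V) : LinF G N Δ v (0 : V → ℝ) := by
  refine ⟨fun x => le_refl _, fun x _ => rfl, ?_, ?_⟩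
  · simp
  · have h : ∑ x : V, (0 : V → ℝ) x ^ 2 = 0 := by simp
    rw [h]
    positivity

private theorem Lf3_card (X : Cx V) {a b : ℝ} (ha' : a ≤ X.N ^ 10) (hb' : b ≤ X.N ^ 20) :
    3 * (a + b) * (X.s * 2 * (X.n + 1)) ≤ Real.exp (X.N ^ 4) := by
  have hN : (2 : ℝ) ^ 40 ≤ X.N := by exact_mod_cast X.pm.big
  have hN1 : (132 : ℝ) ≤ X.N := le_trans (by norm_num) hN
  have hN2 : (1 : ℝ) ≤ X.N := by linarith
  have hN0 : (0 : ℝ) < X.N := by linarith
  have hn : (X.n : ℝ) = 9 * X.N ^ 3 + 1 := by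
    unfold Cx.n
    push_cast
    ring
  have hD0 : (0 : ℝ) < X.Δ := by
    have h1 : 0 < X.N ^ 40000 := pow_pos (lt_of_lt_of_le (by norm_num) X.pm.big) _
    exact_mod_cast lt_of_lt_of_le h1 X.pm.pow
  have hs : (X.s : ℝ) ≤ X.Δ := by
    have h1 := X.base.sle
    have h2 : 0 ≤ (X.Δ : ℝ) / X.N ^ 50 := by positivity
    linarith
  have hlog : Real.log X.Δ ≤ X.N := by
    by_cases h : Real.log X.Δ ≤ 1
    · linarith
    · push Not at h
      refine le_trans ?_ X.pm.log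
      exact le_self_pow₀ h.le (by norm_num)
  have hDe : (X.Δ : ℝ) ≤ Real.exp X.N := by
    rw [← Real.log_le_iff_le_exp hD0]
    exact hlog
  have hNe : (X.N : ℝ) ≤ Real.exp X.N := by
    have := Real.add_one_le_exp (X.N : ℝ)
    linarith
  have hab : a + b ≤ 2 * X.N ^ 20 := by
    have h1 : (X.N : ℝ) ^ 10 ≤ X.N ^ 20 := pow_le_pow_right₀ hN2 (by norm_num)
    linarith
  have hn2 : (X.n : ℝ) + 1 ≤ 11 * X.N ^ 3 := by
    rw [hn]
    have h1 : (1 : ℝ) ≤ X.N ^ 3 := one_le_pow₀ hN2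
    linarith
  calc 3 * (a + b) * (X.s * 2 * (X.n + 1)) ≤ 3 * (2 * X.N ^ 20) * (X.Δ * 2 * (11 * X.N ^ 3)) := by
        refine mul_le_mul ?_ ?_ ?_ ?_
        · linarith
        · refine mul_le_mul ?_ hn2 ?_ ?_
          · linarith
          · positivity
          · positivity
        · positivity
        · positivity
    _ = 132 * (X.N ^ 23 * X.Δ) := by ring
    _ ≤ X.N * (X.N ^ 23 * X.Δ) := by
        refine mul_le_mul_of_nonneg_right hN1 ?_
        positivity
    _ = X.N ^ 24 * X.Δ := by ring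
    _ ≤ (Real.exp X.N) ^ 24 * Real.exp X.N := by
        refine mul_le_mul ?_ hDe hD0.le ?_
        · exact pow_le_pow_left₀ hN0.le hNe _
        · positivity
    _ = Real.exp (25 * X.N) := by
        rw [← pow_succ, ← Real.exp_nat_mul]
        norm_num
    _ ≤ Real.exp (X.N ^ 4) := by
        refine Real.exp_le_exp.mpr ?_
        have h1 : (25 : ℝ) ≤ X.N ^ 3 := by
          have h2 : (X.N : ℝ) ≤ X.N ^ 3 := le_self_pow₀ hN2 (by norm_num)
          linarith
        calc 25 * (X.N : ℝ) ≤ X.N ^ 3 * X.N := mul_le_mul_of_nonneg_right h1 hN0.le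
          _ = X.N ^ 4 := by ring

/-- stage 3: the tests for the transport -/
theorem fam3 (X : Cx V) (c : V → ℕ) (Rc : Finset V) (hk : X.KD c Rc) : ∃ (ι : Type) (_ : Fintype ι)
    (f : V → ι → V → ℝ), (Fintype.card ι : ℝ) ≤ Real.exp (X.N ^ 4) ∧
    (∀ v i, LinF X.G X.N X.Δ v (f v i)) ∧ ∀ F, X.TF c Rc F → ∃ v i, F = f v i := by
  obtain ⟨κ1, hκ1, e1, hc1, he1⟩ := RF_en X
  obtain ⟨κ2, hκ2, e2, hc2, he2⟩ := EF_en X c Rc
  let g1 : V → Fin 3 → κ1 → Fin X.s → ZMod 2 → ℕ → V → ℝ := fun b tag k α δ j =>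
    if tag = 0 then e1 b k α δ j else if tag = 1 then X.A α δ j (e1 b k α δ j) else X.dv α (X.A α δ j (e1 b k α δ j))
  let g2 : V → Fin 3 → κ2 → Fin X.s → ZMod 2 → ℕ → V → ℝ := fun b tag k α δ j =>
    if tag = 0 then e2 b k α δ j else if tag = 1 then X.mv α (e2 b k α δ j) else X.dv α (e2 b k α δ j)
  let g : V → (Fin 3 × (κ1 ⊕ κ2)) × (Fin X.s × ZMod 2) × Fin (X.n + 1) → V → ℝ := fun b i =>
    Sum.elim (fun k => g1 b i.1.1 k i.2.1.1 i.2.1.2 i.2.2) (fun k => g2 b i.1.1 k i.2.1.1 i.2.1.2 i.2.2) i.1.2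
  have key : ∀ b i F, g b i = F → LinF X.G X.N X.Δ b F →
      ∃ v i, F = (fun b i => if LinF X.G X.N X.Δ b (g b i) then g b i else 0) v i := by
    intro b i F h1 h2
    refine ⟨b, i, ?_⟩
    show F = if LinF X.G X.N X.Δ b (g b i) then g b i else 0
    rw [h1, if_pos h2]
  refine ⟨(Fin 3 × (κ1 ⊕ κ2)) × (Fin X.s × ZMod 2) × Fin (X.n + 1), inferInstance,
    fun b i => if LinF X.G X.N X.Δ b (g b i) then g b i else 0, ?_, ?_, ?_⟩
  · rw [Fintype.card_prod, Fintype.card_prod, Fintype.card_prod, Fintype.card_prod, Fintype.card_sum, Fintype.card_fin,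
      Fintype.card_fin, Fintype.card_fin, ZMod.card]
    push_cast
    exact Lf3_card X hc1 hc2
  · intro v i
    show LinF X.G X.N X.Δ v (if LinF X.G X.N X.Δ v (g v i) then g v i else 0)
    split_ifs with h
    · exact h
    · exact Lf3_zero X.G X.N X.Δ v
  · intro F hF
    cases hF with
    | rc α δ j r P hr h =>
      obtain ⟨b, k, hbk, hs⟩ := he1 α δ j r F h
      have hj : j < X.n + 1 := by
        have := RF_rj h
        omega
      exact key b ((0, .inl k), (α, δ), ⟨j, hj⟩) F hbk (LF_P h hr hs)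
    | em α δ j F' h =>
      obtain ⟨b, k, hbk, hs⟩ := he2 α δ j F' h
      have hj : j < X.n + 1 := by
        have := EF_lt h
        omega
      refine key b ((1, .inr k), (α, δ), ⟨j, hj⟩) _ ?_ (LF_mEF h hs hk)
      show X.mv α (e2 b k α δ j) = X.mv α F'
      rw [hbk]
    | ls α δ j r P hr h =>
      obtain ⟨b, k, hbk, hs⟩ := he1 α δ j r P h
      have hj : j < X.n + 1 := by
        have := RF_rj h
        omega
      refine key b ((1, .inl k), (α, δ), ⟨j, hj⟩) _ ?_ (LF_A h hr hs)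
      show X.A α δ j (e1 b k α δ j) = X.A α δ j P
      rw [hbk]
    | ld α δ j r P hr h =>
      obtain ⟨b, k, hbk, hs⟩ := he1 α δ j r P h
      have hj : j < X.n + 1 := by
        have := RF_rj h
        omega
      refine key b ((2, .inl k), (α, δ), ⟨j, hj⟩) _ ?_ (LF_dvA h hr hs)
      show X.dv α (X.A α δ j (e1 b k α δ j)) = X.dv α (X.A α δ j P)
      rw [hbk]
    | es α δ j F' h =>
      obtain ⟨b, k, hbk, hs⟩ := he2 α δ j F h
      have hj : j < X.n + 1 := by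
        have := EF_lt h
        omega
      exact key b ((0, .inr k), (α, δ), ⟨j, hj⟩) F hbk (LF_EF h hs hk)
    | ed α δ j F' h =>
      obtain ⟨b, k, hbk, hs⟩ := he2 α δ j F' h
      have hj : j < X.n + 1 := by
        have := EF_lt h
        omega
      refine key b ((2, .inr k), (α, δ), ⟨j, hj⟩) _ ?_ (LF_dEF h hs hk)
      show X.dv α (e2 b k α δ j) = X.dv α F'
      rw [hbk]

end Cx

end Pool.Agent.H2.LN
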