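/-
ROW Lvc. Few conflicts.
PROOF. Let `A = R α δ j b ∩ t.S δ α`, `L = {α' ≠ α : crd α' = crd α}`, `w α' = |{a ∈ A : a ∈ t.S δ α'}|`. `w α' ≤ kd` (`TT.t2`), `∑_{α' ∈ L} w α' ≤ ∑_{a ∈ A} |{α' : a ∈ t.S δ α'}| ≤ |A| 4 pw (2/5) ≤ 8 th dd pw (2/5)` (`TT.t3, t1`). The set in question has at most `∑_{α' ∈ L} [cn α' b] w α'` elements. The coordinates `(rp α' b, α')` are different for different `α'`;
`pr = th` (`cn_pr`). `ch_w` (H12/LN/V0) or `ber` with `W = kd`: `∑ w^2 th ≤ kd th ∑ w`; `X ≥ 2 (mean) + 8 kd (N^6 + 1)` has probability `≤ exp (-N^6)`-type; mean `≤ 8 th^2 dd pw (2/5) ≤ 9 pw (1/5) / mT` (`dd ≤ pw 1 / mT`: `dd_mT`, `th ≤ 1.01 pw (-3/5)`), and `kd (N^6 + 1) 16 ≤ pw (1/5) / mT` (`mT_bd`, `pwN`): total `≤ 60 pw (1/5) / mT`.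
-/
import Pool.Agent.H2.LN.LD
import Pool.Agent.H2.LN.L.Lrp
import Pool.Agent.H12.LN.Tools
import Pool.Agent.H12.LN.V0
import Pool.Agent.H65.GI.Lll

set_option autoImplicit false
set_option linter.unusedSectionVars false

namespace Pool.Agent.H2.LN

open Finset Classical
open Pool.Agent.H65.GI

namespace Cx

variable {V : Type} [Fintype V] {X : Cx V} {c : V → ℕ} {Rc : Finset V}

/-- event `c` -/
theorem ev_c (hk : X.KD c Rc) (j : ℕ) (hj : j < X.n) (t : X.St) (ht : X.TT j t) (δ : ZMod 2)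
    (α : Fin X.s) (b : V) :
    pr (fun ω : X.Co => 60 * X.pw (1 / 5) / mT X.N <
      (((X.R α δ j b).filter (fun a => a ∈ t.S δ α ∧
        ∃ α', α' ≠ α ∧ X.crd α' = X.crd α ∧ a ∈ t.S δ α' ∧ X.cn ω α' b)).card : ℝ)) ≤
      Real.exp (-(X.N : ℝ) ^ 6) := by
  obtain ⟨hth1, hth2, hq, hth3⟩ := X.th_bd
  haveI : Nonempty (Fin X.q) := ⟨⟨0, hq⟩⟩
  obtain ⟨hmT1, hmT2⟩ := X.mT_bd
  have hN := X.N_big
  have hN1 : (1 : ℝ) ≤ X.N := le_trans (by norm_num) hN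
  have hmT0 : (0 : ℝ) < mT X.N := lt_of_lt_of_le (by positivity) hmT1
  have hp15 := X.pw_pos (1 / 5)
  have hp25 := X.pw_pos (2 / 5)
  have hp1 := X.pw_pos 1
  have hp35 := X.pw_pos (-(3 : ℝ) / 5)
  have hth0 : 0 ≤ X.th := hp35.le.trans hth1
  have hdd0 : 0 ≤ X.dd := by
    unfold dd
    positivity
  obtain ⟨A, hA⟩ : ∃ A : Finset V, A = (X.R α δ j b).filter (fun a => a ∈ t.S δ α) := ⟨_, rfl⟩
  obtain ⟨L, hL⟩ : ∃ L : Finset (Fin X.s), L = univ.filter (fun α' => α' ≠ α ∧ X.crd α' = X.crd α) := ⟨_, rfl⟩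
  obtain ⟨w, hw⟩ : ∃ w : Fin X.s → ℝ, w = fun α' => ((A.filter (fun a => a ∈ t.S δ α')).card : ℝ) := ⟨_, rfl⟩
  have hwx : ∀ α', w α' = ((A.filter (fun a => a ∈ t.S δ α')).card : ℝ) := fun α' => by rw [hw]
  have hLm : ∀ α', α' ∈ L ↔ α' ≠ α ∧ X.crd α' = X.crd α := fun α' => by
    rw [hL, mem_filter]
    exact ⟨fun h => h.2, fun h => ⟨mem_univ _, h⟩⟩
  have hw0 : ∀ α', 0 ≤ w α' := fun α' => by rw [hwx]; exact Nat.cast_nonneg _
  have hwk : ∀ α' ∈ L, w α' ≤ (X.N : ℝ) ^ 52 := by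
    intro α' hα'
    obtain ⟨h1, h2⟩ := (hLm α').1 hα'
    have h3 := ht.t2 δ α α' b (Ne.symm h1) h2.symm
    have h4 : A.filter (fun a => a ∈ t.S δ α') =
        (X.R α δ j b).filter (fun a => a ∈ t.S δ α ∧ a ∈ t.S δ α') := by
      rw [hA, filter_filter]
    rw [hwx, h4]
    have h5 : X.kd = X.N ^ 52 := rfl
    rw [h5] at h3
    exact_mod_cast h3
  have hAc : (A.card : ℝ) ≤ 2 * (X.th * X.dd) := by
    have h3 := ht.t3 δ α b
    rw [← hA] at h3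
    have h4 : X.pw (-(39 : ℝ) / 200) ≤ 1 := by
      have h5 : (1 : ℝ) ≤ X.pw (39 / 200) := by
        have := X.pwN 0 (39 / 200) (by norm_num)
        simpa using this
      have h6 := X.pw_add (-(39 : ℝ) / 200) (39 / 200)
      have h7 : X.pw (-(39 : ℝ) / 200 + 39 / 200) = 1 := by
        unfold pw
        norm_num
      rw [h7] at h6
      have h8 := X.pw_pos (-(39 : ℝ) / 200)
      nlinarith
    have h9 : 0 ≤ X.th * X.dd := mul_nonneg hth0 hdd0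
    nlinarith
  have hsw : ∑ α' ∈ L, w α' ≤ A.card * (4 * X.pw (2 / 5)) := by
    have h1 : ∑ α' ∈ L, w α' ≤ ∑ α', w α' :=
      sum_le_sum_of_subset_of_nonneg (subset_univ _) fun i _ _ => hw0 i
    refine h1.trans ?_
    have h2 : ∑ α', w α' = ∑ a ∈ A, ((univ.filter (fun α' => a ∈ t.S δ α')).card : ℝ) := by
      have h3 : ∀ α', w α' = ∑ a ∈ A, if a ∈ t.S δ α' then (1 : ℝ) else 0 := by
        intro α'
        rw [hwx, card_filter]
        push_cast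
        rfl
      rw [sum_congr rfl fun α' _ => h3 α', sum_comm]
      refine sum_congr rfl fun a _ => ?_
      rw [card_filter]
      push_cast
      rfl
    rw [h2]
    calc ∑ a ∈ A, ((univ.filter (fun α' => a ∈ t.S δ α')).card : ℝ) ≤ ∑ _a ∈ A, 4 * X.pw (2 / 5) :=
          sum_le_sum fun a _ => ht.t1 δ a
      _ = A.card * (4 * X.pw (2 / 5)) := by rw [sum_const, nsmul_eq_mul]
  obtain ⟨μ, hμ⟩ : ∃ μ : ℝ, μ = 9 * X.pw (1 / 5) / mT X.N := ⟨_, rfl⟩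
  have hμb : ∑ α' ∈ L, X.th * w α' ≤ μ := by
    rw [← mul_sum]
    have h1 : X.th * ∑ α' ∈ L, w α' ≤ X.th * (2 * (X.th * X.dd) * (4 * X.pw (2 / 5))) := by
      refine mul_le_mul_of_nonneg_left (hsw.trans ?_) hth0
      exact mul_le_mul_of_nonneg_right hAc (by positivity)
    refine h1.trans ?_
    have h2 : X.th * (2 * (X.th * X.dd) * (4 * X.pw (2 / 5))) = 8 * (X.th ^ 2 * X.dd * X.pw (2 / 5)) := by ring
    have h3 : X.th ^ 2 ≤ (101 / 100 * X.pw (-(3 : ℝ) / 5)) ^ 2 := pow_le_pow_left₀ hth0 hth2 2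
    have h4 : X.th ^ 2 * X.dd * X.pw (2 / 5) ≤
        (101 / 100 * X.pw (-(3 : ℝ) / 5)) ^ 2 * (X.pw 1 / mT X.N) * X.pw (2 / 5) := by
      refine mul_le_mul_of_nonneg_right ?_ hp25.le
      exact mul_le_mul h3 X.dd_mT.1 hdd0 (by positivity)
    have h5 : X.pw (-(3 : ℝ) / 5) * X.pw (-(3 : ℝ) / 5) * X.pw 1 * X.pw (2 / 5) = X.pw (1 / 5) := by
      rw [X.pw_add, X.pw_add, X.pw_add]
      congr 1
      norm_num
    have h6 : (101 / 100 * X.pw (-(3 : ℝ) / 5)) ^ 2 * (X.pw 1 / mT X.N) * X.pw (2 / 5) =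
        (101 / 100) ^ 2 * X.pw (1 / 5) / mT X.N := by
      rw [← h5]
      field_simp
    rw [h2, hμ]
    rw [h6] at h4
    have h7 : 8 * (X.th ^ 2 * X.dd * X.pw (2 / 5)) ≤ 8 * ((101 / 100) ^ 2 * X.pw (1 / 5) / mT X.N) := by linarith
    refine h7.trans ?_
    rw [← mul_div_assoc]
    refine div_le_div_of_nonneg_right ?_ hmT0.le
    nlinarith
  have key := Pool.Agent.H12.LN.ch_w L (fun α' (ω : X.Co) => X.cn ω α' b)
    (fun α' => {(X.rp α' b, α')}) (fun α' _ => cn_loc α' b)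
    (fun α' _ α'' _ hne => by
      rw [disjoint_singleton]
      intro h
      exact hne (Prod.ext_iff.1 h).2) w ((X.N : ℝ) ^ 52) (by positivity)
    (fun α' hα' => ⟨hw0 α', hwk α' hα'⟩) (fun _ => X.th) (fun α' _ => le_of_eq (cn_pr α' b)) μ
    ((X.N : ℝ) ^ 6) hμb (by positivity)
  refine le_trans (pr_mono fun ω hω => ?_) key
  have hb : (((X.R α δ j b).filter (fun a => a ∈ t.S δ α ∧
        ∃ α', α' ≠ α ∧ X.crd α' = X.crd α ∧ a ∈ t.S δ α' ∧ X.cn ω α' b)).card : ℝ) ≤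
      ∑ α' ∈ L, if X.cn ω α' b then w α' else 0 := by
    have h1 : (X.R α δ j b).filter (fun a => a ∈ t.S δ α ∧
        ∃ α', α' ≠ α ∧ X.crd α' = X.crd α ∧ a ∈ t.S δ α' ∧ X.cn ω α' b) ⊆
        L.biUnion (fun α' => if X.cn ω α' b then A.filter (fun a => a ∈ t.S δ α') else ∅) := by
      intro a ha
      obtain ⟨h2, h3, α', h4, h5, h6, h7⟩ := mem_filter.1 ha
      refine mem_biUnion.2 ⟨α', (hLm α').2 ⟨h4, h5⟩, ?_⟩
      rw [if_pos h7, mem_filter, hA, mem_filter]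
      exact ⟨⟨h2, h3⟩, h6⟩
    have h2 := (card_le_card h1).trans card_biUnion_le
    have h3 : ((∑ α' ∈ L, (if X.cn ω α' b then A.filter (fun a => a ∈ t.S δ α') else ∅).card : ℕ) : ℝ) =
        ∑ α' ∈ L, if X.cn ω α' b then w α' else 0 := by
      push_cast
      refine sum_congr rfl fun α' _ => ?_
      rw [hwx]
      split_ifs
      · rfl
      · simp
    rw [← h3]
    exact_mod_cast h2
  refine le_trans ?_ hb
  refine le_trans ?_ hω.le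
  have h1 : (X.N : ℝ) ^ 113 ≤ X.pw (1 / 5) := X.pwN 113 (1 / 5) (by norm_num)
  have h2 : (X.N : ℝ) ^ 58 * mT X.N ≤ X.pw (1 / 5) := by
    calc (X.N : ℝ) ^ 58 * mT X.N ≤ (X.N : ℝ) ^ 58 * (3 * X.N ^ 54) := mul_le_mul_of_nonneg_left hmT2 (by positivity)
      _ = 3 * (X.N : ℝ) ^ 112 := by ring
      _ ≤ X.N * (X.N : ℝ) ^ 112 := mul_le_mul_of_nonneg_right (le_trans (by norm_num) hN) (by positivity)
      _ = (X.N : ℝ) ^ 113 := by ring
      _ ≤ _ := h1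
  have h3 : (X.N : ℝ) ^ 58 ≤ X.pw (1 / 5) / mT X.N := by
    rw [le_div_iff₀ hmT0]
    exact h2
  have h4 : 2 * (X.N : ℝ) ^ 6 * (X.N : ℝ) ^ 52 = 2 * (X.N : ℝ) ^ 58 := by ring
  have h5 : 0 ≤ X.pw (1 / 5) / mT X.N := by positivity
  have h6 : μ = 9 * (X.pw (1 / 5) / mT X.N) := by rw [hμ]; ring
  have h7 : 60 * X.pw (1 / 5) / mT X.N = 60 * (X.pw (1 / 5) / mT X.N) := by ring
  rw [h4, h6, h7]
  linarith

end Cx

end Pool.Agent.H2.LN
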