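/-
ROW Lvg. The number of receivers.
PROOF. Let `Rd = R α δ j a \ dis`, `K = {α' : α' ≠ α, crd α' = crd α, a ∈ t.S δ α'}`, `k = |K| ≤ 4 pw (2/5)` (`TT.t1`). `GG = {b ∈ Rd : A_b}`, `A_b`: `cn α b` and `¬ cn α' b` for `α' ∈ K`: determined by the coordinates `(rp α b, α), (rp α' b, α')`, different for different `b ∈ Rd` (`rp_inj`: all `b ∈ R a` have `sd α b = sd α a + 1` by `R_sd`, and `sd α' = sd α` since `crd α' = crd α`) and for different labels.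
`pr A_b = th (1 - th) ^ k` (`pr_prod`/`ex_prod`-type rules of GI or independence: see `H65/GI/Exq`, `Kpl`: product over independent events). Mean `μ = |Rd| th (1 - th)^k`, `dd - 1 - kd ≤ |Rd| ≤ dd`, `(1 - th)^k ≥ 1 - k th ≥ 1 - 5 pw (-1/5)` (Bernoulli): `|μ - th dd| ≤ th dd (5 pw (-1/5) + (kd + 1) / dd) ≤ th dd pw (-39/200) / 2`.
`ber` (H12/LN/Tools) with weights `1`, `V = th dd`, `t = th dd pw (-39/200) / 2`: exponent `t ^ 2 / (4 (th dd + t)) ≥ th dd pw (-39/100) / 32 ≥ pw (1/100) / (256 N ^ 54) ≥ N ^ 6 + 1` (`th_bd`, `dd_bd`, `pwN` with `x = 1/100`: `N ^ 400 ≤ pw (1/100)`), `2 exp (-(N^6+1)) ≤ exp (-N^6)`.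
-/
import Pool.Agent.H2.LN.LD
import Pool.Agent.H2.LN.L.Lrp
import Pool.Agent.H12.LN.Tools
import Pool.Agent.H12.LN.V0
import Pool.Agent.H65.GI.Lll

set_option autoImplicit false
set_option linter.unusedSectionVars false

namespace Pool.Agent.H2.LN

open Finset Classical
open Pool.Agent.H65.GI

namespace Cx

variable {V : Type} [Fintype V] {X : Cx V} {c : V → ℕ} {Rc : Finset V}

theorem Lvg_sd {α α' : Fin X.s} (h : X.crd α' = X.crd α) (v : V) : X.sd α' v = X.sd α v := by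
  unfold Cx.sd
  rw [h]

/-- the other labels -/
noncomputable def Lvg_K (X : Cx V) (t : X.St) (δ : ZMod 2) (α : Fin X.s) (a : V) : Finset (Fin X.s) :=
  univ.filter (fun α' => α' ≠ α ∧ X.crd α' = X.crd α ∧ a ∈ t.S δ α')

/-- the event that `b` is used by `a` -/
def Lvg_A (X : Cx V) (t : X.St) (δ : ZMod 2) (α : Fin X.s) (a b : V) (ω : X.Co) : Prop :=
  ∀ α' ∈ insert α (Lvg_K X t δ α a), if α' = α then X.cn ω α' b else ¬ X.cn ω α' b

theorem Lvg_A_iff (t : X.St) (δ : ZMod 2) (α : Fin X.s) (a b : V) (ω : X.Co) :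
    Lvg_A X t δ α a b ω ↔ (X.cn ω α b ∧ ∀ α', α' ≠ α → X.crd α' = X.crd α → a ∈ t.S δ α' → ¬ X.cn ω α' b) := by
  unfold Lvg_A
  constructor
  · intro h
    refine ⟨?_, fun α' h1 h2 h3 => ?_⟩
    · have h1 := h α (mem_insert_self _ _)
      rwa [if_pos rfl] at h1
    · have h4 := h α' (mem_insert_of_mem (mem_filter.2 ⟨mem_univ _, h1, h2, h3⟩))
      rwa [if_neg h1] at h4
  · rintro ⟨h1, h2⟩ α' h3
    by_cases h4 : α' = α
    · rw [if_pos h4, h4]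
      exact h1
    · rw [if_neg h4]
      rcases mem_insert.1 h3 with h5 | h5
      · exact absurd h5 h4
      · obtain ⟨_, h6⟩ := mem_filter.1 h5
        exact h2 α' h6.1 h6.2.1 h6.2.2

/-- the coins of `b` -/
noncomputable def Lvg_S (X : Cx V) (t : X.St) (δ : ZMod 2) (α : Fin X.s) (a b : V) : Finset (V × Fin X.s) :=
  (insert α (Lvg_K X t δ α a)).image (fun α' => (X.rp α' b, α'))

theorem Lvg_loc1 (α α' : Fin X.s) (b : V) :
    Loc (fun ω : X.Co => if α' = α then X.cn ω α' b else ¬ X.cn ω α' b) {(X.rp α' b, α')} := by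
  intro ω ω' h
  have h1 := cn_loc (X := X) α' b ω ω' h
  have h2 : X.cn ω α' b = X.cn ω' α' b := h1
  simp only [h2]

theorem Lvg_loc (t : X.St) (δ : ZMod 2) (α : Fin X.s) (a b : V) : Loc (Lvg_A X t δ α a b) (Lvg_S X t δ α a b) := by
  intro ω ω' h
  unfold Lvg_A
  refine propext (forall_congr' fun α' => ?_)
  refine forall_congr' fun hα' => ?_
  have h1 := Lvg_loc1 (X := X) α α' b ω ω' (fun i hi => h i (by
    rw [mem_singleton] at hi
    rw [hi]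
    exact mem_image.2 ⟨α', hα', rfl⟩))
  exact iff_of_eq h1

theorem Lvg_pr (t : X.St) (δ : ZMod 2) (α : Fin X.s) (a b : V) :
    pr (Lvg_A X t δ α a b) = X.th * (1 - X.th) ^ (Lvg_K X t δ α a).card := by
  have hq := X.th_bd.2.2.1
  have : Nonempty (Fin X.q) := ⟨⟨0, hq⟩⟩
  have h := pr_forall (insert α (Lvg_K X t δ α a))
    (fun α' (ω : X.Co) => if α' = α then X.cn ω α' b else ¬ X.cn ω α' b)
    (fun α' => {(X.rp α' b, α')}) (fun α' _ => Lvg_loc1 α α' b) (fun i _ j _ hij => by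
      rw [disjoint_singleton]
      intro h1
      exact hij (Prod.ext_iff.1 h1).2)
  have h0 : α ∉ Lvg_K X t δ α a := by
    intro h1
    exact (mem_filter.1 h1).2.1 rfl
  have h1 : pr (Lvg_A X t δ α a b) = pr (fun ω : X.Co => ∀ α' ∈ insert α (Lvg_K X t δ α a),
      if α' = α then X.cn ω α' b else ¬ X.cn ω α' b) := rfl
  rw [h1, h, prod_insert h0]
  congr 1
  · have h2 : (fun ω : X.Co => if α = α then X.cn ω α b else ¬ X.cn ω α b) = fun ω => X.cn ω α b := by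
      funext ω
      exact if_pos rfl
    rw [h2]
    exact cn_pr α b
  · rw [← prod_const]
    refine prod_congr rfl fun α' hα' => ?_
    have h3 : α' ≠ α := (mem_filter.1 hα').2.1
    have h2 : (fun ω : X.Co => if α' = α then X.cn ω α' b else ¬ X.cn ω α' b) = fun ω => ¬ X.cn ω α' b := by
      funext ω
      exact if_neg h3
    rw [h2, pr_not, cn_pr]

theorem Lvg_GG (j : ℕ) (t : X.St) (ω : X.Co) (δ : ZMod 2) (α : Fin X.s) (a : V) :
    ((X.GG (X.dis c Rc) j t ω δ α a).card : ℝ) =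
      ∑ b ∈ (X.R α δ j a).filter (fun b => b ∉ X.dis c Rc α), if Lvg_A X t δ α a b ω then (1 : ℝ) else 0 := by
  rw [sum_boole, filter_filter]
  congr 2
  unfold Cx.GG
  refine filter_congr fun b _ => ?_
  rw [Lvg_A_iff]

theorem Lvg_disj (t : X.St) (δ : ZMod 2) (α : Fin X.s) (a : V) {j : ℕ} {b b' : V} (hb : b ∈ X.R α δ j a)
    (hb' : b' ∈ X.R α δ j a) (hne : b ≠ b') : Disjoint (Lvg_S X t δ α a b) (Lvg_S X t δ α a b') := by
  rw [disjoint_left]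
  intro i hi hi'
  obtain ⟨α1, h1, h2⟩ := mem_image.1 hi
  obtain ⟨α2, h3, h4⟩ := mem_image.1 hi'
  rw [← h4] at h2
  obtain ⟨h5, h6⟩ := Prod.ext_iff.1 h2
  dsimp only at h5 h6
  rw [← h6] at h5
  have h7 : X.crd α1 = X.crd α := by
    rcases mem_insert.1 h1 with h | h
    · rw [h]
    · exact (mem_filter.1 h).2.2.1
  refine hne (rp_inj h5 ?_)
  rw [Lvg_sd h7, Lvg_sd h7, X.R_sd hb, X.R_sd hb']

/-- the numbers -/
theorem Lvg_num (k r : ℕ) (hk : (k : ℝ) ≤ 4 * X.pw (2 / 5)) (hr : (r : ℝ) ≤ X.dd) (hr' : X.dd ≤ r + (1 + X.kd)) :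
    |(r : ℝ) * (X.th * (1 - X.th) ^ k) - X.th * X.dd| ≤ X.th * X.dd * X.pw (-(39 : ℝ) / 200) / 2 := by
  obtain ⟨ht1, ht2, hq, ht3⟩ := X.th_bd
  have hN := X.N_big
  have hN1 : (1 : ℝ) ≤ X.N := le_trans (by norm_num) hN
  have hN0 : (0 : ℝ) < X.N := by linarith
  have hth : 0 < X.th := lt_of_lt_of_le (X.pw_pos _) ht1
  obtain ⟨hd1, hd2⟩ := X.dd_bd
  have hdd : 0 < X.dd := lt_of_lt_of_le (div_pos (X.pw_pos _) (by positivity)) hd1
  have hp1 : (1 - X.th) ^ k ≤ 1 := pow_le_one₀ (by linarith) (by linarith)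
  have hp2 : 1 - k * X.th ≤ (1 - X.th) ^ k := by
    have h := one_add_mul_le_pow (show (-2 : ℝ) ≤ -X.th by linarith) k
    have e : (1 : ℝ) + -X.th = 1 - X.th := by ring
    rw [e] at h
    linarith
  have hp3 : 0 ≤ (1 - X.th) ^ k := pow_nonneg (by linarith) k
  -- k th is small
  have e1 : X.pw (2 / 5) * X.pw (-(3 : ℝ) / 5) = X.pw (-(39 : ℝ) / 200) * X.pw (-(1 : ℝ) / 200) := by
    rw [X.pw_add, X.pw_add]
    congr 1
    norm_num
  have e2 : X.pw ((1 : ℝ) / 200) * X.pw (-(1 : ℝ) / 200) = 1 := by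
    rw [X.pw_add]
    have : (1 : ℝ) / 200 + -1 / 200 = 0 := by norm_num
    rw [this]
    exact Real.rpow_zero _
  have e3 : (X.N : ℝ) ^ 1 ≤ X.pw ((1 : ℝ) / 200) := X.pwN 1 _ (by norm_num)
  have hs : 0 < X.pw (-(1 : ℝ) / 200) := X.pw_pos _
  have e4 : X.pw (-(1 : ℝ) / 200) ≤ 1 / 100 := by
    rw [pow_one] at e3
    have h1 : (100 : ℝ) ≤ X.pw ((1 : ℝ) / 200) := le_trans (le_trans (by norm_num) hN) e3
    nlinarith
  have he : 0 < X.pw (-(39 : ℝ) / 200) := X.pw_pos _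
  have hkt : k * X.th ≤ X.pw (-(39 : ℝ) / 200) / 4 := by
    have h1 : k * X.th ≤ 4 * X.pw (2 / 5) * (101 / 100 * X.pw (-(3 : ℝ) / 5)) :=
      mul_le_mul hk ht2 hth.le (by have := X.pw_pos (2 / 5); positivity)
    have h2 : 4 * X.pw (2 / 5) * (101 / 100 * X.pw (-(3 : ℝ) / 5)) =
        101 / 25 * (X.pw (-(39 : ℝ) / 200) * X.pw (-(1 : ℝ) / 200)) := by
      rw [← e1]
      ring
    rw [h2] at h1
    nlinarith
  -- (1 + kd) is small
  have e5 : X.pw 1 * X.pw (-(39 : ℝ) / 200) = X.pw ((161 : ℝ) / 200) := by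
    rw [X.pw_add]
    congr 1
    norm_num
  have e6 : (X.N : ℝ) ^ 107 ≤ X.pw ((161 : ℝ) / 200) := X.pwN 107 _ (by norm_num)
  have hkd : (1 + (X.kd : ℝ)) ≤ X.dd * X.pw (-(39 : ℝ) / 200) / 4 := by
    have h1 : X.pw 1 / (8 * X.N ^ 54) * X.pw (-(39 : ℝ) / 200) / 4 ≤ X.dd * X.pw (-(39 : ℝ) / 200) / 4 := by
      have := mul_le_mul_of_nonneg_right hd1 he.le
      linarith
    refine le_trans ?_ h1
    have h2 : X.pw 1 / (8 * X.N ^ 54) * X.pw (-(39 : ℝ) / 200) / 4 = X.pw ((161 : ℝ) / 200) / (32 * X.N ^ 54) := by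
      rw [← e5]
      field_simp
      ring
    rw [h2, le_div_iff₀ (by positivity)]
    refine le_trans ?_ e6
    have h3 : (X.kd : ℝ) = (X.N : ℝ) ^ 52 := by
      unfold Cx.kd
      push_cast
      rfl
    rw [h3]
    have h4 : (1 : ℝ) ≤ (X.N : ℝ) ^ 52 := one_le_pow₀ hN1
    have h5 : (64 : ℝ) ≤ X.N := le_trans (by norm_num) hN
    calc (1 + (X.N : ℝ) ^ 52) * (32 * X.N ^ 54) ≤ (X.N ^ 52 + (X.N : ℝ) ^ 52) * (32 * X.N ^ 54) :=
          mul_le_mul_of_nonneg_right (by linarith) (by positivity)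
      _ = 64 * (X.N : ℝ) ^ 106 := by ring
      _ ≤ X.N * (X.N : ℝ) ^ 106 := mul_le_mul_of_nonneg_right h5 (by positivity)
      _ = (X.N : ℝ) ^ 107 := by ring
  have hr0 : (0 : ℝ) ≤ r := Nat.cast_nonneg r
  rw [abs_le]
  constructor
  · -- lower bound
    have h1 : (r : ℝ) * (X.th * (1 - k * X.th)) ≤ r * (X.th * (1 - X.th) ^ k) :=
      mul_le_mul_of_nonneg_left (mul_le_mul_of_nonneg_left hp2 hth.le) hr0
    have h2 : (r : ℝ) * (X.th * (1 - k * X.th)) = X.th * r - X.th * (r * (k * X.th)) := by ring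
    have h3 : (r : ℝ) * (k * X.th) ≤ X.dd * (X.pw (-(39 : ℝ) / 200) / 4) :=
      mul_le_mul hr hkt (mul_nonneg (Nat.cast_nonneg k) hth.le) hdd.le
    have h4 : X.th * (r * (k * X.th)) ≤ X.th * (X.dd * (X.pw (-(39 : ℝ) / 200) / 4)) :=
      mul_le_mul_of_nonneg_left h3 hth.le
    have h5 : X.th * (X.dd - X.dd * X.pw (-(39 : ℝ) / 200) / 4) ≤ X.th * r :=
      mul_le_mul_of_nonneg_left (by linarith) hth.le
    nlinarith
  · have h1 : (r : ℝ) * (X.th * (1 - X.th) ^ k) ≤ X.dd * (X.th * 1) :=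
      mul_le_mul hr (mul_le_mul_of_nonneg_left hp1 hth.le) (by positivity) hdd.le
    have h2 : 0 ≤ X.th * X.dd * X.pw (-(39 : ℝ) / 200) / 2 := by positivity
    linarith

/-- the exponent -/
theorem Lvg_exp : 2 * Real.exp (-((X.th * X.dd * X.pw (-(39 : ℝ) / 200) / 2) ^ 2 /
    (4 * (X.th * X.dd + 1 * (X.th * X.dd * X.pw (-(39 : ℝ) / 200) / 2))))) ≤ Real.exp (-(X.N : ℝ) ^ 6) := by
  obtain ⟨ht1, ht2, hq, ht3⟩ := X.th_bd
  have hN := X.N_big
  have hN1 : (1 : ℝ) ≤ X.N := le_trans (by norm_num) hN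
  have hN0 : (0 : ℝ) < X.N := by linarith
  have hth : 0 < X.th := lt_of_lt_of_le (X.pw_pos _) ht1
  obtain ⟨hd1, hd2⟩ := X.dd_bd
  have hdd : 0 < X.dd := lt_of_lt_of_le (div_pos (X.pw_pos _) (by positivity)) hd1
  obtain ⟨e, he⟩ : ∃ e, e = X.pw (-(39 : ℝ) / 200) := ⟨_, rfl⟩
  obtain ⟨W, hW⟩ : ∃ W, W = X.th * X.dd := ⟨_, rfl⟩
  have hW0 : 0 < W := by rw [hW]; positivity
  have he0 : 0 < e := by rw [he]; exact X.pw_pos _
  have e2 : X.pw ((39 : ℝ) / 200) * e = 1 := by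
    rw [he, X.pw_add]
    have : (39 : ℝ) / 200 + -39 / 200 = 0 := by norm_num
    rw [this]
    exact Real.rpow_zero _
  have he1 : e ≤ 1 := by
    have h1 : (X.N : ℝ) ^ 0 ≤ X.pw ((39 : ℝ) / 200) := X.pwN 0 _ (by norm_num)
    rw [pow_zero] at h1
    nlinarith
  have h1 : W * e ^ 2 / 32 ≤ (W * e / 2) ^ 2 / (4 * (W + 1 * (W * e / 2))) := by
    rw [div_le_div_iff₀ (by norm_num) (by positivity)]
    have h2 : W * e ≤ W * 1 := mul_le_mul_of_nonneg_left he1 hW0.le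
    have h3 : 0 ≤ W * e ^ 2 := by positivity
    nlinarith
  have h2 : X.pw ((1 : ℝ) / 100) / (8 * X.N ^ 54) ≤ W * e ^ 2 := by
    have h3 : X.pw (-(3 : ℝ) / 5) * (X.pw 1 / (8 * X.N ^ 54)) ≤ W := by
      rw [hW]
      exact mul_le_mul ht1 hd1 (div_nonneg (X.pw_pos _).le (by positivity)) hth.le
    have h4 : X.pw (-(3 : ℝ) / 5) * (X.pw 1 / (8 * X.N ^ 54)) * e ^ 2 ≤ W * e ^ 2 :=
      mul_le_mul_of_nonneg_right h3 (sq_nonneg e)
    refine le_trans (le_of_eq ?_) h4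
    have h5 : X.pw ((1 : ℝ) / 100) = X.pw (-(3 : ℝ) / 5) * X.pw 1 * (e * e) := by
      rw [he, X.pw_add, X.pw_add, X.pw_add]
      congr 1
      norm_num
    rw [h5]
    ring
  have h3 : (X.N : ℝ) ^ 6 + 1 ≤ W * e ^ 2 / 32 := by
    have h4 : (X.N : ℝ) ^ 400 ≤ X.pw ((1 : ℝ) / 100) := X.pwN 400 _ (by norm_num)
    have h5 : (X.N : ℝ) ^ 62 ≤ X.pw ((1 : ℝ) / 100) := (pow_le_pow_right₀ hN1 (by norm_num)).trans h4
    have h6 : (X.N : ℝ) ^ 8 / 8 ≤ W * e ^ 2 := by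
      refine le_trans ?_ h2
      rw [div_le_div_iff₀ (by norm_num) (by positivity)]
      calc (X.N : ℝ) ^ 8 * (8 * X.N ^ 54) = (X.N : ℝ) ^ 62 * 8 := by ring
        _ ≤ _ := mul_le_mul_of_nonneg_right h5 (by norm_num)
    have h7 : (512 : ℝ) ≤ X.N := le_trans (by norm_num) hN
    have h8 : (1 : ℝ) ≤ (X.N : ℝ) ^ 6 := one_le_pow₀ hN1
    have h9 : (512 : ℝ) * X.N ^ 6 ≤ (X.N : ℝ) ^ 8 := by
      have h10 : (X.N : ℝ) ^ 8 = X.N * X.N * X.N ^ 6 := by ring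
      rw [h10]
      refine mul_le_mul_of_nonneg_right ?_ (by positivity)
      nlinarith
    linarith
  have h4 : (2 : ℝ) ≤ Real.exp 1 := by
    have := Real.add_one_le_exp (1 : ℝ)
    linarith
  rw [← he, ← hW]
  calc 2 * Real.exp (-((W * e / 2) ^ 2 / (4 * (W + 1 * (W * e / 2)))))
      ≤ Real.exp 1 * Real.exp (-((X.N : ℝ) ^ 6 + 1)) :=
        mul_le_mul h4 (Real.exp_le_exp.2 (by linarith)) (Real.exp_pos _).le (Real.exp_pos _).le
    _ = Real.exp (-(X.N : ℝ) ^ 6) := by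
        rw [← Real.exp_add]
        congr 1
        ring

/-- event `g` -/
theorem ev_g (hk : X.KD c Rc) (j : ℕ) (hj : j < X.n) (t : X.St) (ht : X.TT j t) (δ : ZMod 2)
    (α : Fin X.s) (a : V) (ha : a ∈ t.S δ α) :
    pr (fun ω : X.Co => X.th * X.dd * X.pw (-(39 : ℝ) / 200) <
      |((X.GG (X.dis c Rc) j t ω δ α a).card : ℝ) - X.th * X.dd|) ≤ Real.exp (-(X.N : ℝ) ^ 6) := by
  have hq := X.th_bd.2.2.1
  have : Nonempty (Fin X.q) := ⟨⟨0, hq⟩⟩
  obtain ⟨ht1, ht2, _, ht3⟩ := X.th_bd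
  have hth : 0 < X.th := lt_of_lt_of_le (X.pw_pos _) ht1
  obtain ⟨hd1, hd2⟩ := X.dd_bd
  have hN1 : (1 : ℝ) ≤ X.N := le_trans (by norm_num) X.N_big
  have hdd : 0 < X.dd := lt_of_lt_of_le (div_pos (X.pw_pos _) (by positivity)) hd1
  obtain ⟨Rd, hRd⟩ : ∃ Rd, Rd = (X.R α δ j a).filter (fun b => b ∉ X.dis c Rc α) := ⟨_, rfl⟩
  have hr1 : (Rd.card : ℝ) ≤ X.dd := by
    refine le_trans ?_ (X.R_card_le α δ j a)
    rw [hRd]
    exact_mod_cast card_filter_le _ _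
  have hr2 : X.dd ≤ Rd.card + (1 + X.kd) := by
    have h1 := X.R_card_ge α δ j a
    have h2 := hk α δ j a hj.le
    have h3 : ((X.R α δ j a).filter (fun b => b ∈ X.dis c Rc α)).card + Rd.card = (X.R α δ j a).card := by
      rw [hRd]
      exact card_filter_add_card_filter_not _
    have h4 : ((X.R α δ j a).card : ℝ) = ((X.R α δ j a).filter (fun b => b ∈ X.dis c Rc α)).card + Rd.card := by
      exact_mod_cast h3.symm
    have h5 : (((X.R α δ j a).filter (fun b => b ∈ X.dis c Rc α)).card : ℝ) ≤ X.kd := by exact_mod_cast h2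
    linarith
  have hkc : ((Lvg_K X t δ α a).card : ℝ) ≤ 4 * X.pw (2 / 5) := by
    refine le_trans ?_ (ht.t1 δ a)
    have : (Lvg_K X t δ α a).card ≤ (univ.filter (fun α => a ∈ t.S δ α)).card := by
      refine card_le_card fun α' hα' => ?_
      exact mem_filter.2 ⟨mem_univ _, (mem_filter.1 hα').2.2.2⟩
    exact_mod_cast this
  have hsum : ∑ b ∈ Rd, (1 : ℝ) * pr (Lvg_A X t δ α a b) =
      (Rd.card : ℝ) * (X.th * (1 - X.th) ^ (Lvg_K X t δ α a).card) := by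
    have h1 : ∀ b ∈ Rd, (1 : ℝ) * pr (Lvg_A X t δ α a b) = X.th * (1 - X.th) ^ (Lvg_K X t δ α a).card := by
      intro b _
      rw [one_mul, Lvg_pr]
    rw [sum_congr rfl h1, sum_const, nsmul_eq_mul]
  have hp1 : (1 - X.th) ^ (Lvg_K X t δ α a).card ≤ 1 := pow_le_one₀ (by linarith) (by linarith)
  have hp3 : 0 ≤ (1 - X.th) ^ (Lvg_K X t δ α a).card := pow_nonneg (by linarith) _
  have hber := Pool.Agent.H12.LN.ber Rd (fun b => Lvg_A X t δ α a b) (fun b => Lvg_S X t δ α a b)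
    (fun b _ => Lvg_loc t δ α a b) (fun b hb b' hb' hne => by
      rw [hRd] at hb hb'
      exact Lvg_disj t δ α a (mem_filter.1 hb).1 (mem_filter.1 hb').1 hne)
    (fun _ => 1) 1 (X.th * X.dd) (X.th * X.dd * X.pw (-(39 : ℝ) / 200) / 2)
    (fun _ _ => ⟨zero_le_one, le_rfl⟩) (by
      have h1 : ∑ b ∈ Rd, (1 : ℝ) ^ 2 * pr (Lvg_A X t δ α a b) = ∑ b ∈ Rd, (1 : ℝ) * pr (Lvg_A X t δ α a b) :=
        sum_congr rfl fun b _ => by rw [one_pow]
      rw [h1, hsum]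
      have h2 : (Rd.card : ℝ) * (X.th * (1 - X.th) ^ (Lvg_K X t δ α a).card) ≤ X.dd * (X.th * 1) :=
        mul_le_mul hr1 (mul_le_mul_of_nonneg_left hp1 hth.le) (by positivity) hdd.le
      linarith) zero_le_one (by have := X.pw_pos (-(39 : ℝ) / 200); positivity)
  refine le_trans ?_ (hber.trans Lvg_exp)
  refine pr_mono fun ω hω => ?_
  have hnum := Lvg_num (X := X) (Lvg_K X t δ α a).card Rd.card hkc hr1 hr2
  rw [Lvg_GG, ← hRd] at hω
  rw [hsum]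
  rw [abs_le] at hnum
  by_contra hn
  rw [not_le, abs_lt] at hn
  rw [lt_abs] at hω
  rcases hω with h | h <;> linarith [hn.1, hn.2, hnum.1, hnum.2]

end Cx

end Pool.Agent.H2.LN
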