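/-
ROW Lvh. The test functions against the senders.
PROOF. `∑_{x ∈ nS} f x = ∑_{x : sd x = δ, x ∉ dis} [cn α x] f x`; the coordinates `(rp α x, α)` are different for different `x` on the same side (`rp_inj`); mean `th ∑ f` (`cn_pr`). McDiarmid (`mcd2`): the coordinate `(v, α)` influences only the `x ∈ {v, M α v}` on the side `δ` with `rp α x = v`: `c_(v,α) = ` the value `f x` of this `x` (`∑ c^2 ≤ ∑ f^2 ≤ 16 N^3 / Δ^12`; if this is `0`, `f = 0`), `c = 0` for the other labels.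
`t = pw (-19/5)`: exponent `pw (-38/5) Δ^12 / (32 N^3) ≥ N^6 + 1`. (Or `ber` with `w = f`.)
-/
import Pool.Agent.H2.LN.LD
import Pool.Agent.H2.LN.L.Lrp
import Pool.Agent.H12.LN.Tools
import Pool.Agent.H12.LN.V0
import Pool.Agent.H65.GI.Lll

set_option autoImplicit false
set_option linter.unusedSectionVars false

namespace Pool.Agent.H2.LN

open Finset Classical
open Pool.Agent.H65.GI

namespace Cx

variable {V : Type} [Fintype V] {X : Cx V} {c : V → ℕ} {Rc : Finset V}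

theorem Lvh_num (X : Cx V) (F2 : ℝ) (hF0 : 0 ≤ F2) (hF : F2 ≤ 16 * X.N ^ 3 / (X.Δ : ℝ) ^ 12) :
    (X.N : ℝ) ^ 6 + 1 ≤ X.pw (-(19 : ℝ) / 5) ^ 2 /
      (4 * (F2 + 4 * X.N ^ 2 / (X.Δ : ℝ) ^ 6 * X.pw (-(19 : ℝ) / 5))) ∨
      F2 + 4 * X.N ^ 2 / (X.Δ : ℝ) ^ 6 * X.pw (-(19 : ℝ) / 5) = 0 := by
  left
  have hN := X.N_big
  have hN0 : (0 : ℝ) < X.N := lt_of_lt_of_le (by positivity) hN
  have hN160 : (160 : ℝ) ≤ X.N := le_trans (by norm_num) hN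
  have hN1 : (1 : ℝ) ≤ X.N := le_trans (by norm_num) hN160
  have hD0 : (0 : ℝ) < X.Δ := by
    have h := X.pw_pos 1
    unfold pw at h
    rwa [Real.rpow_one] at h
  have hD1 : (1 : ℝ) ≤ X.Δ := by
    have h := X.pwN 0 1 (by norm_num)
    unfold pw at h
    rwa [pow_zero, Real.rpow_one] at h
  have e12 : 16 * (X.N : ℝ) ^ 3 / (X.Δ : ℝ) ^ 12 = 16 * X.N ^ 3 * X.pw (-12) := by
    unfold pw
    rw [Real.rpow_neg hD0.le, show (12 : ℝ) = ((12 : ℕ) : ℝ) by norm_num, Real.rpow_natCast, div_eq_mul_inv]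
  have e6 : 4 * (X.N : ℝ) ^ 2 / (X.Δ : ℝ) ^ 6 = 4 * X.N ^ 2 * X.pw (-6) := by
    unfold pw
    rw [Real.rpow_neg hD0.le, show (6 : ℝ) = ((6 : ℕ) : ℝ) by norm_num, Real.rpow_natCast, div_eq_mul_inv]
  have hmono : X.pw (-12) ≤ X.pw (-(49 : ℝ) / 5) := by
    unfold pw
    exact Real.rpow_le_rpow_of_exponent_le hD1 (by norm_num)
  have e1 : X.pw (-6) * X.pw (-(19 : ℝ) / 5) = X.pw (-(49 : ℝ) / 5) := by
    rw [X.pw_add]; norm_num
  have e2 : X.pw (-(19 : ℝ) / 5) ^ 2 = X.pw ((11 : ℝ) / 5) * X.pw (-(49 : ℝ) / 5) := by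
    rw [pow_two, X.pw_add, X.pw_add]; norm_num
  have hP := X.pw_pos (-(49 : ℝ) / 5)
  obtain ⟨P, hPe⟩ : ∃ P, P = X.pw (-(49 : ℝ) / 5) := ⟨_, rfl⟩
  rw [e12] at hF
  rw [e6, e2]
  have e3 : 4 * (X.N : ℝ) ^ 2 * X.pw (-6) * X.pw (-(19 : ℝ) / 5) = 4 * X.N ^ 2 * P := by
    rw [mul_assoc, e1, hPe]
  rw [e3, ← hPe]
  rw [← hPe] at hP hmono
  have h16 : F2 ≤ 16 * X.N ^ 3 * P :=
    hF.trans (mul_le_mul_of_nonneg_left hmono (by positivity))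
  have hden0 : 0 < 4 * (F2 + 4 * (X.N : ℝ) ^ 2 * P) := by positivity
  rw [le_div_iff₀ hden0]
  have h20 : F2 + 4 * (X.N : ℝ) ^ 2 * P ≤ 20 * X.N ^ 3 * P := by
    have : (X.N : ℝ) ^ 2 ≤ X.N ^ 3 := pow_le_pow_right₀ hN1 (by norm_num)
    nlinarith
  have h10 : (X.N : ℝ) ^ 10 ≤ X.pw ((11 : ℝ) / 5) := X.pwN 10 _ (by norm_num)
  have h9 : ((X.N : ℝ) ^ 6 + 1) * (80 * X.N ^ 3) ≤ X.N ^ 10 := by
    have h6 : (1 : ℝ) ≤ X.N ^ 6 := one_le_pow₀ hN1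
    calc ((X.N : ℝ) ^ 6 + 1) * (80 * X.N ^ 3) ≤ ((X.N : ℝ) ^ 6 + (X.N : ℝ) ^ 6) * (80 * (X.N : ℝ) ^ 3) := by gcongr
      _ = 160 * (X.N : ℝ) ^ 9 := by ring
      _ ≤ (X.N : ℝ) * (X.N : ℝ) ^ 9 := by gcongr
      _ = (X.N : ℝ) ^ 10 := by ring
  calc ((X.N : ℝ) ^ 6 + 1) * (4 * (F2 + 4 * (X.N : ℝ) ^ 2 * P))
      ≤ ((X.N : ℝ) ^ 6 + 1) * (4 * (20 * X.N ^ 3 * P)) := by gcongr
    _ = (((X.N : ℝ) ^ 6 + 1) * (80 * X.N ^ 3)) * P := by ring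
    _ ≤ X.N ^ 10 * P := by gcongr
    _ ≤ X.pw ((11 : ℝ) / 5) * P := by gcongr

theorem Lvh_two (a b : ℝ) (h : a + 1 ≤ b) : 2 * Real.exp (-b) ≤ Real.exp (-a) := by
  have h1 : Real.exp (-b) ≤ Real.exp (-a) * Real.exp (-1) := by
    rw [← Real.exp_add]
    exact Real.exp_le_exp.2 (by linarith)
  have h2 : 2 * Real.exp (-1) ≤ 1 := by
    have h3 := Real.add_one_le_exp (1 : ℝ)
    rw [Real.exp_neg, ← div_eq_mul_inv, div_le_one (Real.exp_pos _)]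
    linarith
  have h4 := Real.exp_pos (-a)
  calc 2 * Real.exp (-b) ≤ 2 * (Real.exp (-a) * Real.exp (-1)) := by linarith
    _ = Real.exp (-a) * (2 * Real.exp (-1)) := by ring
    _ ≤ Real.exp (-a) * 1 := mul_le_mul_of_nonneg_left h2 h4.le
    _ = Real.exp (-a) := mul_one _

/-- event `h` -/
theorem ev_h (δ : ZMod 2) (α : Fin X.s) (f : V → ℝ) (v : V) (hf : LinF X.G X.N X.Δ v f) :
    pr (fun ω : X.Co => X.pw (-(19 : ℝ) / 5) < |(∑ x ∈ X.nS (X.dis c Rc) ω δ α, f x) -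
      X.th * ∑ x ∈ univ.filter (fun x => X.sd α x = δ ∧ x ∉ X.dis c Rc α), f x|) ≤
      Real.exp (-(X.N : ℝ) ^ 6) := by
  have hth := th_bd X
  have hq : 0 < X.q := hth.2.2.1
  have hth1 : X.th ≤ 1 := hth.2.2.2
  have hth0 : 0 ≤ X.th := (X.pw_pos _).le.trans hth.1
  have : Nonempty (Fin X.q) := ⟨⟨0, hq⟩⟩
  have hN0 : (0 : ℝ) < X.N := lt_of_lt_of_le (by positivity) X.N_big
  have hN1 : (1 : ℝ) ≤ X.N := le_trans (by norm_num) X.N_big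
  have hT := X.pw_pos (-(19 : ℝ) / 5)
  have hF20 : 0 ≤ ∑ x, f x ^ 2 := sum_nonneg fun _ _ => sq_nonneg _
  have hnum := Lvh_num X (∑ x, f x ^ 2) hF20 hf.l2
  have hW0 : (0 : ℝ) ≤ 4 * X.N ^ 2 / (X.Δ : ℝ) ^ 6 := by positivity
  have hfW : ∀ x, f x ≤ 4 * X.N ^ 2 / (X.Δ : ℝ) ^ 6 := by
    intro x
    have h1 : f x ^ 2 ≤ ∑ y, f y ^ 2 :=
      single_le_sum (f := fun y => f y ^ 2) (fun y _ => sq_nonneg _) (mem_univ x)
    have h2 : f x ^ 2 ≤ (4 * X.N ^ 2 / (X.Δ : ℝ) ^ 6) ^ 2 := by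
      refine (h1.trans hf.l2).trans ?_
      rw [div_pow, ← pow_mul]
      refine div_le_div_of_nonneg_right ?_ (by positivity)
      calc 16 * (X.N : ℝ) ^ 3 ≤ 16 * (X.N : ℝ) ^ 4 := by
            have : (X.N : ℝ) ^ 3 ≤ (X.N : ℝ) ^ 4 := pow_le_pow_right₀ hN1 (by norm_num)
            linarith
        _ = (4 * (X.N : ℝ) ^ 2) ^ 2 := by ring
    exact (pow_le_pow_iff_left₀ (hf.nn x) hW0 two_ne_zero).1 h2
  have hber := Pool.Agent.H12.LN.ber (I := V × Fin X.s) (κ := Fin X.q)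
    (univ.filter (fun x => X.sd α x = δ ∧ x ∉ X.dis c Rc α))
    (fun x (ω : V × Fin X.s → Fin X.q) => X.cn ω α x) (fun x => {(X.rp α x, α)})
    (fun x _ => cn_loc α x) (fun x hx y hy hxy => by
      rw [Finset.disjoint_singleton]
      intro h
      have h1 := (Prod.ext_iff.1 h).1
      exact hxy (rp_inj h1 ((mem_filter.1 hx).2.1.trans (mem_filter.1 hy).2.1.symm)))
    f (4 * X.N ^ 2 / (X.Δ : ℝ) ^ 6) (∑ x, f x ^ 2) (X.pw (-(19 : ℝ) / 5))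
    (fun x _ => ⟨hf.nn x, hfW x⟩) (by
      refine le_trans ?_ (sum_le_sum_of_subset_of_nonneg (filter_subset
        (fun x => X.sd α x = δ ∧ x ∉ X.dis c Rc α) univ) fun x _ _ => sq_nonneg (f x))
      refine sum_le_sum fun x _ => ?_
      exact mul_le_of_le_one_right (sq_nonneg _) (Pool.Agent.H65.GI.pr_le_one _)) hW0 hT.le
  refine le_trans (pr_mono (B := fun ω : X.Co => X.pw (-(19 : ℝ) / 5) ≤
      |(∑ x ∈ univ.filter (fun x => X.sd α x = δ ∧ x ∉ X.dis c Rc α), if X.cn ω α x then f x else 0) -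
        ∑ x ∈ univ.filter (fun x => X.sd α x = δ ∧ x ∉ X.dis c Rc α),
          f x * pr (fun ω : X.Co => X.cn ω α x)|) ?_) (le_trans hber ?_)
  · intro ω hω
    refine le_trans (le_of_lt hω) (le_of_eq ?_)
    congr 2
    · unfold nS
      rw [← sum_filter, filter_filter]
      refine sum_congr ?_ fun _ _ => rfl
      ext x
      simp only [mem_filter, mem_univ, true_and]
      tauto
    · rw [mul_sum]
      refine sum_congr rfl fun x _ => ?_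
      rw [cn_pr, mul_comm]
  · rcases hnum with h | h
    · exact Lvh_two _ _ h
    · exfalso
      have hD0 : (0 : ℝ) < X.Δ := by
        have h := X.pw_pos 1
        unfold pw at h
        rwa [Real.rpow_one] at h
      have : 0 < 4 * (X.N : ℝ) ^ 2 / (X.Δ : ℝ) ^ 6 * X.pw (-(19 : ℝ) / 5) := by positivity
      linarith

end Cx

end Pool.Agent.H2.LN
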