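/-
ROW Lvs. Exchangeability.
PROOF. `GG_sym`: `b = b'` trivial. Otherwise let `π` be the involution of `V × Fin s` that for every `α'` with `crd α' = crd α` exchanges `(rp α' b, α')` and `(rp α' b', α')` and fixes everything else (`fun i => if crd i.2 = crd α then (if i.1 = rp i.2 b then (rp i.2 b', i.2) else if i.1 = rp i.2 b' then (rp i.2 b, i.2) else i) else i`; `rp α' b ≠ rp α' b'` by `rp_inj`, as `sd α' b = sd α' b'`: both in `R a`).
`ex (f ∘ (· ∘ π)) = ex f` (`ex_perm`, H12/LN/Tools). For `x ∈ R a`: `cn (ω ∘ π) α' x ↔ cn ω α' (σ x)`, `σ` = the transposition of `b, b'` (for `x ≠ b, b'` in `R a`: `rp α' x ≠ rp α' b, rp α' b'` by `rp_inj`). So `x ∈ GG (ω ∘ π) ↔ σ x ∈ GG ω` for `x ∈ R a \ dis` (`σ` preserves `R a \ dis`), hence `|GG (ω ∘ π)| = |GG ω|` and `b ∈ GG (ω ∘ π) ↔ b' ∈ GG ω`.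
`GG_avg`: `c_b := ex ([b ∈ GG] / |GG|)` is the same number `c` for all `b ∈ Rd = R a \ dis`; `∑_{b ∈ Rd} c_b = ex ([GG ≠ ∅]) = 1 - pr (GG = ∅)` (`GG ⊆ Rd`), `pr (GG = ∅) ≤ exp (-N^6)` by `ev_g` (file Lvg; `GG = ∅` violates the event as `pw (-39/200) < 1`, `th dd > 0`). So `ex (∑_{GG} f / |GG|) = ∑_{Rd} f c = (1 - pr) (∑_{Rd} f) / |Rd|`, `|Rd| ≥ 1`.
-/
import Pool.Agent.H2.LN.LD
import Pool.Agent.H2.LN.L.Lrp
import Pool.Agent.H2.LN.L.Lvg
import Pool.Agent.H12.LN.Tools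
import Pool.Agent.H12.LN.V0
import Pool.Agent.H65.GI.Lll

set_option autoImplicit false
set_option linter.unusedSectionVars false

namespace Pool.Agent.H2.LN

open Finset Classical
open Pool.Agent.H65.GI

namespace Cx

variable {V : Type} [Fintype V] {X : Cx V} {c : V → ℕ} {Rc : Finset V}

theorem Lvs_sd {α α' : Fin X.s} (h : X.crd α' = X.crd α) (v : V) : X.sd α' v = X.sd α v := by
  unfold sd
  rw [h]

/-- the exchange of the coordinates -/
noncomputable def Lvs_pi (X : Cx V) (α : Fin X.s) (b b' : V) : Equiv.Perm (V × Fin X.s) where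
  toFun i := (if X.crd i.2 = X.crd α then Equiv.swap (X.rp i.2 b) (X.rp i.2 b') i.1 else i.1, i.2)
  invFun i := (if X.crd i.2 = X.crd α then Equiv.swap (X.rp i.2 b) (X.rp i.2 b') i.1 else i.1, i.2)
  left_inv i := by
    obtain ⟨v, β⟩ := i
    by_cases h : X.crd β = X.crd α
    · simp only [h, if_true, Equiv.swap_apply_self]
    · simp only [h, if_false]
  right_inv i := by
    obtain ⟨v, β⟩ := i
    by_cases h : X.crd β = X.crd α
    · simp only [h, if_true, Equiv.swap_apply_self]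
    · simp only [h, if_false]

theorem Lvs_cn (α α' : Fin X.s) (b b' x : V) (hc : X.crd α' = X.crd α) (hb : X.sd α x = X.sd α b)
    (hb' : X.sd α x = X.sd α b') (ω : X.Co) :
    X.cn (fun i => ω (Lvs_pi X α b b' i)) α' x ↔ X.cn ω α' (Equiv.swap b b' x) := by
  have h1 : Lvs_pi X α b b' (X.rp α' x, α') = (X.rp α' (Equiv.swap b b' x), α') := by
    show ((if X.crd α' = X.crd α then Equiv.swap (X.rp α' b) (X.rp α' b') (X.rp α' x) else X.rp α' x, α') :
      V × Fin X.s) = _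
    rw [if_pos hc]
    refine Prod.ext ?_ rfl
    show Equiv.swap (X.rp α' b) (X.rp α' b') (X.rp α' x) = X.rp α' (Equiv.swap b b' x)
    by_cases h1 : x = b
    · rw [h1, Equiv.swap_apply_left, Equiv.swap_apply_left]
    · by_cases h2 : x = b'
      · rw [h2, Equiv.swap_apply_right, Equiv.swap_apply_right]
      · rw [Equiv.swap_apply_of_ne_of_ne h1 h2]
        refine Equiv.swap_apply_of_ne_of_ne (fun h => h1 (rp_inj h ?_)) (fun h => h2 (rp_inj h ?_))
        · rw [Lvs_sd hc, Lvs_sd hc, hb]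
        · rw [Lvs_sd hc, Lvs_sd hc, hb']
  show ((ω (Lvs_pi X α b b' (X.rp α' x, α')) : Fin X.q) : ℕ) = 0 ↔
    ((ω (X.rp α' (Equiv.swap b b' x), α') : Fin X.q) : ℕ) = 0
  rw [h1]

theorem Lvs_mem (ds : Fin X.s → Finset V) (j : ℕ) (t : X.St) (δ : ZMod 2) (α : Fin X.s) (a b b' : V)
    (hb : b ∈ X.R α δ j a) (hb' : b' ∈ X.R α δ j a) (hd : b ∉ ds α) (hd' : b' ∉ ds α) (ω : X.Co) (x : V) :
    x ∈ X.GG ds j t (fun i => ω (Lvs_pi X α b b' i)) δ α a ↔
      Equiv.swap b b' x ∈ X.GG ds j t ω δ α a := by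
  unfold GG
  rw [mem_filter, mem_filter]
  have hR : Equiv.swap b b' x ∈ X.R α δ j a ↔ x ∈ X.R α δ j a := by
    by_cases h1 : x = b
    · rw [h1, Equiv.swap_apply_left]; exact ⟨fun _ => hb, fun _ => hb'⟩
    · by_cases h2 : x = b'
      · rw [h2, Equiv.swap_apply_right]; exact ⟨fun _ => hb', fun _ => hb⟩
      · rw [Equiv.swap_apply_of_ne_of_ne h1 h2]
  have hD : Equiv.swap b b' x ∉ ds α ↔ x ∉ ds α := by
    by_cases h1 : x = b
    · rw [h1, Equiv.swap_apply_left]; exact ⟨fun _ => hd, fun _ => hd'⟩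
    · by_cases h2 : x = b'
      · rw [h2, Equiv.swap_apply_right]; exact ⟨fun _ => hd', fun _ => hd⟩
      · rw [Equiv.swap_apply_of_ne_of_ne h1 h2]
  rw [hR, hD]
  refine and_congr_right fun hx => ?_
  have h1 : X.sd α x = X.sd α b := by rw [R_sd X hx, R_sd X hb]
  have h2 : X.sd α x = X.sd α b' := by rw [R_sd X hx, R_sd X hb']
  refine and_congr_right fun _ => ?_
  refine and_congr (Lvs_cn α α b b' x rfl h1 h2 ω) ?_
  refine forall_congr' fun α' => forall_congr' fun _ => forall_congr' fun h3 => forall_congr' fun _ => ?_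
  exact not_congr (Lvs_cn α α' b b' x h3 h1 h2 ω)

theorem Lvs_card (ds : Fin X.s → Finset V) (j : ℕ) (t : X.St) (δ : ZMod 2) (α : Fin X.s) (a b b' : V)
    (hb : b ∈ X.R α δ j a) (hb' : b' ∈ X.R α δ j a) (hd : b ∉ ds α) (hd' : b' ∉ ds α) (ω : X.Co) :
    (X.GG ds j t (fun i => ω (Lvs_pi X α b b' i)) δ α a).card = (X.GG ds j t ω δ α a).card := by
  have h : X.GG ds j t (fun i => ω (Lvs_pi X α b b' i)) δ α a =
      (X.GG ds j t ω δ α a).map (Equiv.swap b b').toEmbedding := by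
    ext x
    rw [Finset.mem_map_equiv, Equiv.symm_swap]
    exact Lvs_mem ds j t δ α a b b' hb hb' hd hd' ω x
  rw [h, Finset.card_map]

/-- exchangeability -/
theorem GG_sym (j : ℕ) (t : X.St) (ht : X.TT j t) (δ : ZMod 2) (α : Fin X.s) (a b b' : V)
    (ha : a ∈ t.S δ α) (hb : b ∈ X.R α δ j a) (hb' : b' ∈ X.R α δ j a) (hd : b ∉ X.dis c Rc α)
    (hd' : b' ∉ X.dis c Rc α) :
    ex (fun ω : X.Co => if b ∈ X.GG (X.dis c Rc) j t ω δ α a then
        (1 : ℝ) / (X.GG (X.dis c Rc) j t ω δ α a).card else 0) =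
      ex (fun ω : X.Co => if b' ∈ X.GG (X.dis c Rc) j t ω δ α a then
        (1 : ℝ) / (X.GG (X.dis c Rc) j t ω δ α a).card else 0) := by
  have h := Pool.Agent.H12.LN.ex_perm (Lvs_pi X α b b') (fun ω : X.Co => if b ∈ X.GG (X.dis c Rc) j t ω δ α a then
        (1 : ℝ) / (X.GG (X.dis c Rc) j t ω δ α a).card else 0)
  rw [← h]
  refine congrArg ex (funext fun ω => ?_)
  rw [Lvs_card (X.dis c Rc) j t δ α a b b' hb hb' hd hd' ω]
  have h2 := Lvs_mem (X.dis c Rc) j t δ α a b b' hb hb' hd hd' ω b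
  rw [Equiv.swap_apply_left] at h2
  by_cases h3 : b' ∈ X.GG (X.dis c Rc) j t ω δ α a
  · rw [if_pos h3, if_pos (h2.2 h3)]
  · rw [if_neg h3, if_neg (fun h4 => h3 (h2.1 h4))]

theorem Lvs_empty (hk : X.KD c Rc) (j : ℕ) (hj : j < X.n) (t : X.St) (ht : X.TT j t) (δ : ZMod 2)
    (α : Fin X.s) (a : V) (ha : a ∈ t.S δ α) :
    pr (fun ω : X.Co => X.GG (X.dis c Rc) j t ω δ α a = ∅) ≤ Real.exp (-(X.N : ℝ) ^ 6) := by
  refine (pr_mono fun ω hω => ?_).trans (ev_g hk j hj t ht δ α a ha)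
  have hth : 0 < X.th := lt_of_lt_of_le (pw_pos X _) (th_bd X).1
  have hN : (1 : ℝ) < X.N := lt_of_lt_of_le (by norm_num) (N_big X)
  have hdd : 0 < X.dd := by
    refine lt_of_lt_of_le ?_ (dd_bd X).1
    have h1 : (0 : ℝ) < 8 * (X.N : ℝ) ^ 54 := by positivity
    exact div_pos (pw_pos X 1) h1
  have hp : X.pw (-(39 : ℝ) / 200) < 1 := by
    have h1 : X.pw (-(39 : ℝ) / 200) * X.pw (39 / 200) = 1 := by
      rw [pw_add]
      have h2 : (-(39 : ℝ) / 200 + 39 / 200) = 0 := by norm_num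
      rw [h2]
      unfold pw
      exact Real.rpow_zero _
    have h2 : (X.N : ℝ) ^ 1 ≤ X.pw (39 / 200) := pwN X 1 (39 / 200) (by norm_num)
    rw [pow_one] at h2
    have h3 : 1 < X.pw (39 / 200) := lt_of_lt_of_le hN h2
    have h4 := pw_pos X (-(39 : ℝ) / 200)
    nlinarith
  rw [hω, card_empty, Nat.cast_zero, zero_sub, abs_neg, abs_of_pos (mul_pos hth hdd)]
  have := mul_pos hth hdd
  nlinarith

theorem GG_avg (hk : X.KD c Rc) (j : ℕ) (hj : j < X.n) (t : X.St) (ht : X.TT j t) (δ : ZMod 2)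
    (α : Fin X.s) (a : V) (ha : a ∈ t.S δ α) (f : V → ℝ) (hf : ∀ x, 0 ≤ f x) :
    |ex (fun ω : X.Co => (∑ b ∈ X.GG (X.dis c Rc) j t ω δ α a, f b) /
      (X.GG (X.dis c Rc) j t ω δ α a).card) -
      (∑ b ∈ (X.R α δ j a).filter (fun b => b ∉ X.dis c Rc α), f b) /
        (((X.R α δ j a).filter (fun b => b ∉ X.dis c Rc α)).card : ℝ)| ≤
      Real.exp (-(X.N : ℝ) ^ 6) * ∑ b ∈ X.R α δ j a, f b := by
  set Rd := (X.R α δ j a).filter (fun b => b ∉ X.dis c Rc α) with hRd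
  set F : V → X.Co → ℝ := fun b ω => if b ∈ X.GG (X.dis c Rc) j t ω δ α a then
        (1 : ℝ) / (X.GG (X.dis c Rc) j t ω δ α a).card else 0 with hF
  have hsub : ∀ ω : X.Co, X.GG (X.dis c Rc) j t ω δ α a ⊆ Rd := by
    intro ω b hb
    unfold GG at hb
    rw [mem_filter] at hb
    exact mem_filter.2 ⟨hb.1, hb.2.1⟩
  have hq : Nonempty X.Co := ⟨fun _ => ⟨0, (th_bd X).2.2.1⟩⟩
  have e1 : ∀ ω : X.Co, (∑ b ∈ X.GG (X.dis c Rc) j t ω δ α a, f b) /
      ((X.GG (X.dis c Rc) j t ω δ α a).card : ℝ) = ∑ b ∈ Rd, f b * F b ω := by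
    intro ω
    rw [Finset.sum_div]
    have h1 : ∀ b ∈ Rd, f b * F b ω = if b ∈ X.GG (X.dis c Rc) j t ω δ α a then
        f b / ((X.GG (X.dis c Rc) j t ω δ α a).card : ℝ) else 0 := by
      intro b _
      show f b * (if b ∈ X.GG (X.dis c Rc) j t ω δ α a then
        (1 : ℝ) / (X.GG (X.dis c Rc) j t ω δ α a).card else 0) = _
      by_cases hb : b ∈ X.GG (X.dis c Rc) j t ω δ α a
      · rw [if_pos hb, if_pos hb]; ring
      · rw [if_neg hb, if_neg hb, mul_zero]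
    rw [Finset.sum_congr rfl h1, Finset.sum_ite_mem, Finset.inter_eq_right.2 (hsub ω)]
  have e2 : ex (fun ω : X.Co => (∑ b ∈ X.GG (X.dis c Rc) j t ω δ α a, f b) /
      ((X.GG (X.dis c Rc) j t ω δ α a).card : ℝ)) = ∑ b ∈ Rd, f b * ex (F b) := by
    rw [funext e1, ex_sum Rd (fun b ω => f b * F b ω)]
    exact Finset.sum_congr rfl fun b _ => ex_smul (f b) (F b)
  rw [e2]
  have hfR : ∑ b ∈ Rd, f b ≤ ∑ b ∈ X.R α δ j a, f b :=
    Finset.sum_le_sum_of_subset_of_nonneg (filter_subset _ _) fun b _ _ => hf b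
  have hfR0 : 0 ≤ ∑ b ∈ Rd, f b := Finset.sum_nonneg fun b _ => hf b
  have hexp := Real.exp_pos (-(X.N : ℝ) ^ 6)
  rcases Rd.eq_empty_or_nonempty with h0 | ⟨b0, hb0⟩
  · rw [h0]
    simp only [Finset.sum_empty, zero_div, sub_zero, abs_zero]
    exact mul_nonneg hexp.le (hfR0.trans hfR)
  · have hsym : ∀ b ∈ Rd, ex (F b) = ex (F b0) := by
      intro b hb
      rw [hRd, mem_filter] at hb hb0
      exact GG_sym j t ht δ α a b b0 ha hb.1 hb0.1 hb.2 hb0.2
    have e3 : (Rd.card : ℝ) * ex (F b0) = 1 - pr (fun ω : X.Co => X.GG (X.dis c Rc) j t ω δ α a = ∅) := by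
      rw [← pr_not, ex_ind]
      have h1 : (Rd.card : ℝ) * ex (F b0) = ∑ b ∈ Rd, ex (F b) := by
        rw [Finset.sum_congr rfl hsym, Finset.sum_const, nsmul_eq_mul]
      rw [h1, ← ex_sum Rd F]
      refine congrArg ex (funext fun ω => ?_)
      show (∑ b ∈ Rd, if b ∈ X.GG (X.dis c Rc) j t ω δ α a then
        (1 : ℝ) / (X.GG (X.dis c Rc) j t ω δ α a).card else 0) = _
      rw [Finset.sum_ite_mem, Finset.inter_eq_right.2 (hsub ω), Finset.sum_const, nsmul_eq_mul]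
      by_cases hb : X.GG (X.dis c Rc) j t ω δ α a = ∅
      · rw [if_neg (fun h => h hb), hb, card_empty, Nat.cast_zero, zero_mul]
      · rw [if_pos hb]
        have h2 : ((X.GG (X.dis c Rc) j t ω δ α a).card : ℝ) ≠ 0 := by
          exact_mod_cast (Finset.card_pos.2 (Finset.nonempty_iff_ne_empty.2 hb)).ne'
        rw [mul_one_div, div_self h2]
    have hcard : (0 : ℝ) < Rd.card := by exact_mod_cast Finset.card_pos.2 ⟨b0, hb0⟩
    have hcard1 : (1 : ℝ) ≤ Rd.card := by exact_mod_cast Finset.card_pos.2 ⟨b0, hb0⟩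
    have hε := Lvs_empty hk j hj t ht δ α a ha
    have hε0 := pr_nonneg (fun ω : X.Co => X.GG (X.dis c Rc) j t ω δ α a = ∅)
    set ε := pr (fun ω : X.Co => X.GG (X.dis c Rc) j t ω δ α a = ∅) with hεd
    have e4 : ∑ b ∈ Rd, f b * ex (F b) = (∑ b ∈ Rd, f b) * ex (F b0) := by
      rw [Finset.sum_mul]
      exact Finset.sum_congr rfl fun b hb => by rw [hsym b hb]
    have e5 : ex (F b0) = (1 - ε) / Rd.card := by
      rw [eq_div_iff hcard.ne', mul_comm]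
      exact e3
    rw [e4, e5]
    have e6 : (∑ b ∈ Rd, f b) * ((1 - ε) / Rd.card) - (∑ b ∈ Rd, f b) / (Rd.card : ℝ) =
        -((∑ b ∈ Rd, f b) * ε / Rd.card) := by
      field_simp
      ring
    rw [e6, abs_neg, abs_of_nonneg (by positivity)]
    have e7 : (∑ b ∈ Rd, f b) * ε / Rd.card ≤ (∑ b ∈ Rd, f b) * ε :=
      div_le_self (mul_nonneg hfR0 hε0) hcard1
    have e8 : (∑ b ∈ Rd, f b) * ε ≤ (∑ b ∈ X.R α δ j a, f b) * Real.exp (-(X.N : ℝ) ^ 6) :=
      mul_le_mul hfR hε hε0 (hfR0.trans hfR)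
    rw [mul_comm (Real.exp _)]
    exact e7.trans e8

end Cx

end Pool.Agent.H2.LN
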