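/-
ROW Lvp. The test functions against the arrivals.
PROOF. `arr_eq`: interchange of sums: `∑_b f b ∑_{a ∈ S, b ∈ GG a} m a / |GG a|`. `ev_p`: `Z ω := ∑_{a ∈ S} m a (∑_{GG a} f) / |GG a|`. Mean: by `GG_avg` `|ex Z - ∑_{a ∈ S} m a avg a| ≤ B exp (-N^6) ∑_a ∑_{b ∈ R a} f b ≤ B exp (-N^6) dd ≤ B pw (-19/5) / 8` (`∑ f ≤ 1`; `exp (-N^6) ≤ pw (-6)`: `log Δ ≤ N`).
McDiarmid (`mcd2`, H12/LN/Mcd + Tools) for the coordinates `i = (v, α')`: changing `i` can change the term of `a ∈ S` only if `crd α' = crd α`, (`α' = α` or `a ∈ t.S δ α'`) and some `b ∈ R a` has `rp α' b = v`, i.e. `b = v` or `b = M α' v` and only one of these two is on the side of `R a`; the change of the term is `≤ B γ a`, `γ a := (∑_{b ∈ R a} f b ^ 2)^(1/2)` (both averages are in `[0, max_{R a} f]`).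
So `c_i = B ∑_{a ∈ S, a ∈ R v ∪ R (M α' v), (α' = α or a ∈ S_α')} γ a`. `∑_i c_i^2 ≤ B^2 ∑_i 2 dd ∑_a γ a^2 ≤ B^2 2 dd ∑_a γ a^2 · 2 dd (1 + 4 pw (2/5))` (Cauchy-Schwarz, at most `2 dd` vertices `a`; for each `a` at most `2 dd` vertices `v` and `1 + 4 pw (2/5)` labels: `TT.t1`), `∑_a γ a^2 ≤ dd ∑ f^2 ≤ dd 16 N^3 / Δ^12`. Total `≤ B^2 pw (18/5) N^4 pw (-12)`.
`t = pw (-19/5) B / 4`: exponent `t^2 / (2 total) ≥ pw (-38/5 - 18/5 + 12) / (32 N^4) = pw (4/5) / (32 N^4) ≥ N^6 + 1`.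
-/
import Pool.Agent.H2.LN.LD
import Pool.Agent.H2.LN.L.Lvs
import Pool.Agent.H2.LN.L.Leg
import Pool.Agent.H12.LN.Tools
import Pool.Agent.H12.LN.V0
import Pool.Agent.H65.GI.Lll

set_option autoImplicit false
set_option linter.unusedSectionVars false

namespace Pool.Agent.H2.LN

open Finset Classical
open Pool.Agent.H65.GI

namespace Cx

variable {V : Type} [Fintype V] {X : Cx V} {c : V → ℕ} {Rc : Finset V}

theorem arr_eq (j : ℕ) (t : X.St) (ω : X.Co) (τ : Fin 2) (δ : ZMod 2) (α : Fin X.s) (f : V → ℝ) :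
    ∑ b, f b * X.arr (X.dis c Rc) j t ω τ δ α b = ∑ a ∈ t.S δ α, t.m τ δ α a *
      ((∑ b ∈ X.GG (X.dis c Rc) j t ω δ α a, f b) / (X.GG (X.dis c Rc) j t ω δ α a).card) := by
  have h1 : ∀ b, f b * X.arr (X.dis c Rc) j t ω τ δ α b =
      ∑ a ∈ t.S δ α, if b ∈ X.GG (X.dis c Rc) j t ω δ α a then
        f b * (t.m τ δ α a / ((X.GG (X.dis c Rc) j t ω δ α a).card : ℝ)) else 0 := by
    intro b
    unfold arr
    rw [mul_sum, sum_filter]
  rw [sum_congr rfl fun b _ => h1 b, sum_comm]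
  refine sum_congr rfl fun a _ => ?_
  rw [← sum_filter, filter_mem_eq_inter, univ_inter, ← sum_mul]
  ring

private theorem Lvp_avg (s : Finset V) (f : V → ℝ) (hf : ∀ x, 0 ≤ f x) (G : Finset V) (hG : G ⊆ s) :
    0 ≤ (∑ b ∈ G, f b) / (G.card : ℝ) ∧ (∑ b ∈ G, f b) / (G.card : ℝ) ≤ Real.sqrt (∑ b ∈ s, f b ^ 2) := by
  refine ⟨div_nonneg (sum_nonneg fun x _ => hf x) (Nat.cast_nonneg _), ?_⟩
  refine div_le_of_le_mul₀ (Nat.cast_nonneg _) (Real.sqrt_nonneg _) ?_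
  have h1 : ∀ b ∈ G, f b ≤ Real.sqrt (∑ b ∈ s, f b ^ 2) := by
    intro b hb
    rw [← Real.sqrt_sq (hf b)]
    refine Real.sqrt_le_sqrt ?_
    exact single_le_sum (f := fun b => f b ^ 2) (fun x _ => sq_nonneg _) (hG hb)
  have h2 := sum_le_sum h1
  rw [sum_const, nsmul_eq_mul, mul_comm] at h2
  exact h2

private theorem Lvp_upd {I κ : Type} [DecidableEq I] (ω : I → κ) (i i' : I) (k l : κ) (h : i' ≠ i) :
    Function.update ω i k i' = Function.update ω i l i' := by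
  rw [Function.update_of_ne h, Function.update_of_ne h]

private theorem Lvp_cn (ω ω' : X.Co) (i : V × Fin X.s) (hi : ∀ i', i' ≠ i → ω i' = ω' i') (α' : Fin X.s) (b : V)
    (h : (X.rp α' b, α') ≠ i) : X.cn ω α' b = X.cn ω' α' b := by
  refine cn_loc (X := X) α' b _ _ fun i' hi' => ?_
  have h1 : i' = (X.rp α' b, α') := mem_singleton.1 hi'
  exact hi i' (h1.trans_ne h)

/-- the coordinate `i` matters for `a` -/
private def Lvp_P (X : Cx V) (j : ℕ) (t : X.St) (δ : ZMod 2) (α : Fin X.s) (a : V) (i : V × Fin X.s) : Prop :=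
  (i.2 = α ∨ a ∈ t.S δ i.2) ∧ ∃ b ∈ X.R α δ j a, X.rp i.2 b = i.1

private theorem Lvp_GG (j : ℕ) (t : X.St) (δ : ZMod 2) (α : Fin X.s) (a : V) (ω ω' : X.Co) (i : V × Fin X.s)
    (hi : ∀ i', i' ≠ i → ω i' = ω' i') (h : ¬ Lvp_P X j t δ α a i) :
    X.GG (X.dis c Rc) j t ω δ α a = X.GG (X.dis c Rc) j t ω' δ α a := by
  unfold GG
  refine filter_congr fun b hb => ?_
  have h1 : ∀ α', (α' = α ∨ a ∈ t.S δ α') → (X.rp α' b, α') ≠ i := by
    intro α' hα' he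
    apply h
    rw [← he]
    exact ⟨hα', b, hb, rfl⟩
  have h2 : X.cn ω α b = X.cn ω' α b := Lvp_cn ω ω' i hi α b (h1 α (Or.inl rfl))
  have h3 : ∀ α', a ∈ t.S δ α' → X.cn ω α' b = X.cn ω' α' b :=
    fun α' hα' => Lvp_cn ω ω' i hi α' b (h1 α' (Or.inr hα'))
  rw [h2]
  constructor
  · rintro ⟨h4, h5, h6⟩
    refine ⟨h4, h5, fun α' hne hc ha => ?_⟩
    rw [← h3 α' ha]
    exact h6 α' hne hc ha
  · rintro ⟨h4, h5, h6⟩
    refine ⟨h4, h5, fun α' hne hc ha => ?_⟩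
    rw [h3 α' ha]
    exact h6 α' hne hc ha

/-- double counting -/
private theorem Lvp_dc (j : ℕ) (δ : ZMod 2) (α : Fin X.s) (S : Finset V) (g : V → ℝ) (hg : ∀ x, 0 ≤ g x) :
    ∑ a ∈ S, ∑ b ∈ X.R α δ j a, g b ≤ X.dd * ∑ b, g b := by
  calc ∑ a ∈ S, ∑ b ∈ X.R α δ j a, g b ≤ ∑ a, ∑ b ∈ X.R α δ j a, g b :=
        sum_le_sum_of_subset_of_nonneg (subset_univ _) fun _ _ _ => sum_nonneg fun x _ => hg x
    _ = ∑ a, ∑ b, if b ∈ X.R α δ j a then g b else 0 := by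
        refine sum_congr rfl fun a _ => ?_
        rw [← sum_filter, filter_mem_eq_inter, univ_inter]
    _ = ∑ b, ∑ a, if b ∈ X.R α δ j a then g b else 0 := sum_comm
    _ = ∑ b, ((X.R α δ j b).card : ℝ) * g b := by
        refine sum_congr rfl fun b _ => ?_
        have h1 : univ.filter (fun a => b ∈ X.R α δ j a) = X.R α δ j b := by
          ext a
          rw [mem_filter]
          exact ⟨fun h => R_symm X h.2, fun h => ⟨mem_univ _, R_symm X h⟩⟩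
        rw [← sum_filter, h1, sum_const, nsmul_eq_mul]
    _ ≤ ∑ b, X.dd * g b := sum_le_sum fun b _ => mul_le_mul_of_nonneg_right (R_card_le X α δ j b) (hg b)
    _ = X.dd * ∑ b, g b := by rw [mul_sum]

private theorem Lvp_cardT (j : ℕ) (t : X.St) (δ : ZMod 2) (α : Fin X.s) (i : V × Fin X.s) :
    (((t.S δ α).filter (fun a => Lvp_P X j t δ α a i)).card : ℝ) ≤ 2 * X.dd := by
  have h1 : (t.S δ α).filter (fun a => Lvp_P X j t δ α a i) ⊆ X.R α δ j i.1 ∪ X.R α δ j (X.M i.2 i.1) := by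
    intro a ha
    obtain ⟨_, _, b, hb, hb2⟩ := mem_filter.1 ha
    have hb3 := R_symm X hb
    rw [mem_union]
    unfold rp at hb2
    by_cases hc : X.sd i.2 b = 1 ∨ X.M i.2 b = b
    · rw [if_pos hc] at hb2
      rw [← hb2]
      left
      exact hb3
    · rw [if_neg hc] at hb2
      right
      rw [← hb2, M_M]
      exact hb3
  have h2 : (((t.S δ α).filter (fun a => Lvp_P X j t δ α a i)).card : ℝ) ≤
      ((X.R α δ j i.1).card : ℝ) + ((X.R α δ j (X.M i.2 i.1)).card : ℝ) := by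
    exact_mod_cast (card_le_card h1).trans (card_union_le _ _)
  linarith [R_card_le X α δ j i.1, R_card_le X α δ j (X.M i.2 i.1)]

private theorem Lvp_cardI (j : ℕ) (t : X.St) (ht : X.TT j t) (δ : ZMod 2) (α : Fin X.s) (a : V) :
    ((univ.filter (fun i : V × Fin X.s => Lvp_P X j t δ α a i)).card : ℝ) ≤ X.dd * (1 + 4 * X.pw (2 / 5)) := by
  have h1 : univ.filter (fun i : V × Fin X.s => Lvp_P X j t δ α a i) ⊆
      ((X.R α δ j a) ×ˢ (insert α (univ.filter (fun α' => a ∈ t.S δ α')))).image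
        (fun p : V × Fin X.s => (X.rp p.2 p.1, p.2)) := by
    intro i hi
    obtain ⟨_, h2, b, hb, hb2⟩ := mem_filter.1 hi
    rw [mem_image]
    refine ⟨(b, i.2), ?_, ?_⟩
    · rw [mem_product, mem_insert, mem_filter]
      refine ⟨hb, ?_⟩
      rcases h2 with h2 | h2
      · left
        exact h2
      · right
        exact ⟨mem_univ _, h2⟩
    · exact Prod.ext hb2 rfl
  have h2 := (card_le_card h1).trans card_image_le
  rw [card_product] at h2
  have h3 : ((univ.filter (fun i : V × Fin X.s => Lvp_P X j t δ α a i)).card : ℝ) ≤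
      ((X.R α δ j a).card : ℝ) * ((insert α (univ.filter (fun α' => a ∈ t.S δ α'))).card : ℝ) := by
    exact_mod_cast h2
  have h4 : ((insert α (univ.filter (fun α' => a ∈ t.S δ α'))).card : ℝ) ≤
      ((univ.filter (fun α' => a ∈ t.S δ α')).card : ℝ) + 1 := by
    exact_mod_cast card_insert_le _ _
  have h5 := ht.t1 δ a
  have h6 := R_card_le X α δ j a
  have h7 : (0 : ℝ) ≤ ((X.R α δ j a).card : ℝ) := Nat.cast_nonneg _
  refine h3.trans (mul_le_mul h6 (by linarith) (Nat.cast_nonneg _) (h7.trans h6))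

private theorem Lvp_exp (X : Cx V) : Real.exp (-(X.N : ℝ) ^ 6) ≤ X.pw (-6) := by
  have hN := N_big X
  have hN1 : (1 : ℝ) ≤ X.N := by
    refine le_trans ?_ hN
    norm_num
  have hΔ : (1 : ℝ) ≤ X.Δ := by
    have h1 := pwN X 0 1 (by norm_num)
    rw [pow_zero] at h1
    unfold pw at h1
    rwa [Real.rpow_one] at h1
  have hlog : Real.log X.Δ ≤ X.N := by
    have h1 := X.pm.log
    by_contra h2
    push Not at h2
    have h3 : (1 : ℝ) ≤ Real.log X.Δ := hN1.trans h2.le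
    have h4 : Real.log X.Δ ≤ Real.log X.Δ ^ 10 := le_self_pow₀ h3 (by norm_num)
    linarith
  have h6 : 6 * (X.N : ℝ) ≤ (X.N : ℝ) ^ 6 := by
    have h7 : (X.N : ℝ) ^ 2 ≤ (X.N : ℝ) ^ 6 := pow_le_pow_right₀ hN1 (by norm_num)
    have h8 : (6 : ℝ) ≤ X.N := by
      refine le_trans ?_ hN
      norm_num
    nlinarith
  unfold pw
  rw [Real.rpow_def_of_pos (by linarith)]
  refine Real.exp_le_exp.2 ?_
  nlinarith

/-- event `p` -/
theorem ev_p (hk : X.KD c Rc) (j : ℕ) (hj : j < X.n) (t : X.St) (ht : X.TT j t) (τ : Fin 2) (δ : ZMod 2)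
    (α : Fin X.s) (f : V → ℝ) (v : V) (hf : LinF X.G X.N X.Δ v f) (B : ℝ) (hB0 : 0 < B)
    (hB : ∀ δ α a, |t.m τ δ α a| ≤ B) :
    pr (fun ω : X.Co => X.pw (-(19 : ℝ) / 5) / 2 * B <
      |(∑ b, f b * X.arr (X.dis c Rc) j t ω τ δ α b) - ∑ a ∈ t.S δ α, t.m τ δ α a *
      ((∑ b ∈ (X.R α δ j a).filter (fun b => b ∉ X.dis c Rc α), f b) /
        (((X.R α δ j a).filter (fun b => b ∉ X.dis c Rc α)).card : ℝ))|) ≤
      Real.exp (-(X.N : ℝ) ^ 6) := by
  have hN := N_big X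
  have hN1 : (1 : ℝ) ≤ X.N := by
    refine le_trans ?_ hN
    norm_num
  have hq : 0 < X.q := (th_bd X).2.2.1
  have : Nonempty (Fin X.q) := ⟨⟨0, hq⟩⟩
  have hdd1 : X.dd ≤ X.pw 1 := by
    refine (dd_bd X).2.trans ?_
    refine div_le_self (pw_pos X 1).le ?_
    exact one_le_pow₀ hN1
  have hdd0 : 0 ≤ X.dd := by
    unfold dd
    exact Nat.cast_nonneg _
  -- the random variable
  obtain ⟨Z, hZ⟩ : ∃ Z : X.Co → ℝ, Z = fun ω => ∑ a ∈ t.S δ α, t.m τ δ α a *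
      ((∑ b ∈ X.GG (X.dis c Rc) j t ω δ α a, f b) / ((X.GG (X.dis c Rc) j t ω δ α a).card : ℝ)) := ⟨_, rfl⟩
  obtain ⟨gam, hgam⟩ : ∃ gam : V → ℝ, gam = fun a => Real.sqrt (∑ b ∈ X.R α δ j a, f b ^ 2) := ⟨_, rfl⟩
  obtain ⟨m0, hm0⟩ : ∃ m0, m0 = ∑ a ∈ t.S δ α, t.m τ δ α a *
      ((∑ b ∈ (X.R α δ j a).filter (fun b => b ∉ X.dis c Rc α), f b) /
        (((X.R α δ j a).filter (fun b => b ∉ X.dis c Rc α)).card : ℝ)) := ⟨_, rfl⟩
  -- the mean
  have hmean : |ex Z - m0| ≤ B * X.pw (-(19 : ℝ) / 5) / 8 := by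
    have h1 : ex Z = ∑ a ∈ t.S δ α, t.m τ δ α a * ex (fun ω : X.Co =>
        (∑ b ∈ X.GG (X.dis c Rc) j t ω δ α a, f b) / ((X.GG (X.dis c Rc) j t ω δ α a).card : ℝ)) := by
      rw [hZ]
      unfold ex
      rw [sum_comm, sum_div]
      refine sum_congr rfl fun a _ => ?_
      rw [← mul_sum, mul_div_assoc]
    rw [h1, hm0, ← sum_sub_distrib]
    refine (abs_sum_le_sum_abs _ _).trans ?_
    have h2 : ∀ a ∈ t.S δ α, |t.m τ δ α a * ex (fun ω : X.Co =>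
        (∑ b ∈ X.GG (X.dis c Rc) j t ω δ α a, f b) / ((X.GG (X.dis c Rc) j t ω δ α a).card : ℝ)) -
        t.m τ δ α a * ((∑ b ∈ (X.R α δ j a).filter (fun b => b ∉ X.dis c Rc α), f b) /
        (((X.R α δ j a).filter (fun b => b ∉ X.dis c Rc α)).card : ℝ))| ≤
        (B * Real.exp (-(X.N : ℝ) ^ 6)) * ∑ b ∈ X.R α δ j a, f b := by
      intro a ha
      rw [← mul_sub, abs_mul, mul_assoc]
      exact mul_le_mul (hB δ α a) (GG_avg hk j hj t ht δ α a ha f hf.nn) (abs_nonneg _) hB0.le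
    refine (sum_le_sum h2).trans ?_
    rw [← mul_sum]
    have h3 := Lvp_dc (X := X) j δ α (t.S δ α) f hf.nn
    have h4 : X.dd * ∑ b, f b ≤ X.pw 1 := by
      calc X.dd * ∑ b, f b ≤ X.dd * 1 := mul_le_mul_of_nonneg_left hf.l1 hdd0
        _ = X.dd := mul_one _
        _ ≤ _ := hdd1
    have h5 : Real.exp (-(X.N : ℝ) ^ 6) * X.pw 1 ≤ X.pw (-(19 : ℝ) / 5) / 8 := by
      have h6 : Real.exp (-(X.N : ℝ) ^ 6) * X.pw 1 ≤ X.pw (-5) := by
        refine (mul_le_mul_of_nonneg_right (Lvp_exp X) (pw_pos X 1).le).trans (le_of_eq ?_)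
        rw [pw_add]
        norm_num
      have h7 : X.pw (-5) * 8 ≤ X.pw (-(19 : ℝ) / 5) := by
        have h8 : (8 : ℝ) ≤ X.pw (6 / 5) := by
          have h9 := pwN X 1 (6 / 5) (by norm_num)
          rw [pow_one] at h9
          refine le_trans ?_ h9
          refine le_trans ?_ hN
          norm_num
        calc X.pw (-5) * 8 ≤ X.pw (-5) * X.pw (6 / 5) := mul_le_mul_of_nonneg_left h8 (pw_pos X _).le
          _ = X.pw (-(19 : ℝ) / 5) := by rw [pw_add]; norm_num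
      linarith
    calc B * Real.exp (-(X.N : ℝ) ^ 6) * ∑ a ∈ t.S δ α, ∑ b ∈ X.R α δ j a, f b
        ≤ B * Real.exp (-(X.N : ℝ) ^ 6) * X.pw 1 :=
          mul_le_mul_of_nonneg_left (h3.trans h4) (mul_nonneg hB0.le (Real.exp_pos _).le)
      _ = B * (Real.exp (-(X.N : ℝ) ^ 6) * X.pw 1) := by ring
      _ ≤ B * (X.pw (-(19 : ℝ) / 5) / 8) := mul_le_mul_of_nonneg_left h5 hB0.le
      _ = _ := by ring
  -- bounded differences
  obtain ⟨ci, hci⟩ : ∃ ci : V × Fin X.s → ℝ, ci = fun i =>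
      ∑ a ∈ (t.S δ α).filter (fun a => Lvp_P X j t δ α a i), B * gam a := ⟨_, rfl⟩
  have hZd : ∀ (i : V × Fin X.s) (ω ω' : X.Co), (∀ i', i' ≠ i → ω i' = ω' i') → |Z ω - Z ω'| ≤ ci i := by
    intro i ω ω' hi0
    rw [hZ, hci]
    simp only []
    rw [← sum_sub_distrib, sum_filter]
    refine (abs_sum_le_sum_abs _ _).trans (sum_le_sum fun a ha => ?_)
    rw [← mul_sub, abs_mul]
    by_cases hP : Lvp_P X j t δ α a i
    · rw [if_pos hP]
      refine mul_le_mul (hB δ α a) ?_ (abs_nonneg _) hB0.le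
      have hs1 : ∀ ω' : X.Co, X.GG (X.dis c Rc) j t ω' δ α a ⊆ X.R α δ j a := by
        intro ω'
        unfold GG
        exact filter_subset _ _
      have h1 := Lvp_avg (X.R α δ j a) f hf.nn _ (hs1 ω)
      have h2 := Lvp_avg (X.R α δ j a) f hf.nn _ (hs1 ω')
      rw [hgam, abs_le]
      constructor <;> linarith [h1.1, h1.2, h2.1, h2.2]
    · rw [if_neg hP, Lvp_GG j t δ α a ω ω' i hi0 hP, sub_self, abs_zero, mul_zero]
  have hBD : Pool.Agent.H12.LN.BD Z ci := by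
    intro i ω0 k l
    refine hZd i _ _ fun i' hi' => ?_
    exact @Lvp_upd _ _ (fun a b => Classical.propDecidable (a = b)) ω0 i i' k l hi'
  -- the sum of the squares
  have hgam2 : ∀ a, gam a ^ 2 = ∑ b ∈ X.R α δ j a, f b ^ 2 := by
    intro a
    rw [hgam]
    exact Real.sq_sqrt (sum_nonneg fun x _ => sq_nonneg _)
  have hsq : ∑ i, (ci i) ^ 2 ≤ B ^ 2 * X.pw (-(42 : ℝ) / 5) := by
    have h1 : ∀ i, (ci i) ^ 2 ≤ (2 * X.dd) * ∑ a ∈ t.S δ α, if Lvp_P X j t δ α a i then (B * gam a) ^ 2 else 0 := by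
      intro i
      rw [hci]
      simp only []
      rw [← sum_filter]
      refine sq_sum_le_card_mul_sum_sq.trans ?_
      exact mul_le_mul_of_nonneg_right (Lvp_cardT j t δ α i) (sum_nonneg fun _ _ => sq_nonneg _)
    refine (sum_le_sum fun i _ => h1 i).trans ?_
    rw [← mul_sum, sum_comm]
    have h2 : ∀ a ∈ t.S δ α, (∑ i : V × Fin X.s, if Lvp_P X j t δ α a i then (B * gam a) ^ 2 else 0) ≤
        (X.dd * (1 + 4 * X.pw (2 / 5)) * B ^ 2) * ∑ b ∈ X.R α δ j a, f b ^ 2 := by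
      intro a _
      rw [← sum_filter, sum_const, nsmul_eq_mul, mul_pow, hgam2, mul_assoc _ (B ^ 2)]
      exact mul_le_mul_of_nonneg_right (Lvp_cardI j t ht δ α a)
        (mul_nonneg (sq_nonneg _) (sum_nonneg fun _ _ => sq_nonneg _))
    have h3 := sum_le_sum h2
    rw [← mul_sum] at h3
    have h4 := Lvp_dc (X := X) j δ α (t.S δ α) (fun b => f b ^ 2) (fun _ => sq_nonneg _)
    have hp0 := pw_pos X (2 / 5)
    have hp1 : 1 ≤ X.pw (2 / 5) := by
      have := pwN X 0 (2 / 5) (by norm_num)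
      rwa [pow_zero] at this
    have hΔ12 : (X.Δ : ℝ) ^ 12 = X.pw 12 := by
      unfold pw
      rw [← Real.rpow_natCast]
      norm_num
    have h5 : ∑ b, f b ^ 2 ≤ 16 * X.N ^ 3 * X.pw (-12) := by
      refine hf.l2.trans (le_of_eq ?_)
      rw [hΔ12, div_eq_mul_inv]
      congr 1
      have h6 : X.pw 12 * X.pw (-12) = 1 := by
        rw [pw_add]
        unfold pw
        norm_num
      exact (eq_inv_of_mul_eq_one_right h6).symm
    have hQ0 : 0 ≤ X.dd * (1 + 4 * X.pw (2 / 5)) * B ^ 2 := by positivity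
    have h7 : X.dd * (1 + 4 * X.pw (2 / 5)) ≤ X.pw 1 * (5 * X.pw (2 / 5)) :=
      mul_le_mul hdd1 (by linarith) (by positivity) (pw_pos X 1).le
    have h8 : X.dd * ∑ b, f b ^ 2 ≤ X.pw 1 * (16 * X.N ^ 3 * X.pw (-12)) :=
      mul_le_mul hdd1 h5 (sum_nonneg fun _ _ => sq_nonneg _) (pw_pos X 1).le
    have h9 : (160 : ℝ) * X.N ^ 3 ≤ X.pw (1 / 5) := by
      have h10 := pwN X 4 (1 / 5) (by norm_num)
      refine le_trans ?_ h10
      have h11 : (160 : ℝ) ≤ X.N := by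
        refine le_trans ?_ hN
        norm_num
      have h12 : (0 : ℝ) ≤ (X.N : ℝ) ^ 3 := by positivity
      calc (160 : ℝ) * X.N ^ 3 ≤ X.N * X.N ^ 3 := mul_le_mul_of_nonneg_right h11 h12
        _ = X.N ^ 4 := by ring
    calc 2 * X.dd * ∑ a ∈ t.S δ α, ∑ i : V × Fin X.s, (if Lvp_P X j t δ α a i then (B * gam a) ^ 2 else 0)
        ≤ 2 * X.dd * ((X.dd * (1 + 4 * X.pw (2 / 5)) * B ^ 2) * (X.dd * ∑ b, f b ^ 2)) :=
          mul_le_mul_of_nonneg_left (h3.trans (mul_le_mul_of_nonneg_left h4 hQ0)) (by positivity)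
      _ ≤ 2 * X.pw 1 * ((X.pw 1 * (5 * X.pw (2 / 5)) * B ^ 2) * (X.pw 1 * (16 * X.N ^ 3 * X.pw (-12)))) := by
          have hP1 := (pw_pos X 1).le
          have hP2 := (pw_pos X (-12)).le
          refine mul_le_mul (by linarith) (mul_le_mul (mul_le_mul_of_nonneg_right h7 (sq_nonneg _)) h8 ?_ ?_) ?_ ?_
          · exact mul_nonneg hdd0 (sum_nonneg fun _ _ => sq_nonneg _)
          · positivity
          · exact mul_nonneg hQ0 (mul_nonneg hdd0 (sum_nonneg fun _ _ => sq_nonneg _))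
          · positivity
      _ = B ^ 2 * ((160 * X.N ^ 3) * (X.pw 1 * X.pw 1 * X.pw 1 * X.pw (2 / 5) * X.pw (-12))) := by ring
      _ ≤ B ^ 2 * (X.pw (1 / 5) * (X.pw 1 * X.pw 1 * X.pw 1 * X.pw (2 / 5) * X.pw (-12))) := by
          have hP1 := (pw_pos X 1).le
          have hP2 := (pw_pos X (-12)).le
          refine mul_le_mul_of_nonneg_left (mul_le_mul_of_nonneg_right h9 (by positivity)) (sq_nonneg _)
      _ = B ^ 2 * X.pw (-(42 : ℝ) / 5) := by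
          rw [pw_add, pw_add, pw_add, pw_add, pw_add]
          norm_num
  -- McDiarmid
  have hP0 := pw_pos X (-(19 : ℝ) / 5)
  have hmc := Pool.Agent.H12.LN.mcd2 Z ci hBD (B ^ 2 * X.pw (-(42 : ℝ) / 5)) (X.pw (-(19 : ℝ) / 5) * B / 4) hsq
    (mul_pos (pow_pos hB0 2) (pw_pos X _)) (by positivity)
  have hexp : 2 * Real.exp (-((X.pw (-(19 : ℝ) / 5) * B / 4) ^ 2 / (2 * (B ^ 2 * X.pw (-(42 : ℝ) / 5))))) ≤
      Real.exp (-(X.N : ℝ) ^ 6) := by
    have h1 : (X.pw (-(19 : ℝ) / 5) * B / 4) ^ 2 / (2 * (B ^ 2 * X.pw (-(42 : ℝ) / 5))) = X.pw (4 / 5) / 32 := by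
      have h2 : X.pw (-(19 : ℝ) / 5) ^ 2 = X.pw (-(42 : ℝ) / 5) * X.pw (4 / 5) := by
        rw [pow_two, pw_add, pw_add]
        norm_num
      have h3 := (pw_pos X (-(42 : ℝ) / 5)).ne'
      have h4 := hB0.ne'
      rw [div_pow, mul_pow, h2]
      generalize X.pw (-(42 : ℝ) / 5) = u at h3 ⊢
      field_simp
      ring
    have h2 : (X.N : ℝ) ^ 6 + 1 ≤ X.pw (4 / 5) / 32 := by
      have h3 := pwN X 7 (4 / 5) (by norm_num)
      have h4 : (64 : ℝ) ≤ X.N := by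
        refine le_trans ?_ hN
        norm_num
      have h5 : (1 : ℝ) ≤ (X.N : ℝ) ^ 6 := one_le_pow₀ hN1
      have h6 : (64 : ℝ) * X.N ^ 6 ≤ X.N ^ 7 := by
        calc (64 : ℝ) * X.N ^ 6 ≤ X.N * X.N ^ 6 := mul_le_mul_of_nonneg_right h4 (by linarith)
          _ = X.N ^ 7 := by ring
      linarith
    rw [h1]
    have h3 : (2 : ℝ) ≤ Real.exp 1 := by
      have := Real.add_one_le_exp (1 : ℝ)
      linarith
    calc 2 * Real.exp (-(X.pw (4 / 5) / 32)) ≤ Real.exp 1 * Real.exp (-(X.pw (4 / 5) / 32)) :=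
          mul_le_mul_of_nonneg_right h3 (Real.exp_pos _).le
      _ = Real.exp (1 + -(X.pw (4 / 5) / 32)) := (Real.exp_add _ _).symm
      _ ≤ Real.exp (-(X.N : ℝ) ^ 6) := Real.exp_le_exp.2 (by linarith)
  refine le_trans (pr_mono fun ω hω => ?_) (hmc.trans hexp)
  rw [arr_eq, ← hm0] at hω
  have h1 : Z ω = ∑ a ∈ t.S δ α, t.m τ δ α a *
      ((∑ b ∈ X.GG (X.dis c Rc) j t ω δ α a, f b) / ((X.GG (X.dis c Rc) j t ω δ α a).card : ℝ)) := by rw [hZ]
  rw [← h1] at hω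
  have h2 : |Z ω - m0| ≤ |Z ω - ex Z| + |ex Z - m0| := by
    have := abs_add_le (Z ω - ex Z) (ex Z - m0)
    have h3 : Z ω - ex Z + (ex Z - m0) = Z ω - m0 := by ring
    rwa [h3] at this
  have h4 : 0 < X.pw (-(19 : ℝ) / 5) * B := mul_pos hP0 hB0
  linarith

end Cx

end Pool.Agent.H2.LN
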