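/-
ROW Lvt. The new senders.
PROOF. `nS ω δ α = {v : sd α v = δ, v ∉ dis α, cn ω α v}`. `ev_t1`: the events `cn α v` for different `α` (fixed `v`) depend on different coordinates `(rp α v, α)`; the count is `≤ ∑_{α : sd α v = δ, v ∉ dis} [cn α v]`, mean `≤ s th ≤ 1.01 pw (2/5)` (`s_bd`, `th_bd`); `ch_up`/`ch_w`/`ber`: `≥ 3 mean-bound + 2 lam`-type bound with `lam = N^6`: `3 * 1.01 pw (2/5) + 2 N^6 ≤ 4 pw (2/5)`.
`ev_t2`: for `a ∈ R b` the events `cn α a ∧ cn α' a` depend on `(rp α a, α), (rp α' a, α')`; different `a ∈ R b` lie on the same side (`R_sd`; `sd α' = sd α`), so `rp_inj`: disjoint; `pr = th ^ 2` (independent coordinates: `pr_mul`-type rule), mean `≤ dd th ^ 2 ≤ 2`: `3 * 2 + 2 N^6 < kd`. `ev_t3`: the events `cn α a`, `a ∈ R b`, `a ∉ dis`, `sd α a = δ`: independent, mean `≤ th dd`;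
`ber` with weights 1, `V = th dd`, `t = th dd pw (-39/200)`: exponent `≥ th dd pw (-39/100) / 8 ≥ N ^ 6 + 1` (see Lvg).
-/
import Pool.Agent.H2.LN.LD
import Pool.Agent.H2.LN.L.Lrp
import Pool.Agent.H12.LN.Tools
import Pool.Agent.H12.LN.V0
import Pool.Agent.H65.GI.Lll

set_option autoImplicit false
set_option linter.unusedSectionVars false

namespace Pool.Agent.H2.LN

open Finset Classical
open Pool.Agent.H65.GI

namespace Cx

variable {V : Type} [Fintype V] {X : Cx V} {c : V → ℕ} {Rc : Finset V}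

theorem Lvt_ne : Nonempty (Fin X.q) := ⟨⟨0, X.th_bd.2.2.1⟩⟩

theorem Lvt_pw0 : X.pw 0 = 1 := by
  unfold pw
  exact Real.rpow_zero _

theorem Lvt_N1 : (1 : ℝ) ≤ X.N := by
  have := X.N_big
  refine le_trans ?_ this
  norm_num

theorem Lvt_N (k : ℕ) : (2 : ℝ) ^ 40 * (X.N : ℝ) ^ k ≤ (X.N : ℝ) ^ (k + 1) := by
  rw [pow_succ, mul_comm]
  exact mul_le_mul_of_nonneg_left X.N_big (by positivity)

theorem Lvt_th0 : 0 ≤ X.th := by
  unfold th
  positivity

theorem Lvt_dd0 : 0 ≤ X.dd := by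
  unfold dd
  positivity

theorem Lvt_mem {ω : X.Co} {δ : ZMod 2} {α : Fin X.s} {v : V} :
    v ∈ X.nS (X.dis c Rc) ω δ α ↔ X.sd α v = δ ∧ v ∉ X.dis c Rc α ∧ X.cn ω α v := by
  unfold nS
  simp only [mem_filter, mem_univ, true_and]

theorem Lvt_dj {α : Fin X.s} {δ : ZMod 2} {j : ℕ} {a a' b : V} (h : a ∈ X.R α δ j b)
    (h' : a' ∈ X.R α δ j b) (hne : a ≠ a') : X.rp α a ≠ X.rp α a' := by
  intro he
  exact hne (rp_inj he ((X.R_sd h).trans (X.R_sd h').symm))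

/-- event `t1` -/
theorem ev_t1 (δ : ZMod 2) (v : V) :
    pr (fun ω : X.Co => 4 * X.pw (2 / 5) <
      ((univ.filter (fun α => v ∈ X.nS (X.dis c Rc) ω δ α)).card : ℝ)) ≤ Real.exp (-(X.N : ℝ) ^ 6) := by
  have : Nonempty (Fin X.q) := Lvt_ne
  have hsum : ∑ i ∈ univ.filter (fun α : Fin X.s => X.sd α v = δ ∧ v ∉ X.dis c Rc α), X.th ≤
      101 / 100 * X.pw (2 / 5) := by
    rw [sum_const, nsmul_eq_mul]
    have h1 : ((univ.filter (fun α : Fin X.s => X.sd α v = δ ∧ v ∉ X.dis c Rc α)).card : ℝ) ≤ X.s := by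
      have := card_le_univ (univ.filter (fun α : Fin X.s => X.sd α v = δ ∧ v ∉ X.dis c Rc α))
      rw [Fintype.card_fin] at this
      exact_mod_cast this
    have h2 := X.s_bd.2
    have h3 := X.th_bd.2.1
    have h4 : X.pw 1 * X.pw (-(3 : ℝ) / 5) = X.pw (2 / 5) := by
      rw [X.pw_add]
      norm_num
    calc _ ≤ X.pw 1 * (101 / 100 * X.pw (-(3 : ℝ) / 5)) :=
          mul_le_mul (h1.trans h2) h3 Lvt_th0 (X.pw_pos 1).le
      _ = 101 / 100 * X.pw (2 / 5) := by rw [← h4]; ring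
  have h := ch_up (I := V × Fin X.s) (κ := Fin X.q)
    (univ.filter (fun α : Fin X.s => X.sd α v = δ ∧ v ∉ X.dis c Rc α))
    (fun α ω => X.cn ω α v) (fun α => {(X.rp α v, α)})
    (fun α _ => cn_loc α v) (fun α _ β _ hne => by
      rw [Finset.disjoint_singleton]
      intro h
      exact hne (congrArg Prod.snd h))
    (fun _ => X.th) (fun α _ => (cn_pr α v).le) (101 / 100 * X.pw (2 / 5)) ((X.N : ℝ) ^ 6) hsum
    (by positivity)
  refine le_trans (pr_mono fun ω hω => ?_) h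
  have h5 : (X.N : ℝ) ^ 7 ≤ X.pw (2 / 5) := X.pwN 7 (2 / 5) (by norm_num)
  have h6 := Lvt_N (X := X) 6
  have h7 : (0 : ℝ) ≤ (X.N : ℝ) ^ 6 := by positivity
  have h8 : 3 * (101 / 100 * X.pw (2 / 5)) + 2 * (X.N : ℝ) ^ 6 ≤ 4 * X.pw (2 / 5) := by
    norm_num at h6
    linarith
  refine h8.trans (hω.le.trans ?_)
  have h9 : (univ.filter (fun α => v ∈ X.nS (X.dis c Rc) ω δ α)) ⊆
      (univ.filter (fun α : Fin X.s => X.sd α v = δ ∧ v ∉ X.dis c Rc α)).filter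
        (fun α => X.cn ω α v) := by
    intro α hα
    rw [mem_filter, Lvt_mem] at hα
    rw [mem_filter, mem_filter]
    exact ⟨⟨mem_univ _, hα.2.1, hα.2.2.1⟩, hα.2.2.2⟩
  exact_mod_cast card_le_card h9

private def Lvt_A (X : Cx V) (ω : X.Co) (α α' : Fin X.s) (a : V) : Prop :=
  X.cn ω α a ∧ X.cn ω α' a

private theorem Lvt_pr2 {α α' : Fin X.s} (hα : α ≠ α') (a : V) :
    pr (fun ω : X.Co => Lvt_A X ω α α' a) ≤ X.th ^ 2 := by
  have : Nonempty (Fin X.q) := Lvt_ne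
  have h := pr_forall (I := V × Fin X.s) (κ := Fin X.q) ({α, α'} : Finset (Fin X.s))
    (fun β ω => X.cn ω β a) (fun β => {(X.rp β a, β)}) (fun β _ => cn_loc β a)
    (fun β _ γ _ hne => by
      rw [Finset.disjoint_singleton]
      intro h
      exact hne (congrArg Prod.snd h))
  rw [prod_pair hα] at h
  have e1 : pr (fun ω : X.Co => X.cn ω α a) = X.th := cn_pr α a
  have e2 : pr (fun ω : X.Co => X.cn ω α' a) = X.th := cn_pr α' a
  rw [e1, e2] at h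
  rw [pow_two, ← h]
  refine pr_mono fun ω hω => ?_
  intro β hβ
  rw [mem_insert, mem_singleton] at hβ
  rcases hβ with rfl | rfl
  · exact hω.1
  · exact hω.2

/-- event `t2` -/
theorem ev_t2 (j : ℕ) (δ : ZMod 2) (α α' : Fin X.s) (hα : α ≠ α') (hc : X.crd α = X.crd α') (b : V) :
    pr (fun ω : X.Co => X.kd < ((X.R α δ j b).filter (fun a =>
      a ∈ X.nS (X.dis c Rc) ω δ α ∧ a ∈ X.nS (X.dis c Rc) ω δ α')).card) ≤
      Real.exp (-(X.N : ℝ) ^ 6) := by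
  have : Nonempty (Fin X.q) := Lvt_ne
  have hsd : ∀ v, X.sd α' v = X.sd α v := fun v => by unfold sd; rw [hc]
  have hsum : ∑ i ∈ X.R α δ j b, X.th ^ 2 ≤ 2 := by
    rw [sum_const, nsmul_eq_mul]
    have h1 : ((X.R α δ j b).card : ℝ) ≤ X.dd := X.R_card_le α δ j b
    have h2 : X.dd ≤ X.pw 1 := X.dd_bd.2.trans (div_le_self (X.pw_pos 1).le
      (one_le_pow₀ Lvt_N1))
    have h3 := X.th_bd.2.1
    have h4 : X.pw 1 * (X.pw (-(3 : ℝ) / 5) * X.pw (-(3 : ℝ) / 5)) ≤ 1 := by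
      rw [X.pw_add, X.pw_add]
      have h5 : X.pw (1 + (-(3 : ℝ) / 5 + -(3 : ℝ) / 5)) ≤ X.pw 0 := by
        unfold pw
        refine Real.rpow_le_rpow_of_exponent_le ?_ (by norm_num)
        have h6 := X.pwN 0 1 (by norm_num)
        unfold pw at h6
        rw [Real.rpow_one, pow_zero] at h6
        exact h6
      rw [Lvt_pw0] at h5
      exact h5
    have h7 : X.th ^ 2 ≤ (101 / 100 * X.pw (-(3 : ℝ) / 5)) ^ 2 := pow_le_pow_left₀ Lvt_th0 h3 2
    calc ((X.R α δ j b).card : ℝ) * X.th ^ 2 ≤ X.pw 1 * (101 / 100 * X.pw (-(3 : ℝ) / 5)) ^ 2 :=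
          mul_le_mul (h1.trans h2) h7 (by positivity) (X.pw_pos 1).le
      _ = (101 / 100) ^ 2 * (X.pw 1 * (X.pw (-(3 : ℝ) / 5) * X.pw (-(3 : ℝ) / 5))) := by ring
      _ ≤ (101 / 100) ^ 2 * 1 := mul_le_mul_of_nonneg_left h4 (by norm_num)
      _ ≤ 2 := by norm_num
  have h := ch_up (I := V × Fin X.s) (κ := Fin X.q) (X.R α δ j b)
    (fun a ω => Lvt_A X ω α α' a) (fun a => {(X.rp α a, α), (X.rp α' a, α')})
    (fun a _ ω ω' h => by
      have e1 := cn_loc α a ω ω' (fun i hi => h i (by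
        rw [mem_singleton] at hi
        rw [hi]
        exact mem_insert_self _ _))
      have e2 := cn_loc α' a ω ω' (fun i hi => h i (by
        rw [mem_singleton] at hi
        rw [hi]
        exact mem_insert_of_mem (mem_singleton_self _)))
      simp only [Lvt_A] at e1 e2 ⊢
      rw [e1, e2]) (fun a ha a' ha' hne => by
      have f1 : X.rp α a ≠ X.rp α a' := Lvt_dj ha ha' hne
      have f2 : X.rp α' a ≠ X.rp α' a' := fun he =>
        hne (rp_inj he (by rw [hsd, hsd]; exact (X.R_sd ha).trans (X.R_sd ha').symm))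
      rw [Finset.disjoint_left]
      intro x hx hx'
      rw [mem_insert, mem_singleton] at hx hx'
      rcases hx with rfl | rfl
      · rcases hx' with h | h
        · exact f1 (congrArg Prod.fst h)
        · exact hα (congrArg Prod.snd h)
      · rcases hx' with h | h
        · exact hα (congrArg Prod.snd h).symm
        · exact f2 (congrArg Prod.fst h))
    (fun _ => X.th ^ 2) (fun a _ => Lvt_pr2 hα a) 2 ((X.N : ℝ) ^ 6) hsum (by positivity)
  refine le_trans (pr_mono fun ω hω => ?_) h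
  have h6 := Lvt_N (X := X) 6
  have hN1 : (1 : ℝ) ≤ (X.N : ℝ) ^ 6 := one_le_pow₀ Lvt_N1
  have hkd : (X.N : ℝ) ^ 7 ≤ (X.kd : ℝ) := by
    unfold kd
    push_cast
    exact pow_le_pow_right₀ Lvt_N1 (by norm_num)
  have h8 : 3 * (2 : ℝ) + 2 * (X.N : ℝ) ^ 6 ≤ (X.kd : ℝ) := by
    norm_num at h6 ⊢
    linarith
  refine h8.trans (Nat.cast_le.2 (hω.le.trans (card_le_card ?_)))
  intro a ha
  rw [mem_filter, Lvt_mem, Lvt_mem] at ha
  exact mem_filter.2 ⟨ha.1, ha.2.1.2.2, ha.2.2.2.2⟩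

theorem Lvt_num : (X.N : ℝ) ^ 6 + 1 ≤
    X.th * X.dd * X.pw (-(39 : ℝ) / 200) ^ 2 / 8 := by
  have hN := X.N_big
  have hN0 : (0 : ℝ) < X.N := lt_of_lt_of_le (by norm_num) hN
  have h1 : X.pw (-(3 : ℝ) / 5) * (X.pw 1 / (8 * X.N ^ 54)) ≤ X.th * X.dd :=
    mul_le_mul X.th_bd.1 X.dd_bd.1 (by have := X.pw_pos 1; positivity) Lvt_th0
  have h2 : X.pw (-(3 : ℝ) / 5) * (X.pw 1 / (8 * X.N ^ 54)) * X.pw (-(39 : ℝ) / 200) ^ 2 / 8 =
      X.pw (1 / 100) / (64 * X.N ^ 54) := by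
    have : X.pw (1 / 100) = X.pw (-(3 : ℝ) / 5) * X.pw 1 * (X.pw (-(39 : ℝ) / 200) *
        X.pw (-(39 : ℝ) / 200)) := by
      rw [X.pw_add, X.pw_add, X.pw_add]
      norm_num
    rw [this]
    field_simp
    ring
  have h3 : X.pw (-(3 : ℝ) / 5) * (X.pw 1 / (8 * X.N ^ 54)) * X.pw (-(39 : ℝ) / 200) ^ 2 / 8 ≤
      X.th * X.dd * X.pw (-(39 : ℝ) / 200) ^ 2 / 8 := by
    have := mul_le_mul_of_nonneg_right h1 (sq_nonneg (X.pw (-(39 : ℝ) / 200)))
    linarith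
  refine le_trans ?_ h3
  rw [h2, le_div_iff₀ (by positivity)]
  have h4 : (X.N : ℝ) ^ 400 ≤ X.pw (1 / 100) := X.pwN 400 (1 / 100) (by norm_num)
  refine le_trans ?_ h4
  have h5 : (X.N : ℝ) ^ 62 ≤ (X.N : ℝ) ^ 400 := pow_le_pow_right₀ Lvt_N1 (by norm_num)
  refine le_trans ?_ h5
  have h6 : (1 : ℝ) ≤ (X.N : ℝ) ^ 6 := one_le_pow₀ Lvt_N1
  have h7 : (128 : ℝ) ≤ (X.N : ℝ) ^ 2 := by
    have : (2 : ℝ) ^ 40 ≤ (X.N : ℝ) ^ 2 := hN.trans (le_self_pow₀ Lvt_N1 (by norm_num))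
    refine le_trans ?_ this
    norm_num
  calc ((X.N : ℝ) ^ 6 + 1) * (64 * X.N ^ 54) ≤ (2 * (X.N : ℝ) ^ 6) * (64 * X.N ^ 54) :=
        mul_le_mul_of_nonneg_right (by linarith) (by positivity)
    _ = 128 * (X.N : ℝ) ^ 60 := by ring
    _ ≤ (X.N : ℝ) ^ 2 * (X.N : ℝ) ^ 60 := mul_le_mul_of_nonneg_right h7 (by positivity)
    _ = (X.N : ℝ) ^ 62 := by ring

/-- event `t3` -/
theorem ev_t3 (j : ℕ) (δ : ZMod 2) (α : Fin X.s) (b : V) :
    pr (fun ω : X.Co => X.th * X.dd * (1 + X.pw (-(39 : ℝ) / 200)) <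
      (((X.R α δ j b).filter (fun a => a ∈ X.nS (X.dis c Rc) ω δ α)).card : ℝ)) ≤
      Real.exp (-(X.N : ℝ) ^ 6) := by
  have : Nonempty (Fin X.q) := Lvt_ne
  obtain ⟨E, hE⟩ : ∃ E, E = X.th * X.dd := ⟨_, rfl⟩
  obtain ⟨p, hp⟩ : ∃ p, p = X.pw (-(39 : ℝ) / 200) := ⟨_, rfl⟩
  have hp0 : 0 < p := hp ▸ X.pw_pos _
  have hp1 : p ≤ 1 := by
    rw [hp, ← Lvt_pw0 (X := X)]
    unfold pw
    refine Real.rpow_le_rpow_of_exponent_le ?_ (by norm_num)
    have h6 := X.pwN 0 1 (by norm_num)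
    unfold pw at h6
    rw [Real.rpow_one, pow_zero] at h6
    exact h6
  have hnum := Lvt_num (X := X)
  rw [← hE, ← hp] at hnum
  have hE0 : 0 ≤ E := by rw [hE]; exact mul_nonneg Lvt_th0 Lvt_dd0
  have hEpos : 0 < E := by
    by_contra hcon
    have h0 : E = 0 := le_antisymm (not_lt.1 hcon) hE0
    rw [h0] at hnum
    have h1 : (0 : ℝ) ≤ (X.N : ℝ) ^ 6 := by positivity
    linarith [hnum, (by ring : (0 : ℝ) * p ^ 2 / 8 = 0)]
  have hcard : ((X.R α δ j b).card : ℝ) ≤ X.dd := X.R_card_le α δ j b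
  have hV : ∑ i ∈ X.R α δ j b, (1 : ℝ) ^ 2 * pr (fun ω : X.Co => X.cn ω α i) ≤ E := by
    have : ∀ i ∈ X.R α δ j b, (1 : ℝ) ^ 2 * pr (fun ω : X.Co => X.cn ω α i) = X.th := fun i _ => by
      rw [cn_pr α i]; ring
    rw [sum_congr rfl this, sum_const, nsmul_eq_mul, hE, mul_comm]
    exact mul_le_mul_of_nonneg_left hcard Lvt_th0
  have h := Pool.Agent.H12.LN.ber (I := V × Fin X.s) (κ := Fin X.q) (X.R α δ j b)
    (fun a ω => X.cn ω α a) (fun a => {(X.rp α a, α)}) (fun a _ => cn_loc α a)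
    (fun a ha a' ha' hne => by
      rw [Finset.disjoint_singleton]
      intro h
      exact Lvt_dj ha ha' hne (congrArg Prod.fst h))
    (fun _ => 1) 1 E (E * p) (fun _ _ => ⟨zero_le_one, le_refl 1⟩) hV zero_le_one
    (mul_nonneg hE0 hp0.le)
  have h2 : 2 * Real.exp (-((E * p) ^ 2 / (4 * (E + 1 * (E * p))))) ≤ Real.exp (-(X.N : ℝ) ^ 6) := by
    have e1 : (X.N : ℝ) ^ 6 + 1 ≤ (E * p) ^ 2 / (4 * (E + 1 * (E * p))) := by
      refine hnum.trans ?_
      rw [div_le_div_iff₀ (by norm_num) (by positivity)]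
      have : E * p ^ 2 * (4 * (E + 1 * (E * p))) = (4 * E ^ 2 * p ^ 2) * (1 + p) := by ring
      rw [this]
      have h3 : (E * p) ^ 2 * 8 = (4 * E ^ 2 * p ^ 2) * 2 := by ring
      rw [h3]
      exact mul_le_mul_of_nonneg_left (by linarith) (by positivity)
    have e2 : Real.exp (-((E * p) ^ 2 / (4 * (E + 1 * (E * p))))) ≤
        Real.exp (-1 + -(X.N : ℝ) ^ 6) := Real.exp_le_exp.2 (by linarith)
    rw [Real.exp_add] at e2
    have e3 : Real.exp (-1) ≤ 1 / 2 := by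
      rw [Real.exp_neg, ← one_div]
      have : (2 : ℝ) ≤ Real.exp 1 := by
        have := Real.add_one_le_exp (1 : ℝ)
        linarith
      exact one_div_le_one_div_of_le (by norm_num) this
    have e4 : 0 < Real.exp (-(X.N : ℝ) ^ 6) := Real.exp_pos _
    nlinarith [mul_le_mul_of_nonneg_right e3 e4.le]
  refine le_trans (pr_mono fun ω hω => ?_) (h.trans h2)
  rw [← hE, ← hp] at hω
  have s1 : (∑ i ∈ X.R α δ j b, if X.cn ω α i then (1 : ℝ) else 0) =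
      (((X.R α δ j b).filter (fun a => X.cn ω α a)).card : ℝ) := by
    rw [sum_boole]
  have s2 : ∑ i ∈ X.R α δ j b, (1 : ℝ) * pr (fun ω : X.Co => X.cn ω α i) ≤ E := by
    refine le_trans (le_of_eq ?_) hV
    refine sum_congr rfl fun i _ => ?_
    ring
  have s3 : (((X.R α δ j b).filter (fun a => a ∈ X.nS (X.dis c Rc) ω δ α)).card : ℝ) ≤
      (((X.R α δ j b).filter (fun a => X.cn ω α a)).card : ℝ) := by
    have : ((X.R α δ j b).filter (fun a => a ∈ X.nS (X.dis c Rc) ω δ α)) ⊆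
        ((X.R α δ j b).filter (fun a => X.cn ω α a)) := by
      intro a ha
      rw [mem_filter, Lvt_mem] at ha
      rw [mem_filter]
      exact ⟨ha.1, ha.2.2.2⟩
    exact_mod_cast card_le_card this
  show E * p ≤ |(∑ i ∈ X.R α δ j b, if X.cn ω α i then (1 : ℝ) else 0) -
    ∑ i ∈ X.R α δ j b, (1 : ℝ) * pr (fun ω : X.Co => X.cn ω α i)|
  rw [s1]
  refine le_trans ?_ (le_abs_self _)
  linarith

end Cx

end Pool.Agent.H2.LN
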