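/-
ROW Lsx. The local lemma for one step.
PROOF. `lll_bl` (H65/GI/Lll) for `Ω = V × Fin s → Fin q`, radius `r = 60 N ^ 3 + 5`. `B τ := ` the maximum of `|t.m τ δ α a|` over all `δ α a` (`Finset.sup'` over the finite type, or `⨆`); if `V` is empty everything is trivial (`𝓕`-clauses too: sums over an empty type). Bad event `E v`: one of the events `g` (all `δ, α` with `v ∈ t.S δ α`), `c, t1, t2, t3, y` (if `B τ > 0`) with `b` resp. the vertex `= v`, `p` (if `B τ > 0`) and `h` for the functions `f v i`, all `i, τ, δ, α`, fails.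
Probability `≤ (10 s^2 + 10 s |ι|) exp (-N^6) ≤ exp (-N^5)` (`s ≤ Δ ≤ exp N`). Locality: everything depends on the coins in `bl v r` (`GG_loc`; `f v i` supported in `bl v (60 N^3)`; `arr b` at `b` depends on `GG a`, `a ∈ R b`; use `arr_eq`). `exp 1 · exp (-N^5) (Δ + 1)^(2 r) ≤ 1`-type condition of `lll_bl`: `2 r log (Δ + 1) ≤ N^5 - 2`.
From a good `ω`: for `B' ≥ |t.m τ ..|`: `B τ ≤ B'`, so the errors with `B τ` are enough; if `B τ = 0`, `t.m τ = 0` and both sides are `0`. `hF` translates `𝓕 F` to `F = f v i`.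
-/
import Pool.Agent.H2.LN.LD
import Pool.Agent.H2.LN.L.Lvg
import Pool.Agent.H2.LN.L.Lvc
import Pool.Agent.H2.LN.L.Lvt
import Pool.Agent.H2.LN.L.Lvy
import Pool.Agent.H2.LN.L.Lvp
import Pool.Agent.H2.LN.L.Lvh
import Pool.Agent.H12.LN.Tools
import Pool.Agent.H12.LN.V0
import Pool.Agent.H65.GI.Lll

set_option autoImplicit false
set_option linter.unusedSectionVars false

namespace Pool.Agent.H2.LN

open Finset Classical
open Pool.Agent.H65.GI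

namespace Cx

variable {V : Type} [Fintype V] {X : Cx V} {c : V → ℕ} {Rc : Finset V}

/-- the maximal mass -/
noncomputable def Lsx_B (X : Cx V) (t : X.St) (τ : Fin 2) : ℝ :=
  ⨆ x : ZMod 2 × Fin X.s × V, |t.m τ x.1 x.2.1 x.2.2|

theorem Lsx_le (t : X.St) (τ : Fin 2) (δ : ZMod 2) (α : Fin X.s) (a : V) : |t.m τ δ α a| ≤ Lsx_B X t τ :=
  le_ciSup (f := fun x : ZMod 2 × Fin X.s × V => |t.m τ x.1 x.2.1 x.2.2|) (Set.finite_range _).bddAbove (δ, α, a)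

theorem Lsx_B_le (t : X.St) (τ : Fin 2) (α : Fin X.s) (a : V) (B : ℝ) (h : ∀ δ α a, |t.m τ δ α a| ≤ B) :
    Lsx_B X t τ ≤ B := by
  have : Nonempty (ZMod 2 × Fin X.s × V) := ⟨(0, α, a)⟩
  exact ciSup_le fun x => h _ _ _

theorem Lsx_pr {κ : Type} [Fintype κ] (A : κ → X.Co → Prop) (p : ℝ) (h : ∀ i, pr (A i) ≤ p) :
    pr (fun ω : X.Co => ∃ i, A i ω) ≤ (Fintype.card κ : ℝ) * p := by
  refine (pr_mono (B := fun ω : X.Co => ∃ i ∈ (univ : Finset κ), A i ω) ?_).trans (pr_ex univ A p fun i _ => h i)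
  rintro ω ⟨i, hi⟩
  exact ⟨i, mem_univ _, hi⟩

theorem Lsx_prc (P : Prop) (Q : X.Co → Prop) (p : ℝ) (hp : 0 ≤ p) (h : P → pr Q ≤ p) :
    pr (fun ω : X.Co => P ∧ Q ω) ≤ p := by
  by_cases hP : P
  · exact (pr_mono fun ω hω => hω.2).trans (h hP)
  · have h0 : pr (fun _ : X.Co => False) = 0 := by simp [pr]
    exact (pr_mono (B := fun _ : X.Co => False) fun ω hω => hP hω.1).trans (h0.le.trans hp)

/-- the set of the event `c` -/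
noncomputable def Lsx_c (X : Cx V) (t : X.St) (j : ℕ) (ω : X.Co) (δ : ZMod 2) (α : Fin X.s) (b : V) : Finset V :=
  (X.R α δ j b).filter (fun a => a ∈ t.S δ α ∧
    ∃ α', α' ≠ α ∧ X.crd α' = X.crd α ∧ a ∈ t.S δ α' ∧ X.cn ω α' b)

/-- the set of the event `t1` -/
noncomputable def Lsx_1 (X : Cx V) (c : V → ℕ) (Rc : Finset V) (ω : X.Co) (δ : ZMod 2) (v : V) : Finset (Fin X.s) :=
  univ.filter (fun α => v ∈ X.nS (X.dis c Rc) ω δ α)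

/-- the set of the event `t2` -/
noncomputable def Lsx_2 (X : Cx V) (c : V → ℕ) (Rc : Finset V) (j : ℕ) (ω : X.Co) (δ : ZMod 2) (α α' : Fin X.s) (b : V) :
    Finset V :=
  (X.R α δ (j + 1) b).filter (fun a => a ∈ X.nS (X.dis c Rc) ω δ α ∧ a ∈ X.nS (X.dis c Rc) ω δ α')

/-- the set of the event `t3` -/
noncomputable def Lsx_3 (X : Cx V) (c : V → ℕ) (Rc : Finset V) (j : ℕ) (ω : X.Co) (δ : ZMod 2) (α : Fin X.s) (b : V) :
    Finset V :=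
  (X.R α δ (j + 1) b).filter (fun a => a ∈ X.nS (X.dis c Rc) ω δ α)

/-- event `g` at `v` -/
def Lsx_Eg (X : Cx V) (c : V → ℕ) (Rc : Finset V) (j : ℕ) (t : X.St) (v : V) (ω : X.Co) : Prop :=
  ∃ x : ZMod 2 × Fin X.s, v ∈ t.S x.1 x.2 ∧ X.th * X.dd * X.pw (-(39 : ℝ) / 200) <
      |((X.GG (X.dis c Rc) j t ω x.1 x.2 v).card : ℝ) - X.th * X.dd|

/-- event `c` at `v` -/
def Lsx_Ec (X : Cx V) (j : ℕ) (t : X.St) (v : V) (ω : X.Co) : Prop :=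
  ∃ x : ZMod 2 × Fin X.s, 60 * X.pw (1 / 5) / mT X.N < ((Lsx_c X t j ω x.1 x.2 v).card : ℝ)

/-- event `t1` at `v` -/
def Lsx_E1 (X : Cx V) (c : V → ℕ) (Rc : Finset V) (v : V) (ω : X.Co) : Prop :=
  ∃ x : ZMod 2, 4 * X.pw (2 / 5) < ((Lsx_1 X c Rc ω x v).card : ℝ)

/-- event `t2` at `v` -/
def Lsx_E2 (X : Cx V) (c : V → ℕ) (Rc : Finset V) (j : ℕ) (v : V) (ω : X.Co) : Prop :=
  ∃ x : ZMod 2 × Fin X.s × Fin X.s, (x.2.1 ≠ x.2.2 ∧ X.crd x.2.1 = X.crd x.2.2) ∧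
      X.kd < (Lsx_2 X c Rc j ω x.1 x.2.1 x.2.2 v).card

/-- event `t3` at `v` -/
def Lsx_E3 (X : Cx V) (c : V → ℕ) (Rc : Finset V) (j : ℕ) (v : V) (ω : X.Co) : Prop :=
  ∃ x : ZMod 2 × Fin X.s, X.th * X.dd * (1 + X.pw (-(39 : ℝ) / 200)) < ((Lsx_3 X c Rc j ω x.1 x.2 v).card : ℝ)

/-- the deviation of event `y` -/
noncomputable def Lsx_dy (X : Cx V) (c : V → ℕ) (Rc : Finset V) (j : ℕ) (t : X.St) (v : V) (τ : Fin 2) (δ : ZMod 2)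
    (α : Fin X.s) (ω : X.Co) : ℝ :=
  |(∑ a ∈ Lsx_3 X c Rc j ω δ α v, X.mv α (X.Y j t τ δ α) a) / (X.th * X.dd) -
        X.A α δ (j + 1) (X.mv α (X.Y j t τ δ α)) v|

/-- event `y` at `v` -/
def Lsx_Ey (X : Cx V) (c : V → ℕ) (Rc : Finset V) (j : ℕ) (t : X.St) (v : V) (ω : X.Co) : Prop :=
  ∃ x : Fin 2 × ZMod 2 × Fin X.s, 0 < Lsx_B X t x.1 ∧ X.pw (-(39 : ℝ) / 200) * Lsx_B X t x.1 <
      Lsx_dy X c Rc j t v x.1 x.2.1 x.2.2 ω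

/-- the deviation of event `p` -/
noncomputable def Lsx_dp (X : Cx V) (c : V → ℕ) (Rc : Finset V) (j : ℕ) (t : X.St) (F : V → ℝ) (τ : Fin 2) (δ : ZMod 2)
    (α : Fin X.s) (ω : X.Co) : ℝ :=
  |(∑ b, F b * X.arr (X.dis c Rc) j t ω τ δ α b) - ∑ a ∈ t.S δ α, t.m τ δ α a *
        ((∑ b ∈ (X.R α δ j a).filter (fun b => b ∉ X.dis c Rc α), F b) /
          (((X.R α δ j a).filter (fun b => b ∉ X.dis c Rc α)).card : ℝ))|

/-- event `p` at `v` -/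
def Lsx_Ep (X : Cx V) (c : V → ℕ) (Rc : Finset V) (j : ℕ) (t : X.St) {ι : Type} (f : V → ι → V → ℝ) (v : V)
    (ω : X.Co) : Prop :=
  ∃ x : ι × Fin 2 × ZMod 2 × Fin X.s, 0 < Lsx_B X t x.2.1 ∧ X.pw (-(19 : ℝ) / 5) / 2 * Lsx_B X t x.2.1 <
      Lsx_dp X c Rc j t (f v x.1) x.2.1 x.2.2.1 x.2.2.2 ω

/-- the deviation of event `h` -/
noncomputable def Lsx_dh (X : Cx V) (c : V → ℕ) (Rc : Finset V) (F : V → ℝ) (δ : ZMod 2) (α : Fin X.s) (ω : X.Co) : ℝ :=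
  |(∑ y ∈ X.nS (X.dis c Rc) ω δ α, F y) -
      X.th * ∑ y ∈ univ.filter (fun y => X.sd α y = δ ∧ y ∉ X.dis c Rc α), F y|

/-- event `h` at `v` -/
def Lsx_Eh (X : Cx V) (c : V → ℕ) (Rc : Finset V) {ι : Type} (f : V → ι → V → ℝ) (v : V)
    (ω : X.Co) : Prop :=
  ∃ x : ι × ZMod 2 × Fin X.s, X.pw (-(19 : ℝ) / 5) < Lsx_dh X c Rc (f v x.1) x.2.1 x.2.2 ω

/-- the bad event at `v` -/
def Lsx_E (X : Cx V) (c : V → ℕ) (Rc : Finset V) (j : ℕ) (t : X.St) {ι : Type} (f : V → ι → V → ℝ) (v : V)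
    (ω : X.Co) : Prop :=
  (Lsx_Eg X c Rc j t v ω ∨ Lsx_Ec X j t v ω) ∨ (Lsx_E1 X c Rc v ω ∨ Lsx_E2 X c Rc j v ω) ∨
    (Lsx_E3 X c Rc j v ω ∨ Lsx_Ey X c Rc j t v ω) ∨ (Lsx_Ep X c Rc j t f v ω ∨ Lsx_Eh X c Rc f v ω)

theorem Lsx_Eg_pr (hk : X.KD c Rc) (j : ℕ) (hj : j < X.n) (t : X.St) (ht : X.TT j t) (v : V) :
    pr (Lsx_Eg X c Rc j t v) ≤ (2 * X.s : ℝ) * Real.exp (-(X.N : ℝ) ^ 6) := by
  have h := Lsx_pr (fun (x : ZMod 2 × Fin X.s) (ω : X.Co) => v ∈ t.S x.1 x.2 ∧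
      X.th * X.dd * X.pw (-(39 : ℝ) / 200) < |((X.GG (X.dis c Rc) j t ω x.1 x.2 v).card : ℝ) - X.th * X.dd|)
    (Real.exp (-(X.N : ℝ) ^ 6)) fun x => Lsx_prc (v ∈ t.S x.1 x.2) _ _ (Real.exp_pos _).le
      fun hx => ev_g hk j hj t ht x.1 x.2 v hx
  rw [Fintype.card_prod, ZMod.card, Fintype.card_fin] at h
  push_cast at h
  exact h

theorem Lsx_Ec_pr (hk : X.KD c Rc) (j : ℕ) (hj : j < X.n) (t : X.St) (ht : X.TT j t) (v : V) :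
    pr (Lsx_Ec X j t v) ≤ (2 * X.s : ℝ) * Real.exp (-(X.N : ℝ) ^ 6) := by
  have h := Lsx_pr (fun (x : ZMod 2 × Fin X.s) (ω : X.Co) =>
      60 * X.pw (1 / 5) / mT X.N < ((Lsx_c X t j ω x.1 x.2 v).card : ℝ)) (Real.exp (-(X.N : ℝ) ^ 6))
      fun x => ev_c hk j hj t ht x.1 x.2 v
  rw [Fintype.card_prod, ZMod.card, Fintype.card_fin] at h
  push_cast at h
  exact h

theorem Lsx_E1_pr (v : V) : pr (Lsx_E1 X c Rc v) ≤ (2 : ℝ) * Real.exp (-(X.N : ℝ) ^ 6) := by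
  have h := Lsx_pr (fun (x : ZMod 2) (ω : X.Co) => 4 * X.pw (2 / 5) < ((Lsx_1 X c Rc ω x v).card : ℝ))
    (Real.exp (-(X.N : ℝ) ^ 6)) fun x => ev_t1 (X := X) (c := c) (Rc := Rc) x v
  rw [ZMod.card] at h
  push_cast at h
  exact h

theorem Lsx_E2_pr (j : ℕ) (v : V) : pr (Lsx_E2 X c Rc j v) ≤ (2 * (X.s * X.s) : ℝ) * Real.exp (-(X.N : ℝ) ^ 6) := by
  have h := Lsx_pr (fun (x : ZMod 2 × Fin X.s × Fin X.s) (ω : X.Co) =>
      (x.2.1 ≠ x.2.2 ∧ X.crd x.2.1 = X.crd x.2.2) ∧ X.kd < (Lsx_2 X c Rc j ω x.1 x.2.1 x.2.2 v).card)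
    (Real.exp (-(X.N : ℝ) ^ 6))
    fun x => Lsx_prc _ _ _ (Real.exp_pos _).le fun hx => ev_t2 (X := X) (c := c) (Rc := Rc) (j + 1) x.1 x.2.1 x.2.2 hx.1 hx.2 v
  rw [Fintype.card_prod, Fintype.card_prod, ZMod.card, Fintype.card_fin] at h
  push_cast at h
  exact h

theorem Lsx_E3_pr (j : ℕ) (v : V) : pr (Lsx_E3 X c Rc j v) ≤ (2 * X.s : ℝ) * Real.exp (-(X.N : ℝ) ^ 6) := by
  have h := Lsx_pr (fun (x : ZMod 2 × Fin X.s) (ω : X.Co) =>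
      X.th * X.dd * (1 + X.pw (-(39 : ℝ) / 200)) < ((Lsx_3 X c Rc j ω x.1 x.2 v).card : ℝ))
    (Real.exp (-(X.N : ℝ) ^ 6)) fun x => ev_t3 (X := X) (c := c) (Rc := Rc) (j + 1) x.1 x.2 v
  rw [Fintype.card_prod, ZMod.card, Fintype.card_fin] at h
  push_cast at h
  exact h

theorem Lsx_Ey_pr (hk : X.KD c Rc) (j : ℕ) (hj : j < X.n) (t : X.St) (ht : X.TT j t) (v : V) :
    pr (Lsx_Ey X c Rc j t v) ≤ (2 * (2 * X.s) : ℝ) * Real.exp (-(X.N : ℝ) ^ 6) := by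
  have h := Lsx_pr (fun (x : Fin 2 × ZMod 2 × Fin X.s) (ω : X.Co) => 0 < Lsx_B X t x.1 ∧
      X.pw (-(39 : ℝ) / 200) * Lsx_B X t x.1 < Lsx_dy X c Rc j t v x.1 x.2.1 x.2.2 ω)
    (Real.exp (-(X.N : ℝ) ^ 6))
    fun x => Lsx_prc _ _ _ (Real.exp_pos _).le
      fun hx => ev_y hk j hj t ht x.1 x.2.1 x.2.2 v _ hx (Lsx_le t x.1)
  rw [Fintype.card_prod, Fintype.card_prod, ZMod.card, Fintype.card_fin, Fintype.card_fin] at h
  push_cast at h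
  exact h

theorem Lsx_Ep_pr (hk : X.KD c Rc) (j : ℕ) (hj : j < X.n) (t : X.St) (ht : X.TT j t) {ι : Type} [Fintype ι]
    (f : V → ι → V → ℝ) (hf : ∀ v i, LinF X.G X.N X.Δ v (f v i)) (v : V) :
    pr (Lsx_Ep X c Rc j t f v) ≤ ((Fintype.card ι : ℝ) * (2 * (2 * X.s))) * Real.exp (-(X.N : ℝ) ^ 6) := by
  have h := Lsx_pr (fun (x : ι × Fin 2 × ZMod 2 × Fin X.s) (ω : X.Co) => 0 < Lsx_B X t x.2.1 ∧
      X.pw (-(19 : ℝ) / 5) / 2 * Lsx_B X t x.2.1 < Lsx_dp X c Rc j t (f v x.1) x.2.1 x.2.2.1 x.2.2.2 ω)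
    (Real.exp (-(X.N : ℝ) ^ 6))
    fun x => Lsx_prc _ _ _ (Real.exp_pos _).le fun hx =>
      ev_p hk j hj t ht x.2.1 x.2.2.1 x.2.2.2 (f v x.1) v (hf v x.1) _ hx (Lsx_le t x.2.1)
  rw [Fintype.card_prod, Fintype.card_prod, Fintype.card_prod, ZMod.card, Fintype.card_fin, Fintype.card_fin] at h
  push_cast at h
  exact h

theorem Lsx_Eh_pr {ι : Type} [Fintype ι]
    (f : V → ι → V → ℝ) (hf : ∀ v i, LinF X.G X.N X.Δ v (f v i)) (v : V) :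
    pr (Lsx_Eh X c Rc f v) ≤ ((Fintype.card ι : ℝ) * (2 * X.s)) * Real.exp (-(X.N : ℝ) ^ 6) := by
  have h := Lsx_pr (fun (x : ι × ZMod 2 × Fin X.s) (ω : X.Co) =>
      X.pw (-(19 : ℝ) / 5) < Lsx_dh X c Rc (f v x.1) x.2.1 x.2.2 ω)
    (Real.exp (-(X.N : ℝ) ^ 6)) fun x => ev_h (X := X) (c := c) (Rc := Rc) x.2.1 x.2.2 (f v x.1) v (hf v x.1)
  rw [Fintype.card_prod, Fintype.card_prod, ZMod.card, Fintype.card_fin] at h
  push_cast at h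
  exact h

theorem Lsx_E_pr (hk : X.KD c Rc) (j : ℕ) (hj : j < X.n) (t : X.St) (ht : X.TT j t) {ι : Type} [Fintype ι]
    (f : V → ι → V → ℝ) (hf : ∀ v i, LinF X.G X.N X.Δ v (f v i)) (v : V) :
    pr (Lsx_E X c Rc j t f v) ≤
      (2 * (X.s : ℝ) ^ 2 + 10 * X.s + 2 + 6 * (Fintype.card ι) * X.s) * Real.exp (-(X.N : ℝ) ^ 6) := by
  have h1 := Lsx_Eg_pr hk j hj t ht v
  have h2 := Lsx_Ec_pr hk j hj t ht v
  have h3 := Lsx_E1_pr (X := X) (c := c) (Rc := Rc) v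
  have h4 := Lsx_E2_pr (X := X) (c := c) (Rc := Rc) j v
  have h5 := Lsx_E3_pr (X := X) (c := c) (Rc := Rc) j v
  have h6 := Lsx_Ey_pr hk j hj t ht v
  have h7 := Lsx_Ep_pr hk j hj t ht f hf v
  have h8 := Lsx_Eh_pr (X := X) (c := c) (Rc := Rc) f hf v
  have k1 := pr_or (Lsx_Eg X c Rc j t v) (Lsx_Ec X j t v)
  have k2 := pr_or (Lsx_E1 X c Rc v) (Lsx_E2 X c Rc j v)
  have k3 := pr_or (Lsx_E3 X c Rc j v) (Lsx_Ey X c Rc j t v)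
  have k4 := pr_or (Lsx_Ep X c Rc j t f v) (Lsx_Eh X c Rc f v)
  have k5 := pr_or (fun ω => Lsx_E3 X c Rc j v ω ∨ Lsx_Ey X c Rc j t v ω)
    (fun ω => Lsx_Ep X c Rc j t f v ω ∨ Lsx_Eh X c Rc f v ω)
  have k6 := pr_or (fun ω => Lsx_E1 X c Rc v ω ∨ Lsx_E2 X c Rc j v ω)
    (fun ω => (Lsx_E3 X c Rc j v ω ∨ Lsx_Ey X c Rc j t v ω) ∨ (Lsx_Ep X c Rc j t f v ω ∨ Lsx_Eh X c Rc f v ω))
  have k7 := pr_or (fun ω => Lsx_Eg X c Rc j t v ω ∨ Lsx_Ec X j t v ω)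
    (fun ω => (Lsx_E1 X c Rc v ω ∨ Lsx_E2 X c Rc j v ω) ∨
      (Lsx_E3 X c Rc j v ω ∨ Lsx_Ey X c Rc j t v ω) ∨ (Lsx_Ep X c Rc j t f v ω ∨ Lsx_Eh X c Rc f v ω))
  have k8 : pr (Lsx_E X c Rc j t f v) = pr (fun ω => (Lsx_Eg X c Rc j t v ω ∨ Lsx_Ec X j t v ω) ∨
      ((Lsx_E1 X c Rc v ω ∨ Lsx_E2 X c Rc j v ω) ∨
      (Lsx_E3 X c Rc j v ω ∨ Lsx_Ey X c Rc j t v ω) ∨ (Lsx_Ep X c Rc j t f v ω ∨ Lsx_Eh X c Rc f v ω))) := rfl
  rw [k8]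
  have e : (2 * (X.s : ℝ) ^ 2 + 10 * X.s + 2 + 6 * (Fintype.card ι) * X.s) * Real.exp (-(X.N : ℝ) ^ 6) =
      (2 * X.s : ℝ) * Real.exp (-(X.N : ℝ) ^ 6) + (2 * X.s : ℝ) * Real.exp (-(X.N : ℝ) ^ 6) +
      ((2 : ℝ) * Real.exp (-(X.N : ℝ) ^ 6) + (2 * (X.s * X.s) : ℝ) * Real.exp (-(X.N : ℝ) ^ 6) +
      ((2 * X.s : ℝ) * Real.exp (-(X.N : ℝ) ^ 6) + (2 * (2 * X.s) : ℝ) * Real.exp (-(X.N : ℝ) ^ 6) +
      (((Fintype.card ι : ℝ) * (2 * (2 * X.s))) * Real.exp (-(X.N : ℝ) ^ 6) +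
      ((Fintype.card ι : ℝ) * (2 * X.s)) * Real.exp (-(X.N : ℝ) ^ 6)))) := by ring
  rw [e]
  exact k7.trans (add_le_add (k1.trans (add_le_add h1 h2)) (k6.trans (add_le_add (k2.trans (add_le_add h3 h4))
    (k5.trans (add_le_add (k3.trans (add_le_add h5 h6)) (k4.trans (add_le_add h7 h8)))))))

/-! ### Locality -/

theorem Lsx_rp (α : Fin X.s) (x : V) : X.rp α x ∈ bl X.G x 1 := by
  unfold rp
  split_ifs with h
  · exact bl_self X.G x 1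
  · exact bl_adj X.G (bl_self X.G x 0) (X.M_adj fun e => h (Or.inr e))

theorem Lsx_cn {v : V} {r k : ℕ} {ω ω' : X.Co} (h : ∀ x ∈ bl X.G v r, ∀ α, ω (x, α) = ω' (x, α)) {x : V}
    (hx : x ∈ bl X.G v k) (hk : k + 1 ≤ r) (α : Fin X.s) : X.cn ω α x = X.cn ω' α x := by
  refine cn_loc α x ω ω' fun i hi => ?_
  rw [mem_singleton.1 hi]
  exact h _ (bl_mono X.G v hk (bl_bl X.G hx (Lsx_rp α x))) α

theorem Lsx_nS {v : V} {r k : ℕ} {ω ω' : X.Co} (h : ∀ x ∈ bl X.G v r, ∀ α, ω (x, α) = ω' (x, α)) {x : V}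
    (hx : x ∈ bl X.G v k) (hk : k + 1 ≤ r) (δ : ZMod 2) (α : Fin X.s) :
    (x ∈ X.nS (X.dis c Rc) ω δ α) ↔ (x ∈ X.nS (X.dis c Rc) ω' δ α) := by
  unfold nS
  rw [mem_filter, mem_filter, Lsx_cn h hx hk α]

theorem Lsx_GG {v : V} {r k : ℕ} {ω ω' : X.Co} (h : ∀ x ∈ bl X.G v r, ∀ α, ω (x, α) = ω' (x, α)) {a : V}
    (ha : a ∈ bl X.G v k) (hk : k + 2 ≤ r) (j : ℕ) (t : X.St) (δ : ZMod 2) (α : Fin X.s) :
    X.GG (X.dis c Rc) j t ω δ α a = X.GG (X.dis c Rc) j t ω' δ α a := by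
  refine GG_loc j t δ α a ω ω' fun i hi => ?_
  exact h i.1 (bl_mono X.G v hk (bl_bl X.G ha (mem_filter.1 hi).2)) i.2

theorem Lsx_arr {v : V} {r k : ℕ} {ω ω' : X.Co} (h : ∀ x ∈ bl X.G v r, ∀ α, ω (x, α) = ω' (x, α)) {b : V}
    (hb : b ∈ bl X.G v k) (hk : k + 3 ≤ r) (j : ℕ) (t : X.St) (τ : Fin 2) (δ : ZMod 2) (α : Fin X.s) :
    X.arr (X.dis c Rc) j t ω τ δ α b = X.arr (X.dis c Rc) j t ω' τ δ α b := by
  have key : ∀ ω₁ ω₂ : X.Co, (∀ x ∈ bl X.G v r, ∀ α, ω₁ (x, α) = ω₂ (x, α)) → ∀ a,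
      b ∈ X.GG (X.dis c Rc) j t ω₁ δ α a → X.GG (X.dis c Rc) j t ω₁ δ α a = X.GG (X.dis c Rc) j t ω₂ δ α a := by
    intro ω₁ ω₂ h₁ a ha
    have hR : b ∈ X.R α δ j a := (mem_filter.1 ha).1
    have hab : a ∈ bl X.G v (k + 1) := bl_adj X.G hb (X.R_adj hR).symm
    exact Lsx_GG h₁ hab (by omega) j t δ α
  unfold arr
  refine sum_congr ?_ fun a ha => ?_
  · refine filter_congr fun a _ => ⟨fun ha => ?_, fun ha => ?_⟩
    · rw [← key ω ω' h a ha]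
      exact ha
    · rw [← key ω' ω (fun x hx α => (h x hx α).symm) a ha]
      exact ha
  · rw [key ω' ω (fun x hx α => (h x hx α).symm) a (mem_filter.1 ha).2]

theorem Lsx_E_loc (j : ℕ) (t : X.St) {ι : Type} (f : V → ι → V → ℝ) (hf : ∀ v i, LinF X.G X.N X.Δ v (f v i))
    (v : V) : Loc (Lsx_E X c Rc j t f v) ((bl X.G v (60 * X.N ^ 3 + 5)) ×ˢ (univ : Finset (Fin X.s))) := by
  intro ω ω' hω
  have h : ∀ x ∈ bl X.G v (60 * X.N ^ 3 + 5), ∀ α, ω (x, α) = ω' (x, α) := fun x hx α =>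
    hω (x, α) (mem_product.2 ⟨hx, mem_univ _⟩)
  have hv : v ∈ bl X.G v 0 := bl_self X.G v 0
  have e1 : ∀ δ α, X.GG (X.dis c Rc) j t ω δ α v = X.GG (X.dis c Rc) j t ω' δ α v := fun δ α =>
    Lsx_GG h hv (by omega) j t δ α
  have e2 : ∀ δ α, Lsx_c X t j ω δ α v = Lsx_c X t j ω' δ α v := by
    intro δ α
    unfold Lsx_c
    refine filter_congr fun a _ => ?_
    have : ∀ α', X.cn ω α' v = X.cn ω' α' v := fun α' => Lsx_cn h hv (by omega) α'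
    simp only [this]
  have e3 : ∀ δ, Lsx_1 X c Rc ω δ v = Lsx_1 X c Rc ω' δ v := by
    intro δ
    unfold Lsx_1
    exact filter_congr fun α _ => Lsx_nS h hv (by omega) δ α
  have hR : ∀ {δ α a}, a ∈ X.R α δ (j + 1) v → a ∈ bl X.G v 1 := fun ha => bl_adj X.G hv (X.R_adj ha)
  have e4 : ∀ δ α α', Lsx_2 X c Rc j ω δ α α' v = Lsx_2 X c Rc j ω' δ α α' v := by
    intro δ α α'
    unfold Lsx_2
    refine filter_congr fun a ha => ?_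
    rw [Lsx_nS h (hR ha) (by omega) δ α, Lsx_nS h (hR ha) (by omega) δ α']
  have e5 : ∀ δ α, Lsx_3 X c Rc j ω δ α v = Lsx_3 X c Rc j ω' δ α v := by
    intro δ α
    unfold Lsx_3
    exact filter_congr fun a ha => Lsx_nS h (hR ha) (by omega) δ α
  have e6 : ∀ i τ δ α, ∑ b, f v i b * X.arr (X.dis c Rc) j t ω τ δ α b =
      ∑ b, f v i b * X.arr (X.dis c Rc) j t ω' τ δ α b := by
    intro i τ δ α
    refine sum_congr rfl fun b _ => ?_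
    by_cases hb : b ∈ bl X.G v (60 * X.N ^ 3)
    · rw [Lsx_arr h hb (by omega) j t τ δ α]
    · rw [(hf v i).sp b hb, zero_mul, zero_mul]
  have e7 : ∀ i δ α, ∑ y ∈ X.nS (X.dis c Rc) ω δ α, f v i y = ∑ y ∈ X.nS (X.dis c Rc) ω' δ α, f v i y := by
    intro i δ α
    have e8 : ∀ ω'' : X.Co, ∑ y ∈ X.nS (X.dis c Rc) ω'' δ α, f v i y =
        ∑ y ∈ (bl X.G v (60 * X.N ^ 3)).filter (fun y => y ∈ X.nS (X.dis c Rc) ω'' δ α), f v i y := by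
      intro ω''
      refine (sum_subset ?_ ?_).symm
      · intro y hy
        exact (mem_filter.1 hy).2
      · intro y hy hn
        exact (hf v i).sp y fun hb => hn (mem_filter.2 ⟨hb, hy⟩)
    rw [e8 ω, e8 ω']
    exact sum_congr (filter_congr fun y hy => Lsx_nS h hy (by omega) δ α) fun _ _ => rfl
  have f1 : Lsx_Eg X c Rc j t v ω = Lsx_Eg X c Rc j t v ω' := by
    unfold Lsx_Eg
    simp only [e1]
  have f2 : Lsx_Ec X j t v ω = Lsx_Ec X j t v ω' := by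
    unfold Lsx_Ec
    simp only [e2]
  have f3 : Lsx_E1 X c Rc v ω = Lsx_E1 X c Rc v ω' := by
    unfold Lsx_E1
    simp only [e3]
  have f4 : Lsx_E2 X c Rc j v ω = Lsx_E2 X c Rc j v ω' := by
    unfold Lsx_E2
    simp only [e4]
  have f5 : Lsx_E3 X c Rc j v ω = Lsx_E3 X c Rc j v ω' := by
    unfold Lsx_E3
    simp only [e5]
  have f6 : Lsx_Ey X c Rc j t v ω = Lsx_Ey X c Rc j t v ω' := by
    unfold Lsx_Ey Lsx_dy
    simp only [e5]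
  have f7 : Lsx_Ep X c Rc j t f v ω = Lsx_Ep X c Rc j t f v ω' := by
    unfold Lsx_Ep Lsx_dp
    simp only [e6]
  have f8 : Lsx_Eh X c Rc f v ω = Lsx_Eh X c Rc f v ω' := by
    unfold Lsx_Eh Lsx_dh
    simp only [e7]
  unfold Lsx_E
  rw [f1, f2, f3, f4, f5, f6, f7, f8]

theorem Lsx_num (X : Cx V) {ι : Type} [Fintype ι] (hι : (Fintype.card ι : ℝ) ≤ Real.exp (X.N ^ 4)) :
    (2 * (X.s : ℝ) ^ 2 + 10 * X.s + 2 + 6 * (Fintype.card ι) * X.s) * Real.exp (-(X.N : ℝ) ^ 6) ≤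
      Real.exp (-(X.N : ℝ) ^ 5) ∧
    4 * Real.exp (-(X.N : ℝ) ^ 5) * ((X.Δ : ℝ) + 1) ^ (2 * (60 * X.N ^ 3 + 5)) ≤ 1 := by
  have hN : (2 : ℝ) ^ 40 ≤ X.N := X.N_big
  have hN1 : (1000 : ℝ) ≤ X.N := le_trans (by norm_num) hN
  have hN0 : (0 : ℝ) < X.N := by linarith
  have hlog : Real.log X.Δ ≤ X.N := by
    rcases le_or_gt (Real.log X.Δ) 1 with h | h
    · linarith
    · exact (le_self_pow₀ h.le (by norm_num)).trans X.pm.log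
  have hΔ0 : (0 : ℝ) < X.Δ := by
    have h1 : 0 < X.N ^ 40000 := pow_pos (by exact_mod_cast hN0) _
    exact_mod_cast lt_of_lt_of_le h1 X.pm.pow
  have hΔ : (X.Δ : ℝ) ≤ Real.exp X.N := by
    rw [← Real.log_le_iff_le_exp hΔ0]
    exact hlog
  have hs : (X.s : ℝ) ≤ Real.exp X.N := by
    refine le_trans ?_ hΔ
    have := X.s_bd.2
    unfold pw at this
    rwa [Real.rpow_one] at this
  have hs0 : (0 : ℝ) ≤ X.s := Nat.cast_nonneg _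
  have he1 : (1 : ℝ) ≤ Real.exp X.N := Real.one_le_exp hN0.le
  have hc0 : (0 : ℝ) ≤ (Fintype.card ι : ℝ) := Nat.cast_nonneg _
  have hexp2 : Real.exp X.N ^ 2 = Real.exp (2 * X.N) := by
    rw [← Real.exp_nat_mul]
    norm_num
  have p4 : (X.N : ℝ) ^ 4 = X.N * X.N * X.N * X.N := by ring
  have p5 : (X.N : ℝ) ^ 5 = X.N * (X.N : ℝ) ^ 4 := by ring
  have p6 : (X.N : ℝ) ^ 6 = X.N * (X.N : ℝ) ^ 5 := by ring
  have q2 : (1000 : ℝ) * X.N ≤ X.N * X.N := mul_le_mul_of_nonneg_right hN1 hN0.le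
  have hNN : (X.N : ℝ) ≤ (X.N : ℝ) ^ 4 := le_self_pow₀ (by linarith) (by norm_num)
  have h4N : (1000 : ℝ) ≤ (X.N : ℝ) ^ 4 := hN1.trans hNN
  have h5N : (1000 : ℝ) * (X.N : ℝ) ^ 4 ≤ (X.N : ℝ) ^ 5 := by
    rw [p5]
    exact mul_le_mul_of_nonneg_right hN1 (by positivity)
  have h6N : (1000 : ℝ) * (X.N : ℝ) ^ 5 ≤ (X.N : ℝ) ^ 6 := by
    rw [p6]
    exact mul_le_mul_of_nonneg_right hN1 (by positivity)
  constructor
  · have a1 : (X.s : ℝ) ^ 2 ≤ Real.exp (2 * X.N) := by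
      rw [← hexp2]
      exact pow_le_pow_left₀ hs0 hs 2
    have a2 : (X.s : ℝ) ≤ Real.exp (2 * X.N) := hs.trans (Real.exp_le_exp.2 (by linarith))
    have a3 : (1 : ℝ) ≤ Real.exp (2 * X.N) := Real.one_le_exp (by linarith)
    have a4 : (Fintype.card ι : ℝ) * X.s ≤ Real.exp ((X.N : ℝ) ^ 4 + X.N) := by
      rw [Real.exp_add]
      exact mul_le_mul hι hs hs0 (Real.exp_pos _).le
    have a5 : Real.exp (2 * X.N) ≤ Real.exp (2 * (X.N : ℝ) ^ 4) := Real.exp_le_exp.2 (by linarith)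
    have a6 : Real.exp ((X.N : ℝ) ^ 4 + X.N) ≤ Real.exp (2 * (X.N : ℝ) ^ 4) := Real.exp_le_exp.2 (by linarith)
    have a7 : 2 * (X.s : ℝ) ^ 2 + 10 * X.s + 2 + 6 * (Fintype.card ι) * X.s ≤ 20 * Real.exp (2 * (X.N : ℝ) ^ 4) := by
      nlinarith
    have a8 : (20 : ℝ) ≤ Real.exp 20 := by
      have := Real.add_one_le_exp (20 : ℝ)
      linarith
    calc (2 * (X.s : ℝ) ^ 2 + 10 * X.s + 2 + 6 * (Fintype.card ι) * X.s) * Real.exp (-(X.N : ℝ) ^ 6)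
        ≤ (20 * Real.exp (2 * (X.N : ℝ) ^ 4)) * Real.exp (-(X.N : ℝ) ^ 6) :=
          mul_le_mul_of_nonneg_right a7 (Real.exp_pos _).le
      _ ≤ (Real.exp 20 * Real.exp (2 * (X.N : ℝ) ^ 4)) * Real.exp (-(X.N : ℝ) ^ 6) := by
          gcongr
      _ = Real.exp (20 + 2 * (X.N : ℝ) ^ 4 + -(X.N : ℝ) ^ 6) := by rw [Real.exp_add, Real.exp_add]
      _ ≤ Real.exp (-(X.N : ℝ) ^ 5) := Real.exp_le_exp.2 (by linarith)
  · have b1 : (X.Δ : ℝ) + 1 ≤ Real.exp (2 * X.N) := by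
      have : (2 : ℝ) ≤ Real.exp X.N := by
        have := Real.add_one_le_exp (X.N : ℝ)
        linarith
      rw [← hexp2]
      nlinarith
    have b2 : ((X.Δ : ℝ) + 1) ^ (2 * (60 * X.N ^ 3 + 5)) ≤ Real.exp (240 * (X.N : ℝ) ^ 4 + 20 * X.N) := by
      calc ((X.Δ : ℝ) + 1) ^ (2 * (60 * X.N ^ 3 + 5)) ≤ Real.exp (2 * X.N) ^ (2 * (60 * X.N ^ 3 + 5)) :=
            pow_le_pow_left₀ (by linarith) b1 _
        _ = Real.exp (((2 * (60 * X.N ^ 3 + 5) : ℕ) : ℝ) * (2 * X.N)) := (Real.exp_nat_mul _ _).symm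
        _ = Real.exp (240 * (X.N : ℝ) ^ 4 + 20 * X.N) := by
            congr 1
            push_cast
            ring
    have b3 : (4 : ℝ) ≤ Real.exp 4 := by
      have := Real.add_one_le_exp (4 : ℝ)
      linarith
    calc 4 * Real.exp (-(X.N : ℝ) ^ 5) * ((X.Δ : ℝ) + 1) ^ (2 * (60 * X.N ^ 3 + 5))
        ≤ Real.exp 4 * Real.exp (-(X.N : ℝ) ^ 5) * Real.exp (240 * (X.N : ℝ) ^ 4 + 20 * X.N) := by
          gcongr
      _ = Real.exp (4 + -(X.N : ℝ) ^ 5 + (240 * (X.N : ℝ) ^ 4 + 20 * X.N)) := by rw [← Real.exp_add, ← Real.exp_add]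
      _ ≤ Real.exp 0 := Real.exp_le_exp.2 (by linarith)
      _ = 1 := Real.exp_zero

theorem Lsx_inst {Ω : Type} (I J : Fintype Ω) (A : Ω → Prop) (r : ℝ) (h : @pr Ω J A ≤ r) : @pr Ω I A ≤ r := by
  have e : I = J := Subsingleton.elim _ _
  rw [e]
  exact h

theorem Lsx_lll (r : ℕ) (E : V → (V × Fin X.s → Fin X.q) → Prop)
    (hloc : ∀ v, Loc (E v) ((bl X.G v r) ×ˢ (univ : Finset (Fin X.s)))) (p : ℝ) (hp : 0 ≤ p)
    (hq : ∀ v, @pr X.Co (coFt X) (E v) ≤ p) (h4 : 4 * p * ((X.Δ : ℝ) + 1) ^ (2 * r) ≤ 1) :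
    ∃ ω : V × Fin X.s → Fin X.q, ∀ v, ¬ E v ω := by
  have : Nonempty (Fin X.q) := ⟨⟨0, X.th_bd.2.2.1⟩⟩
  refine lll_bl X.G X.Δ X.reg r E ?_ p hp (fun v => Lsx_inst _ (coFt X) _ _ (hq v)) h4
  exact hloc

/-- the local lemma: all good events of one step -/
theorem step_ex (hk : X.KD c Rc) (j : ℕ) (hj : j < X.n) (t : X.St) (ht : X.TT j t)
    (𝓕 : (V → ℝ) → Prop) (ι : Type) [Fintype ι] (f : V → ι → V → ℝ)
    (hι : (Fintype.card ι : ℝ) ≤ Real.exp (X.N ^ 4)) (hf : ∀ v i, LinF X.G X.N X.Δ v (f v i))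
    (hF : ∀ F, 𝓕 F → ∃ v i, F = f v i) : ∃ ω : X.Co, X.Gd1 (X.dis c Rc) j t ω 𝓕 := by
  obtain ⟨ω, hω⟩ := Lsx_lll (X := X) (60 * X.N ^ 3 + 5) (Lsx_E X c Rc j t f) (Lsx_E_loc j t f hf)
    (Real.exp (-(X.N : ℝ) ^ 5)) (Real.exp_pos _).le
    (fun v => (Lsx_E_pr hk j hj t ht f hf v).trans (Lsx_num X hι).1) (Lsx_num X hι).2
  refine ⟨ω, ?_⟩
  have hz : ∀ (τ : Fin 2) (B : ℝ), ¬ 0 < Lsx_B X t τ → ∀ δ α a, t.m τ δ α a = 0 := fun τ B hB δ α a =>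
    abs_nonpos_iff.1 ((Lsx_le t τ δ α a).trans (not_lt.1 hB))
  constructor
  · intro δ α a ha
    by_contra hn
    exact hω a (Or.inl (Or.inl ⟨(δ, α), ha, not_le.1 hn⟩))
  · intro δ α b
    by_contra hn
    exact hω b (Or.inl (Or.inr ⟨(δ, α), not_le.1 hn⟩))
  · intro δ v
    by_contra hn
    exact hω v (Or.inr (Or.inl (Or.inl ⟨δ, not_le.1 hn⟩)))
  · intro δ α α' b hα hc
    by_contra hn
    exact hω b (Or.inr (Or.inl (Or.inr ⟨(δ, α, α'), ⟨hα, hc⟩, not_le.1 hn⟩)))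
  · intro δ α b
    by_contra hn
    exact hω b (Or.inr (Or.inr (Or.inl (Or.inl ⟨(δ, α), not_le.1 hn⟩))))
  · intro τ δ α b B hB
    by_cases h0 : 0 < Lsx_B X t τ
    · by_contra hn
      refine hω b (Or.inr (Or.inr (Or.inl (Or.inr ⟨(τ, δ, α), h0, lt_of_le_of_lt ?_ (not_le.1 hn)⟩))))
      exact mul_le_mul_of_nonneg_left (Lsx_B_le t τ α b B hB) (X.pw_pos _).le
    · have hm := hz τ B h0
      have hY : X.mv α (X.Y j t τ δ α) = fun _ => 0 := by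
        funext x
        unfold mv Y
        simp [hm]
      have hA : X.A α δ (j + 1) (fun _ => 0) b = 0 := by
        unfold A
        simp
      rw [hY, hA, sum_const_zero, zero_div, sub_zero, abs_zero]
      exact mul_nonneg (X.pw_pos _).le ((abs_nonneg _).trans (hB δ α b))
  · intro F hFF τ δ α B hB
    obtain ⟨v, i, rfl⟩ := hF F hFF
    by_cases h0 : 0 < Lsx_B X t τ
    · by_contra hn
      refine hω v (Or.inr (Or.inr (Or.inr (Or.inl ⟨(i, τ, δ, α), h0, lt_of_le_of_lt ?_ (not_le.1 hn)⟩))))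
      exact mul_le_mul_of_nonneg_left (Lsx_B_le t τ α v B hB) (by have := X.pw_pos (-(19 : ℝ) / 5); positivity)
    · have hm := hz τ B h0
      have h1 : ∀ b, X.arr (X.dis c Rc) j t ω τ δ α b = 0 := by
        intro b
        unfold arr
        refine sum_eq_zero fun a _ => ?_
        rw [hm, zero_div]
      have h2 : ∑ b, f v i b * X.arr (X.dis c Rc) j t ω τ δ α b = 0 :=
        sum_eq_zero fun b _ => by rw [h1, mul_zero]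
      rw [h2, sum_eq_zero fun a _ => by rw [hm, zero_mul], sub_zero, abs_zero]
      exact mul_nonneg (by have := X.pw_pos (-(19 : ℝ) / 5); positivity) ((abs_nonneg _).trans (hB δ α v))
  · intro F hFF δ α
    obtain ⟨v, i, rfl⟩ := hF F hFF
    by_contra hn
    exact hω v (Or.inr (Or.inr (Or.inr (Or.inr ⟨(i, δ, α), not_le.1 hn⟩))))

end Cx

end Pool.Agent.H2.LN
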