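/-
ROW Lax. The sequence of states.
PROOF. `nxt_TT`: `S` of `nxt` is `nS`: `sd`: definition; `sp`: outer `if`; `t1, t2, t3`: the fields of `Gd1`. `sq_congr`: induction on `j`. `An_ex`: `hk := kd_ok h1 h2`, `fam3` gives `ι, f`. Claim for all `J ≤ n`: there is `ω : ℕ → Co` with `TT i (sq .. ω i) ∧ Gd1 i (sq .. ω i) (ω (i+1)) (TF c Rc)` for all `i < J` and `TT J (sq .. ω J)`. `J = 0`: any `ω` (`Co` is nonempty: `q > 0`), `st0_TT`. Step: `step_ex` gives `ω'` for `t = sq .. ω J`;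
take `Function.update ω (J + 1) ω'`: `sq_congr` shows that the states up to `J` do not change; `nxt_TT`.
-/
import Pool.Agent.H2.LN.LD
import Pool.Agent.H2.LN.L.Lsx
import Pool.Agent.H2.LN.L.Lst
import Pool.Agent.H2.LN.L.Lf3
import Pool.Agent.H2.LN.L.Lkd

set_option autoImplicit false
set_option linter.unusedSectionVars false

namespace Pool.Agent.H2.LN

open Finset Classical
open Pool.Agent.H65.GI

namespace Cx

variable {V : Type} [Fintype V] {X : Cx V} {c : V → ℕ} {Rc : Finset V}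

theorem nxt_TT (u : Fin X.s → ℝ) (j : ℕ) (t : X.St) (ht : X.TT j t) (ω : X.Co) (𝓕 : (V → ℝ) → Prop)
    (h : X.Gd1 (X.dis c Rc) j t ω 𝓕) : X.TT (j + 1) (X.nxt (X.dis c Rc) u j t ω) := by
  refine ⟨?_, ?_, ?_, ?_, ?_⟩
  · intro δ α a ha
    have ha' : a ∈ X.nS (X.dis c Rc) ω δ α := ha
    simp only [nS, Finset.mem_filter] at ha'
    exact ha'.2.1
  · intro τ δ α a ha
    have ha' : a ∉ X.nS (X.dis c Rc) ω δ α := ha
    simp only [nxt, if_neg ha']
  · exact h.t1
  · exact h.t2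
  · exact h.t3

theorem sq_congr (ds : Fin X.s → Finset V) (u : Fin X.s → ℝ) (t0 : X.St) (ω ω' : ℕ → X.Co) (j : ℕ)
    (h : ∀ i ≤ j, ω i = ω' i) : X.sq ds u t0 ω j = X.sq ds u t0 ω' j := by
  induction j with
  | zero => rfl
  | succ j ih =>
    simp only [sq]
    rw [ih (fun i hi => h i (by omega)), h (j + 1) le_rfl]

theorem An_ex (c : V → ℕ) (φ : ℝ) (Rc : Finset V) (al : V → Fin X.s) (h1 : X.S1 c φ)
    (h2 : X.S2 c φ Rc al) : ∃ Y : An X, Y.c = c ∧ Y.φ = φ ∧ Y.Rc = Rc ∧ Y.al = al := by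
  have hk := kd_ok h1 h2
  obtain ⟨ι, hι, f, hc, hf, hF⟩ := fam3 X c Rc hk
  have h0 := st0_TT h1 h2
  set u : Fin X.s → ℝ := fun α => X.ub φ α with hu
  set t0 := X.st0 c φ Rc al with ht0
  have key : ∀ J ≤ X.n, ∃ ω : ℕ → X.Co, (∀ i < J, X.TT i (X.sq (X.dis c Rc) u t0 ω i) ∧
      X.Gd1 (X.dis c Rc) i (X.sq (X.dis c Rc) u t0 ω i) (ω (i + 1)) (X.TF c Rc)) ∧
      X.TT J (X.sq (X.dis c Rc) u t0 ω J) := by
    intro J
    induction J with
    | zero =>
      intro _
      obtain ⟨ω', -⟩ := step_ex hk 0 (by unfold n; omega) t0 h0 (X.TF c Rc) ι f hc hf hF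
      exact ⟨fun _ => ω', fun i hi => absurd hi (Nat.not_lt_zero i), h0⟩
    | succ J ih =>
      intro hJ
      obtain ⟨ω, hω, hT⟩ := ih (by omega)
      obtain ⟨ω', hω'⟩ := step_ex hk J (by omega) _ hT (X.TF c Rc) ι f hc hf hF
      have hcg : ∀ i ≤ J, X.sq (X.dis c Rc) u t0 (Function.update ω (J + 1) ω') i =
          X.sq (X.dis c Rc) u t0 ω i := by
        intro i hi
        apply sq_congr
        intro k hk
        rw [Function.update_of_ne (by omega)]
      refine ⟨Function.update ω (J + 1) ω', ?_, ?_⟩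
      · intro i hi
        rw [hcg i (by omega)]
        rcases Nat.lt_or_ge i J with h | h
        · rw [Function.update_of_ne (by omega)]
          exact hω i h
        · have hiJ : i = J := by omega
          subst hiJ
          rw [Function.update_self]
          exact ⟨hT, hω'⟩
      · have e1 : X.sq (X.dis c Rc) u t0 (Function.update ω (J + 1) ω') (J + 1) =
            X.nxt (X.dis c Rc) u J (X.sq (X.dis c Rc) u t0 ω J) ω' := by
          simp only [sq]
          rw [hcg J le_rfl, Function.update_self]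
        rw [e1]
        exact nxt_TT u J _ hT ω' _ hω'
  obtain ⟨ω, hω, -⟩ := key X.n le_rfl
  exact ⟨⟨c, φ, Rc, al, h1, h2, ω, hω⟩, rfl, rfl, rfl, rfl⟩

end Cx

end Pool.Agent.H2.LN
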