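/-
ROW Lbf. The bilinear test functions are admissible.
PROOF. `BilF G N Δ b h`. `BF_cb`: `cb_nn`, `cb_ball` (`2 r + 2 j + 4 ≤ 60 N ^ 3` by `RF_rj`), `cb_dg`, `cb_l1`, `cb_rw`, `cb_cm`. `BF_di` (`F = A α δ 0 P`, `h x y = mv F x` if `y = M x` and `M x ≠ x`, else `0`): zero diagonal: `y = x` means `M x = x`. Row sum at `x`: `mv F x`; column sum at `y`: only `x = M y`: `mv F (M y) ≤ F y` resp. `0`. So `∑∑ = ∑ mv F ≤ 1`, square sums
`≤ ∑ F ^ 2 ≤ N ^ 3 / (2 Δ ^ 12)` (`mv_l2`, `RF_l2`). Support: `mv F x ≠ 0` gives `M x ∈ bl b (2 r + 1)`, `x ∈ bl b (2 r + 2)`, `y = M x`.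
-/
import Pool.Agent.H2.LN.LD
import Pool.Agent.H2.LN.L.Lcb
import Pool.Agent.H2.LN.L.Lcd
import Pool.Agent.H65.GI.Lll

set_option autoImplicit false
set_option linter.unusedSectionVars false

namespace Pool.Agent.H2.LN

open Finset Classical
open Pool.Agent.H65.GI

namespace Cx

variable {V : Type} [Fintype V] {X : Cx V} {c : V → ℕ} {Rc : Finset V}

private theorem Lbf_N (X : Cx V) : 1 ≤ X.N := le_trans (by norm_num) X.pm.big

private theorem Lbf_bd (X : Cx V) {a : ℝ} (ha : a ≤ 4096) :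
    a * (X.N : ℝ) ^ 3 / (X.Δ : ℝ) ^ 12 ≤ 4096 * (X.N : ℝ) ^ 3 / (X.Δ : ℝ) ^ 12 := by
  have h1 : (0 : ℝ) ≤ (X.N : ℝ) ^ 3 := by positivity
  have h2 : (0 : ℝ) ≤ (X.Δ : ℝ) ^ 12 := by positivity
  exact div_le_div_of_nonneg_right (mul_le_mul_of_nonneg_right ha h1) h2

private theorem Lbf_bd' (X : Cx V) :
    (X.N : ℝ) ^ 3 / (2 * (X.Δ : ℝ) ^ 12) ≤ 4096 * (X.N : ℝ) ^ 3 / (X.Δ : ℝ) ^ 12 := by
  have h1 : (X.N : ℝ) ^ 3 / (2 * (X.Δ : ℝ) ^ 12) = (1 / 2) * (X.N : ℝ) ^ 3 / (X.Δ : ℝ) ^ 12 := by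
    rw [div_mul_eq_div_div, div_right_comm, div_right_comm]
    ring
  rw [h1]
  exact Lbf_bd X (by norm_num)

private theorem Lbf_n (X : Cx V) {a : ℕ} (h : a < X.n) : 2 * a + 4 ≤ 60 * X.N ^ 3 := by
  unfold Cx.n at h
  have h1 : 1 ≤ X.N ^ 3 := Nat.one_le_pow _ _ (Lbf_N X)
  omega

theorem BF_cb {α : Fin X.s} {δ : ZMod 2} {j r : ℕ} {P : V → ℝ} {b : V} (h : X.RF α δ j r P)
    (hr : X.n3 ≤ r) (hb : ∀ x, P x ≠ 0 → x ∈ bl X.G b (2 * r)) :
    BilF X.G X.N X.Δ b (X.cb α δ j P) := by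
  have hrj := Lbf_n X (RF_rj h)
  refine ⟨fun x y => cb_nn (RF_nn h) x y, ?_, ?_, fun x => cb_dg α δ j P x, ?_, ?_, ?_⟩
  · intro x y hx
    by_contra hne
    exact hx (bl_mono (G := X.G) b (by omega) (cb_ball hb x y hne).1)
  · intro x y hy
    by_contra hne
    exact hy (bl_mono (G := X.G) b (by omega) (cb_ball hb x y hne).2)
  · exact (cb_l1 h).trans (by norm_num)
  · exact (cb_rw h hr).trans (Lbf_bd X (by norm_num))
  · exact (cb_cm h hr).trans (Lbf_bd X (by norm_num))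

theorem BF_di {α : Fin X.s} {δ : ZMod 2} {r : ℕ} {P : V → ℝ} {b : V} (h : X.RF α δ 0 r P)
    (hr : X.n3 ≤ r + 1) (hb : ∀ x, P x ≠ 0 → x ∈ bl X.G b (2 * r)) :
    BilF X.G X.N X.Δ b (fun x y => if X.M α x ≠ x ∧ y = X.M α x then X.mv α (X.A α δ 0 P) x else 0) := by
  have hrj := Lbf_n X (RF_rj h)
  have hP : ∀ x, 0 ≤ P x := RF_nn h
  have hF : ∀ a, 0 ≤ X.A α δ 0 P a := fun a => A_nn hP a
  have hF2 := RF_l2 h hr
  have hF1 : ∑ a, X.A α δ 0 P a ≤ 1 := (A_sum_le hP).trans (RF_l1 h)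
  have hsup : ∀ a, X.A α δ 0 P a ≠ 0 → a ∈ bl X.G b (2 * r + 1) := by
    intro a ha
    unfold A at ha
    have h1 : ∑ u ∈ X.R α δ 0 a, P u ≠ 0 := by
      intro h1
      rw [h1, zero_div] at ha
      exact ha rfl
    obtain ⟨u, hu, hPu⟩ := Finset.exists_ne_zero_of_sum_ne_zero h1
    exact bl_adj (G := X.G) (hb u hPu) (X.R_adj hu).symm
  obtain ⟨F, hFd⟩ : ∃ F, F = X.A α δ 0 P := ⟨_, rfl⟩
  rw [← hFd] at hF hF2 hF1 hsup ⊢
  have hmv : ∀ x, 0 ≤ X.mv α F x := by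
    intro x
    unfold mv
    split_ifs
    · exact hF _
    · exact le_refl 0
  have hmv0 : ∀ x, X.M α x = x → X.mv α F x = 0 := by
    intro x hx
    unfold mv
    rw [if_neg (not_not.2 hx)]
  have hrow : ∀ x, (∑ y, if X.M α x ≠ x ∧ y = X.M α x then X.mv α F x else 0) = X.mv α F x := by
    intro x
    by_cases hx : X.M α x = x
    · rw [hmv0 x hx]
      exact Finset.sum_eq_zero fun y _ => if_neg fun h => h.1 hx
    · rw [Finset.sum_eq_single (X.M α x)]
      · rw [if_pos ⟨hx, rfl⟩]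
      · intro y _ hy
        exact if_neg fun h => hy h.2
      · intro h
        exact absurd (mem_univ _) h
  have hcol : ∀ y, (∑ x, if X.M α x ≠ x ∧ y = X.M α x then X.mv α F x else 0) = X.nd α F y := by
    intro y
    have hMM := X.M_M α y
    rw [Finset.sum_eq_single (X.M α y)]
    · unfold nd
      by_cases hy : X.M α y = y
      · rw [if_neg (not_not.2 hy), if_neg]
        intro h
        apply h.1
        rw [hMM, hy]
      · have hy' : X.M α (X.M α y) ≠ X.M α y := by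
          rw [hMM]
          exact Ne.symm hy
        rw [if_pos hy, if_pos ⟨hy', hMM.symm⟩]
        unfold mv
        rw [if_pos hy', hMM]
    · intro x _ hx
      refine if_neg fun h => hx ?_
      rw [h.2, X.M_M α x]
    · intro h
      exact absurd (mem_univ _) h
  have hne : ∀ x y, (if X.M α x ≠ x ∧ y = X.M α x then X.mv α F x else 0) ≠ 0 →
      x ∈ bl X.G b (2 * r + 2) ∧ y ∈ bl X.G b (2 * r + 1) := by
    intro x y hxy
    by_cases hc : X.M α x ≠ x ∧ y = X.M α x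
    · rw [if_pos hc] at hxy
      unfold mv at hxy
      rw [if_pos hc.1] at hxy
      have h1 := hsup _ hxy
      refine ⟨bl_adj (G := X.G) h1 (X.M_adj hc.1).symm, ?_⟩
      rw [hc.2]
      exact h1
    · rw [if_neg hc] at hxy
      exact absurd rfl hxy
  refine ⟨?_, ?_, ?_, ?_, ?_, ?_, ?_⟩
  · intro x y
    split_ifs
    · exact hmv x
    · exact le_refl 0
  · intro x y hx
    by_contra hxy
    exact hx (bl_mono (G := X.G) b (by omega) (hne x y hxy).1)
  · intro x y hy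
    by_contra hxy
    exact hy (bl_mono (G := X.G) b (by omega) (hne x y hxy).2)
  · intro x
    exact if_neg fun h => h.1 h.2.symm
  · simp only [hrow]
    have h1 := mv_sum (X := X) α F
    have h2 := nd_dv (X := X) α F
    have h3 : 0 ≤ ∑ x, X.dv α F x := by
      refine Finset.sum_nonneg fun x _ => ?_
      unfold dv
      split_ifs
      · exact hF x
      · exact le_refl 0
    linarith
  · simp only [hrow]
    exact ((mv_l2 (X := X) α F).trans hF2).trans (Lbf_bd' X)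
  · simp only [hcol]
    refine (le_trans (Finset.sum_le_sum fun y _ => ?_) hF2).trans (Lbf_bd' X)
    unfold nd
    split_ifs
    · exact le_refl _
    · rw [zero_pow two_ne_zero]
      exact sq_nonneg _

end Cx

end Pool.Agent.H2.LN
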