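/-
ROW Lwf. Few windows in a neighbourhood.
PROOF. `wf1`: `b ∈ disW` iff `Wc α b` or `Wc α (M b)`; `Wc α b ↔ c0 b ∈ Ia α` (as in Lwl): the set is contained in the union over `g ∈ Ia α` of the two filters: `≤ |Ia α| * 2 * N ^ 16 ≤ 4 N ^ 17 ≤ N ^ 20` (`Ia_card`; `Finset.card_biUnion_le`). `wf2`: with `v' = M α v`: `Wc p c α v' ↔ c0 v' ≤ α ∧ α ≤ c0 v' + 2 p - 2`; `t := c0 v' + 2 p - 2 - α < 2 p`:
union over `t < 2 p`: `2 p N ^ 16 ≤ 2 N ^ 17 ≤ N ^ 20`. `KD_W`: `X.dis c ∅ α = X.disW c α` (`disX ∅ = ∅`), `S1.k1`, `N ^ 20 ≤ N ^ 52`.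
-/
import Pool.Agent.H2.LN.LD
import Pool.Agent.H2.LN.L.Lwl
import Pool.Agent.H2.LN.L.Leg

set_option autoImplicit false
set_option linter.unusedSectionVars false

namespace Pool.Agent.H2.LN

open Finset Classical
open Pool.Agent.H65.GI

namespace Cx

variable {V : Type} [Fintype V] {X : Cx V} {c : V → ℕ} {Rc : Finset V}

private theorem Lwf_cube {N : ℕ} (h : 2 ≤ N) : 4 ≤ N ^ 3 :=
  le_trans (by norm_num) (Nat.pow_le_pow_left h 3)

/-- few windows in a reserve neighbourhood -/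
theorem wf1 {c0 : V → Fin X.sc} (hc : ∀ v, c v = c0 v + (X.p - 1)) (α : Fin X.s) (δ : ZMod 2) (j : ℕ)
    (v : V) (h1 : ∀ g, ((X.R α δ j v).filter (fun b => c0 b = g)).card ≤ X.N ^ 16)
    (h2 : ∀ g, ((X.R α δ j v).filter (fun b => c0 (X.M α b) = g)).card ≤ X.N ^ 16) :
    ((X.R α δ j v).filter (fun b => b ∈ X.disW c α)).card ≤ X.N ^ 20 := by
  have hN : 2 ≤ X.N := le_trans (by norm_num) X.pm.big
  have hIa : (X.Ia (α : ℕ)).card ≤ 2 * X.N := by
    have h3 := Ia_card X (α : ℕ)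
    exact_mod_cast h3
  have hW : ∀ b, Wc X.p c α b → c0 b ∈ X.Ia (α : ℕ) := by
    intro b hb
    have h3 := hc b
    unfold Wc at hb
    unfold Ia
    rw [Finset.mem_filter]
    refine ⟨Finset.mem_univ _, ?_, ?_⟩
    · omega
    · omega
  have hsub : (X.R α δ j v).filter (fun b => b ∈ X.disW c α) ⊆
      (X.Ia (α : ℕ)).biUnion (fun g => (X.R α δ j v).filter (fun b => c0 b = g) ∪
        (X.R α δ j v).filter (fun b => c0 (X.M α b) = g)) := by
    intro b hb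
    rw [Finset.mem_filter] at hb
    obtain ⟨hb1, hb2⟩ := hb
    unfold disW at hb2
    rw [Finset.mem_filter] at hb2
    rw [Finset.mem_biUnion]
    rcases hb2.2 with h3 | h3
    · exact ⟨c0 b, hW _ h3, Finset.mem_union_left _ (Finset.mem_filter.2 ⟨hb1, rfl⟩)⟩
    · exact ⟨c0 (X.M α b), hW _ h3, Finset.mem_union_right _ (Finset.mem_filter.2 ⟨hb1, rfl⟩)⟩
  calc ((X.R α δ j v).filter (fun b => b ∈ X.disW c α)).card
      ≤ ((X.Ia (α : ℕ)).biUnion (fun g => (X.R α δ j v).filter (fun b => c0 b = g) ∪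
        (X.R α δ j v).filter (fun b => c0 (X.M α b) = g))).card := Finset.card_le_card hsub
    _ ≤ ∑ g ∈ X.Ia (α : ℕ), ((X.R α δ j v).filter (fun b => c0 b = g) ∪
        (X.R α δ j v).filter (fun b => c0 (X.M α b) = g)).card := Finset.card_biUnion_le
    _ ≤ ∑ _g ∈ X.Ia (α : ℕ), (X.N ^ 16 + X.N ^ 16) := Finset.sum_le_sum fun g _ =>
        (Finset.card_union_le _ _).trans (Nat.add_le_add (h1 g) (h2 g))
    _ = (X.Ia (α : ℕ)).card * (X.N ^ 16 + X.N ^ 16) := by rw [Finset.sum_const, smul_eq_mul]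
    _ ≤ (2 * X.N) * (X.N ^ 16 + X.N ^ 16) := Nat.mul_le_mul_right _ hIa
    _ = 4 * X.N ^ 17 := by ring
    _ ≤ X.N ^ 3 * X.N ^ 17 := Nat.mul_le_mul_right _ (Lwf_cube hN)
    _ = X.N ^ 20 := by ring

/-- few windows among the partners -/
theorem wf2 {c0 : V → Fin X.sc} (hc : ∀ v, c v = c0 v + (X.p - 1)) (v : V)
    (h : ∀ t < 2 * X.p, (univ.filter (fun α : Fin X.s =>
      (c0 (X.M α v) : ℕ) + 2 * X.p = α + t + 2)).card ≤ X.N ^ 16) :
    (univ.filter (fun α : Fin X.s => Wc X.p c α (X.M α v))).card ≤ X.N ^ 20 := by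
  have hN : 2 ≤ X.N := le_trans (by norm_num) X.pm.big
  have hp1 := X.hp1
  have hp2 := X.hp2
  have hsub : (univ.filter (fun α : Fin X.s => Wc X.p c α (X.M α v))) ⊆
      (Finset.range (2 * X.p)).biUnion (fun t => univ.filter (fun α : Fin X.s =>
        (c0 (X.M α v) : ℕ) + 2 * X.p = α + t + 2)) := by
    intro α hα
    rw [Finset.mem_filter] at hα
    have h3 := hα.2
    unfold Wc at h3
    have h4 := hc (X.M α v)
    rw [Finset.mem_biUnion]
    refine ⟨(c0 (X.M α v) : ℕ) + 2 * X.p - 2 - α, Finset.mem_range.2 (by omega), ?_⟩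
    rw [Finset.mem_filter]
    refine ⟨Finset.mem_univ _, ?_⟩
    omega
  calc (univ.filter (fun α : Fin X.s => Wc X.p c α (X.M α v))).card
      ≤ ((Finset.range (2 * X.p)).biUnion (fun t => univ.filter (fun α : Fin X.s =>
        (c0 (X.M α v) : ℕ) + 2 * X.p = α + t + 2))).card := Finset.card_le_card hsub
    _ ≤ ∑ t ∈ Finset.range (2 * X.p), (univ.filter (fun α : Fin X.s =>
        (c0 (X.M α v) : ℕ) + 2 * X.p = α + t + 2)).card := Finset.card_biUnion_le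
    _ ≤ ∑ _t ∈ Finset.range (2 * X.p), X.N ^ 16 := Finset.sum_le_sum fun t ht => h t (Finset.mem_range.1 ht)
    _ = (2 * X.p) * X.N ^ 16 := by rw [Finset.sum_const, smul_eq_mul, Finset.card_range]
    _ ≤ (4 * X.N) * X.N ^ 16 := Nat.mul_le_mul_right _ (by omega)
    _ = 4 * X.N ^ 17 := by ring
    _ ≤ X.N ^ 3 * X.N ^ 17 := Nat.mul_le_mul_right _ (Lwf_cube hN)
    _ = X.N ^ 20 := by ring

/-- without `Res` -/
theorem KD_W {φ : ℝ} (h1 : X.S1 c φ) : X.KD c ∅ := by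
  intro α δ j v hj
  have hN : 2 ≤ X.N := le_trans (by norm_num) X.pm.big
  have h2 : X.dis c ∅ α = X.disW c α := by
    unfold dis disX
    ext b
    simp
  rw [h2]
  exact (h1.k1 α δ j hj v).trans (Nat.pow_le_pow_right (by omega) (by norm_num))

end Cx

end Pool.Agent.H2.LN
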