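/-
ROW Lf1. The tests for the colouring.
PROOF. `RF_en X` gives `κ, e` with `|κ| ≤ N ^ 10`. Index type `ι := Fin 8 × κ × Fin s × ZMod 2 × Fin (n + 1) × Fin (sc + 2 p)` (`|ι| ≤ 8 N ^ 10 Δ * 2 * (9 N ^ 3 + 2) (2 Δ) ≤ exp (N ^ 4)`: `log Δ ≤ N` by `pm.log`, or `Δ ≤ exp (N)`; `x ≤ exp x`). For centre `b` and `i = (tag, k, α, δ, j, g)`, `P := e b k α δ j`; use `if (∃ r, RF α δ j r P ∧ ... ∧ support of P in bl b (2 r)) then .. else 0`
(the zero function is in `LinF`, `BilF`). Linear: tag 0: `mv α (A α δ 0 P)` (if `j = 0`, `n3 ≤ r + 1`), tag 1: `dv α (A α δ j P)` (`n3 ≤ r + 1`), tag 2: `mv α (T0 α δ j (gD α δ j P))` (`n3 ≤ r`). Bilinear: tag 0: the diagonal function of `BF_di`, tag 1: `cb α δ j P`. Frugality: tag 0: `(R α δ j b) ×ˢ {g}` (if `g < sc`), tag 1: `((R α δ j b).image (M α)) ×ˢ {g}`,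
tag 2 (`t = g < 2 p`): the image of `{α : Fin s | α + t + 2 < sc + 2 p ∧ 2 p ≤ α + t + 2}` under `α ↦ (M α b, α + t + 2 - 2 p)`; otherwise `∅`. Sizes: `≤ d0 ≤ Δ` resp. `≤ s ≤ Δ`; near `b`: `bl b 2`. Admissibility: `LF_mvA, LF_dvA, LF_gD, BF_di, BF_cb`.
`S1 c φ` from `ColE` (`t1, t2, t3`): `p0, p1` given, `rg`: `c0 v < sc`, `hsc`; `pr`: `prop`. `l1, l2, l3`: for `RF α δ j r P` take `b, k` from `RF_en` and `wl`. `b1`: `wb` for the diagonal function (`∑_x ∑_y [W x ∧ W y] h x y = ∑_x [W x ∧ W (M x)] mv F x`; if `M x = x` both are `0`), `b2`: `wb` for `cb`. `k1`: `wf1` (tags 0, 1; `M α` is injective, so the number of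
`b' ∈ R` with `c0 (M b') = g` is the number of pairs `(M b', g)` hit). `k2`: `wf2` (tag 2: the map `α ↦ (M α b, α + t + 2 - 2 p)` is injective in the second component).
-/
import Pool.Agent.H2.LN.LD
import Pool.Agent.H2.LN.L.Llf
import Pool.Agent.H2.LN.L.Lbf
import Pool.Agent.H2.LN.L.Lwf
import Pool.Agent.H2.LN.L.Lre

set_option autoImplicit false
set_option linter.unusedSectionVars false

namespace Pool.Agent.H2.LN

open Finset Classical
open Pool.Agent.H65.GI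

namespace Cx

variable {V : Type} [Fintype V] (X : Cx V)

/-- `P` is a receiver function near `b`, with at least `N ^ 3 - e` steps -/
def Lf1_ok (X : Cx V) (b : V) (α : Fin X.s) (δ : ZMod 2) (j e : ℕ) (P : V → ℝ) : Prop :=
  ∃ r, X.RF α δ j r P ∧ X.n3 ≤ r + e ∧ ∀ x, P x ≠ 0 → x ∈ bl X.G b (2 * r)

/-- linear tests -/
noncomputable def Lf1_f (X : Cx V) (b : V) (α : Fin X.s) (δ : ZMod 2) (j : ℕ) (P0 P : V → ℝ) (t : Fin 3) :
    V → ℝ :=
  if t = 0 then (if Lf1_ok X b α δ 0 1 P0 then X.mv α (X.A α δ 0 P0) else fun _ => 0)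
  else if t = 1 then (if Lf1_ok X b α δ j 1 P then X.dv α (X.A α δ j P) else fun _ => 0)
  else (if Lf1_ok X b α δ j 0 P then X.mv α (X.T0 α δ j (X.gD α δ j P)) else fun _ => 0)

/-- bilinear tests -/
noncomputable def Lf1_h (X : Cx V) (b : V) (α : Fin X.s) (δ : ZMod 2) (j : ℕ) (P0 P : V → ℝ) (t : Fin 3) :
    V → V → ℝ :=
  if t = 0 then (if Lf1_ok X b α δ 0 1 P0 then
    (fun x y => if X.M α x ≠ x ∧ y = X.M α x then X.mv α (X.A α δ 0 P0) x else 0) else fun _ _ => 0)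
  else (if Lf1_ok X b α δ j 0 P then X.cb α δ j P else fun _ _ => 0)

/-- frugality tests -/
noncomputable def Lf1_F (X : Cx V) (b : V) (α : Fin X.s) (δ : ZMod 2) (j g : ℕ) (t : Fin 3) :
    Finset (V × Fin X.sc) :=
  if t = 0 then univ.filter (fun y => y.1 ∈ X.R α δ j b ∧ (y.2 : ℕ) = g)
  else if t = 1 then univ.filter (fun y => X.M α y.1 ∈ X.R α δ j b ∧ (y.2 : ℕ) = g)
  else univ.filter (fun y => ∃ β : Fin X.s, y.1 = X.M β b ∧ (y.2 : ℕ) + 2 * X.p = β + g + 2)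

theorem Lf1_lin0 (X : Cx V) (b : V) : LinF X.G X.N X.Δ b (fun _ => 0) := by
  refine ⟨fun _ => le_refl _, fun _ _ => rfl, ?_, ?_⟩
  · rw [Finset.sum_const_zero]
    exact zero_le_one
  · have h : ∑ x : V, (0 : ℝ) ^ 2 = 0 := by
      rw [zero_pow (by norm_num), Finset.sum_const_zero]
    rw [h]
    positivity

theorem Lf1_bil0 (X : Cx V) (b : V) : BilF X.G X.N X.Δ b (fun _ _ => 0) := by
  have h : ∑ x : V, (∑ y : V, (0 : ℝ)) ^ 2 = 0 := by
    rw [Finset.sum_const_zero, zero_pow (by norm_num), Finset.sum_const_zero]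
  refine ⟨fun _ _ => le_refl _, fun _ _ _ => rfl, fun _ _ _ => rfl, fun _ => rfl, ?_, ?_, ?_⟩
  · rw [Finset.sum_const_zero, Finset.sum_const_zero]
    norm_num
  · rw [h]
    positivity
  · rw [h]
    positivity

theorem Lf1_lin (X : Cx V) (b : V) (α : Fin X.s) (δ : ZMod 2) (j : ℕ) (P0 P : V → ℝ) (t : Fin 3) :
    LinF X.G X.N X.Δ b (Lf1_f X b α δ j P0 P t) := by
  unfold Lf1_f
  split_ifs with h1 h2 h3 h4 h5
  · obtain ⟨r, hr, hn, hb⟩ := h2
    exact LF_mvA hr hn hb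
  · exact Lf1_lin0 X b
  · obtain ⟨r, hr, hn, hb⟩ := h4
    exact LF_dvA hr hn hb
  · exact Lf1_lin0 X b
  · obtain ⟨r, hr, hn, hb⟩ := h5
    exact LF_gD hr hn hb
  · exact Lf1_lin0 X b

theorem Lf1_bil (X : Cx V) (b : V) (α : Fin X.s) (δ : ZMod 2) (j : ℕ) (P0 P : V → ℝ) (t : Fin 3) :
    BilF X.G X.N X.Δ b (Lf1_h X b α δ j P0 P t) := by
  unfold Lf1_h
  split_ifs with h1 h2 h3
  · obtain ⟨r, hr, hn, hb⟩ := h2
    exact BF_di hr hn hb
  · exact Lf1_bil0 X b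
  · obtain ⟨r, hr, hn, hb⟩ := h3
    exact BF_cb hr hn hb
  · exact Lf1_bil0 X b

theorem Lf1_s (X : Cx V) : X.s ≤ X.Δ := by
  have h := X.base.sle
  have h1 : (0 : ℝ) ≤ X.Δ / X.N ^ 50 := by positivity
  have h2 : (X.s : ℝ) ≤ X.Δ := by linarith
  exact_mod_cast h2

theorem Lf1_R (X : Cx V) (α : Fin X.s) (δ : ZMod 2) (j : ℕ) (b : V) : (X.R α δ j b).card ≤ X.Δ := by
  have h := (Finset.card_le_card (fun x hx => Finset.mem_filter.2 ⟨Finset.mem_univ x, X.R_adj hx⟩) :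
    (X.R α δ j b).card ≤ (univ.filter (fun u => X.G.Adj b u)).card)
  rw [X.reg b] at h
  exact h

theorem Lf1_fr1 (X : Cx V) (b : V) (α : Fin X.s) (δ : ZMod 2) (j g : ℕ) (t : Fin 3) :
    (Lf1_F X b α δ j g t).card ≤ 2 * X.Δ := by
  have hR := Lf1_R X α δ j b
  unfold Lf1_F
  split_ifs with h1 h2
  · have h3 : (univ.filter (fun y : V × Fin X.sc => y.1 ∈ X.R α δ j b ∧ (y.2 : ℕ) = g)).card ≤
        (X.R α δ j b).card := by
      apply Finset.card_le_card_of_injOn (fun y => y.1)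
      · intro y hy
        exact (Finset.mem_filter.1 hy).2.1
      · intro y hy y' hy' hh
        have e1 := (Finset.mem_filter.1 hy).2.2
        have e2 := (Finset.mem_filter.1 hy').2.2
        exact Prod.ext hh (Fin.ext (e1.trans e2.symm))
    omega
  · have h3 : (univ.filter (fun y : V × Fin X.sc => X.M α y.1 ∈ X.R α δ j b ∧ (y.2 : ℕ) = g)).card ≤
        (X.R α δ j b).card := by
      apply Finset.card_le_card_of_injOn (fun y => X.M α y.1)
      · intro y hy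
        exact (Finset.mem_filter.1 hy).2.1
      · intro y hy y' hy' hh
        have e1 := (Finset.mem_filter.1 hy).2.2
        have e2 := (Finset.mem_filter.1 hy').2.2
        have e3 : y.1 = y'.1 := by
          have h4 : X.M α (X.M α y.1) = X.M α (X.M α y'.1) := congrArg (X.M α) hh
          rw [M_M, M_M] at h4
          exact h4
        exact Prod.ext e3 (Fin.ext (e1.trans e2.symm))
    omega
  · have h3 : (univ.filter (fun y : V × Fin X.sc => ∃ β : Fin X.s, y.1 = X.M β b ∧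
        (y.2 : ℕ) + 2 * X.p = β + g + 2)).card ≤ (univ : Finset (Fin X.sc)).card := by
      apply Finset.card_le_card_of_injOn (fun y => y.2)
      · intro y _
        exact Finset.mem_coe.2 (Finset.mem_univ _)
      · intro y hy y' hy' hh
        obtain ⟨β, e1, e2⟩ := (Finset.mem_filter.1 hy).2
        obtain ⟨β', e1', e2'⟩ := (Finset.mem_filter.1 hy').2
        have hh' : y.2 = y'.2 := hh
        rw [hh'] at e2
        have h4 : β = β' := Fin.ext (by omega)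
        rw [h4] at e1
        exact Prod.ext (e1.trans e1'.symm) hh'
    rw [Finset.card_univ, Fintype.card_fin] at h3
    have h4 := X.hsc
    have h5 := X.hp1
    have h6 := Lf1_s X
    omega

theorem Lf1_M (X : Cx V) (α : Fin X.s) {b x : V} {k : ℕ} (h : x ∈ bl X.G b k) :
    X.M α x ∈ bl X.G b (k + 1) := by
  by_cases hM : X.M α x = x
  · rw [hM]
    exact bl_mono X.G b (Nat.le_succ k) h
  · exact bl_adj X.G h (X.M_adj hM)

theorem Lf1_N3 (X : Cx V) : 2 ≤ 60 * X.N ^ 3 := by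
  have h := Llf_N3 X
  omega

theorem Lf1_fr2 (X : Cx V) (b : V) (α : Fin X.s) (δ : ZMod 2) (j g : ℕ) (t : Fin 3) :
    ∀ x ∈ Lf1_F X b α δ j g t, x.1 ∈ bl X.G b (60 * X.N ^ 3) := by
  intro x hx
  have hN := Lf1_N3 X
  have h0 : ∀ y ∈ X.R α δ j b, y ∈ bl X.G b 1 := fun y hy =>
    bl_adj X.G (bl_self X.G b 0) (X.R_adj hy)
  unfold Lf1_F at hx
  split_ifs at hx with h1 h2
  · exact bl_mono X.G b (by omega) (h0 _ (Finset.mem_filter.1 hx).2.1)
  · have h3 := Lf1_M X α (h0 _ (Finset.mem_filter.1 hx).2.1)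
    rw [M_M] at h3
    exact bl_mono X.G b hN h3
  · obtain ⟨β, e1, -⟩ := (Finset.mem_filter.1 hx).2
    rw [e1]
    exact bl_mono X.G b (by omega) (Lf1_M X β (bl_self X.G b 0))

theorem Lf1_en (X : Cx V) : ∃ (κ : Type) (_ : Fintype κ) (e : V → κ → Fin X.s → ZMod 2 → ℕ → V → ℝ),
    (Fintype.card κ : ℝ) ≤ 2 * X.N ^ 10 ∧ (∀ α δ j r P, X.RF α δ j r P → ∃ b k, e b k α δ j = P ∧
      ∀ x, P x ≠ 0 → x ∈ bl X.G b (2 * r)) ∧ Nonempty κ := by
  obtain ⟨κ, hκ, e, hcard, hen⟩ := RF_en X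
  refine ⟨Option κ, inferInstance, fun b k => k.elim (fun _ _ _ _ => 0) (e b), ?_, ?_, ⟨none⟩⟩
  · rw [Fintype.card_option]
    push_cast
    have h1 : (1 : ℝ) ≤ (X.N : ℝ) ^ 10 := one_le_pow₀ (le_trans (by norm_num) X.N_big)
    linarith
  · intro α δ j r P h
    obtain ⟨b, k, hk, hb⟩ := hen α δ j r P h
    exact ⟨b, some k, hk, hb⟩

theorem Lf1_card (X : Cx V) {k : ℝ} (hk : k ≤ 2 * X.N ^ 10) :
    k * (3 * (X.s * (2 * ((X.n + 1 : ℕ) * ((X.s + 2 : ℕ) : ℝ))))) ≤ Real.exp (X.N ^ 4) := by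
  have hN : (2 : ℝ) ^ 40 ≤ X.N := X.N_big
  have hN1 : (1 : ℝ) ≤ X.N := le_trans (by norm_num) hN
  have hN0 : (0 : ℝ) < X.N := by linarith
  have hs : (X.s : ℝ) ≤ X.Δ := by exact_mod_cast Lf1_s X
  have hD1 : (1 : ℝ) ≤ X.Δ := X.Lnm_D1
  have hND : (X.N : ℝ) ≤ X.Δ := by
    have h1 : (X.N : ℝ) ^ 1 ≤ X.pw 1 := X.pwN 1 1 (by norm_num)
    rw [pow_one, X.Lnm_pw1] at h1
    exact h1
  have hlog : Real.log X.Δ ≤ X.N := by
    by_cases h1 : Real.log X.Δ ≤ 1
    · linarith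
    · refine le_trans ?_ X.pm.log
      have h2 : Real.log X.Δ = Real.log X.Δ ^ 1 := (pow_one _).symm
      have h3 : Real.log X.Δ ^ 1 ≤ Real.log X.Δ ^ 10 :=
        pow_le_pow_right₀ (le_of_lt (not_le.1 h1)) (by norm_num)
      rw [pow_one] at h3
      exact h3
  have hDe : (X.Δ : ℝ) ≤ Real.exp X.N := by
    rw [← Real.exp_log (by linarith : (0 : ℝ) < X.Δ)]
    exact Real.exp_le_exp.2 hlog
  have hNe : (X.N : ℝ) ≤ Real.exp X.N := hND.trans hDe
  have hs2 : ((X.s + 2 : ℕ) : ℝ) ≤ 3 * X.Δ := by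
    push_cast
    linarith
  have hn : ((X.n + 1 : ℕ) : ℝ) ≤ X.N ^ 4 := by
    unfold n
    push_cast
    have h1 : (1 : ℝ) ≤ (X.N : ℝ) ^ 3 := one_le_pow₀ hN1
    have h2 : (11 : ℝ) * (X.N : ℝ) ^ 3 ≤ X.N * (X.N : ℝ) ^ 3 :=
      mul_le_mul_of_nonneg_right (le_trans (by norm_num) hN) (by positivity)
    calc (9 : ℝ) * (X.N : ℝ) ^ 3 + 1 + 1 ≤ 11 * (X.N : ℝ) ^ 3 := by linarith
      _ ≤ X.N * (X.N : ℝ) ^ 3 := h2
      _ = (X.N : ℝ) ^ 4 := by ring
  have hs0 : (0 : ℝ) ≤ X.s := Nat.cast_nonneg _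
  have h18 : (36 : ℝ) ≤ X.N := le_trans (by norm_num) hN
  have hexp0 : (0 : ℝ) < Real.exp X.N := Real.exp_pos _
  calc k * (3 * (X.s * (2 * ((X.n + 1 : ℕ) * ((X.s + 2 : ℕ) : ℝ)))))
      ≤ 2 * (X.N : ℝ) ^ 10 * (3 * (X.Δ * (2 * ((X.N : ℝ) ^ 4 * (3 * X.Δ))))) := by gcongr
    _ = 36 * (X.N : ℝ) ^ 14 * (X.Δ : ℝ) ^ 2 := by ring
    _ ≤ X.N * (X.N : ℝ) ^ 14 * (X.Δ : ℝ) ^ 2 := by gcongr
    _ ≤ Real.exp X.N * (Real.exp X.N) ^ 14 * (Real.exp X.N) ^ 2 := by gcongr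
    _ = Real.exp X.N ^ 17 := by ring
    _ = Real.exp (17 * X.N) := by
        rw [← Real.exp_nat_mul]
        norm_num
    _ ≤ Real.exp (X.N ^ 4) := by
        apply Real.exp_le_exp.2
        have h1 : (17 : ℝ) ≤ (X.N : ℝ) ^ 3 := by
          calc (17 : ℝ) ≤ X.N := by linarith
            _ = (X.N : ℝ) ^ 1 := (pow_one _).symm
            _ ≤ (X.N : ℝ) ^ 3 := pow_le_pow_right₀ hN1 (by norm_num)
        calc (17 : ℝ) * X.N ≤ (X.N : ℝ) ^ 3 * X.N := mul_le_mul_of_nonneg_right h1 hN0.le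
          _ = (X.N : ℝ) ^ 4 := by ring

/-- stage 1: the tests for the colouring -/
theorem fam1 (X : Cx V) : ∃ (ι : Type) (_ : Fintype ι) (f : V → ι → V → ℝ) (h : V → ι → V → V → ℝ)
    (Fr : V → ι → Finset (V × Fin X.sc)), (Fintype.card ι : ℝ) ≤ Real.exp (X.N ^ 4) ∧
    Top.Fam X.G X.N X.Δ X.sc f h Fr ∧ ∀ (c0 : V → Fin X.sc) (φ : ℝ),
      Top.ColE X.G X.N X.Δ X.sc f h Fr c0 φ → ∀ c : V → ℕ, (∀ v, c v = c0 v + (X.p - 1)) →
      X.S1 c φ := by
  obtain ⟨κ, hκ, e, hcard, hen, ⟨k0⟩⟩ := Lf1_en X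
  refine ⟨κ × Fin 3 × Fin X.s × ZMod 2 × Fin (X.n + 1) × Fin (X.s + 2), inferInstance,
    fun b i => Lf1_f X b i.2.2.1 i.2.2.2.1 i.2.2.2.2.1 (e b i.1 i.2.2.1 i.2.2.2.1 0)
      (e b i.1 i.2.2.1 i.2.2.2.1 i.2.2.2.2.1) i.2.1,
    fun b i => Lf1_h X b i.2.2.1 i.2.2.2.1 i.2.2.2.2.1 (e b i.1 i.2.2.1 i.2.2.2.1 0)
      (e b i.1 i.2.2.1 i.2.2.2.1 i.2.2.2.2.1) i.2.1,
    fun b i => Lf1_F X b i.2.2.1 i.2.2.2.1 i.2.2.2.2.1 i.2.2.2.2.2 i.2.1, ?_, ?_, ?_⟩
  · have h1 := Lf1_card X hcard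
    refine le_trans (le_of_eq ?_) h1
    rw [Fintype.card_prod, Fintype.card_prod, Fintype.card_prod, Fintype.card_prod, Fintype.card_prod,
      Fintype.card_fin, Fintype.card_fin, Fintype.card_fin, Fintype.card_fin, ZMod.card]
    push_cast
    ring
  · exact ⟨fun v i => Lf1_lin X _ _ _ _ _ _ _, fun v i => Lf1_bil X _ _ _ _ _ _ _,
      fun v i => Lf1_fr1 X _ _ _ _ _ _, fun v i => Lf1_fr2 X _ _ _ _ _ _⟩
  · intro c0 φ hC c hc
    have hp := X.hp1
    have hsc := X.hsc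
    have hRFj : ∀ {α : Fin X.s} {δ : ZMod 2} {j r : ℕ} {P : V → ℝ}, X.RF α δ j r P → j < X.n + 1 := by
      intro α δ j r P h
      have := RF_rj h
      omega
    refine ⟨hC.p0, hC.p1, ?_, ?_, ?_, ?_, ?_, ?_, ?_, ?_, ?_⟩
    · intro v
      have h1 := (c0 v).2
      rw [hc v]
      omega
    · intro u v huv h1
      rw [hc u, hc v] at h1
      exact hC.prop u v huv (Fin.ext (by omega))
    · intro α δ r P hP hr
      obtain ⟨b, k, hk, hb⟩ := hen α δ 0 r P hP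
      refine wl hc _ (fun g => ?_) α
      have h1 := hC.t1 b (k, 0, α, δ, 0, 0) g
      have h2 : Lf1_ok X b α δ 0 1 (e b k α δ 0) := ⟨r, by rw [hk]; exact hP, hr, by rw [hk]; exact hb⟩
      have h3 : Lf1_f X b α δ ((0 : Fin (X.n + 1)) : ℕ) (e b k α δ 0) (e b k α δ ((0 : Fin (X.n + 1)) : ℕ)) 0 =
          X.mv α (X.A α δ 0 P) := by
        unfold Lf1_f
        rw [if_pos rfl, if_pos h2, hk]
      simp only [h3] at h1
      exact h1
    · intro α δ j r P hP hr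
      obtain ⟨b, k, hk, hb⟩ := hen α δ j r P hP
      refine wl hc _ (fun g => ?_) α
      have h1 := hC.t1 b (k, 1, α, δ, ⟨j, hRFj hP⟩, 0) g
      have h2 : Lf1_ok X b α δ j 1 (e b k α δ j) := ⟨r, by rw [hk]; exact hP, hr, by rw [hk]; exact hb⟩
      have h3 : Lf1_f X b α δ j (e b k α δ 0) (e b k α δ j) 1 = X.dv α (X.A α δ j P) := by
        unfold Lf1_f
        rw [if_neg (by decide), if_pos rfl, if_pos h2, hk]
      simp only [h3] at h1
      exact h1
    · intro α δ j r P hP hr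
      obtain ⟨b, k, hk, hb⟩ := hen α δ j r P hP
      refine wl hc _ (fun g => ?_) α
      have h1 := hC.t1 b (k, 2, α, δ, ⟨j, hRFj hP⟩, 0) g
      have h2 : Lf1_ok X b α δ j 0 (e b k α δ j) := ⟨r, by rw [hk]; exact hP, hr, by rw [hk]; exact hb⟩
      have h3 : Lf1_f X b α δ j (e b k α δ 0) (e b k α δ j) 2 =
          X.mv α (X.T0 α δ j (X.gD α δ j P)) := by
        unfold Lf1_f
        rw [if_neg (by decide), if_neg (by decide), if_pos h2, hk]
      simp only [h3] at h1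
      exact h1
    · intro α δ r P hP hr
      obtain ⟨b, k, hk, hb⟩ := hen α δ 0 r P hP
      have h2 : Lf1_ok X b α δ 0 1 (e b k α δ 0) := ⟨r, by rw [hk]; exact hP, hr, by rw [hk]; exact hb⟩
      have h3 : Lf1_h X b α δ ((0 : Fin (X.n + 1)) : ℕ) (e b k α δ 0) (e b k α δ ((0 : Fin (X.n + 1)) : ℕ)) 0 =
          (fun x y => if X.M α x ≠ x ∧ y = X.M α x then X.mv α (X.A α δ 0 P) x else 0) := by
        unfold Lf1_h
        rw [if_pos rfl, if_pos h2, hk]
      have h4 := (BF_di hP hr hb).l1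
      have h5 := wb hc _ h4 (fun g g' => by
        have h1 := hC.t2 b (k, 0, α, δ, 0, 0) g g'
        simp only [h3] at h1
        exact h1) α
      refine le_trans (le_of_eq (Finset.sum_congr rfl (fun x _ => ?_))) h5
      rw [Finset.sum_eq_single (X.M α x)]
      · by_cases h6 : Wc X.p c α x ∧ Wc X.p c α (X.M α x)
        · rw [if_pos h6, if_pos h6]
          by_cases h7 : X.M α x ≠ x
          · rw [if_pos ⟨h7, rfl⟩]
          · rw [if_neg (fun h8 => h7 h8.1)]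
            unfold mv
            rw [if_neg h7]
        · rw [if_neg h6, if_neg h6]
      · intro y _ hy
        by_cases h6 : Wc X.p c α x ∧ Wc X.p c α y
        · rw [if_pos h6, if_neg (fun h8 => hy h8.2)]
        · rw [if_neg h6]
      · intro h6
        exact absurd (Finset.mem_univ _) h6
    · intro α δ j r P hP hr
      obtain ⟨b, k, hk, hb⟩ := hen α δ j r P hP
      have h2 : Lf1_ok X b α δ j 0 (e b k α δ j) := ⟨r, by rw [hk]; exact hP, hr, by rw [hk]; exact hb⟩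
      have h3 : Lf1_h X b α δ j (e b k α δ 0) (e b k α δ j) 1 = X.cb α δ j P := by
        unfold Lf1_h
        rw [if_neg (by decide), if_pos h2, hk]
      have h4 := (BF_cb hP hr hb).l1
      exact wb hc _ h4 (fun g g' => by
        have h1 := hC.t2 b (k, 1, α, δ, ⟨j, hRFj hP⟩, 0) g g'
        simp only [h3] at h1
        exact h1) α
    · intro α δ j hj v
      refine wf1 hc α δ j v (fun g => ?_) (fun g => ?_)
      · have hg : (g : ℕ) < X.s + 2 := by
          have := g.2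
          omega
        have h1 := hC.t3 v (k0, 0, α, δ, ⟨j, by omega⟩, ⟨g, hg⟩)
        refine le_trans (Finset.card_le_card_of_injOn (fun b => (b, g)) ?_ ?_) h1
        · intro b hb
          obtain ⟨hb1, hb2⟩ := Finset.mem_filter.1 hb
          refine Finset.mem_coe.2 (Finset.mem_filter.2 ⟨?_, hb2⟩)
          show (b, g) ∈ Lf1_F X v α δ j g 0
          unfold Lf1_F
          rw [if_pos rfl]
          exact Finset.mem_filter.2 ⟨Finset.mem_univ _, hb1, rfl⟩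
        · intro b _ b' _ hbb
          exact congrArg Prod.fst hbb
      · have hg : (g : ℕ) < X.s + 2 := by
          have := g.2
          omega
        have h1 := hC.t3 v (k0, 1, α, δ, ⟨j, by omega⟩, ⟨g, hg⟩)
        refine le_trans (Finset.card_le_card_of_injOn (fun b => (X.M α b, g)) ?_ ?_) h1
        · intro b hb
          obtain ⟨hb1, hb2⟩ := Finset.mem_filter.1 hb
          refine Finset.mem_coe.2 (Finset.mem_filter.2 ⟨?_, hb2⟩)
          show (X.M α b, g) ∈ Lf1_F X v α δ j g 1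
          unfold Lf1_F
          rw [if_neg (by decide), if_pos rfl]
          refine Finset.mem_filter.2 ⟨Finset.mem_univ _, ?_, rfl⟩
          show X.M α (X.M α b) ∈ X.R α δ j v
          rw [M_M]
          exact hb1
        · intro b _ b' _ hbb
          have h4 : X.M α (X.M α b) = X.M α (X.M α b') := congrArg (X.M α) (congrArg Prod.fst hbb)
          rw [M_M, M_M] at h4
          exact h4
    · intro v
      refine wf2 hc v (fun t ht => ?_)
      by_cases hs0 : ∃ α : Fin X.s, True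
      · obtain ⟨α, -⟩ := hs0
        have hg : t < X.s + 2 := by omega
        have h1 := hC.t3 v (k0, 2, α, 0, 0, ⟨t, hg⟩)
        refine le_trans (Finset.card_le_card_of_injOn (fun β => (X.M β v, c0 (X.M β v))) ?_ ?_) h1
        · intro β hb
          have hb2 := (Finset.mem_filter.1 hb).2
          refine Finset.mem_coe.2 (Finset.mem_filter.2 ⟨?_, rfl⟩)
          show (X.M β v, c0 (X.M β v)) ∈ Lf1_F X v α 0 _ t 2
          unfold Lf1_F
          rw [if_neg (by decide), if_neg (by decide)]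
          exact Finset.mem_filter.2 ⟨Finset.mem_univ _, β, rfl, hb2⟩
        · intro β hb β' hb' hbb
          have h2 := (Finset.mem_filter.1 hb).2
          have h3 := (Finset.mem_filter.1 hb').2
          have h4 : c0 (X.M β v) = c0 (X.M β' v) := congrArg Prod.snd hbb
          rw [h4] at h2
          exact Fin.ext (by omega)
      · rw [Finset.filter_eq_empty_iff.2 (fun α _ => absurd ⟨α, trivial⟩ hs0), Finset.card_empty]
        exact Nat.zero_le _

end Cx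

end Pool.Agent.H2.LN
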