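/-
ROW Lf2. The tests for `Res`.
PROOF. As in Lf1 with `ι := Fin 8 × κ × Fin s × ZMod 2 × Fin (n + 1)`. Linear tests for `P = e b k α δ j` with `RF α δ j r P`, support in `bl b (2 r)`: tag 0: `mv α (A α δ 0 P)` (`j = 0`, `n3 ≤ r + 1`), tag 1: `mv α (T0 α δ j (gB (disW c α) α δ j P))` (`n3 ≤ r`; `LF_gW` with `KD_W h1`), tag 2: `mv α (T0 α δ j (gD α δ j P))`,
tag 3 (`n3 ≤ r`): `f y = (∑_x if Wc α x then cb P x y else 0) / 6`: `LinF`: sum `≤ 1` (`cb_l1`), squares `≤ 18 N ^ 3 / (36 Δ ^ 12)` (`cb_cm`, `0 ≤ partial sum ≤ full sum`), support `cb_ball`. Bilinear: `cb P` (`BF_cb`). `S2` from `ResE`: `ka`: `a`. `kb`: `b` with `κ = kap α δ j`. `l1`: `c1` (tag 0), `u1, u2, u3`: `c2` (`X.rho = 1 / (rq s)`, `pw (-3) = 1 / Δ ^ 3`).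
`d`: `∑_x ∑_y [W x ∧ Q y] cb x y = 6 ∑_y [Q y] f y ≤ 6 (2 (1 / rq)^2 ∑ f + 1 / Δ ^ 3)` (`ResE.d`), `∑_y f y = ∑_x [W x] (∑_y cb x y) / 6 ≤ ∑_x [W x] mv (T0 (A P)) x` (`cb_row`), `T0 (A P) = A 0 P'` (`T0_RF`, `n3 ≤ r + j + 1`), `S1.l1`: `≤ ub + 2 N pw (-19/5) ≤ N ^ 16 / Δ` (`∑ mv (A P') ≤ 1`, `ub ≤ 2 N φ ≤ 2 N ^ 15 / Δ`); `1 / rq ≤ N ^ 50 / (16 Δ)` (`rq = 16 (Δ - s)`, `base.sle`):
total `≤ N ^ 117 / Δ ^ 3 ≤ N ^ 30 / Δ ^ 2`. `e`: `ResE.e`: `2 rho (1 / rq) 6 + Δ ^ (-7/2) ≤ N ^ 102 pw (-3)` (`rho_bd`).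
-/
import Pool.Agent.H2.LN.LD
import Pool.Agent.H2.LN.L.Llf
import Pool.Agent.H2.LN.L.Lbf
import Pool.Agent.H2.LN.L.Lwf
import Pool.Agent.H2.LN.L.Lre
import Pool.Agent.H2.LN.L.Lf1

set_option autoImplicit false
set_option linter.unusedSectionVars false

namespace Pool.Agent.H2.LN

open Finset Classical
open Pool.Agent.H65.GI

namespace Cx

variable {V : Type} [Fintype V] {X : Cx V} {c : V → ℕ} {Rc : Finset V}

/-- linear tests -/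
noncomputable def Lf2_f (X : Cx V) (c : V → ℕ) (b : V) (α : Fin X.s) (δ : ZMod 2) (j : ℕ) (P0 P : V → ℝ)
    (t : Fin 4) : V → ℝ :=
  if t = 0 then (if Lf1_ok X b α δ 0 1 P0 then X.mv α (X.A α δ 0 P0) else fun _ => 0)
  else if t = 1 then (if Lf1_ok X b α δ j 0 P then
    X.mv α (X.T0 α δ j (X.gB (X.disW c α) α δ j P)) else fun _ => 0)
  else if t = 2 then (if Lf1_ok X b α δ j 0 P then X.mv α (X.T0 α δ j (X.gD α δ j P)) else fun _ => 0)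
  else (if Lf1_ok X b α δ j 0 P then
    (fun y => (∑ x, if Wc X.p c α x then X.cb α δ j P x y else 0) / 6) else fun _ => 0)

/-- bilinear tests -/
noncomputable def Lf2_h (X : Cx V) (b : V) (α : Fin X.s) (δ : ZMod 2) (j : ℕ) (P : V → ℝ) : V → V → ℝ :=
  if Lf1_ok X b α δ j 0 P then X.cb α δ j P else fun _ _ => 0

theorem Lf2_t3 (X : Cx V) (c : V → ℕ) {b : V} {α : Fin X.s} {δ : ZMod 2} {j r : ℕ} {P : V → ℝ}
    (h : X.RF α δ j r P) (hr : X.n3 ≤ r) (hb : ∀ x, P x ≠ 0 → x ∈ bl X.G b (2 * r)) :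
    LinF X.G X.N X.Δ b (fun y => (∑ x, if Wc X.p c α x then X.cb α δ j P x y else 0) / 6) := by
  have hP := RF_nn h
  have hcb : ∀ x y, 0 ≤ X.cb α δ j P x y := fun x y => cb_nn hP x y
  have h0 : ∀ y, 0 ≤ ∑ x, (if Wc X.p c α x then X.cb α δ j P x y else 0) := by
    intro y
    apply Finset.sum_nonneg
    intro x _
    split_ifs
    · exact hcb x y
    · exact le_refl _
  have h1 : ∀ y, (∑ x, (if Wc X.p c α x then X.cb α δ j P x y else 0)) ≤ ∑ x, X.cb α δ j P x y := by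
    intro y
    apply Finset.sum_le_sum
    intro x _
    split_ifs
    · exact le_refl _
    · exact hcb x y
  have hn := Llf_n h
  have hN := Llf_N3 X
  refine ⟨fun y => div_nonneg (h0 y) (by norm_num), ?_, ?_, ?_⟩
  · intro y hy
    have h2 : (∑ x, (if Wc X.p c α x then X.cb α δ j P x y else 0)) = 0 := by
      apply Finset.sum_eq_zero
      intro x _
      split_ifs with h3
      · by_contra h4
        exact hy (bl_mono X.G b (by omega) (cb_ball hb x y h4).2)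
      · rfl
    rw [h2, zero_div]
  · rw [← Finset.sum_div]
    have h2 : ∑ y, (∑ x, (if Wc X.p c α x then X.cb α δ j P x y else 0)) ≤ 6 := by
      refine le_trans (Finset.sum_le_sum fun y _ => h1 y) ?_
      rw [Finset.sum_comm]
      exact cb_l1 h
    linarith
  · have h2 : ∑ y, ((∑ x, (if Wc X.p c α x then X.cb α δ j P x y else 0)) / 6) ^ 2 ≤
        (∑ y, (∑ x, X.cb α δ j P x y) ^ 2) / 36 := by
      rw [Finset.sum_div]
      apply Finset.sum_le_sum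
      intro y _
      rw [div_pow]
      norm_num
      exact div_le_div_of_nonneg_right (pow_le_pow_left₀ (h0 y) (h1 y) 2) (by norm_num)
    have h3 := cb_cm h hr
    have h4 : (0 : ℝ) ≤ X.N ^ 3 / (X.Δ : ℝ) ^ 12 := by positivity
    have h5 : (18 : ℝ) * X.N ^ 3 / (X.Δ : ℝ) ^ 12 = 18 * (X.N ^ 3 / (X.Δ : ℝ) ^ 12) := by ring
    have h6 : (16 : ℝ) * X.N ^ 3 / (X.Δ : ℝ) ^ 12 = 16 * (X.N ^ 3 / (X.Δ : ℝ) ^ 12) := by ring
    rw [h6]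
    rw [h5] at h3
    linarith

theorem Lf2_lin (X : Cx V) (c : V → ℕ) {φ : ℝ} (h1 : X.S1 c φ) (b : V) (α : Fin X.s) (δ : ZMod 2) (j : ℕ)
    (P0 P : V → ℝ) (t : Fin 4) : LinF X.G X.N X.Δ b (Lf2_f X c b α δ j P0 P t) := by
  unfold Lf2_f
  split_ifs with h2 h3 h4 h5 h6 h7 h8
  · obtain ⟨r, hr, hn, hb⟩ := h3
    exact LF_mvA hr hn hb
  · exact Lf1_lin0 X b
  · obtain ⟨r, hr, hn, hb⟩ := h5
    exact LF_gW hr hn hb (KD_W h1)
  · exact Lf1_lin0 X b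
  · obtain ⟨r, hr, hn, hb⟩ := h7
    exact LF_gD hr hn hb
  · exact Lf1_lin0 X b
  · obtain ⟨r, hr, hn, hb⟩ := h8
    exact Lf2_t3 X c hr hn hb
  · exact Lf1_lin0 X b

theorem Lf2_bil (X : Cx V) (b : V) (α : Fin X.s) (δ : ZMod 2) (j : ℕ) (P : V → ℝ) :
    BilF X.G X.N X.Δ b (Lf2_h X b α δ j P) := by
  unfold Lf2_h
  split_ifs with h3
  · obtain ⟨r, hr, hn, hb⟩ := h3
    exact BF_cb hr hn hb
  · exact Lf1_bil0 X b

theorem Lf2_pw3 (X : Cx V) : X.pw (-3) = 1 / (X.Δ : ℝ) ^ 3 := by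
  rw [X.Lnm_neg 3]
  congr 1
  unfold pw
  exact_mod_cast Real.rpow_natCast (X.Δ : ℝ) 3

theorem Lf2_pw2 (X : Cx V) : X.pw (-2) = 1 / (X.Δ : ℝ) ^ 2 := by
  rw [X.Lnm_neg 2]
  congr 1
  unfold pw
  exact_mod_cast Real.rpow_natCast (X.Δ : ℝ) 2

theorem Lf2_mono (X : Cx V) {x y : ℝ} (h : x ≤ y) : X.pw x ≤ X.pw y := by
  unfold pw
  exact Real.rpow_le_rpow_of_exponent_le X.Lnm_D1 h

/-- the probability of a coin of `Res` -/
theorem Lf2_rq (X : Cx V) : (1 : ℝ) / (rq X.Δ X.s : ℝ) ≤ X.N ^ 50 / (16 * X.Δ) ∧ 0 < (rq X.Δ X.s : ℝ) := by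
  have h1 := X.base.sle
  have hN := X.Lnm_N0
  have hD := X.Lnm_D0
  have hs := Lf1_s X
  have h2 : (rq X.Δ X.s : ℝ) = 16 * ((X.Δ : ℝ) - X.s) := by
    unfold rq
    push_cast [Nat.cast_sub hs]
    ring
  have h3 : (X.Δ : ℝ) / X.N ^ 50 ≤ (X.Δ : ℝ) - X.s := by linarith
  have h4 : 0 < (X.Δ : ℝ) / X.N ^ 50 := by positivity
  rw [h2]
  constructor
  · rw [div_le_div_iff₀ (by linarith) (by positivity)]
    have h5 : (X.Δ : ℝ) ≤ ((X.Δ : ℝ) - X.s) * X.N ^ 50 := by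
      rwa [div_le_iff₀ (by positivity)] at h3
    nlinarith
  · linarith

theorem Lf2_W (X : Cx V) (c : V → ℕ) {φ : ℝ} (h1 : X.S1 c φ) {α : Fin X.s} {δ : ZMod 2} {r : ℕ} {P : V → ℝ}
    (h : X.RF α δ 0 r P) (hr : X.n3 ≤ r + 1) :
    (∑ x, if Wc X.p c α x then X.mv α (X.A α δ 0 P) x else 0) ≤ X.N ^ 16 / X.Δ := by
  have h2 := (abs_le.1 (h1.l1 α δ r P h hr)).2
  have hP := RF_nn h
  have hA := fun x => A_nn (X := X) (α := α) (δ := δ) (j := 0) hP x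
  have h3 : ∑ x, X.mv α (X.A α δ 0 P) x ≤ 1 :=
    le_trans (Lcb_nd_le hA) (le_trans (A_sum_le hP) (RF_l1 h))
  have h3' : 0 ≤ ∑ x, X.mv α (X.A α δ 0 P) x := by
    apply Finset.sum_nonneg
    intro x _
    rw [Lcb_mv]
    split_ifs
    · exact hA _
    · exact le_refl _
  have hN := X.Lnm_N0
  have hN1 := X.N_big
  have hD := X.Lnm_D0
  have h4 : X.ub φ α ≤ 2 * X.N ^ 15 / X.Δ := by
    unfold ub
    calc φ * ((X.Ia α).card : ℝ) ≤ (X.N ^ 14 / X.Δ) * (2 * X.N) := by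
          apply mul_le_mul h1.p1 (Ia_card X α) (Nat.cast_nonneg _) (by positivity)
      _ = 2 * X.N ^ 15 / X.Δ := by ring
  have h4' : 0 ≤ X.ub φ α := mul_nonneg h1.p0 (Nat.cast_nonneg _)
  have h5 : X.pw (-(19 : ℝ) / 5) ≤ 1 / X.Δ := by
    have h6 : X.pw (-(19 : ℝ) / 5) ≤ X.pw (-1) := Lf2_mono X (by norm_num)
    rwa [X.Lnm_neg 1, X.Lnm_pw1] at h6
  have h7 : X.ub φ α * (∑ x, X.mv α (X.A α δ 0 P) x) ≤ 2 * X.N ^ 15 / X.Δ := by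
    calc X.ub φ α * (∑ x, X.mv α (X.A α δ 0 P) x) ≤ X.ub φ α * 1 := mul_le_mul_of_nonneg_left h3 h4'
      _ ≤ 2 * X.N ^ 15 / X.Δ := by rw [mul_one]; exact h4
  have h8 : 2 * (X.N : ℝ) * X.pw (-(19 : ℝ) / 5) ≤ 2 * X.N * (1 / X.Δ) :=
    mul_le_mul_of_nonneg_left h5 (by positivity)
  have h9 : 2 * (X.N : ℝ) ^ 15 / X.Δ + 2 * X.N * (1 / X.Δ) ≤ X.N ^ 16 / X.Δ := by
    have e1 : 2 * (X.N : ℝ) ^ 15 / X.Δ + 2 * X.N * (1 / X.Δ) = (2 * (X.N : ℝ) ^ 15 + 2 * X.N) / X.Δ := by ring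
    rw [e1]
    apply div_le_div_of_nonneg_right _ hD.le
    have e2 : (X.N : ℝ) ≤ X.N ^ 15 := by
      calc (X.N : ℝ) = X.N ^ 1 := (pow_one _).symm
        _ ≤ X.N ^ 15 := pow_le_pow_right₀ X.Lnm_ge1 (by norm_num)
    calc 2 * (X.N : ℝ) ^ 15 + 2 * X.N ≤ 4 * (X.N : ℝ) ^ 15 := by linarith
      _ ≤ X.N * (X.N : ℝ) ^ 15 := by
          apply mul_le_mul_of_nonneg_right _ (by positivity)
          exact le_trans (by norm_num) hN1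
      _ = X.N ^ 16 := by ring
  linarith

theorem Lf2_sw (X : Cx V) (c : V → ℕ) (Rc : Finset V) {α : Fin X.s} {δ : ZMod 2} {j : ℕ} {P : V → ℝ} :
    (∑ x, ∑ y, if Wc X.p c α x ∧ (y ∈ Rc ∧ X.M α y ∈ Rc ∧ X.M α y ≠ y) then X.cb α δ j P x y else 0) =
      6 * ∑ y, if (y ∈ Rc ∧ X.M α y ∈ Rc ∧ X.M α y ≠ y) then
        (∑ x, if Wc X.p c α x then X.cb α δ j P x y else 0) / 6 else 0 := by
  rw [Finset.sum_comm, Finset.mul_sum]
  apply Finset.sum_congr rfl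
  intro y _
  by_cases h : (y ∈ Rc ∧ X.M α y ∈ Rc ∧ X.M α y ≠ y)
  · rw [if_pos h]
    rw [mul_div_cancel₀ _ (by norm_num : (6 : ℝ) ≠ 0)]
    apply Finset.sum_congr rfl
    intro x _
    by_cases h2 : Wc X.p c α x
    · rw [if_pos ⟨h2, h⟩, if_pos h2]
    · rw [if_neg (fun h3 => h2 h3.1), if_neg h2]
  · rw [if_neg h, mul_zero]
    apply Finset.sum_eq_zero
    intro x _
    rw [if_neg (fun h3 => h h3.2)]

theorem Lf2_tot (X : Cx V) (c : V → ℕ) {φ : ℝ} (h1 : X.S1 c φ) {α : Fin X.s} {δ : ZMod 2} {j r : ℕ} {P : V → ℝ}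
    (h : X.RF α δ j r P) (hr : X.n3 ≤ r) :
    (∑ y, (∑ x, if Wc X.p c α x then X.cb α δ j P x y else 0) / 6) ≤ X.N ^ 16 / X.Δ := by
  obtain ⟨P', hP', hT⟩ := T0_RF h
  have h2 := Lf2_W X c h1 hP' (by omega)
  refine le_trans ?_ h2
  rw [← Finset.sum_div, Finset.sum_comm, div_le_iff₀ (by norm_num), Finset.sum_mul]
  apply Finset.sum_le_sum
  intro x _
  by_cases h3 : Wc X.p c α x
  · rw [if_pos h3]
    have h4 := cb_row h x
    rw [hT] at h4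
    calc (∑ y, if Wc X.p c α x then X.cb α δ j P x y else 0) = ∑ y, X.cb α δ j P x y := by
          apply Finset.sum_congr rfl
          intro y _
          rw [if_pos h3]
      _ ≤ 6 * X.mv α (X.A α δ 0 P') x := h4
      _ = X.mv α (X.A α δ 0 P') x * 6 := by ring
  · rw [if_neg h3, zero_mul]
    apply le_of_eq
    apply Finset.sum_eq_zero
    intro y _
    rw [if_neg h3]

theorem Lf2_d (X : Cx V) {t : ℝ} (ht : t ≤ X.N ^ 16 / X.Δ) :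
    6 * (2 * (1 / (rq X.Δ X.s : ℝ)) ^ 2 * t + 1 / (X.Δ : ℝ) ^ 3) ≤ X.N ^ 30 / (X.Δ : ℝ) ^ 2 := by
  obtain ⟨h1, h2⟩ := Lf2_rq X
  have hN := X.Lnm_N0
  have hN1 := X.N_big
  have hD := X.Lnm_D0
  have h3 : (X.N : ℝ) ^ 87 ≤ X.Δ := by
    have h4 := X.pwN 87 1 (by norm_num)
    rwa [X.Lnm_pw1] at h4
  have h5 : (1 / (rq X.Δ X.s : ℝ)) ^ 2 ≤ (X.N ^ 50 / (16 * X.Δ)) ^ 2 :=
    pow_le_pow_left₀ (by positivity) h1 2
  calc 6 * (2 * (1 / (rq X.Δ X.s : ℝ)) ^ 2 * t + 1 / (X.Δ : ℝ) ^ 3)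
      ≤ 6 * (2 * (1 / (rq X.Δ X.s : ℝ)) ^ 2 * (X.N ^ 16 / X.Δ) + 1 / (X.Δ : ℝ) ^ 3) := by gcongr
    _ ≤ 6 * (2 * (X.N ^ 50 / (16 * X.Δ)) ^ 2 * (X.N ^ 16 / X.Δ) + 1 / (X.Δ : ℝ) ^ 3) := by gcongr
    _ = (12 / 256 * X.N ^ 116 + 6) / (X.Δ : ℝ) ^ 3 := by field_simp; ring
    _ ≤ (X.N ^ 117) / (X.Δ : ℝ) ^ 3 := by
        apply div_le_div_of_nonneg_right _ (by positivity)
        have e1 : (1 : ℝ) ≤ (X.N : ℝ) ^ 116 := one_le_pow₀ X.Lnm_ge1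
        calc (12 / 256 * (X.N : ℝ) ^ 116 + 6) ≤ 7 * (X.N : ℝ) ^ 116 := by linarith
          _ ≤ (X.N : ℝ) * (X.N : ℝ) ^ 116 := by
              apply mul_le_mul_of_nonneg_right _ (by positivity)
              exact le_trans (by norm_num) hN1
          _ = (X.N : ℝ) ^ 117 := by ring
    _ = X.N ^ 30 * X.N ^ 87 / (X.Δ : ℝ) ^ 3 := by ring
    _ ≤ X.N ^ 30 * X.Δ / (X.Δ : ℝ) ^ 3 := by gcongr
    _ = X.N ^ 30 / (X.Δ : ℝ) ^ 2 := by field_simp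

theorem Lf2_e (X : Cx V) {t : ℝ} (ht : t ≤ 6) :
    2 * (1 / (rq X.Δ X.s * X.s : ℝ)) * (1 / (rq X.Δ X.s : ℝ)) * t + (X.Δ : ℝ) ^ (-(7 : ℝ) / 2) ≤
      X.N ^ 102 * X.pw (-3) := by
  obtain ⟨h1, h2⟩ := Lf2_rq X
  have hN := X.Lnm_N0
  have hN1 := X.N_big
  have hD := X.Lnm_D0
  have h3 : (1 / (rq X.Δ X.s * X.s : ℝ)) ≤ X.N ^ 51 * X.pw (-2) := X.rho_bd.2
  have h4 : 0 ≤ (1 / (rq X.Δ X.s * X.s : ℝ)) := by positivity
  have h5 : (X.Δ : ℝ) ^ (-(7 : ℝ) / 2) ≤ X.pw (-3) := by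
    show X.pw (-(7 : ℝ) / 2) ≤ X.pw (-3)
    exact Lf2_mono X (by norm_num)
  have hp := X.pw_pos (-2)
  have e0 : X.pw (-2) * (X.N ^ 50 / (16 * X.Δ)) = X.N ^ 50 / 16 * X.pw (-3) := by
    rw [Lf2_pw2, Lf2_pw3]
    field_simp
  calc 2 * (1 / (rq X.Δ X.s * X.s : ℝ)) * (1 / (rq X.Δ X.s : ℝ)) * t + (X.Δ : ℝ) ^ (-(7 : ℝ) / 2)
      ≤ 2 * (1 / (rq X.Δ X.s * X.s : ℝ)) * (1 / (rq X.Δ X.s : ℝ)) * 6 + X.pw (-3) := by gcongr
    _ ≤ 2 * (X.N ^ 51 * X.pw (-2)) * (X.N ^ 50 / (16 * X.Δ)) * 6 + X.pw (-3) := by gcongr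
    _ = 12 * X.N ^ 51 * (X.pw (-2) * (X.N ^ 50 / (16 * X.Δ))) + X.pw (-3) := by ring
    _ = (3 / 4 * X.N ^ 101 + 1) * X.pw (-3) := by rw [e0]; ring
    _ ≤ X.N ^ 102 * X.pw (-3) := by
        apply mul_le_mul_of_nonneg_right _ (X.pw_pos _).le
        have e1 : (1 : ℝ) ≤ (X.N : ℝ) ^ 101 := one_le_pow₀ X.Lnm_ge1
        calc (3 / 4 * (X.N : ℝ) ^ 101 + 1) ≤ 2 * (X.N : ℝ) ^ 101 := by linarith
          _ ≤ (X.N : ℝ) * (X.N : ℝ) ^ 101 := by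
              apply mul_le_mul_of_nonneg_right _ (by positivity)
              exact le_trans (by norm_num) hN1
          _ = (X.N : ℝ) ^ 102 := by ring

theorem Lf2_card (X : Cx V) {k : ℝ} (hk0 : 0 ≤ k) (hk : k ≤ 2 * X.N ^ 10) :
    k * (4 * (X.s * (2 * ((X.n + 1 : ℕ) : ℝ)))) ≤ Real.exp (X.N ^ 4) := by
  refine le_trans ?_ (Lf1_card X hk)
  have h1 : (4 : ℝ) ≤ 3 * ((X.s + 2 : ℕ) : ℝ) := by
    push_cast
    have : (0 : ℝ) ≤ X.s := Nat.cast_nonneg _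
    linarith
  have h2 : (0 : ℝ) ≤ k * (X.s * (2 * ((X.n + 1 : ℕ) : ℝ))) := by positivity
  calc k * (4 * (X.s * (2 * ((X.n + 1 : ℕ) : ℝ)))) = 4 * (k * (X.s * (2 * ((X.n + 1 : ℕ) : ℝ)))) := by ring
    _ ≤ (3 * ((X.s + 2 : ℕ) : ℝ)) * (k * (X.s * (2 * ((X.n + 1 : ℕ) : ℝ)))) :=
        mul_le_mul_of_nonneg_right h1 h2
    _ = k * (3 * (X.s * (2 * ((X.n + 1 : ℕ) * ((X.s + 2 : ℕ) : ℝ))))) := by ring

/-- stage 2: the tests for `Res` -/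
theorem fam2 (X : Cx V) (c : V → ℕ) (φ : ℝ) (h1 : X.S1 c φ) : ∃ (ι : Type) (_ : Fintype ι)
    (f : V → ι → V → ℝ) (h : V → ι → V → V → ℝ), (Fintype.card ι : ℝ) ≤ Real.exp (X.N ^ 4) ∧
    (∀ v i, LinF X.G X.N X.Δ v (f v i)) ∧ (∀ v i, BilF X.G X.N X.Δ v (h v i)) ∧
    ∀ (Rc : Finset V) (al : V → Fin X.s),
      ResE X.G X.N X.Δ X.s X.p c X.D X.H X.M f h Rc al → X.S2 c φ Rc al := by
  obtain ⟨κ, hκ, e, hcard, hen, -⟩ := Lf1_en X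
  refine ⟨κ × Fin 4 × Fin X.s × ZMod 2 × Fin (X.n + 1), inferInstance,
    fun b i => Lf2_f X c b i.2.2.1 i.2.2.2.1 i.2.2.2.2 (e b i.1 i.2.2.1 i.2.2.2.1 0)
      (e b i.1 i.2.2.1 i.2.2.2.1 i.2.2.2.2) i.2.1,
    fun b i => Lf2_h X b i.2.2.1 i.2.2.2.1 i.2.2.2.2
      (e b i.1 i.2.2.1 i.2.2.2.1 i.2.2.2.2), ?_, ?_, ?_, ?_⟩
  · have h2 := Lf2_card X (Nat.cast_nonneg (Fintype.card κ)) hcard
    refine le_trans (le_of_eq ?_) h2
    rw [Fintype.card_prod, Fintype.card_prod, Fintype.card_prod, Fintype.card_prod,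
      Fintype.card_fin, Fintype.card_fin, Fintype.card_fin, ZMod.card]
    push_cast
    ring
  · exact fun v i => Lf2_lin X c h1 _ _ _ _ _ _ _
  · exact fun v i => Lf2_bil X _ _ _ _ _
  · intro Rc al hR
    have hRFj : ∀ {α : Fin X.s} {δ : ZMod 2} {j r : ℕ} {P : V → ℝ}, X.RF α δ j r P → j < X.n + 1 := by
      intro α δ j r P h
      have := RF_rj h
      omega
    refine ⟨hR.a, fun α δ j v => hR.b α (X.kap α δ j) v, ?_, ?_, ?_, ?_, ?_, ?_⟩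
    · intro α δ r P hP hr
      obtain ⟨b, k, hk, hb⟩ := hen α δ 0 r P hP
      have h4 := hR.c1 b (k, 0, α, δ, 0) α
      have h2 : Lf1_ok X b α δ 0 1 (e b k α δ 0) := ⟨r, by rw [hk]; exact hP, hr, by rw [hk]; exact hb⟩
      have h3 : Lf2_f X c b α δ ((0 : Fin (X.n + 1)) : ℕ) (e b k α δ 0)
          (e b k α δ ((0 : Fin (X.n + 1)) : ℕ)) 0 = X.mv α (X.A α δ 0 P) := by
        unfold Lf2_f
        rw [if_pos rfl, if_pos h2, hk]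
      simp only [h3] at h4
      rw [Lf2_pw3]
      exact h4
    · intro α δ r P hP hr
      obtain ⟨b, k, hk, hb⟩ := hen α δ 0 r P hP
      have h4 := hR.c2 b (k, 0, α, δ, 0) α
      have h2 : Lf1_ok X b α δ 0 1 (e b k α δ 0) := ⟨r, by rw [hk]; exact hP, hr, by rw [hk]; exact hb⟩
      have h3 : Lf2_f X c b α δ ((0 : Fin (X.n + 1)) : ℕ) (e b k α δ 0)
          (e b k α δ ((0 : Fin (X.n + 1)) : ℕ)) 0 = X.mv α (X.A α δ 0 P) := by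
        unfold Lf2_f
        rw [if_pos rfl, if_pos h2, hk]
      simp only [h3] at h4
      rw [Lf2_pw3]
      exact h4
    · intro α δ j r P hP hr
      obtain ⟨b, k, hk, hb⟩ := hen α δ j r P hP
      have h4 := hR.c2 b (k, 1, α, δ, ⟨j, hRFj hP⟩) α
      have h2 : Lf1_ok X b α δ j 0 (e b k α δ j) := ⟨r, by rw [hk]; exact hP, hr, by rw [hk]; exact hb⟩
      have h3 : Lf2_f X c b α δ j (e b k α δ 0) (e b k α δ j) 1 =
          X.mv α (X.T0 α δ j (X.gB (X.disW c α) α δ j P)) := by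
        unfold Lf2_f
        rw [if_neg (by decide), if_pos rfl, if_pos h2, hk]
      simp only [h3] at h4
      rw [Lf2_pw3]
      exact h4
    · intro α δ j r P hP hr
      obtain ⟨b, k, hk, hb⟩ := hen α δ j r P hP
      have h4 := hR.c2 b (k, 2, α, δ, ⟨j, hRFj hP⟩) α
      have h2 : Lf1_ok X b α δ j 0 (e b k α δ j) := ⟨r, by rw [hk]; exact hP, hr, by rw [hk]; exact hb⟩
      have h3 : Lf2_f X c b α δ j (e b k α δ 0) (e b k α δ j) 2 =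
          X.mv α (X.T0 α δ j (X.gD α δ j P)) := by
        unfold Lf2_f
        rw [if_neg (by decide), if_neg (by decide), if_pos rfl, if_pos h2, hk]
      simp only [h3] at h4
      rw [Lf2_pw3]
      exact h4
    · intro α δ j r P hP hr
      obtain ⟨b, k, hk, hb⟩ := hen α δ j r P hP
      have h4 := hR.d b (k, 3, α, δ, ⟨j, hRFj hP⟩) α
      have h2 : Lf1_ok X b α δ j 0 (e b k α δ j) := ⟨r, by rw [hk]; exact hP, hr, by rw [hk]; exact hb⟩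
      have h3 : Lf2_f X c b α δ j (e b k α δ 0) (e b k α δ j) 3 =
          (fun y => (∑ x, if Wc X.p c α x then X.cb α δ j P x y else 0) / 6) := by
        unfold Lf2_f
        rw [if_neg (by decide), if_neg (by decide), if_neg (by decide), if_pos h2, hk]
      simp only [h3] at h4
      have h5 := Lf2_sw X c Rc (α := α) (δ := δ) (j := j) (P := P)
      refine le_trans (le_of_eq h5) (le_trans ?_ (Lf2_d X (Lf2_tot X c h1 hP hr)))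
      exact mul_le_mul_of_nonneg_left h4 (by norm_num)
    · intro α δ j r P hP hr
      obtain ⟨b, k, hk, hb⟩ := hen α δ j r P hP
      have h4 := hR.e b (k, 0, α, δ, ⟨j, hRFj hP⟩) α
      have h2 : Lf1_ok X b α δ j 0 (e b k α δ j) := ⟨r, by rw [hk]; exact hP, hr, by rw [hk]; exact hb⟩
      have h3 : Lf2_h X b α δ j (e b k α δ j) = X.cb α δ j P := by
        unfold Lf2_h
        rw [if_pos h2, hk]
      simp only [h3] at h4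
      exact le_trans h4 (Lf2_e X (cb_l1 hP))

end Cx

end Pool.Agent.H2.LN
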