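import Pool.Agent.H2.LN.L.Bmt
import Pool.Agent.H2.LN.L.Lf1
import Pool.Agent.H2.LN.L.Lf2
import Pool.Agent.H2.LN.L.Lax

/-!
MP_b8729f, project LN: block L (transport), assembly.
-/

set_option autoImplicit false
set_option linter.unusedSectionVars false

namespace Pool.Agent.H2.LN

open Finset Classical
open Pool.Agent.H65.GI

theorem trn_main : Top.TrnP := by
  intro N Δ pm V _ G reg s χ D H cl crd M z hb p hp1 hp2 sc hsc
  let X : Cx V :=
    { G := G, N := N, Δ := Δ, s := s, p := p, sc := sc, χ := χ, D := D, H := H, cl := cl, crd := crd,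
      M := M, z := z, pm := pm, reg := reg, base := hb, hp1 := hp1, hp2 := hp2, hsc := hsc }
  obtain ⟨ι, i1, f, h, Fr, h1, h2, h3⟩ := Cx.fam1 X
  refine ⟨ι, i1, f, h, Fr, h1, h2, ?_⟩
  intro c0 φ hc c hcc
  have s1 : X.S1 c φ := h3 c0 φ hc c hcc
  refine ⟨s1.k2, ?_⟩
  obtain ⟨ι', i2, f', h', g1, g2, g3, g4⟩ := Cx.fam2 X c φ s1
  refine ⟨ι', i2, f', h', g1, g2, g3, ?_⟩
  intro Rc al hR
  have s2 : X.S2 c φ Rc al := g4 Rc al hR
  obtain ⟨Y, e1, -, e3, e4⟩ := Cx.An_ex c φ Rc al s1 s2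
  obtain ⟨M', hM⟩ := Y.mat
  rw [e1, e3, e4] at hM
  exact ⟨M', hM⟩

end Pool.Agent.H2.LN
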